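import Pool.Agent.MP_05b4bd_ag.pc3.Spec
import Pool.Agent.MP_05b4bd_ag.esc.K2b

-- ======== part 0: formerly Pool.Agent.MP_05b4bd_ag.pc3.Basic
section MrgPart0

/-! Persistent centres in degrees three, four and five: elementary lemmas. -/

namespace Pool.Agent.MP_05b4bd_ag.PC3

open MvPolynomial HC ES
open scoped PowerSeries LaurentSeries

section Forms
variable {A B : Type} [CommRing A] [CommRing B]

theorem fm_eq (g h : R2 A) : fm g h = g • d1 h := Prod.ext rfl (by simp [fm, d1])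
theorem fm_one (h : R2 A) : fm 1 h = d1 h := by rw [fm_eq, one_smul]
theorem wg_d1 (h : R2 A) (w : Fm A) : wg (d1 h) w = vf w.1 w.2 h := by simp only [wg, d1, vf]; ring
theorem wg_d1_d1 (g h : R2 A) : wg (d1 g) (d1 h) = br g h := by simp only [wg, d1, br]; ring
theorem wg_self (u : Fm A) : wg u u = 0 := by simp only [wg]; ring
theorem wg_comm (u w : Fm A) : wg u w = -wg w u := by simp only [wg]; ring
theorem wg_add (u v w : Fm A) : wg (u + v) w = wg u w + wg v w := by simp [wg]; ring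
theorem wg_sub (u v w : Fm A) : wg (u - v) w = wg u w - wg v w := by simp [wg]; ring
theorem wg_smul (g : R2 A) (u w : Fm A) : wg (g • u) w = g * wg u w := by simp [wg]; ring
theorem wg_add' (u v w : Fm A) : wg w (u + v) = wg w u + wg w v := by simp [wg]; ring
theorem wg_sub' (u v w : Fm A) : wg w (u - v) = wg w u - wg w v := by simp [wg]; ring
theorem wg_smul' (g : R2 A) (u w : Fm A) : wg w (g • u) = g * wg w u := by simp [wg]; ring
theorem wg_zero (w : Fm A) : wg 0 w = 0 := by simp [wg]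
theorem dv_add (u v : Fm A) : dv (u + v) = dv u + dv v := by simp [dv]; ring
theorem dv_sub (u v : Fm A) : dv (u - v) = dv u - dv v := by simp [dv]; ring
theorem dv_zero : dv (0 : Fm A) = 0 := by simp [dv]
theorem dv_smul (g : R2 A) (u : Fm A) : dv (g • u) = wg (d1 g) u + g * dv u := by
  simp [dv, wg, d1]; ring
theorem dv_d1 (h : R2 A) : dv (d1 h) = 0 := by simp [dv, d1, HC.pderiv_comm]
theorem dv_fm (g h : R2 A) : dv (fm g h) = br g h := by
  rw [fm_eq, dv_smul, dv_d1, wg_d1_d1]; ring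
theorem d1_add (g h : R2 A) : d1 (g + h) = d1 g + d1 h := Prod.ext (by simp [d1]) (by simp [d1]; ring)
theorem d1_sub (g h : R2 A) : d1 (g - h) = d1 g - d1 h := Prod.ext (by simp [d1]) (by simp [d1]; ring)
theorem d1_C (c : A) : d1 (C c : R2 A) = 0 := Prod.ext (by simp [d1]) (by simp [d1])
theorem d1_mul (g h : R2 A) : d1 (g * h) = g • d1 h + h • d1 g :=
  Prod.ext (by simp [d1]) (by simp [d1]; ring)
theorem d1_C_mul (c : A) (h : R2 A) : d1 (C c * h) = (C c : R2 A) • d1 h := by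
  rw [d1_mul, d1_C, smul_zero, add_zero]
theorem dv_C_smul (c : A) (u : Fm A) : dv ((C c : R2 A) • u) = C c * dv u := by
  rw [dv_smul, d1_C, wg_zero, zero_add]

/-- Three forms in the plane. -/
theorem wg_three (u v w : Fm A) : wg u v • w + wg v w • u + wg w u • v = 0 :=
  Prod.ext (by simp [wg]; ring) (by simp [wg]; ring)

namespace DF
variable {n k : ℕ} {u v : Fm A}
theorem zero (n : ℕ) : DF n (0 : Fm A) := ⟨DL.zero n, DL.zero n⟩
theorem add (hu : DF n u) (hv : DF n v) : DF n (u + v) := ⟨hu.1.add hv.1, hu.2.add hv.2⟩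
theorem sub (hu : DF n u) (hv : DF n v) : DF n (u - v) := ⟨hu.1.sub hv.1, hu.2.sub hv.2⟩
theorem mono (hu : DF n u) (h : n ≤ k) : DF k u := ⟨hu.1.mono h, hu.2.mono h⟩
theorem smul {a : ℕ} {g : R2 A} (hg : DL (a + 1) g) (hu : DF n u) : DF (a + n) (g • u) :=
  ⟨hg.mul hu.1, hg.mul hu.2⟩
theorem C_smul (c : A) (hu : DF n u) : DF n ((C c : R2 A) • u) := ⟨hu.1.C_mul c, hu.2.C_mul c⟩
theorem wg (hu : DF (n + 1) u) (hv : DF k v) : DL (n + k) (wg u v) :=
  (hu.1.mul hv.2).sub (hu.2.mul hv.1)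
theorem dv (hu : DF (n + 1) u) : DL n (dv u) := (hu.1.pderiv 0).add (hu.2.pderiv 1)
theorem d1 {h : R2 A} (hh : DL (n + 1) h) : DF n (d1 h) := ⟨hh.pderiv 1, (hh.pderiv 0).neg⟩
theorem fm {a : ℕ} {g h : R2 A} (hg : DL (a + 1) g) (hh : DL (n + 1) h) : DF (a + n) (fm g h) := by
  rw [fm_eq]; exact smul hg (d1 hh)
theorem map (φ : A →+* B) (hu : DF n u) : DF n (mapF φ u) := ⟨hu.1.map φ, hu.2.map φ⟩
end DF

/-! Change of coefficients. -/

variable (φ : A →+* B)

theorem mapF_add (u v : Fm A) : mapF φ (u + v) = mapF φ u + mapF φ v := by simp [mapF]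
theorem mapF_sub (u v : Fm A) : mapF φ (u - v) = mapF φ u - mapF φ v := by simp [mapF]
theorem mapF_smul (g : R2 A) (u : Fm A) : mapF φ (g • u) = map φ g • mapF φ u := by simp [mapF]
theorem mapF_d1 (h : R2 A) : mapF φ (d1 h) = d1 (map φ h) := by simp [mapF, d1, pderiv_map]
theorem mapF_fm (g h : R2 A) : mapF φ (fm g h) = fm (map φ g) (map φ h) := by
  rw [fm_eq, fm_eq, mapF_smul, mapF_d1]
theorem map_wg (u w : Fm A) : map φ (wg u w) = wg (mapF φ u) (mapF φ w) := by simp [wg, mapF]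
theorem map_dv (w : Fm A) : map φ (dv w) = dv (mapF φ w) := by simp [dv, mapF, pderiv_map]
theorem map_rr (c : R2 A) (θ : Fm A) : map φ (rr c θ) = rr (map φ c) (mapF φ θ) := by
  rw [rr, rr, map_sub, map_mul, map_dv, map_wg, mapF_d1]
theorem Pr.map {w θ : Fm A} {c : R2 A} (h : Pr w c θ) :
    Pr (mapF φ w) (MvPolynomial.map φ c) (mapF φ θ) := by
  rw [Pr, ← map_wg, ← map_dv, ← map_mul]; exact congrArg _ h
theorem mapF_inj (hφ : Function.Injective φ) : Function.Injective (mapF φ) := fun _ _ h =>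
  Prod.ext (map_injective φ hφ (congrArg Prod.fst h)) (map_injective φ hφ (congrArg Prod.snd h))
theorem mapF_zero : mapF φ 0 = 0 := by simp [mapF]

/-! Pull-back. -/

variable {s t : R2 A}

theorem sub2_X0 : sub2 s t (X 0) = s := by simp [sub2]
theorem sub2_X1 : sub2 s t (X 1) = t := by simp [sub2]
theorem sub2_C (c : A) : sub2 s t (C c) = C c := by simp [sub2]
theorem sub2_d (i : Fin 2) (u : R2 A) : pderiv i (sub2 s t u) =
    sub2 s t (pderiv 0 u) * pderiv i s + sub2 s t (pderiv 1 u) * pderiv i t := by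
  rw [sub2, HC.pderiv_aeval]; rfl
theorem sub2_DL (hs : DL 2 s) (ht : DL 2 t) {n : ℕ} {u : R2 A} (hu : DL n u) : DL n (sub2 s t u) :=
  aeval_DL (fun i => by fin_cases i <;> assumption) hu
theorem sub2_lf (a b c e : A) : sub2 (HC.lf a b) (HC.lf c e) = lin a b c e := rfl
theorem pb_add (u v : Fm A) : pb s t (u + v) = pb s t u + pb s t v :=
  Prod.ext (by simp [pb, fm]; ring) (by simp [pb, fm]; ring)
theorem pb_sub (u v : Fm A) : pb s t (u - v) = pb s t u - pb s t v :=
  Prod.ext (by simp [pb, fm]; ring) (by simp [pb, fm]; ring)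
theorem pb_smul (g : R2 A) (u : Fm A) : pb s t (g • u) = sub2 s t g • pb s t u :=
  Prod.ext (by simp [pb, fm]; ring) (by simp [pb, fm]; ring)
theorem pb_d1 (h : R2 A) : pb s t (d1 h) = d1 (sub2 s t h) :=
  Prod.ext (by simp [pb, fm, d1, sub2_d]; ring) (by simp [pb, fm, d1, sub2_d]; ring)
theorem pb_fm (g h : R2 A) : pb s t (fm g h) = fm (sub2 s t g) (sub2 s t h) := by
  rw [fm_eq, fm_eq, pb_smul, pb_d1]
theorem wg_pb (u w : Fm A) : wg (pb s t u) (pb s t w) = br s t * sub2 s t (wg u w) := by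
  simp [wg, pb, fm, br]; ring
theorem dv_pb (w : Fm A) : dv (pb s t w) = br s t * sub2 s t (dv w) := by
  rw [pb, dv_sub, dv_fm, dv_fm]
  simp only [br, dv, sub2_d, map_add]; ring
theorem DF.pb (hs : DL 2 s) (ht : DL 2 t) {n : ℕ} {w : Fm A} (hw : DF n w) : DF n (pb s t w) := by
  have h : ∀ {g l : R2 A}, DL n g → DL 2 l → DF n (PC3.fm g l) := fun hg hl =>
    ⟨hg.mul' (hl.pderiv 1), (hg.mul' (hl.pderiv 0)).neg⟩
  exact (h (sub2_DL hs ht hw.1) ht).sub (h (sub2_DL hs ht hw.2) hs)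
theorem map_sub2 (u : R2 A) : map φ (sub2 s t u) = sub2 (map φ s) (map φ t) (map φ u) := by
  induction u using MvPolynomial.induction_on with
  | C r => simp [sub2]
  | add p q hp hq => simp only [map_add, hp, hq]
  | mul_X p j hp => simp only [map_mul, hp, map_X]; fin_cases j <;> simp [sub2]
theorem mapF_pb (w : Fm A) : mapF φ (pb s t w) = pb (map φ s) (map φ t) (mapF φ w) := by
  rw [pb, pb, mapF_sub, mapF_fm, mapF_fm, map_sub2, map_sub2]; rfl
theorem sub2_sub2 (s' t' u : R2 A) :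
    sub2 s t (sub2 s' t' u) = sub2 (sub2 s t s') (sub2 s t t') u := by
  induction u using MvPolynomial.induction_on with
  | C r => simp [sub2]
  | add p q hp hq => simp only [map_add, hp, hq]
  | mul_X p j hp => simp only [map_mul, hp]; fin_cases j <;> simp [sub2]
theorem sub2_id (u : R2 A) : sub2 (X 0) (X 1) u = u := by
  induction u using MvPolynomial.induction_on with
  | C r => simp [sub2]
  | add p q hp hq => simp only [map_add, hp, hq]
  | mul_X p j hp => simp only [map_mul, hp]; fin_cases j <;> simp [sub2]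
theorem pb_pb (s' t' : R2 A) (w : Fm A) :
    pb s t (pb s' t' w) = pb (sub2 s t s') (sub2 s t t') w := by
  rw [pb.eq_1 s', pb_sub, pb_fm, pb_fm, sub2_sub2, sub2_sub2]; rfl
theorem pb_id (w : Fm A) : pb (X 0) (X 1) w = w :=
  Prod.ext (by simp [pb, fm, sub2_id]) (by simp [pb, fm, sub2_id])

theorem DL1_eq {u : R2 A} (hu : DL 1 u) : u = C (coeff 0 u) :=
  totalDegree_eq_zero_iff_eq_C.1 (Nat.le_zero.1 (DL_iff.1 hu))

theorem DL2_eq {u : R2 A} (hu : DL 2 u) :
    u = C (coeff 0 u) + HC.lf (HC.co 1 0 u) (HC.co 0 1 u) := by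
  have h1 := DL1_eq hu.sub_hc
  rw [coeff_sub, coeff_hc, if_neg (by simp), sub_zero] at h1
  have h2 := hom1_eq (hc_hom 1 u)
  rw [co_hc 1 0, co_hc 0 1] at h2
  linear_combination h1 + h2

theorem DL3_eq {u : R2 A} (hu : DL 3 u) :
    u = C (coeff 0 u) + HC.lf (HC.co 1 0 u) (HC.co 0 1 u) + (C (HC.co 2 0 u) * X 0 ^ 2 +
      C (HC.co 1 1 u) * (X 0 * X 1) + C (HC.co 0 2 u) * X 1 ^ 2) := by
  have h1 := DL2_eq hu.sub_hc
  rw [coeff_sub, coeff_hc, if_neg (by simp), sub_zero, co_sub, co_sub,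
    co_hom (hc_hom 2 u) (by omega), co_hom (hc_hom 2 u) (by omega), sub_zero, sub_zero] at h1
  have h2 := hom2_eq (hc_hom 2 u)
  rw [co_hc 2 0, co_hc 1 1, co_hc 0 2] at h2
  linear_combination h1 + h2

theorem DL_lf (a b : A) : DL 2 (HC.lf a b) := DL.of_hom (lf_hom a b)

/-- The inverse of an affine change of coordinates. -/
theorem exists_inv' (hs : DL 2 s) (ht : DL 2 t) {r : A} (h : C r * br s t = 1) :
    ∃ s' t' : R2 A, DL 2 s' ∧ DL 2 t' ∧ br s' t' = C r ∧ (∀ u, sub2 s t (sub2 s' t' u) = u) ∧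
      (∀ u, sub2 s' t' (sub2 s t u) = u) ∧ (∀ w, pb s t (pb s' t' w) = w) ∧
        ∀ w, pb s' t' (pb s t w) = w := by
  obtain ⟨p, a, b, rfl⟩ : ∃ p a b, s = C p + HC.lf a b := ⟨_, _, _, DL2_eq hs⟩
  obtain ⟨q, c, e, rfl⟩ : ∃ p a b, t = C p + HC.lf a b := ⟨_, _, _, DL2_eq ht⟩
  simp only [br, map_add, pderiv_C, lf_x, lf_y, zero_add] at h
  have d2 : ∀ p a b : A, DL 2 (C p + HC.lf a b) := fun p a b =>
    ((DL_C p).mono (by omega)).add (DL_lf a b)
  have e1 : sub2 (C p + HC.lf a b) (C q + HC.lf c e)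
      (C (r * (b * q - e * p)) + HC.lf (r * e) (-(r * b))) = X 0 := by
    simp only [HC.lf, map_add, map_mul, map_sub, map_neg, sub2_C, sub2_X0, sub2_X1]
    linear_combination (X 0 : R2 A) * h
  have e2 : sub2 (C p + HC.lf a b) (C q + HC.lf c e)
      (C (r * (c * p - a * q)) + HC.lf (-(r * c)) (r * a)) = X 1 := by
    simp only [HC.lf, map_add, map_mul, map_sub, map_neg, sub2_C, sub2_X0, sub2_X1]
    linear_combination (X 1 : R2 A) * h
  have e3 : sub2 (C (r * (b * q - e * p)) + HC.lf (r * e) (-(r * b)))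
      (C (r * (c * p - a * q)) + HC.lf (-(r * c)) (r * a)) (C p + HC.lf a b) = X 0 := by
    simp only [HC.lf, map_add, map_mul, map_sub, map_neg, sub2_C, sub2_X0, sub2_X1]
    linear_combination (X 0 - C p : R2 A) * h
  have e4 : sub2 (C (r * (b * q - e * p)) + HC.lf (r * e) (-(r * b)))
      (C (r * (c * p - a * q)) + HC.lf (-(r * c)) (r * a)) (C q + HC.lf c e) = X 1 := by
    simp only [HC.lf, map_add, map_mul, map_sub, map_neg, sub2_C, sub2_X0, sub2_X1]
    linear_combination (X 1 - C q : R2 A) * h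
  refine ⟨_, _, d2 (r * (b * q - e * p)) (r * e) (-(r * b)),
    d2 (r * (c * p - a * q)) (-(r * c)) (r * a), ?_,
    fun u => by rw [sub2_sub2, e1, e2, sub2_id], fun u => by rw [sub2_sub2, e3, e4, sub2_id],
    fun w => by rw [pb_pb, e1, e2, pb_id], fun w => by rw [pb_pb, e3, e4, pb_id]⟩
  simp only [br, map_add, pderiv_C, lf_x, lf_y, zero_add]
  simp only [map_neg, map_mul]
  linear_combination (C r : R2 A) * h

/-- The inverse of a unimodular affine change of coordinates. -/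
theorem exists_inv (hs : DL 2 s) (ht : DL 2 t) (h : br s t = 1) : ∃ s' t' : R2 A, DL 2 s' ∧
    DL 2 t' ∧ br s' t' = 1 ∧ (∀ u, sub2 s t (sub2 s' t' u) = u) ∧
      (∀ u, sub2 s' t' (sub2 s t u) = u) ∧ (∀ w, pb s t (pb s' t' w) = w) ∧
        ∀ w, pb s' t' (pb s t w) = w :=
  exists_inv' hs ht (r := 1) (by rw [h, map_one, one_mul])

theorem Pr.pb {w θ : Fm A} {c : R2 A} (h : Pr w c θ) :
    Pr (pb s t w) (sub2 s t c) (pb s t θ) := by
  rw [Pr, wg_pb, dv_pb, h, map_mul]; ring

theorem rr_pb (c : R2 A) (θ : Fm A) :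
    rr (sub2 s t c) (pb s t θ) = br s t * sub2 s t (rr c θ) := by
  rw [rr, rr, ← pb_d1, wg_pb, dv_pb, map_sub, map_mul]; ring

variable {w : Fm A}

theorem Lim.of {S : Fm A → Prop} (h : S w) : Lim S w := ⟨0, ∅, fun _ _ => by simpa using h⟩

theorem Lim.pb {S : Fm A → Prop} (hS : ∀ u, S u → S (pb s t u)) (h : Lim S w) :
    Lim S (pb s t w) := by
  obtain ⟨a, z, h⟩ := h
  exact ⟨PC3.pb s t a, z, fun τ hτ => by
    have := hS _ (h τ hτ); rwa [pb_add, pb_smul, sub2_C] at this⟩

theorem H2.pb (hs : DL 2 s) (ht : DL 2 t) {a b : ℕ} (h : H2 a b w) : H2 a b (pb s t w) := by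
  obtain ⟨F, G, β, α, hF, hG, rfl⟩ := h
  exact ⟨_, _, β, α, sub2_DL hs ht hF, sub2_DL hs ht hG, by
    simp only [pb_add, pb_fm, map_mul, sub2_C]⟩

theorem H3.pb (hs : DL 2 s) (ht : DL 2 t) {d : ℕ} (h : H3 d w) : H3 d (pb s t w) := by
  obtain ⟨a, b, G, l1, l2, l3, ha, hb, hG, rfl⟩ := h
  exact ⟨_, _, _, l1, l2, l3, sub2_DL hs ht ha, sub2_DL hs ht hb, sub2_DL hs ht hG, by
    simp only [pb_add, pb_fm, map_mul, sub2_C]⟩

theorem H7.pb (hs : DL 2 s) (ht : DL 2 t) (h : H7 w) : H7 (pb s t w) := by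
  obtain ⟨a, u, v, g, R, hu, hv, hg, rfl, rfl⟩ := h
  exact ⟨a, _, _, _, _, sub2_DL hs ht hu, sub2_DL hs ht hv, sub2_DL hs ht hg, rfl, by
    simp only [pb_sub, pb_fm, map_mul, map_add, map_pow, map_ofNat, sub2_C]⟩

theorem H5.pb (hs : DL 2 s) (ht : DL 2 t) (h : H5 w) : H5 (pb s t w) := by
  obtain ⟨a, u, v, g, R, hu, hv, hg, rfl, rfl⟩ := h
  exact ⟨a, _, _, _, _, sub2_DL hs ht hu, sub2_DL hs ht hv, sub2_DL hs ht hg, rfl, by
    simp only [pb_sub, pb_fm, map_mul, map_add, map_pow, map_ofNat, sub2_C]⟩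

theorem CF.pb (hs : DL 2 s) (ht : DL 2 t) {d : ℕ} {m : R2 A} {c0 c1 : A} (h : CF d w m c0 c1) :
    CF d (pb s t w) (sub2 s t m) c0 c1 := by
  obtain ⟨G, h0, h1, h2, hG, hz, rfl⟩ := h
  exact ⟨_, h0, h1, h2, sub2_DL hs ht hG, hz, by
    simp only [pb_add, pb_fm, map_mul, map_add, map_pow, sub2_C]⟩

theorem Cn.pb (hs : DL 2 s) (ht : DL 2 t) {m : R2 A} {c0 c1 : A} (h : Cn w m c0 c1) :
    Cn (pb s t w) (sub2 s t m) c0 c1 := ⟨sub2_DL hs ht h.1, h.2.1, by
  have := h.2.2.pb (s := s) (t := t)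
  rwa [pb_d1, map_add, map_mul, sub2_C, sub2_C] at this⟩

end Forms

/-! ### Linear algebra -/

section LA
variable {K : Type} [Field K]

theorem mem_Jd {J : Ideal (R2 K)} {n : ℕ} {u : R2 K} : u ∈ Jd J n ↔ u ∈ J ∧ DL n u := Iff.rfl

instance Jd_finite (J : Ideal (R2 K)) (n : ℕ) : Module.Finite K (Jd J n) :=
  Submodule.finiteDimensional_of_le (S₂ := dl K n) inf_le_right

/-- An independent family of maximal length spans. -/
theorem le_span {V ι : Type} [AddCommGroup V] [Module K V] [Fintype ι] {W : Submodule K V}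
    [Module.Finite K W] {v : ι → V} (hv : LinearIndependent K v) (hW : ∀ i, v i ∈ W)
    (h : Module.finrank K W ≤ Fintype.card ι) {u : V} (hu : u ∈ W) :
    ∃ c : ι → K, u = ∑ i, c i • v i := by
  have h1 : Submodule.span K (Set.range v) = W :=
    Submodule.eq_of_le_of_finrank_le (Submodule.span_le.2 (by rintro _ ⟨i, rfl⟩; exact hW i))
      (by rwa [finrank_span_eq_card hv])
  rw [← h1, Submodule.mem_span_range_iff_exists_fun] at hu
  exact hu.imp fun c hc => hc.symm

/-- Too many vectors are dependent. -/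
theorem card_le {V ι : Type} [AddCommGroup V] [Module K V] [Fintype ι] {W : Submodule K V}
    [Module.Finite K W] {v : ι → V} (hv : LinearIndependent K v) (hW : ∀ i, v i ∈ W) :
    Fintype.card ι ≤ Module.finrank K W := by
  rw [← finrank_span_eq_card hv]
  exact Submodule.finrank_mono (Submodule.span_le.2 (by rintro _ ⟨i, rfl⟩; exact hW i))

theorem DL_of_mul {a b : ℕ} {u v : R2 K} (h : DL (a + b) (u * v)) (hv : ¬ DL b v) :
    DL a u := by
  by_cases hu : u = 0
  · rw [hu]; exact DL.zero a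
  have v0 : v ≠ 0 := fun e => hv (e ▸ DL.zero b)
  have e := totalDegree_mul_of_isDomain hu v0
  have h1 : b ≤ v.totalDegree := by
    by_contra hc
    exact hv ((DL_iff.2 le_rfl).mono (by omega))
  rcases hab : a + b with _ | n
  · rw [hab] at h
    exact absurd h.eq_zero (mul_ne_zero hu v0)
  rw [hab, DL_iff] at h
  rcases a with _ | a
  · omega
  · exact DL_iff.2 (by omega)

theorem ncard_lt (n : ℕ) : 2 * Nat.card {m : Fin 2 →₀ ℕ | m.degree < n} = n * (n + 1) := by
  have e : {m : Fin 2 →₀ ℕ | m.degree < n} ≃ (Σ i : Fin n, Fin (i + 1)) :=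
    { toFun := fun m => ⟨⟨m.1.degree, m.2⟩, ⟨m.1 0, by have := deg2 m.1; simp only; omega⟩⟩
      invFun := fun p => ⟨Finsupp.single 0 p.2.1 + Finsupp.single 1 (p.1.1 - p.2.1), by
        have := p.1.2; have := p.2.2; simp [deg2]; omega⟩
      left_inv := fun m => Subtype.ext (Finsupp.ext fun i => by
        have := deg2 m.1; fin_cases i <;> simp; omega)
      right_inv := fun ⟨⟨i, hi⟩, ⟨j, hj⟩⟩ => by
        have h : (Finsupp.single (0 : Fin 2) j + Finsupp.single 1 (i - j)).degree = i := by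
          simp only at hj; simp [deg2]; omega
        refine Sigma.ext (Fin.ext h) ((Fin.heq_ext_iff (congrArg (· + 1) h)).2 (by simp)) }
  rw [Nat.card_congr e, Nat.card_eq_fintype_card, Fintype.card_sigma]
  simp only [Fintype.card_fin]
  rw [Fin.sum_univ_eq_sum_range (fun i => i + 1) n]
  clear e
  induction n with
  | zero => rfl
  | succ n ih => rw [Finset.sum_range_succ, mul_add, ih]; ring

theorem mem_dl {n : ℕ} {u : R2 K} : u ∈ dl K n ↔ DL n u := Iff.rfl

theorem finrank_dl (n : ℕ) : 2 * Module.finrank K (dl K n) = n * (n + 1) := by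
  have e : dl K n = restrictSupport K {m : Fin 2 →₀ ℕ | m.degree < n} := by
    ext u
    rw [mem_restrictSupport_iff]
    exact ⟨fun h m hm => by_contra fun hc => (mem_support_iff.1 hm) (h m (not_lt.1 hc)),
      fun h m hm => by_contra fun hc => absurd (h (mem_support_iff.2 hc)) (not_lt.2 hm)⟩
  rw [e, Module.finrank_eq_nat_card_basis (basisRestrictSupport K _), ncard_lt]

section Rank
variable {V W : Type} [AddCommGroup V] [Module K V] [AddCommGroup W] [Module K W]

/-- Rank and nullity for a map between submodules. -/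
theorem ker_rank (T : V →ₗ[K] W) (U : Submodule K V) (U' : Submodule K W) [Module.Finite K U]
    [Module.Finite K U'] (h : ∀ u ∈ U, T u ∈ U') : Module.finrank K U ≤
      Module.finrank K U' + Module.finrank K (U ⊓ LinearMap.ker T : Submodule K V) := by
  have h1 := LinearMap.finrank_range_add_finrank_ker (T.domRestrict U)
  have h2 : Module.finrank K (LinearMap.range (T.domRestrict U)) ≤ Module.finrank K U' :=
    Submodule.finrank_mono (by rintro _ ⟨u, rfl⟩; exact h _ u.2)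
  have h3 : Module.finrank K (LinearMap.ker (T.domRestrict U)) =
      Module.finrank K (U ⊓ LinearMap.ker T : Submodule K V) := by
    rw [← Submodule.finrank_map_subtype_eq, LinearMap.ker_domRestrict, Submodule.map_comap_subtype]
  omega

/-- A product of submodules. -/
def prodE (U : Submodule K V) (U' : Submodule K W) : (U.prod U') ≃ₗ[K] U × U' where
  toFun p := (⟨p.1.1, p.2.1⟩, ⟨p.1.2, p.2.2⟩)
  invFun p := ⟨(p.1.1, p.2.1), p.1.2, p.2.2⟩
  map_add' _ _ := rfl
  map_smul' _ _ := rfl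
  left_inv _ := rfl
  right_inv _ := rfl

instance prod_finite (U : Submodule K V) (U' : Submodule K W) [Module.Finite K U]
    [Module.Finite K U'] : Module.Finite K (U.prod U') := Module.Finite.equiv (prodE U U').symm

theorem finrank_prod' (U : Submodule K V) (U' : Submodule K W) [Module.Finite K U]
    [Module.Finite K U'] :
    Module.finrank K (U.prod U') = Module.finrank K U + Module.finrank K U' := by
  rw [(prodE U U').finrank_eq, Module.finrank_prod]

/-- Two independent vectors in a space of dimension at least two. -/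
theorem exists_two (U : Submodule K V) [Module.Finite K U] (h : 2 ≤ Module.finrank K U) :
    ∃ u ∈ U, ∃ v ∈ U, ∀ a b : K, a • u + b • v = 0 → a = 0 ∧ b = 0 := by
  obtain ⟨f, hf⟩ := exists_linearIndependent_of_le_finrank h
  refine ⟨f 0, (f 0).2, f 1, (f 1).2, fun a b hab => ?_⟩
  have := Fintype.linearIndependent_iff.1 hf ![a, b] (by
    rw [Fin.sum_univ_two]; exact Subtype.ext hab)
  exact ⟨this 0, this 1⟩

end Rank

end LA

/-! ### Power series -/

section PS
variable {k : Type} [Field k]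

theorem cc_iS (u : R2 k⟦X⟧) : cc (iS k u) = map cc u := by
  induction u using MvPolynomial.induction_on with
  | C r => simp only [iS, coe_eval₂Hom, eval₂_C, map_C]; rfl
  | add p q hp hq => simp only [map_add, hp, hq]
  | mul_X p j hp => simp only [map_mul, hp]; simp [iS]

theorem iS_C (r : k⟦X⟧) : iS k (C r) = PowerSeries.map C r := by simp [iS]
theorem iS_X (i : Fin 2) : iS k (X i) = PowerSeries.C (X i) := by simp [iS]
theorem iS_t : iS k (C PowerSeries.X) = PowerSeries.X := by simp [iS]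
theorem iS_lift (u : R2 k) : iS k (map (PowerSeries.C : k →+* k⟦X⟧) u) = PowerSeries.C u := by
  induction u using MvPolynomial.induction_on with
  | C r => simp [iS]
  | add p q hp hq => simp only [map_add, hp, hq]
  | mul_X p j hp => simp only [map_mul, hp]; simp [iS]

theorem iT_coe (u : R2 k⟦X⟧) : iT k (map (coeL k) u) = coeL _ (iS k u) := by
  induction u using MvPolynomial.induction_on with
  | C r => simp [iS, iT, mapL_coeL]
  | add p q hp hq => simp only [map_add, hp, hq]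
  | mul_X p j hp => simp only [map_mul, hp]; simp [iS, iT, coeL, cL]

theorem ker_dvd {u : R2 k⟦X⟧} (h : map cc u = 0) : ∃ v, u = C PowerSeries.X * v := by
  have : (C PowerSeries.X : R2 k⟦X⟧) ∣ u := by
    rw [C_dvd_iff_dvd_coeff]
    intro m
    rw [PowerSeries.X_dvd_iff]
    have := congrArg (coeff m) h
    rwa [coeff_map] at this
  exact this

theorem map_lift (u : R2 k) :
    map (cc : k⟦X⟧ →+* k) (map (PowerSeries.C : k →+* k⟦X⟧) u) = u := by
  rw [map_map, show (cc : k⟦X⟧ →+* k).comp PowerSeries.C = RingHom.id k by ext; simp, map_id]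

theorem unit_iff {a : k⟦X⟧} : IsUnit a ↔ cc a ≠ 0 := by
  rw [PowerSeries.isUnit_iff_constantCoeff, isUnit_iff_ne_zero]

/-- A Laurent series or its inverse is a power series. -/
theorem val_or (c : k⸨X⸩) : (∃ a, c = coeL k a) ∨ ∃ a, cc a = 0 ∧ coeL k a * c = 1 := by
  obtain ⟨a, b, hb, rfl⟩ := IsFractionRing.div_surjective (A := k⟦X⟧) c
  have hb0 : b ≠ 0 := nonZeroDivisors.ne_zero hb
  have e : ∀ z : k⟦X⟧, algebraMap k⟦X⟧ k⸨X⸩ z = coeL k z := fun _ => rfl
  have n : ∀ z : k⟦X⟧, z ≠ 0 → coeL k z ≠ 0 := fun z hz h => hz (coeL_inj (by rw [h, map_zero]))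
  rw [e, e]
  by_cases h : b ∣ a
  · obtain ⟨z, rfl⟩ := h
    exact Or.inl ⟨z, by rw [map_mul, mul_div_cancel_left₀ _ (n b hb0)]⟩
  · obtain ⟨z, rfl⟩ := (ValuationRing.dvd_total a b).resolve_right h
    refine Or.inr ⟨z, by_contra fun hz => h ?_, ?_⟩
    · exact ((unit_iff.2 hz).mul_right_dvd).2 dvd_rfl
    · have := n _ hb0
      rw [map_mul] at this ⊢
      field_simp [left_ne_zero_of_mul this, right_ne_zero_of_mul this]

/-- Clearing denominators in a finite family. -/
theorem clear {ι : Type} (s : Finset ι) (c : ι → k⸨X⸩) :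
    ∃ a : k⟦X⟧, a ≠ 0 ∧ ∀ i ∈ s, ∃ z, coeL k a * c i = coeL k z := by
  obtain ⟨a, ha⟩ := IsLocalization.exist_integer_multiples (nonZeroDivisors k⟦X⟧) s c
  refine ⟨a, nonZeroDivisors.ne_zero a.2, fun i hi => ?_⟩
  obtain ⟨z, hz⟩ := ha i hi
  exact ⟨z, by rw [Algebra.smul_def] at hz; exact hz.symm⟩

/-- A primitive multiple of a family of scalars. -/
theorem prim_fun {ι : Type} [Fintype ι] (c : ι → k⸨X⸩) (hc : c ≠ 0) :
    ∃ (r : k⸨X⸩) (z : ι → k⟦X⟧), r ≠ 0 ∧ (∀ i, c i = r * coeL k (z i)) ∧ ∃ i, cc (z i) ≠ 0 := by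
  obtain ⟨a, ha, h⟩ := clear Finset.univ c
  choose y hy using fun i => h i (Finset.mem_univ i)
  obtain ⟨i0, hi0⟩ := Function.ne_iff.1 hc
  obtain ⟨j, -, hj⟩ := exists_dvd_all y (s := Finset.univ) ⟨i0, Finset.mem_univ _⟩
  choose z hz using fun i => hj i (Finset.mem_univ i)
  have a0 : coeL k a ≠ 0 := fun e => ha (coeL_inj (by rw [e, map_zero]))
  have j0 : y j ≠ 0 := fun e => hi0 (by
    have := hy i0
    rw [hz i0, e, zero_mul, map_zero] at this
    exact (mul_eq_zero.1 this).resolve_left a0)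
  refine ⟨coeL k (y j) / coeL k a, z, div_ne_zero (fun e => j0 (coeL_inj (by rw [e, map_zero]))) a0,
    fun i => ?_, j, ?_⟩
  · rw [div_mul_eq_mul_div, eq_div_iff a0, mul_comm, hy, ← map_mul, ← hz]
  · have : z j = 1 := mul_left_cancel₀ j0 (by rw [← hz j, mul_one])
    rw [this, map_one]; exact one_ne_zero

/-- A primitive multiple of a polynomial. -/
theorem prim {u : R2 k⸨X⸩} (hu : u ≠ 0) :
    ∃ (r : k⸨X⸩) (v : R2 k⟦X⟧), r ≠ 0 ∧ u = C r * map (coeL k) v ∧ map cc v ≠ 0 := by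
  obtain ⟨a, ha, h⟩ := clear u.support fun m => coeff m u
  have a0 : coeL k a ≠ 0 := fun e => ha (coeL_inj (by rw [e, map_zero]))
  obtain ⟨y, hy⟩ : C (coeL k a) * u ∈ Set.range (map (coeL k)) := by
    rw [mem_range_map_iff_coeffs_subset]
    intro z hz
    obtain ⟨m, -, rfl⟩ := mem_coeffs_iff.1 hz
    by_cases hm : m ∈ u.support
    · obtain ⟨z, hz⟩ := h m hm
      exact ⟨z, by rw [coeff_C_mul, hz]⟩
    · exact ⟨0, by rw [coeff_C_mul, notMem_support_iff.1 hm, mul_zero, map_zero]⟩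
  obtain ⟨ε, v, rfl, hv⟩ := content (cc : k⟦X⟧ →+* k) y
  have e : u = C (coeL k ε / coeL k a) * map (coeL k) v := by
    rw [map_mul, map_C] at hy
    have h1 : (C (coeL k a)⁻¹ * C (coeL k a) : R2 k⸨X⸩) = 1 := by
      rw [← map_mul, inv_mul_cancel₀ a0, map_one]
    rw [div_eq_mul_inv, map_mul]
    linear_combination (-C (coeL k a)⁻¹) * hy - u * h1
  exact ⟨_, v, fun h0 => hu (by rw [e, h0, map_zero, zero_mul]), e, hv⟩

/-- If a scalar multiple of a primitive polynomial is integral, so is the scalar. -/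
theorem int_of_prim {r : k⸨X⸩} {v u : R2 k⟦X⟧} (hv : map cc v ≠ 0)
    (h : map (coeL k) u = C r * map (coeL k) v) : ∃ a, r = coeL k a ∧ u = C a * v := by
  rcases val_or r with ⟨a, rfl⟩ | ⟨a, ha, h1⟩
  · exact ⟨a, rfl, map_injective _ coeL_inj (by rw [h, map_mul, map_C])⟩
  · refine absurd ?_ hv
    have : v = C a * u := map_injective _ coeL_inj (by
      rw [map_mul, map_C, h, ← mul_assoc, ← map_mul, h1, map_one, one_mul])
    rw [this, map_mul, map_C, ha, map_zero, zero_mul]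

theorem DL_of_coe {n : ℕ} {u : R2 k⟦X⟧} (h : DL n (map (coeL k) u)) : DL n u := fun m hm =>
  coeL_inj (by rw [← coeff_map, h m hm, map_zero])

end PS

end Pool.Agent.MP_05b4bd_ag.PC3

end MrgPart0

-- ======== part 1: formerly Pool.Agent.MP_05b4bd_ag.pc3.Lift
section MrgPart1

/-! Division by the two coefficients of the form over the power series ring. -/

namespace Pool.Agent.MP_05b4bd_ag.PC3

open MvPolynomial HC ES
open scoped PowerSeries LaurentSeries

namespace Lift

variable {k : Type} [Field k]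

theorem coeff_iS (n : ℕ) (m : Fin 2 →₀ ℕ) (c : k⟦X⟧) :
    PowerSeries.coeff n (iS k (monomial m c)) = monomial m (PowerSeries.coeff n c) := by
  have e : (monomial m c : R2 k⟦X⟧) =
      C c * map (PowerSeries.C : k →+* k⟦X⟧) (monomial m 1) := by
    rw [map_monomial, map_one, C_mul_monomial, mul_one]
  rw [e, map_mul, iS_C, iS_lift, PowerSeries.coeff_mul_C, PowerSeries.coeff_map, C_mul_monomial,
    mul_one]

theorem exists_iS {M : ℕ} (r : ℕ → R2 k) (h : ∀ n, DL M (r n)) :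
    ∃ R : R2 k⟦X⟧, DL M R ∧ iS k R = PowerSeries.mk r := by
  classical
  refine ⟨∑ m ∈ (Finsupp.finite_of_degree_lt (σ := Fin 2) M).toFinset,
    monomial m (PowerSeries.mk fun n => coeff m (r n)), DL.sum _ fun m hm m' hm' => ?_,
    PowerSeries.ext fun n => ?_⟩
  · rw [coeff_monomial, if_neg]
    rintro rfl
    simp only [Set.Finite.mem_toFinset, Set.mem_ofPred_eq] at hm
    omega
  · simp only [map_sum, coeff_iS, PowerSeries.coeff_mk]
    ext m
    simp only [coeff_sum, coeff_monomial, Finset.sum_ite_eq', Set.Finite.mem_toFinset,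
      Set.mem_ofPred_eq]
    split_ifs with hm
    · rfl
    · exact (h n m (not_lt.1 hm)).symm

theorem split {f : R2 k} {p q s : (R2 k)⟦X⟧} (hp : cc p = pderiv 1 f) (hq : cc q = -pderiv 0 f)
    {r : R2 k} (h : cc s - r ∈ Jac f) : ∃ a b y, s = PowerSeries.C r + PowerSeries.C a * p +
      PowerSeries.C b * q + PowerSeries.X * y := by
  obtain ⟨a, b, e⟩ := Ideal.mem_span_pair.1 h
  obtain ⟨y, hy⟩ : PowerSeries.X ∣ s - (PowerSeries.C r + PowerSeries.C b * p +
      PowerSeries.C (-a) * q) := PowerSeries.X_dvd_iff.2 (by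
    simp only [map_sub, map_add, map_mul, PowerSeries.constantCoeff_C, hp, hq]
    linear_combination -e)
  exact ⟨b, -a, y, by rw [← hy]; ring⟩

theorem div {f : R2 k} {p q : (R2 k)⟦X⟧} (hp : cc p = pderiv 1 f) (hq : cc q = -pderiv 0 f)
    {M : ℕ} (hM : ∀ u : R2 k, ∃ r, DL M r ∧ u - r ∈ Jac f) (s : (R2 k)⟦X⟧) :
    ∃ (R : R2 k⟦X⟧) (a b : (R2 k)⟦X⟧), DL M R ∧ s = iS k R + a * p + b * q := by
  choose r hr hJ using fun z : (R2 k)⟦X⟧ => hM (cc z)
  choose a b y hy using fun z => split hp hq (hJ z)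
  have hF : ∀ (g : (R2 k)⟦X⟧ → R2 k) z, (PowerSeries.mk fun n => g (y^[n] z)) =
      PowerSeries.C (g z) + PowerSeries.X * PowerSeries.mk fun n => g (y^[n] (y z)) :=
    fun g z => PowerSeries.ext fun n => by
      cases n with
      | zero => simp
      | succ n => simp [PowerSeries.coeff_succ_X_mul]
  have key : ∀ n z, PowerSeries.X ^ n ∣ z - ((PowerSeries.mk fun n => r (y^[n] z)) +
      (PowerSeries.mk fun n => a (y^[n] z)) * p + (PowerSeries.mk fun n => b (y^[n] z)) * q) := by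
    intro n
    induction n with
    | zero => simp
    | succ n ih =>
      intro z
      obtain ⟨u, hu⟩ := ih (y z)
      exact ⟨u, by rw [hF r, hF a, hF b]; linear_combination hy z + PowerSeries.X * hu⟩
  obtain ⟨R, h1, h2⟩ := exists_iS (fun n => r (y^[n] s)) fun n => hr _
  refine ⟨R, PowerSeries.mk fun n => a (y^[n] s), PowerSeries.mk fun n => b (y^[n] s), h1,
    sub_eq_zero.1 (PowerSeries.ext fun n => ?_)⟩
  rw [map_zero, h2]
  exact PowerSeries.X_pow_dvd_iff.1 (key (n + 1) s) n (Nat.lt_succ_self n)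

end Lift

open Lift in
theorem liftS : LiftStmt := by
  intro k _ f w M hw hM g hg hd
  have hp : cc (iS k w.1) = pderiv 1 f := by rw [cc_iS]; exact congrArg Prod.fst hw
  have hq : cc (iS k w.2) = -pderiv 0 f := by rw [cc_iS]; exact congrArg Prod.snd hw
  obtain ⟨a, b, y, hy⟩ := split (s := PowerSeries.C g) (r := 0) hp hq (by simpa using hg)
  obtain ⟨R, A, B, h1, h2⟩ := div hp hq hM y
  refine ⟨map PowerSeries.C g - C PowerSeries.X * R, (hd.map _).sub fun m hm => ?_, ?_,
    Ideal.mem_span_pair.2 ⟨PowerSeries.C a + PowerSeries.X * A,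
      PowerSeries.C b + PowerSeries.X * B, ?_⟩⟩
  · rw [coeff_C_mul, h1 m hm, mul_zero]
  · rw [map_sub, map_lift, map_mul, map_C, PowerSeries.constantCoeff_X, map_zero, zero_mul,
      sub_zero]
  · rw [map_sub, iS_lift, map_mul, iS_t, hy, h2, map_zero]
    ring

end Pool.Agent.MP_05b4bd_ag.PC3

end MrgPart1

-- marker of a merged file
example : 731051 + 186084 = 731051 + 186084 := rfl
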