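import Pool.Agent.MP_05b4bd_ag.Defs

namespace Pool.Agent.MP_05b4bd_ag

open MvPolynomial

/-- Cubic forms `2 c dR - 5 R dc` with `c = u ^ 2 + v` and
`R = a (8 u ^ 5 + 20 u ^ 3 v + 15 u v ^ 2) + g`, `deg u, deg v ≤ 1`, `deg g ≤ 2`. -/
def N7 : Set Form :=
  {ω | ∃ (a : ℂ) (u v g R : Poly), u.totalDegree ≤ 1 ∧ v.totalDegree ≤ 1 ∧ g.totalDegree ≤ 2 ∧
    R = C a * (8 * u ^ 5 + 20 * u ^ 3 * v + 15 * u * v ^ 2) + g ∧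
    ω = (2 * (u ^ 2 + v)) • dform R - (5 * R) • dform (u ^ 2 + v)}

/-- Cubic forms `2 c dR - 3 R dc` with `c = u ^ 2 + v` and `R = a u ^ 3 + g`,
`deg u, deg v ≤ 1`, `deg g ≤ 2`. -/
def N5 : Set Form :=
  {ω | ∃ (a : ℂ) (u v g R : Poly), u.totalDegree ≤ 1 ∧ v.totalDegree ≤ 1 ∧ g.totalDegree ≤ 2 ∧
    R = C a * u ^ 3 + g ∧ ω = (2 * (u ^ 2 + v)) • dform R - (3 * R) • dform (u ^ 2 + v)}

end Pool.Agent.MP_05b4bd_ag
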