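import Mathlib.Topology.Algebra.MvPolynomial
import Pool.Agent.MP_05b4bd_ag.esc.IL
import Pool.Agent.MP_05b4bd_ag.hc.Key
import Pool.Agent.MP_05b4bd_ag.esc.Bx
import Pool.Agent.MP_05b4bd_ag.Dim
import Pool.Agent.MP_05b4bd_ag.pc3.Defs

-- ======== part 0: formerly Pool.Agent.MP_05b4bd_ag.esc.Top
section MrgPart0

-- ======== part 0: formerly Pool.Agent.MP_05b4bd_ag.esc.Red
section MrgPart0

namespace Pool.Agent.MP_05b4bd_ag.Esc

open MvPolynomial HC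

variable {k : Type} [Field k] [CharZero k]

theorem nz_full {d : ℕ} {F : R2 k} (hd : 2 ≤ d) (hF : F.IsHomogeneous d)
    (hci : CI (pderiv 0 F) (pderiv 1 F)) {n : ℕ} {r : R2 k} (hr : r.IsHomogeneous n)
    (h : ES.Bt F r) :
    (n + 2 ≤ d → r = 0) ∧ (d ≤ n + 2 → ∃ η : R2 k, η.IsHomogeneous (n + 2 - d) ∧ r = br η F) := by
  obtain ⟨u, w, h⟩ := h
  refine ⟨fun hn => nz_zero hF hci hr hn h, fun hn => ?_⟩
  by_cases h2 : n + 2 ≤ d
  · exact ⟨0, isHomogeneous_zero _ _ _, by rw [nz_zero hF hci hr h2 h, br_zero]⟩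
  obtain ⟨v, hv⟩ := nz hF (by omega) hci hr h
  obtain ⟨e, rfl⟩ : ∃ e, d = e + 1 := ⟨d - 1, by omega⟩
  obtain ⟨m, rfl⟩ : ∃ m, n = m + e := ⟨n - e, by omega⟩
  refine ⟨hc (m + 1) v, ?_, by rw [← hc_br hF, ← hv, hc_self hr]⟩
  rw [show m + e + 2 - (e + 1) = m + 1 by omega]
  exact hc_hom _ _

theorem sum_hc {A : Type*} [CommRing A] {n : ℕ} {u : R2 A} (hu : DL n u) :
    ∑ i ∈ Finset.range n, hc i u = u := by
  induction n generalizing u with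
  | zero => rw [hu.eq_zero]; simp
  | succ n ih =>
    have h1 := ih hu.sub_hc
    rw [Finset.sum_range_succ, ← eq_sub_iff_add_eq, ← h1]
    refine Finset.sum_congr rfl fun i hi => ?_
    rw [hc_sub, hc_ne (hc_hom n u) (Finset.mem_range.1 hi).ne, sub_zero]

theorem euler_sum {A : Type*} [CommRing A] {d : ℕ} {f : R2 A} (hf : DL (d + 1) f) :
    X 0 * pderiv 0 f + X 1 * pderiv 1 f =
      (d : R2 A) * f - ∑ e ∈ Finset.range d, ((e : R2 A) + 1) * hc (d - (e + 1)) f := by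
  have h1 : X 0 * pderiv 0 f + X 1 * pderiv 1 f = ∑ i ∈ Finset.range (d + 1), (i : R2 A) * hc i f := by
    conv_lhs => rw [← sum_hc hf]
    simp only [map_sum, Finset.mul_sum, ← Finset.sum_add_distrib]
    exact Finset.sum_congr rfl fun i _ => euler (hc_hom i f)
  have h2 : (d : R2 A) * f = ∑ i ∈ Finset.range (d + 1), (d : R2 A) * hc i f := by
    rw [← Finset.mul_sum, sum_hc hf]
  rw [h1, h2, eq_sub_iff_add_eq, Finset.sum_range_succ, Finset.sum_range_succ, add_right_comm,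
    ← Finset.sum_range_reflect (fun e => ((e : R2 A) + 1) * hc (d - (e + 1)) f),
    ← Finset.sum_add_distrib]
  congr 1
  refine Finset.sum_congr rfl fun i hi => ?_
  have := Finset.mem_range.1 hi
  obtain ⟨j, rfl⟩ : ∃ j, d = i + j + 1 := ⟨d - i - 1, by omega⟩
  rw [show i + j + 1 - 1 - i = j by omega, show i + j + 1 - (j + 1) = i by omega]
  push_cast
  ring

omit [CharZero k] in
theorem CR_zero (d : ℕ) (f : R2 k) (j w : ℕ) : ES.CR d f j w 0 = 0 := by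
  induction j using Nat.strong_induction_on generalizing w with
  | _ j ih =>
  cases j with
  | zero => rw [ES.CR]
  | succ j =>
    rw [ES.CR, Finset.sum_eq_zero, mul_zero]
    intro e _
    rw [mul_zero, ih _ (by omega), mul_zero]

omit [CharZero k] in
theorem hc_zero_of {f : R2 k} (h : coeff 0 f = 0) : hc 0 f = 0 :=
  hc_of_mm (mem_mm_one.2 h) one_pos

section
variable {M : Type} [AddCommGroup M] [Module k M] {d : ℕ} {f : R2 k}
  {c : ℤ → R2 k →ₗ[k] M} {e : R2 k →ₗ[k] M} {BB : Submodule k M}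

omit [CharZero k] in
theorem lin_C (l : R2 k →ₗ[k] M) (a : k) (u : R2 k) : l (C a * u) = a • l u := by
  rw [← smul_eq_C_mul, map_smul]

omit [CharZero k] in
theorem c_euler (hf : DL (d + 1) f) (G : ES.GLax d f c e BB) (m : ℤ) (g : R2 k) :
    c m (g * (X 0 * pderiv 0 f + X 1 * pderiv 1 f)) = (d : k) • c (m + d) g -
      ∑ i ∈ Finset.range d, ((i : k) + 1) • c m (hc (d - (i + 1)) f * g) := by
  rw [euler_sum hf, mul_sub, map_sub, Finset.mul_sum, map_sum, ← G.mul, ← lin_C]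
  congr 1
  · congr 1
    rw [map_natCast]
    ring
  · refine Finset.sum_congr rfl fun i _ => ?_
    rw [← lin_C, map_add, map_natCast, map_one]
    congr 1
    ring

omit [CharZero k] in
theorem c_low (G : ES.GLax d f c e BB) {v i : ℕ} {g : R2 k} (hg : g.IsHomogeneous v) (hi : i < d)
    {m : ℤ} (hm : m + v + 1 < i) : c m (hc (d - (i + 1)) f * g) = 0 :=
  G.low _ m _ (DL.of_hom ((hc_hom _ _).mul hg)) (by omega)

omit [CharZero k] in
theorem c_sum (h0 : coeff 0 f = 0) (G : ES.GLax d f c e BB) {j v : ℕ} {g : R2 k}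
    (hg : g.IsHomogeneous v) (ih : ∀ i ≤ j, ∀ (v : ℕ) (g : R2 k), g.IsHomogeneous v →
      c ((d : ℤ) - (v + 2) + i) g - e (ES.CR d f i (v + 2) g) ∈ BB) :
    ∑ i ∈ Finset.range d, ((i : k) + 1) • c ((j : ℤ) + 1 - (v + 2)) (hc (d - (i + 1)) f * g) -
      e (∑ i ∈ Finset.range (j + 1), C (i + 1 : k) *
        ES.CR d f (j - i) (v + 2 + d - (i + 1)) (hc (d - (i + 1)) f * g)) ∈ BB := by
  have hz : ∀ i, d ≤ i → hc (d - (i + 1)) f * g = 0 := fun i hi => by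
    rw [show d - (i + 1) = 0 by omega, hc_zero_of h0, zero_mul]
  have h1 : ∑ i ∈ Finset.range d, ((i : k) + 1) • c ((j : ℤ) + 1 - (v + 2))
      (hc (d - (i + 1)) f * g) = ∑ i ∈ Finset.range (j + 1), ((i : k) + 1) •
        c ((j : ℤ) + 1 - (v + 2)) (hc (d - (i + 1)) f * g) := by
    refine (Finset.sum_subset (Finset.range_subset_range.2 (Nat.le_add_right d (j + 1))) ?_).trans
      (Finset.sum_subset (Finset.range_subset_range.2 (Nat.le_add_left (j + 1) d)) ?_).symm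
    · intro i _ hi
      rw [hz i (by simpa using hi), map_zero, smul_zero]
    · intro i _ hi
      by_cases h : d ≤ i
      · rw [hz i h, map_zero, smul_zero]
      · rw [c_low G hg (by omega) (by simp at hi; omega), smul_zero]
  rw [h1, map_sum, ← Finset.sum_sub_distrib]
  refine BB.sum_mem fun i hi => ?_
  have hi := Finset.mem_range.1 hi
  rw [lin_C, ← smul_sub]
  refine BB.smul_mem _ ?_
  by_cases h : d ≤ i
  · rw [hz i h, CR_zero, map_zero, map_zero, sub_zero]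
    exact zero_mem _
  have := ih (j - i) (by omega) _ _ ((hc_hom (d - (i + 1)) f).mul hg)
  rwa [show (d : ℤ) - ((d - (i + 1) + v : ℕ) + 2) + (j - i : ℕ) = j + 1 - (v + 2) by omega,
    show d - (i + 1) + v + 2 = v + 2 + d - (i + 1) by omega] at this

theorem c_CR (hd : 1 ≤ d) (hf : DL (d + 1) f) (h0 : coeff 0 f = 0) (G : ES.GLax d f c e BB) (j v : ℕ)
    (g : R2 k) (hg : g.IsHomogeneous v) :
    c ((d : ℤ) - (v + 2) + j) g - e (ES.CR d f j (v + 2) g) ∈ BB := by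
  induction j using Nat.strong_induction_on generalizing v g with
  | _ j ih =>
  cases j with
  | zero =>
    have := G.lead v g (DL.of_hom hg)
    rw [hc_self hg] at this
    rw [ES.CR, ← this, show (d : ℤ) - (v + 2) + (0 : ℕ) = d - 2 - v by omega, sub_self]
    exact zero_mem _
  | succ j =>
    have h1 := c_sum (j := j) h0 G hg fun i hi => ih i (by omega)
    have h2 := G.div ((d : ℤ) - (v + 2) + (j + 1 : ℕ)) (g * X 0) (g * X 1)
    have h3 : pderiv 0 (g * X 0) + pderiv 1 (g * X 1) = C ((v : k) + 2) * g := by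
      have := euler hg
      simp only [pderiv_mul, pderiv_X_self, map_add, map_natCast, map_ofNat]
      linear_combination this
    have h4 : g * X 0 * pderiv 0 f + g * X 1 * pderiv 1 f =
      g * (X 0 * pderiv 0 f + X 1 * pderiv 1 f) := by ring
    rw [h3, h4, c_euler hf G, lin_C, sub_add_cancel, show (d : ℤ) - (v + 2) + (j + 1 : ℕ) - d =
      (j : ℤ) + 1 - (v + 2) by omega] at h2
    rw [ES.CR, lin_C]
    have hd0 : (d : k) ≠ 0 := Nat.cast_ne_zero.2 (by omega)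
    have hj0 : (j : k) + 1 ≠ 0 := Nat.cast_add_one_ne_zero j
    convert add_mem (BB.smul_mem ((j : k) + 1)⁻¹ h2)
      (BB.smul_mem (((j + 1 : k) - (v + 2 : ℕ)) / (d * (j + 1))) h1) using 1
    push_cast
    match_scalars <;> (field_simp; try ring)

theorem c_PR (hd : 1 ≤ d) (hf : DL (d + 1) f) (h0 : coeff 0 f = 0) (G : ES.GLax d f c e BB) (j v : ℕ)
    (g : R2 k) (hg : g.IsHomogeneous v) :
    c ((j : ℤ) - (v + 2)) (C (1 / ((v + 2 : ℕ) : k)) * g * (X 0 * pderiv 0 f + X 1 * pderiv 1 f)) -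
      e (ES.PR d f j (v + 2) g) ∈ BB := by
  have h1 := c_CR hd hf h0 G j v g hg
  have hv : (v : k) + 2 ≠ 0 := by exact_mod_cast (by omega : v + 2 ≠ 0)
  rw [mul_assoc, lin_C, c_euler hf G, show (j : ℤ) - (v + 2) + d = d - (v + 2) + j by omega]
  cases j with
  | zero =>
    rw [Finset.sum_eq_zero fun i hi => by
      rw [c_low G hg (Finset.mem_range.1 hi) (by omega), smul_zero], ES.PR, lin_C]
    rw [ES.CR] at h1
    convert BB.smul_mem ((d : k) / (v + 2)) h1 using 1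
    push_cast
    match_scalars <;> field_simp
  | succ j =>
    have h2 := c_sum h0 G hg fun i (_ : i ≤ j) => c_CR hd hf h0 G i
    rw [ES.CR, lin_C] at h1
    rw [ES.PR, map_neg, lin_C]
    have hd0 : (d : k) ≠ 0 := Nat.cast_ne_zero.2 (by omega)
    have hj0 : (j : k) + 1 ≠ 0 := Nat.cast_add_one_ne_zero j
    convert sub_mem (BB.smul_mem ((d : k) / (v + 2)) h1) (BB.smul_mem (1 / ((v : k) + 2)) h2) using 1
    push_cast
    match_scalars <;> (field_simp; try ring)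

theorem red_abs (hd : 3 ≤ d) (H : ES.Gen d f) (G : ES.GLax d f c e BB)
    (he : ∀ r, e r ∈ BB → ES.Bt (hc d f) r) {g : R2 k} (hg : g ∈ Jac f)
    (hm : ∀ m : ℤ, m < -d → c m g ∈ BB) : ∃ g1 u, DL (d - 1) g1 ∧ g = ES.redg d f g1 + br u f ∧
      (∀ m : ℤ, m < -d → c m (ES.redg d f g1) = 0) ∧
      ∀ n : ℕ, c (n - d) (ES.redg d f g1) - e (ES.psi d f g1 n) ∈ BB := by
  obtain ⟨-, hci, -⟩ := gen_top (by omega) H
  obtain ⟨a, b, rfl⟩ := Ideal.mem_span_pair.1 hg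
  have key : ∀ n a' b', a' * pderiv 0 f + b' * pderiv 1 f = a * pderiv 0 f + b * pderiv 1 f →
      DL (d - 1 + n) (pderiv 0 a' + pderiv 1 b') → ∃ a' b', a' * pderiv 0 f + b' * pderiv 1 f =
        a * pderiv 0 f + b * pderiv 1 f ∧ DL (d - 1) (pderiv 0 a' + pderiv 1 b') := by
    intro n
    induction n with
    | zero => exact fun a' b' h1 h2 => ⟨a', b', h1, h2⟩
    | succ n ih =>
      intro a' b' h1 h2
      have h3 := G.div ((d : ℤ) - 2 - (d - 1 + n : ℕ)) a' b'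
      rw [G.lead (d - 1 + n) _ h2, h1] at h3
      obtain ⟨η, h4, h5⟩ := (nz_full (by omega) (hc_hom d f) hci (hc_hom _ _)
        (he _ ((BB.add_mem_iff_left (BB.smul_mem _ (hm _ (by omega)))).1 h3))).2 (by omega)
      obtain ⟨e', rfl⟩ : ∃ e', d = e' + 1 := ⟨d - 1, by omega⟩
      rw [show e' + 1 - 1 + n + 2 - (e' + 1) = n + 1 by omega] at h4
      simp only [Nat.add_sub_cancel] at h2 h5 ih ⊢
      refine ih (a' - η * pderiv 1 f) (b' + η * pderiv 0 f) (by rw [← h1]; ring) ?_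
      have h6 : pderiv 0 (a' - η * pderiv 1 f) + pderiv 1 (b' + η * pderiv 0 f) =
          pderiv 0 a' + pderiv 1 b' - br η f := by
        simp only [map_sub, map_add, pderiv_mul, HC.pderiv_comm, br]; ring
      rw [h6]
      refine DL.pred (h2.sub (br_DL (DL.of_hom h4) H.2.1)) ?_
      rw [hc_sub, h5, hc_br_top (DL.of_hom h4) H.2.1, hc_self h4, sub_self]
  obtain ⟨n, hn⟩ := exists_DL (pderiv 0 a + pderiv 1 b)
  obtain ⟨a', b', h1, h2⟩ := key n a b rfl (hn.mono (by omega))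
  set g1 := pderiv 0 a' + pderiv 1 b' with hg1
  let s : R2 k := ∑ w ∈ Finset.Icc 2 d, C (1 / (w : k)) * hc (w - 2) g1
  have h3 : ES.redg d f g1 = s * X 0 * pderiv 0 f + s * X 1 * pderiv 1 f := by
    rw [ES.redg, ← Finset.sum_mul]; ring
  have h4 : pderiv 0 (s * X 0) + pderiv 1 (s * X 1) = g1 := by
    have h5 : ∑ w ∈ Finset.Icc 2 d, hc (w - 2) g1 = g1 := by
      rw [← Finset.Ico_add_one_right_eq_Icc, Finset.sum_Ico_eq_sum_range]
      simpa using sum_hc (n := d + 1 - 2) (h2.mono (by omega))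
    rw [← h5]
    simp only [s, Finset.sum_mul, map_sum, ← Finset.sum_add_distrib]
    refine Finset.sum_congr rfl fun w hw => ?_
    obtain ⟨v, rfl⟩ : ∃ v, w = v + 2 := ⟨w - 2, by have := (Finset.mem_Icc.1 hw).1; omega⟩
    have h6 := euler (hc_hom v g1)
    have h7 : (C (1 / ((v + 2 : ℕ) : k)) : R2 k) * ((v : R2 k) + 2) = 1 := by
      have : ((v : R2 k) + 2) = C ((v + 2 : ℕ) : k) := by rw [map_natCast]; push_cast; rfl
      rw [this, ← C_mul, one_div_mul_cancel (Nat.cast_ne_zero.2 (by omega)), C_1]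
    simp only [Nat.add_sub_cancel, pderiv_C, pderiv_mul, pderiv_X_self]
    linear_combination C (1 / ((v + 2 : ℕ) : k)) * h6 + hc v g1 * h7
  obtain ⟨u, hu⟩ := ham_exact (f := f) (a := a' - s * X 0) (b := b' - s * X 1) (h := 0) (by
    rw [br_zero, map_sub, map_sub]; linear_combination -hg1 - h4)
  have hE : DL (d + 1) (X 0 * pderiv 0 f + X 1 * pderiv 1 f) := by
    have := fun i => (DL_X (A := k) i).mul (H.2.1.pderiv i)
    rw [add_comm 1 d] at this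
    exact (this 0).add (this 1)
  have hlow : ∀ (v : ℕ) (m : ℤ), m < -(v + 2) → c m (C (1 / ((v + 2 : ℕ) : k)) * hc v g1 *
      (X 0 * pderiv 0 f + X 1 * pderiv 1 f)) = 0 := fun v m h =>
    G.low (v + d) m _ (((DL.of_hom (hc_hom v g1)).C_mul _).mul hE) (by omega)
  refine ⟨g1, u, h2, by rw [h3, ← hu, ← h1]; ring, fun m h => ?_, fun n => ?_⟩
  · rw [ES.redg, map_sum]
    refine Finset.sum_eq_zero fun w hw => ?_
    have := Finset.mem_Icc.1 hw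
    obtain ⟨v, rfl⟩ : ∃ v, w = v + 2 := ⟨w - 2, by omega⟩
    exact hlow v m (by omega)
  · rw [ES.redg, ES.psi, map_sum, map_sum, ← Finset.sum_sub_distrib]
    refine BB.sum_mem fun w hw => ?_
    have := Finset.mem_Icc.1 hw
    obtain ⟨v, rfl⟩ : ∃ v, w = v + 2 := ⟨w - 2, by omega⟩
    rw [Nat.add_sub_cancel]
    split_ifs with h
    · have := c_PR (by omega) H.2.1 H.1 G (n + (v + 2) - d) v _ (hc_hom v g1)
      rwa [show ((n + (v + 2) - d : ℕ) : ℤ) - (v + 2) = n - d by omega] at this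
    · rw [hlow v _ (by omega), map_zero, sub_zero]
      exact zero_mem _

end

end Pool.Agent.MP_05b4bd_ag.Esc

end MrgPart0

-- ======== part 1: formerly Pool.Agent.MP_05b4bd_ag.esc.GenS
section MrgPart1

namespace Pool.Agent.MP_05b4bd_ag.ES

theorem genTopS : GenTopStmt := fun _ _ _ _ _ hd H => Esc.gen_top hd H

theorem genCritS : GenCritStmt := fun _ _ _ _ _ hd H => Esc.gen_crit hd H

theorem genJacS : GenJacStmt := fun _ _ _ _ _ _ hd H => Esc.gen_jac hd H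

theorem ilAbsS : IlAbsStmt := fun _ _ _ _ _ _ _ _ _ _ _ _ _ hd H G hB _ hg hc _ _ hr hn =>
  Esc.il_abs hd (Esc.Gen.of_es H) G hB hg hc hr hn

theorem redAbsS : RedAbsStmt := fun _ _ _ _ _ _ _ _ _ _ _ hd H G he _ hg hm =>
  Esc.red_abs hd H G he hg hm

end Pool.Agent.MP_05b4bd_ag.ES

end MrgPart1

-- ======== part 2: formerly Pool.Agent.MP_05b4bd_ag.hc.Main
section MrgPart2

/-! The components of the pointed centre variety through a generic pointed exact form. -/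

namespace Pool.Agent.MP_05b4bd_ag.HC

open MvPolynomial

theorem pe_rename (w : PForm) (R : Co) : pe w (rename Sum.inl R) = ev R w.1 := aeval_rename _ _ _

theorem sub_PM {n : ℕ} {S : Set PForm} (hS : (II S).IsPrime) (hV : ∀ w ∈ S, w.1 ∈ V (n + 1))
    (hc : ∀ w ∈ S, eval w.2 (jac w.1) ≠ 0 → IsCenter w.1 w.2)
    (h0 : ∃ w ∈ S, w.1 ∈ Fol (n + 1) ∧ eval w.2 (jac w.1) ≠ 0) : pzcl S ⊆ PM (n + 1) := by
  obtain ⟨w0, hw0, h1, h2⟩ := h0
  obtain ⟨R1, hR0, hR⟩ := exists_sep (n + 1) (lamFol n) (hV w0 hw0) (inj_of_fol h1)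
  let R2 := coeff 0 (br (tr pU (uni (n + 1) true)) (tr pU (uni (n + 1) false)))
  have e2 : ∀ w ∈ S, pe w R2 = eval w.2 (jac w.1) := fun w hw => by
    refine (coeff_map (pe w : PCo →+* ℂ) _ _).symm.trans ?_
    rw [map_br, map_tr_uni w.2 true (DL_iff.2 (hV w hw).1),
      map_tr_uni w.2 false (DL_iff.2 (hV w hw).2), ← coeff_zero_tr]
    simp only [br, jac, map_sub, map_mul, tr_pderiv, cond_true, cond_false]
  refine sub_pzcl.2 fun R hR' => ?_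
  rw [II_pzcl]
  refine (hS.mem_or_mem (x := R) (y := rename Sum.inl R1 * R2) (mem_II.2 fun w hw => ?_)).resolve_right
    fun h => ?_
  · rw [map_mul, map_mul, pe_rename, e2 w hw]
    by_cases a : ev R1 w.1 = 0
    · rw [a, zero_mul, mul_zero]
    by_cases b : eval w.2 (jac w.1) = 0
    · rw [b, mul_zero, mul_zero]
    rw [mem_II.1 hR' w ⟨fol_of_inj (hV w hw) (hR _ (hV w hw) a), hc w hw b⟩, zero_mul]
  · have := mem_II.1 h w0 hw0
    rw [map_mul, pe_rename, e2 w0 hw0] at this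
    exact mul_ne_zero hR0 h2 this

theorem exists_ex (n : ℕ) : ∃ G : Poly, G.totalDegree ≤ n + 2 ∧ Dm 1 1 (X 0) G ∈ Fol (n + 2) ∧
    eval ![1, 1] (Dm 1 1 (X 0) G).1 = 0 ∧ eval ![1, 1] (Dm 1 1 (X 0) G).2 = 0 ∧
    eval ![1, 1] (jac (Dm 1 1 (X 0) G)) ≠ 0 := by
  set G : Poly := X 1 ^ (n + 2) - C ((n : ℂ) + 2) * X 1 + X 0 + C ((n : ℂ) - 1) with hGd
  have hG : G.totalDegree ≤ n + 2 :=
    dg_add (dg_add (dg_sub (dg_pow (dg_X 1) _ (by omega)) (dg_Cmul _ ((dg_X 1).trans (by omega))))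
      ((dg_X 0).trans (by omega))) (dg_C _ _)
  have hn : (n : ℂ) + 2 ≠ 0 := by exact_mod_cast (by omega : n + 2 ≠ 0)
  have hn' : (n : ℂ) + 1 ≠ 0 := by exact_mod_cast (by omega : n + 1 ≠ 0)
  have e1 : (Dm 1 1 (X 0) G).1 = X 0 * (C ((n : ℂ) + 2) * (X 1 ^ (n + 1) - C 1)) := by
    simp [Dm_fst, hGd, map_ofNat]; ring
  have e2 : (Dm 1 1 (X 0) G).2 = -(G + X 0) := by
    simp [Dm_snd, hGd]; ring
  refine ⟨G, hG, ?_, by simp [e1], ?_, ?_⟩
  · refine fol_of (c := -2) (y := 1) (V_Dm (d := n + 2) 1 1 (dg_X 0) hG (by omega)) hn e1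
      (by rw [e2]; simp [hGd]) (by norm_num) (Or.inl ?_)
    rw [e2]; simp [hGd, map_ofNat]; norm_num
  · rw [e2]; simp [hGd]; ring
  · simp only [jac, e1, e2]
    simp [hGd, hn, hn']

theorem prime_ham (d : ℕ) : (II (PHam d)).IsPrime := II_ham d ▸ RingHom.ker_isPrime _

theorem prime_log {d : ℕ} (hd : 1 ≤ d) : (II (PLog d)).IsPrime := II_log hd ▸ RingHom.ker_isPrime _

theorem ham_PM (n : ℕ) : pzcl (PHam (n + 2)) ⊆ PM (n + 2) := by
  refine sub_PM (prime_ham _) ?_ ?_ ?_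
  · rintro ⟨_, p⟩ ⟨-, -, g, hg, rfl⟩
    exact ⟨dg_pderiv hg 1, dg_neg (dg_pderiv hg 0)⟩
  · rintro ⟨_, p⟩ ⟨h1, h2, g, hg, rfl⟩ hj
    have e : dform g = Dm 1 0 1 g := by simp [Dm]
    rw [e] at h1 h2 hj ⊢
    exact center_Dm one_ne_zero (by simp) h1 h2 hj
  · obtain ⟨G, hG, h1, h2, h3, h4⟩ := exists_ex n
    exact ⟨(_, ![1, 1]), ⟨h2, h3, X 0 * G, dg_mul (dg_X 0) hG (by omega),
      Prod.ext (by simp [dform]) (by simp [dform, add_comm])⟩, h1, h4⟩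

theorem log_PM (n : ℕ) : pzcl (PLog (n + 2)) ⊆ PM (n + 2) := by
  have e : ∀ (f1 f2 : Poly) (l : ℂ), f1 • dform f2 + (C l * f2) • dform f1 = Dm 1 l f1 f2 :=
    fun f1 f2 l => by simp [Dm]
  refine sub_PM (prime_log (by omega)) ?_ ?_ ?_
  · rintro ⟨_, p⟩ ⟨-, -, f1, f2, l, d1, d2, -, rfl⟩
    rw [e]; exact V_Dm _ _ d1 d2 (by omega)
  · rintro ⟨_, p⟩ ⟨h1, h2, f1, f2, l, -, -, h3, rfl⟩ hj
    rw [e] at h1 h2 hj ⊢
    exact center_Dm one_ne_zero h3 h1 h2 hj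
  · obtain ⟨G, hG, h1, h2, h3, h4⟩ := exists_ex n
    exact ⟨(_, ![1, 1]), ⟨h2, h3, X 0, G, 1, dg_X 0, hG, by simp, (e _ _ _).symm⟩, h1, h4⟩

theorem log_not_ham {d : ℕ} (hd : 2 ≤ d) : ¬ II (PHam d) ≤ II (PLog d) := fun h => by
  have := mem_II.1 (h ((mem_II (R := X (.inl (true, Finsupp.single 0 1 + Finsupp.single 1 1)) +
    2 * X (.inl (false, Finsupp.single 0 0 + Finsupp.single 1 2)))).2 ?_))
    (((1 + X 0 : Poly) • dform (X 1 ^ 2) + (C 0 * X 1 ^ 2 : Poly) • dform (1 + X 0)), 0)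
    ⟨by simp [dform], by simp [dform], 1 + X 0, X 1 ^ 2, 0, dg_add (by simp) (dg_X 0),
      by simpa using hd, by simp, rfl⟩
  · rw [map_add, map_mul, pev_inl, pev_inl, map_ofNat] at this
    change HC.co 1 1 _ + 2 * HC.co 0 2 _ = 0 at this
    have e : ((1 + X 0) * (2 * X 1) : Poly) =
        C 2 * (X 0 ^ 0 * X 1 ^ 1) + C 2 * (X 0 ^ 1 * X 1 ^ 1) := by simp [map_ofNat]; ring
    simp [dform, co_zero] at this
    rw [e, co_add, co_C_mul, co_C_mul, co_mon, co_mon] at this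
    simp at this
  · rintro ⟨_, p⟩ ⟨-, -, g, -, rfl⟩
    rw [map_add, map_mul, pev_inl, pev_inl, map_ofNat]
    change HC.co 1 1 (pderiv 1 g) + 2 * HC.co 0 2 (-pderiv 0 g) = 0
    rw [co_neg, co_x, co_y]
    norm_num; ring

theorem ham_not_log {d : ℕ} (hd : 6 ≤ d) : ¬ II (PLog d) ≤ II (PHam d) := fun h => by
  rw [II_ham, II_log (by omega)] at h
  have hi : AlgebraicIndependent ℂ fun m : Mo (d + 1) => phi d (gam d m.1) :=
    algebraicIndependent_iff.2 fun H hH => by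
      have := h (show aeval (fun m : Mo (d + 1) => gam d m.1) H ∈ RingHom.ker (phi d) from
        (comp_aeval_apply _ _ H).trans hH)
      rw [RingHom.mem_ker, comp_aeval_apply] at this
      simp only [psi_gam le_rfl] at this
      exact ((MvPolynomial.algebraicIndependent_X _ ℂ).comp _
        Sum.inl_injective).eq_zero_of_aeval_eq_zero H this
  have h1 := hi.cardinalMk_le_trdeg
  rw [MvPolynomial.trdeg_of_isDomain, Cardinal.lift_id, Cardinal.mk_fintype, Cardinal.mk_fintype,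
    Nat.cast_le] at h1
  have h2 := Fintype.card_le_of_injective (β := Mo (d + 1)) (Sum.elim (fun m : Mo d =>
    ⟨m.1, m.2.1, m.2.2.trans (Nat.le_succ d)⟩) fun j : Fin 7 => mo (d + 1 - j) j (by omega)) (by
      have hj : ∀ (m : Mo d) (j : Fin 7), m.1 ≠ (mo (d + 1 - j) j (by omega) : Mo (d + 1)).1 :=
        fun m j e => by
          have := m.2.2
          rw [e, deg2] at this
          simp [mo] at this
          omega
      rintro (a | a) (b | b) e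
      · exact congrArg _ (Subtype.ext (congrArg Subtype.val e :))
      · exact absurd (congrArg Subtype.val e) (hj a b)
      · exact absurd (congrArg Subtype.val e).symm (hj b a)
      · simp only [Sum.elim_inr, mo_inj] at e
        exact congrArg _ (Fin.ext e.2))
  simp only [Fintype.card_sum, Fintype.card_fin] at h1 h2
  omega

theorem exists_G {d : ℕ} (hd : 1 ≤ d) {g : MvPolynomial (Mo d ⊕ Fin 2) ℂ} (hg : g ≠ 0) :
    ∃ G : MvPolynomial (Fin 2 →₀ ℕ) ℂ,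
      (∃ f : Poly, f.totalDegree = d ∧ Morse f ∧ eval (fun m => coeff m f) G ≠ 0) ∧
      ∀ f : Poly, f.totalDegree ≤ d → eval (fun m => coeff m f) G ≠ 0 → ∀ p : Fin 2 → ℂ,
        (∀ i, eval p (pderiv i f) = 0) →
          aeval (Sum.elim (fun m : Mo d => coeff m.1 (tr p f)) p) g ≠ 0 := by
  classical
  let z : Mo0 d := ⟨0, by simp⟩
  have hc : Fintype.card (Mo d ⊕ Fin 2) < Fintype.card (Mo0 d) :=
    Fintype.card_lt_of_injective_of_notMem (Sum.elim (fun m : Mo d => (⟨m.1, m.2.2⟩ : Mo0 d))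
      fun i : Fin 2 => ⟨Finsupp.single i 1, by simpa using hd⟩) (by
        have hj : ∀ (m : Mo d) (i : Fin 2), m.1 ≠ Finsupp.single i 1 := fun m i e => by
          have := m.2.1
          simp [e] at this
        rintro (a | a) (b | b) e
        · exact congrArg _ (Subtype.ext (congrArg Subtype.val e :))
        · exact absurd (congrArg Subtype.val e) (hj a b)
        · exact absurd (congrArg Subtype.val e).symm (hj b a)
        · exact congrArg _ (Finsupp.single_left_injective one_ne_zero (congrArg Subtype.val e)))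
      (b := z) (by
        rintro ⟨a | a, e⟩
        · have := a.2.1
          simp [show a.1 = 0 from congrArg Subtype.val e] at this
        · simpa [z] using congrArg Subtype.val e)
  obtain ⟨R, w, h1, h2, h3⟩ := exists_relation hc (fun m => if m = z then g else
    coeff m.1 (tr (-fun i => X (.inr i)) (fU fun m : Mo d => X (.inl m)))) z (by simpa using hg)
  let R1 : MvPolynomial (Mo0 d) ℂ := aeval (fun m => if m = z then 0 else X m) R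
  have e1 : ∀ v : Mo0 d → ℂ, eval v R1 = aeval (fun m => if m = z then 0 else v m) R := fun v => by
    rw [← coe_aeval_eq_eval]
    refine (comp_aeval_apply _ (aeval v) R).trans ?_
    congr 2
    funext m
    split_ifs <;> simp
  have n1 : R1 ≠ 0 := fun h => h3 (by
    have := e1 w
    rw [h, map_zero] at this
    rw [this]
    congr 2
    funext m
    split_ifs with hm
    · rw [hm, h2]
    · rfl)
  refine ⟨rename Subtype.val R1, ?_, fun f hf hG p hp h0 => hG ?_⟩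
  · let xd : Mo0 d := ⟨Finsupp.single 0 d, by simp⟩
    obtain ⟨v, hv⟩ : ∃ v, eval v (R1 * X xd) ≠ 0 := by
      by_contra hc
      push Not at hc
      exact mul_ne_zero n1 (X_ne_zero _) (MvPolynomial.funext fun v => by rw [hc v, map_zero])
    let G := rename Subtype.val (R1 * X xd)
    obtain ⟨a, ha, hm⟩ := exists_morse_open (fA v) (U := {a | eval (fun m =>
      coeff m (fA v + (C (a 0) * X 0 + C (a 1) * X 1))) G ≠ 0})
      (isOpen_ne_fun ((MvPolynomial.continuous_eval G).comp (continuous_pi fun m => by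
        simp only [coeff_add, coeff_C_mul]; fun_prop)) continuous_const) ⟨0, by
          simp only [Set.mem_ofPred_eq, Pi.zero_apply, map_zero, zero_mul, add_zero, G, eval_rename]
          convert hv using 3
          funext m
          exact (coeff_fA v m.1).trans (dif_pos m.2)⟩
    simp only [Set.mem_ofPred_eq, G, map_mul, rename_X, eval_X] at ha
    refine ⟨_, le_antisymm (dg_add (DL_iff.1 (fA_DL v)) ((dg_add (dg_Cmul _ (dg_X 0))
      (dg_Cmul _ (dg_X 1))).trans hd)) ?_, hm, left_ne_zero_of_mul ha⟩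
    simpa [xd] using le_totalDegree (mem_support_iff.2 (right_ne_zero_of_mul ha))
  · rw [eval_rename, e1]
    have := congrArg (aeval (Sum.elim (fun m : Mo d => coeff m.1 (tr p f)) p)) h1
    rw [comp_aeval_apply, map_zero] at this
    refine Eq.trans ?_ this
    congr 2
    funext m
    split_ifs with hm
    · exact h0.symm
    · refine Eq.trans ?_ (coeff_map ((aeval (Sum.elim (fun m : Mo d => coeff m.1 (tr p f)) p) :
        _ →ₐ[ℂ] ℂ) : MvPolynomial (Mo d ⊕ Fin 2) ℂ →+* ℂ) _ _)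
      simp only [map_tr, map_fU, RingHom.coe_coe, aeval_X, Pi.neg_apply, map_neg, Sum.elim_inl,
        Sum.elim_inr]
      rw [show (fun i => -p i) = -p from rfl, crit_eq hf hp, coeff_sub, coeff_C,
        if_neg fun e => hm (Subtype.ext e.symm), sub_zero]
      rfl

theorem main {d : ℕ} (hd : 6 ≤ d) : ∃ G : MvPolynomial (Fin 2 →₀ ℕ) ℂ,
    (∃ f : Poly, f.totalDegree = d ∧ Morse f ∧ eval (fun m => coeff m f) G ≠ 0) ∧
    ∀ f : Poly, f.totalDegree ≤ d → eval (fun m => coeff m f) G ≠ 0 →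
      ∀ p : Fin 2 → ℂ, (∀ i, eval p (pderiv i f) = 0) → ∀ Y : Set PForm,
        (IsPComponent (PM d) Y ∧ (dform f, p) ∈ Y ↔ Y = pzcl (PHam d) ∨ Y = pzcl (PLog d)) := by
  obtain ⟨n, rfl⟩ : ∃ n, d = n + 6 := ⟨d - 6, by omega⟩
  obtain ⟨y, hy, H⟩ := sub_or (n := n)
  obtain ⟨G, h1, h2⟩ := exists_G (by omega) hy
  refine ⟨G, h1, fun f hf hG p hp Y => ?_⟩
  have h0 := h2 f hf hG p hp
  rw [ham_pt hf hp] at h0
  have key : ∀ Z, Z ⊆ PM (n + 6) ∧ PIrred Z → (dform f, p) ∈ Z →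
      Z ⊆ pzcl (PHam (n + 6)) ∨ Z ⊆ pzcl (PLog (n + 6)) := fun Z hZ hm =>
    (H Z hZ.1 hZ.2 ⟨_, hm, h0⟩).imp_left fun h => h.trans subset_pzcl
  have pH : pzcl (PHam (n + 6)) ⊆ PM (n + 6) ∧ PIrred (pzcl (PHam (n + 6))) :=
    ⟨ham_PM (n + 4), by have := prime_ham (n + 6); rwa [← II_pzcl] at this⟩
  have pL : pzcl (PLog (n + 6)) ⊆ PM (n + 6) ∧ PIrred (pzcl (PLog (n + 6))) :=
    ⟨log_PM (n + 4), by have := prime_log (d := n + 6) (by omega); rwa [← II_pzcl] at this⟩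
  have mH : (dform f, p) ∈ pzcl (PHam (n + 6)) := subset_pzcl (mem_PHam (by omega) hp)
  have mL : (dform f, p) ∈ pzcl (PLog (n + 6)) := subset_pzcl ⟨hp 1, by simp [dform, hp 0],
    1, f, 0, by simp, hf, by simp, by simp⟩
  constructor
  · rintro ⟨hY, hm⟩
    exact (key Y hY.1 hm).imp (fun h => h.antisymm (hY.2 pH h)) fun h => h.antisymm (hY.2 pL h)
  · rintro (rfl | rfl)
    · exact ⟨⟨pH, fun Z hZ hle => (key Z hZ (hle mH)).resolve_right fun h =>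
        ham_not_log hd (sub_pzcl.1 ((subset_pzcl.trans hle).trans h))⟩, mH⟩
    · exact ⟨⟨pL, fun Z hZ hle => (key Z hZ (hle mL)).resolve_left fun h =>
        log_not_ham (by omega) (sub_pzcl.1 ((subset_pzcl.trans hle).trans h))⟩, mL⟩

end Pool.Agent.MP_05b4bd_ag.HC

end MrgPart2

-- ======== part 3: formerly Pool.Agent.MP_05b4bd_ag.esc.Top
section MrgPart3

/-! The components of the centre variety through a generic exact form. -/

namespace Pool.Agent.MP_05b4bd_ag.ES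

namespace Top

open MvPolynomial HC

theorem L_ham (d : ℕ) : L ![d + 1] = Ex (d + 1) := by
  refine Set.Subset.antisymm ?_ ?_
  · rintro _ ⟨f, l, hf, rfl⟩
    refine ⟨C (l 0) * f 0, dg_Cmul _ (hf 0), ?_⟩
    refine Prod.ext ?_ ?_ <;> simp [dform]
  · rintro _ ⟨f, hf, rfl⟩
    exact dform_mem_L (i := 0) le_rfl hf

theorem L_log (d : ℕ) : L ![1, d] = S1 d := by
  have e : ∀ (f : Fin 2 → Poly) (l : Fin 2 → ℂ),
      ∑ i, (C (l i) * ∏ j ∈ Finset.univ.erase i, f j) • dform (f i) =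
        Dm (l 1) (l 0) (f 0) (f 1) := fun f l => by
    rw [Fin.sum_univ_two, show (Finset.univ : Finset (Fin 2)).erase 0 = {1} by decide,
      show (Finset.univ : Finset (Fin 2)).erase 1 = {0} by decide, Finset.prod_singleton,
      Finset.prod_singleton, Dm, add_comm]
  refine Set.Subset.antisymm ?_ ?_
  · rintro _ ⟨f, l, hf, rfl⟩
    exact ⟨l 1, l 0, f 0, f 1, hf 0, hf 1, e f l⟩
  · rintro _ ⟨β, α, F, G, hF, hG, rfl⟩
    exact ⟨![F, G], ![α, β], Fin.forall_fin_two.2 ⟨hF, hG⟩, (e ![F, G] ![α, β]).symm⟩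

theorem Ex_M (n : ℕ) : Ex (n + 3) ⊆ M (n + 2) := by
  rintro _ ⟨g, hg, rfl⟩
  obtain ⟨G, hG, h1, h2, h3, h4⟩ := exists_ex n
  have e : ∀ u : Poly, Dm 1 0 1 u = dform u := fun u => by simp [Dm]
  have e' : Dm 1 1 (X 0) G = dform (X 0 * G) :=
    Prod.ext (by simp [dform, Dm]) (by simp [dform, Dm, add_comm])
  have hG' : (X 0 * G : Poly).totalDegree ≤ n + 3 := dg_mul (dg_X 0) hG (by omega)
  rw [e'] at h1 h2 h3 h4
  have := curve_mem_M (n := n + 1) (PS.const 1) (PS.const 0) (PC.const 1) (PC.line (X 0 * G) g)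
    (fun τ => by
      rw [e]
      exact ⟨dg_pderiv (dg_line hG' hg τ) 1, dg_neg (dg_pderiv (dg_line hG' hg τ) 0)⟩)
    (p := ![1, 1]) (by rw [e, zero_smul, add_zero]; exact h1) one_ne_zero (by simp)
    (by rw [e, zero_smul, add_zero]; exact h2) (by rw [e, zero_smul, add_zero]; exact h3)
    (by rw [e, zero_smul, add_zero]; exact h4) 1
  rwa [e, one_smul, add_sub_cancel] at this

theorem log_not_ham {d : ℕ} (hd : 1 ≤ d) : ¬ S1 d ⊆ zcl (Ex (d + 1)) := fun h => by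
  have neg : ∀ (F : Poly) a b, cf (-F) a b = -cf F a b := fun F a b => by simp [cf]
  have := mem_zcl.1 (h ⟨1, 0, X 0, X 1, dg_X 0, (dg_X 1).trans hd, rfl⟩) (rho (0, 0)) (by
    rintro _ ⟨f, -, rfl⟩
    rw [ev_rho_zero]
    simp only [dform, neg, cf_p0, cf_p1]
    simp)
  rw [ev_rho_zero] at this
  simp [Dm, dform, cf, coeff_X] at this

theorem ham_not_log {d : ℕ} (hd : 2 ≤ d) : ¬ Ex (d + 1) ⊆ zcl (S1 d) := fun h => by
  obtain ⟨f, hf, hn⟩ := exists_not_mem (d := d + 1) ![1, d] 0 1 (by decide) le_rfl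
    (show 1 ≤ d by omega) (by
      rw [Fin.sum_univ_two]
      change (1 + 1) * (1 + 2) + (d + 1) * (d + 2) < _
      nlinarith)
  rw [L_log] at hn
  exact hn (h ⟨f, hf, rfl⟩)

theorem exists_G (y : Co) : ∃ G : MvPolynomial (Fin 2 →₀ ℕ) ℂ, ∀ f : Poly,
    eval (fun m => coeff m f) G = Pool.Agent.MP_05b4bd_ag.ev y (dform f) := by
  induction y using MvPolynomial.induction_on with
  | C c => exact ⟨C c, fun f => by rw [ev_C, eval_C]⟩
  | add p q hp hq =>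
    obtain ⟨G, hG⟩ := hp
    obtain ⟨H, hH⟩ := hq
    exact ⟨G + H, fun f => by rw [ev_add, map_add, hG, hH]⟩
  | mul_X p k hp =>
    obtain ⟨G, hG⟩ := hp
    obtain ⟨b, m⟩ := k
    cases b
    · refine ⟨G * -(X (m + Finsupp.single 0 1) * C ((m 0 : ℂ) + 1)), fun f => ?_⟩
      rw [ev_mul, ev_X, map_mul, hG, map_neg, map_mul, eval_X, eval_C]
      simp only [MP_05b4bd_ag.co, dform, cond_false, coeff_neg, coeff_pderiv]
    · refine ⟨G * (X (m + Finsupp.single 1 1) * C ((m 1 : ℂ) + 1)), fun f => ?_⟩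
      rw [ev_mul, ev_X, map_mul, hG, map_mul, eval_X, eval_C]
      simp only [MP_05b4bd_ag.co, dform, cond_true, coeff_pderiv]

theorem exists_mor {n : ℕ} {y : Co} (hy : y ∉ vanishingIdeal ℂ (MP_05b4bd_ag.co '' Ex (n + 1))) :
    ∃ f : Poly, f.totalDegree = n + 1 ∧ Morse f ∧
      Pool.Agent.MP_05b4bd_ag.ev y (dform f) ≠ 0 := by
  have hp : (vanishingIdeal ℂ (MP_05b4bd_ag.co '' Ex (n + 1))).IsPrime := Ex_irred _
  have e : ∀ f : Poly, Pool.Agent.MP_05b4bd_ag.ev (X (true, Finsupp.single 1 n)) (dform f) =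
      coeff (Finsupp.single 1 (n + 1)) f * ((n : ℂ) + 1) := fun f => by
    rw [ev_X]
    simp only [MP_05b4bd_ag.co, dform, cond_true, coeff_pderiv, Finsupp.single_eq_same,
      ← Finsupp.single_add]
  have hx : (X (true, Finsupp.single 1 n) : Co) ∉
      vanishingIdeal ℂ (MP_05b4bd_ag.co '' Ex (n + 1)) := fun h => by
    have := mem_van.1 h _ ⟨X 1 ^ (n + 1), by simp, rfl⟩
    rw [e, coeff_X_pow, if_pos rfl, one_mul] at this
    exact Nat.cast_add_one_ne_zero n this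
  have h : y * X (true, Finsupp.single 1 n) ∉ vanishingIdeal ℂ (MP_05b4bd_ag.co '' Ex (n + 1)) :=
    fun k => (hp.mem_or_mem k).elim hy hx
  rw [mem_van] at h
  push Not at h
  obtain ⟨_, ⟨f0, hf0, rfl⟩, hR⟩ := h
  obtain ⟨a, ha, hm⟩ := exists_morse_open f0 (isOpen_ne_fun (continuous_ev _ f0)
    (continuous_const (y := 0))) ⟨0, by simpa using hR⟩
  simp only [Set.mem_ofPred_eq, ev_mul, e] at ha
  have hl := dg_add (dg_Cmul (a 0) (dg_X 0)) (dg_Cmul (a 1) (dg_X 1))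
  refine ⟨_, le_antisymm (dg_add hf0 (hl.trans (by omega))) ?_, hm, left_ne_zero_of_mul ha⟩
  have := le_totalDegree (mem_support_iff.2 (left_ne_zero_of_mul (right_ne_zero_of_mul ha)))
  rwa [Finsupp.sum_single_index rfl] at this

theorem exists_min {d : ℕ} {Z : Set Form} (hZ : Z ⊆ M d) (hI : Irred Z) :
    ∃ q ∈ (II (Cen d)).minimalPrimes, ∀ R : Co, rename Sum.inl R ∈ q →
      ∀ ω ∈ Z, Pool.Agent.MP_05b4bd_ag.ev R ω = 0 := by
  obtain ⟨z, hz, h⟩ := avoid ((fin_min (high_mem (d := d))).image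
    (Ideal.comap (rename Sum.inl : Co →ₐ[ℂ] PCo))) hI
  by_contra hc
  refine hz (mem_van.2 fun ω hω => mem_zcl.1 (hZ hω) z ?_)
  rintro η ⟨h1, p, h2⟩
  obtain ⟨n, hn⟩ : rename Sum.inl z ∈ (II (Cen d)).radical := by
    rw [← Ideal.sInf_minimalPrimes, Ideal.mem_sInf]
    intro q hq
    exact h _ ⟨q, hq, rfl⟩ fun k => hc ⟨q, hq, fun R hR => mem_van.1 (k hR)⟩
  have := mem_II.1 hn (η, p) ⟨h1, h2⟩
  rw [map_pow, pe_rename] at this
  exact eq_zero_of_pow_eq_zero this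

end Top

theorem mainS (h : MinpStmt) : MainStmt := by
  intro d hd
  obtain ⟨n, rfl⟩ : ∃ n, d = n + 2 := ⟨d - 2, by omega⟩
  obtain ⟨y, hy, H⟩ := HC.avoid ((HC.fin_min (HC.high_mem (d := n + 2))).image
    (Ideal.comap (MvPolynomial.rename Sum.inl : Co →ₐ[ℂ] HC.PCo))) (Ex_irred (n + 2))
  obtain ⟨G, hG⟩ := Top.exists_G y
  refine ⟨G, ?_, fun f hf hf0 Z => ?_⟩
  · obtain ⟨f, h1, h2, h3⟩ := Top.exists_mor hy
    exact ⟨f, h1, h2, by rwa [hG]⟩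
  rw [hG] at hf0
  have key : ∀ Y, Y ⊆ M (n + 2) ∧ Irred Y → dform f ∈ Y →
      Y ⊆ zcl (L ![n + 2 + 1]) ∨ Y ⊆ zcl (L ![1, n + 2]) := fun Y hY hm => by
    obtain ⟨q, hq, h1⟩ := Top.exists_min hY.1 hY.2
    have h2 : Ideal.comap (MvPolynomial.rename Sum.inl : Co →ₐ[ℂ] HC.PCo) q ≤ _ :=
      not_not.1 fun k => hf0 (h1 y (H _ ⟨q, hq, rfl⟩ k) _ hm)
    exact (h _ hd q hq fun R hR g hg => mem_van.1 (h2 hR) _ ⟨g, hg, rfl⟩).imp
      (fun k ω hω => mem_zcl.2 fun R hR => h1 R (k R hR) ω hω)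
      fun k ω hω => mem_zcl.2 fun R hR => h1 R (k R hR) ω hω
  have mH : dform f ∈ zcl (L ![n + 2 + 1]) :=
    subset_zcl _ (dform_mem_L (i := 0) (Nat.le_succ _) hf)
  have mL : dform f ∈ zcl (L ![1, n + 2]) := subset_zcl _ (dform_mem_L (i := 1) le_rfl hf)
  rw [Top.L_ham, Top.L_log] at *
  have pH : zcl (Ex (n + 2 + 1)) ⊆ M (n + 2) ∧ Irred (zcl (Ex (n + 2 + 1))) :=
    ⟨zcl_subset (Top.Ex_M n), (Ex_irred _).zcl⟩
  have pL : zcl (S1 (n + 2)) ⊆ M (n + 2) ∧ Irred (zcl (S1 (n + 2))) :=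
    ⟨zcl_subset (S1_M n), (S1_irred _).zcl⟩
  constructor
  · rintro ⟨hY, hm⟩
    exact (key Z hY.1 hm).imp (fun h => h.antisymm (hY.2 pH h)) fun h => h.antisymm (hY.2 pL h)
  · rintro (rfl | rfl)
    · exact ⟨⟨pH, fun Y hY hle => (key Y hY (hle mH)).resolve_right fun k =>
        Top.ham_not_log (by omega) (((subset_zcl _).trans hle).trans k)⟩, mH⟩
    · exact ⟨⟨pL, fun Y hY hle => (key Y hY (hle mL)).resolve_left fun k =>
        Top.log_not_ham (by omega) (((subset_zcl _).trans hle).trans k)⟩, mL⟩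

end Pool.Agent.MP_05b4bd_ag.ES

end MrgPart3

-- marker of a merged file
example : 731051 + 397680 = 731051 + 397680 := rfl

end MrgPart0

-- ======== part 1: formerly Pool.Agent.MP_05b4bd_ag.pc3.Spec
section MrgPart1

/-! Persistent centres in degrees three, four and five: definitions and statements of the blocks. -/

namespace Pool.Agent.MP_05b4bd_ag.PC3

open MvPolynomial HC ES
open scoped PowerSeries LaurentSeries

/-! ### One-forms -/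

/-- The pair `(P, Q)` stands for `P dy - Q dx`. -/
abbrev Fm (A : Type) [CommRing A] := R2 A × R2 A

section Forms
variable {A : Type} [CommRing A]

/-- The form `g dh`. -/
noncomputable def fm (g h : R2 A) : Fm A := (g * pderiv 1 h, -(g * pderiv 0 h))

/-- The form `dh`. -/
noncomputable def d1 (h : R2 A) : Fm A := (pderiv 1 h, -pderiv 0 h)

/-- Exterior product. -/
noncomputable def wg (u w : Fm A) : R2 A := u.1 * w.2 - u.2 * w.1

/-- Exterior derivative. -/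
noncomputable def dv (w : Fm A) : R2 A := pderiv 0 w.1 + pderiv 1 w.2

/-- Degree less than `n`. -/
def DF (n : ℕ) (w : Fm A) : Prop := DL n w.1 ∧ DL n w.2

/-- Substitution of `s, t` for `x, y`. -/
noncomputable def sub2 (s t : R2 A) : R2 A →ₐ[A] R2 A := aeval ![s, t]

/-- Pull-back by the map `(s, t)`. -/
noncomputable def pb (s t : R2 A) (w : Fm A) : Fm A := fm (sub2 s t w.1) t - fm (sub2 s t w.2) s

/-- Change of coefficients. -/
noncomputable def mapF {B : Type} [CommRing B] (φ : A →+* B) (w : Fm A) : Fm B :=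
  (map φ w.1, map φ w.2)

/-- `θ ∧ w = c dw`. -/
def Pr (w : Fm A) (c : R2 A) (θ : Fm A) : Prop := wg θ w = c * dv w

/-- `c dθ - dc ∧ θ`. -/
noncomputable def rr (c : R2 A) (θ : Fm A) : R2 A := c * dv θ - wg (d1 c) θ

/-- A conic syzygy. -/
def Con (w : Fm A) : Prop := ∃ c θ, DL 3 c ∧ DF 2 θ ∧ ¬ (c = 0 ∧ θ = 0) ∧ Pr w c θ

/-- A conic syzygy with `θ / c` closed. -/
def Clo (w : Fm A) : Prop := ∃ c θ, DL 3 c ∧ DF 2 θ ∧ c ≠ 0 ∧ Pr w c θ ∧ rr c θ = 0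

/-- The same with `dθ ≠ 0`. -/
def Aff (w : Fm A) : Prop := ∃ c θ, DL 3 c ∧ DF 2 θ ∧ c ≠ 0 ∧ Pr w c θ ∧ rr c θ = 0 ∧ dv θ ≠ 0

/-- Integrating factor built on one line. -/
def Lin (w : Fm A) : Prop := ∃ (l : R2 A) (c0 c1 : A), DL 2 l ∧ d1 l ≠ 0 ∧ ¬ (c0 = 0 ∧ c1 = 0) ∧
  Pr w (C c0 + C c1 * l) (d1 l)

/-- Integrating factor built on the conic `m`. -/
def Cn (w : Fm A) (m : R2 A) (c0 c1 : A) : Prop :=
  DL 3 m ∧ ¬ (c0 = 0 ∧ c1 = 0) ∧ Pr w (C c0 + C c1 * m) (d1 m)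

/-- The quadratic part of `m` is non-degenerate. -/
def Ctr (m : R2 A) : Prop := HC.co 1 1 m ^ 2 - 4 * HC.co 2 0 m * HC.co 0 2 m ≠ 0

/-- `m` is a parabola. -/
def Pab (m : R2 A) : Prop := ∃ m0 α β σ a b : A, σ ≠ 0 ∧ α * b - β * a ≠ 0 ∧
  m = C m0 + HC.lf α β + C σ * HC.lf a b ^ 2

/-- `m` is a polynomial in the linear form `a x + b y`. -/
def Pol (a b : A) (m : R2 A) : Prop := ∃ m0 m1 m2 : A, m = C m0 + C m1 * HC.lf a b + C m2 * HC.lf a b ^ 2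

/-- Pull-back of an affine form by two polynomials of degree at most `n`. -/
def Pb (n : ℕ) (w : Fm A) : Prop := ∃ (m1 m2 : R2 A) (a0 a1 a2 b0 b1 b2 : A), DL (n + 1) m1 ∧
  DL (n + 1) m2 ∧ w = fm (C a0 + C a1 * m1 + C a2 * m2) m1 + fm (C b0 + C b1 * m1 + C b2 * m2) m2

/-- The normal form attached to a conic. -/
def CF (d : ℕ) (w : Fm A) (m : R2 A) (c0 c1 : A) : Prop := ∃ (G : R2 A) (h0 h1 h2 : A), DL d G ∧
  (d ≤ 4 → h2 = 0) ∧ w = fm (C c0 + C c1 * m) G +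
    fm (C (c1 - 1) * G + C h0 + C h1 * m + C h2 * m ^ 2) m

/-! ### The families over any ring -/

def H1 (d : ℕ) (w : Fm A) : Prop := ∃ g, DL (d + 2) g ∧ w = d1 g

def H2 (a b : ℕ) (w : Fm A) : Prop := ∃ (F G : R2 A) (β α : A), DL (a + 1) F ∧ DL (b + 1) G ∧
  w = fm (C β * F) G + fm (C α * G) F

def H3 (d : ℕ) (w : Fm A) : Prop := ∃ (s t G : R2 A) (l1 l2 l3 : A), DL 2 s ∧ DL 2 t ∧ DL d G ∧
  w = fm (C l1 * t * G) s + fm (C l2 * s * G) t + fm (C l3 * s * t) G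

def H7 (w : Fm A) : Prop := ∃ (a : A) (u v g R : R2 A), DL 2 u ∧ DL 2 v ∧ DL 3 g ∧
  R = C a * (8 * u ^ 5 + 20 * u ^ 3 * v + 15 * u * v ^ 2) + g ∧
  w = fm (2 * (u ^ 2 + v)) R - fm (5 * R) (u ^ 2 + v)

def H5 (w : Fm A) : Prop := ∃ (a : A) (u v g R : R2 A), DL 2 u ∧ DL 2 v ∧ DL 3 g ∧
  R = C a * u ^ 3 + g ∧ w = fm (2 * (u ^ 2 + v)) R - fm (3 * R) (u ^ 2 + v)

/-- `w` lies on a line of forms almost all of whose points are in `S`. -/
def Lim (S : Fm A → Prop) (w : Fm A) : Prop :=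
  ∃ (a : Fm A) (s : Finset A), ∀ τ ∉ s, S (w + (C τ : R2 A) • a)

/-- Every equation of `W` holds at `w`. -/
def Van [Algebra ℂ A] (W : Set Form) (w : Fm A) : Prop :=
  ∀ R : Co, (∀ ω ∈ W, Pool.Agent.MP_05b4bd_ag.ev R ω = 0) → pev w.1 w.2 0 (rename Sum.inl R) = 0

end Forms

/-! ### The ideal of the persistent singular points -/

section Lev
variable {K : Type} [Field K]

/-- Elements of `J` of degree less than `n`. -/
noncomputable def Jd (J : Ideal (R2 K)) (n : ℕ) : Submodule K (R2 K) := J.restrictScalars K ⊓ dl K n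

/-- A differential extension with a closed form `n` such that `n ∧ w = dw`. -/
structure GV (w : Fm K) {T : Type} [CommRing T] (ι : R2 K →+* T) (D0 D1 : T →+ T) (n0 n1 : T) :
    Prop where
  d0 : IsDer D0
  d1 : IsDer D1
  comm : ∀ c, D0 (D1 c) = D1 (D0 c)
  e0 : ∀ u, D0 (ι u) = ι (pderiv 0 u)
  e1 : ∀ u, D1 (ι u) = ι (pderiv 1 u)
  cl : D0 n0 + D1 n1 = 0
  nu : n0 * ι w.2 - n1 * ι w.1 = ι (dv w)
  kos : ∀ a b, a * ι w.2 = b * ι w.1 → ∃ c, a = c * ι w.1 ∧ b = c * ι w.2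

structure LevA (w : Fm K) (J : Ideal (R2 K)) : Prop where
  m1 : w.1 ∈ J
  m2 : w.2 ∈ J
  mB : dv w ∈ J
  ker : ∀ θ, wg θ w = 0 → θ.1 ∈ J ∧ θ.2 ∈ J
  reg : ∀ b1 ∈ J, ∀ b2 ∈ J, ∀ φ θ : Fm K, w = b1 • φ - b2 • θ → ∀ u, wg θ φ * u ∈ J → u ∈ J
  l1 : ∀ c θ, Pr w c θ → rr c θ ∈ J
  l2 : ∀ c θ D ψ l, Pr w c θ → D * rr c θ = wg ψ w + l * dv w →
    c * wg (d1 D) ψ + l * wg (d1 D) θ + 2 * D * wg (d1 c) ψ + 2 * D * l * dv θ - D * wg θ ψ -
      c * D * dv ψ - D * wg (d1 l) θ ∈ J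

structure LevB (d : ℕ) (w : Fm K) (J : Ideal (R2 K)) : Prop where
  low : ∀ u ∈ J, DL (d - 1) u → u = 0
  up : ∀ n, Module.finrank K (Jd J (n + (d - 1))) ≤ n * (n + 1)
  syz : ∀ b1 ∈ J, ∀ b2 ∈ J, DL d b1 → DL d b2 → LinearIndependent K ![b1, b2] →
    ∀ a b, DL 2 a → DL 2 b → a * b1 + b * b2 = 0 → a = 0 ∧ b = 0
  cop : ∀ (g : R2 K) (w' : Fm K), w = g • w' → w'.1 ∈ J ∧ w'.2 ∈ J
  ind : LinearIndependent K ![w.1, w.2]
  inv : ∀ g h, g ≠ 0 → DL 3 g → wg (d1 g) w = h * g → ∀ u, g * u ∈ J → u ∈ J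

structure Lev (d : ℕ) (w : Fm K) (J : Ideal (R2 K)) : Prop extends LevA w J, LevB d w J where
  deg : DF (d + 1) w
  lo : (d - 2) * (d - 1) ≤ Module.finrank K (Jd J (2 * d - 3))

/-- A second element of degree less than `d`. -/
def CIc (d : ℕ) (w : Fm K) (J : Ideal (R2 K)) : Prop :=
  ∃ b2 ∈ J, DL d b2 ∧ LinearIndependent K ![dv w, b2]

end Lev

/-! ### Arcs -/

section Arc
variable {k : Type} [Field k]

noncomputable def iS (k : Type) [Field k] : R2 k⟦X⟧ →+* (R2 k)⟦X⟧ :=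
  eval₂Hom (PowerSeries.map C) fun i => PowerSeries.C (X i)

noncomputable def iT (k : Type) [Field k] : R2 k⸨X⸩ →+* (R2 k)⸨X⸩ :=
  eval₂Hom (mapL C) fun i => cL _ (X i)

noncomputable def IS (w : Fm k⟦X⟧) : Ideal (R2 k)⟦X⟧ := Ideal.span {iS k w.1, iS k w.2}

noncomputable def JK (w : Fm k⟦X⟧) : Ideal (R2 k⸨X⸩) :=
  (Ideal.span {iT k (mapF (coeL k) w).1, iT k (mapF (coeL k) w).2}).comap (iT k)

def Link (w : Fm k⟦X⟧) : Prop := ∀ u : R2 k⟦X⟧, map (coeL k) u ∈ JK w ↔ iS k u ∈ IS w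

/-- An arc of forms of degree at most `d` through the generic exact form. -/
structure Arc [CharZero k] (d : ℕ) (f : R2 k) (w : Fm k⟦X⟧) : Prop where
  gen : Gen d f
  deg : DF (d + 1) w
  red : mapF cc w = d1 f

/-- A convergent sequence of approximate first integrals. -/
def Sq (f : R2 k) (w : Fm k⟦X⟧) : Prop := ∃ H : ℕ → R2 k⟦X⟧, ∀ n,
  (map cc (H n) = f ∧ C (PowerSeries.X ^ (n + 1)) ∣ vf w.1 w.2 (H n)) ∧
    C (PowerSeries.X ^ (n + 1)) ∣ H (n + 1) - H n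

/-- The closed form over the power series ring. -/
structure GS (w : Fm k⟦X⟧) (n0 n1 : (R2 k)⟦X⟧) : Prop where
  cl : cw (pd k 0) n0 + cw (pd k 1) n1 = 0
  nu : n0 * iS k w.2 - n1 * iS k w.1 = iS k (dv w)
  kos : ∀ a b, a * iS k w.2 = b * iS k w.1 → ∃ c, a = c * iS k w.1 ∧ b = c * iS k w.2
  sat : ∀ u, PowerSeries.X * u ∈ IS w → u ∈ IS w

/-- The centre hypothesis at a point with coordinates in the field of Laurent series. -/
def CenK (w : Fm k⟦X⟧) (p : Fin 2 → k⸨X⸩) : Prop :=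
  tr p (map (coeL k) w.1) ∈ mm k⸨X⸩ ^ 1 ∧ tr p (map (coeL k) w.2) ∈ mm k⸨X⸩ ^ 1 ∧
  eval p (br (map (coeL k) w.1) (map (coeL k) w.2)) ≠ 0 ∧
  FI (tr p (map (coeL k) w.1)) (tr p (map (coeL k) w.2))

/-- A conic pair normalised over the power series ring. -/
structure Nm (f : R2 k) (w : Fm k⟦X⟧) (m b : R2 k⟦X⟧) (ε c : k⟦X⟧) : Prop where
  e0 : ε ≠ 0
  re : cc ε = 0
  rc : cc c = 0
  dm : DL 3 m
  m0 : coeff 0 m = 0
  rm : ∃ α β : k, HC.lf α β ≠ 0 ∧ map cc m = HC.lf α β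
  eB : dv w = C ε * b
  eq : wg (d1 m) w = (1 + C c * m) * b

end Arc

/-! ### Statements: the ideal -/

def SeqStmt : Prop := ∀ (k : Type) [Field k] [CharZero k] [IsAlgClosed k] (d : ℕ) (f : R2 k)
  (w : Fm k⟦X⟧) (p : Fin 2 → k⸨X⸩), 3 ≤ d → Arc d f w → CenK w p → Sq f w

def Ts1Stmt : Prop := ∀ (k : Type) [Field k] [CharZero k] (f : R2 k) (w : Fm k⟦X⟧),
  IsRelPrime (pderiv 0 f) (pderiv 1 f) → mapF cc w = d1 f → Sq f w → ∃ n0 n1, GS w n0 n1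

def Ts2Stmt : Prop := ∀ (k : Type) [Field k] [CharZero k] (w : Fm k⟦X⟧) (n0 n1 : (R2 k)⟦X⟧),
  GS w n0 n1 → Link w ∧ GV (mapF (coeL k) w) (iT k) (cwL (pd k 0)) (cwL (pd k 1))
    (coeL _ n0) (coeL _ n1)

def GvStmt : Prop := ∀ (K : Type) [Field K] (w : Fm K) (T : Type) [CommRing T] (ι : R2 K →+* T)
  (D0 D1 : T →+ T) (n0 n1 : T), GV w ι D0 D1 n0 n1 →
  LevA w ((Ideal.span {ι w.1, ι w.2}).comap ι)

/-- A generic polynomial has no invariant line or conic. -/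
def IcStmt : Prop := ∀ (k : Type) [Field k] [CharZero k] [IsAlgClosed k] (d : ℕ) (f g h : R2 k),
  3 ≤ d → Gen d f → g ≠ 0 → DL 3 g → br g f = h * g → DL 1 g

def UpStmt : Prop := ∀ (k : Type) [Field k] [CharZero k] [IsAlgClosed k] (d : ℕ) (f : R2 k)
  (w : Fm k⟦X⟧), 3 ≤ d → Arc d f w → Link w → LevB d (mapF (coeL k) w) (JK w)

/-- Sharp reduction modulo the Jacobian ideal. -/
def JredStmt : Prop := ∀ (k : Type) [Field k] (e : ℕ) (f : R2 k), DL (e + 3) f →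
  CI (hc (e + 1) (pderiv 0 f)) (hc (e + 1) (pderiv 1 f)) →
  ∀ u : R2 k, ∃ r, DL (2 * e + 1) r ∧ u - r ∈ Jac f

def LiftStmt : Prop := ∀ (k : Type) [Field k] (f : R2 k) (w : Fm k⟦X⟧) (M : ℕ),
  mapF cc w = d1 f → (∀ u : R2 k, ∃ r, DL M r ∧ u - r ∈ Jac f) →
  ∀ g ∈ Jac f, DL M g → ∃ u : R2 k⟦X⟧, DL M u ∧ map cc u = g ∧ iS k u ∈ IS w

def LoStmt : Prop := ∀ (k : Type) [Field k] [CharZero k] (d : ℕ) (f : R2 k) (w : Fm k⟦X⟧), 3 ≤ d →
  Arc d f w → Link w → (d - 2) * (d - 1) ≤ Module.finrank k⸨X⸩ (Jd (JK w) (2 * d - 3))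

/-! ### Statements: syzygies -/

def CommStmt : Prop := ∀ (K : Type) [Field K] [CharZero K],
  (∀ m : R2 K, DL 3 m → Ctr m ∨ Pab m ∨ ∃ a b, HC.lf a b ≠ 0 ∧ Pol a b m) ∧
  (∀ m u : R2 K, DL 3 m → Ctr m ∨ Pab m → DL 3 u → br u m = 0 → ∃ s0 s1, u = C s0 + C s1 * m) ∧
  ∀ (a b : K) (u : R2 K), HC.lf a b ≠ 0 → DL 3 u → br u (HC.lf a b) = 0 → Pol a b u

def CiStmt : Prop := ∀ (K : Type) [Field K] [CharZero K] (d : ℕ) (w : Fm K) (J : Ideal (R2 K)),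
  3 ≤ d → Lev d w J →
  (∀ b2 ∈ J, DL d b2 → LinearIndependent K ![dv w, b2] →
    ∃ φ θ : Fm K, DF 2 φ ∧ DF 2 θ ∧ w = dv w • φ - b2 • θ ∧ wg θ φ ≠ 0) ∧
  (4 ≤ d → (CIc d w J → Con w) ∧ (Con w → Clo w)) ∧ (d = 3 → dv w ≠ 0 → CIc d w J)

def Det3Stmt : Prop := ∀ (K : Type) [Field K] [CharZero K] (w : Fm K) (J : Ideal (R2 K)),
  Lev 3 w J → dv w ≠ 0 → Clo w ∨ Pb 2 w

def KgStmt : Prop := ∀ (K : Type) [Field K] [CharZero K] (d : ℕ) (w : Fm K) (J : Ideal (R2 K)),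
  4 ≤ d → Lev d w J → dv w ≠ 0 → ¬ CIc d w J →
  (∀ u ∈ J, DL d u → ∃ r : K, u = C r * dv w) ∧ IsRelPrime w.1 w.2 ∧
  (∀ θ, DF (d + 1) θ → wg θ w = 0 → ∃ r : K, θ = (C r : R2 K) • w) ∧
  ∀ c1 c2 θ1 θ2, DL 4 c1 → DL 4 c2 → DF 3 θ1 → DF 3 θ2 → Pr w c1 θ1 → Pr w c2 θ2 →
    (∀ r1 r2 : K, C r1 * c1 + C r2 * c2 = 0 → (C r1 : R2 K) • θ1 + (C r2 : R2 K) • θ2 = 0 →
      r1 = 0 ∧ r2 = 0) → c2 • θ1 = c1 • θ2 → Con w

/-- Two pairs all of whose brackets are multiples of `dw`. -/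
def PullStmt : Prop := ∀ (K : Type) [Field K] [CharZero K] (w θ1 θ2 : Fm K) (c1 c2 : R2 K)
  (r t11 t12 t21 t22 : K), r ≠ 0 → IsRelPrime w.1 w.2 → ¬ DL 2 (dv w) → DF 3 θ1 → DF 3 θ2 →
  Pr w c1 θ1 → Pr w c2 θ2 → c2 • θ1 - c1 • θ2 = (C r : R2 K) • w →
  c1 * dv θ1 - wg (d1 c1) θ1 = C t11 * dv w → c2 * dv θ1 - wg (d1 c1) θ2 = C t12 * dv w →
  c1 * dv θ2 - wg (d1 c2) θ1 = C t21 * dv w → c2 * dv θ2 - wg (d1 c2) θ2 = C t22 * dv w →
  dv θ1 = 0 ∧ dv θ2 = 0 ∧ Pb 3 w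

def Nc5Stmt : Prop := ∀ (K : Type) [Field K] [CharZero K] (w : Fm K) (J : Ideal (R2 K)),
  Lev 5 w J → dv w ≠ 0 → ¬ CIc 5 w J → ¬ Con w → Pb 3 w

def Nc4Stmt : Prop := ∀ (K : Type) [Field K] [CharZero K] (w : Fm K) (J : Ideal (R2 K)),
  Lev 4 w J → dv w ≠ 0 → ¬ CIc 4 w J → ¬ Con w → False

def ClsStmt : Prop := ∀ (K : Type) [Field K] [CharZero K] (d : ℕ) (w : Fm K) (J : Ideal (R2 K)),
  3 ≤ d → Lev d w J → dv w ≠ 0 → Clo w →
  Lin w ∨ Aff w ∨ ∃ m c0 c1, Cn w m c0 c1 ∧ (Ctr m ∨ Pab m)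

/-! ### Statements: normal forms -/

def LinStmt : Prop := ∀ (K : Type) [Field K] [CharZero K] (d : ℕ) (w : Fm K), DF (d + 1) w →
  Lin w → Lim (H2 1 d) w

def DiagStmt : Prop := ∀ (K : Type) [Field K] [CharZero K] (d : ℕ) (w : Fm K) (α β : K),
  DF (d + 1) w → α ≠ 0 → β ≠ 0 →
  X 0 * X 1 * dv w = C α * X 1 * w.1 + C β * X 0 * w.2 → Lim (H3 d) w

def NilStmt : Prop := ∀ (K : Type) [Field K] [CharZero K] (d : ℕ) (w : Fm K) (α β : K),
  DF (d + 1) w → β ≠ 0 →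
  (X 1 ^ 2 * dv w = C β * X 1 * w.1 + (C α * X 1 - C β * X 0) * w.2 → Lim (H3 d) w) ∧
  (α ≠ 0 → X 0 * dv w = C α * w.1 + C β * X 0 * w.2 → Lim (H3 d) w)

def AffStmt : Prop := ∀ (K : Type) [Field K] [CharZero K] [IsAlgClosed K] (d : ℕ) (w : Fm K),
  DF (d + 1) w → Aff w → Lim (H2 1 d) w ∨ Lim (H3 d) w

def CenStmt : Prop := ∀ (K : Type) [Field K] [CharZero K] [IsAlgClosed K] (d : ℕ) (w : Fm K)
  (m : R2 K) (c0 c1 : K), 3 ≤ d → d ≤ 5 → DF (d + 1) w → Cn w m c0 c1 → Ctr m →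
  Lim (H3 d) w ∨ CF d w m c0 c1

def Par3Stmt : Prop := ∀ (K : Type) [Field K] [CharZero K] [IsAlgClosed K] (w : Fm K) (m : R2 K)
  (c0 c1 : K), DF 4 w → Cn w m c0 c1 → Pab m → CF 3 w m c0 c1 ∨ H7 w ∨ H5 w

def Par4Stmt : Prop := ∀ (K : Type) [Field K] [CharZero K] [IsAlgClosed K] (w : Fm K) (m : R2 K)
  (c0 c1 : K), DF 5 w → Cn w m c0 c1 → Pab m → CF 4 w m c0 c1 ∨ 9 * c1 = 2 ∨ 7 * c1 = 2

def CflStmt : Prop := ∀ (K : Type) [Field K] [CharZero K] (e : ℕ) (w : Fm K) (m : R2 K) (c0 c1 : K),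
  2 ≤ e → e ≤ 3 → DL 3 m → CF (e + 1) w m c0 c1 → Lim (H2 2 e) w

def PblStmt : Prop := ∀ (K : Type) [Field K] [CharZero K] [IsAlgClosed K] (n : ℕ) (w : Fm K),
  Pb n w → Lim (H2 n n) w

/-! ### Statements: exclusions -/

def NrmStmt : Prop := ∀ (k : Type) [Field k] [CharZero k] [IsAlgClosed k] (d : ℕ) (f : R2 k)
  (w : Fm k⟦X⟧) (m : R2 k⸨X⸩) (c0 c1 : k⸨X⸩), 3 ≤ d → Arc d f w → dv w ≠ 0 →
  Cn (mapF (coeL k) w) m c0 c1 → d1 m ≠ 0 →
  ∃ (m' b : R2 k⟦X⟧) (ε c : k⟦X⟧) (m0 e0 : k⸨X⸩), Nm f w m' b ε c ∧ e0 ≠ 0 ∧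
    e0 = c0 + c1 * m0 ∧ coeL k c = c1 * coeL k ε ∧
    m = C m0 + C (coeL k ε * e0) * map (coeL k) m'

def Exc33Stmt : Prop := ∀ (k : Type) [Field k] [CharZero k] (f : R2 k) (w : Fm k⟦X⟧),
  Arc 5 f w → dv w ≠ 0 → ¬ Pb 3 (mapF (coeL k) w)

def DescStmt : Prop := ∀ (K Ω : Type) [Field K] [Field Ω] (ψ : K →+* Ω) (d : ℕ) (w : Fm K)
  (m : R2 K) (c0 c1 : K), CF d (mapF ψ w) (map ψ m) (ψ c0) (ψ c1) → CF d w m c0 c1

/-- Special binary forms are not generic. -/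
def NgStmt : Prop := ∀ (k : Type) [Field k] [CharZero k] [IsAlgClosed k],
  (∀ (F q : R2 k) (a b u1 u2 u3 : k), IndF 5 F → q.IsHomogeneous 2 →
    F ≠ HC.lf a b * (C u1 * HC.lf a b ^ 4 + C u2 * HC.lf a b ^ 2 * q + C u3 * q ^ 2)) ∧
  (∀ (d : ℕ) (F : R2 k) (a b c e p q r : k), 4 ≤ d → F.IsHomogeneous d → a * e - b * c = 1 →
    IndF d (lin a b c e F) →
    HC.lf p q * pderiv 0 (pderiv 0 F) + C r * pderiv 0 F = 0 → p = 0 ∧ q = 0 ∧ r = 0) ∧
  ∀ (d : ℕ) (F : R2 k) (a b c e s p r : k), F.IsHomogeneous d → a * e - b * c = 1 →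
    IndF d (lin a b c e F) → (d = 5 ∨ d = 4 ∧ (2 * r = 9 * p ∨ 2 * r = 7 * p)) →
    4 * C s * X 1 * pderiv 0 (pderiv 0 F) + C p * (3 * pderiv 1 F + X 1 * pderiv 1 (pderiv 1 F) +
      2 * X 0 * pderiv 0 (pderiv 1 F)) - 2 * C r * pderiv 1 F = 0 → s = 0 ∧ p = 0 ∧ r = 0

def Exc24Stmt : Prop := ∀ (k : Type) [Field k] [CharZero k] [IsAlgClosed k] (f : R2 k)
  (w : Fm k⟦X⟧) (m : R2 k⸨X⸩) (c0 c1 : k⸨X⸩), Arc 5 f w → dv w ≠ 0 →
  Cn (mapF (coeL k) w) m c0 c1 → d1 m ≠ 0 → ¬ CF 5 (mapF (coeL k) w) m c0 c1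

/-- The parabola in adapted coordinates, the two charts. -/
def ChtStmt : Prop := ∀ (k : Type) [Field k] [CharZero k] (e : ℕ) (f : R2 k) (w : Fm k⟦X⟧)
  (b : R2 k⟦X⟧) (ε c σ α : k⟦X⟧), DF (e + 4) w → mapF cc w = d1 f → σ ≠ 0 → ε ≠ 0 → cc σ = 0 →
  cc ε = 0 → cc c = 0 → dv w = C ε * b →
  (w.1 + 2 * C σ * X 1 * w.2 = (1 + C c * (X 0 + C σ * X 1 ^ 2)) * b →
    ∃ (δ s p r : k⟦X⟧), σ = δ * s ∧ c = δ * p ∧ ε = δ * r ∧ ¬ (cc s = 0 ∧ cc p = 0 ∧ cc r = 0) ∧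
    4 * C (cc s) * X 1 * pderiv 0 (pderiv 0 (hc (e + 3) f)) +
      C (cc p) * (3 * pderiv 1 (hc (e + 3) f) + X 1 * pderiv 1 (pderiv 1 (hc (e + 3) f)) +
        2 * X 0 * pderiv 0 (pderiv 1 (hc (e + 3) f))) -
      2 * C (cc r) * pderiv 1 (hc (e + 3) f) = 0) ∧
  (α ≠ 0 → cc α = 0 →
    C α * w.1 + (1 + 2 * C σ * X 1) * w.2 = (1 + C c * (C α * X 0 + X 1 + C σ * X 1 ^ 2)) * b →
    ∃ p q r : k, ¬ (p = 0 ∧ q = 0 ∧ r = 0) ∧
      HC.lf p q * pderiv 0 (pderiv 0 (hc (e + 3) f)) + C r * pderiv 0 (hc (e + 3) f) = 0)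

def ExcPStmt : Prop := ∀ (k : Type) [Field k] [CharZero k] [IsAlgClosed k] (d : ℕ) (f : R2 k)
  (w : Fm k⟦X⟧) (m : R2 k⸨X⸩) (c0 c1 : k⸨X⸩), Arc d f w → dv w ≠ 0 →
  Cn (mapF (coeL k) w) m c0 c1 → Pab m → (d = 5 ∨ d = 4 ∧ (9 * c1 = 2 ∨ 7 * c1 = 2)) → False

/-! ### Statements: the components -/

def VanStmt : Prop := ∀ (Ω : Type) [Field Ω] [Algebra ℂ Ω],
  (∀ (S : Fm Ω → Prop) (W : Set Form), (∀ w, S w → Van W w) → ∀ w, Lim S w → Van W w) ∧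
  (∀ d (w : Fm Ω), H1 d w → Van (L ![d + 1]) w) ∧
  (∀ a b (w : Fm Ω), H2 a b w → Van (L ![a, b]) w) ∧
  (∀ e (w : Fm Ω), H3 (e + 1) w → Van (L ![1, 1, e]) w) ∧
  (∀ w : Fm Ω, H7 w → Van N7 w) ∧ ∀ w : Fm Ω, H5 w → Van N5 w

/-- Along every arc of centres through the generic exact form one of the families is met. -/
def CoreFor (d : ℕ) (Ws : Set (Set Form)) : Prop :=
  ∀ (k : Type) [Field k] [CharZero k] [IsAlgClosed k] (f : R2 k) (w : Fm k⟦X⟧)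
    (p : Fin 2 → k⸨X⸩), Arc d f w → CenK w p →
    ∀ (Ω : Type) [Field Ω] [CharZero Ω] [IsAlgClosed Ω] [Algebra ℂ Ω] (ψ : k⸨X⸩ →+* Ω),
      ∃ W ∈ Ws, Van W (mapF ψ (mapF (coeL k) w))

def MinpFor (d : ℕ) (Ws : Set (Set Form)) : Prop := ∀ q ∈ (II (Cen d)).minimalPrimes,
  (∀ R : Co, rename Sum.inl R ∈ q →
    ∀ f : Poly, f.totalDegree ≤ d → Pool.Agent.MP_05b4bd_ag.ev R (dform f) = 0) →
  ∃ W ∈ Ws, ∀ R : Co, (∀ ω ∈ W, Pool.Agent.MP_05b4bd_ag.ev R ω = 0) → rename Sum.inl R ∈ q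

def Minp3Stmt : Prop := ∀ (d : ℕ) (Ws : Set (Set Form)), CoreFor d Ws → MinpFor d Ws

def MainFor (d : ℕ) (Ws : Set (Set Form)) : Prop := ∃ G : MvPolynomial (Fin 2 →₀ ℕ) ℂ,
  (∃ f : Poly, f.totalDegree = d ∧ Morse f ∧ eval (fun m => coeff m f) G ≠ 0) ∧
  ∀ f : Poly, f.totalDegree ≤ d → eval (fun m => coeff m f) G ≠ 0 →
    ∀ Z : Set Form, (IsComponent (M d) Z ∧ dform f ∈ Z ↔ ∃ W ∈ Ws, Z = zcl W)

def Main3Stmt : Prop := ∀ (d : ℕ) (Ws : Set (Set Form)), 1 ≤ d → MinpFor d Ws →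
  (∀ W ∈ Ws, W ⊆ M d ∧ Irred W ∧ Ex d ⊆ zcl W) →
  (∀ W ∈ Ws, ∀ W' ∈ Ws, W ⊆ zcl W' → W = W') → MainFor d Ws

def Mem2Stmt : Prop := L ![2, 2] ⊆ M 3 ∧ L ![2, 3] ⊆ M 4 ∧ N5 ⊆ M 3 ∧ N7 = S2 2

def Mem3Stmt : Prop := ∀ e, 2 ≤ e → e ≤ 4 → L ![1, 1, e] ⊆ M (e + 1)

def IrrStmt : Prop := (∀ (s : ℕ) (δ : Fin s → ℕ), Irred (L δ)) ∧ Irred N5 ∧ N5 ⊆ V 3 ∧
  (∀ η ∈ N5, ¬ Function.Injective (lamI (5 / 2) 2 η)) ∧
  ∀ η ∈ S2 2, ¬ Function.Injective (lamI (7 / 2) 2 η)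

/-- A polynomial vanishing to second order in every direction. -/
def DenseStmt : Prop := ∀ (ι : Type) (Φ : MvPolynomial ι ℂ) (z : ι → ℂ),
  (∀ v : ι → ℂ, ∃ u : ι → ℂ → ℂ, (∀ i, PS (u i)) ∧
    ∀ τ, eval (fun i => z i + τ * v i + τ ^ 2 * u i τ) Φ = 0) → Φ = 0

/-- `T` has at least `N` independent tangent directions. -/
def Tan (d : ℕ) (T : Set Form) (N : ℕ) : Prop := ∃ (ι : Type) (_ : Fintype ι) (ω : Form)
  (v : ι → Form), N ≤ Fintype.card ι ∧ LinearIndependent ℂ v ∧ ∀ c : ι → ℂ, ∃ γ : ℂ → Form,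
    PF γ ∧ ∀ τ, ω + τ • ∑ i, c i • v i + τ ^ 2 • γ τ ∈ zcl T ∧
      ω + τ • ∑ i, c i • v i + τ ^ 2 • γ τ ∈ V d

def DimStmt : Prop := (∀ (σ : Type) [Fintype σ] (U1 U2 : R2 (MvPolynomial σ ℂ)) (S T : Set Form)
  (d N : ℕ), zcl S = zcl (Set.range fun t : σ → ℂ => (map (eval t) U1, map (eval t) U2)) →
  ¬ S ⊆ zcl T → Tan d T N → Fintype.card σ ≤ N → ¬ T ⊆ zcl S) ∧
  ∀ (s : ℕ) (δ : Fin s → ℕ) (T : Set Form) (d N : ℕ), ¬ L δ ⊆ zcl T → Tan d T N →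
    ∑ i, (δ i + 1) * (δ i + 2) ≤ 2 * N → ¬ T ⊆ zcl (L δ)

/-- Density of a family of top forms. -/
def DomStmt : Prop := ∀ (d : ℕ) (W : Set Form) (F : Poly), 1 ≤ d → F.IsHomogeneous d →
  (∀ G : Poly, G.IsHomogeneous d → ∃ H : ℂ → Poly, PC H ∧ ∀ τ, (H τ).IsHomogeneous d ∧
    ∀ g : Poly, g.totalDegree < d → dform (F + τ • G + τ ^ 2 • H τ + g) ∈ zcl W) → Ex d ⊆ zcl W

def Dom2Stmt : Prop := Ex 3 ⊆ zcl (L ![2, 2]) ∧ Ex 4 ⊆ zcl (L ![2, 3]) ∧ Ex 3 ⊆ zcl N5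

def Dom3Stmt : Prop := ∀ e, 2 ≤ e → e ≤ 4 → Ex (e + 1) ⊆ zcl (L ![1, 1, e])

def Tan1Stmt : Prop := ∀ d, 3 ≤ d → d ≤ 5 → Tan d (L ![1, d]) (6 + d * (d + 1) / 2)

def Tan2Stmt : Prop := Tan 3 (L ![2, 2]) 12 ∧ Tan 4 (L ![2, 3]) 16

/-- Separation by linear conditions. -/
def Sep1Stmt : Prop := ∀ e, 2 ≤ e → e ≤ 4 →
  ¬ L ![1, 1, e] ⊆ zcl (L ![e + 2]) ∧ ¬ L ![1, 1, e] ⊆ zcl (L ![1, e + 1]) ∧
  (e ≤ 3 → ¬ L ![1, 1, e] ⊆ zcl (L ![2, e]))

def Sep2Stmt : Prop := ∀ e, 2 ≤ e → e ≤ 3 →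
  ¬ L ![2, e] ⊆ zcl (L ![e + 2]) ∧ ¬ L ![2, e] ⊆ zcl (L ![1, e + 1])

def Sep3Stmt : Prop :=
  (∀ W ∈ ({L ![1, 3], L ![1, 1, 2], L ![2, 2]} : Set (Set Form)), ∃ ω ∈ W,
    Function.Injective (lamI (5 / 2) 2 ω) ∧ Function.Injective (lamI (7 / 2) 2 ω)) ∧
  (∃ ω ∈ S2 2, Function.Injective (lamI (5 / 2) 2 ω)) ∧
  (∃ ω ∈ N5, Function.Injective (lamI (7 / 2) 2 ω)) ∧ ∃ ω ∈ N5, Function.Injective (lamI 1 4 ω)

def Sep4Stmt : Prop := ¬ L ![4] ⊆ zcl N5 ∧ ¬ L ![4] ⊆ zcl (S2 2)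

end Pool.Agent.MP_05b4bd_ag.PC3

end MrgPart1

-- marker of a merged file
example : 731051 + 222354 = 731051 + 222354 := rfl
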