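import Pool.Agent.MP_05b4bd_ag.pc3.Lift

-- ======== part 0: formerly Pool.Agent.MP_05b4bd_ag.pc3.Pab
section MrgPart0

/-! Integrating factors built on a parabola: the normal form in every degree. -/

namespace Pool.Agent.MP_05b4bd_ag.PC3.PB

open MvPolynomial HC ES

variable {K : Type} [Field K]

/-- The polynomial part of `(u ^ 2 + v) ^ (N + 1 / 2)`, up to a factor. -/
noncomputable def Sr : ℕ → R2 K → R2 K → R2 K
  | 0, u, _ => u
  | N + 1, u, v => C (2 * (N : K) + 3)⁻¹ *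
      (C (2 * (N : K) + 2) * (u ^ 2 + v) * Sr N u v + u * v ^ (N + 1))

theorem hom_Sr (φ : R2 K →ₐ[K] R2 K) (N : ℕ) (u v : R2 K) : φ (Sr N u v) = Sr N (φ u) (φ v) := by
  induction N with
  | zero => rfl
  | succ N ih => simp only [Sr, map_mul, map_add, map_pow, algHom_C, algebraMap_eq, ih]

theorem Sr_d [CharZero K] (i : Fin 2) (N : ℕ) (u v : R2 K) :
    2 * (u ^ 2 + v) * pderiv i (Sr N u v) - (2 * (N : R2 K) + 1) * Sr N u v * pderiv i (u ^ 2 + v) =
      v ^ N * (2 * v * pderiv i u - u * pderiv i v) := by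
  induction N with
  | zero => simp [Sr]; ring
  | succ N ih =>
    have hK : (2 * (N : K) + 3) ≠ 0 := by exact_mod_cast (by omega : 2 * N + 3 ≠ 0)
    have hC : (C (2 * (N : K) + 3)⁻¹ : R2 K) * (2 * N + 3) = 1 := by
      have : (2 * N + 3 : R2 K) = C (2 * (N : K) + 3) := by simp [map_ofNat]
      rw [this, ← map_mul, inv_mul_cancel₀ hK, map_one]
    have e2 : (C (2 * (N : K) + 2) : R2 K) = 2 * N + 2 := by simp [map_ofNat]
    simp only [Sr, pderiv_C, map_add (pderiv i), pderiv_mul, pderiv_pow,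
      Nat.add_sub_cancel] at ih ⊢
    rw [e2]
    push_cast at ih ⊢
    linear_combination (C (2 * (N : K) + 3)⁻¹ * (2 * N + 2) * (u ^ 2 + v)) * ih +
      (v ^ (N + 1) * (2 * v * pderiv i u - u * pderiv i v)) * hC

theorem hc_pow_top {a : ℕ} {u : R2 K} (hu : DL (a + 1) u) (j : ℕ) :
    hc (a * j) (u ^ j) = hc a u ^ j := by
  induction j with
  | zero => simp
  | succ j ih => rw [pow_succ, Nat.mul_succ, hc_mul_top (hu.pow j) hu, ih, pow_succ]

theorem Sr_top [CharZero K] (N : ℕ) {u v : R2 K} (hu : u.IsHomogeneous 1) (hv : DL 2 v) :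
    DL (2 * N + 2) (Sr N u v) ∧ ∃ l : K, l ≠ 0 ∧ hc (2 * N + 1) (Sr N u v) = C l * u ^ (2 * N + 1) := by
  induction N with
  | zero => exact ⟨DL.of_hom hu, 1, one_ne_zero, by simpa [Sr] using hc_self hu⟩
  | succ N ih =>
    obtain ⟨h1, l, hl, h2⟩ := ih
    have u2 : (u ^ 2).IsHomogeneous 2 := hu.pow 2
    have dC : DL 3 (u ^ 2 + v) := (DL.of_hom u2).add (hv.mono (by omega))
    have d2 : DL (2 * N + 3) (u * v ^ (N + 1)) :=
      ((DL.of_hom hu).mul (hv.pow (N + 1))).mono (by omega)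
    refine ⟨DL.C_mul _ (DL.add ?_ (d2.mono (by omega))), (2 * (N : K) + 3)⁻¹ * (2 * N + 2) * l,
      mul_ne_zero (mul_ne_zero (inv_ne_zero (by exact_mod_cast (by omega : 2 * N + 3 ≠ 0)))
        (by exact_mod_cast (by omega : 2 * N + 2 ≠ 0))) hl, ?_⟩
    · rw [mul_assoc]; exact ((dC.mul h1).C_mul _).mono (by omega)
    · rw [Sr, hc_C_mul, hc_add, d2.hc_eq (by omega), mul_assoc, hc_C_mul,
        show 2 * (N + 1) + 1 = 2 + (2 * N + 1) by omega, hc_mul_top dC h1, h2, hc_add,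
        hv.hc_eq le_rfl, hc_self u2, map_mul, map_mul]
      ring

theorem ker_y [CharZero K] {u : R2 K} (h : pderiv 1 u = 0) :
    ∃ p : Polynomial K, u = Polynomial.aeval (X 0 : R2 K) p := by
  have : u ∈ (Polynomial.aeval (X 0 : R2 K) : Polynomial K →ₐ[K] R2 K).range := by
    rw [u.as_sum]
    refine sum_mem fun m hm => ?_
    have h1 : m 1 = 0 := by
      by_contra hc
      obtain ⟨j, hj⟩ := Nat.exists_eq_succ_of_ne_zero hc
      have := co_y (m 0) j u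
      rw [h, co_zero] at this
      refine mem_support_iff.1 hm ?_
      rw [coeff_eq_co, hj]
      exact (mul_eq_zero.1 this.symm).resolve_right (Nat.cast_add_one_ne_zero j)
    exact ⟨Polynomial.C (coeff m u) * Polynomial.X ^ (m 0), by
      rw [monomial_eq2, h1]; simp⟩
  exact this.imp fun _ h => h.symm

theorem hom_y [CharZero K] {n : ℕ} {u : R2 K} (hu : u.IsHomogeneous n) (h : pderiv 0 u = 0) :
    u = C (HC.co 0 n u) * X 1 ^ n := by
  refine co_ext fun i j => ?_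
  rw [co_C_mul, ← one_mul (X 1 ^ n), ← pow_zero (X 0 : R2 K), co_mon]
  rcases i with _ | i
  · split_ifs with c
    · rw [c.2, mul_one]
    · rw [mul_zero, co_hom hu (fun e => c ⟨rfl, by omega⟩)]
  · have := co_x i j u
    rw [h, co_zero] at this
    rw [if_neg (by omega), mul_zero]
    exact (mul_eq_zero.1 this.symm).resolve_right (Nat.cast_add_one_ne_zero i)

/-- The parabola in normal coordinates. -/
noncomputable def pm (σ : K) : R2 K := X 0 + C σ * X 1 ^ 2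

theorem pm_x (σ : K) : pderiv 0 (pm σ) = 1 := by simp [pm]
theorem pm_y (σ : K) : pderiv 1 (pm σ) = C (2 * σ) * X 1 := by simp [pm, map_ofNat]; ring
theorem y2_hom (σ : K) : (C σ * X 1 ^ 2 : R2 K).IsHomogeneous 2 :=
  ((isHomogeneous_X K 1).pow 2).C_mul σ
theorem pm_DL (σ : K) : DL 3 (pm σ) := ((DL_X 0).mono (by omega)).add (DL.of_hom (y2_hom σ))
theorem pm_top (σ : K) : hc 2 (pm σ) = C σ * X 1 ^ 2 := by
  rw [pm, hc_add, (DL_X 0).hc_eq le_rfl, hc_self (y2_hom σ), zero_add]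

theorem ae_top {m : R2 K} (hm : DL 3 m) (h : Polynomial K) :
    DL (2 * h.natDegree + 1) (Polynomial.aeval m h) ∧
      hc (2 * h.natDegree) (Polynomial.aeval m h) = C h.leadingCoeff * hc 2 m ^ h.natDegree := by
  have l : DL (2 * h.natDegree) (∑ i ∈ Finset.range h.natDegree, h.coeff i • m ^ i) :=
    DL.sum _ fun i hi => by
      rw [smul_eq_C_mul]
      exact ((hm.pow i).C_mul _).mono (by have := Finset.mem_range.1 hi; omega)
  rw [Polynomial.aeval_eq_sum_range, Finset.sum_range_succ, smul_eq_C_mul]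
  exact ⟨(l.mono (by omega)).add ((hm.pow _).C_mul _), by
    rw [hc_add, l.hc_eq le_rfl, zero_add, hc_C_mul, hc_pow_top hm]; rfl⟩

theorem ae_bound {σ : K} (hσ : σ ≠ 0) {n : ℕ} {h : Polynomial K}
    (hd : DL (n + 1) (Polynomial.aeval (pm σ) h)) : 2 * h.natDegree ≤ n := by
  by_contra hc
  have h0 : h ≠ 0 := by rintro rfl; simp at hc
  have := (ae_top (pm_DL σ) h).2
  rw [hd.hc_eq (by omega), pm_top] at this
  exact mul_ne_zero (C_ne_zero.2 (Polynomial.leadingCoeff_ne_zero.2 h0))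
    (pow_ne_zero _ (mul_ne_zero (C_ne_zero.2 hσ) (pow_ne_zero _ (X_ne_zero _)))) this.symm

/-- `c dG + (κ G + h(m)) dm`. -/
noncomputable def TT (m : R2 K) (c0 c1 : K) (G : R2 K) (h : Polynomial K) : Fm K :=
  fm (C c0 + C c1 * m) G + fm (C (c1 - 1) * G + Polynomial.aeval m h) m

theorem TT_add (m : R2 K) (c0 c1 : K) (G G' : R2 K) (h : Polynomial K) :
    TT m c0 c1 (G + G') h = TT m c0 c1 G h + TT m c0 c1 G' 0 :=
  Prod.ext (by simp [TT, fm]; ring) (by simp [TT, fm]; ring)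

theorem TT_pow (m : R2 K) (c0 c1 γ : K) (j : ℕ) (G : R2 K) (h : Polynomial K) :
    ∃ h', TT m c0 c1 G h = TT m c0 c1 (G - C γ * m ^ j) h' := by
  refine ⟨h + Polynomial.C γ * ((Polynomial.C c0 + Polynomial.C c1 * Polynomial.X) *
    ((j : Polynomial K) * Polynomial.X ^ (j - 1)) + Polynomial.C (c1 - 1) * Polynomial.X ^ j), Prod.ext ?_ ?_⟩ <;>
  simp only [TT, fm, Prod.fst_add, Prod.snd_add, map_add, map_mul, map_sub, map_pow, map_natCast,
    Polynomial.aeval_C, Polynomial.aeval_X, algebraMap_eq, pderiv_C_mul, pderiv_pow, map_one] <;>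
  ring

variable [CharZero K] {σ c0 c1 : K} {W : Fm K}

theorem h_DL (hσ : σ ≠ 0) {n : ℕ} {G : R2 K} {h : Polynomial K} (hW : DF (n + 2) W)
    (hG : DL (n + 1) G) (e : W = TT (pm σ) c0 c1 G h) : DL (n + 1) (Polynomial.aeval (pm σ) h) := by
  have dC : DL 3 (C c0 + C c1 * pm σ) := ((DL_C _).mono (by omega)).add ((pm_DL σ).C_mul _)
  have e1 := congrArg Prod.fst e
  simp only [TT, fm, Prod.fst_add, pm_y] at e1
  have : DL (n + 1 + 1) (Polynomial.aeval (pm σ) h * (C (2 * σ) * X 1)) := by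
    rw [show Polynomial.aeval (pm σ) h * (C (2 * σ) * X 1) = W.1 - (C c0 + C c1 * pm σ) * pderiv 1 G
      - C (c1 - 1) * G * (C (2 * σ) * X 1) by rw [e1]; ring]
    exact (hW.1.sub ((dC.mul (hG.pderiv 1)).mono (by omega))).sub
      ((hG.C_mul _).mul' ((DL_X 1).C_mul _))
  refine DL_of_mul this fun h1 => ?_
  have := (DL.of_C_mul (mul_ne_zero two_ne_zero hσ) h1).hc_eq le_rfl
  rw [hc_self (isHomogeneous_X K 1)] at this
  exact X_ne_zero _ this

/-- The leading form of `G` when the leading terms of the form cancel. -/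
theorem low (hσ : σ ≠ 0) {n : ℕ} {G : R2 K} {h : Polynomial K} (hW : DF (n + 2) W)
    (hG : DL (n + 2) G) (e : W = TT (pm σ) c0 c1 G h) : ∃ g : K, hc (n + 1) G = C g * X 1 ^ (n + 1) ∧
      (Odd (n + 1) → g * (c1 * (n + 1 : ℕ) + 2 * (c1 - 1)) = 0) := by
  have dC : DL 3 (C c0 + C c1 * pm σ) := ((DL_C _).mono (by omega)).add ((pm_DL σ).C_mul _)
  have tC : hc 2 (C c0 + C c1 * pm σ) = C c1 * (C σ * X 1 ^ 2) := by
    rw [hc_add, (DL_C _).hc_eq (by omega), hc_C_mul, pm_top, zero_add]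
  have dh := h_DL hσ (hW.mono (by omega)) hG e
  obtain ⟨η, hη, oη⟩ : ∃ η : K, hc (n + 1) (Polynomial.aeval (pm σ) h) = C η * X 1 ^ (n + 1) ∧
      (Odd (n + 1) → η = 0) := by
    rcases (ae_bound hσ dh).eq_or_lt with h1 | h1
    · refine ⟨h.leadingCoeff * σ ^ h.natDegree, ?_, fun o => absurd o (by rw [← h1]; simp)⟩
      rw [← h1, (ae_top (pm_DL σ) h).2, pm_top, map_mul, map_pow, mul_pow, ← pow_mul, mul_assoc]
    · exact ⟨0, by rw [(ae_top (pm_DL σ) h).1.hc_eq (by omega), map_zero, zero_mul], fun _ => rfl⟩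
  have dS : DL (n + 2) (C (c1 - 1) * G + Polynomial.aeval (pm σ) h) := (hG.C_mul _).add dh
  have e1 := congrArg (fun w : Fm K => hc (n + 2) w.1) e
  have e2 := congrArg (fun w : Fm K => hc (n + 2) w.2) e
  simp only [TT, fm, Prod.fst_add, Prod.snd_add, pm_x, pm_y, mul_one] at e1 e2
  rw [hW.2.hc_eq le_rfl, hc_add, hc_neg, hc_neg, dS.hc_eq le_rfl, add_comm n 2,
    hc_mul_top dC (hG.pderiv 0), tC, hc_pderiv] at e2
  rw [hW.1.hc_eq le_rfl, hc_add, hc_mul_top (a := n + 1) (b := 1) dS ((DL_X 1).C_mul _), add_comm n 2,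
    hc_mul_top dC (hG.pderiv 1), tC, hc_pderiv, hc_add, hc_C_mul, hc_C_mul, hη,
    hc_self (isHomogeneous_X K 1)] at e1
  have y0 : (X 1 : R2 K) ≠ 0 := X_ne_zero _
  have s0 : (C σ : R2 K) ≠ 0 := C_ne_zero.2 hσ
  simp only [map_mul, map_ofNat, map_sub, map_one] at e1
  by_cases h1 : c1 = 0
  · subst h1
    refine ⟨η, mul_left_cancel₀ (mul_ne_zero two_ne_zero (mul_ne_zero s0 y0)) ?_,
      fun o => by rw [oη o, zero_mul]⟩
    rw [map_zero] at e1
    linear_combination e1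
  · have gx : pderiv 0 (hc (n + 1) G) = 0 :=
      mul_left_cancel₀ (mul_ne_zero (C_ne_zero.2 h1) (mul_ne_zero s0 (pow_ne_zero 2 y0)))
        (by linear_combination e2)
    have gy := hom_y (hc_hom (n + 1) G) gx
    generalize HC.co 0 (n + 1) (hc (n + 1) G) = g at gy
    refine ⟨g, gy, fun o => ?_⟩
    rw [gy, oη o, pderiv_C_mul, pderiv_pow, pderiv_X_self] at e1
    refine C_eq_zero.1 (mul_right_cancel₀ (mul_ne_zero s0 (pow_ne_zero (n + 2) y0)) ?_ :
      (C _ : R2 K) = 0)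
    simp only [map_mul, map_add, map_sub, map_ofNat, map_natCast, map_one, map_zero,
      Nat.add_sub_cancel] at e1 ⊢
    linear_combination -e1

/-- Lowering the degree of `G` in the absence of resonance. -/
theorem lower (hσ : σ ≠ 0) {D : ℕ} (hD : 1 ≤ D) (hW : DF (D + 1) W) (n : ℕ)
    (hr : ∀ j, D ≤ j → j < n → Odd j → c1 * j + 2 * (c1 - 1) ≠ 0) : ∀ G h, DL n G →
    W = TT (pm σ) c0 c1 G h → ∃ G' h', DL D G' ∧ W = TT (pm σ) c0 c1 G' h' := by
  induction n with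
  | zero => exact fun G h hG e => ⟨G, h, hG.mono (by omega), e⟩
  | succ n ih =>
    intro G h hG e
    by_cases hn : n < D
    · exact ⟨G, h, hG.mono (by omega), e⟩
    replace ih := ih fun j a b => hr j a (by omega)
    obtain ⟨n, rfl⟩ : ∃ n', n = n' + 1 := ⟨n - 1, by omega⟩
    obtain ⟨g, h1, h2⟩ := low hσ (hW.mono (by omega)) hG e
    rcases Nat.even_or_odd (n + 1) with ⟨j, hj⟩ | o
    · obtain ⟨h', e'⟩ := TT_pow (pm σ) c0 c1 (g / σ ^ j) j G h
      have dp : DL (n + 2) (pm σ ^ j) := ((pm_DL σ).pow j).mono (by omega)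
      refine ih _ h' ((hG.sub (dp.C_mul _)).pred ?_) (e.trans e')
      rw [hc_sub, h1, hc_C_mul, show n + 1 = 2 * j by omega, hc_pow_top (pm_DL σ), pm_top, mul_pow,
        ← pow_mul, ← map_pow, ← mul_assoc, ← map_mul, div_mul_cancel₀ _ (pow_ne_zero _ hσ), sub_self]
    · have := (mul_eq_zero.1 (h2 o)).resolve_right (hr _ (by omega) (by omega) o)
      exact ih G h (hG.pred (by rw [h1, this, map_zero, zero_mul])) e

theorem start (hP : Pr W (C c0 + C c1 * pm σ) (d1 (pm σ))) : ∃ G h, W = TT (pm σ) c0 c1 G h := by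
  have i1 : sub2 (pm σ) (X 1) (X 0 - C σ * X 1 ^ 2) = X 0 := by
    simp only [map_sub, map_mul, map_pow, sub2_C, sub2_X0, sub2_X1, pm]; ring
  have i2 : sub2 (X 0 - C σ * X 1 ^ 2) (X 1) (pm σ) = X 0 := by
    simp only [map_add, map_mul, map_pow, sub2_C, sub2_X0, sub2_X1, pm]; ring
  have eW : W = pb (pm σ) (X 1) (pb (X 0 - C σ * X 1 ^ 2) (X 1) W) := by
    rw [pb_pb, i1, sub2_X1, pb_id]
  have h := hP.pb (s := X 0 - C σ * X 1 ^ 2) (t := X 1)
  rw [pb_d1, map_add, map_mul, sub2_C, sub2_C, i2, Pr, wg_d1, vf_X0] at h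
  generalize pb (X 0 - C σ * X 1 ^ 2) (X 1) W = V at eW h
  have a := pderiv_ad 1 (dv V)
  generalize ad 1 (dv V) = G at a
  obtain ⟨p, hp⟩ := ker_y (u := -V.2 - (C c0 + C c1 * X 0) * pderiv 0 G - C (c1 - 1) * G) (by
    have h' := congrArg (pderiv 0) h
    rw [← a] at h'
    simp only [dv, map_sub, map_neg, map_add, pderiv_mul, pderiv_C, pderiv_X_self, HC.pderiv_comm,
      map_one, pderiv_one, pderiv_X_of_ne (show (0 : Fin 2) ≠ 1 by decide)] at h' a ⊢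
    linear_combination h' + a)
  have eV : V = TT (X 0) c0 c1 G p := Prod.ext (by simp [TT, fm, h, a])
    (by simp only [TT, fm, Prod.snd_add, ← hp, pderiv_X_self]; ring)
  refine ⟨sub2 (pm σ) (X 1) G, p, ?_⟩
  rw [eW, eV, TT, TT, pb_add, pb_fm, pb_fm]
  simp only [map_add, map_mul, sub2_C, sub2_X0, ← Polynomial.aeval_algHom_apply]

theorem TT_Sr {N : ℕ} {s : K} (hs : s ^ 2 = c1 * σ) (hN : c1 * (2 * N + 1 : ℕ) + 2 * (c1 - 1) = 0)
    (e : K) : TT (pm σ) c0 c1 (C e * Sr N (C s * X 1) (C c0 + C c1 * X 0)) 0 =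
      (C (e * s) * (C c0 + C c1 * X 0) ^ (N + 1),
        C (e * s * c1 / 2) * ((C c0 + C c1 * X 0) ^ N * X 1)) := by
  have h0 := Sr_d 0 N (C s * X 1) (C c0 + C c1 * X 0)
  have h1 := Sr_d 1 N (C s * X 1) (C c0 + C c1 * X 0)
  have hs' := congrArg (C : K → R2 K) hs
  have hN' := congrArg (C : K → R2 K) hN
  have h2 : (C (e * s * c1 / 2) : R2 K) * 2 = C e * C s * C c1 := by
    rw [← map_ofNat (C : K →+* R2 K) 2, ← map_mul, ← map_mul, ← map_mul]; congr 1; ring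
  generalize Sr N (C s * X 1) (C c0 + C c1 * X 0) = S at h0 h1
  simp only [map_add, map_mul, map_sub, map_pow, map_ofNat, map_natCast, map_one, map_zero,
    pderiv_mul, pderiv_pow, pderiv_C, pderiv_X_self, pderiv_X_of_ne (show (0 : Fin 2) ≠ 1 by decide),
    pderiv_X_of_ne (show (1 : Fin 2) ≠ 0 by decide)] at h0 h1 hs' hN'
  push_cast at h0 h1 hN'
  refine Prod.ext (mul_left_cancel₀ two_ne_zero ?_) (mul_left_cancel₀ two_ne_zero ?_) <;>
    simp only [TT, fm, Prod.fst_add, Prod.snd_add, pm_x, pm_y, pderiv_C_mul, map_zero, map_mul,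
      map_sub, map_one, map_ofNat]
  · rw [pm]
    linear_combination C e * h1 + (2 * C e * C σ * X 1 * S) * hN' +
      (C e * X 1 * (2 * (2 * N + 1) * S - 2 * X 1 * pderiv 1 S)) * hs'
  · rw [pm]
    linear_combination (-C e) * h0 - C e * S * hN' + 2 * C e * X 1 ^ 2 * pderiv 0 S * hs' -
      ((C c0 + C c1 * X 0) ^ N * X 1) * h2

theorem nf (hσ : σ ≠ 0) {d : ℕ} (hd : 1 ≤ d) (hW : DF (d + 1) W) {s : K} (hs : s ^ 2 = c1 * σ)
    (hP : Pr W (C c0 + C c1 * pm σ) (d1 (pm σ))) : ∃ (N : ℕ) (e : K) (g : R2 K) (h : Polynomial K),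
      DL d g ∧ 2 * h.natDegree + 1 ≤ d ∧
      (e = 0 ∨ d ≤ 2 * N + 1 ∧ N + 1 ≤ d ∧ (2 * N + 3) * c1 = 2) ∧
      W = TT (pm σ) c0 c1 (g + C e * Sr N (C s * X 1) (C c0 + C c1 * X 0)) h := by
  obtain ⟨d, rfl⟩ : ∃ d', d = d' + 1 := ⟨d - 1, by omega⟩
  have fin : ∀ {V G h}, DF (d + 2) V → DL (d + 1) G → V = TT (pm σ) c0 c1 G h →
      2 * h.natDegree + 1 ≤ d + 1 := fun a b c => by
    have := ae_bound hσ (h_DL hσ a b c); omega
  have triv : (∃ G h, DL (d + 1) G ∧ W = TT (pm σ) c0 c1 G h) → _ := fun ⟨G, h, a, b⟩ =>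
    (⟨0, 0, G, h, a, fin hW a b, Or.inl rfl, by rw [map_zero, zero_mul, add_zero]; exact b⟩ :
      ∃ (N : ℕ) (e : K) (g : R2 K) (h : Polynomial K), DL (d + 1) g ∧ 2 * h.natDegree + 1 ≤ d + 1 ∧
      (e = 0 ∨ d + 1 ≤ 2 * N + 1 ∧ N + 1 ≤ d + 1 ∧ (2 * N + 3) * c1 = 2) ∧
      W = TT (pm σ) c0 c1 (g + C e * Sr N (C s * X 1) (C c0 + C c1 * X 0)) h)
  obtain ⟨G, h, e⟩ := start hP
  obtain ⟨n, hG⟩ := exists_DL G
  by_cases hr : ∀ j, d + 1 ≤ j → Odd j → c1 * j + 2 * (c1 - 1) ≠ 0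
  · exact triv (lower hσ hd hW n (fun j a _ => hr j a) G h hG e)
  push Not at hr
  obtain ⟨_, hN1, ⟨N, rfl⟩, hN⟩ := hr
  have c0' : c1 ≠ 0 := by rintro rfl; simp at hN
  have uniq : ∀ j : ℕ, j ≠ 2 * N + 1 → c1 * j + 2 * (c1 - 1) ≠ 0 := fun j a b =>
    a (Nat.cast_injective (R := K) (mul_left_cancel₀ c0' (by linear_combination b - hN)))
  have s0 : s ≠ 0 := by
    rintro rfl
    exact mul_ne_zero c0' hσ (by rw [← hs]; simp)
  obtain ⟨G, h, hG, e⟩ := lower hσ (D := 2 * N + 2) (by omega) (hW.mono (by omega)) n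
    (fun j a _ _ => uniq j (by omega)) G h hG e
  obtain ⟨g, h1, -⟩ := low hσ (n := 2 * N) (hW.mono (by omega)) hG e
  have dv : DL 2 (C c0 + C c1 * X 0 : R2 K) := ((DL_C _).mono (by omega)).add ((DL_X 0).C_mul _)
  obtain ⟨dS, l, hl, h2⟩ := Sr_top N ((isHomogeneous_X K 1).C_mul s) dv
  have hT := TT_Sr (c0 := c0) hs hN (g / (l * s ^ (2 * N + 1)))
  have dG : DL (2 * N + 1) (G - C (g / (l * s ^ (2 * N + 1))) * Sr N (C s * X 1) (C c0 + C c1 * X 0)) :=
    (hG.sub (dS.C_mul _)).pred (by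
      rw [hc_sub, h1, hc_C_mul, h2, mul_pow, ← map_pow, ← mul_assoc, ← mul_assoc, ← map_mul, ← map_mul,
        mul_assoc, div_mul_cancel₀ _ (mul_ne_zero hl (pow_ne_zero _ s0)), sub_self])
  generalize g / (l * s ^ (2 * N + 1)) = a at hT dG
  have dT : DF (N + 2) (TT (pm σ) c0 c1 (C a * Sr N (C s * X 1) (C c0 + C c1 * X 0)) 0) := by
    rw [hT]
    exact ⟨((dv.pow _).C_mul _).mono (by omega), (((dv.pow N).mul (DL_X 1)).C_mul _).mono (by omega)⟩
  have e' : W - TT (pm σ) c0 c1 (C a * Sr N (C s * X 1) (C c0 + C c1 * X 0)) 0 =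
      TT (pm σ) c0 c1 (G - C a * Sr N (C s * X 1) (C c0 + C c1 * X 0)) h := by
    rw [sub_eq_iff_eq_add, ← TT_add, sub_add_cancel, e]
  by_cases hNd : N ≤ d
  · have dV := hW.sub (dT.mono (show N + 2 ≤ d + 1 + 1 by omega))
    obtain ⟨G', h', a1, a2⟩ := lower hσ hd dV _ (fun j _ b _ => uniq j (by omega)) _ _ dG e'
    refine ⟨N, a, G', h', a1, fin dV a1 a2, Or.inr ⟨hN1, by omega, ?_⟩, ?_⟩
    · push_cast at hN; linear_combination hN
    · rw [TT_add, ← a2, sub_add_cancel]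
  · have dV := (hW.mono (show d + 1 + 1 ≤ N + 1 + 1 by omega)).sub dT
    obtain ⟨G', h', a1, a2⟩ := lower hσ (by omega) dV _ (fun j _ b _ => uniq j (by omega)) _ _ dG e'
    have a0 : a = 0 := by
      have k := congrArg (fun w : Fm K => eval ![1, 0] (hc (N + 1) w.1)) a2
      rw [hT] at k
      simp only [TT, fm, Prod.fst_add, Prod.fst_sub, pm_y] at k
      have t1 : hc 1 (C c0 + C c1 * X 0 : R2 K) = C c1 * X 0 := by
        rw [hc_add, (DL_C _).hc_eq le_rfl, hc_C_mul, hc_self (isHomogeneous_X K 0), zero_add]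
      have t2 := hc_pow_top dv (N + 1)
      rw [one_mul, t1] at t2
      have t3 : (C c0 + C c1 * pm σ) * pderiv 1 G' + (C (c1 - 1) * G' + Polynomial.aeval (pm σ) h') *
          (C (2 * σ) * X 1) = (C c0 + C c1 * X 0) * pderiv 1 G' + (C c1 * C σ * X 1 * pderiv 1 G' +
            (C (c1 - 1) * G' + Polynomial.aeval (pm σ) h') * C (2 * σ)) * X 1 := by
        simp only [pm]; ring
      rw [t3, hc_sub, hc_add, (hW.1).hc_eq (by omega), hc_C_mul, t2,
        (dv.mul (a1.pderiv 1)).hc_eq (by omega), hc_mul_hom _ _ (isHomogeneous_X K 1)] at k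
      simp [s0, c0'] at k
      exact k
    subst a0
    rw [hT] at a2
    simp only [zero_mul, zero_div, map_zero, Prod.mk_zero_zero, sub_zero] at a2
    exact triv (lower hσ hd hW _ (fun j _ b _ => uniq j (by omega)) _ _ a1 a2)

/-- The normal form in arbitrary coordinates. -/
theorem pf [IsAlgClosed K] {d : ℕ} (hd : 1 ≤ d) (hW : DF (d + 1) W) {m : R2 K}
    (hC : Pr W (C c0 + C c1 * m) (d1 m)) (hm : Pab m) :
    ∃ (N : ℕ) (e : K) (u v g : R2 K) (h : Polynomial K), u.IsHomogeneous 1 ∧ DL 2 v ∧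
      C c0 + C c1 * m = u ^ 2 + v ∧ DL d g ∧ 2 * h.natDegree + 1 ≤ d ∧
      (e = 0 ∨ d ≤ 2 * N + 1 ∧ N + 1 ≤ d ∧ (2 * N + 3) * c1 = 2) ∧
      W = TT m c0 c1 (g + C e * Sr N u v) h := by
  obtain ⟨m0, α, β, σ, a, b, hσ, hΔ, em⟩ := hm
  have ds : DL 2 (C m0 + HC.lf α β) := ((DL_C _).mono (by omega)).add (DL_lf _ _)
  obtain ⟨s', t', d1', d2', -, -, i2, i3, -⟩ := exists_inv' ds (DL_lf a b) (r := (α * b - β * a)⁻¹) (by
    simp only [br, map_add, pderiv_C, lf_x, lf_y, zero_add]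
    rw [← map_mul, ← map_mul, ← map_sub, ← map_mul, inv_mul_cancel₀ hΔ, map_one])
  have e1 : sub2 (C m0 + HC.lf α β) (HC.lf a b) (pm σ) = m := by
    simp only [pm, map_add, map_mul, map_pow, sub2_C, sub2_X0, sub2_X1, em]
  have hP := hC.pb (s := s') (t := t')
  rw [pb_d1, map_add, map_mul, sub2_C, sub2_C, ← e1, i2] at hP
  obtain ⟨s, hs⟩ := IsAlgClosed.exists_pow_nat_eq (c1 * σ) (n := 2) (by omega)
  obtain ⟨N, e, g, h, a1, a2, a3, a4⟩ := nf hσ hd (hW.pb d1' d2') hs hP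
  refine ⟨N, e, C s * HC.lf a b, C c0 + C c1 * (C m0 + HC.lf α β),
    sub2 (C m0 + HC.lf α β) (HC.lf a b) g, h, (lf_hom a b).C_mul s,
    ((DL_C _).mono (by omega)).add (ds.C_mul _), ?_, sub2_DL ds (DL_lf a b) a1, a2, a3, ?_⟩
  · rw [em, mul_pow, ← map_pow, hs, map_mul]; ring
  · rw [← i3 W, a4, TT, TT, pb_add, pb_fm, pb_fm]
    simp only [map_add, map_mul, sub2_C, sub2_X0, sub2_X1, hom_Sr, e1,
      ← Polynomial.aeval_algHom_apply]

omit [CharZero K] in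
theorem ae_two (m : R2 K) {h : Polynomial K} (hh : h.natDegree ≤ 2) : Polynomial.aeval m h =
    C (h.coeff 0) + C (h.coeff 1) * m + C (h.coeff 2) * m ^ 2 := by
  rw [Polynomial.aeval_eq_sum_range' (n := 3) (by omega)]
  simp [Finset.sum_range_succ, smul_eq_C_mul]

omit [CharZero K] in
theorem cf_of {d : ℕ} (hd : d ≤ 5) {m g : R2 K} {h : Polynomial K} (hg : DL d g)
    (hh : 2 * h.natDegree + 1 ≤ d) (e : W = TT m c0 c1 g h) : CF d W m c0 c1 :=
  ⟨g, h.coeff 0, h.coeff 1, h.coeff 2, hg, fun _ => Polynomial.coeff_eq_zero_of_natDegree_lt (by omega),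
    by rw [e, TT, ae_two m (by omega)]; simp only [add_assoc]⟩

theorem Sr_one (u v : R2 K) : 3 * Sr 1 u v = 2 * u ^ 3 + 3 * u * v := by
  have : (C (2 * ((0 : ℕ) : K) + 3)⁻¹ : R2 K) * 3 = 1 := by
    rw [← map_ofNat (C : K →+* R2 K) 3, ← map_mul, ← C_1]; congr 1; simp
  simp only [Sr, map_add, map_mul, map_ofNat, map_natCast] at this ⊢
  push_cast at this ⊢
  linear_combination (2 * (u ^ 2 + v) * u + u * v) * this

theorem Sr_two (u v : R2 K) : 15 * Sr 2 u v = 8 * u ^ 5 + 20 * u ^ 3 * v + 15 * u * v ^ 2 := by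
  have : (C (2 * ((1 : ℕ) : K) + 3)⁻¹ : R2 K) * 5 = 1 := by
    rw [← map_ofNat (C : K →+* R2 K) 5, ← map_mul, ← C_1]; congr 1; norm_num
  rw [Sr]
  simp only [map_add, map_mul, map_ofNat, map_natCast] at this ⊢
  push_cast at this ⊢
  linear_combination 3 * (4 * (u ^ 2 + v) * Sr 1 u v + u * v ^ 2) * this +
    4 * (u ^ 2 + v) * Sr_one u v

theorem Sr_three (u v : R2 K) : 35 * Sr 3 u v =
    16 * u ^ 7 + 56 * u ^ 5 * v + 70 * u ^ 3 * v ^ 2 + 35 * u * v ^ 3 := by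
  have : (C (2 * ((2 : ℕ) : K) + 3)⁻¹ : R2 K) * 7 = 1 := by
    rw [← map_ofNat (C : K →+* R2 K) 7, ← map_mul, ← C_1]; congr 1; norm_num
  rw [Sr]
  simp only [map_add, map_mul, map_ofNat, map_natCast] at this ⊢
  push_cast at this ⊢
  linear_combination 5 * (6 * (u ^ 2 + v) * Sr 2 u v + u * v ^ 3) * this +
    2 * (u ^ 2 + v) * Sr_two u v

/-- At a resonance an affine `h` is absorbed. -/
theorem absorb {N : ℕ} (hN : (2 * N + 3) * c1 = 2) {m G : R2 K} {h : Polynomial K}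
    (hh : h.natDegree ≤ 1) : ∃ r g0 g1 : K, TT m c0 c1 G h =
      fm (2 * (C c0 + C c1 * m)) (C r * G + (C g0 + C g1 * m)) -
        fm ((2 * (N : R2 K) + 1) * (C r * G + (C g0 + C g1 * m))) (C c0 + C c1 * m) := by
  have n1 : (2 * N + 1 : K) ≠ 0 := by exact_mod_cast (by omega : 2 * N + 1 ≠ 0)
  have n2 : (2 * N - 1 : K) ≠ 0 := fun h => by
    have : ((2 * N : ℕ) : K) = (1 : ℕ) := by push_cast; linear_combination h
    have := Nat.cast_injective this
    omega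
  have n3 : c1 ≠ 0 := by rintro rfl; simp at hN
  obtain ⟨r, hr⟩ : ∃ r : K, 2 * r = 1 := ⟨2⁻¹, by norm_num⟩
  obtain ⟨g1, h1⟩ : ∃ g1, -((2 * N - 1) * c1) * g1 = h.coeff 1 :=
    ⟨_, mul_div_cancel₀ _ (neg_ne_zero.2 (mul_ne_zero n2 n3))⟩
  obtain ⟨g0, h0⟩ : ∃ g0, -((2 * N + 1) * c1) * g0 = h.coeff 0 - 2 * c0 * g1 :=
    ⟨_, mul_div_cancel₀ _ (neg_ne_zero.2 (mul_ne_zero n1 n3))⟩
  refine ⟨r, g0, g1, ?_⟩
  rw [TT, ae_two m (by omega), Polynomial.coeff_eq_zero_of_natDegree_lt (show h.natDegree < 2 by omega)]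
  have e0 := congrArg (C : K → R2 K) h0
  have e1 := congrArg (C : K → R2 K) h1
  have er := congrArg (C : K → R2 K) hr
  have eN := congrArg (C : K → R2 K) hN
  simp only [map_add, map_mul, map_sub, map_neg, map_ofNat, map_natCast, map_one] at e0 e1 er eN
  have key : ∀ i, (C c0 + C c1 * m) * pderiv i G + (C (c1 - 1) * G +
      (C (h.coeff 0) + C (h.coeff 1) * m + C 0 * m ^ 2)) * pderiv i m =
      2 * (C c0 + C c1 * m) * pderiv i (C r * G + (C g0 + C g1 * m)) -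
      (2 * (N : R2 K) + 1) * (C r * G + (C g0 + C g1 * m)) * pderiv i (C c0 + C c1 * m) := fun i => by
    simp only [map_add, map_sub, pderiv_C_mul, pderiv_C, map_one, map_zero]
    linear_combination (-pderiv i m) * e0 - m * pderiv i m * e1 + C r * G * pderiv i m * eN -
      ((C c0 + C c1 * m) * pderiv i G + (C c1 - 1) * G * pderiv i m) * er
  exact Prod.ext (key 1) (by
    simp only [fm, Prod.snd_add, Prod.snd_sub]; linear_combination -key 0)

end Pool.Agent.MP_05b4bd_ag.PC3.PB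

namespace Pool.Agent.MP_05b4bd_ag.PC3

open MvPolynomial HC ES PB

theorem par4S : Par4Stmt := by
  intro K _ _ _ w m c0 c1 hw hC hm
  obtain ⟨N, e, u, v, g, h, -, -, -, a1, a2, a3, a4⟩ := pf (d := 4) (by omega) hw hC.2.2 hm
  rcases a3 with rfl | ⟨b1, b2, b3⟩
  · exact Or.inl (cf_of (by omega) a1 a2 (by simpa using a4))
  · obtain rfl | rfl : N = 3 ∨ N = 2 := by omega
    · exact Or.inr (Or.inl (by push_cast at b3; linear_combination b3))
    · exact Or.inr (Or.inr (by push_cast at b3; linear_combination b3))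

theorem par3S : Par3Stmt := by
  intro K _ _ _ w m c0 c1 hw hC hm
  obtain ⟨N, e, u, v, g, h, hu, hv, ec, a1, a2, a3, a4⟩ := pf (d := 3) (by omega) hw hC.2.2 hm
  rcases a3 with rfl | ⟨b1, b2, b3⟩
  · exact Or.inl (cf_of (by omega) a1 a2 (by simpa using a4))
  obtain ⟨r, g0, g1, e1⟩ := absorb (c0 := c0) b3 (m := m) (G := g + C e * Sr N u v) (h := h) (by omega)
  rw [← a4, ec] at e1
  have dg : DL 3 (C r * g + (C g0 + C g1 * m)) :=
    (a1.C_mul _).add (((DL_C _).mono (by omega)).add (hC.1.C_mul _))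
  have cc : ∀ n : ℕ, n ≠ 0 → (C (r * e / n) : R2 K) * (n : R2 K) = C r * C e := fun n hn => by
    rw [← map_natCast (C : K →+* R2 K) n, ← map_mul, ← map_mul,
      div_mul_cancel₀ _ (Nat.cast_ne_zero.2 hn)]
  obtain rfl | rfl : N = 2 ∨ N = 1 := by omega
  · refine Or.inr (Or.inl ⟨r * e / (15 : ℕ), u, v, _,
      C r * (g + C e * Sr 2 u v) + (C g0 + C g1 * m), DL.of_hom hu, hv, dg, ?_,
      e1.trans (by norm_num)⟩)
    have := cc 15 (by omega)
    push_cast at this ⊢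
    linear_combination (-Sr 2 u v) * this + C (r * e / 15) * Sr_two u v
  · refine Or.inr (Or.inr ⟨2 * (r * e / (3 : ℕ)), u, v,
      C r * g + (C g0 + C g1 * m) + C r * (C e * (u * v)),
      C r * (g + C e * Sr 1 u v) + (C g0 + C g1 * m), DL.of_hom hu, hv,
      dg.add ((((DL.of_hom hu).mul hv).C_mul _).C_mul _), ?_, e1.trans (by norm_num)⟩)
    have := cc 3 (by omega)
    rw [map_mul, map_ofNat]
    push_cast at this ⊢
    linear_combination (u * v - Sr 1 u v) * this + C (r * e / 3) * Sr_one u v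

end Pool.Agent.MP_05b4bd_ag.PC3

end MrgPart0

-- ======== part 1: formerly Pool.Agent.MP_05b4bd_ag.pc3.ExT
section MrgPart1

/-! Binary forms with too few parameters, and integral lifts of the leading form. -/

namespace Pool.Agent.MP_05b4bd_ag.PC3.EX

open MvPolynomial HC ES PB

section Few
variable {Ω : Type} [Field Ω] [CharZero Ω]

/-- Polynomials with coefficients in `S`. -/
noncomputable def OV (S : Subalgebra ℚ Ω) : Subring (R2 Ω) := (map (S.val : S →+* Ω)).range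

variable {S : Subalgebra ℚ Ω}

theorem mem_OV {u : R2 Ω} : u ∈ OV S ↔ ∀ m, coeff m u ∈ S := by
  constructor
  · rintro ⟨v, rfl⟩ m
    rw [coeff_map]; exact (coeff m v).2
  · intro h
    change u ∈ Set.range _
    rw [mem_range_map_iff_coeffs_subset]
    intro z hz
    obtain ⟨m, -, rfl⟩ := mem_coeffs_iff.1 hz
    exact ⟨⟨_, h m⟩, rfl⟩

theorem C_OV {c : Ω} (h : c ∈ S) : C c ∈ OV S := ⟨C ⟨c, h⟩, map_C _ _⟩
theorem X_OV (i : Fin 2) : X i ∈ OV S := ⟨X i, map_X _ _⟩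
theorem lf_OV {a b : Ω} (ha : a ∈ S) (hb : b ∈ S) : HC.lf a b ∈ OV S :=
  add_mem (mul_mem (C_OV ha) (X_OV 0)) (mul_mem (C_OV hb) (X_OV 1))
theorem d_OV (i : Fin 2) {u : R2 Ω} (h : u ∈ OV S) : pderiv i u ∈ OV S := by
  obtain ⟨v, rfl⟩ := h
  exact ⟨pderiv i v, pderiv_map.symm⟩
theorem hc_OV (n : ℕ) {u : R2 Ω} (h : u ∈ OV S) : hc n u ∈ OV S := by
  obtain ⟨v, rfl⟩ := h
  exact ⟨hc n v, (hc_map _ n v).symm⟩
theorem lin_OV {a b c e : Ω} (ha : a ∈ S) (hb : b ∈ S) (hc : c ∈ S) (he : e ∈ S) {u : R2 Ω}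
    (h : u ∈ OV S) : lin a b c e u ∈ OV S := by
  obtain ⟨v, rfl⟩ := h
  exact ⟨_, map_lin (a := (⟨a, ha⟩ : S)) (b := ⟨b, hb⟩) (c := ⟨c, hc⟩) (e := ⟨e, he⟩)
    (S.val : S →+* Ω) v⟩
theorem rat_mem (q : ℚ) : (q : Ω) ∈ S := S.algebraMap_mem q
theorem Sr_OV (N : ℕ) {u v : R2 Ω} (hu : u ∈ OV S) (hv : v ∈ OV S) : Sr N u v ∈ OV S := by
  induction N with
  | zero => exact hu
  | succ N ih =>
    exact mul_mem (C_OV (by simpa using rat_mem (S := S) (2 * (N : ℚ) + 3)⁻¹)) (add_mem (mul_mem (mul_mem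
      (C_OV (by simpa using rat_mem (S := S) (2 * (N : ℚ) + 2))) (add_mem (pow_mem hu _) hv)) ih)
      (mul_mem hu (pow_mem hv _)))

theorem few {ι : Type} [Fintype ι] {a : ι → Ω} (ha : AlgebraicIndependent ℚ a) (T : Finset Ω)
    (h : T.card < Fintype.card ι) (hm : ∀ i, a i ∈ Algebra.adjoin ℚ (T : Set Ω)) : False :=
  no_fewer ha (fun t : T => (t : Ω)) (by simpa using h) fun i => by
    rw [← Algebra.adjoin_range_eq_range_aeval]
    simpa using hm i

theorem few5 {F : R2 Ω} (hF : IndF 5 F) (a b c e g : Ω) (hm : ∀ S : Subalgebra ℚ Ω,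
    a ∈ S → b ∈ S → c ∈ S → e ∈ S → g ∈ S → F ∈ OV S) : False := by
  classical
  refine few hF.2 {a, b, c, e, g} (Finset.card_le_five.trans_lt (by simp)) fun i =>
    mem_OV.1 (hm _ ?_ ?_ ?_ ?_ ?_) _ <;> exact Algebra.subset_adjoin (by simp)

theorem two_norm (a b : Ω) : ∃ s μ x y : Ω, a = s * x ∧ b = s * y ∧
    ∀ S : Subalgebra ℚ Ω, μ ∈ S → x ∈ S ∧ y ∈ S := by
  obtain ⟨s, μ, x, y, h1, h2, h3, h4⟩ := norm_pair a b
  refine ⟨s, μ, x, y, h1, h2, fun S h => ⟨?_, ?_⟩⟩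
  · rcases h3 with rfl | rfl
    exacts [zero_mem _, one_mem _]
  · rcases h4 with rfl | rfl
    exacts [h, one_mem _]

theorem ng1 {F a q : R2 Ω} (hF : IndF 5 F) (ha : a.IsHomogeneous 1) (hq : q.IsHomogeneous 2)
    {u1 u2 u3 : Ω} (e : F = C u1 * a ^ 5 + C u2 * (a ^ 3 * q) + C u3 * (a * q ^ 2)) : False := by
  obtain ⟨s, l, u, v, l1, n1, n2, ea, eq, hS⟩ : ∃ (s l : Ω) (u v : R2 Ω) (l1 n1 n2 : Ω), a = C s * u ∧
      q = C l1 * u ^ 2 + C n1 * (u * v) + C n2 * v ^ 2 ∧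
      ∀ S : Subalgebra ℚ Ω, l ∈ S → u ∈ OV S ∧ v ∈ OV S := by
    rw [hom1_eq ha, hom2_eq hq]
    generalize HC.co 1 0 a = a1, HC.co 0 1 a = a2, HC.co 2 0 q = q0, HC.co 1 1 q = q1,
      HC.co 0 2 q = q2
    by_cases h : a1 = 0
    · exact ⟨a2, 0, X 1, X 0, q2, q1, q0, by simp [h, HC.lf], by ring, fun S _ => ⟨X_OV 1, X_OV 0⟩⟩
    · obtain ⟨l, rfl⟩ : ∃ l, a2 = a1 * l := ⟨a2 / a1, by field_simp⟩
      exact ⟨a1, l, HC.lf 1 l, X 1, q0, q1 - 2 * l * q0, q2 - l * q1 + l ^ 2 * q0,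
        by simp only [HC.lf, map_mul, map_one]; ring,
        by simp only [HC.lf, map_mul, map_one, map_sub, map_add, map_pow, map_ofNat]; ring,
        fun S h => ⟨lf_OV (one_mem _) h, X_OV 1⟩⟩
  obtain ⟨r, μ, x, y, rfl, rfl, hμ⟩ := two_norm n1 n2
  refine few5 hF l μ (u1 * s ^ 5 + u2 * s ^ 3 * l1 + u3 * s * l1 ^ 2) ((u2 * s ^ 3 + 2 * u3 * s * l1) * r)
    (u3 * s * r ^ 2) fun S h1 h2 h3 h4 h5 => ?_
  obtain ⟨hu, hv⟩ := hS S h1
  have hn : C x * (u * v) + C y * v ^ 2 ∈ OV S :=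
    add_mem (mul_mem (C_OV (hμ S h2).1) (mul_mem hu hv)) (mul_mem (C_OV (hμ S h2).2) (pow_mem hv _))
  convert add_mem (add_mem (mul_mem (C_OV h3) (pow_mem hu 5)) (mul_mem (C_OV h4)
    (mul_mem (pow_mem hu 3) hn))) (mul_mem (C_OV h5) (mul_mem hu (pow_mem hn 2))) using 1
  rw [e, ea, eq]
  simp only [map_add, map_mul, map_pow, map_ofNat]; ring

omit [CharZero Ω] in
theorem lin_scale {n : ℕ} {p : R2 Ω} (hp : p.IsHomogeneous n) (s a b c e : Ω) :
    lin (s * a) (s * b) (s * c) (s * e) p = C (s ^ n) * lin a b c e p := by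
  have h : lin s 0 0 s p = C (s ^ n) * p := co_ext fun i j => by
    rw [co_scale, co_C_mul]
    by_cases h : i + j = n
    · rw [← h, pow_add]
    · rw [co_hom hp h, mul_zero, mul_zero]
  rw [← lin_C (a := a) (b := b) (c := c) (e := e), ← map_mul, ← h, lin_lin]
  simp

theorem five {F p1 p2 : R2 Ω} (hF : IndF 5 F) (h1 : p1.IsHomogeneous 5) (h2 : p2.IsHomogeneous 5)
    (m1 : ∀ S, p1 ∈ OV S) (m2 : ∀ S, p2 ∈ OV S) {A B a b c e : Ω}
    (h : F = C A * lin a b c e p1 + C B * lin a b c e p2) : False := by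
  obtain ⟨s, g1, g2, g3, a', b', c', e', rfl, rfl, rfl, rfl, hS⟩ : ∃ s g1 g2 g3 a' b' c' e' : Ω,
      a = s * a' ∧ b = s * b' ∧ c = s * c' ∧ e = s * e' ∧ ∀ S : Subalgebra ℚ Ω, g1 ∈ S → g2 ∈ S →
        g3 ∈ S → a' ∈ S ∧ b' ∈ S ∧ c' ∈ S ∧ e' ∈ S := by
    by_cases ha : a = 0
    · exact ⟨1, b, c, e, 0, b, c, e, by simp [ha], by simp, by simp, by simp,
        fun S x y z => ⟨zero_mem _, x, y, z⟩⟩
    · exact ⟨a, b / a, c / a, e / a, 1, _, _, _, by simp, by field_simp, by field_simp, by field_simp,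
        fun S x y z => ⟨one_mem _, x, y, z⟩⟩
  refine few5 hF g1 g2 g3 (A * s ^ 5) (B * s ^ 5) fun S x y z hA hB => ?_
  obtain ⟨k1, k2, k3, k4⟩ := hS S x y z
  rw [h, lin_scale h1, lin_scale h2, ← mul_assoc, ← mul_assoc, ← map_mul, ← map_mul]
  exact add_mem (mul_mem (C_OV hA) (lin_OV k1 k2 k3 k4 (m1 S)))
    (mul_mem (C_OV hB) (lin_OV k1 k2 k3 k4 (m2 S)))

/-- The two invariants of a generic quartic do not vanish. -/
theorem quart {F a u : R2 Ω} (hF : IndF 4 F) (ha : a.IsHomogeneous 1) (hu : u.IsHomogeneous 1)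
    {g0 g1 g2 g3 g4 : Ω} (e : F = C g0 * a ^ 4 + C g1 * (a ^ 3 * u) + C g2 * (a ^ 2 * u ^ 2) +
      C g3 * (a * u ^ 3) + C g4 * u ^ 4) : 12 * g0 * g4 - 3 * g1 * g3 + g2 ^ 2 ≠ 0 ∧
      72 * g0 * g2 * g4 + 9 * g1 * g2 * g3 - 27 * g0 * g3 ^ 2 - 27 * g1 ^ 2 * g4 - 2 * g2 ^ 3 ≠ 0 := by
  rw [hom1_eq ha, hom1_eq hu] at e
  generalize HC.co 1 0 a = a1, HC.co 0 1 a = a2, HC.co 1 0 u = y1, HC.co 0 1 u = y2 at e
  have e' : F = C (g0 * (a1 ^ 4) +
      g1 * (a1 ^ 3 * y1) +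
      g2 * (a1 ^ 2 * y1 ^ 2) +
      g3 * (a1 * y1 ^ 3) +
      g4 * (y1 ^ 4)) * (X 0 ^ 4 * X 1 ^ 0) +
    C (g0 * (4 * a1 ^ 3 * a2) +
      g1 * (a1 ^ 3 * y2 + 3 * a1 ^ 2 * a2 * y1) +
      g2 * (2 * a1 ^ 2 * y1 * y2 + 2 * a1 * a2 * y1 ^ 2) +
      g3 * (3 * a1 * y1 ^ 2 * y2 + a2 * y1 ^ 3) +
      g4 * (4 * y1 ^ 3 * y2)) * (X 0 ^ 3 * X 1 ^ 1) +
    C (g0 * (6 * a1 ^ 2 * a2 ^ 2) +
      g1 * (3 * a1 ^ 2 * a2 * y2 + 3 * a1 * a2 ^ 2 * y1) +
      g2 * (a1 ^ 2 * y2 ^ 2 + 4 * a1 * a2 * y1 * y2 + a2 ^ 2 * y1 ^ 2) +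
      g3 * (3 * a1 * y1 * y2 ^ 2 + 3 * a2 * y1 ^ 2 * y2) +
      g4 * (6 * y1 ^ 2 * y2 ^ 2)) * (X 0 ^ 2 * X 1 ^ 2) +
    C (g0 * (4 * a1 * a2 ^ 3) +
      g1 * (3 * a1 * a2 ^ 2 * y2 + a2 ^ 3 * y1) +
      g2 * (2 * a1 * a2 * y2 ^ 2 + 2 * a2 ^ 2 * y1 * y2) +
      g3 * (a1 * y2 ^ 3 + 3 * a2 * y1 * y2 ^ 2) +
      g4 * (4 * y1 * y2 ^ 3)) * (X 0 ^ 1 * X 1 ^ 3) +
    C (g0 * (a2 ^ 4) +
      g1 * (a2 ^ 3 * y2) +
      g2 * (a2 ^ 2 * y2 ^ 2) +
      g3 * (a2 * y2 ^ 3) +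
      g4 * (y2 ^ 4)) * (X 0 ^ 0 * X 1 ^ 4) := by
    rw [e]; simp only [HC.lf, map_add, map_mul, map_pow, map_ofNat]; ring
  have k := fun i j => congrArg (HC.co i j) e'
  simp only [co_add, co_C_mul, co_mon] at k
  have e0 : HC.co 4 0 F = g0 * (a1 ^ 4) +
      g1 * (a1 ^ 3 * y1) +
      g2 * (a1 ^ 2 * y1 ^ 2) +
      g3 * (a1 * y1 ^ 3) +
      g4 * (y1 ^ 4) := by
    simpa using k 4 0
  have e1 : HC.co 3 1 F = g0 * (4 * a1 ^ 3 * a2) +
      g1 * (a1 ^ 3 * y2 + 3 * a1 ^ 2 * a2 * y1) +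
      g2 * (2 * a1 ^ 2 * y1 * y2 + 2 * a1 * a2 * y1 ^ 2) +
      g3 * (3 * a1 * y1 ^ 2 * y2 + a2 * y1 ^ 3) +
      g4 * (4 * y1 ^ 3 * y2) := by
    simpa using k 3 1
  have e2 : HC.co 2 2 F = g0 * (6 * a1 ^ 2 * a2 ^ 2) +
      g1 * (3 * a1 ^ 2 * a2 * y2 + 3 * a1 * a2 ^ 2 * y1) +
      g2 * (a1 ^ 2 * y2 ^ 2 + 4 * a1 * a2 * y1 * y2 + a2 ^ 2 * y1 ^ 2) +
      g3 * (3 * a1 * y1 * y2 ^ 2 + 3 * a2 * y1 ^ 2 * y2) +
      g4 * (6 * y1 ^ 2 * y2 ^ 2) := by
    simpa using k 2 2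
  have e3 : HC.co 1 3 F = g0 * (4 * a1 * a2 ^ 3) +
      g1 * (3 * a1 * a2 ^ 2 * y2 + a2 ^ 3 * y1) +
      g2 * (2 * a1 * a2 * y2 ^ 2 + 2 * a2 ^ 2 * y1 * y2) +
      g3 * (a1 * y2 ^ 3 + 3 * a2 * y1 * y2 ^ 2) +
      g4 * (4 * y1 * y2 ^ 3) := by
    simpa using k 1 3
  have e4 : HC.co 0 4 F = g0 * (a2 ^ 4) +
      g1 * (a2 ^ 3 * y2) +
      g2 * (a2 ^ 2 * y2 ^ 2) +
      g3 * (a2 * y2 ^ 3) +
      g4 * (y2 ^ 4) := by
    simpa using k 0 4
  have key : ∀ p : MvPolynomial (Fin 5) ℚ, aeval ![HC.co 4 0 F, HC.co 3 1 F, HC.co 2 2 F,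
      HC.co 1 3 F, HC.co 0 4 F] p = 0 → eval ![0, 0, 1, 0, 0] p = 0 := fun p hp => by
    rw [hF.2.eq_zero_of_aeval_eq_zero p (by
      rw [← hp]; congr 2; funext i; fin_cases i <;> rfl), map_zero]
  constructor
  · intro h
    have := key (12 * X 0 * X 4 - 3 * X 1 * X 3 + X 2 ^ 2) (by
      simp only [map_add, map_sub, map_mul, map_pow, map_ofNat, aeval_X, Matrix.cons_val]
      rw [e0, e1, e2, e3, e4]
      linear_combination (a1 * y2 - a2 * y1) ^ 4 * h)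
    simp at this
  · intro h
    have := key (72 * X 0 * X 2 * X 4 + 9 * X 1 * X 2 * X 3 - 27 * X 0 * X 3 ^ 2 -
        27 * X 1 ^ 2 * X 4 - 2 * X 2 ^ 3) (by
      simp only [map_add, map_sub, map_mul, map_pow, map_ofNat, aeval_X, Matrix.cons_val]
      rw [e0, e1, e2, e3, e4]
      linear_combination (a1 * y2 - a2 * y1) ^ 6 * h)
    simp at this

end Few

end Pool.Agent.MP_05b4bd_ag.PC3.EX

end MrgPart1

-- ======== part 2: formerly Pool.Agent.MP_05b4bd_ag.pc3.ExL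
section MrgPart2

/-! Integral lifts of the leading form. -/

namespace Pool.Agent.MP_05b4bd_ag.PC3.EX

open MvPolynomial HC ES PB

section Lift
variable {O : Type} [CommRing O] [Algebra ℚ O]

/-- Integration of the homogeneous parts of degree `r` by the Euler field. -/
noncomputable def eu (r : ℕ) (z : Fin 2 → R2 O) : R2 O :=
  C (algebraMap ℚ O (1 / (r + 1))) * (X 0 * hc r (z 0) + X 1 * hc r (z 1))

theorem map_eu {L : Type} [Field L] [CharZero L] (φ : O →+* L) {r : ℕ} {z : Fin 2 → R2 O} {u : R2 L}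
    (h : ∀ i, map φ (hc r (z i)) = hc r (pderiv i u)) : map φ (eu r z) = hc (r + 1) u := by
  have e := euler (hc_hom (r + 1) u)
  have q : φ (algebraMap ℚ O (1 / (r + 1))) * ((r + 1 : ℕ) : L) = 1 := by
    rw [show φ (algebraMap ℚ O (1 / (r + 1))) = ((1 / (r + 1) : ℚ) : L) from
      eq_ratCast (φ.comp (algebraMap ℚ O)) _]
    push_cast
    exact one_div_mul_cancel (Nat.cast_add_one_ne_zero r)
  have q' := congrArg (C : L → R2 L) q
  rw [map_mul, map_natCast, map_one] at q'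
  rw [eu, map_mul, map_C, map_add, map_mul, map_mul, map_X, map_X, h, h, hc_pderiv, hc_pderiv, e,
    ← mul_assoc, q', one_mul]

theorem lift {Ω k : Type} [Field Ω] [CharZero Ω] [Field k] [CharZero k] (j : O →+* Ω) (ρ : O →+* k)
    {d : ℕ} {W : Fin 2 → R2 O} {f : R2 k} (red : ∀ i, map ρ (W i) = pderiv i f) (f0 : f ∈ mm k ^ 1)
    {n θ : R2 O} (n0 : n ∈ mm O ^ 1) (rn : map ρ n = 0) (rθ : map ρ θ = 0) {G : R2 Ω}
    (G0 : G ∈ mm Ω ^ 1) (h : ∀ i, (1 + map j n) * pderiv i G + G * pderiv i (map j θ) - map j (W i) ∈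
      mm Ω ^ d) : ∃ g : R2 O, map j g = hc d G ∧ map ρ g = hc d f := by
  have key : ∀ r, r ≤ d → ∃ g : R2 O, G - map j g ∈ mm Ω ^ (r + 1) ∧ f - map ρ g ∈ mm k ^ (r + 1) := by
    intro r
    induction r with
    | zero => exact fun _ => ⟨0, by simpa using G0, by simpa using f0⟩
    | succ r ih =>
      intro hr
      obtain ⟨g, h1, h2⟩ := ih (by omega)
      obtain ⟨z, hz⟩ : ∃ z : Fin 2 → R2 O, ∀ i, z i = W i - (1 + n) * pderiv i g - g * pderiv i θ :=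
        ⟨_, fun _ => rfl⟩
      have a : map j (eu r z) = hc (r + 1) (G - map j g) := by
        refine map_eu j fun i => ?_
        rw [← hc_map j r (z i), ← sub_eq_zero, ← hc_sub]
        refine hc_of_mm (k := r + 1) ?_ (by omega)
        have t1 : map j n * pderiv i (G - map j g) ∈ mm Ω ^ (r + 1) :=
          mm_mono (by omega) (mm_mul (mm_map j n0) (mm_pderiv i h1))
        have t2 : (G - map j g) * pderiv i (map j θ) ∈ mm Ω ^ (r + 1) := Ideal.mul_mem_right _ _ h1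
        have t3 : map j (z i) - pderiv i (G - map j g) = map j n * pderiv i (G - map j g) +
            (G - map j g) * pderiv i (map j θ) -
            ((1 + map j n) * pderiv i G + G * pderiv i (map j θ) - map j (W i)) := by
          simp only [hz, map_sub, map_mul, map_add, map_one, ← pderiv_map]; ring
        rw [t3]
        exact sub_mem (add_mem t1 t2) (mm_mono hr (h i))
      have b : map ρ (eu r z) = hc (r + 1) (f - map ρ g) := by
        refine map_eu ρ fun i => ?_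
        rw [← hc_map ρ r (z i)]
        simp only [hz, map_sub, map_mul, map_add, map_one, ← pderiv_map, red, rn, rθ, map_zero,
          add_zero, one_mul, mul_zero, sub_zero]
      exact ⟨g + eu r z, by rw [map_add, a, ← sub_sub]; exact sub_hc_mm h1,
        by rw [map_add, b, ← sub_sub]; exact sub_hc_mm h2⟩
  obtain ⟨g, h1, h2⟩ := key d le_rfl
  have a := hc_of_mm h1 (Nat.lt_succ_self d)
  have b := hc_of_mm h2 (Nat.lt_succ_self d)
  rw [hc_sub, sub_eq_zero, hc_map] at a b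
  exact ⟨hc d g, a.symm, b.symm⟩

theorem indF_lift {Ω k : Type} [Field Ω] [CharZero Ω] [Field k] [CharZero k] {j : O →+* Ω}
    (hj : Function.Injective j) (ρ : O →+* k) {d : ℕ} {g : R2 O} (hg : (map j g).IsHomogeneous d)
    (h : IndF d (map ρ g)) : IndF d (map j g) := by
  refine ⟨hg, ?_⟩
  have h2 := h.2
  simp only [co_map] at h2 ⊢
  exact (AlgebraicIndependent.of_comp ρ.toRatAlgHom h2).map' (f := j.toRatAlgHom) hj

end Lift

section Core
variable {Ω : Type} [Field Ω] [CharZero Ω]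

/-- The coefficients of the solution of `(1 + c s) p' + (c - 1) p = h`. -/
noncomputable def ps (c p0 : Ω) (h : ℕ → Ω) : ℕ → Ω
  | 0 => p0
  | i + 1 => (h i - (c * (i + 1) - 1) * ps c p0 h i) / (i + 1)

theorem ps_rec (c p0 : Ω) (h : ℕ → Ω) (i : ℕ) :
    (i + 1) * ps c p0 h (i + 1) + (c * (i + 1) - 1) * ps c p0 h i = h i := by
  rw [ps, mul_div_cancel₀ _ (Nat.cast_add_one_ne_zero i)]; ring

omit [CharZero Ω] in
theorem tele {c : Ω} {p h : ℕ → Ω} (hp : ∀ i, (i + 1) * p (i + 1) + (c * (i + 1) - 1) * p i = h i)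
    (m : R2 Ω) (l : Fin 2) (r : ℕ) :
    (1 + C c * m) * pderiv l (∑ i ∈ Finset.range (r + 1), C (p i) * m ^ i) +
      (C (c - 1) * (∑ i ∈ Finset.range (r + 1), C (p i) * m ^ i) -
        ∑ i ∈ Finset.range r, C (h i) * m ^ i) * pderiv l m =
      C ((c * (r + 1) - 1) * p r) * pderiv l m * m ^ r := by
  induction r with
  | zero => simp
  | succ r ih =>
    have e := congrArg (C : Ω → R2 Ω) (hp r)
    rw [Finset.sum_range_succ _ (r + 1), Finset.sum_range_succ (fun i => C (h i) * m ^ i),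
      map_add (pderiv l), pderiv_C_mul, pderiv_pow]
    simp only [map_add, map_mul, map_sub, map_natCast, map_one, Nat.add_sub_cancel] at e ih ⊢
    push_cast
    linear_combination ih + m ^ r * pderiv l m * e

open scoped PowerSeries in
theorem core (hG : GenTopStmt) {k : Type} [Field k] [CharZero k] {d : ℕ} (hd : 2 ≤ d) {f : R2 k}
    {w : Fm k⟦X⟧} (A : Arc d f w) {m' b : R2 k⟦X⟧} {ε c : k⟦X⟧} (N : Nm f w m' b ε c)
    {j : k⟦X⟧ →+* Ω} (hj : Function.Injective j) {c1 : Ω} (hc1 : j c = c1 * j ε) {m G : R2 Ω}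
    (hm : m = C (j ε) * map j m') {h : Polynomial Ω} (hh : h.natDegree < d)
    (e : mapF j w = PB.TT m 1 c1 G h) : ∃ p : ℕ → Ω,
      (∀ i, (i + 1) * p (i + 1) + (c1 * (i + 1) - 1) * p i = h.coeff i) ∧
      IndF d (hc d (G + ∑ i ∈ Finset.range (d + 1), C (p i) * m ^ i)) := by
  have hp := ps_rec c1 (-coeff 0 G) h.coeff
  refine ⟨_, hp, ?_⟩
  have m1 : m' ∈ mm k⟦X⟧ ^ 1 := mem_mm_one.2 N.m0
  have mm1 : m ∈ mm Ω ^ 1 := hm ▸ Ideal.mul_mem_left _ _ (mm_map j m1)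
  have e1 := congrArg Prod.fst e
  have e2 := congrArg Prod.snd e
  have r1 := congrArg Prod.fst A.red
  have r2 := congrArg Prod.snd A.red
  simp only [PB.TT, fm, mapF, d1, Prod.fst_add, Prod.snd_add, map_one,
    Polynomial.aeval_eq_sum_range' hh, smul_eq_C_mul] at e1 e2 r1 r2
  have en : map j (C c * m') = C c1 * m := by rw [map_mul, map_C, hc1, hm, map_mul, mul_assoc]
  have eθ : map j (C (c - ε) * m') = C (c1 - 1) * m := by
    rw [map_mul, map_C, map_sub j, hc1, hm, ← mul_assoc, ← map_mul]; congr 2; ring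
  obtain ⟨g, g1, g2⟩ := lift j cc (d := d) (W := ![-w.2, w.1]) (f := f)
    (fun i => by fin_cases i <;> simp [r1, r2]) (mem_mm_one.2 A.gen.1) (n := C c * m')
    (θ := C (c - ε) * m') (Ideal.mul_mem_left _ _ m1) (by simp [N.rc]) (by simp [N.rc, N.re])
    (G := G + ∑ i ∈ Finset.range (d + 1), C (ps c1 (-coeff 0 G) h.coeff i) * m ^ i) (by
      rw [Finset.sum_range_succ', add_comm (Finset.sum _ _), ← add_assoc]
      exact add_mem (mem_mm_one.2 (by simp [ps])) (Ideal.sum_mem _ fun i _ =>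
        Ideal.mul_mem_left _ _ (by rw [pow_succ]; exact Ideal.mul_mem_left _ _ mm1))) (fun i => by
      have := Ideal.mul_mem_left _ (C ((c1 * (d + 1) - 1) * ps c1 (-coeff 0 G) h.coeff d) * pderiv i m)
        (mm_mono (show d ≤ 1 * d by omega) (mm_pow mm1 d))
      rw [← tele hp m i d] at this
      convert this using 1
      rw [en, eθ, map_add (pderiv i), pderiv_C_mul]
      fin_cases i
      · simp only [Fin.zero_eta, Matrix.cons_val_zero, map_neg, e2]; ring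
      · simp only [Fin.mk_one, Matrix.cons_val_one, Matrix.cons_val_zero, e1]; ring)
  rw [← g1]
  exact indF_lift hj cc (g1 ▸ hc_hom _ _) (g2 ▸ (hG k d f hd A.gen).1)

omit [CharZero Ω] in
theorem hc_ab {a b : R2 Ω} {s t : ℕ} (ha : a.IsHomogeneous s) (hb : b.IsHomogeneous t) (n i l : ℕ) :
    hc n (a ^ i * b ^ l) = if n = s * i + t * l then a ^ i * b ^ l else 0 := by
  have := (ha.pow i).mul (hb.pow l)
  split_ifs with h
  · rw [h, hc_self this]
  · exact hc_ne this h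

omit [CharZero Ω] in
theorem hc_nat (n l : ℕ) (u : R2 Ω) : hc n (u * (l : R2 Ω)) = hc n u * (l : R2 Ω) := by
  rw [mul_comm, ← map_natCast (C : Ω →+* R2 Ω), hc_C_mul, mul_comm]

omit [CharZero Ω] in
theorem hc5 {a q : R2 Ω} (ha : a.IsHomogeneous 1) (hq : q.IsHomogeneous 2) (p : ℕ → Ω) :
    hc 5 (∑ i ∈ Finset.range (5 + 1), C (p i) * (a + q) ^ i) =
      C (p 5) * a ^ 5 + C (4 * p 4) * (a ^ 3 * q) + C (3 * p 3) * (a * q ^ 2) := by
  simp only [add_pow, Finset.sum_range_succ, Finset.sum_range_zero, hc_add, hc_C_mul, hc_nat,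
    hc_ab ha hq, map_zero, map_mul, map_ofNat]
  norm_num [Nat.choose]
  ring

omit [CharZero Ω] in
theorem hc4 {a q : R2 Ω} (ha : a.IsHomogeneous 1) (hq : q.IsHomogeneous 2) (p : ℕ → Ω) :
    hc 4 (∑ i ∈ Finset.range (4 + 1), C (p i) * (a + q) ^ i) =
      C (p 4) * a ^ 4 + C (3 * p 3) * (a ^ 2 * q) + C (p 2) * q ^ 2 := by
  simp only [add_pow, Finset.sum_range_succ, Finset.sum_range_zero, hc_add, hc_C_mul, hc_nat,
    hc_ab ha hq, map_zero, map_mul, map_ofNat]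
  norm_num [Nat.choose]
  ring

end Core

end Pool.Agent.MP_05b4bd_ag.PC3.EX

end MrgPart2

-- ======== part 3: formerly Pool.Agent.MP_05b4bd_ag.pc3.ExcP
section MrgPart3

/-! Conic families that miss the generic exact form in degrees four and five. -/

namespace Pool.Agent.MP_05b4bd_ag.PC3

open MvPolynomial HC ES PB EX
open scoped PowerSeries LaurentSeries

namespace EX

theorem split2 {A : Type} [CommRing A] {m : R2 A} (dm : DL 3 m) (m0 : coeff 0 m = 0) :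
    m = hc 1 m + hc 2 m := by
  have h := DL1_eq dm.sub_hc.sub_hc
  rw [hc_sub, hc_ne (hc_hom 2 m) (by omega), sub_zero, coeff_sub, coeff_sub, coeff_hc, coeff_hc,
    if_neg (by simp), if_neg (by simp), m0, sub_zero, sub_zero, map_zero] at h
  linear_combination h

variable {Ω : Type} [Field Ω] [CharZero Ω] {a u : R2 Ω}

theorem hc_Sr2 (ha : a.IsHomogeneous 1) (hu : u.IsHomogeneous 1) :
    hc 4 (Sr 2 u (1 + a)) = C (4 / 3) * (a * u ^ 3) := by
  have e : C 15 * Sr 2 u (1 + a) = C 8 * (a ^ 0 * u ^ 5) + C 20 * (a ^ 0 * u ^ 3) +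
      C 20 * (a ^ 1 * u ^ 3) + C 15 * (a ^ 0 * u ^ 1) + C 30 * (a ^ 1 * u ^ 1) +
      C 15 * (a ^ 2 * u ^ 1) := by
    simp only [map_ofNat]; linear_combination Sr_two u (1 + a)
  have := congrArg (hc 4) e
  simp only [hc_add, hc_C_mul, hc_ab ha hu] at this
  norm_num at this
  refine mul_left_cancel₀ (C_ne_zero.2 (show (15 : Ω) ≠ 0 by norm_num)) ?_
  rw [this, ← mul_assoc (C 15), ← map_mul]
  norm_num

theorem hc_Sr3 (ha : a.IsHomogeneous 1) (hu : u.IsHomogeneous 1) :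
    hc 4 (Sr 3 u (1 + a)) = a ^ 3 * u + 4 * (a * u ^ 3) := by
  have e : C 35 * Sr 3 u (1 + a) = C 16 * (a ^ 0 * u ^ 7) + C 56 * (a ^ 0 * u ^ 5) +
      C 56 * (a ^ 1 * u ^ 5) + C 70 * (a ^ 0 * u ^ 3) + C 140 * (a ^ 1 * u ^ 3) +
      C 70 * (a ^ 2 * u ^ 3) + C 35 * (a ^ 0 * u ^ 1) + C 105 * (a ^ 1 * u ^ 1) +
      C 105 * (a ^ 2 * u ^ 1) + C 35 * (a ^ 3 * u ^ 1) := by
    simp only [map_ofNat]; linear_combination Sr_three u (1 + a)
  have := congrArg (hc 4) e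
  simp only [hc_add, hc_C_mul, hc_ab ha hu] at this
  norm_num at this
  refine mul_left_cancel₀ (C_ne_zero.2 (show (35 : Ω) ≠ 0 by norm_num)) ?_
  rw [this]
  simp only [map_ofNat]; ring

end EX

theorem exc24S (hN : NrmStmt) (hG : GenTopStmt) : Exc24Stmt := by
  intro k _ _ _ f w m c0 c1 A hB hC hm ⟨G, h0, h1, h2, dG, _, e⟩
  obtain ⟨m', b, ε, c, m0, e0, N, -, ee, hc1, em⟩ := hN k 5 f w m c0 c1 (by omega) A hB hC hm
  have : CharZero k⸨X⸩ := charZero_of_injective_ringHom (cL_inj (R := k))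
  obtain ⟨M, hM⟩ : ∃ M, M = C (coeL k ε) * map (coeL k) m' := ⟨_, rfl⟩
  rw [map_mul, mul_comm (C _) (C e0), mul_assoc, ← hM] at em
  obtain ⟨p, -, hp⟩ := core hG (by omega) A N coeL_inj hc1 hM (G := C e0 * G)
    (h := Polynomial.C (e0 * (h0 + h1 * m0 + h2 * m0 ^ 2)) +
      Polynomial.C (e0 ^ 2 * (h1 + 2 * h2 * m0)) * Polynomial.X +
      Polynomial.C (e0 ^ 3 * h2) * Polynomial.X ^ 2)
    (lt_of_le_of_lt (b := 2) (by compute_degree) (by omega)) (by
      rw [e, em, ee]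
      refine Prod.ext ?_ ?_ <;>
      simp only [PB.TT, fm, Prod.fst_add, Prod.snd_add, map_add, map_mul, map_pow, map_sub, map_one,
        map_ofNat, Polynomial.aeval_C, Polynomial.aeval_X, algebraMap_eq, pderiv_mul, pderiv_C] <;>
      ring)
  have s := split2 (m := M) (hM ▸ (N.dm.map _).C_mul _)
    (by rw [hM, coeff_C_mul, coeff_map, N.m0, map_zero, mul_zero])
  rw [hc_add, (dG.C_mul _).hc_eq le_rfl, zero_add, s, hc5 (hc_hom 1 M) (hc_hom 2 M)] at hp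
  exact ng1 hp (hc_hom 1 M) (hc_hom 2 M) rfl

theorem excPS (hN : NrmStmt) (hG : GenTopStmt) : ExcPStmt := by
  intro k _ _ _ d f w m c0 c1 A hB hC ⟨n0, α, β, σ, a, b', hσ, hΔ, en⟩ hd
  obtain ⟨m', b, ε, c, m0, e0, N, he, -, hc1, em⟩ := hN k d f w m c0 c1 (by omega) A hB hC (fun h => by
    have h1 := congrArg (fun t : Fm k⸨X⸩ => constantCoeff t.1) h
    have h2 := congrArg (fun t : Fm k⸨X⸩ => constantCoeff t.2) h
    simp [en, d1, HC.lf] at h1 h2
    exact hΔ (by rw [h1, h2]; ring))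
  have : CharZero k⸨X⸩ := charZero_of_injective_ringHom (cL_inj (R := k))
  obtain ⟨Ω, _, _, _, ⟨ψ⟩⟩ : ∃ (Ω : Type) (_ : Field Ω) (_ : CharZero Ω) (_ : IsAlgClosed Ω),
      Nonempty (k⸨X⸩ →+* Ω) := ⟨AlgebraicClosure k⸨X⸩, _, inferInstance, inferInstance, ⟨algebraMap _ _⟩⟩
  obtain ⟨j, hj⟩ : ∃ j : k⟦X⟧ →+* Ω, j = ψ.comp (coeL k) := ⟨_, rfl⟩
  have ji : Function.Injective j := hj ▸ ψ.injective.comp coeL_inj
  have jc : j c = ψ c1 * j ε := by rw [hj, RingHom.comp_apply, hc1, map_mul]; rfl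
  obtain ⟨M, hM⟩ : ∃ M, M = C (j ε) * map j m' := ⟨_, rfl⟩
  have hP : Pr (mapF j w) (C 1 + C (ψ c1) * M) (d1 M) := by
    rw [Pr, hM, d1_C_mul, wg_smul, ← mapF_d1, ← map_wg, ← map_dv, N.eq, N.eB]
    simp only [map_mul, map_add, map_C, map_one, jc]; ring
  have hM2 : Pab M := by
    obtain ⟨i, hi⟩ : ∃ i, e0 * i = 1 := ⟨_, mul_inv_cancel₀ he⟩
    have i0 : i ≠ 0 := right_ne_zero_of_mul_eq_one hi
    have hi' := congrArg (C : k⸨X⸩ → R2 k⸨X⸩) hi
    have e1 : C (coeL k ε) * map (coeL k) m' =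
        C ((n0 - m0) * i) + HC.lf (α * i) (β * i) + C (σ * i) * HC.lf a b' ^ 2 := by
      rw [en] at em
      simp only [HC.lf, map_mul, map_sub, map_one] at em hi' ⊢
      linear_combination (-C i) * em - (C (coeL k ε) * map (coeL k) m') * hi'
    have e2 := congrArg (map ψ) e1
    rw [map_mul, map_C, map_map, ← hj, ← RingHom.comp_apply ψ, ← hj, ← hM, map_add, map_add, map_C,
      map_lf, map_mul (map ψ), map_C, map_pow, map_lf] at e2
    refine ⟨_, _, _, _, _, _, (map_ne_zero ψ).2 (mul_ne_zero hσ i0), ?_, e2⟩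
    rw [← map_mul, ← map_mul, ← map_sub, map_ne_zero]
    exact fun h => mul_ne_zero hΔ i0 (by linear_combination h)
  obtain ⟨n, e, u, v, g, h, hu, hv, ec, dg, dh, alt, eW⟩ :=
    pf (d := d) (by omega) (A.deg.map j) hP hM2
  obtain ⟨p, rc, hp⟩ := core hG (by omega) A N ji jc hM (by omega) eW
  have s := split2 (m := M) (hM ▸ (N.dm.map _).C_mul _)
    (by rw [hM, coeff_C_mul, coeff_map, N.m0, map_zero, mul_zero])
  have ha := hc_hom 1 M
  have hq := hc_hom 2 M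
  generalize hc 1 M = a, hc 2 M = q at s ha hq
  replace hd : d = 5 ∨ d = 4 ∧ (9 * ψ c1 = 2 ∨ 7 * ψ c1 = 2) := hd.imp_right fun h => ⟨h.1,
    h.2.imp (fun h => by simpa [map_ofNat] using congrArg ψ h)
      fun h => by simpa [map_ofNat] using congrArg ψ h⟩
  generalize ψ c1 = c at ec alt rc hd
  subst s
  have eq : C c * q = u ^ 2 := by
    have := congrArg (hc 2) ec
    rwa [hc_add, hc_add, (DL_C _).hc_eq (by omega), hc_C_mul, hc_add, hc_ne ha (by omega),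
      hc_self hq, hv.hc_eq le_rfl, hc_self (hu.pow 2), zero_add, zero_add, add_zero] at this
  obtain rfl : v = 1 + C c * a := by rw [map_one] at ec; linear_combination eq - ec
  rw [hc_add, hc_add, dg.hc_eq le_rfl, zero_add, hc_C_mul] at hp
  have z : ∀ i, d ≤ 2 * i → h.coeff i = 0 := fun i hi =>
    Polynomial.coeff_eq_zero_of_natDegree_lt (by omega)
  have r3 := rc 3
  rw [z 3 (by omega)] at r3
  push_cast at r3
  rcases hd with rfl | ⟨rfl, hd⟩
  · rw [hc5 ha hq] at hp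
    rcases alt with rfl | ⟨-, -, hn⟩
    · rw [map_zero, zero_mul, zero_add] at hp
      exact ng1 hp ha hq rfl
    have r4 := rc 4
    rw [z 4 (by omega)] at r4
    push_cast at r4
    have c0 : c ≠ 0 := fun h0 => by
      rw [h0, mul_zero] at hn
      exact two_ne_zero hn.symm
    have cS : ∀ S : Subalgebra ℚ Ω, c ∈ S := fun S => by
      have n0 : (2 * n + 3 : Ω) ≠ 0 := by exact_mod_cast (by omega : 2 * n + 3 ≠ 0)
      convert rat_mem (S := S) (2 / (2 * n + 3)) using 1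
      push_cast
      rw [eq_div_iff n0]; linear_combination hn
    obtain ⟨B, hB⟩ : ∃ B, p 3 = B * c ^ 2 := ⟨p 3 / c ^ 2, by field_simp⟩
    have e4 : 4 * p 4 = B * ((1 - 4 * c) * c) * c := by rw [hB] at r3; linear_combination r3
    have e5 : p 5 = B * ((1 - 5 * c) * (1 - 4 * c) * c ^ 2 * (20⁻¹ : ℚ)) := by
      push_cast; linear_combination (1 / 5) * r4 + (1 / 20) * (1 - 5 * c) * e4
    have x := isHomogeneous_X Ω (0 : Fin 2)
    have y := isHomogeneous_X Ω (1 : Fin 2)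
    refine five (p1 := hc 5 (Sr n (X 1) (1 + C c * X 0))) (p2 := C 3 * (X 0 * X 1 ^ 4) +
      C ((1 - 4 * c) * c) * (X 0 ^ 3 * X 1 ^ 2) +
      C ((1 - 5 * c) * (1 - 4 * c) * c ^ 2 * (20⁻¹ : ℚ)) * X 0 ^ 5) hp (hc_hom _ _)
      ((((x.mul (y.pow 4)).C_mul _).add (((x.pow 3).mul (y.pow 2)).C_mul _)).add ((x.pow 5).C_mul _))
      (fun S => hc_OV _ (Sr_OV _ (X_OV 1) (add_mem (one_mem _) (mul_mem (C_OV (cS S)) (X_OV 0)))))
      (fun S => ?_) (A := e) (B := B) (a := HC.co 1 0 a) (b := HC.co 0 1 a) (c := HC.co 1 0 u)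
      (e := HC.co 0 1 u) ?_
    · have k : ∀ i : ℕ, 1 - (i : Ω) * c ∈ S := fun i =>
        sub_mem (one_mem _) (mul_mem (natCast_mem _ _) (cS S))
      exact add_mem (add_mem (mul_mem (C_OV (natCast_mem S 3)) (mul_mem (X_OV 0) (pow_mem (X_OV 1) _)))
        (mul_mem (C_OV (mul_mem (k 4) (cS S))) (mul_mem (pow_mem (X_OV 0) _) (pow_mem (X_OV 1) _))))
        (mul_mem (C_OV (mul_mem (mul_mem (mul_mem (k 5) (k 4)) (pow_mem (cS S) _)) (rat_mem _)))
          (pow_mem (X_OV 0) _))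
    · rw [← hc_lin, hom_Sr, e4, e5, hB]
      generalize (1 - 5 * c) * (1 - 4 * c) * c ^ 2 * (20⁻¹ : ℚ) = r5, (1 - 4 * c) * c = r4
      simp only [map_add, map_mul, map_pow, map_one, lin_C, lin_X0, lin_X1, ← hom1_eq ha,
        ← hom1_eq hu, map_ofNat]
      linear_combination (3 * C B * a * (C c * q + u ^ 2) + C B * C r4 * a ^ 3) * eq
  · rw [hc4 ha hq] at hp
    have r2 := rc 2
    rw [z 2 (by omega)] at r2
    push_cast at r2
    have c0 : c ≠ 0 := fun h0 => by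
      rw [h0, mul_zero, mul_zero, or_self] at hd
      exact two_ne_zero hd.symm
    obtain ⟨B, hB⟩ : ∃ B, p 2 = B * c ^ 2 := ⟨p 2 / c ^ 2, by field_simp⟩
    have e3 : 3 * p 3 = B * ((1 - 3 * c) * c) * c := by rw [hB] at r2; linear_combination r2
    have ha' := ha.C_mul c
    have hn : ∀ l : ℕ, (2 * l + 3) * c = 2 → e = 0 ∨ n = l := fun l hl => alt.imp_right fun h =>
      Nat.cast_injective (R := Ω) (mul_right_cancel₀ (mul_ne_zero two_ne_zero c0)
        (by linear_combination h.2.2 - hl))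
    rcases hd with hd | hd
    · have e1 : C e * hc 4 (Sr n u (1 + C c * a)) = C e * hc 4 (Sr 3 u (1 + C c * a)) := by
        rcases hn 3 (by push_cast; linear_combination hd) with rfl | rfl <;> simp
      rw [e1, hc_Sr3 ha' hu, e3, hB] at hp
      refine (quart hp ha hu (g0 := p 4) (g1 := e * c ^ 3) (g2 := B * ((1 - 3 * c) * c))
        (g3 := 4 * e * c) (g4 := B) ?_).2 ?_
      · generalize (1 - 3 * c) * c = r
        simp only [map_mul, map_pow, map_ofNat]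
        linear_combination (C B * (C c * q + u ^ 2) + C B * C r * a ^ 2) * eq
      · obtain rfl : c = 2 / 9 := by linear_combination (1 / 9) * hd
        obtain e4 : p 4 = B * (2 / 9) ^ 4 / 16 := by linear_combination (1 / 4) * r3 + (1 / 108) * e3
        rw [e4]; ring
    · have e1 : C e * hc 4 (Sr n u (1 + C c * a)) = C e * hc 4 (Sr 2 u (1 + C c * a)) := by
        rcases hn 2 (by push_cast; linear_combination hd) with rfl | rfl <;> simp
      rw [e1, hc_Sr2 ha' hu, e3, hB] at hp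
      refine (quart hp ha hu (g0 := p 4) (g1 := 0) (g2 := B * ((1 - 3 * c) * c))
        (g3 := e * (4 / 3) * c) (g4 := B) ?_).1 ?_
      · generalize (1 - 3 * c) * c = r, (4 / 3 : Ω) = s
        simp only [map_mul, map_pow, map_zero]
        linear_combination (C B * (C c * q + u ^ 2) + C B * C r * a ^ 2) * eq
      · obtain rfl : c = 2 / 7 := by linear_combination (1 / 7) * hd
        obtain e4 : p 4 = -(B * (2 / 7) ^ 4 / 48) := by linear_combination (1 / 4) * r3 - (1 / 84) * e3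
        rw [e4]; ring

end Pool.Agent.MP_05b4bd_ag.PC3

end MrgPart3

-- ======== part 4: formerly Pool.Agent.MP_05b4bd_ag.pc3.Exc33
section MrgPart4

/-! Pull-backs of affine forms by two cubics miss the generic exact form of degree four. -/

namespace Pool.Agent.MP_05b4bd_ag.PC3

open MvPolynomial HC ES PB EX
open scoped PowerSeries LaurentSeries

namespace EX

/-- Exponents of degree between `1` and `n`. -/
def TE (n : ℕ) : Finset (ℕ × ℕ) :=
  (Finset.range (n + 1) ×ˢ Finset.range (n + 1)).filter fun p => 1 ≤ p.1 + p.2 ∧ p.1 + p.2 ≤ n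

theorem mem_TE {n : ℕ} {p : ℕ × ℕ} : p ∈ TE n ↔ 1 ≤ p.1 + p.2 ∧ p.1 + p.2 ≤ n := by
  simp only [TE, Finset.mem_filter, Finset.mem_product, Finset.mem_range]; omega

variable {Ω : Type} [Field Ω] [CharZero Ω]

omit [CharZero Ω] in
theorem co_out {z : R2 Ω} (dz : DL 4 z) (z0 : coeff 0 z = 0) {i j : ℕ} (h : (i, j) ∉ TE 3) :
    HC.co i j z = 0 := by
  rw [mem_TE] at h
  by_cases c : i + j = 0
  · obtain ⟨rfl, rfl⟩ : i = 0 ∧ j = 0 := by omega
    rw [← z0, coeff_eq_co]; rfl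
  · exact co_of_DL dz (by simp only at h; omega)

theorem OV_of {S : Subalgebra ℚ Ω} {z : R2 Ω} (dz : DL 4 z) (z0 : coeff 0 z = 0)
    (h : ∀ p ∈ TE 3, HC.co p.1 p.2 z ∈ S) : z ∈ OV S := mem_OV.2 fun m => by
  rw [coeff_eq_co]
  by_cases c : (m 0, m 1) ∈ TE 3
  · exact h _ c
  · rw [co_out dz z0 c]; exact zero_mem _

/-- Echelon form of a pencil of cubics. -/
theorem ech {n1 n2 : R2 Ω} (d1 : DL 4 n1) (d2 : DL 4 n2) (z1 : coeff 0 n1 = 0) (z2 : coeff 0 n2 = 0) :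
    ∃ (T : Finset Ω) (u v : R2 Ω) (α β γ δ : Ω), T.card ≤ 14 ∧ n1 = C α * u + C β * v ∧
      n2 = C γ * u + C δ * v ∧ ∀ S : Subalgebra ℚ Ω, (∀ t ∈ T, t ∈ S) → u ∈ OV S ∧ v ∈ OV S := by
  classical
  have c9 : (TE 3).card = 9 := by decide
  have one : ∀ z : R2 Ω, DL 4 z → coeff 0 z = 0 → ∃ T : Finset Ω, T.card ≤ 14 ∧
      ∀ S : Subalgebra ℚ Ω, (∀ t ∈ T, t ∈ S) → z ∈ OV S ∧ 0 ∈ OV S := fun z dz z0 =>
    ⟨(TE 3).image fun p => HC.co p.1 p.2 z, Finset.card_image_le.trans (by omega), fun S h =>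
      ⟨OV_of dz z0 fun p hp => h _ (Finset.mem_image_of_mem _ hp), zero_mem _⟩⟩
  by_cases H : ∀ p ∈ TE 3, ∀ q ∈ TE 3,
      HC.co p.1 p.2 n1 * HC.co q.1 q.2 n2 - HC.co q.1 q.2 n1 * HC.co p.1 p.2 n2 = 0
  · by_cases h1 : ∀ p ∈ TE 3, HC.co p.1 p.2 n1 = 0
    · obtain ⟨T, a, b⟩ := one n2 d2 z2
      refine ⟨T, n2, 0, 0, 0, 1, 0, a, ?_, by simp, b⟩
      rw [map_zero, zero_mul, zero_mul, add_zero]
      refine co_ext fun i j => ?_
      by_cases c : (i, j) ∈ TE 3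
      exacts [h1 _ c, co_out d1 z1 c]
    · push Not at h1
      obtain ⟨p, hp, h1⟩ := h1
      obtain ⟨T, a, b⟩ := one n1 d1 z1
      refine ⟨T, n1, 0, 1, 0, HC.co p.1 p.2 n2 / HC.co p.1 p.2 n1, 0, a, by simp, ?_, b⟩
      rw [mul_zero, add_zero]
      refine co_ext fun i j => ?_
      rw [co_C_mul]
      by_cases c : (i, j) ∈ TE 3
      · field_simp
        linear_combination H p hp _ c
      · rw [co_out d1 z1 c, co_out d2 z2 c, mul_zero]
  push Not at H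
  obtain ⟨p, hp, q, hq, H⟩ := H
  have pq : q ≠ p := by rintro rfl; exact H (sub_self _)
  obtain ⟨i, hi⟩ : ∃ i, (HC.co p.1 p.2 n1 * HC.co q.1 q.2 n2 -
    HC.co q.1 q.2 n1 * HC.co p.1 p.2 n2) * i = 1 := ⟨_, mul_inv_cancel₀ H⟩
  have c7 : (((TE 3).erase p).erase q).card = 7 := by
    rw [Finset.card_erase_of_mem (Finset.mem_erase.2 ⟨pq, hq⟩), Finset.card_erase_of_mem hp, c9]
  obtain ⟨u, hu⟩ : ∃ u, u = C (HC.co q.1 q.2 n2 * i) * n1 - C (HC.co q.1 q.2 n1 * i) * n2 := ⟨_, rfl⟩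
  obtain ⟨v, hv⟩ : ∃ v, v = C (HC.co p.1 p.2 n1 * i) * n2 - C (HC.co p.1 p.2 n2 * i) * n1 := ⟨_, rfl⟩
  have hi' := congrArg (C : Ω → R2 Ω) hi
  have key : ∀ (S : Subalgebra ℚ Ω) (a b : Ω) (x y z : R2 Ω), DL 4 x → DL 4 y → coeff 0 x = 0 →
      coeff 0 y = 0 → z = C a * x - C b * y → HC.co p.1 p.2 z ∈ S → HC.co q.1 q.2 z ∈ S →
      (∀ r ∈ ((TE 3).erase p).erase q, HC.co r.1 r.2 z ∈ S) → z ∈ OV S :=
    fun S a b x y z dx dy x0 y0 e h1 h2 h3 => OV_of (e ▸ (dx.C_mul _).sub (dy.C_mul _))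
      (by rw [e, coeff_sub, coeff_C_mul, coeff_C_mul, x0, y0]; ring) fun r hr => by
        by_cases c1 : r = p
        · exact c1 ▸ h1
        by_cases c2 : r = q
        · exact c2 ▸ h2
        exact h3 r (by simp [c1, c2, hr])
  refine ⟨(((TE 3).erase p).erase q).image (fun r => HC.co r.1 r.2 u) ∪
    (((TE 3).erase p).erase q).image (fun r => HC.co r.1 r.2 v), u, v, HC.co p.1 p.2 n1,
    HC.co q.1 q.2 n1, HC.co p.1 p.2 n2, HC.co q.1 q.2 n2, (Finset.card_union_le _ _).trans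
      (add_le_add (Finset.card_image_le.trans c7.le) (Finset.card_image_le.trans c7.le)), ?_, ?_,
    fun S h => ⟨key S _ _ _ _ _ d1 d2 z1 z2 hu ?_ ?_ fun r hr => h _ ?_,
      key S _ _ _ _ _ d2 d1 z2 z1 hv ?_ ?_ fun r hr => h _ ?_⟩⟩
  · rw [hu, hv]
    simp only [map_mul, map_sub, map_one] at hi' ⊢
    linear_combination (-n1) * hi'
  · rw [hu, hv]
    simp only [map_mul, map_sub, map_one] at hi' ⊢
    linear_combination (-n2) * hi'
  · rw [show HC.co p.1 p.2 u = 1 by rw [hu, co_sub, co_C_mul, co_C_mul]; linear_combination hi]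
    exact one_mem _
  · rw [show HC.co q.1 q.2 u = 0 by rw [hu, co_sub, co_C_mul, co_C_mul]; ring]
    exact zero_mem _
  · exact Finset.mem_union_left _ (Finset.mem_image_of_mem _ hr)
  · rw [show HC.co p.1 p.2 v = 0 by rw [hv, co_sub, co_C_mul, co_C_mul]; ring]
    exact zero_mem _
  · rw [show HC.co q.1 q.2 v = 1 by rw [hv, co_sub, co_C_mul, co_C_mul]; linear_combination hi]
    exact one_mem _
  · exact Finset.mem_union_right _ (Finset.mem_image_of_mem _ hr)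

theorem pb_few {W : Fm Ω} (h : Pb 3 W) : ∃ T : Finset Ω, T.card ≤ 20 ∧
    W.1 ∈ OV (Algebra.adjoin ℚ (T : Set Ω)) ∧ W.2 ∈ OV (Algebra.adjoin ℚ (T : Set Ω)) := by
  classical
  obtain ⟨m1, m2, a0, a1, a2, b0, b1, b2, d1, d2, rfl⟩ := h
  obtain ⟨T, u, v, α, β, γ, δ, hT, e1, e2, hS⟩ := ech (n1 := m1 - C (coeff 0 m1))
    (n2 := m2 - C (coeff 0 m2)) (d1.sub ((DL_C _).mono (by omega)))
    (d2.sub ((DL_C _).mono (by omega))) (by simp) (by simp)
  generalize coeff 0 m1 = p1, coeff 0 m2 = p2 at e1 e2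
  obtain rfl : m1 = C p1 + C α * u + C β * v := by linear_combination e1
  obtain rfl : m2 = C p2 + C γ * u + C δ * v := by linear_combination e2
  obtain ⟨A0, A1, A2, B0, B1, B2, e⟩ : ∃ A0 A1 A2 B0 B1 B2 : Ω, ∀ i,
      (C a0 + C a1 * (C p1 + C α * u + C β * v) + C a2 * (C p2 + C γ * u + C δ * v)) *
        pderiv i (C p1 + C α * u + C β * v) +
      (C b0 + C b1 * (C p1 + C α * u + C β * v) + C b2 * (C p2 + C γ * u + C δ * v)) *
        pderiv i (C p2 + C γ * u + C δ * v) =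
      (C A0 + C A1 * u + C A2 * v) * pderiv i u + (C B0 + C B1 * u + C B2 * v) * pderiv i v :=
    ⟨α * (a0 + a1 * p1 + a2 * p2) + γ * (b0 + b1 * p1 + b2 * p2),
      α * (a1 * α + a2 * γ) + γ * (b1 * α + b2 * γ), α * (a1 * β + a2 * δ) + γ * (b1 * β + b2 * δ),
      β * (a0 + a1 * p1 + a2 * p2) + δ * (b0 + b1 * p1 + b2 * p2),
      β * (a1 * α + a2 * γ) + δ * (b1 * α + b2 * γ), β * (a1 * β + a2 * δ) + δ * (b1 * β + b2 * δ),
      fun i => by simp only [map_add, map_mul, pderiv_C_mul, pderiv_C]; ring⟩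
  refine ⟨T ∪ {A0, A1, A2, B0, B1, B2},
    (Finset.card_union_le _ _).trans (add_le_add hT Finset.card_le_six), ?_⟩
  generalize hS' : Algebra.adjoin ℚ ((T ∪ {A0, A1, A2, B0, B1, B2} : Finset Ω) : Set Ω) = S
  have m : ∀ t ∈ (T ∪ {A0, A1, A2, B0, B1, B2} : Finset Ω), t ∈ S := fun t ht =>
    hS' ▸ Algebra.subset_adjoin ht
  obtain ⟨hu, hv⟩ := hS S fun t ht => m t (Finset.mem_union_left _ ht)
  have k : ∀ i, (C A0 + C A1 * u + C A2 * v) * pderiv i u +
      (C B0 + C B1 * u + C B2 * v) * pderiv i v ∈ OV S := fun i =>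
    add_mem (mul_mem (add_mem (add_mem (C_OV (m _ (by simp))) (mul_mem (C_OV (m _ (by simp))) hu))
      (mul_mem (C_OV (m _ (by simp))) hv)) (d_OV i hu))
      (mul_mem (add_mem (add_mem (C_OV (m _ (by simp))) (mul_mem (C_OV (m _ (by simp))) hu))
      (mul_mem (C_OV (m _ (by simp))) hv)) (d_OV i hv))
  simp only [fm, Prod.fst_add, Prod.snd_add, ← neg_add, e]
  exact ⟨k 1, neg_mem (k 0)⟩

theorem ind_option {k ι : Type} [Field k] [CharZero k] {x : ι → k⟦X⟧} {τ : k⟦X⟧}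
    (hx : AlgebraicIndependent ℚ fun i => cc (x i)) (h0 : τ ≠ 0) (hτ : cc τ = 0) :
    AlgebraicIndependent ℚ fun o : Option ι => o.elim τ x := by
  have hx' : AlgebraicIndependent ℚ x := AlgebraicIndependent.of_comp (cc : k⟦X⟧ →+* k).toRatAlgHom hx
  refine (hx'.option_iff_transcendental τ).2 fun h => ?_
  obtain ⟨q, q0, hq⟩ := h.exists_nonzero_coeff_and_aeval_eq_zero (mem_nonZeroDivisors_of_ne_zero h0)
  rw [← q.divX_mul_X_add, map_add, map_mul, Polynomial.aeval_X, Polynomial.aeval_C] at hq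
  have e := congrArg (cc : k⟦X⟧ →+* k) hq
  rw [map_add, map_mul, hτ, mul_zero, zero_add, map_zero] at e
  generalize q.coeff 0 = s at e q0
  obtain ⟨s, hs⟩ := s
  have hs' := hs
  rw [Algebra.adjoin_range_eq_range_aeval] at hs'
  obtain ⟨P, rfl⟩ := hs'
  have := hx.eq_zero_of_aeval_eq_zero P
    ((comp_aeval_apply x (cc : k⟦X⟧ →+* k).toRatAlgHom P).symm.trans e)
  subst this
  exact q0 (Subtype.ext (map_zero _))

end EX

theorem exc33S : Exc33Stmt := by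
  intro k _ _ f w A hB h
  have : CharZero k⸨X⸩ := charZero_of_injective_ringHom (cL_inj (R := k))
  obtain ⟨T, hT, h1, h2⟩ := pb_few h
  obtain ⟨μ, hμ⟩ := ne_zero_iff.1 hB
  have r1 : map cc w.1 = pderiv 1 f := congrArg Prod.fst A.red
  have r2 : map cc w.2 = -pderiv 0 f := congrArg Prod.snd A.red
  let x : TE 5 → k⟦X⟧ := fun p => algebraMap ℚ _ (1 / ((p.1.1 : ℚ) + p.1.2)) *
    HC.co p.1.1 p.1.2 (X 1 * w.1 - X 0 * w.2)
  have hx : AlgebraicIndependent ℚ fun p => cc (x p) := by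
    convert A.gen.2.2.comp (fun p : TE 5 => ⟨Finsupp.single 0 p.1.1 + Finsupp.single 1 p.1.2, by
      simpa [deg2] using mem_TE.1 p.2⟩) fun p q e => Subtype.ext (Prod.ext
        (by simpa using DFunLike.congr_fun (congrArg Subtype.val e) 0)
        (by simpa using DFunLike.congr_fun (congrArg Subtype.val e) 1)) using 1
    funext p
    have n0 : ((p.1.1 : k) + p.1.2) ≠ 0 := by
      have := (mem_TE.1 p.2).1
      exact_mod_cast (by omega : p.1.1 + p.1.2 ≠ 0)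
    simp only [x, map_mul]
    rw [← co_map, map_sub, map_mul, map_mul, map_X, map_X, r1, r2, mul_neg, sub_neg_eq_add, co_add,
      co_X0_x, co_X1_y, show cc (algebraMap ℚ k⟦X⟧ (1 / ((p.1.1 : ℚ) + p.1.2))) = _ from
        eq_ratCast ((cc : k⟦X⟧ →+* k).comp (algebraMap ℚ _)) _]
    push_cast
    change _ = HC.co p.1.1 p.1.2 f
    field_simp
    ring
  have hτ : cc (coeff μ (dv w)) = 0 := by
    rw [← coeff_map, map_dv, A.red, dv_d1, coeff_zero]
  refine few ((ind_option hx hμ hτ).map' (f := (coeL k).toRatAlgHom) coeL_inj) T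
    (by rw [Fintype.card_option, Fintype.card_coe, show (TE 5).card = 20 by decide]; omega) ?_
  rintro (_ | p)
  · change coeL k (coeff μ (dv w)) ∈ _
    rw [← coeff_map, map_dv]
    exact mem_OV.1 (add_mem (d_OV 0 h1) (d_OV 1 h2)) μ
  · change coeL k (x p) ∈ _
    simp only [x, map_mul]
    rw [← co_map, map_sub, map_mul, map_mul, map_X, map_X,
      show coeL k (algebraMap ℚ k⟦X⟧ (1 / ((p.1.1 : ℚ) + p.1.2))) = _ from
        eq_ratCast ((coeL k).comp (algebraMap ℚ _)) _]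
    exact mul_mem (rat_mem _) (mem_OV.1 (sub_mem (mul_mem (X_OV 1) h1) (mul_mem (X_OV 0) h2)) _)

end Pool.Agent.MP_05b4bd_ag.PC3

end MrgPart4

-- marker of a merged file
example : 731051 + 232636 = 731051 + 232636 := rfl
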