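import Pool.Agent.MP_05b4bd_ag.esc3.Spec
import Pool.Agent.MP_05b4bd_ag.esc.Log1
import Pool.Agent.MP_05b4bd_ag.pc3.Lift
import Pool.Agent.MP_05b4bd_ag.esc.Minp

-- ======== part 0: formerly Pool.Agent.MP_05b4bd_ag.esc3.Inv
section MrgPart0

/-! No invariance of the expansion at infinity, in every degree at least three. -/

namespace Pool.Agent.MP_05b4bd_ag.ES

open PowerSeries LaurentSeries HC

theorem invS3 (h0 : InvStmt) (h1 : GlcStmt) (h2 : RedAbsStmt) (h3 : EvbStmt) (h6 : GradeStmt)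
    (h7 : BspecStmt3) (h8 : TwoStmt) (h9 : GenTopStmt) (c3 : ChkStmt 3 1 1 1 0 1)
    (c4 : ChkStmt 4 2 1 1 1 1) (c5 : ChkStmt 5 2 2 3 0 0) : InvStmt3 := by
  intro k L _ _ _ _ d I ν σ φ η hd hν lo s0 s1 s2 p1 p2 p3
  by_cases h6d : 6 ≤ d
  · exact h0 k L d I ν σ φ η h6d hν lo s0 s1 s2 p1 p2 p3
  let : Algebra k L := I.κ.toAlgebra
  have : CharZero L := charZero_of_injective_ringHom I.κ.injective
  have hκ : algebraMap k L = I.κ := rfl
  obtain ⟨-, hci, c1, c2, -⟩ := h9 k d I.f (by omega) I.gen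
  have hev := h3 k L I.κ I.D d _ _ _ (by omega) (hc_hom d I.f) hci c1 c2 I.cv I.gb
  obtain ⟨hA, c, e, BB, hc', he, hB, hG⟩ := h1 k L I.D d I.f I.x0 I.y0 (by omega) I.cv I.fr
  rw [hκ] at hA hc' he
  have hev' : ∀ r, e r ∈ BB → Bt (hc d I.f) r := fun r hr => by
    obtain ⟨z, hz⟩ := (hB _).1 hr
    exact hev r z (by rw [← he, hz])
  obtain ⟨g1, u, dg, eg, r1, r2⟩ := h2 k L d I.f c e BB (by omega) I.gen hG hev' I.g I.jac
    fun m hm => by
      rw [hc', ← I.rX]
      exact (hB _).2 (lo m hm)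
  obtain ⟨Ψ, hΨ⟩ := exists_wL_mul_of_low (f := GLc I.κ d I.D I.x0 I.y0 (redg d I.f g1))
    (m := -(d : ℤ)) fun n hn => by rw [← hc', r1 n hn]
  have q1 : ∀ n : ℕ, coeff n Ψ - e (psi d I.f g1 n) ∈ BB := fun n => by
    have := r2 n
    rwa [hc', hΨ, coeff_wL_mul, show (n : ℤ) - d - -(d : ℤ) = n by ring, coeff_coeL] at this
  have hΞ : cc I.Xi = wL L (-(d : ℤ)) * coeL L Ψ + cwL I.D (EL I.κ I.x0 I.y0 u) := by
    rw [I.rX, ← hΨ, ← hA]
    conv_lhs => rw [eg]
    simp only [GLc, map_add, add_mul]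
  have hs : cc (map I.κ σ) = 0 := by
    rw [← coeff_zero_eq_constantCoeff_apply, coeff_map, coeff_zero_eq_constantCoeff_apply, s0,
      map_zero]
  have hDs : cw I.D (map I.κ σ) = 0 := by
    ext n
    rw [coeff_cw, coeff_map, I.cv.2.1, map_zero]
  have q2 : ∀ m, Bt (hc d I.f) (∑ n ∈ Finset.range (m + 1), MvPolynomial.C
      (coeff m (σ ^ (n + 1)) - ((m - n : ℕ) : k) * coeff (m - n) σ) * psi d I.f g1 n) := by
    intro m
    have a1 := (hB _).2 (Inv.ser I.cv.1 (by omega) hs hDs p1 p2 hΞ p3 m)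
    rw [Inv.cf hs] at a1
    have a2 := BB.sub_mem a1 (BB.sum_mem fun n (_ : n ∈ Finset.range (m + 1)) => BB.smul_mem
      (coeff m (σ ^ (n + 1)) - ((m - n : ℕ) : k) * coeff (m - n) σ) (q1 n))
    refine hev' _ ?_
    convert a2 using 1
    rw [map_sum, ← Finset.sum_sub_distrib]
    refine Finset.sum_congr rfl fun n _ => ?_
    rw [MvPolynomial.C_mul', map_smul, Algebra.smul_def, Algebra.smul_def, hκ, ← map_pow,
      coeff_map, coeff_map, map_sub, map_mul, map_natCast]
    ring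
  have hi : ∀ n : ℕ, ∃ z, (cc I.Xi).coeff (n - d) =
      I.D z + evp I.κ (cc I.x0) (cc I.y0) (psi d I.f g1 n) := fun n => by
    obtain ⟨z, hz⟩ := (hB _).1 (q1 n)
    refine ⟨z + (EL I.κ I.x0 I.y0 u).coeff (n - d), ?_⟩
    rw [hΞ, HahnSeries.coeff_add, coeff_wL_mul, show (n : ℤ) - d - -(d : ℤ) = n by ring, coeff_coeL,
      coeff_cwL, map_add, ← hz, he]
    ring
  have q3 : ∃ n n', ¬ n ≡ n' [MOD d] ∧ ¬ Bt (hc d I.f) (psi d I.f g1 n) ∧
      ¬ Bt (hc d I.f) (psi d I.f g1 n') := by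
    obtain ⟨m1, m2, -, -, a3, a4, a5⟩ := h8 k L d I
      (fun m => if -(d : ℤ) ≤ m then psi d I.f g1 (m + d).toNat else 0) hd (fun m => by
        split_ifs with cm
        · obtain ⟨z, hz⟩ := hi (m + d).toNat
          rw [show (((m + d).toNat : ℕ) : ℤ) - d = m by omega] at hz
          exact ⟨z, hz⟩
        · obtain ⟨z, hz⟩ := lo m (by omega)
          exact ⟨z, by rw [hz, map_zero, add_zero]⟩) (fun m e he' => by
        split_ifs at he' with cm
        · obtain ⟨g1', -, g3⟩ := h6 k d (m + d).toNat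
          have := g1' (psi d I.f g1 (m + d).toNat) e
          rw [g3 _ _ _ I.gen.1, if_pos (Nat.ModEq.refl _)] at this
          split_ifs at this with cd
          · have c2 := Int.natCast_dvd_natCast.2 cd
            have c3 := c2.sub (dvd_refl (d : ℤ))
            rwa [show ((e.degree + (m + d).toNat + 2 : ℕ) : ℤ) - d = e.degree + m + 2 by omega] at c3
          · exact absurd this he'
        · exact absurd (MvPolynomial.coeff_zero e) he')
    have z0 : Bt (hc d I.f) 0 := ⟨0, 0, by simp [br]⟩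
    split_ifs at a4 with c1'
    swap
    · exact absurd z0 a4
    split_ifs at a5 with c2'
    swap
    · exact absurd z0 a5
    refine ⟨_, _, fun c => a3 ?_, a4, a5⟩
    have := c.symm.dvd
    rwa [show (((m1 + d).toNat : ℕ) : ℤ) - ((m2 + d).toNat : ℕ) = m1 - m2 by omega] at this
  have hs := h7 k d I.f g1 σ ν hd I.gen dg s0 hν s1 s2 q2 q3
  obtain rfl | rfl | rfl : d = 3 ∨ d = 4 ∨ d = 5 := by omega
  · obtain ⟨k', _, _, g, z, t, a1, a2, a3, a4, a5⟩ := hs 1 1 1 0 1 rfl rfl
    exact a2 (c3 k' g z t a1 a3 a4 a5)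
  · obtain ⟨k', _, _, g, z, t, a1, a2, a3, a4, a5⟩ := hs 2 1 1 1 1 rfl rfl
    exact a2 (c4 k' g z t a1 a3 a4 a5)
  · obtain ⟨k', _, _, g, z, t, a1, a2, a3, a4, a5⟩ := hs 2 2 3 0 0 rfl rfl
    exact a2 (c5 k' g z t a1 a3 a4 a5)

end Pool.Agent.MP_05b4bd_ag.ES

end MrgPart0

-- ======== part 1: formerly Pool.Agent.MP_05b4bd_ag.pc3.Minp3
section MrgPart1

/-! From arcs to minimal primes. -/

namespace Pool.Agent.MP_05b4bd_ag.PC3

open scoped PowerSeries LaurentSeries
open HC MvPolynomial ES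

open Minp in
theorem minp3S (hA : ArcStmt) (hD : DerAlgStmt) : Minp3Stmt := by
  intro d Ws hC q hq hk
  have := hq.1.1
  let D := PCo ⧸ q
  let μ : PCo →ₐ[ℂ] D := Ideal.Quotient.mkₐ ℂ q
  have hμ : ∀ a, μ a = 0 ↔ a ∈ q := fun _ => Ideal.Quotient.eq_zero_iff_mem
  let ν : Co →ₐ[ℂ] D := μ.comp (rename Sum.inl)
  let B := ν.range
  let β : Co →ₐ[ℂ] B := ν.rangeRestrict
  have hβ : Function.Surjective β := ν.rangeRestrict_surjective
  have hi : Function.Injective (algebraMap B D) := Subtype.val_injective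
  have : CharZero D := charZero_of_injective_algebraMap (algebraMap ℂ D).injective
  have high : ∀ b m, d < m.degree → μ (X (.inl (b, m))) = 0 := fun b m h =>
    (hμ _).2 (hq.1.2 (high_mem b m h))
  have top : ∀ T : Subalgebra B D, (∀ i, μ (pU i) ∈ T) → ∀ x, x ∈ T := fun T hT x => by
    obtain ⟨R, rfl⟩ := Ideal.Quotient.mkₐ_surjective ℂ q x
    induction R using MvPolynomial.induction_on with
    | C a => exact T.algebraMap_mem ⟨_, C a, congrArg μ (rename_C _ _)⟩
    | add p q hp hq => rw [map_add]; exact add_mem hp hq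
    | mul_X p k hp =>
      rw [map_mul]
      refine mul_mem hp ?_
      rcases k with k | i
      exacts [T.algebraMap_mem ⟨_, X k, congrArg μ (rename_X _ _)⟩, hT i]
  have f1 : Algebra.FiniteType ℂ B := by
    let θ := β.comp (rename fun k : Bool × Mo0 d => (k.1, k.2.1))
    refine Algebra.FiniteType.of_surjective θ fun x => ?_
    obtain ⟨R, rfl⟩ := hβ x
    change _ ∈ θ.range
    induction R using MvPolynomial.induction_on with
    | C a => exact ⟨C a, congrArg β (rename_C _ _)⟩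
    | add p q hp hq => rw [map_add]; exact add_mem hp hq
    | mul_X p k hp =>
      rw [map_mul]
      refine mul_mem hp ?_
      by_cases h : k.2.degree ≤ d
      · exact ⟨X (k.1, ⟨k.2, h⟩), congrArg β (rename_X _ _)⟩
      · rw [show β (X k) = 0 from Subtype.ext
          ((congrArg μ (rename_X _ _)).trans (high k.1 k.2 (by omega)))]
        exact zero_mem _
  have f2 : Algebra.FiniteType B D :=
    Algebra.FiniteType.of_surjective (aeval fun i => μ (pU i) : MvPolynomial (Fin 2) B →ₐ[B] D)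
      (top (AlgHom.range _) fun i => ⟨X i, aeval_X _ _⟩)
  have eU : ∀ b, map (algebraMap B D) (map (β : Co →+* B) (un0 d b)) =
      map (μ : PCo →+* D) (uni d b) := fun b => by
    rw [← ren_un0, map_map, map_map]; rfl
  have mU : ∀ b, map (μ : PCo →+* D) (tr pU (uni d b)) ∈ mm D ^ 1 := fun b =>
    mem_mm_one.2 (by rw [coeff_map]; exact (hμ _).2 (hq.1.2 (sing_mem b)))
  have hJ : μ (eval pU (br (uni d true) (uni d false))) ≠ 0 := fun h => by
    obtain ⟨w, hw, -, h2⟩ := dense_pts (fin_min high_mem) hq 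
      ((Ideal.ne_top_iff_one q).1 hq.1.1.ne_top)
    have := h2 _ ((hμ _).1 h)
    rw [← RingHom.coe_coe, map_ev, map_br, map_uni _ true (cen_DL hw true),
      map_uni _ false (cen_DL hw false)] at this
    refine hw.2.2.2.1 (Eq.trans ?_ this)
    congr 2
    exact funext fun i => (pev_inr _ _ _ i).symm
  have eE : ∀ u : R2 B, eval₂ (algebraMap B D) ![μ (pU 0), μ (pU 1)] u =
      eval (fun i => μ (pU i)) (map (algebraMap B D) u) := fun u => by
    rw [eval_map]
    congr 1
    funext i; fin_cases i <;> rfl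
  have eZ : ∀ b, eval₂ (algebraMap B D) ![μ (pU 0), μ (pU 1)] (map (β : Co →+* B) (un0 d b)) = 0 :=
    fun b => by
      have := mem_mm_one.1 (mU b)
      rw [map_tr, coeff_zero_tr, ← eU] at this
      exact (eE _).trans this
  have f3 : Algebra.IsAlgebraic B D := by
    have := alg_pt hD hi (eZ true) (eZ false) (by
      rw [eE, map_br, eU, eU, ← map_br]
      exact (map_ev (μ : PCo →+* D) _ _) ▸ hJ)
    exact ⟨top (Subalgebra.algebraicClosure B D) (Fin.forall_fin_two.2 this)⟩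
  have hker : RingHom.ker β ≤ RingHom.ker (chi d) := fun R hR =>
    chi_zero (hk R ((hμ _).1 (congrArg Subtype.val hR)))
  have := RingHom.ker_isPrime (chi d)
  obtain ⟨k, _, _, _, α, ψ, hψ, c1, c2⟩ := hA B D hi f1 f2 f3 _
    (Ideal.map_isPrime_of_surjective hβ hker)
  obtain ⟨f, hf, g1, g2⟩ := exists_gen (d := d) ((cc.comp α).comp (β : Co →+* B)) fun R => by
    refine (c2 (β R)).trans ?_
    rw [← Ideal.mem_comap, Ideal.comap_map_of_surjective _ hβ, ← RingHom.ker_eq_comap_bot,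
      sup_eq_left.2 hker]
    rfl
  let U : Bool → R2 k⟦X⟧ := fun b => map (α.comp (β : Co →+* B)) (un0 d b)
  have eL : ∀ b, map (coeL k) (U b) = map ψ (map (μ : PCo →+* D) (uni d b)) := fun b => by
    rw [← eU, map_map, map_map, map_map]
    congr 2
    exact RingHom.ext fun R => (c1 _).symm
  have eT : ∀ b, tr (fun i => ψ (μ (pU i))) (map (coeL k) (U b)) =
      map ψ (map (μ : PCo →+* D) (tr pU (uni d b))) := fun b => by
    rw [eL, map_tr, map_tr]; rfl
  let Ω := AlgebraicClosure k⸨X⸩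
  let j : k⸨X⸩ →+* Ω := algebraMap _ _
  let _ : Algebra ℂ Ω := ((j.comp ψ).comp (algebraMap ℂ D)).toAlgebra
  have : CharZero Ω := charZero_of_injective_algebraMap (algebraMap ℂ Ω).injective
  have main := hC k f (U true, U false) (fun i => ψ (μ (pU i)))
    ⟨hf, ⟨(fA_DL _).map _, (fA_DL _).map _⟩,
      Prod.ext (by rw [d1, ← g1]; exact map_map _ _ _) (by rw [d1, ← g2]; exact map_map _ _ _)⟩
    ⟨eT true ▸ mm_map _ (mU true), eT false ▸ mm_map _ (mU false),
    (by
      rw [eL, eL, ← map_br, ← map_br]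
      refine fun h => hJ (hψ ?_)
      rw [map_zero, ← h]
      exact (congrArg ψ (map_ev (μ : PCo →+* D) _ _)).trans (map_ev ψ _ _)),
    (by
      rw [eT, eT]
      refine fi_gen (k := ℂ) hψ (mU true) (mU false) ?_ fun s hs => ?_
      · rw [← map_br, coeff_map, br, tr_pderiv, tr_pderiv, tr_pderiv, tr_pderiv, ← map_mul,
          ← map_mul, ← map_sub, coeff_zero_tr]
        exact hJ
      · obtain ⟨s, rfl⟩ := Ideal.Quotient.mkₐ_surjective ℂ q s
        obtain ⟨w, hw, h1, h2⟩ := dense_pts (fin_min high_mem) hq (mt (hμ s).2 hs)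
        refine ⟨Ideal.Quotient.lift q (pe w : PCo →+* ℂ) h2, h1, ?_⟩
        rw [map_map, map_map]
        have := fi_of_center hw.2
        rwa [← show _ = tr w.2 w.1.1 from map_tr_uni w.2 true (cen_DL hw true),
          ← show _ = tr w.2 w.1.2 from map_tr_uni w.2 false (cen_DL hw false)] at this)⟩ Ω j
  refine main.imp fun W ⟨hW, h⟩ => ⟨hW, fun R hR => ?_⟩
  let χ : PCo →ₐ[ℂ] Ω :=
    ⟨(j.comp ψ).comp (μ : PCo →+* D), fun c => congrArg (j.comp ψ) (μ.commutes c)⟩
  have := h R hR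
  have e : ∀ b, map j (map (coeL k) (U b)) = map (χ : PCo →+* Ω) (uni d b) := fun b => by
    rw [eL, map_map, map_map]; rfl
  simp only [mapF, e] at this
  rw [pev_ren _ _ _ (fun i => χ (pU i)), eq_pev χ fun b m hm =>
    (congrArg (j.comp ψ) (high b m hm)).trans (map_zero _)] at this
  exact (hμ _).1 (hψ (j.injective (this.trans (by rw [map_zero, map_zero]))))

end Pool.Agent.MP_05b4bd_ag.PC3

end MrgPart1

-- marker of a merged file
example : 731051 + 479697 = 731051 + 479697 := rfl
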