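import Pool.Agent.MP_05b4bd_ag.esc3.ChkA
import Pool.Agent.MP_05b4bd_ag.esc3.Spec
import Pool.Agent.MP_05b4bd_ag.pc3.Lift

-- ======== part 0: formerly Pool.Agent.MP_05b4bd_ag.esc3.Bspec
section MrgPart0

/-! Escaping centres in every degree at least three: specialisation of all coefficients. -/

namespace Pool.Agent.MP_05b4bd_ag.ES

open MvPolynomial HC Bs

namespace Bspec3

section Val
variable {O K L : Type} [CommRing O] [Field K] [Field L] [CharZero K] [CharZero L]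
  {ι : O →+* K} {ρ : O →+* L}

theorem core3 (hG : GradeStmt) (hι : Function.Injective ι) (hu : ∀ a, ρ a ≠ 0 → IsUnit a)
    (hv : ∀ c : K, (∃ a, ι a = c) ∨ ∃ a, ρ a = 0 ∧ ι a * c = 1) {d ν : ℕ} {f g F : R2 K}
    {f' g' F' : R2 L} {σ : PowerSeries K} (hb : ∀ r r', Rel ι ρ r r' → Bt F r → Bt F' r')
    (hF : F.IsHomogeneous d) (h0 : coeff 0 f = 0)
    (hf : Rel ι ρ f f') (hg : Rel ι ρ g g') (hσ : cc σ = 0) (hν : 1 ≤ ν)
    (hz : PowerSeries.coeff 1 σ ^ ν = 1) (hz' : PowerSeries.coeff 1 σ ≠ 1)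
    (H : Inv F σ (psi d f g))
    (hl : ∀ i, 1 ≤ i → i < d → PowerSeries.coeff (i + 1) σ = 0) {n0 : ℕ} (hn : n0 < d)
    (hn' : ¬ Bt F' (psi d f' g' n0)) : ∃ σ' : PowerSeries L, cc σ' = 0 ∧
      Inv F' σ' (psi d f' g') ∧ (∀ i, 1 ≤ i → i < d → PowerSeries.coeff (i + 1) σ' = 0) ∧
      PowerSeries.coeff 1 σ' ≠ 0 ∧ PowerSeries.coeff 1 σ' ≠ 1 := by
  have hψ := fun n => rel_psi hu hf d n hg
  have hz0 : PowerSeries.coeff 1 σ ≠ 0 := fun h => by
    rw [h, zero_pow (by omega)] at hz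
    exact zero_ne_one hz
  have hz1 := pow_eq_one_of_T hσ hz0 (H.first hG hF h0 hσ (fun h => hn' (hb _ _ (hψ n0) h))
    (fun n' h1 h2 => absurd (Nat.ModEq.eq_of_lt_of_lt h2 (by omega) hn) h1.ne) (by omega : 0 < d))
  have hint : ∀ i, ∃ a, ι a = PowerSeries.coeff i σ := by
    intro i
    induction i using Nat.strong_induction_on with
    | _ i ih =>
    rcases i with _ | _ | i
    · exact ⟨0, by simpa using hσ.symm⟩
    · rcases hv (PowerSeries.coeff 1 σ) with h | ⟨a, h1, h2⟩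
      · exact h
      have h3 : a ^ ν = 1 := hι (by
        have := congrArg (· ^ ν) h2
        simpa only [mul_pow, hz, mul_one, one_pow, map_pow, map_one] using this)
      have h4 := congrArg ρ h3
      rw [map_pow, h1, zero_pow (by omega), map_one] at h4
      exact absurd h4 zero_ne_one
    by_cases hi : i + 1 = n0
    · exact ⟨0, by rw [hl _ (by omega) (by omega), map_zero]⟩
    choose! s hs using ih
    let σ0 : PowerSeries O := PowerSeries.mk fun j => if j < i + 1 + 1 then s j else 0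
    have hd : PowerSeries.X ^ (i + 1 + 1) ∣ σ - PowerSeries.map ι σ0 :=
      PowerSeries.X_pow_dvd_iff.2 fun j hj => by
        rw [map_sub, PowerSeries.coeff_map, PowerSeries.coeff_mk, if_pos hj, hs j hj, sub_self]
    have h1 := H.sep hG hF h0 (by omega : n0 ≤ n0 + 1 + (i + 1))
    obtain ⟨r', hr⟩ : ∃ r', Rel ι ρ (∑ n ∈ (Finset.range (n0 + 1 + (i + 1) + 1)).erase n0,
        if n ≡ n0 [MOD d] then C (T σ (n0 + 1 + (i + 1)) n) * psi d f g n else 0) r' :=
      ⟨_, Rel.sum _ (v := fun n => if n ≡ n0 [MOD d] then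
        C (ρ (T σ0 (n0 + 1 + (i + 1)) n)) * psi d f' g' n else 0) fun n h2 => by
          split_ifs with h3
          · have h4 : n0 < n := by
              by_contra h5
              exact (Finset.mem_erase.1 h2).1 (h3.eq_of_lt_of_lt (by omega) hn)
            rw [T_congr hσ (by omega) hd (by omega), T_map]
            exact (rel_C _).mul (hψ n)
          · exact ⟨0, map_zero _, map_zero _⟩⟩
    obtain ⟨a, ha⟩ : ∃ a, ι a = T σ (n0 + 1 + (i + 1)) n0 := by
      refine (hv _).resolve_right fun ⟨a, h2, h3⟩ => hn' ?_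
      have h4 := bt_C (ι a) h1
      rw [mul_add, ← mul_assoc, ← C_mul, h3, C_1, one_mul] at h4
      obtain ⟨u, u1, u2⟩ := hψ n0
      obtain ⟨v, v1, -⟩ := hr
      exact hb _ _ ⟨u + C a * v, by rw [map_add, map_mul, map_C, u1, v1],
        by rw [map_add, map_mul, map_C, u2, h2, C_0, zero_mul, add_zero]⟩ h4
    rw [T_diff hσ (by omega) hd, T_map, hz1, PowerSeries.coeff_map, PowerSeries.coeff_mk,
      if_neg (by omega), map_zero] at ha
    obtain ⟨b, hb⟩ := (hu ((n0 : O) - (i + 1 : ℕ)) (by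
      rw [map_sub, map_natCast, map_natCast, sub_ne_zero]
      exact fun e => hi (Nat.cast_injective e).symm)).exists_right_inv
    have h5 := congrArg ι hb
    rw [map_mul, map_sub, map_natCast, map_natCast, map_one] at h5
    refine ⟨(a - T σ0 (n0 + 1 + (i + 1)) n0) * b, ?_⟩
    rw [map_mul, map_sub, ha]
    linear_combination PowerSeries.coeff (i + 1 + 1) σ * h5
  choose s hs using hint
  obtain ⟨σ0, rfl⟩ : ∃ σ0, σ = PowerSeries.map ι σ0 := ⟨PowerSeries.mk s, by ext; simp [hs]⟩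
  have H' : Inv F' (PowerSeries.map ρ σ0) (psi d f' g') := fun m => hb _ _ (Rel.sum _ fun n _ => by
    rw [T_map, T_map]
    exact (rel_C _).mul (hψ n)) (H m)
  have hσ0 : cc σ0 = 0 := hι (hσ.trans (map_zero ι).symm)
  have hσ1 : cc (PowerSeries.map ρ σ0) = 0 := (congrArg ρ hσ0).trans (map_zero ρ)
  rw [PowerSeries.coeff_map] at hz hz'
  set z := PowerSeries.coeff 1 σ0 with hzd
  have h1 : z ^ ν = 1 := hι (by rw [map_pow, hz, map_one])
  refine ⟨_, hσ1, H', fun i i1 i2 => ?_, fun h => ?_, fun h => ?_⟩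
  · have := hl i i1 i2
    rw [PowerSeries.coeff_map] at this ⊢
    rw [hι (this.trans (map_zero ι).symm), map_zero]
  · have := congrArg ρ h1
    rw [PowerSeries.coeff_map] at h
    rw [map_pow, h, zero_pow (by omega), map_one] at this
    exact zero_ne_one this
  · rw [PowerSeries.coeff_map] at h
    have h5 := mul_geom_sum z ν
    rw [h1, sub_self] at h5
    have h6 := (hu (∑ i ∈ Finset.range ν, z ^ i) (by
      rw [map_sum, Finset.sum_congr rfl fun i _ => (map_pow ρ z i).trans (by rw [h, one_pow])]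
      simp
      omega)).mul_left_eq_zero.1 h5
    exact hz' (by rw [sub_eq_zero.1 h6, map_one])

end Val

section Eq
variable {k : Type} [Field k]

theorem eqs (hG : GradeStmt) {d : ℕ} {F f g : R2 k} {σ : PowerSeries k} (hd : 1 ≤ d)
    (hF : F.IsHomogeneous d) (h0 : coeff 0 f = 0) (hσ : cc σ = 0)
    (hz : PowerSeries.coeff 1 σ ≠ 0) (H : Inv F σ (psi d f g))
    (hl : ∀ i, 1 ≤ i → i < d → PowerSeries.coeff (i + 1) σ = 0) :
    Eqs d F (psi d f g) (PowerSeries.coeff 1 σ) (PowerSeries.coeff (d + 1) σ) := by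
  intro n hn
  have hcl : ∀ n', n' ≠ n → n' ≡ n [MOD d] → n' = n + d ∨ n + d + 1 ≤ n' := fun n' h1 h2 => by
    have h3 : n < n' := by
      by_contra h4
      exact h1 (h2.eq_of_lt_of_lt (by omega) hn)
    have := Nat.le_of_dvd (by omega) ((Nat.modEq_iff_dvd' h3.le).1 h2.symm)
    omega
  constructor
  · have h1 := H.sep hG hF h0 (by omega : n ≤ n + 1)
    rw [Finset.sum_eq_zero, add_zero, T_one hσ] at h1
    · refine bt_of_C hz ?_
      rw [← mul_assoc, ← C_mul]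
      convert h1 using 3
      ring
    · intro n' h2
      split_ifs with h3
      · have := hcl n' (Finset.mem_erase.1 h2).1 h3
        rw [T_le hσ (by omega), C_0, zero_mul]
      · rfl
  · have h1 := H.sep hG hF h0 (by omega : n ≤ n + 1 + d)
    have hdv : PowerSeries.X ^ (d + 1) ∣
        σ - PowerSeries.X * PowerSeries.C (PowerSeries.coeff 1 σ) := by
      refine PowerSeries.X_pow_dvd_iff.2 fun j hj => ?_
      rcases j with _ | _ | j
      · simpa using hσ
      · simp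
      · rw [map_sub, hl (j + 1) (by omega) (by omega), PowerSeries.coeff_succ_X_mul]
        simp
    rw [Finset.sum_eq_single (n + d), if_pos (by simp [Nat.ModEq]), T_diff hσ hd hdv, T_eq,
      PowerSeries.coeff_succ_X_mul, ← map_pow, PowerSeries.coeff_C, PowerSeries.coeff_C,
      if_neg (by omega), if_neg (by omega), show n + 1 + d = n + d + 1 by omega, T_one hσ,
      add_comm] at h1
    · convert h1 using 4 <;> ring
    · intro n' h2 h4
      split_ifs with h3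
      · have := hcl n' (Finset.mem_erase.1 h2).1 h3
        rw [T_le hσ (by omega), C_0, zero_mul]
      · rfl
    · intro h
      exact (h (Finset.mem_erase.2 ⟨by omega, Finset.mem_range.2 (by omega)⟩)).elim

theorem fer_hom (d : ℕ) : (Fer k d).IsHomogeneous d :=
  (isHomogeneous_X_pow _ _).add (isHomogeneous_X_pow _ _)

theorem mon_hom (p q : ℕ) : (X 0 ^ p * X 1 ^ q : R2 k).IsHomogeneous (p + q) :=
  (isHomogeneous_X_pow _ _).mul (isHomogeneous_X_pow _ _)

theorem cmon_hom (c p q : ℕ) :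
    ((c : R2 k) * (X 0 ^ p * X 1 ^ q) : R2 k).IsHomogeneous (p + q) := by
  have := (mon_hom (k := k) p q).C_mul (c : k)
  rwa [map_natCast] at this

theorem hc_fs {d p q r s : ℕ} (c : ℕ) (h1 : p + q + 1 = d) (h2 : r + s + 2 = d) :
    hc d (fs k d p q r s c) = Fer k d := by
  rw [fs, hc_add, hc_add, hc_self (fer_hom d), hc_ne (mon_hom p q) (by omega),
    hc_ne (cmon_hom c r s) (by omega), add_zero, add_zero]

theorem coeff_fs {d p q r s : ℕ} (c : ℕ) (hd : 3 ≤ d) (h1 : p + q + 1 = d) (h2 : r + s + 2 = d)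
    {m : Fin 2 →₀ ℕ} (hm : ¬ (1 ≤ m.degree ∧ m.degree ≤ d)) :
    coeff m (fs k d p q r s c) = 0 := by
  rw [fs, coeff_add, coeff_add, (fer_hom d).coeff_eq_zero (by omega),
    (mon_hom p q).coeff_eq_zero (by omega), (cmon_hom c r s).coeff_eq_zero (by omega), add_zero,
    add_zero]

theorem map_fs {L : Type} [Field L] (φ : k →+* L) (d p q r s c : ℕ) :
    map φ (fs k d p q r s c) = fs L d p q r s c := by
  simp [fs, Fer]

theorem ci_fer [CharZero k] {d : ℕ} (hd : 1 ≤ d) :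
    CI (pderiv 0 (Fer k d)) (pderiv 1 (Fer k d)) := by
  have h3 : (C (d : k)⁻¹ : R2 k) * d = 1 := by
    rw [← map_natCast (C : k →+* R2 k), ← map_mul,
      inv_mul_cancel₀ (Nat.cast_ne_zero.2 (by omega)), map_one]
  have p0 : pderiv 0 (Fer k d) = (d : R2 k) * X 0 ^ (d - 1) := by
    simp [Fer, Derivation.leibniz_pow, pderiv_X]
  have p1 : pderiv 1 (Fer k d) = (d : R2 k) * X 1 ^ (d - 1) := by
    simp [Fer, Derivation.leibniz_pow, pderiv_X]
  rw [p0, p1]
  refine ⟨d - 1, Ideal.mem_span_pair.2 ⟨C (d : k)⁻¹, 0, ?_⟩,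
    Ideal.mem_span_pair.2 ⟨0, C (d : k)⁻¹, ?_⟩⟩
  · linear_combination X 0 ^ (d - 1) * h3
  · linear_combination X 1 ^ (d - 1) * h3

theorem co_fer {d : ℕ} (hd : 1 ≤ d) : HC.co 0 d (Fer k d) = 1 := by
  classical
  rw [HC.co, Fer, coeff_add, coeff_X_pow, coeff_X_pow, if_neg, if_pos (by simp), zero_add]
  intro h
  have := DFunLike.congr_fun h 0
  simp at this
  omega

end Eq

end Bspec3

open Bspec3 in
theorem bspecS3 (hG : GradeStmt) (hS : SatStmt) (h9 : GenTopStmt) : BspecStmt3 := by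
  intro k _ _ _ d f g1 σ ν hd H hg hσ hν hz hz' hI ⟨n, n', h1, h2, h3⟩ p q r s c hpq hrs
  classical
  have hz0 : PowerSeries.coeff 1 σ ≠ 0 := fun h => by
    rw [h, zero_pow (by omega)] at hz
    exact zero_ne_one hz
  have hl := fun i => Inv.low (i := i) hG (hc_hom d f) H.1 hσ hz0 hI h1 h2 h3
  let a : Mo1 d → ℚ := fun m => coeff m.1 (fs ℚ d p q r s c)
  have := RingHom.ker_isPrime (aeval a : MvPolynomial (Mo1 d) ℚ →ₐ[ℚ] ℚ)
  obtain ⟨O, τ, t1, t2⟩ := exists_val (K := k) (ψ := (aeval fun m : Mo1 d => coeff m.1 f).toRingHom)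
    (algebraicIndependent_iff_injective_aeval.1 H.2.2)
    (RingHom.ker (aeval a : MvPolynomial (Mo1 d) ℚ →ₐ[ℚ] ℚ))
  simp only [RingHom.mem_ker] at t2
  let L := IsLocalRing.ResidueField O
  let ρ := IsLocalRing.residue O
  let ι := algebraMap O k
  have hι : Function.Injective ι := Subtype.val_injective
  have hu : ∀ c, ρ c ≠ 0 → IsUnit c := fun c => (IsLocalRing.residue_ne_zero_iff_isUnit c).1
  have hv : ∀ c : k, (∃ a, ι a = c) ∨ ∃ a, ρ a = 0 ∧ ι a * c = 1 := fun c => by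
    by_cases h : c ∈ O
    · exact .inl ⟨⟨c, h⟩, rfl⟩
    have h0 : c ≠ 0 := fun e => h (e ▸ zero_mem O)
    refine .inr ⟨⟨c⁻¹, (O.mem_or_inv_mem c).resolve_left h⟩, ?_, inv_mul_cancel₀ h0⟩
    by_contra h4
    obtain ⟨e, he⟩ := (hu _ h4).exists_right_inv
    have : c⁻¹ * e = 1 := congrArg ι he
    exact h (by rw [show c = e by field_simp at this; exact this.symm]; exact e.2)
  have : CharZero L := ⟨fun x y h => by
    have : ρ (τ ((x : MvPolynomial (Mo1 d) ℚ) - y)) = 0 := by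
      rw [map_sub, map_sub, map_natCast, map_natCast, map_natCast, map_natCast, h, sub_self]
    rw [t2, map_sub, map_natCast, map_natCast, sub_eq_zero] at this
    exact Nat.cast_injective this⟩
  let f0 : R2 O := syn O d fun m => τ (X m)
  have hf0 : map ι f0 = f := by
    rw [eq_syn H.2.1 (mem_mm_one.2 H.1)]
    ext m
    rw [coeff_map, coeff_syn, coeff_syn]
    split_ifs
    · exact (t1 _).trans (aeval_X _ _)
    · exact map_zero _
  have hf1 : map ρ f0 = fs L d p q r s c := by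
    rw [← map_fs (((ρ.comp τ).comp C : ℚ →+* L))]
    ext m
    rw [coeff_map, coeff_map, coeff_syn]
    split_ifs with h4
    · rw [RingHom.comp_apply, RingHom.comp_apply, ← sub_eq_zero, ← map_sub, ← map_sub, t2, map_sub,
        aeval_X, aeval_C]
      exact sub_self _
    · rw [coeff_fs c hd hpq hrs h4, map_zero, map_zero]
  have hF1 : map ι (hc d f0) = hc d f := by rw [← hc_map, hf0]
  have hF2 : map ρ (hc d f0) = Fer L d := by rw [← hc_map, hf1, hc_fs c hpq hrs]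
  obtain ⟨β, hβ, v, hv1⟩ := clear hv g1
  obtain ⟨ε, g0, rfl, hg0⟩ := content ρ v
  rw [map_mul, map_C] at hv1
  have hε : ι ε ≠ 0 := fun h => h2 (bt_of_C hβ (by
    rw [← psi_C, ← hv1, psi_C, h, C_0, zero_mul]; exact bt_zero))
  have hg1 : DL (d - 1) (map ρ g0) := fun m hm => by
    have := DL.of_C_mul hε (hv1 ▸ hg.C_mul (ι β)) m hm
    rw [coeff_map] at this ⊢
    rw [hι (this.trans (map_zero ι).symm), map_zero]
  obtain ⟨w, hw, hw0⟩ := Esc.exists_top hg0
  have hw1 := Esc.lt_of_hc_ne hg1 hw0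
  obtain ⟨σ', s1, s2, s3, s4, s5⟩ := core3 (g := map ι g0) (g' := map ρ g0) (F' := Fer L d)
    (f' := fs L d p q r s c) (n0 := d - (w + 2)) hG hι hu hv (fun u u' h hr => by
      obtain ⟨u0, rfl, rfl⟩ := h
      rw [← hF2]
      refine hS O k L ι ρ d (hc d f0) u0 (by omega) hι hv (hc_hom _ _) ?_ ?_ ?_ (hF1 ▸ hr)
      · rw [hF1]
        exact (h9 k d f (by omega) H).2.1
      · rw [hF2]
        exact ci_fer (by omega)
      · rw [← co_map, hF2, co_fer (by omega)]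
        exact one_ne_zero)
    (hc_hom d f) H.1 ⟨f0, hf0, hf1⟩ ⟨g0, rfl, rfl⟩ hσ hν hz hz' (fun m => bt_of_C hε (by
      have := bt_C (ι β) (hI m)
      rw [Finset.mul_sum] at this ⊢
      convert this using 2 with n
      rw [mul_left_comm, ← psi_C, hv1, psi_C, mul_left_comm]
      rfl)) hl (by omega) (fun h => hw0 (by
      rw [psi_top (by omega) hw] at h
      exact (Esc.nz_full (by omega) (fer_hom d) (ci_fer (by omega)) (hc_hom _ _) (bt_of_C
        (div_ne_zero (Nat.cast_ne_zero.2 (by omega)) (Nat.cast_ne_zero.2 (by omega))) h)).1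
        (by omega)))
  exact ⟨L, inferInstance, inferInstance, map ρ g0, _, _, hg1, hg0, s4, s5,
    eqs hG (by omega) (fer_hom d) (coeff_fs c hd hpq hrs (by simp)) s1 s4 s2 s3⟩

end Pool.Agent.MP_05b4bd_ag.ES

end MrgPart0

-- ======== part 1: formerly Pool.Agent.MP_05b4bd_ag.esc3.S1b
section MrgPart1

/-! Escaping centres in degree at least three: an inverse integrating factor of maximal order
cannot exist. -/

namespace Pool.Agent.MP_05b4bd_ag.ES

open PowerSeries LaurentSeries HC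

namespace S1b3

variable {k L : Type} [Field k] [Field L]

theorem cwL_mul (κ : k →+* L) (l : L →+ k) (hl : ∀ c z, l (κ c * z) = c * l z) (a : k⸨X⸩)
    (f : L⸨X⸩) : cwL l (mapL κ a * f) = a * cwL l f := by
  obtain ⟨n, g, rfl⟩ := exists_wL_mul a
  rw [map_mul (mapL κ), mapL_wL, mapL_coeL, mul_assoc, cwL_wL_mul, mul_assoc]
  congr 1
  ext p
  obtain ⟨m0, hm⟩ := exists_low f
  have hm' : ∀ n < min m0 p, f.coeff n = 0 := fun n hn => hm n (lt_of_lt_of_le hn (min_le_left _ _))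
  have hm'' : ∀ n < min m0 p, (cwL l f).coeff n = 0 := fun n hn => by
    rw [coeff_cwL, hm' n hn, map_zero]
  obtain ⟨n, hn⟩ : ∃ n : ℕ, p = min m0 p + n :=
    ⟨(p - min m0 p).toNat, by have := min_le_right m0 p; omega⟩
  rw [coeff_cwL, hn, coeff_coeL_mul _ _ hm', coeff_coeL_mul _ _ hm'', map_sum]
  refine Finset.sum_congr rfl fun i _ => ?_
  rw [coeff_map, hl, coeff_cwL]

/-- All exponents lie in the class of `m` modulo `d`. -/
def Ex (d : ℕ) (m : ℤ) (A : k⸨X⸩) : Prop := ∀ p, A.coeff p ≠ 0 → (d : ℤ) ∣ p - m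

theorem Ex.mul {d : ℕ} {m n : ℤ} {A B : k⸨X⸩} (hA : Ex d m A) (hB : Ex d n B) :
    Ex d (m + n) (A * B) := by
  intro p hp
  obtain ⟨i, hi, j, hj, rfl⟩ := HahnSeries.support_mul_subset (x := A) (y := B) hp
  have h := dvd_add (hA i hi) (hB j hj)
  rwa [show i - m + (j - n) = i + j - (m + n) by ring] at h

theorem Ex.th {d : ℕ} {m : ℤ} {A : k⸨X⸩} (hA : Ex d m A) : Ex d m (thL k A) := fun p hp =>
  hA p (right_ne_zero_of_mul (by rwa [coeff_thL] at hp))

theorem fac {A : k⸨X⸩} (hA : A ≠ 0) :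
    ∃ (o : ℤ) (g : k⟦X⟧), cc g ≠ 0 ∧ A = wL k o * coeL k g := by
  obtain ⟨n0, g0, hg0⟩ := exists_wL_mul A
  obtain ⟨s, g, hg, rfl⟩ := unit_fac (f := g0) fun h => hA (by rw [hg0, h, map_zero, mul_zero])
  rw [map_mul, coeL_X_pow, ← mul_assoc, ← wL_add] at hg0
  exact ⟨_, g, (isUnit_iff_constantCoeff.1 hg).ne_zero, hg0⟩

theorem coeff_fac (o : ℤ) (g : k⟦X⟧) : (wL k o * coeL k g).coeff o = cc g := by
  rw [coeff_wL_mul, sub_self, ← Nat.cast_zero, coeff_coeL, coeff_zero_eq_constantCoeff]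

/-- Two solutions of the same equation in different classes cannot exist. -/
theorem elim [CharZero k] {d : ℕ} {m1 m2 : ℤ} (h1 : ¬ (d : ℤ) ∣ m1) (h2 : ¬ (d : ℤ) ∣ m2)
    (h12 : ¬ (d : ℤ) ∣ m1 - m2) {c A1 A2 : k⸨X⸩} {a1 a2 : k} (hc : c ≠ 0) (n1 : A1 ≠ 0)
    (n2 : A2 ≠ 0) (e1 : Ex d m1 A1) (e2 : Ex d m2 A2)
    (q1 : wL k d * (c * thL k A1 - thL k c * A1) = cL k a1 * c)
    (q2 : wL k d * (c * thL k A2 - thL k c * A2) = cL k a2 * c) : False := by
  have q : wL k d * (thL k A1 * A2 - A1 * thL k A2) = cL k a1 * A2 - cL k a2 * A1 :=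
    mul_left_cancel₀ hc (by linear_combination A2 * q1 - A1 * q2)
  have z : thL k A1 * A2 - A1 * thL k A2 = 0 := by
    ext p
    by_contra hp
    have hq := congrArg (fun f : k⸨X⸩ => f.coeff (p + d)) q
    simp only [coeff_wL_mul, add_sub_cancel_right] at hq
    rw [HahnSeries.coeff_zero] at hp
    have hd : (d : ℤ) ∣ p - (m1 + m2) := by
      by_contra hx
      refine hp ?_
      rw [HahnSeries.coeff_sub, of_not_not fun h => hx ((e1.th.mul e2) p h),
        of_not_not fun h => hx ((e1.mul e2.th) p h), sub_zero]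
    refine hp ?_
    have y1 : A1.coeff (p + d) = 0 := by
      by_contra h
      have h' := dvd_sub (dvd_sub (e1 _ h) hd) (dvd_refl (d : ℤ))
      exact h2 (by rwa [show p + d - m1 - (p - (m1 + m2)) - d = m2 by ring] at h')
    have y2 : A2.coeff (p + d) = 0 := by
      by_contra h
      have h' := dvd_sub (dvd_sub (e2 _ h) hd) (dvd_refl (d : ℤ))
      exact h1 (by rwa [show p + d - m2 - (p - (m1 + m2)) - d = m1 by ring] at h')
    rw [hq, HahnSeries.coeff_sub, coeff_cL_mul, coeff_cL_mul, y1, y2, mul_zero, mul_zero, sub_zero]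
  obtain ⟨o1, g1, c1, rfl⟩ := fac n1
  obtain ⟨o2, g2, c2, rfl⟩ := fac n2
  have z1 : wL k o1 * wL k o2 * coeL k
      ((C (o1 : k) * g1 + thP k g1) * g2 - g1 * (C (o2 : k) * g2 + thP k g2)) = 0 := by
    rw [← z, thL_wL_mul, thL_wL_mul, thL_coeL, thL_coeL, intCast_eq_cL, intCast_eq_cL]
    simp only [map_sub, map_mul, map_add, coeL_C]
    ring
  have z2 := (mul_eq_zero.1 z1).resolve_left
    (mul_ne_zero (isUnit_wL _).ne_zero (isUnit_wL _).ne_zero)
  have z3 := congrArg cc (coeL_inj (z2.trans (map_zero _).symm))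
  simp only [map_sub, map_mul, map_add, S1b.cc_thP, constantCoeff_C, map_zero] at z3
  have z4 : ((o1 : k) - o2) * (cc g1 * cc g2) = 0 := by linear_combination z3
  have z5 : o1 = o2 := Int.cast_injective (α := k)
    (sub_eq_zero.1 ((mul_eq_zero.1 z4).resolve_right (mul_ne_zero c1 c2)))
  have d1 := e1 o1 (by rwa [coeff_fac])
  have d2 := e2 o2 (by rwa [coeff_fac])
  have d3 := dvd_sub d2 d1
  exact h12 (by rwa [z5, show o2 - m2 - (o2 - m1) = m1 - m2 by ring] at d3)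

/-- A functional that sees one class only. -/
theorem func (h4 : EvbStmt) (h6 : GenTopStmt) (hN : NzcStmt) [CharZero k] {d : ℕ} (I : Inf k d L)
    (hd : 3 ≤ d) {m0 : ℤ} {r : R2 k} (hr : Cls d m0 r) (hb : ¬ Bt (hc d I.f) r) :
    ∃ l : L →+ k, (∀ c z, l (I.κ c * z) = c * l z) ∧ (∀ η, l (I.D η) = 0) ∧
      (∀ (m : ℤ) (s : R2 k), Cls d m s → ¬ (d : ℤ) ∣ m - m0 →
        l (evp I.κ (cc I.x0) (cc I.y0) s) = 0) ∧ l (evp I.κ (cc I.x0) (cc I.y0) r) ≠ 0 := by
  obtain ⟨hF, hC, hx, hy, -⟩ := h6 k d I.f (by omega) I.gen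
  let _ : Algebra k L := I.κ.toAlgebra
  have hs : ∀ (c : k) (z : L), c • z = I.κ c * z := fun c z => Algebra.smul_def c z
  have hC' : ∀ c, evp I.κ (cc I.x0) (cc I.y0) (MvPolynomial.C c) = I.κ c := fun c =>
    MvPolynomial.eval₂Hom_C _ _ c
  let Λ : Submodule k L :=
    { carrier := {z | ∃ (η : L) (s : R2 k), (∀ e : Fin 2 →₀ ℕ, MvPolynomial.coeff e s ≠ 0 →
        ¬ (d : ℤ) ∣ e.degree + m0 + 2) ∧ z = I.D η + evp I.κ (cc I.x0) (cc I.y0) s}
      zero_mem' := ⟨0, 0, fun e h => absurd (MvPolynomial.coeff_zero e) h, by simp⟩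
      add_mem' := by
        rintro _ _ ⟨η, s, h, rfl⟩ ⟨η', s', h', rfl⟩
        refine ⟨η + η', s + s', fun e he => ?_, by simp only [map_add]; ring⟩
        by_cases h0 : MvPolynomial.coeff e s = 0
        · exact h' e fun h1 => he (by rw [MvPolynomial.coeff_add, h0, h1, add_zero])
        · exact h e h0
      smul_mem' := by
        rintro c _ ⟨η, s, h, rfl⟩
        refine ⟨I.κ c * η, MvPolynomial.C c * s, fun e he => h e fun h1 => he ?_, ?_⟩
        · rw [MvPolynomial.coeff_C_mul, h1, mul_zero]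
        · rw [hs, I.cv.1.const_mul (I.cv.2.1 c), map_mul, hC', mul_add] }
  have hn : evp I.κ (cc I.x0) (cc I.y0) r ∉ Λ := by
    rintro ⟨η, s, h, e⟩
    refine hb ((hN k d _ hd hF.1 hC).2.2 m0 r (-s) hr (fun e he => h e fun h1 => he ?_)
      (h4 k L I.κ I.D d _ _ _ (by omega) hF.1 hC hx hy I.cv I.gb _ η ?_)).1
    · rw [MvPolynomial.coeff_neg, h1, neg_zero]
    · rw [map_add, map_neg, e, add_neg_cancel_right]
  obtain ⟨l, l1, l2⟩ := Submodule.exists_dual_map_eq_bot_of_notMem hn inferInstance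
  have l3 : ∀ z ∈ Λ, l z = 0 := fun z hz =>
    (Submodule.mem_bot k).1 (l2 ▸ Submodule.mem_map_of_mem hz)
  refine ⟨l.toAddMonoidHom, fun c z => ?_, fun η => l3 _ ?_, fun m s h1 h2 => l3 _ ?_, l1⟩
  · rw [← hs]
    exact l.map_smul c z
  · exact ⟨η, 0, fun e h => absurd (MvPolynomial.coeff_zero e) h, by simp⟩
  · refine ⟨0, s, fun e he h3 => h2 ?_, by simp⟩
    have h5 := dvd_sub (h1 e he) h3
    rwa [show (e.degree : ℤ) + m + 2 - (e.degree + m0 + 2) = m - m0 by ring] at h5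

theorem fin (h4 : EvbStmt) (h6 : GenTopStmt) (hW : WtStmt) (hT : TwoStmt) (hN : NzcStmt)
    [CharZero k] [IsAlgClosed k] {d : ℕ} (I : Inf k d L) (hd : 3 ≤ d) {c : k⸨X⸩} (hc0 : c ≠ 0)
    (v : L) (h : ∀ m, ∃ z, (wL L d * (mapL I.κ c * thL L (cc I.Xi) -
      thL L (mapL I.κ c) * cc I.Xi)).coeff m = I.D z + I.κ (c.coeff m) * v) : False := by
  obtain ⟨r, r1, r2⟩ := hW k L d I (by omega)
  obtain ⟨m1, m2, h1, h2, h12, b1, b2⟩ := hT k L d I r hd r1 r2
  have key : ∀ m0, ¬ Bt (hc d I.f) (r m0) → ∃ (A : k⸨X⸩) (a : k), A ≠ 0 ∧ Ex d m0 A ∧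
      wL k d * (c * thL k A - thL k c * A) = cL k a * c := by
    intro m0 hb
    obtain ⟨l, l1, l2, l3, l4⟩ := func h4 h6 hN I hd (r2 m0) hb
    have hA : ∀ m, (cwL l (cc I.Xi)).coeff m = l (evp I.κ (cc I.x0) (cc I.y0) (r m)) := fun m => by
      obtain ⟨η, e⟩ := r1 m
      rw [coeff_cwL, e, map_add, l2, zero_add]
    refine ⟨cwL l (cc I.Xi), l v, fun e => l4 ?_, fun p hp => ?_, ?_⟩
    · rw [← hA, e, HahnSeries.coeff_zero]
    · by_contra hx
      exact hp (by rw [hA, l3 p _ (r2 p) hx])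
    · rw [thL_cwL, ← cwL_mul I.κ l l1, ← cwL_mul I.κ l l1, ← map_sub, ← cwL_wL_mul, ← thL_mapL]
      ext p
      obtain ⟨z, e⟩ := h p
      rw [coeff_cwL, e, map_add, l2, zero_add, l1, coeff_cL_mul, mul_comm]
  obtain ⟨A1, a1, n1, e1, q1⟩ := key m1 b1
  obtain ⟨A2, a2, n2, e2, q2⟩ := key m2 b2
  exact elim h1 h2 h12 hc0 n1 n2 e1 e2 q1 q2

end S1b3

open S1b in
theorem s1bS3 (h1 : CmpStmt) (h2 : AmalgStmt) (h4 : EvbStmt) (h6 : GenTopStmt) (hW : WtStmt)
    (hT : TwoStmt) (hN : NzcStmt) : S1bStmt3 := by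
  intro k L U _ _ _ _ _ d I D1 i J0 ν hd hnd hE hc hJ0 hν0 hmax
  have : CharZero L := charZero_of_injective_ringHom I.κ.injective
  have : CharZero U := charZero_of_injective_ringHom i.injective
  have : CharZero L⸨X⸩ := charZero_of_injective_ringHom (cL_inj (R := L))
  have : CharZero U⸨X⸩ := charZero_of_injective_ringHom (cL_inj (R := U))
  have hd0 : d ≠ 0 := by omega
  obtain ⟨e, J, rfl, hr⟩ := exists_tfac hJ0.1
  rw [← map_pow] at hJ0 hν0
  have hJ := strip hE.1.coefw (by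
    rw [← mul_one (X ^ e), cw_X_pow_mul, hE.1.coefw.one, mul_zero]) hJ0
  have hν : OrdIs ν J := ⟨fun h => hν0.1 (by rw [coeff_C_mul, h, mul_zero]), fun j hj => by
    have := hν0.2 j hj
    rw [coeff_C_mul] at this
    exact (mul_eq_zero.1 this).resolve_left (pow_ne_zero _ X_ne_zero)⟩
  have ha0 : cc (mA i I.a) ≠ 0 := by
    intro h
    have h' : cc I.a = 0 := map_injective i i.injective (by rw [map_zero, ← h]; rfl)
    obtain ⟨a', ha'⟩ := X_dvd_iff.2 h'
    have hra := I.ra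
    rw [ha', map_mul, red_X] at hra
    have h7 : red a' = -(d : L⟦X⟧) :=
      mul_left_cancel₀ (X_ne_zero (R := L)) (by linear_combination hra)
    have h8 : IsUnit a' := isUnit_iff_constantCoeff.2 (isUnit_iff_constantCoeff.2 (by
      rw [← c00_apply, ← cc_red, h7, map_neg, map_natCast]
      exact (neg_ne_zero.2 (Nat.cast_ne_zero.2 hd0)).isUnit))
    exact hnd (ha' ▸ mul_dvd_mul_left X h8.dvd)
  have hA0 : cc (iT I.a) = -((d : L⸨X⸩) * wL L 1) := by
    rw [cc_iT, I.ra, map_neg, map_mul, map_natCast, coeL_X]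
  have hA : cc (iT (mA i I.a)) = -((d : U⸨X⸩) * wL U 1) := by
    rw [← mT_iT, cc_mT, hA0, map_neg, map_mul, map_natCast, mapL_wL]
  have hAu : IsUnit (iT (mA i I.a)) := isUnit_iff_constantCoeff.2 (by
    rw [hA]
    exact ((Nat.cast_ne_zero.2 hd0).isUnit.mul (isUnit_wL 1)).neg)
  have hAw : IsUnit (iT (mA i I.a) * C (wL U 1)) := hAu.mul ((isUnit_wL 1).map _)
  obtain ⟨om, ho⟩ : ∃ om, om * (iT (mA i I.a) * C (wL U 1)) = iT J :=
    (dvd_iff_exists_eq_mul_left.1 hAw.dvd).imp fun _ h => h.symm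
  have hv : iT (mA i I.a) * mT i I.vb = iT (mA i I.b) := by
    rw [← mT_iT, ← mT_iT, ← map_mul, I.hv]
  have hvb : cc I.vb = 0 := by
    have h := congrArg cc I.hv
    rw [map_mul, hA0, cc_iT, I.rb, map_zero] at h
    exact (mul_eq_zero.1 h).resolve_left
      (neg_ne_zero.2 (mul_ne_zero (Nat.cast_ne_zero.2 hd0) (isUnit_wL 1).ne_zero))
  have hV : VT D1 (mT i I.vb) (mT i I.h) = X ^ I.n * mT i I.Xi := by
    rw [← mT_X i, ← map_pow, ← map_mul, ← I.hV]
    simp only [VT, mT, map_sub, map_mul, cw_map' (cwL_mapL hE.2), cw_map' (thL_mapL i)]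
  have hS := VS (om_eq hE.1 hJ hAu.ne_zero hv ho) hE.1 hV
  obtain ⟨S0, S', e1, e2, e3⟩ := h1 L U I.D D1 i d I.n I.vb I.h I.Xi _ _ (by omega) I.n1 hE
    (fun c h => (hc c h).elim fun r hr => ⟨I.κ r, hr⟩) hvb I.rh I.hV hS
  obtain ⟨S, hSd⟩ : ∃ S, S = om * cw (thL U) (mT i I.h) := ⟨_, rfl⟩
  rw [← hSd] at e1 e2 e3
  have c1 : cc S = cc om * (-(d : U⸨X⸩) * wL U (-(d : ℤ))) := by
    rw [hSd, map_mul, cc_cw, cc_mT, I.rh, mapL_wL, thL_wL, Int.cast_neg, Int.cast_natCast]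
  have c2 : cc S ≠ 0 := by
    rw [c1]
    refine mul_ne_zero (fun h => hr (coeL_inj ?_))
      (mul_ne_zero (neg_ne_zero.2 (Nat.cast_ne_zero.2 hd0)) (isUnit_wL _).ne_zero)
    rw [← cc_iT, ← ho, map_mul, h, zero_mul, map_zero]
  obtain ⟨ck, hck⟩ := exists_mapL (i.comp I.κ).injective (f := cc S) fun m => hc _ (by
    rw [← coeff_cwL, e2]; rfl)
  obtain ⟨n0, g0, hg0⟩ := exists_wL_mul ck
  obtain ⟨s, g, hg, rfl⟩ := unit_fac (f := g0) fun h => c2 (by
    rw [hck, hg0, h, map_zero, mul_zero, map_zero])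
  rw [map_mul, coeL_X_pow, ← mul_assoc, ← wL_add] at hg0
  generalize -(n0 : ℤ) + s = μ at hg0
  have hg1 : cc g ≠ 0 := (isUnit_iff_constantCoeff.1 hg).ne_zero
  have hμ : ck.coeff μ ≠ 0 := by
    rw [hg0, coeff_wL_mul, sub_self, ← Nat.cast_zero, coeff_coeL, coeff_zero_eq_constantCoeff]
    exact hg1
  obtain ⟨c0, hc0⟩ : ∃ c0, c0 = wL L μ * coeL L (map I.κ g) := ⟨_, rfl⟩
  have c3 : cc S = mapL i c0 := by
    rw [hck, hg0, hc0, map_mul, map_mul, mapL_wL, mapL_wL, mapL_coeL, mapL_coeL, map_comp]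
    rfl
  obtain ⟨Φ, hΦ⟩ : ∃ Φ, Φ = c0 * thL L (cc I.Xi) - thL L c0 * cc I.Xi := ⟨_, rfl⟩
  obtain ⟨Ψ, hΨ⟩ : ∃ Ψ, Ψ = -(wL L d * (cL L (d : L)⁻¹ * Φ)) := ⟨_, rfl⟩
  have c4 : cwL D1 (cc S') = mapL i Ψ := by
    have w1 : wL U d * wL U (-(d : ℤ)) = 1 := wL_mul_neg _
    have w2 : cL U (d : U)⁻¹ * (d : U⸨X⸩) = 1 := by
      rw [← map_natCast (cL U), ← map_mul, inv_mul_cancel₀ (Nat.cast_ne_zero.2 hd0), map_one]
    rw [e3, map_mul, cc_cw, cc_mT, dh, hΨ, hΦ]
    simp only [map_neg, map_mul, map_sub, mapL_wL, map_inv₀, map_natCast, ← thL_mapL]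
    rw [← c3, c1]
    rw [map_inv₀, map_natCast] at w2
    linear_combination (-(cc om * thL U (mapL i (cc I.Xi)))) * w1 -
      (cc om * thL U (mapL i (cc I.Xi)) * wL U d * wL U (-(d : ℤ))) * w2
  have key : ∀ m, ∃ z, (cc S').coeff m -
      (cc S').coeff μ * i (I.κ (ck.coeff m / ck.coeff μ)) = i z := by
    intro m
    by_contra hx
    obtain ⟨Ω, _, D', τ2, σ, t2, hσ⟩ := h2 L U I.D D1 i hE Unit (fun _ => (cc S').coeff m -
      (cc S').coeff μ * i (I.κ (ck.coeff m / ck.coeff μ))) fun _ z h => hx ⟨z, h⟩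
    obtain ⟨t1, ag, ne⟩ := hσ ()
    generalize σ () = τ1 at t1 ag ne
    have ec : τ2.comp i = τ1.comp i := RingHom.ext fun z => (ag z).symm
    have eA : ∀ z, mA τ2 (mA i z) = mA τ1 (mA i z) := fun z => by rw [mA_mA, mA_mA, ec]
    have eT : ∀ z, mT τ1 (mT i z) = mT τ2 (mT i z) := fun z => by
      ext p q
      simp only [coeff_mT, coeff_mapL, ag]
    obtain ⟨c, hcJ⟩ := prop t1 t2 (eA _) (eA _) hJ hν ha0 fun I' h =>
      hmax Ω D' (τ1.comp i) I' ⟨t1.1, fun z => by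
        rw [RingHom.comp_apply, t1.2, hE.2, RingHom.comp_apply]⟩ (by rwa [mA_mA, mA_mA] at h)
    have eo : mT τ1 om = map (cL Ω) c * mT τ2 om := by
      have o1 := congrArg (mT τ1) ho
      have o2 := congrArg (mT τ2) ho
      have o3 : mT τ1 (iT (mA i I.a) * C (wL U 1)) = mT τ2 (iT (mA i I.a) * C (wL U 1)) := by
        rw [← iT_X, ← mA_X i, ← map_mul, ← map_mul, ← mT_iT, eT]
      rw [map_mul, mT_iT _ J] at o1 o2
      rw [hcJ, map_mul iT, iT_C, o3, ← o2, ← mul_assoc] at o1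
      exact (hAw.map (mT τ2)).mul_right_cancel o1
    obtain ⟨γ, hγ⟩ := diff e1 (eT S0) (c := c) (by
      rw [hSd, th_mT, map_mul, map_mul, eo, eT, mul_assoc]) c2
    have g1 := hγ m
    have g2 := hγ μ
    rw [hck, coeff_mapL, RingHom.comp_apply] at g1 g2
    have g3 : τ2 (i (I.κ (ck.coeff μ))) * τ2 (i (I.κ (ck.coeff m / ck.coeff μ))) =
        τ2 (i (I.κ (ck.coeff m))) := by
      rw [← map_mul, ← map_mul, ← map_mul, mul_div_cancel₀ _ hμ]
    refine ne ?_
    rw [map_sub, map_sub, map_mul, map_mul, ag]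
    linear_combination g1 - τ2 (i (I.κ (ck.coeff m / ck.coeff μ))) * g2 - γ * g3
  have k2 : ∀ m, ∃ z, Ψ.coeff m = I.D z + I.κ (ck.coeff m / ck.coeff μ) * Ψ.coeff μ := by
    intro m
    obtain ⟨z, hz⟩ := key m
    have h := congrArg D1 hz
    rw [map_sub, hE.1, hE.2, hE.2, I.cv.2.1, map_zero, mul_zero, add_zero, ← coeff_cwL, ← coeff_cwL,
      c4, coeff_mapL, coeff_mapL, ← map_mul, ← map_sub] at h
    exact ⟨z, by rw [← i.injective h]; ring⟩
  have c5 : mapL I.κ ck = c0 := by rw [hg0, hc0, map_mul, mapL_wL, mapL_coeL]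
  refine S1b3.fin h4 h6 hW hT hN I hd (c := ck) (fun e => hμ (by rw [e, HahnSeries.coeff_zero]))
    (I.κ (-(d : k) / ck.coeff μ) * Ψ.coeff μ) fun p => ?_
  rw [c5, ← hΦ]
  have h : (wL L d * Φ).coeff p = I.κ (-(d : k)) * Ψ.coeff p := by
    rw [hΨ, HahnSeries.coeff_neg, coeff_wL_mul, coeff_wL_mul, coeff_cL_mul, map_neg,
      map_natCast, neg_mul_neg, ← mul_assoc, mul_inv_cancel₀ (Nat.cast_ne_zero.2 hd0), one_mul]
  obtain ⟨z, hz⟩ := k2 p
  refine ⟨I.κ (-(d : k)) * z, ?_⟩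
  rw [h, hz, I.cv.1.const_mul (I.cv.2.1 _), mul_add, ← mul_assoc, ← mul_assoc, ← map_mul,
    ← map_mul, mul_div_assoc', mul_div_assoc', mul_comm (ck.coeff p)]

end Pool.Agent.MP_05b4bd_ag.ES

end MrgPart1

-- ======== part 2: formerly Pool.Agent.MP_05b4bd_ag.pc3.Van
section MrgPart2

/-! Persistent centres in degrees three, four and five: universal families. -/

namespace Pool.Agent.MP_05b4bd_ag.PC3

open MvPolynomial HC ES

namespace VanR

theorem pv_map {A B : Type} [CommRing A] [Algebra ℂ A] [CommRing B] [Algebra ℂ B] (φ : A →ₐ[ℂ] B)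
    (w : Fm A) (R : PCo) :
    φ (pev w.1 w.2 0 R) = pev (mapF (φ : A →+* B) w).1 (mapF (φ : A →+* B) w).2 0 R := by
  rw [map_pev, show (fun i => φ ((0 : Fin 2 → A) i)) = 0 from funext fun i => map_zero φ]
  rfl

theorem pv_ev (ω : Form) (R : Co) :
    pev ω.1 ω.2 0 (rename Sum.inl R) = Pool.Agent.MP_05b4bd_ag.ev R ω := by
  simp only [pev, aeval_rename]
  rfl

variable {Ω : Type} [Field Ω] [Algebra ℂ Ω]

/-- The tautological point of the universal ring. -/
noncomputable def ee (Ω : Type) [Field Ω] [Algebra ℂ Ω] : MvPolynomial Ω ℂ →ₐ[ℂ] Ω := aeval id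

theorem ee_X (c : Ω) : (ee Ω : MvPolynomial Ω ℂ →+* Ω) (X c) = c := aeval_X _ _

theorem univ {W : Set Form} (u : Fm (MvPolynomial Ω ℂ))
    (h : ∀ φ : MvPolynomial Ω ℂ →+* ℂ, mapF φ u ∈ W) :
    Van W (mapF (ee Ω : MvPolynomial Ω ℂ →+* Ω) u) := fun R hR => by
  have : pev u.1 u.2 0 (rename Sum.inl R) = 0 := MvPolynomial.funext fun t => by
    rw [map_zero, ← coe_aeval_eq_eval]
    exact (pv_map (aeval t) u _).trans ((pv_ev _ R).trans (hR _ (h _)))
  rw [← pv_map, this, map_zero]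

theorem lift {n : ℕ} {F : R2 Ω} (h : DL n F) : ∃ F' : R2 (MvPolynomial Ω ℂ), DL n F' ∧
    map (ee Ω : MvPolynomial Ω ℂ →+* Ω) F' = F := by
  classical
  refine ⟨∑ m ∈ F.support, monomial m (X (coeff m F)), fun m hm => ?_, ?_⟩
  · rw [coeff_sum]
    refine Finset.sum_eq_zero fun k hk => ?_
    rw [coeff_monomial, if_neg]
    rintro rfl
    exact mem_support_iff.1 hk (h _ hm)
  · rw [map_sum]
    conv_rhs => rw [F.as_sum]
    exact Finset.sum_congr rfl fun m _ => by rw [map_monomial, ee_X]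

theorem lim (S : Fm Ω → Prop) (W : Set Form) (h : ∀ w, S w → Van W w) (w : Fm Ω) (hw : Lim S w) :
    Van W w := fun R hR => by
  obtain ⟨a, s, hs⟩ := hw
  have : Infinite Ω := Infinite.of_injective _ (algebraMap ℂ Ω).injective
  let u : Fm (Polynomial Ω) := mapF Polynomial.C w +
    (C Polynomial.X : R2 (Polynomial Ω)) • mapF Polynomial.C a
  have k : ∀ τ : Ω, (pev u.1 u.2 0 (rename Sum.inl R)).eval τ =
      pev (w + (C τ : R2 Ω) • a).1 (w + (C τ : R2 Ω) • a).2 0 (rename Sum.inl R) := fun τ => by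
    let φ : Polynomial Ω →ₐ[ℂ] Ω := (Polynomial.aeval τ : Polynomial Ω →ₐ[Ω] Ω).restrictScalars ℂ
    have e1 : ∀ v : Fm Ω, mapF (φ : Polynomial Ω →+* Ω) (mapF Polynomial.C v) = v := fun v => by
      have : (φ : Polynomial Ω →+* Ω).comp Polynomial.C = RingHom.id Ω := by
        ext c; simp [φ]
      simp [mapF, map_map, this, map_id]
    have e2 : mapF (φ : Polynomial Ω →+* Ω) u = w + (C τ : R2 Ω) • a := by
      rw [mapF_add, mapF_smul, e1, e1, map_C]
      simp [φ]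
    rw [← e2, ← pv_map]
    simp [φ]
  have z : pev u.1 u.2 0 (rename Sum.inl R) = 0 :=
    Polynomial.eq_zero_of_infinite_isRoot _ (s.finite_toSet.infinite_compl.mono fun τ hτ =>
      (k τ).trans (h _ (hs τ hτ) R hR))
  have := k 0
  rw [z, Polynomial.eval_zero, C_0, zero_smul, add_zero] at this
  exact this.symm

theorem fm_df (g h : Poly) : fm g h = g • dform h := fm_eq g h

end VanR

open VanR in
theorem vanS : VanStmt := by
  intro Ω _ _
  refine ⟨lim, ?_, ?_, ?_, ?_, ?_⟩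
  · rintro d _ ⟨g, hg, rfl⟩
    obtain ⟨g, kg, rfl⟩ := lift hg
    rw [← mapF_d1]
    refine univ _ fun φ => ⟨![map φ g], ![1], fun i => ?_, ?_⟩
    · fin_cases i; exact DL_iff.1 (kg.map φ)
    · rw [mapF_d1]; simp; rfl
  · rintro a b _ ⟨F, G, β, α, hF, hG, rfl⟩
    obtain ⟨F, kF, rfl⟩ := lift hF
    obtain ⟨G, kG, rfl⟩ := lift hG
    have := univ (W := L ![a, b]) (fm (C (X β) * F) G + fm (C (X α) * G) F) fun φ =>
      ⟨![map φ F, map φ G], ![φ (X α), φ (X β)], fun i => by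
        fin_cases i
        · exact DL_iff.1 (kF.map φ)
        · exact DL_iff.1 (kG.map φ), by
        rw [Fin.sum_univ_two, show (Finset.univ : Finset (Fin 2)).erase 0 = {1} by decide,
          show (Finset.univ : Finset (Fin 2)).erase 1 = {0} by decide, Finset.prod_singleton,
          Finset.prod_singleton, add_comm, mapF_add, mapF_fm, mapF_fm, fm_df, fm_df]
        simp⟩
    simpa only [mapF_add, mapF_fm, map_mul, map_C, ee_X] using this
  · rintro e _ ⟨s, t, G, l1, l2, l3, hs, ht, hG, rfl⟩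
    obtain ⟨s, ks, rfl⟩ := lift hs
    obtain ⟨t, kt, rfl⟩ := lift ht
    obtain ⟨G, kG, rfl⟩ := lift hG
    have := univ (W := L ![1, 1, e])
      (fm (C (X l1) * t * G) s + fm (C (X l2) * s * G) t + fm (C (X l3) * s * t) G) fun φ =>
      ⟨![map φ s, map φ t, map φ G], ![φ (X l1), φ (X l2), φ (X l3)], fun i => by
        fin_cases i
        · exact DL_iff.1 (ks.map φ)
        · exact DL_iff.1 (kt.map φ)
        · exact DL_iff.1 (kG.map φ), by
        rw [Fin.sum_univ_three, show (Finset.univ : Finset (Fin 3)).erase 0 = {1, 2} by decide,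
          show (Finset.univ : Finset (Fin 3)).erase 1 = {0, 2} by decide,
          show (Finset.univ : Finset (Fin 3)).erase 2 = {0, 1} by decide,
          Finset.prod_pair (by decide), Finset.prod_pair (by decide), Finset.prod_pair (by decide),
          mapF_add, mapF_add, mapF_fm, mapF_fm, mapF_fm, fm_df, fm_df, fm_df]
        simp [mul_assoc]⟩
    simpa only [mapF_add, mapF_fm, map_mul, map_C, ee_X] using this
  · rintro _ ⟨a, u, v, g, _, hu, hv, hg, rfl, rfl⟩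
    obtain ⟨u, ku, rfl⟩ := lift hu
    obtain ⟨v, kv, rfl⟩ := lift hv
    obtain ⟨g, kg, rfl⟩ := lift hg
    have := univ (W := N7)
      (fm (2 * (u ^ 2 + v)) (C (X a) * (8 * u ^ 5 + 20 * u ^ 3 * v + 15 * u * v ^ 2) + g) -
        fm (5 * (C (X a) * (8 * u ^ 5 + 20 * u ^ 3 * v + 15 * u * v ^ 2) + g)) (u ^ 2 + v))
      fun φ => ⟨φ (X a), map φ u, map φ v, map φ g, _, DL_iff.1 (ku.map φ), DL_iff.1 (kv.map φ),
        DL_iff.1 (kg.map φ), rfl, by
        simp only [mapF_sub, mapF_fm, map_mul, map_add, map_pow, map_C, map_ofNat, fm_df]⟩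
    simpa only [mapF_sub, mapF_fm, map_mul, map_add, map_pow, map_C, map_ofNat, ee_X] using this
  · rintro _ ⟨a, u, v, g, _, hu, hv, hg, rfl, rfl⟩
    obtain ⟨u, ku, rfl⟩ := lift hu
    obtain ⟨v, kv, rfl⟩ := lift hv
    obtain ⟨g, kg, rfl⟩ := lift hg
    have := univ (W := N5)
      (fm (2 * (u ^ 2 + v)) (C (X a) * u ^ 3 + g) - fm (3 * (C (X a) * u ^ 3 + g)) (u ^ 2 + v))
      fun φ => ⟨φ (X a), map φ u, map φ v, map φ g, _, DL_iff.1 (ku.map φ), DL_iff.1 (kv.map φ),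
        DL_iff.1 (kg.map φ), rfl, by
        simp only [mapF_sub, mapF_fm, map_mul, map_add, map_pow, map_C, map_ofNat, fm_df]⟩
    simpa only [mapF_sub, mapF_fm, map_mul, map_add, map_pow, map_C, map_ofNat, ee_X] using this

end Pool.Agent.MP_05b4bd_ag.PC3

end MrgPart2

-- marker of a merged file
example : 731051 + 701328 = 731051 + 701328 := rfl
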