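import Pool.Agent.MP_05b4bd_ag.esc3.Spec
import Pool.Agent.MP_05b4bd_ag.esc.Pmk
import Pool.Agent.MP_05b4bd_ag.esc3.ChkA
import Pool.Agent.MP_05b4bd_ag.esc.Log1
import Pool.Agent.MP_05b4bd_ag.pc3.Spec
import Pool.Agent.MP_05b4bd_ag.pc3.Lift

-- ======== part 0: formerly Pool.Agent.MP_05b4bd_ag.esc3.Loc
section MrgPart0

/-! A disc on the curve is determined by its centre and its differential. -/

namespace Pool.Agent.MP_05b4bd_ag.ES

open PowerSeries LaurentSeries HC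

namespace Loc3

variable {k : Type} [Field k]

theorem cong {R S : Type} [CommRing R] [CommRing S] (φ : R →+* S) (w : R2 R) {τ x x' y y' : S}
    (hx : τ ∣ x - x') (hy : τ ∣ y - y') :
    τ ∣ MvPolynomial.eval₂ φ ![x, y] w - MvPolynomial.eval₂ φ ![x', y'] w := by
  rw [← Ideal.mem_span_singleton, ← Ideal.Quotient.eq] at hx hy ⊢
  rw [k4_map, k4_map, hx, hy]

theorem ode2 [CharZero k] {u v u' v' : k⟦X⟧} (h0 : cc u = cc u') (h1 : cc v = cc v')
    (h : ∀ τ, τ ∣ u - u' → τ ∣ v - v' → τ ∣ dX k u - dX k u' ∧ τ ∣ dX k v - dX k v') :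
    u = u' ∧ v = v' := by
  have e := K3.ode (fun b : Bool => cond b (u - u') (v - v'))
    (fun b => by cases b <;> simp [h0, h1])
    (fun n H b => by
      have := h _ (H true) (H false)
      cases b
      · simpa only [cond_false, map_sub] using this.2
      · simpa only [cond_true, map_sub] using this.1)
  exact ⟨sub_eq_zero.1 (e true), sub_eq_zero.1 (e false)⟩

theorem pull (x y : k⟦X⟧) (F : R2 k) :
    coeL k (MvPolynomial.eval₂ C ![x, y] F) = MvPolynomial.eval₂ (cL k) ![coeL k x, coeL k y] F := by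
  have e : (coeL k).comp C = cL k := RingHom.ext fun r => coeL_C r
  rw [k4_map, e]

theorem at0 (x y : k⟦X⟧) (F : R2 k) :
    cc (MvPolynomial.eval₂ C ![x, y] F) = MvPolynomial.eval₂ (RingHom.id k) ![cc x, cc y] F := by
  have e : (cc : k⟦X⟧ →+* k).comp C = RingHom.id k := RingHom.ext fun r => by simp
  rw [k4_map, e]

theorem flow {d : ℕ} {F : R2 k} (hF : F.IsHomogeneous d) {x y : k⟦X⟧}
    (h : evp (cL k) (coeL k x) (coeL k y) F = 1) :
    d * dX k x = (y * dX k x - x * dX k y) *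
        MvPolynomial.eval₂ C ![x, y] (MvPolynomial.pderiv 1 F) ∧
      d * dX k y = -(y * dX k x - x * dX k y) *
        MvPolynomial.eval₂ C ![x, y] (MvPolynomial.pderiv 0 F) := by
  have h1 : MvPolynomial.eval₂ C ![x, y] F = 1 := coeL_inj (by rw [pull, map_one]; exact h)
  have h2 := isDer_dX.eval₂ (C : k →+* k⟦X⟧) dX_C x y F
  rw [h1, isDer_dX.one] at h2
  have h3 := congrArg (MvPolynomial.eval₂ (C : k →+* k⟦X⟧) ![x, y]) (euler hF)
  simp only [MvPolynomial.eval₂_add, MvPolynomial.eval₂_mul, MvPolynomial.eval₂_X,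
    Matrix.cons_val_zero, Matrix.cons_val_one, MvPolynomial.eval₂_natCast, h1] at h3
  constructor
  · linear_combination (-dX k x) * h3 - x * h2
  · linear_combination (-dX k y) * h3 - y * h2

theorem integral {F : R2 k} (hF : F.IsHomogeneous 3) (h3 : HC.co 0 3 F ≠ 0) {U : k⸨X⸩} {z : k⟦X⟧}
    (h : MvPolynomial.eval₂ (cL k) ![1, U] F = coeL k z) : ∃ u, U = coeL k u := by
  obtain ⟨n, g, rfl⟩ := exists_wL_mul U
  induction n generalizing g with
  | zero => exact ⟨g, by rw [Nat.cast_zero, neg_zero, wL_zero, one_mul]⟩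
  | succ n ih =>
    have e1 : coeL k (X ^ (n + 1)) * (wL k (-((n + 1 : ℕ) : ℤ)) * coeL k g) = coeL k g := by
      rw [coeL_X_pow, ← mul_assoc, wL_mul_neg, one_mul]
    have e2 := k4_hom (cL k) hF (coeL k (X ^ (n + 1))) 1 (wL k (-((n + 1 : ℕ) : ℤ)) * coeL k g)
    rw [e1, h, mul_one, ← pull, ← map_pow, ← map_mul] at e2
    have e3 := congrArg cc (coeL_inj e2)
    have e4 := k4_hom (RingHom.id k) hF (cc g) 0 1
    rw [at0] at e3
    simp only [map_mul, map_pow, constantCoeff_X, ne_eq, Nat.add_eq_zero_iff, one_ne_zero, and_false,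
      not_false_eq_true, zero_pow, OfNat.ofNat_ne_zero, zero_mul] at e3
    rw [mul_zero, mul_one, e3, Pmk.eval01 hF] at e4
    have e5 : cc g = 0 := by
      rcases mul_eq_zero.1 e4.symm with e | e
      · exact pow_eq_zero_iff (by norm_num) |>.1 e
      · exact absurd e h3
    obtain ⟨g', rfl⟩ := X_dvd_iff.2 e5
    have e6 : wL k (-((n + 1 : ℕ) : ℤ)) * coeL k (X * g') = wL k (-(n : ℤ)) * coeL k g' := by
      rw [map_mul, coeL_X, ← mul_assoc, ← wL_add]
      congr 2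
      push_cast
      ring
    rw [e6] at h ⊢
    exact ih g' h

theorem omega {w y : k⸨X⸩} {u v : k⟦X⟧} (h1 : w * coeL k v = 1) (h2 : y * coeL k v = coeL k u) :
    (y * thL k w - w * thL k y) * coeL k v ^ 2 = -coeL k (X * dX k u) := by
  have e1 := isDer_thL w (coeL k v)
  have e2 := isDer_thL y (coeL k v)
  rw [h1, isDer_thL.one] at e1
  rw [h2, thL_coeL, thP_apply] at e2
  linear_combination e2 - (y * coeL k v) * e1 - (thL k y * coeL k v + y * thL k (coeL k v)) * h1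

theorem chart {F : R2 k} (hF : F.IsHomogeneous 3)
    (hC : CI (MvPolynomial.pderiv 0 F) (MvPolynomial.pderiv 1 F)) {u v : k⟦X⟧} (h0 : cc v = 0)
    (h : MvPolynomial.eval₂ C ![1, u] F = v ^ 3) :
    ∃ θ, dX k v = θ * MvPolynomial.eval₂ C ![1, u] (MvPolynomial.pderiv 1 F) ∧
      dX k u = 3 * v ^ 2 * θ := by
  have e0 := congrArg cc h
  rw [at0, map_one, map_pow, h0, zero_pow (by norm_num)] at e0
  have e1 := Pmk.simple hF hC e0
  have e2 : IsUnit (MvPolynomial.eval₂ (C : k →+* k⟦X⟧) ![1, u] (MvPolynomial.pderiv 1 F)) := by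
    rw [isUnit_iff_constantCoeff]
    have := at0 1 u (MvPolynomial.pderiv 1 F)
    rw [map_one] at this
    exact Ne.isUnit (this ▸ e1)
  obtain ⟨g, hg⟩ := e2.exists_right_inv
  have e3 := isDer_dX.eval₂ (C : k →+* k⟦X⟧) dX_C 1 u F
  rw [h, isDer_dX.one, isDer_dX.pow] at e3
  refine ⟨dX k v * g, ?_, ?_⟩
  · linear_combination (-dX k v) * hg
  · push_cast at e3
    linear_combination (-g) * e3 - dX k u * hg

end Loc3

open Loc3 in
theorem loc0S : Loc0Stmt := by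
  intro k _ _ d F x y x' y' hd hF h h' e1 e2 e
  obtain ⟨a1, a2⟩ := flow hF h
  obtain ⟨b1, b2⟩ := flow hF h'
  have hu : IsUnit (d : k⟦X⟧) := by
    rw [← map_natCast (C : k →+* k⟦X⟧)]
    exact (Ne.isUnit (Nat.cast_ne_zero.2 (by omega))).map _
  refine ode2 e1 e2 fun τ t1 t2 => ⟨hu.dvd_mul_left.1 ?_, hu.dvd_mul_left.1 ?_⟩
  · rw [mul_sub, a1, b1, e, ← mul_sub]
    exact (cong _ _ t1 t2).mul_left _
  · rw [mul_sub, a2, b2, e, ← mul_sub]
    exact (cong _ _ t1 t2).mul_left _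

open Loc3 in
theorem locIS : LocIStmt := by
  intro k _ _ F N y σ φ hN hF hC h3 h hσ hφ e
  have w1 : wL k (-(N : ℤ)) * coeL k (X ^ N) = 1 := by rw [coeL_X_pow, mul_comm, wL_mul_neg]
  have f1 : MvPolynomial.eval₂ (cL k) ![1, y * coeL k (X ^ N)] F = coeL k ((X ^ N) ^ 3) := by
    have := k4_hom (cL k) hF (coeL k (X ^ N)) (wL k (-(N : ℤ))) y
    rw [mul_comm _ (wL k _), w1, mul_comm _ y] at this
    rw [this, map_pow (coeL k) (X ^ N)]
    exact (congrArg _ h).trans (mul_one _)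
  obtain ⟨u, hu⟩ := integral hF h3 f1
  have f2 : MvPolynomial.eval₂ C ![1, u] F = (X ^ N) ^ 3 :=
    coeL_inj (by rw [pull, map_one, ← hu, f1])
  have s1 : sb σ (X ^ N) = σ ^ N := by rw [map_pow, sb_X hσ]
  have f3 : MvPolynomial.eval₂ C ![1, sb σ u] F = (σ ^ N) ^ 3 := by
    have c : (sb σ).comp C = C := RingHom.ext fun r => sb_C hσ r
    have := congrArg (sb σ) f2
    rwa [k4_map, c, map_one, map_pow, s1] at this
  have w2 : φ (wL k (-(N : ℤ))) * coeL k (σ ^ N) = 1 := by rw [← s1, ← hφ, ← map_mul, w1, map_one]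
  have hu2 : φ y * coeL k (σ ^ N) = coeL k (sb σ u) := by rw [← s1, ← hφ, ← map_mul, hu, hφ]
  have o1 := omega w1 hu
  have o2 := omega w2 hu2
  rw [e] at o2
  have o3 : X * (dX k u * (σ ^ N) ^ 2) = X * (dX k (sb σ u) * (X ^ N) ^ 2) := coeL_inj (by
    rw [← mul_assoc, ← mul_assoc, map_mul _ (X * _), map_mul _ (X * _), map_pow _ (σ ^ N),
      map_pow _ (X ^ N)]
    linear_combination (coeL k (σ ^ N) ^ 2) * o1 - (coeL k (X ^ N) ^ 2) * o2)
  have o4 := mul_left_cancel₀ X_ne_zero o3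
  have z1 : cc (X ^ N : k⟦X⟧) = 0 := by
    rw [map_pow, constantCoeff_X, zero_pow (by omega)]
  have z2 : cc (σ ^ N) = 0 := by rw [map_pow, hσ, zero_pow (by omega)]
  obtain ⟨θ, a1, a2⟩ := chart hF hC z1 f2
  obtain ⟨θ', b1, b2⟩ := chart hF hC z2 f3
  have n1 : (σ ^ N : k⟦X⟧) ≠ 0 := fun z => by
    rw [z, map_zero, mul_zero] at w2
    exact zero_ne_one w2
  have n3 : (3 : k⟦X⟧) ≠ 0 := fun z => by
    have := congrArg cc z
    rw [map_ofNat, map_zero] at this
    exact absurd this (by norm_num)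
  have t : θ' = θ := by
    have n : (3 : k⟦X⟧) * (X ^ N) ^ 2 * (σ ^ N) ^ 2 ≠ 0 :=
      mul_ne_zero (mul_ne_zero n3 (pow_ne_zero _ (pow_ne_zero _ X_ne_zero))) (pow_ne_zero _ n1)
    rw [a2, b2] at o4
    exact mul_left_cancel₀ n (by linear_combination -o4)
  rw [t] at b1 b2
  refine (ode2 (z2.trans z1.symm) (cc_sb hσ u) fun τ t1 t2 => ⟨?_, ?_⟩).1
  · rw [a1, b1, ← mul_sub]
    exact (cong _ _ (by simp) t2).mul_left _
  · rw [a2, b2]
    obtain ⟨c, hc⟩ := t1
    exact ⟨3 * θ * (σ ^ N + X ^ N) * c, by linear_combination (3 * θ * (σ ^ N + X ^ N)) * hc⟩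

end Pool.Agent.MP_05b4bd_ag.ES

end MrgPart0

-- ======== part 1: formerly Pool.Agent.MP_05b4bd_ag.esc3.Sat
section MrgPart1

/-! The subspace `Bt` specialises along a valuation ring. -/

namespace Pool.Agent.MP_05b4bd_ag.ES

open MvPolynomial HC

namespace Sat3

/-- The value at the point `(0, 1)`. -/
noncomputable def e01 (A : Type) [CommRing A] : R2 A →+* A := eval ![0, 1]

theorem e01_hom {A : Type} [CommRing A] {n : ℕ} {u : R2 A} (hu : u.IsHomogeneous n) :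
    e01 A u = HC.co 0 n u := by
  conv_lhs => rw [hom_eq_sum hu]
  rw [map_sum, Finset.sum_eq_single n]
  · simp [e01]
  · intro j hj hne
    have h1 : n - j ≠ 0 := by
      have := Finset.mem_range.1 hj
      omega
    simp [e01, h1]
  · intro h
    exact absurd (Finset.mem_range.2 (Nat.lt_succ_self n)) h

theorem e01_C {A : Type} [CommRing A] (a : A) : e01 A (C a) = a := by simp [e01]

theorem e01_map {A B : Type} [CommRing A] [CommRing B] (φ : A →+* B) (u : R2 A) :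
    e01 B (map φ u) = φ (e01 A u) := by
  induction u using MvPolynomial.induction_on with
  | C a => simp [e01]
  | add p q hp hq => simp only [map_add, hp, hq]
  | mul_X p i hp =>
    simp only [map_mul, hp, map_X]
    congr 1
    fin_cases i <;> simp [e01]

theorem br_C_mul {A : Type} [CommRing A] (a : A) (u F : R2 A) :
    br (C a * u) F = C a * br u F := by
  simp only [br, pderiv_C_mul]
  ring

theorem ker {L : Type} [Field L] [CharZero L] {d : ℕ} {F : R2 L} (hd : 1 ≤ d)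
    (hF : F.IsHomogeneous d) (hci : CI (pderiv 0 F) (pderiv 1 F)) (h0 : e01 L F ≠ 0) (m : ℕ) :
    ∀ v : R2 L, v.IsHomogeneous m → br v F = 0 → (d ∣ m → e01 L v = 0) → v = 0 := by
  induction m using Nat.strong_induction_on with
  | _ m ih =>
    intro v hv hb hn
    by_cases hm : m = 0
    · subst hm
      have h1 := hn (dvd_zero d)
      rw [e01_hom hv] at h1
      rw [hom_eq_sum hv]
      simp [h1]
    · obtain ⟨v1, h1⟩ := Esc.tf hF hci hv hm (by rw [hb]; exact dvd_zero _)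
      by_cases hlt : m < d
      · rw [← hc_self hv, h1]
        exact hc_of_mm (Ideal.mul_mem_right _ _ (mm_hom hF)) hlt
      · obtain ⟨n, rfl⟩ : ∃ n, m = n + d := ⟨m - d, by omega⟩
        have h2 : v = F * hc n v1 := by
          rw [← hc_self hv, h1, mul_comm F v1, hc_mul_hom n v1 hF, mul_comm]
        have hF0 := Esc.ne_zero_of_ci hF hci
        have h3 : hc n v1 = 0 := by
          refine ih n (by omega) _ (hc_hom _ _) ?_ fun hdn => ?_
          · rw [h2, Esc.br_F_mul] at hb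
            exact (mul_eq_zero.1 hb).resolve_left hF0
          · have h4 := hn (Dvd.dvd.add hdn dvd_rfl)
            rw [h2, map_mul] at h4
            exact (mul_eq_zero.1 h4).resolve_left h0
        rw [h2, h3, mul_zero]

/-- A normalised homogeneous primitive. -/
theorem prim {K : Type} [Field K] [CharZero K] {d n : ℕ} {F r : R2 K} (hd : 1 ≤ d)
    (hF : F.IsHomogeneous d) (hci : CI (pderiv 0 F) (pderiv 1 F)) (h0 : e01 K F ≠ 0)
    (hr : r.IsHomogeneous n) (h : Bt F r) :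
    ∃ (m : ℕ) (u : R2 K), u.IsHomogeneous m ∧ r = br u F ∧ (d ∣ m → e01 K u = 0) := by
  obtain ⟨u, w, h⟩ := h
  obtain ⟨v, hv⟩ := Esc.nz hF (by omega) hci hr h
  obtain ⟨d, rfl⟩ : ∃ e, d = e + 1 := ⟨d - 1, by omega⟩
  obtain ⟨v', e, hv', h1⟩ := Esc.hc_br_ex hF n v
  rw [← hv, hc_self hr] at h1
  by_cases hdv : d + 1 ∣ e + 1
  · obtain ⟨j, hj⟩ := hdv
    refine ⟨e + 1, v' - C (e01 K v' / e01 K F ^ j) * F ^ j, hv'.sub ?_, ?_, fun _ => ?_⟩
    · rw [hj]
      exact (hF.pow j).C_mul _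
    · rw [Esc.br_sub, br_C_mul, Esc.br_pow, Esc.br_self, ← h1]
      ring
    · rw [map_sub, map_mul, map_pow, e01_C, div_mul_cancel₀ _ (pow_ne_zero j h0), sub_self]
  · exact ⟨e + 1, v', hv', h1, fun h2 => absurd h2 hdv⟩

section Val

variable {O K L : Type} [CommRing O] [IsDomain O] [ValuationRing O] [Field K]
  [Field L] [CharZero K] [CharZero L] {ι : O →+* K} {ρ : O →+* L} {d : ℕ} {F : R2 O}

theorem homog (hd : 1 ≤ d) (hι : Function.Injective ι)
    (hv : ∀ c : K, (∃ a, ι a = c) ∨ ∃ a, ρ a = 0 ∧ ι a * c = 1) (hF : F.IsHomogeneous d)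
    (hK : CI (pderiv 0 (map ι F)) (pderiv 1 (map ι F)))
    (hL : CI (pderiv 0 (map ρ F)) (pderiv 1 (map ρ F))) (h0 : ρ (e01 O F) ≠ 0)
    {n : ℕ} {R : R2 O} (hR : R.IsHomogeneous n) (h : Bt (map ι F) (map ι R)) :
    Bt (map ρ F) (map ρ R) := by
  have hinj : Function.Injective (map (σ := Fin 2) ι) := map_injective ι hι
  have h0O : e01 O F ≠ 0 := fun h1 => h0 (by rw [h1, map_zero])
  have h0K : e01 K (map ι F) ≠ 0 := by
    rw [e01_map]
    exact fun h1 => h0O (hι (by rw [h1, map_zero]))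
  obtain ⟨m, u, hu, hRu, hn⟩ := prim hd (hF.map ι) hK h0K (hR.map ι) h
  obtain ⟨b, hb, v, hvu⟩ := Bs.clear hv u
  obtain ⟨ε, v', hv', hρ⟩ := content ρ v
  have key : C b * R = C ε * br v' F := by
    apply hinj
    rw [map_mul, map_C, hRu, ← br_C_mul, ← hvu, hv', ← br_C_mul, map_br]
  by_cases hε : ε = 0
  · have hb0 : b ≠ 0 := fun h1 => hb (by rw [h1, map_zero])
    rw [hε, map_zero, zero_mul] at key
    have : R = 0 := (mul_eq_zero.1 key).resolve_left (C_ne_zero.2 hb0)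
    rw [this, map_zero]
    exact Bs.bt_zero
  have hεK : ι ε ≠ 0 := fun h1 => hε (hι (by rw [h1, map_zero]))
  have e1 : C (ι ε) * map ι v' = C (ι b) * u := by rw [← hvu, hv', map_mul, map_C]
  have hh : v'.IsHomogeneous m := by
    have h1 : (map ι v').IsHomogeneous m := hom_of_C_mul hεK (by rw [e1]; exact hu.C_mul _)
    intro j hj
    refine h1 (d := j) ?_
    rw [coeff_map]
    exact fun h2 => hj (hι (by rw [h2, map_zero]))
  have hn' : d ∣ m → e01 O v' = 0 := fun hdm => by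
    have h1 := congrArg (e01 K) e1
    rw [map_mul, map_mul, hn hdm, mul_zero, e01_C, e01_map] at h1
    exact hι (by rw [(mul_eq_zero.1 h1).resolve_left hεK, map_zero])
  rcases hv (ι ε / ι b) with ⟨a, ha⟩ | ⟨a, ha0, ha⟩
  · have h1 : ε = b * a := hι (by rw [map_mul, ha]; field_simp)
    have hb0 : (C b : R2 O) ≠ 0 := C_ne_zero.2 fun h1 => hb (by rw [h1, map_zero])
    have h2 : R = C a * br v' F := by
      apply mul_left_cancel₀ hb0
      rw [key, h1, map_mul, mul_assoc]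
    refine ⟨map ρ (C a * v'), 0, ?_⟩
    rw [h2, ← map_br, br_C_mul, mul_zero, add_zero]
  · exfalso
    have h1 : b = ε * a := hι (by
      rw [map_mul]
      field_simp at ha
      rw [← ha, mul_comm])
    have h2 : C a * R = br v' F := by
      apply mul_left_cancel₀ (C_ne_zero.2 hε : (C ε : R2 O) ≠ 0)
      rw [← key, h1, map_mul, mul_assoc]
    have h3 := congrArg (map ρ) h2
    rw [map_mul, map_C, ha0, map_zero, zero_mul, map_br] at h3
    refine hρ (ker hd (hF.map ρ) hL (by rwa [e01_map]) m _ (hh.map ρ) h3.symm fun hdm => ?_)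
    rw [e01_map, hn' hdm, map_zero]

end Val

/-- The part of `r` in one class of degrees, over a ring. -/
noncomputable def pc {A : Type} [CommRing A] (d c N : ℕ) (r : R2 A) : R2 A :=
  ∑ e ∈ (Finset.range N).filter (fun e => d ∣ e + c + 2), hc e r

theorem map_pc {A k : Type} [CommRing A] [Field k] (φ : A →+* k) (d c : ℕ) {N : ℕ} {r : R2 A}
    (hr : DL N r) : map φ (pc d c N r) = cl d c (map φ r) := by
  ext m
  rw [Bx.coeff_cl, coeff_map, coeff_map, pc, coeff_sum]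
  simp only [coeff_hc]
  rw [Finset.sum_ite_eq]
  by_cases h : d ∣ m.degree + c + 2
  · rw [if_pos h]
    split_ifs with h1
    · rfl
    · rw [hr m (by
        by_contra h2
        exact h1 (Finset.mem_filter.2 ⟨Finset.mem_range.2 (not_le.1 h2), h⟩))]
  · rw [if_neg h, if_neg, map_zero]
    intro h1
    exact h (Finset.mem_filter.1 h1).2

theorem lift_pc {A : Type} [CommRing A] {d : ℕ} {F : R2 A} (hd : 1 ≤ d) (hF : F.IsHomogeneous d)
    (c N : ℕ) (r : R2 A) :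
    ∃ (M : ℕ) (R w : R2 A), R.IsHomogeneous M ∧ R = pc d c N r + (F - 1) * w := by
  obtain ⟨M, hM⟩ : ∃ M, M + c + 2 = d * (N + c + 2) :=
    ⟨d * (N + c + 2) - c - 2, by
      have : N + c + 2 ≤ d * (N + c + 2) := Nat.le_mul_of_pos_left _ hd
      omega⟩
  have hdv : F - 1 ∣ ∑ e ∈ (Finset.range N).filter (fun e => d ∣ e + c + 2),
      F ^ (N + c + 2 - (e + c + 2) / d) * hc e r - pc d c N r := by
    rw [pc, ← Finset.sum_sub_distrib]
    refine Finset.dvd_sum fun e _ => ?_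
    rw [← sub_one_mul]
    exact (sub_one_dvd_pow_sub_one F _).mul_right _
  obtain ⟨w, hw⟩ := hdv
  refine ⟨M, _, w, ?_, sub_eq_iff_eq_add'.1 hw⟩
  refine IsHomogeneous.sum _ _ _ fun e he => ?_
  obtain ⟨he1, t, ht⟩ := Finset.mem_filter.1 he
  have he2 := Finset.mem_range.1 he1
  have h1 : (e + c + 2) / d = t := by rw [ht, Nat.mul_div_cancel_left _ hd]
  have h2 : t ≤ d * t := Nat.le_mul_of_pos_left _ hd
  obtain ⟨s, hs⟩ : ∃ s, N + c + 2 = t + s := ⟨N + c + 2 - t, by omega⟩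
  have h3 : M = d * (N + c + 2 - (e + c + 2) / d) + e := by
    rw [h1, hs, Nat.add_sub_cancel_left]
    rw [hs, mul_add] at hM
    omega
  rw [h3]
  exact (hF.pow _).mul (hc_hom e r)

theorem sum_cl {k : Type} [Field k] {d : ℕ} (hd : 1 ≤ d) (s : R2 k) :
    ∑ c ∈ Finset.range d, cl d c s = s := by
  ext m
  rw [coeff_sum]
  simp only [Bx.coeff_cl]
  obtain ⟨a, ha⟩ : ∃ a, a = m.degree + 2 := ⟨_, rfl⟩
  have hre : ∀ c, m.degree + c + 2 = a + c := fun c => by omega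
  simp only [hre]
  have h0 : d ∣ a + a * (d - 1) % d := by
    have h1 : a + a * (d - 1) % d ≡ a + a * (d - 1) [MOD d] := (Nat.mod_modEq _ _).add_left a
    have h2 : a + a * (d - 1) = d * a := by
      obtain ⟨e, rfl⟩ : ∃ e, d = e + 1 := ⟨d - 1, by omega⟩
      rw [Nat.add_sub_cancel]
      ring
    rw [h2] at h1
    exact (Nat.modEq_zero_iff_dvd.1 (h1.trans (Nat.modEq_zero_iff_dvd.2 (dvd_mul_right d a))))
  have hlt : a * (d - 1) % d < d := Nat.mod_lt _ hd
  rw [Finset.sum_eq_single (a * (d - 1) % d), if_pos h0]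
  · intro c hc hne
    refine if_neg fun h1 => hne ?_
    have h2 : a + c ≡ a + a * (d - 1) % d [MOD d] :=
      (Nat.modEq_zero_iff_dvd.2 h1).trans (Nat.modEq_zero_iff_dvd.2 h0).symm
    exact (Nat.ModEq.add_left_cancel' a h2).eq_of_lt_of_lt (Finset.mem_range.1 hc) hlt
  · intro h
    exact absurd (Finset.mem_range.2 hlt) h

end Sat3

open Sat3 in
theorem satS : SatStmt := by
  intro O K L _ _ _ _ _ _ _ ι ρ d F r hd hι hv hF hK hL h0 h
  have hd1 : 1 ≤ d := by omega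
  obtain ⟨N, hN⟩ := exists_DL r
  rw [← sum_cl hd1 (map ρ r)]
  refine Bs.bt_sum _ fun c _ => ?_
  obtain ⟨M, R, w, hR, e⟩ := lift_pc hd1 hF c N r
  have h1 : Bt (map ι F) (map ι R) := by
    obtain ⟨u, w', h2⟩ := Bx.bt_cl d c (hF.map ι) h
    refine ⟨u, w' + map ι w, ?_⟩
    rw [e, map_add, map_pc ι d c hN, h2, map_mul, map_sub, map_one]
    ring
  obtain ⟨u, w', h2⟩ := homog hd1 hι hv hF hK hL (by rwa [e01_hom hF]) hR h1
  refine ⟨u, w' - map ρ w, ?_⟩
  rw [e, map_add, map_pc ρ d c hN, map_mul, map_sub, map_one] at h2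
  rw [mul_sub, ← add_sub_assoc, ← h2]
  ring

end Pool.Agent.MP_05b4bd_ag.ES

end MrgPart1

-- ======== part 2: formerly Pool.Agent.MP_05b4bd_ag.esc3.Two
section MrgPart2

/-! Purity of the coefficients of the Gelfand-Leray form, and two different non-zero classes. -/

namespace Pool.Agent.MP_05b4bd_ag.ES

open PowerSeries LaurentSeries HC

namespace Two3

variable {k : Type} [Field k]

theorem cls_zero (d : ℕ) (m : ℤ) : Cls d m (0 : R2 k) := fun _ h => (h rfl).elim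

theorem cls_add {d : ℕ} {m : ℤ} {r s : R2 k} (hr : Cls d m r) (hs : Cls d m s) :
    Cls d m (r + s) := fun e he => by
  by_cases h : MvPolynomial.coeff e r = 0
  · refine hs e fun h' => he ?_
    rw [MvPolynomial.coeff_add, h, h', add_zero]
  · exact hr e h

theorem cls_neg {d : ℕ} {m : ℤ} {r : R2 k} (hr : Cls d m r) : Cls d m (-r) := fun e he =>
  hr e fun h => he (by rw [MvPolynomial.coeff_neg, h, neg_zero])

theorem cls_C_mul {d : ℕ} {m : ℤ} {r : R2 k} (a : k) (hr : Cls d m r) :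
    Cls d m (MvPolynomial.C a * r) := fun e he =>
  hr e fun h => he (by rw [MvPolynomial.coeff_C_mul, h, mul_zero])

theorem cls_sum {d : ℕ} {m : ℤ} (s : Finset ℕ) {r : ℕ → R2 k} (h : ∀ i ∈ s, Cls d m (r i)) :
    Cls d m (∑ i ∈ s, r i) := fun e he => by
  rw [MvPolynomial.coeff_sum] at he
  obtain ⟨i, hi, h0⟩ := Finset.exists_ne_zero_of_sum_ne_zero he
  exact h i hi e h0

theorem cls_shift {d : ℕ} {m m0 : ℤ} {r : R2 k} (h : (d : ℤ) ∣ m - m0) (hr : Cls d m r) :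
    Cls d m0 r := fun e he => by
  have := (hr e he).sub h
  rwa [show (e.degree : ℤ) + m + 2 - (m - m0) = e.degree + m0 + 2 by ring] at this

theorem cls_CR {d : ℕ} (hd : 1 ≤ d) {f g : R2 k} (h0 : MvPolynomial.coeff 0 f = 0) {v : ℕ}
    (hg : g.IsHomogeneous v) (j : ℕ) :
    Cls d ((d : ℤ) - (v + 2) + j) (CR d f j (v + 2) g) := by
  obtain ⟨d, rfl⟩ := Nat.exists_eq_add_of_le' hd
  have h1 : Bx.Gr (d + 1) (d * v) g := fun e he => by
    have : e.degree = v := by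
      by_contra c
      exact he (hg.coeff_eq_zero c)
    exact ⟨v, by rw [this]; ring⟩
  intro e he
  obtain ⟨t, ht⟩ := Bx.gr_CR h0 j _ (v + 2) g h1 e he
  have h2 : (e.degree : ℤ) + (d * v + j) = (d + 1) * t := by exact_mod_cast ht
  refine ⟨t + 1 - v, ?_⟩
  push_cast
  linear_combination h2

end Two3

theorem wtS (h1 : GlcStmt) : WtStmt := by
  intro k L _ _ _ d I hd
  let : Algebra k L := I.κ.toAlgebra
  have hκ : algebraMap k L = I.κ := rfl
  obtain ⟨-, c, e, BB, hc', he, hB, hG⟩ := h1 k L I.D d I.f I.x0 I.y0 hd I.cv I.fr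
  rw [hκ] at hc' he
  obtain ⟨N, hN⟩ := exists_DL I.g
  have key : ∀ (m : ℤ) (v : ℕ), ∃ s : R2 k, c m (hc v I.g) - e s ∈ BB ∧ Cls d m s := by
    intro m v
    by_cases hm : (d : ℤ) - (v + 2) ≤ m
    · obtain ⟨j, rfl⟩ : ∃ j : ℕ, m = (d : ℤ) - (v + 2) + j := ⟨(m - (d - (v + 2))).toNat, by omega⟩
      exact ⟨_, Esc.c_CR hd I.gen.2.1 I.gen.1 hG j v _ (hc_hom v I.g),
        Two3.cls_CR hd I.gen.1 (hc_hom v I.g) j⟩
    · refine ⟨0, ?_, Two3.cls_zero d m⟩
      rw [hG.low v m _ (DL.of_hom (hc_hom v I.g)) (by omega), map_zero, sub_zero]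
      exact zero_mem _
  choose s hs1 hs2 using key
  refine ⟨fun m => ∑ v ∈ Finset.range N, s m v, fun m => ?_,
    fun m => Two3.cls_sum _ fun v _ => hs2 m v⟩
  have h2 : c m I.g - e (∑ v ∈ Finset.range N, s m v) ∈ BB := by
    have h3 : c m I.g = ∑ v ∈ Finset.range N, c m (hc v I.g) := by
      rw [← map_sum, Esc.sum_hc hN]
    rw [h3, map_sum, ← Finset.sum_sub_distrib]
    exact BB.sum_mem fun v _ => hs1 m v
  obtain ⟨η, hη⟩ := (hB _).1 h2
  refine ⟨η, ?_⟩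
  rw [I.rX, ← hc', ← he, ← hη]
  ring

theorem twoS (h3 : EvbStmt) (h5 : IlStmt) (h9 : GenTopStmt) (hN : NzcStmt) : TwoStmt := by
  intro k L _ _ _ _ d I r hd hr hcl
  obtain ⟨-, hci, c1, c2, -⟩ := h9 k d I.f (by omega) I.gen
  have hev := h3 k L I.κ I.D d _ _ _ (by omega) (hc_hom d I.f) hci c1 c2 I.cv I.gb
  obtain ⟨⟨n, r2, q1, q2, q3, q4⟩, q5, q6⟩ := hN k d _ hd (hc_hom d I.f) hci
  by_contra hno
  obtain ⟨m0, h0⟩ : ∃ m0 : ℤ, ∀ m : ℤ, ¬ (d : ℤ) ∣ m → ¬ (d : ℤ) ∣ m - m0 →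
      Bt (hc d I.f) (r m) := by
    by_cases ha : ∀ m : ℤ, ¬ (d : ℤ) ∣ m → Bt (hc d I.f) (r m)
    · exact ⟨0, fun m hm _ => ha m hm⟩
    · obtain ⟨m0, hm0⟩ := not_forall.1 ha
      obtain ⟨a1, a2⟩ := Classical.not_imp.1 hm0
      exact ⟨m0, fun m hm hm' => by_contra fun c => hno ⟨m, m0, hm, a1, hm', c, a2⟩⟩
  let Λ : AddSubgroup L :=
    { carrier := {z | ∃ η s, Cls d m0 s ∧ z = I.D η + evp I.κ (cc I.x0) (cc I.y0) s}
      zero_mem' := ⟨0, 0, Two3.cls_zero d m0, by simp⟩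
      add_mem' := by
        rintro _ _ ⟨a, s, hs, rfl⟩ ⟨b, t, ht, rfl⟩
        exact ⟨a + b, s + t, Two3.cls_add hs ht, by rw [map_add, map_add]; ring⟩
      neg_mem' := by
        rintro _ ⟨a, s, hs, rfl⟩
        exact ⟨-a, -s, Two3.cls_neg hs, by rw [map_neg, map_neg]; ring⟩ }
  have hΛ := h5 k L d I Λ hd ?_ ?_ ?_
  · have fin : ∀ (n : ℕ) (q : R2 k), q.IsHomogeneous n → ¬ d ∣ n + 2 →
        ¬ (d : ℤ) ∣ n + m0 + 2 → Bt (hc d I.f) q := by
      intro n q hq hn hn'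
      obtain ⟨η, s, hs, e⟩ := hΛ n q hq hn
      have b1 := hev (-s + q) η (by rw [map_add, map_neg, e]; ring)
      refine (q6 m0 (-s) q (Two3.cls_neg hs) (fun e he => ?_) b1).2
      have : e.degree = n := by
        by_contra c
        exact he (hq.coeff_eq_zero c)
      rwa [this]
    by_cases c : (d : ℤ) ∣ (0 : ℕ) + m0 + 2
    · refine q4 (fin n r2 q1 q2 fun c' => q3 ?_)
      have := c'.sub c
      rw [show (n : ℤ) + m0 + 2 - ((0 : ℕ) + m0 + 2) = n by push_cast; ring] at this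
      exact Int.natCast_dvd_natCast.1 this
    · refine q5 (fin 0 1 (MvPolynomial.isHomogeneous_one _ _) (fun c' => ?_) c)
      have := Nat.le_of_dvd (by omega) c'
      omega
  · rintro c _ ⟨a, s, hs, rfl⟩
    refine ⟨I.κ c * a, MvPolynomial.C c * s, Two3.cls_C_mul c hs, ?_⟩
    rw [I.cv.1.const_mul (I.cv.2.1 c), map_mul, evp, MvPolynomial.eval₂Hom_C]
    ring
  · exact fun η => ⟨η, 0, Two3.cls_zero d m0, by simp⟩
  · intro m hm
    obtain ⟨z, hz⟩ := hr m
    by_cases c : (d : ℤ) ∣ m - m0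
    · exact ⟨z, _, Two3.cls_shift c (hcl m), hz⟩
    · obtain ⟨w, hw⟩ := Inv.bt_ev I.cv (h0 m hm c)
      exact ⟨z + w, 0, Two3.cls_zero d m0, by rw [hz, hw, map_add, map_zero, add_zero]⟩

end Pool.Agent.MP_05b4bd_ag.ES

end MrgPart2

-- ======== part 3: formerly Pool.Agent.MP_05b4bd_ag.pc3.Aff
section MrgPart3

/-! Conic syzygies attached to an affine vector field of non-zero trace. -/

namespace Pool.Agent.MP_05b4bd_ag.PC3

open MvPolynomial HC ES

namespace AffR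

variable {K : Type} [Field K] {d : ℕ} {s t c : R2 K} {θ : Fm K} {r : K}

/-- The conclusion for the pair `c, θ`. -/
def Ok (d : ℕ) (c : R2 K) (θ : Fm K) : Prop :=
  ∀ w, DF (d + 1) w → Pr w c θ → Lim (H2 1 d) w ∨ Lim (H3 d) w

/-- The conclusion for all pairs with the given `c`. -/
def All (d : ℕ) (c : R2 K) : Prop := ∀ θ, DF 2 θ → rr c θ = 0 → dv θ ≠ 0 → Ok d c θ

theorem Ok.move (hs : DL 2 s) (ht : DL 2 t) (h : C r * br s t = 1) (H : Ok d c θ) :
    Ok d (sub2 s t c) (pb s t θ) := fun w hw hp => by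
  obtain ⟨s', t', hs', ht', -, -, e2, e3, e4⟩ := exists_inv' hs ht h
  have h1 := hp.pb (s := s') (t := t')
  rw [e2, e4] at h1
  rw [← e3 w]
  exact (H _ (hw.pb hs' ht') h1).imp (Lim.pb fun _ hu => hu.pb hs ht)
    (Lim.pb fun _ hu => hu.pb hs ht)

theorem All.move (hs : DL 2 s) (ht : DL 2 t) (h : C r * br s t = 1) (H : All d c) :
    All d (sub2 s t c) := fun θ hθ h1 h2 => by
  obtain ⟨s', t', hs', ht', -, -, e2, e3, -⟩ := exists_inv' hs ht h
  have h3 := rr_pb (s := s') (t := t') (sub2 s t c) θ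
  rw [e2, h1, map_zero, mul_zero] at h3
  rw [← e3 θ]
  exact (H _ (hθ.pb hs' ht') h3 fun e => h2 (by rw [← e3 θ, dv_pb, e, map_zero, mul_zero])).move
    hs ht h

/-- Affine functions. -/
noncomputable def af (a b c : K) : R2 K := C a + C b * X 0 + C c * X 1

/-- Quadratic functions. -/
noncomputable def qd (a b c p q r : K) : R2 K :=
  C a + C b * X 0 + C c * X 1 + C p * X 0 ^ 2 + C q * (X 0 * X 1) + C r * X 1 ^ 2

theorem af_DL (a b c : K) : DL 2 (af a b c) :=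
  (((DL_C a).mono (by omega)).add ((DL_X 0).C_mul b)).add ((DL_X 1).C_mul c)

theorem br_af (a b c a' b' c' : K) : br (af a b c) (af a' b' c') = C (b * c' - c * b') := by
  simp [br, af]

theorem quad_zero {a b c p q r : K} (h : qd a b c p q r = 0) :
    a = 0 ∧ b = 0 ∧ c = 0 ∧ p = 0 ∧ q = 0 ∧ r = 0 := by
  have e : (C a * (X 0 ^ 0 * X 1 ^ 0) + C b * (X 0 ^ 1 * X 1 ^ 0) + C c * (X 0 ^ 0 * X 1 ^ 1) +
      C p * (X 0 ^ 2 * X 1 ^ 0) + C q * (X 0 ^ 1 * X 1 ^ 1) +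
        C r * (X 0 ^ 0 * X 1 ^ 2) : R2 K) = 0 := by
    rw [← h, qd]; ring
  have k := fun i j => congrArg (HC.co i j) e
  simp only [co_add, co_C_mul, co_mon, co_zero] at k
  exact ⟨by simpa using k 0 0, by simpa using k 1 0, by simpa using k 0 1, by simpa using k 2 0,
    by simpa using k 1 1, by simpa using k 0 2⟩

/-- Comparison of coefficients. -/
theorem all_of {g b1 b2 A B E : K} (h : ∀ p0 p1 p2 q0 q1 q2 : K, p1 + q2 ≠ 0 →
    (p1 + q2) * g - (p0 * b1 + q0 * b2) = 0 →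
    q2 * b1 - (2 * A * p0 + q1 * b2 + B * q0) = 0 → p1 * b2 - (p2 * b1 + B * p0 + 2 * E * q0) = 0 →
    (q2 - p1) * A - B * q1 = 0 → -(2 * A * p2 + 2 * E * q1) = 0 → (p1 - q2) * E - B * p2 = 0 →
    Ok d (qd g b1 b2 A B E) (af p0 p1 p2, af q0 q1 q2)) : All d (qd g b1 b2 A B E) := by
  rintro ⟨u, v⟩ ⟨hu, hv⟩ h1 h2
  obtain ⟨p0, p1, p2, rfl⟩ : ∃ a b c, u = af a b c :=
    ⟨_, _, _, (DL2_eq hu).trans (add_assoc _ _ _).symm⟩
  obtain ⟨q0, q1, q2, rfl⟩ : ∃ a b c, v = af a b c :=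
    ⟨_, _, _, (DL2_eq hv).trans (add_assoc _ _ _).symm⟩
  have e : dv (af p0 p1 p2, af q0 q1 q2) = C (p1 + q2) := by simp [dv, af]
  obtain ⟨k1, k2, k3, k4, k5, k6⟩ := quad_zero (a := (p1 + q2) * g - (p0 * b1 + q0 * b2))
    (b := q2 * b1 - (2 * A * p0 + q1 * b2 + B * q0))
    (c := p1 * b2 - (p2 * b1 + B * p0 + 2 * E * q0)) (p := (q2 - p1) * A - B * q1)
    (q := -(2 * A * p2 + 2 * E * q1)) (r := (p1 - q2) * E - B * p2) (by
      rw [← h1, rr, e, wg_d1]
      simp [vf, qd, af, map_ofNat]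
      ring)
  exact h _ _ _ _ _ _ (fun z => h2 (by rw [e, z, map_zero])) k1 k2 k3 k4 k5 k6

theorem inv_C {a : K} (h : a ≠ 0) : (C a * C a⁻¹ : R2 K) = 1 := by
  rw [← map_mul, mul_inv_cancel₀ h, map_one]

theorem quad_split [IsAlgClosed K] (p q r : K) : ∃ a b c e : K,
    p = a * c ∧ q = a * e + b * c ∧ r = b * e := by
  by_cases hp : p = 0
  · exact ⟨0, 1, q, r, by simp [hp], by simp, by simp⟩
  obtain ⟨z, hz⟩ := IsAlgClosed.exists_root
    (Polynomial.C p * Polynomial.X ^ 2 + Polynomial.C (-q) * Polynomial.X + Polynomial.C r)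
    (by rw [Polynomial.degree_quadratic hp]; decide)
  simp only [Polynomial.IsRoot.def, Polynomial.eval_add, Polynomial.eval_mul, Polynomial.eval_C,
    Polynomial.eval_pow, Polynomial.eval_X] at hz
  exact ⟨1, z, p, q - z * p, by ring, by ring, by linear_combination hz⟩

theorem compl {a b : K} (h : a ≠ 0 ∨ b ≠ 0) : ∃ c e : K, a * e - b * c = 1 := by
  rcases h with h | h
  · exact ⟨0, a⁻¹, by simp [h]⟩
  · exact ⟨-b⁻¹, 0, by simp [h]⟩

variable [CharZero K]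

theorem linY (hL : LinStmt) {w : Fm K} (hw : DF (d + 1) w) {l : K} (hl : l ≠ 0) {i : Fin 2}
    {c0 c1 : K} (hc : ¬ (c0 = 0 ∧ c1 = 0))
    (h : C l * vf w.1 w.2 (X i) = (C c0 + C c1 * X i) * dv w) : Lim (H2 1 d) w := by
  refine hL K d w hw ⟨X i, c0 * l⁻¹, c1 * l⁻¹, DL_X i, fun e => ?_, by simpa [hl] using hc, ?_⟩
  · have h1 := congrArg Prod.fst e
    have h2 := congrArg Prod.snd e
    fin_cases i <;> simp [d1] at h1 h2
  · rw [Pr, wg_d1, map_mul, map_mul]
    linear_combination C l⁻¹ * h - vf w.1 w.2 (X i) * inv_C hl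

theorem cross (hL : LinStmt) (hD : DiagStmt) (g : K) : All d (qd g 0 0 0 1 0) := by
  refine all_of fun p0 p1 p2 q0 q1 q2 h0 k1 k2 k3 k4 _ k6 w hw hp => ?_
  obtain rfl : g = 0 := by simpa [h0] using k1
  obtain rfl : q0 = 0 := by simpa using k2
  obtain rfl : p0 = 0 := by simpa using k3
  obtain rfl : q1 = 0 := by simpa using k4
  obtain rfl : p2 = 0 := by simpa using k6
  simp only [Pr, wg, qd, af, map_zero, map_one] at hp
  by_cases h1 : p1 = 0
  · subst h1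
    refine Or.inl (linY hL hw (l := q2) (by simpa using h0) (i := 0) (c0 := 0) (c1 := -1) (by simp)
      (mul_left_cancel₀ (X_ne_zero 1) ?_))
    rw [vf_X0, map_neg]
    simp only [map_zero, map_one] at hp ⊢
    linear_combination -hp
  by_cases h2 : q2 = 0
  · subst h2
    refine Or.inl (linY hL hw h1 (i := 1) (c0 := 0) (c1 := 1) (by simp)
      (mul_left_cancel₀ (X_ne_zero 0) ?_))
    rw [vf_X1]
    simp only [map_zero, map_one] at hp ⊢
    linear_combination hp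
  exact Or.inr (hD K d w (-q2) p1 hw (neg_ne_zero.2 h2) h1
    (by rw [map_neg]; linear_combination -hp))

theorem double (hN : NilStmt) (g b1 b2 : K) {A : K} (hA : A ≠ 0) : All d (qd g b1 b2 A 0 0) := by
  refine all_of fun p0 p1 p2 q0 q1 q2 h0 k1 k2 k3 k4 k5 _ => ?_
  obtain rfl : p2 = 0 := by simpa [hA] using k5
  obtain rfl : q2 = p1 := by simpa [hA, sub_eq_zero] using k4
  have hl : q2 ≠ 0 := fun e => h0 (by simp [e])
  obtain rfl : b2 = 0 := by simpa [hl] using k3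
  obtain ⟨u, rfl⟩ : ∃ u, p0 = q2 * u := ⟨p0 / q2, by field_simp⟩
  obtain ⟨κ, rfl⟩ : ∃ κ, q0 = q2 * κ + q1 * u := ⟨(q0 - q1 * u) / q2, by field_simp; ring⟩
  obtain rfl : b1 = 2 * A * u := mul_left_cancel₀ hl (by linear_combination k2)
  obtain rfl : g = A * u ^ 2 := mul_left_cancel₀ h0 (by linear_combination k1)
  have base : Ok d (C A * X 1 ^ 2) (-(C q2 * X 0 + C q1 * X 1), -(C q2 * X 1)) := fun w hw hp =>
    Or.inr ((hN K d w (-q1 * A⁻¹) (q2 * A⁻¹) hw (mul_ne_zero hl (inv_ne_zero hA))).1 (by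
      simp only [Pr, wg] at hp
      simp only [map_mul, map_neg]
      linear_combination -C A⁻¹ * hp - X 1 ^ 2 * dv w * inv_C hA))
  have h := base.move (r := -1) (af_DL κ 0 1) (af_DL u 1 0) (by rw [br_af]; simp)
  have e1 : sub2 (af κ 0 1) (af u 1 0) (C A * X 1 ^ 2) = qd (A * u ^ 2) (2 * A * u) 0 A 0 0 := by
    simp [sub2, af, qd, map_ofNat]
    ring
  have e2 : pb (af κ 0 1) (af u 1 0) (-(C q2 * X 0 + C q1 * X 1), -(C q2 * X 1)) =
      (af (q2 * u) q2 0, af (q2 * κ + q1 * u) q1 q2) :=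
    Prod.ext (by simp [pb, fm, sub2, af]; ring) (by simp [pb, fm, sub2, af]; ring)
  rwa [e1, e2] at h

theorem single (hL : LinStmt) (hN : NilStmt) : All d (qd (0 : K) 1 0 0 0 0) := by
  refine all_of fun p0 p1 p2 q0 q1 q2 h0 k1 k2 k3 _ _ _ => ?_
  obtain rfl : p0 = 0 := by simpa using k1
  obtain rfl : q2 = 0 := by simpa using k2
  obtain rfl : p2 = 0 := by simpa using k3
  rw [add_zero] at h0
  obtain ⟨u, rfl⟩ : ∃ u, q1 = p1 * u := ⟨q1 / p1, by field_simp⟩
  have base : Ok d (X 0) (C p1 * X 0, C q0) := fun w hw hp => by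
    simp only [Pr, wg] at hp
    by_cases h1 : q0 = 0
    · subst h1
      refine Or.inl (linY hL hw h0 (i := 1) (c0 := 1) (c1 := 0) (by simp)
        (mul_left_cancel₀ (X_ne_zero 0) ?_))
      rw [vf_X1]
      simp only [map_zero, map_one] at hp ⊢
      linear_combination hp
    exact Or.inr ((hN K d w (-q0) p1 hw h0).2 (neg_ne_zero.2 h1)
      (by rw [map_neg]; linear_combination -hp))
  have h := base.move (r := 1) (af_DL 0 1 0) (af_DL 0 (-u) 1) (by rw [br_af]; simp)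
  have e1 : sub2 (af 0 1 0) (af 0 (-u) 1) (X 0) = qd 0 1 0 0 0 0 := by simp [sub2, af, qd]
  have e2 : pb (af 0 1 0) (af 0 (-u) 1) (C p1 * X 0, C q0) = (af 0 p1 0, af q0 (p1 * u) 0) :=
    Prod.ext (by simp [pb, fm, sub2, af]) (by simp [pb, fm, sub2, af]; ring)
  rwa [e1, e2] at h

end AffR

open AffR

theorem affS (hL : LinStmt) (hD : DiagStmt) (hN : NilStmt) : AffStmt := by
  rintro K _ _ _ d w hw ⟨c, θ, hc, hθ, c0, hp, h1, h2⟩
  refine (?_ : All d c) θ hθ h1 h2 w hw hp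
  obtain ⟨g, b1, b2, p, q, r, rfl⟩ : ∃ g b1 b2 p q r, c = qd g b1 b2 p q r :=
    ⟨_, _, _, _, _, _, (DL3_eq hc).trans (by rw [HC.lf, ← add_assoc, ← add_assoc, ← add_assoc, qd])⟩
  obtain ⟨a, b, c, e, rfl, rfl, rfl⟩ := quad_split p q r
  by_cases hΔ : a * e - b * c ≠ 0
  · obtain ⟨s0, t0, rfl, rfl⟩ : ∃ s0 t0, b1 = s0 * c + t0 * a ∧ b2 = s0 * e + t0 * b :=
      ⟨(a * b2 - b * b1) / (a * e - b * c), (e * b1 - c * b2) / (a * e - b * c),
        by field_simp; ring, by field_simp; ring⟩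
    have h := (cross (d := d) hL hD (g - s0 * t0)).move (r := (a * e - b * c)⁻¹) (af_DL s0 a b)
      (af_DL t0 c e) (by rw [br_af, mul_comm, inv_C hΔ])
    refine (congrArg (All d) ?_).mp h
    simp [sub2, af, qd]
    ring
  rw [not_not] at hΔ
  obtain ⟨α, v1, v2, hv, e1, e2, e3⟩ : ∃ α v1 v2 : K, (v1 ≠ 0 ∨ v2 ≠ 0) ∧ a * c = α * v1 ^ 2 ∧
      a * e + b * c = 2 * α * v1 * v2 ∧ b * e = α * v2 ^ 2 := by
    by_cases ha : a = 0
    · by_cases hb : b = 0
      · exact ⟨0, 1, 0, by simp, by simp [ha], by simp [ha, hb], by simp [hb]⟩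
      · have hc : c = 0 := by
          rw [ha, zero_mul, zero_sub, neg_eq_zero] at hΔ
          exact (mul_eq_zero.1 hΔ).resolve_left hb
        exact ⟨b * e, 0, 1, by simp, by simp [ha], by simp [ha, hc], by simp⟩
    · refine ⟨c / a, a, b, Or.inl ha, by field_simp, ?_, ?_⟩
      · field_simp; linear_combination hΔ
      · field_simp; linear_combination b * hΔ
  rw [e1, e2, e3] at c0 ⊢
  by_cases hα : α ≠ 0
  · obtain ⟨c', e', h⟩ := compl hv
    obtain ⟨s0, t0, rfl, rfl⟩ : ∃ s0 t0, b1 = s0 * v1 + t0 * c' ∧ b2 = s0 * v2 + t0 * e' :=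
      ⟨b1 * e' - b2 * c', v1 * b2 - v2 * b1, by linear_combination -b1 * h,
        by linear_combination -b2 * h⟩
    have h := (double (d := d) hN g s0 t0 hα).move (r := 1) (af_DL 0 v1 v2) (af_DL 0 c' e')
      (by rw [br_af, h]; simp)
    refine (congrArg (All d) ?_).mp h
    simp [sub2, af, qd, map_ofNat]
    ring
  rw [not_not] at hα
  subst hα
  by_cases hb : b1 ≠ 0 ∨ b2 ≠ 0
  · obtain ⟨c', e', h⟩ := compl hb
    have h := (single (d := d) hL hN).move (r := 1) (af_DL g b1 b2) (af_DL 0 c' e')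
      (by rw [br_af, h]; simp)
    refine (congrArg (All d) ?_).mp h
    simp [sub2, af, qd]
  push Not at hb
  obtain ⟨rfl, rfl⟩ := hb
  refine all_of fun p0 p1 p2 q0 q1 q2 h0 k1 _ _ _ _ _ => absurd ?_ c0
  obtain rfl : g = 0 := by simpa [h0] using k1
  simp [qd]

end Pool.Agent.MP_05b4bd_ag.PC3

end MrgPart3

-- ======== part 4: formerly Pool.Agent.MP_05b4bd_ag.pc3.Cen
section MrgPart4

/-! Integrating factors built on a conic with a centre. -/

namespace Pool.Agent.MP_05b4bd_ag.PC3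

open MvPolynomial HC ES

namespace Cen

variable {K : Type} [Field K]

theorem quad_split [IsAlgClosed K] (p q r : K) : ∃ a b c e : K,
    p = a * c ∧ q = a * e + b * c ∧ r = b * e := by
  by_cases hp : p = 0
  · exact ⟨0, 1, q, r, by simp [hp], by simp, by simp⟩
  obtain ⟨z, hz⟩ := IsAlgClosed.exists_root
    (Polynomial.C p * Polynomial.X ^ 2 + Polynomial.C (-q) * Polynomial.X + Polynomial.C r)
    (by rw [Polynomial.degree_quadratic hp]; decide)
  simp only [Polynomial.IsRoot.def, Polynomial.eval_add, Polynomial.eval_mul, Polynomial.eval_C,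
    Polynomial.eval_pow, Polynomial.eval_X] at hz
  exact ⟨1, z, p, q - z * p, by ring, by ring, by linear_combination hz⟩

/-- A conic with a centre is a product of two affine coordinates plus a constant. -/
theorem normal [IsAlgClosed K] {m : R2 K} (hm : DL 3 m) (hc : Ctr m) :
    ∃ (s t : R2 K) (r m0 : K), DL 2 s ∧ DL 2 t ∧ C r * br s t = 1 ∧ m = s * t + C m0 := by
  have e := DL3_eq hm
  unfold Ctr at hc
  generalize coeff 0 m = g at e
  generalize HC.co 1 0 m = b1 at e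
  generalize HC.co 0 1 m = b2 at e
  generalize HC.co 2 0 m = p at e hc
  generalize HC.co 1 1 m = q at e hc
  generalize HC.co 0 2 m = r at e hc
  obtain ⟨a, b, c, f, rfl, rfl, rfl⟩ := quad_split p q r
  have hΔ : a * f - b * c ≠ 0 := fun h0 => hc (by linear_combination (a * f - b * c) * h0)
  obtain ⟨i, hi⟩ : ∃ i, (a * f - b * c) * i = 1 := ⟨_, mul_inv_cancel₀ hΔ⟩
  have d2 : ∀ p a b : K, DL 2 (C p + HC.lf a b) := fun p a b =>
    ((DL_C p).mono (by omega)).add (DL_lf a b)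
  have hi' := congrArg (C : K → R2 K) hi
  refine ⟨C ((a * b2 - b * b1) * i) + HC.lf a b, C ((f * b1 - c * b2) * i) + HC.lf c f, i,
    g - (a * b2 - b * b1) * i * ((f * b1 - c * b2) * i), d2 _ _ _, d2 _ _ _, ?_, ?_⟩
  · simp only [br, map_add, pderiv_C, lf_x, lf_y, zero_add]
    simp only [map_mul, map_sub, map_one] at hi'
    linear_combination hi'
  · rw [e]
    simp only [HC.lf, map_add, map_mul, map_sub, map_one] at hi' ⊢
    linear_combination (-(C b1 * X 0 + C b2 * X 1) : R2 K) * hi'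

/-- Solving `y G_y - x G_x = B` when the diagonal coefficients of `B` vanish. -/
theorem solve [CharZero K] {d : ℕ} {B : R2 K} (hB : DL d B) (h : ∀ j, HC.co j j B = 0) :
    ∃ G : R2 K, DL d G ∧ X 1 * pderiv 1 G - X 0 * pderiv 0 G = B := by
  classical
  have e : ∀ n : Fin 2 →₀ ℕ,
      coeff n (∑ m ∈ B.support, monomial m (coeff m B / ((m 1 : K) - (m 0 : K)))) =
        coeff n B / ((n 1 : K) - (n 0 : K)) := by
    intro n
    rw [coeff_sum]
    simp only [coeff_monomial]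
    rw [Finset.sum_ite_eq']
    split_ifs with hn
    · rfl
    · rw [notMem_support_iff.1 hn, zero_div]
  refine ⟨_, fun n hn => by rw [e, hB n hn, zero_div], co_ext fun i j => ?_⟩
  rw [co_sub, co_X1_y, co_X0_x, HC.co, e]
  simp only [Finsupp.add_apply, Finsupp.single_eq_same, ne_eq, zero_ne_one, one_ne_zero,
    not_false_eq_true, Finsupp.single_eq_of_ne, add_zero, zero_add]
  change _ * (HC.co i j B / _) - _ * (HC.co i j B / _) = _
  by_cases hij : i = j
  · subst hij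
    rw [h]; simp
  · have : (j : K) - i ≠ 0 := sub_ne_zero.2 fun h0 => hij (Nat.cast_injective h0).symm
    field_simp

/-- Small polynomials killed by `x ∂x - y ∂y`. -/
theorem diag [CharZero K] {d : ℕ} {h : R2 K} (hd : d ≤ 5) (hh : DL d h)
    (e : X 0 * pderiv 0 h - X 1 * pderiv 1 h = 0) :
    ∃ a0 a1 a2 : K, (d ≤ 4 → a2 = 0) ∧ h = C a0 + C a1 * (X 0 * X 1) + C a2 * (X 0 * X 1) ^ 2 := by
  refine ⟨HC.co 0 0 h, HC.co 1 1 h, HC.co 2 2 h, fun h4 => co_of_DL hh (by omega), ?_⟩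
  have e2 : (C (HC.co 0 0 h) + C (HC.co 1 1 h) * (X 0 * X 1) + C (HC.co 2 2 h) * (X 0 * X 1) ^ 2 :
      R2 K) = C (HC.co 0 0 h) * (X 0 ^ 0 * X 1 ^ 0) + C (HC.co 1 1 h) * (X 0 ^ 1 * X 1 ^ 1) +
        C (HC.co 2 2 h) * (X 0 ^ 2 * X 1 ^ 2) := by ring
  rw [e2]
  refine co_ext fun i j => ?_
  simp only [co_add, co_C_mul, co_mon]
  by_cases hij : i = j
  · subst hij
    rcases i with _ | _ | _ | i
    · simp
    · simp
    · simp
    · rw [co_of_DL hh (by omega), if_neg (by omega), if_neg (by omega), if_neg (by omega)]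
      simp
  · have k := congrArg (HC.co i j) e
    rw [co_sub, co_X1_y, co_X0_x, co_zero, ← sub_mul] at k
    have : (i : K) - j ≠ 0 := sub_ne_zero.2 fun h0 => hij (Nat.cast_injective h0)
    rw [(mul_eq_zero.1 k).resolve_left this, if_neg (by omega), if_neg (by omega),
      if_neg (by omega)]
    simp

/-- The diagonal coefficients of the divergence vanish. -/
theorem diag_zero [CharZero K] {w : Fm K} {e0 c1 : K} (he : e0 ≠ 0)
    (h : X 1 * w.1 + X 0 * w.2 = C e0 * dv w + C c1 * (X 0 * (X 1 * dv w))) (j : ℕ) :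
    HC.co j j (dv w) = 0 := by
  have hv : ∀ j, HC.co j j (dv w) = (HC.co (j + 1) j w.1 + HC.co j (j + 1) w.2) * (j + 1) := by
    intro j
    rw [dv, co_add, co_x, co_y]; ring
  induction j with
  | zero =>
    have k := congrArg (HC.co 0 0) h
    rw [co_add, co_add, co_X1', co_X0', co_C_mul, co_C_mul, co_X0'] at k
    exact (mul_eq_zero.1 (by linear_combination -k)).resolve_left he
  | succ j ih =>
    have k := congrArg (HC.co (j + 1) (j + 1)) h
    rw [co_add, co_add, co_X1, co_X0, co_C_mul, co_C_mul, co_X0, co_X1, ih] at k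
    rw [hv] at ih
    have h1 : ((j : K) + 1) ≠ 0 := by exact_mod_cast Nat.succ_ne_zero j
    have h2 := (mul_eq_zero.1 ih).resolve_right h1
    exact (mul_eq_zero.1 (by linear_combination h2 - k)).resolve_left he

theorem core (hD : DiagStmt) [CharZero K] {d : ℕ} {w : Fm K} {m0 c0 c1 : K} (h3 : 3 ≤ d)
    (h5 : d ≤ 5) (hw : DF (d + 1) w) (h : Cn w (X 0 * X 1 + C m0) c0 c1) :
    Lim (H3 d) w ∨ CF d w (X 0 * X 1 + C m0) c0 c1 := by
  obtain ⟨hm, hne, hp⟩ := h
  have dm : d1 (X 0 * X 1 + C m0 : R2 K) = (X 0, -X 1) := Prod.ext (by simp [d1]) (by simp [d1])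
  have hp' : X 1 * w.1 + X 0 * w.2 = (C c0 + C c1 * (X 0 * X 1 + C m0)) * dv w := by
    rw [Pr, dm, wg] at hp
    linear_combination hp
  by_cases he : c0 + c1 * m0 = 0
  · have hc : c1 ≠ 0 := fun h0 => hne ⟨by rw [h0] at he; linear_combination he, h0⟩
    have hi := congrArg (C : K → R2 K) (inv_mul_cancel₀ hc)
    have he' := congrArg (C : K → R2 K) he
    simp only [map_mul, map_add, map_one, map_zero] at hi he'
    refine Or.inl (hD K d w c1⁻¹ c1⁻¹ hw (inv_ne_zero hc) (inv_ne_zero hc) ?_)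
    linear_combination (-C c1⁻¹) * hp' - C c1⁻¹ * dv w * he' - X 0 * X 1 * dv w * hi
  right
  obtain ⟨G, hG, eG⟩ := solve hw.dv (diag_zero (c1 := c1) he (by
    rw [map_add, map_mul]; linear_combination hp'))
  obtain ⟨n, rfl⟩ : ∃ n, d = n + 1 := ⟨d - 1, by omega⟩
  set m : R2 K := X 0 * X 1 + C m0 with hmd
  have mx : pderiv 0 m = X 1 := by simp [hmd]
  have my : pderiv 1 m = X 0 := by simp [hmd]
  set u : Fm K := w - fm (C c0 + C c1 * m) G - fm (C (c1 - 1) * G) m with hu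
  have hF : DL 3 (C c0 + C c1 * m) := ((DL_C c0).mono (by omega)).add (hm.C_mul c1)
  have du : DF (n + 2) u :=
    (hw.sub ((DF.fm hF hG).mono (by omega))).sub ((DF.fm (hG.C_mul _) hm).mono (by omega))
  have e1 : X 1 * u.1 + X 0 * u.2 = 0 := by
    simp only [hu, fm, Prod.fst_sub, Prod.snd_sub, mx, my]
    linear_combination hp' - (C c0 + C c1 * m) * eG
  have e2 : dv u = 0 := by
    rw [hu, dv_sub, dv_sub, dv_fm, dv_fm]
    simp only [br, map_add, pderiv_mul, pderiv_C, mx, my, map_sub, map_one]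
    simp only [Derivation.map_one_eq_zero]
    linear_combination -eG
  obtain ⟨g, hg⟩ : (X 0 : R2 K) ∣ u.1 := by
    have : (X 0 : R2 K) ∣ X 1 * u.1 := ⟨-u.2, by linear_combination e1⟩
    refine (X_prime.dvd_or_dvd this).resolve_left fun h0 => ?_
    exact absurd (X_dvd_X.1 h0) (by decide)
  have hg2 : u.2 = -(g * X 1) :=
    mul_left_cancel₀ (X_ne_zero 0) (by linear_combination e1 - X 1 * hg)
  have dg : DL (n + 1) g := by
    refine DL_of_mul (b := 1) (v := X 0) (by rw [mul_comm, ← hg]; exact du.1) fun h0 => ?_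
    have := co_of_DL (i := 1) (j := 0) h0 le_rfl
    have k := co_mon (A := K) 1 0 1 0
    rw [pow_one, pow_zero, mul_one, this] at k
    simp at k
  obtain ⟨a0, a1, a2, hz, eg⟩ := diag h5 dg (by
    rw [dv, hg, hg2] at e2
    simp only [map_neg, pderiv_mul, pderiv_X_self] at e2
    linear_combination e2)
  refine ⟨G, a0 - a1 * m0 + a2 * m0 ^ 2, a1 - 2 * a2 * m0, a2, hG, hz, ?_⟩
  have eg' : g = C (a0 - a1 * m0 + a2 * m0 ^ 2) + C (a1 - 2 * a2 * m0) * m + C a2 * m ^ 2 := by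
    rw [eg, hmd]
    simp only [map_add, map_sub, map_mul, map_pow, map_ofNat]
    ring
  simp only [hu, fm, Prod.fst_sub, Prod.snd_sub, mx, my] at hg hg2
  refine Prod.ext ?_ ?_
  · simp only [fm, Prod.fst_add, my]
    linear_combination hg + X 0 * eg'
  · simp only [fm, Prod.snd_add, mx]
    linear_combination hg2 - X 1 * eg'

end Cen

theorem cenS (hD : DiagStmt) : CenStmt := by
  intro K _ _ _ d w m c0 c1 h3 h5 hw h hc
  obtain ⟨s, t, r, m0, hs, ht, hr, e⟩ := Cen.normal h.1 hc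
  obtain ⟨s', t', hs', ht', -, e1, e2, e3, -⟩ := exists_inv' hs ht hr
  have em : m = sub2 s t (X 0 * X 1 + C m0) := by
    rw [map_add, map_mul, sub2_X0, sub2_X1, sub2_C, e]
  have h' := h.pb hs' ht'
  rw [em, e2] at h'
  rcases Cen.core hD h3 h5 (hw.pb hs' ht') h' with k | k
  · left
    have := Lim.pb (s := s) (t := t) (fun u hu => H3.pb hs ht hu) k
    rwa [e3] at this
  · right
    have := k.pb hs ht
    rwa [e3, ← em] at this

end Pool.Agent.MP_05b4bd_ag.PC3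

end MrgPart4

-- ======== part 5: formerly Pool.Agent.MP_05b4bd_ag.pc3.Dom
section MrgPart5

/-! Density of a family of top forms. -/

namespace Pool.Agent.MP_05b4bd_ag.PC3

open MvPolynomial HC ES

namespace Dom

theorem hom_eval {ι : Type} {H : MvPolynomial ι ℂ} {k : ℕ} (h : H.IsHomogeneous k) (τ : ℂ)
    (w : ι → ℂ) : eval (fun i => τ * w i) H = τ ^ k * eval w H := by
  rw [eval_eq, eval_eq, Finset.mul_sum]
  refine Finset.sum_congr rfl fun m hm => ?_
  simp only [mul_pow, Finset.prod_mul_distrib, Finset.prod_pow_eq_pow_sum]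
  rw [← h.degree_eq_sum_deg_support hm]
  ring

theorem ps_eval {ι : Type} (H : MvPolynomial ι ℂ) {w : ι → ℂ → ℂ} (hw : ∀ i, PS (w i)) :
    PS fun τ => eval (fun i => w i τ) H := by
  induction H using MvPolynomial.induction_on with
  | C a => simpa using PS.const a
  | add p q hp hq => simpa using hp.add hq
  | mul_X p k hp => simpa using hp.mul (hw k)

theorem dense0 {ι : Type} (Ψ : MvPolynomial ι ℂ) (h : ∀ v : ι → ℂ, ∃ u : ι → ℂ → ℂ,
    (∀ i, PS (u i)) ∧ ∀ τ, eval (fun i => τ * (v i + τ * u i τ)) Ψ = 0) : Ψ = 0 := by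
  have key : ∀ n, homogeneousComponent n Ψ = 0 := fun n => by
    induction n using Nat.strong_induction_on with
    | _ n ih =>
    by_cases hn : Ψ.totalDegree < n
    · exact homogeneousComponent_eq_zero _ _ hn
    refine MvPolynomial.funext fun v => ?_
    obtain ⟨u, hu, h0⟩ := h v
    have hc : Continuous fun τ : ℂ => ∑ k ∈ Finset.range (Ψ.totalDegree + 1),
        τ ^ (k - n) * eval (fun i => v i + τ * u i τ) (homogeneousComponent k Ψ) :=
      continuous_finsetSum _ fun k _ => (continuous_pow _).mul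
        (ps_eval _ fun i => (PS.const _).add (PS.id.mul (hu i))).continuous
    have he := hc.ext_on (dense_compl_singleton (0 : ℂ)) (continuous_const (y := (0 : ℂ)))
      fun τ hτ => mul_left_cancel₀ (pow_ne_zero n hτ) (by
        have h1 := h0 τ
        rw [← sum_homogeneousComponent Ψ, map_sum] at h1
        simp only [mul_zero, Finset.mul_sum]
        rw [← h1]
        refine Finset.sum_congr rfl fun k _ => ?_
        rw [hom_eval (homogeneousComponent_isHomogeneous k Ψ)]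
        rcases lt_or_ge k n with hk | hk
        · simp [ih k hk]
        · rw [← mul_assoc, ← pow_add, Nat.add_sub_cancel' hk])
    have h2 := congrFun he 0
    rw [Finset.sum_eq_single n (fun k _ hk => ?_) fun hk => absurd hk (by simp; omega)] at h2
    · simpa using h2
    · rcases lt_or_gt_of_ne hk with hk | hk
      · simp [ih k hk]
      · rw [zero_pow (by omega), zero_mul]
  rw [← sum_homogeneousComponent Ψ]
  exact Finset.sum_eq_zero fun k _ => key k

theorem eval_aeval {ι κ : Type} (Φ : MvPolynomial ι ℂ) (g : ι → MvPolynomial κ ℂ) (x : κ → ℂ) :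
    eval x (aeval g Φ) = eval (fun i => eval x (g i)) Φ := by
  induction Φ using MvPolynomial.induction_on with
  | C a => simp
  | add p q hp hq => simp only [map_add, hp, hq]
  | mul_X p k hp => simp only [map_mul, hp, aeval_X, eval_X]

theorem exists_G (y : Co) : ∃ G : MvPolynomial (Fin 2 →₀ ℕ) ℂ, ∀ f : Poly,
    eval (fun m => coeff m f) G = Pool.Agent.MP_05b4bd_ag.ev y (dform f) := by
  induction y using MvPolynomial.induction_on with
  | C c => exact ⟨C c, fun f => by rw [ev_C, eval_C]⟩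
  | add p q hp hq =>
    obtain ⟨G, hG⟩ := hp
    obtain ⟨H, hH⟩ := hq
    exact ⟨G + H, fun f => by rw [ev_add, map_add, hG, hH]⟩
  | mul_X p k hp =>
    obtain ⟨G, hG⟩ := hp
    obtain ⟨b, m⟩ := k
    cases b
    · refine ⟨G * -(X (m + Finsupp.single 0 1) * C ((m 0 : ℂ) + 1)), fun f => ?_⟩
      rw [ev_mul, ev_X, map_mul, hG, map_neg, map_mul, eval_X, eval_C]
      simp only [MP_05b4bd_ag.co, dform, cond_false, coeff_neg, coeff_pderiv]
    · refine ⟨G * (X (m + Finsupp.single 1 1) * C ((m 1 : ℂ) + 1)), fun f => ?_⟩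
      rw [ev_mul, ev_X, map_mul, hG, map_mul, eval_X, eval_C]
      simp only [MP_05b4bd_ag.co, dform, cond_true, coeff_pderiv]

theorem exists_hom (d : ℕ) (v : (Fin 2 →₀ ℕ) → ℂ) :
    ∃ G : Poly, G.IsHomogeneous d ∧ ∀ m, m.degree = d → coeff m G = v m := by
  classical
  have hf : {m : Fin 2 →₀ ℕ | m.degree = d}.Finite :=
    (Finsupp.finite_of_degree_le d).subset fun _ hm => le_of_eq hm
  refine ⟨∑ m ∈ hf.toFinset, monomial m (v m), IsHomogeneous.sum _ _ _ fun m hm =>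
    isHomogeneous_monomial _ (hf.mem_toFinset.1 hm), fun m hm => ?_⟩
  rw [coeff_sum, Finset.sum_eq_single m (fun k _ hk => by rw [coeff_monomial, if_neg hk])
    fun hk => absurd (hf.mem_toFinset.2 hm) hk, coeff_monomial, if_pos rfl]

end Dom

theorem denseS : DenseStmt := by
  intro ι Φ z h
  have h1 := Dom.dense0 (aeval (fun i => C (z i) + X i) Φ) fun v => by
    obtain ⟨u, hu, h0⟩ := h v
    refine ⟨u, hu, fun τ => ?_⟩
    rw [Dom.eval_aeval, ← h0 τ]
    refine congrArg (fun x => eval x Φ) (funext fun i => ?_)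
    simp only [map_add, eval_C, eval_X]
    ring
  refine MvPolynomial.funext fun x => ?_
  have h2 := Dom.eval_aeval Φ (fun i => C (z i) + X i) fun i => x i - z i
  rw [h1] at h2
  simpa using h2.symm

theorem domS (h : DenseStmt) : DomStmt := by
  rintro d W F hd hF hW _ ⟨f, hf, rfl⟩
  obtain ⟨e, rfl⟩ : ∃ e, d = e + 1 := ⟨d - 1, by omega⟩
  refine mem_zcl.2 fun R hR => ?_
  obtain ⟨G0, hG⟩ := Dom.exists_G R
  have hg : DL (e + 1) (f - hc (e + 1) f) := (DL_iff.2 hf).sub_hc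
  have h1 := h _ (aeval (fun m => if m.degree = e + 1 then X m
      else C (coeff m (f - hc (e + 1) f))) G0 : MvPolynomial (Fin 2 →₀ ℕ) ℂ)
    (fun m => coeff m F) fun v => by
      obtain ⟨G, g1, g2⟩ := Dom.exists_hom (e + 1) v
      obtain ⟨H, hH, hz⟩ := hW G g1
      refine ⟨fun m τ => coeff m (H τ), fun m => hH.coeff m, fun τ => ?_⟩
      rw [Dom.eval_aeval, ← mem_zcl.1 ((hz τ).2 _ (Nat.lt_succ_of_le (DL_iff.1 hg))) R hR, ← hG]
      refine congrArg (fun x => eval x G0) (funext fun m => ?_)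
      rw [coeff_add, coeff_add, coeff_add, coeff_smul, coeff_smul]
      split_ifs with hm
      · rw [eval_X, g2 m hm, hg m hm.ge]
        simp
      · rw [eval_C, hF.coeff_eq_zero hm, g1.coeff_eq_zero hm, (hz τ).1.coeff_eq_zero hm]
        simp
  have h2 := congrArg (eval fun m => coeff m f) h1
  rw [Dom.eval_aeval, map_zero] at h2
  rw [← hG, ← h2]
  refine congrArg (fun x => eval x G0) (funext fun m => ?_)
  split_ifs with hm
  · rw [eval_X]
  · rw [eval_C, coeff_sub, coeff_hc, if_neg hm, sub_zero]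

end Pool.Agent.MP_05b4bd_ag.PC3

end MrgPart5

-- ======== part 6: formerly Pool.Agent.MP_05b4bd_ag.pc3.Gv
section MrgPart6

/-! The ideal attached to a closed form `n` with `n ∧ w = dw`. -/

namespace Pool.Agent.MP_05b4bd_ag.PC3

open MvPolynomial HC ES

namespace Gv

variable {T : Type} [CommRing T] {D0 D1 : T →+ T} {p q n0 n1 : T}

theorem mem (a b : T) : a * p + b * q ∈ Ideal.span {p, q} := Ideal.mem_span_pair.2 ⟨a, b, rfl⟩

theorem reg (kos : ∀ a b, a * q = b * p → ∃ c, a = c * p ∧ b = c * q) {b1 b2 f1 f2 t1 t2 u : T}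
    (h1 : b1 ∈ Ideal.span {p, q}) (h2 : b2 ∈ Ideal.span {p, q}) (e1 : p = b1 * f1 - b2 * t1)
    (e2 : q = b1 * f2 - b2 * t2) (h : (t1 * f2 - t2 * f1) * u ∈ Ideal.span {p, q}) :
    u ∈ Ideal.span {p, q} := by
  obtain ⟨m11, m12, rfl⟩ := Ideal.mem_span_pair.1 h1
  obtain ⟨m21, m22, rfl⟩ := Ideal.mem_span_pair.1 h2
  obtain ⟨c, c1, c2⟩ := kos (m12 * f1 - m22 * t1) (1 - (m11 * f1 - m21 * t1))
    (by linear_combination -e1)
  obtain ⟨e, c3, c4⟩ := kos (1 - (m12 * f2 - m22 * t2)) (m11 * f2 - m21 * t2)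
    (by linear_combination e2)
  have := Ideal.add_mem _ (Ideal.mul_mem_left _ (m11 * m22 - m12 * m21) h)
    (mem (p := p) (q := q) (e * u) (c * u))
  refine (congrArg (· ∈ Ideal.span {p, q}) ?_).mp this
  linear_combination (-(u * (m11 * f2 - m21 * t2))) * c1 - u * (1 - e * p) * c2 -
    u * (m11 * f1 - m21 * t1) * c3 - u * (c * p) * c4

theorem l1 (h0 : IsDer D0) (h1 : IsDer D1) (cl : D0 n0 + D1 n1 = 0)
    (nu : n0 * q - n1 * p = D0 p + D1 q) (c u : T) :
    c * (D0 (c * n0 + u * p) + D1 (c * n1 + u * q)) -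
      (D1 c * (c * n1 + u * q) - -D0 c * (c * n0 + u * p)) =
    (c * D1 u - u * D1 c + u * c * n0) * q - (-(c * D0 u) + u * D0 c + u * c * n1) * p := by
  rw [map_add, map_add, h0, h0, h1, h1]
  linear_combination c ^ 2 * cl - c * u * nu

theorem l2 (h0 : IsDer D0) (h1 : IsDer D1) (comm : ∀ c, D0 (D1 c) = D1 (D0 c))
    (cl : D0 n0 + D1 n1 = 0) (nu : n0 * q - n1 * p = D0 p + D1 q) {c u v E l θ0 θ1 ψ0 ψ1 : T}
    (t0 : θ0 = c * n0 + u * p) (t1 : θ1 = c * n1 + u * q)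
    (s0 : ψ0 = E * (c * D1 u - u * D1 c + u * c * n0) - l * n0 - v * p)
    (s1 : ψ1 = E * (-(c * D0 u) + u * D0 c + u * c * n1) - l * n1 - v * q) :
    c * (D1 E * ψ1 - -D0 E * ψ0) + l * (D1 E * θ1 - -D0 E * θ0) +
      2 * E * (D1 c * ψ1 - -D0 c * ψ0) + 2 * E * l * (D0 θ0 + D1 θ1) - E * (θ0 * ψ1 - θ1 * ψ0) -
      c * E * (D0 ψ0 + D1 ψ1) - E * (D1 l * θ1 - -D0 l * θ0) ∈ Ideal.span {p, q} := by
  have m0 : ∀ a b, D0 (a * b) = D0 a * b + a * D0 b := h0
  have m1 : ∀ a b, D1 (a * b) = D1 a * b + a * D1 b := h1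
  have hp : Ideal.Quotient.mk (Ideal.span {p, q}) p = 0 :=
    Ideal.Quotient.eq_zero_iff_mem.2 (Ideal.subset_span (by simp))
  have hq : Ideal.Quotient.mk (Ideal.span {p, q}) q = 0 :=
    Ideal.Quotient.eq_zero_iff_mem.2 (Ideal.subset_span (by simp))
  have e1 : D0 p = n0 * q - n1 * p - D1 q := by linear_combination -nu
  have e2 : D0 n0 = -D1 n1 := by linear_combination cl
  rw [← Ideal.Quotient.eq_zero_iff_mem, t0, t1, s0, s1]
  simp only [map_add, map_sub, map_neg, map_mul, m0, m1, comm, e1, e2, map_ofNat, hp, hq]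
  ring

end Gv

theorem gvS : GvStmt := by
  intro K _ w T _ ι D0 D1 n0 n1 h
  have nu : n0 * ι w.2 - n1 * ι w.1 = D0 (ι w.1) + D1 (ι w.2) := by
    rw [h.nu, h.e0, h.e1, dv, map_add]
  have pr : ∀ c θ, Pr w c θ → ∃ u, ι θ.1 = ι c * n0 + u * ι w.1 ∧ ι θ.2 = ι c * n1 + u * ι w.2 ∧
      ι (rr c θ) = (ι c * D1 u - u * D1 (ι c) + u * ι c * n0) * ι w.2 -
        (-(ι c * D0 u) + u * D0 (ι c) + u * ι c * n1) * ι w.1 := fun c θ e => by
    have e' := congrArg ι e
    rw [wg, map_sub, map_mul, map_mul, map_mul, ← h.nu] at e'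
    obtain ⟨u, u1, u2⟩ := h.kos (ι θ.1 - ι c * n0) (ι θ.2 - ι c * n1) (by linear_combination e')
    have t0 : ι θ.1 = ι c * n0 + u * ι w.1 := by linear_combination u1
    have t1 : ι θ.2 = ι c * n1 + u * ι w.2 := by linear_combination u2
    refine ⟨u, t0, t1, ?_⟩
    rw [← Gv.l1 h.d0 h.d1 h.cl nu, ← t0, ← t1]
    simp only [rr, dv, wg, d1, map_sub, map_add, map_mul, map_neg, h.e0, h.e1]
  refine ⟨Ideal.subset_span (by simp), Ideal.subset_span (by simp), ?_, fun θ e => ?_,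
    fun b1 h1 b2 h2 φ θ e u hu => ?_, fun c θ e => ?_, fun c θ E ψ l e e' => ?_⟩
  · rw [Ideal.mem_comap, ← h.nu]
    exact Ideal.mem_span_pair.2 ⟨-n1, n0, by ring⟩
  · have e' := congrArg ι e
    rw [wg, map_sub, map_mul, map_mul, map_zero, sub_eq_zero] at e'
    obtain ⟨c, c1, c2⟩ := h.kos _ _ e'
    exact ⟨Ideal.mem_span_pair.2 ⟨c, 0, by rw [c1]; ring⟩,
      Ideal.mem_span_pair.2 ⟨0, c, by rw [c2]; ring⟩⟩
  · refine Gv.reg h.kos (f1 := ι φ.1) (f2 := ι φ.2) (t1 := ι θ.1) (t2 := ι θ.2) h1 h2 ?_ ?_ ?_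
    · rw [e]; simp
    · rw [e]; simp
    · simpa only [Ideal.mem_comap, wg, map_mul, map_sub] using hu
  · obtain ⟨u, -, -, e3⟩ := pr c θ e
    rw [Ideal.mem_comap, e3]
    exact Ideal.mem_span_pair.2 ⟨-(-(ι c * D0 u) + u * D0 (ι c) + u * ι c * n1),
      ι c * D1 u - u * D1 (ι c) + u * ι c * n0, by ring⟩
  · obtain ⟨u, t0, t1, e3⟩ := pr c θ e
    have e4 := congrArg ι e'
    rw [wg, map_mul, map_add, map_sub, map_mul, map_mul, map_mul, ← h.nu, e3] at e4
    obtain ⟨v, v1, v2⟩ := h.kos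
      (ι E * (ι c * D1 u - u * D1 (ι c) + u * ι c * n0) - ι l * n0 - ι ψ.1)
      (ι E * (-(ι c * D0 u) + u * D0 (ι c) + u * ι c * n1) - ι l * n1 - ι ψ.2)
      (by linear_combination e4)
    have := Gv.l2 h.d0 h.d1 h.comm h.cl nu (v := v) (E := ι E) (l := ι l) (ψ0 := ι ψ.1)
      (ψ1 := ι ψ.2) t0 t1 (by linear_combination -v1) (by linear_combination -v2)
    simpa only [Ideal.mem_comap, dv, wg, d1, map_sub, map_add, map_mul, map_neg, map_ofNat,
      h.e0, h.e1] using this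

end Pool.Agent.MP_05b4bd_ag.PC3

end MrgPart6

-- ======== part 7: formerly Pool.Agent.MP_05b4bd_ag.pc3.Lin
section MrgPart7

/-! Normal form of a one-form with an integrating factor built on one line. -/

namespace Pool.Agent.MP_05b4bd_ag.PC3

open MvPolynomial HC ES

namespace Lin

variable {K : Type} [Field K]

theorem hc_y {h : R2 K} (hy : pderiv 1 h = 0) (n : ℕ) : pderiv 1 (hc n h) = 0 := by
  ext m
  have h1 := congrArg (coeff m) hy
  rw [coeff_pderiv, coeff_zero] at h1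
  rw [coeff_pderiv, coeff_hc, coeff_zero]
  split_ifs
  · exact h1
  · exact zero_mul _

theorem onto (c0 c : K) (n : ℕ) (hc1 : ∀ j : ℕ, j < n → c * ((j : K) + 1) - 1 ≠ 0) :
    ∀ h : R2 K, pderiv 1 h = 0 → DL n h → ∃ g : R2 K, pderiv 1 g = 0 ∧ DL n g ∧
      (C c0 + C c * X 0) * pderiv 0 g + (C c - 1) * g = h := by
  induction n with
  | zero =>
    intro h _ hn
    exact ⟨0, by simp, DL.zero 0, by simp [hn.eq_zero]⟩
  | succ n ih =>
    intro h hy hn
    have hu := hc_hom n h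
    have huy := hc_y hy n
    have hE := HC.euler hu
    rw [huy, mul_zero, add_zero] at hE
    have hd := DL.of_hom hu
    obtain ⟨r, hr⟩ : ∃ r : K, r * (c * ((n : K) + 1) - 1) = 1 :=
      ⟨_, inv_mul_cancel₀ (hc1 n (Nat.lt_succ_self n))⟩
    have hr' : (C r : R2 K) * (C c * ((n : R2 K) + 1) - 1) = 1 := by
      have := congrArg (C : K → R2 K) hr
      simpa only [map_mul, map_sub, map_add, map_one, map_natCast] using this
    obtain ⟨g, g1, g2, g3⟩ := ih (fun j hj => hc1 j (Nat.lt_succ_of_lt hj))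
      (h - hc n h - C r * (C c0 * pderiv 0 (hc n h)))
      (by
        rw [map_sub, map_sub, hy, huy, pderiv_C_mul, pderiv_C_mul, HC.pderiv_comm, huy]
        simp)
      (hn.sub_hc.sub (((hd.pderiv 0).C_mul c0).C_mul r))
    refine ⟨g + C r * hc n h, ?_, (g2.mono (Nat.le_succ n)).add (hd.C_mul r), ?_⟩
    · rw [map_add, g1, pderiv_C_mul, huy]
      simp
    · rw [map_add, pderiv_C_mul]
      linear_combination g3 + (C r * C c) * hE + hc n h * hr'

theorem core [CharZero K] (d : ℕ) (w : Fm K) (hw : DF (d + 1) w) (c0 c1 : K)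
    (h : Pr w (C c0 + C c1 * X 0) (d1 (X 0))) : Lim (H2 1 d) w := by
  classical
  obtain ⟨P, Q⟩ := w
  have hB : DL d (dv (P, Q)) := hw.dv
  obtain ⟨B, hBe⟩ : ∃ B, B = dv (P, Q) := ⟨_, rfl⟩
  rw [← hBe] at hB
  have hP : P = (C c0 + C c1 * X 0) * B := by
    rw [Pr, ← hBe] at h
    simpa [wg, d1] using h
  have hQ : pderiv 0 P + pderiv 1 Q = B := hBe.symm
  have hG : DL (d + 1) (ad 1 B) := ad_DL 1 hB
  have hGy : pderiv 1 (ad 1 B) = B := pderiv_ad 1 B
  obtain ⟨G, hGe⟩ : ∃ G, G = ad 1 B := ⟨_, rfl⟩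
  rw [← hGe] at hG hGy
  have hF : ∀ c : K, DL 2 (C c0 + C c * X 0 : R2 K) := fun c =>
    ((DL_C c0).mono (by omega)).add ((DL_X 0).C_mul c)
  have hPx : pderiv 0 P = C c1 * B + (C c0 + C c1 * X 0) * pderiv 0 B := by
    rw [hP]
    simp
    ring
  obtain ⟨h0, hh⟩ : ∃ h0 : R2 K,
      h0 = -Q - (C c0 + C c1 * X 0) * pderiv 0 G - C (c1 - 1) * G := ⟨_, rfl⟩
  have hy : pderiv 1 h0 = 0 := by
    have e : pderiv 1 h0 = -pderiv 1 Q - (C c0 + C c1 * X 0) * pderiv 1 (pderiv 0 G) -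
        (C c1 - 1) * pderiv 1 G := by
      rw [hh]
      simp
    rw [e, HC.pderiv_comm, hGy]
    linear_combination -hQ + hPx
  have hd : DL (d + 1) h0 := by
    rw [hh]
    refine (hw.2.neg.sub ?_).sub (hG.C_mul _)
    have := (hF c1).mul (hG.pderiv 0)
    rwa [add_comm 1 d] at this
  refine ⟨(X 0 * B, -(X 0 * pderiv 0 G) - G),
    insert (-c1) ((Finset.range (d + 1)).image fun j : ℕ => 1 / ((j : K) + 1) - c1), ?_⟩
  intro τ hτ
  rw [Finset.mem_insert, not_or] at hτ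
  have hc0 : c1 + τ ≠ 0 := fun e => hτ.1 (by linear_combination e)
  have hc1 : ∀ j : ℕ, j < d + 1 → (c1 + τ) * ((j : K) + 1) - 1 ≠ 0 := by
    intro j hj e
    refine hτ.2 (Finset.mem_image.2 ⟨j, Finset.mem_range.2 hj, ?_⟩)
    have hj0 : (j : K) + 1 ≠ 0 := Nat.cast_add_one_ne_zero j
    field_simp
    linear_combination -e
  obtain ⟨g, g1, g2, g3⟩ := onto c0 (c1 + τ) (d + 1) hc1 h0 hy hd
  have hα : (C ((c1 + τ - 1) / (c1 + τ)) : R2 K) * (C c1 + C τ) = C c1 + C τ - 1 := by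
    rw [← map_add, ← map_mul, div_mul_cancel₀ _ hc0, map_sub, map_one]
  refine ⟨C c0 + C (c1 + τ) * X 0, G + g, 1, (c1 + τ - 1) / (c1 + τ), hF _, hG.add g2, ?_⟩
  obtain ⟨α, hαe⟩ : ∃ α : K, α = (c1 + τ - 1) / (c1 + τ) := ⟨_, rfl⟩
  rw [← hαe] at hα ⊢
  rw [map_sub, map_one] at hh
  rw [map_add] at g3
  refine Prod.ext ?_ ?_
  · simp [fm, g1, hGy]
    linear_combination hP
  · simp [fm]
    linear_combination hh + g3 + (G + g) * hα

end Lin

theorem linS : LinStmt := by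
  intro K _ _ d w hw ⟨l, c0, c1, hl, hl0, _, h⟩
  obtain ⟨t, ht, hb⟩ : ∃ t : R2 K, DL 2 t ∧ br l t = 1 := by
    obtain ⟨p, a, b, rfl⟩ : ∃ p a b, l = C p + HC.lf a b := ⟨_, _, _, DL2_eq hl⟩
    by_cases ha : a = 0
    · have hb : b ≠ 0 := by
        rintro rfl
        apply hl0
        simp [d1, lf_x, lf_y, ha]
      refine ⟨HC.lf (-b⁻¹) 0, DL_lf _ _, ?_⟩
      simp only [br, map_add, pderiv_C, lf_x, lf_y, zero_add, map_zero, mul_zero, zero_sub]
      rw [← map_mul, ← map_neg, mul_neg, neg_neg, mul_inv_cancel₀ hb, map_one]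
    · refine ⟨HC.lf 0 a⁻¹, DL_lf _ _, ?_⟩
      simp only [br, map_add, pderiv_C, lf_x, lf_y, zero_add, map_zero, mul_zero, sub_zero]
      rw [← map_mul, mul_inv_cancel₀ ha, map_one]
  obtain ⟨s', t', hs', ht', -, -, e1, e2, -⟩ := exists_inv hl ht hb
  have e3 : sub2 s' t' l = X 0 := by
    have := e1 (X 0)
    rwa [sub2_X0] at this
  have h1 := h.pb (s := s') (t := t')
  rw [pb_d1, map_add, map_mul, sub2_C, sub2_C, e3] at h1
  have h2 := (Lin.core d _ (DF.pb hs' ht' hw) c0 c1 h1).pb (s := l) (t := t)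
    (fun u hu => hu.pb hl ht)
  rwa [e2] at h2

end Pool.Agent.MP_05b4bd_ag.PC3

end MrgPart7

-- ======== part 8: formerly Pool.Agent.MP_05b4bd_ag.pc3.Lo
section MrgPart8

/-! The lower bound for the rank of the ideal in degree less than `2 d - 3`. -/

namespace Pool.Agent.MP_05b4bd_ag.PC3

open MvPolynomial HC ES
open scoped PowerSeries LaurentSeries

namespace Lo

variable {k : Type} [Field k]

/-- Independent reductions give independence over the field of Laurent series. -/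
theorem ind_lift {ι : Type} [Fintype ι] {u : ι → R2 k⟦X⟧}
    (h : LinearIndependent k fun i => map (cc : k⟦X⟧ →+* k) (u i)) :
    LinearIndependent k⸨X⸩ fun i => map (coeL k) (u i) := by
  refine Fintype.linearIndependent_iff.2 fun c hc => congrFun (by_contra fun h0 => ?_ : c = 0)
  obtain ⟨r, z, hr, hz, j, hj⟩ := prim_fun c h0
  have h1 : r • map (coeL k) (∑ i, C (z i) * u i) = 0 := by
    rw [← hc, map_sum, Finset.smul_sum]
    exact Finset.sum_congr rfl fun i _ => by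
      rw [hz i, mul_smul, map_mul, map_C, smul_eq_C_mul _ (coeL k (z i))]
  have h2 : ∑ i, C (z i) * u i = 0 :=
    map_injective _ coeL_inj (((smul_eq_zero.1 h1).resolve_left hr).trans (map_zero _).symm)
  refine hj (Fintype.linearIndependent_iff.1 h (fun i => cc (z i)) ?_ j)
  have h3 := congrArg (map (cc : k⟦X⟧ →+* k)) h2
  rw [map_sum, map_zero] at h3
  rw [← h3]
  exact Finset.sum_congr rfl fun i _ => by rw [map_mul, map_C, smul_eq_C_mul]

/-- An independent family in the Jacobian ideal. -/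
theorem fam {e : ℕ} {a b : R2 k} (ha : DL (e + 2) a) (hb : DL (e + 2) b)
    (h : CI (hc (e + 1) a) (hc (e + 1) b)) : ∃ g : Fin (e * (e + 1)) → R2 k,
      LinearIndependent k g ∧ ∀ i, g i ∈ Ideal.span {a, b} ∧ DL (2 * e + 1) (g i) := by
  have : Module.Finite k (dl k e) := Submodule.finiteDimensional_of_le
    (S₂ := Jd (⊤ : Ideal (R2 k)) e) fun u hu => ⟨trivial, hu⟩
  let U := (dl k e).prod (dl k e)
  have hU : Module.finrank k U = e * (e + 1) := by
    rw [finrank_prod', ← two_mul, finrank_dl]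
  let β := Module.finBasisOfFinrankEq k U hU
  let T : U →ₗ[k] R2 k := ((LinearMap.mulRight k a).coprod (LinearMap.mulRight k b)) ∘ₗ U.subtype
  refine ⟨T ∘ β, β.linearIndependent.map' T (LinearMap.ker_eq_bot'.2 fun p hp => ?_),
    fun i => ⟨Ideal.mem_span_pair.2 ⟨_, _, rfl⟩, ?_⟩⟩
  · have := kos_zero ha hb h (Nat.le_succ e) p.2.1 p.2.2 hp
    exact Subtype.ext (Prod.ext this.1 this.2)
  · change DL _ ((β i).1.1 * a + (β i).1.2 * b)
    rw [mul_comm _ a, mul_comm _ b, show 2 * e + 1 = e + 1 + e by omega]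
    exact (ha.mul (β i).2.1).add (hb.mul (β i).2.2)

end Lo

theorem loS (hT : GenTopStmt) (hJ : JredStmt) (hL : LiftStmt) : LoStmt := by
  intro k _ _ d f w hd hA hl
  obtain ⟨e, rfl⟩ : ∃ e, d = e + 2 := ⟨d - 2, by omega⟩
  have hci : CI (hc (e + 1) (pderiv 0 f)) (hc (e + 1) (pderiv 1 f)) := by
    rw [hc_pderiv, hc_pderiv]; exact (hT k _ f (by omega) hA.gen).2.1
  have hf : DL (e + 3) f := hA.gen.2.1
  obtain ⟨g, hg, hg'⟩ := Lo.fam (hf.pderiv 0) (hf.pderiv 1) hci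
  choose u hu using fun i => hL k f w _ hA.red (hJ k e f hf hci) (g i) (hg' i).1 (hg' i).2
  have h1 := card_le (W := Jd (JK w) (2 * e + 1))
    (Lo.ind_lift (u := u) (by simpa only [fun i => (hu i).2.1] using hg))
    fun i => ⟨(hl _).2 (hu i).2.2, (hu i).1.map _⟩
  rw [Fintype.card_fin] at h1
  rwa [show 2 * (e + 2) - 3 = 2 * e + 1 by omega, show e + 2 - 2 = e by omega,
    show e + 2 - 1 = e + 1 by omega]

end Pool.Agent.MP_05b4bd_ag.PC3

end MrgPart8

-- ======== part 9: formerly Pool.Agent.MP_05b4bd_ag.pc3.Main3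
section MrgPart9

/-! From minimal primes to components. -/

namespace Pool.Agent.MP_05b4bd_ag.PC3

open ES

theorem main3S : Main3Stmt := by
  intro d Ws hd h hW hne
  obtain ⟨n, rfl⟩ : ∃ n, d = n + 1 := ⟨d - 1, by omega⟩
  obtain ⟨y, hy, H⟩ := HC.avoid ((HC.fin_min (HC.high_mem (d := n + 1))).image
    (Ideal.comap (MvPolynomial.rename Sum.inl : Co →ₐ[ℂ] HC.PCo))) (Ex_irred (n + 1))
  obtain ⟨G, hG⟩ := Top.exists_G y
  refine ⟨G, ?_, fun f hf hf0 Z => ?_⟩
  · obtain ⟨f, h1, h2, h3⟩ := Top.exists_mor hy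
    exact ⟨f, h1, h2, by rwa [hG]⟩
  rw [hG] at hf0
  have key : ∀ Y, Y ⊆ M (n + 1) ∧ Irred Y → dform f ∈ Y → ∃ W ∈ Ws, Y ⊆ zcl W := fun Y hY hm => by
    obtain ⟨q, hq, h1⟩ := Top.exists_min hY.1 hY.2
    have h2 : Ideal.comap (MvPolynomial.rename Sum.inl : Co →ₐ[ℂ] HC.PCo) q ≤ _ :=
      not_not.1 fun k => hf0 (h1 y (H _ ⟨q, hq, rfl⟩ k) _ hm)
    exact (h q hq fun R hR g hg => mem_van.1 (h2 hR) _ ⟨g, hg, rfl⟩).imp
      fun W k => ⟨k.1, fun ω hω => mem_zcl.2 fun R hR => h1 R (k.2 R hR) ω hω⟩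
  have p : ∀ W ∈ Ws, zcl W ⊆ M (n + 1) ∧ Irred (zcl W) := fun W k =>
    ⟨zcl_subset (hW W k).1, (hW W k).2.1.zcl⟩
  constructor
  · rintro ⟨hY, hm⟩
    exact (key Z hY.1 hm).imp fun W k => ⟨k.1, k.2.antisymm (hY.2 (p W k.1) k.2)⟩
  · rintro ⟨W, k, rfl⟩
    have m : dform f ∈ zcl W := (hW W k).2.2 ⟨f, hf, rfl⟩
    refine ⟨⟨p W k, fun Y hY hle => ?_⟩, m⟩
    obtain ⟨W', k', hs⟩ := key Y hY (hle m)
    rwa [hne W k W' k' (((subset_zcl _).trans hle).trans hs)]

end Pool.Agent.MP_05b4bd_ag.PC3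

end MrgPart9

-- ======== part 10: formerly Pool.Agent.MP_05b4bd_ag.pc3.Nc5
section MrgPart10

namespace Pool.Agent.MP_05b4bd_ag.PC3

open MvPolynomial HC ES

namespace Nc5

variable {K : Type} [Field K]

/-- The map `(c, θ) ↦ θ ∧ w - c dw`. -/
noncomputable def T (w : Fm K) : (R2 K × Fm K) →ₗ[K] R2 K where
  toFun p := wg p.2 w - p.1 * dv w
  map_add' p q := by simp only [Prod.snd_add, Prod.fst_add, wg_add]; ring
  map_smul' a p := by simp [wg, smul_eq_C_mul]; ring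

theorem two {w : Fm K} {J : Ideal (R2 K)} (h : Lev 5 w J) : ∃ c1 c2 θ1 θ2, DL 4 c1 ∧ DL 4 c2 ∧
    DF 3 θ1 ∧ DF 3 θ2 ∧ Pr w c1 θ1 ∧ Pr w c2 θ2 ∧ ∀ r1 r2 : K, C r1 * c1 + C r2 * c2 = 0 →
      (C r1 : R2 K) • θ1 + (C r2 : R2 K) • θ2 = 0 → r1 = 0 ∧ r2 = 0 := by
  have f1 : Module.Finite K ((dl K 3).prod (dl K 3)) := Module.Finite.equiv (prodE _ _).symm
  have f2 : Module.Finite K ((dl K 4).prod ((dl K 3).prod (dl K 3))) :=
    Module.Finite.equiv (prodE _ _).symm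
  have h1 := ker_rank (T w) ((dl K 4).prod ((dl K 3).prod (dl K 3))) (Jd J 8) fun p hp =>
    ⟨J.sub_mem (J.sub_mem (J.mul_mem_left _ h.m2) (J.mul_mem_left _ h.m1)) (J.mul_mem_left _ h.mB),
      (DF.wg (n := 2) ⟨hp.2.1, hp.2.2⟩ h.deg).sub (DL.mul (a := 3) hp.1 h.deg.dv)⟩
  rw [finrank_prod', finrank_prod'] at h1
  have h2 := finrank_dl (K := K) 4
  have h3 := finrank_dl (K := K) 3
  have h4 : Module.finrank K (Jd J 8) ≤ 20 := h.up 4
  have f3 : Module.Finite K (((dl K 4).prod ((dl K 3).prod (dl K 3))) ⊓ LinearMap.ker (T w) :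
      Submodule K (R2 K × Fm K)) := Submodule.finiteDimensional_of_le inf_le_left
  obtain ⟨p, hp, q, hq, hi⟩ := exists_two
    (((dl K 4).prod ((dl K 3).prod (dl K 3))) ⊓ LinearMap.ker (T w))
    (le_of_add_le_add_left (a := 20) ((le_trans (by omega) h1).trans (Nat.add_le_add_right h4 _)))
  refine ⟨p.1, q.1, p.2, q.2, hp.1.1, hq.1.1, ⟨hp.1.2.1, hp.1.2.2⟩, ⟨hq.1.2.1, hq.1.2.2⟩,
    sub_eq_zero.1 hp.2, sub_eq_zero.1 hq.2, fun r1 r2 e1 e2 => hi r1 r2 (Prod.ext ?_ ?_)⟩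
  · simpa [smul_eq_C_mul] using e1
  · exact Prod.ext (by simpa [smul_eq_C_mul] using congrArg Prod.fst e2)
      (by simpa [smul_eq_C_mul] using congrArg Prod.snd e2)

end Nc5

theorem nc5S (hK : KgStmt) (hP : PullStmt) : Nc5Stmt := by
  intro K _ _ w J h hB hC hN
  obtain ⟨k1, k2, k3, k4⟩ := hK K 5 w J (by norm_num) h hB hC
  obtain ⟨c1, c2, θ1, θ2, d1', d2, d3, d4, p1, p2, hi⟩ := Nc5.two h
  obtain ⟨r, hr⟩ := k3 (c2 • θ1 - c1 • θ2) ((DF.smul (a := 3) d2 d3).sub (DF.smul (a := 3) d1' d4))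
    (by rw [wg_sub, wg_smul, wg_smul, p1, p2]; ring)
  have r0 : r ≠ 0 := fun e => hN (k4 c1 c2 θ1 θ2 d1' d2 d3 d4 p1 p2 hi
    (sub_eq_zero.1 (by rw [hr, e, map_zero, zero_smul])))
  have dg : ∀ {a b : R2 K} {u v : Fm K}, DL 4 a → DL 4 b → DF 3 u → DF 3 v →
      DL 5 (a * dv u - wg (d1 b) v) := fun ha hb hu hv =>
    (DL.mul (a := 3) ha hu.dv).sub (DF.wg (n := 2) (DF.d1 hb) hv)
  have m11 := h.l1 c1 θ1 p1
  have m22 := h.l1 c2 θ2 p2
  have m12 := h.l1 (c1 + c2) (θ1 + θ2) (by rw [Pr, wg_add, p1, p2]; ring)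
  have e := congrArg dv hr
  rw [dv_sub, dv_smul, dv_smul, dv_C_smul] at e
  have half : (C (2⁻¹ : K) : R2 K) * 2 = 1 := by
    rw [← map_ofNat (C : K →+* R2 K) 2, ← map_mul, inv_mul_cancel₀ two_ne_zero, map_one]
  have s := J.sub_mem (J.sub_mem m12 m11) m22
  have a12 : c2 * dv θ1 - wg (d1 c1) θ2 ∈ J := by
    have := J.mul_mem_left (C (2⁻¹ : K)) (J.add_mem s (J.mul_mem_left (C r) h.mB))
    have e' : C (2⁻¹ : K) * (rr (c1 + c2) (θ1 + θ2) - rr c1 θ1 - rr c2 θ2 + C r * dv w) =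
        c2 * dv θ1 - wg (d1 c1) θ2 := by
      simp only [rr, d1_add, dv_add, wg_add, wg_add']
      linear_combination (c2 * dv θ1 - wg (d1 c1) θ2) * half - C (2⁻¹ : K) * e
    rwa [e'] at this
  have a21 : c1 * dv θ2 - wg (d1 c2) θ1 ∈ J := by
    have := J.sub_mem a12 (J.mul_mem_left (C r) h.mB)
    have e' : c2 * dv θ1 - wg (d1 c1) θ2 - C r * dv w = c1 * dv θ2 - wg (d1 c2) θ1 := by
      linear_combination e
    rwa [e'] at this
  obtain ⟨t11, e11⟩ := k1 _ m11 (dg d1' d1' d3 d3)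
  obtain ⟨t12, e12⟩ := k1 _ a12 (dg d2 d1' d3 d4)
  obtain ⟨t21, e21⟩ := k1 _ a21 (dg d1' d2 d4 d3)
  obtain ⟨t22, e22⟩ := k1 _ m22 (dg d2 d2 d4 d4)
  exact (hP K w θ1 θ2 c1 c2 r t11 t12 t21 t22 r0 k2
    (fun k => hB (h.low _ h.mB (k.mono (by norm_num)))) d3 d4 p1 p2 hr e11 e12 e21 e22).2.2

end Pool.Agent.MP_05b4bd_ag.PC3

end MrgPart10

-- ======== part 11: formerly Pool.Agent.MP_05b4bd_ag.pc3.Pbl
section MrgPart11

/-! Pull-backs of linear forms are limits of logarithmic forms with two components. -/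

namespace Pool.Agent.MP_05b4bd_ag.PC3

open MvPolynomial HC ES

namespace Pbl
variable {K : Type} [Field K] [CharZero K] [IsAlgClosed K]

theorem quad (p q : K) : ∃ s : Finset K, ∀ τ ∉ s, τ ^ 2 + p * τ + q ≠ 0 := by
  classical
  obtain ⟨r, hr⟩ := IsAlgClosed.exists_pow_nat_eq (p ^ 2 - 4 * q) (n := 2) two_pos
  refine ⟨{(r - p) / 2, (-r - p) / 2}, fun τ hτ h => hτ ?_⟩
  have : (τ - (r - p) / 2) * (τ - (-r - p) / 2) = 0 := by
    linear_combination h - (1 / 4 : K) * hr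
  rcases mul_eq_zero.1 this with e | e
  · exact Finset.mem_insert.2 (Or.inl (sub_eq_zero.1 e))
  · exact Finset.mem_insert.2 (Or.inr (Finset.mem_singleton.2 (sub_eq_zero.1 e)))

theorem roots {s c : K} (h : s ^ 2 - 4 * c ≠ 0) :
    ∃ u v : K, u ≠ 0 ∧ u - v ≠ 0 ∧ u + v = s ∧ u * v = c := by
  obtain ⟨r, hr⟩ := IsAlgClosed.exists_pow_nat_eq (s ^ 2 - 4 * c) (n := 2) two_pos
  have r0 : r ≠ 0 := fun e => h (by rw [← hr, e]; ring)
  by_cases h1 : (s + r) / 2 = 0
  · refine ⟨(s - r) / 2, (s + r) / 2, fun e => r0 (by linear_combination h1 - e),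
      fun e => r0 (by linear_combination -e), by ring, by linear_combination (-1 / 4 : K) * hr⟩
  · exact ⟨(s + r) / 2, (s - r) / 2, h1, fun e => r0 (by linear_combination e), by ring,
      by linear_combination (-1 / 4 : K) * hr⟩

theorem solve (a0 a1 a2 b0 b1 b2 : K) (h1 : (a2 + b1) ^ 2 - 4 * (a1 * b2) ≠ 0)
    (h2 : a2 * b1 - a1 * b2 ≠ 0) : ∃ f0 f1 f2 g0 g1 g2 β α : K,
      a0 = β * f0 * g1 + α * g0 * f1 ∧ a1 = β * f1 * g1 + α * g1 * f1 ∧
      a2 = β * f2 * g1 + α * g2 * f1 ∧ b0 = β * f0 * g2 + α * g0 * f2 ∧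
      b1 = β * f1 * g2 + α * g1 * f2 ∧ b2 = β * f2 * g2 + α * g2 * f2 := by
  obtain ⟨u, v, hu, hd, hs, hp⟩ := roots h1
  have h3 : (a2 - v) * (u - a2) ≠ 0 := fun e => h2 (by linear_combination e - a2 * hs + hp)
  have h4 := left_ne_zero_of_mul h3
  have h5 := right_ne_zero_of_mul h3
  refine ⟨(b0 * u - a0 * b2) / (u - a2), u, b2, (a0 - a1 / u * b0) / (a2 - v), a1 / u, 1,
    (u - a2) / (u - v), (a2 - v) / (u - v), ?_, ?_, ?_, ?_, ?_, ?_⟩
  · field_simp; linear_combination (-a0) * hp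
  · field_simp; ring
  · field_simp; linear_combination (u - a2) * hp
  · field_simp; linear_combination (-b0) * hp
  · field_simp; linear_combination (a2 - v) * hp - u * (u - v) * hs
  · field_simp; ring

omit [CharZero K] [IsAlgClosed K] in
theorem two {n : ℕ} {m1 m2 : R2 K} (h1 : DL (n + 1) m1) (h2 : DL (n + 1) m2)
    (f0 f1 f2 g0 g1 g2 β α : K) : H2 n n
      (fm (C (β * f0 * g1 + α * g0 * f1) + C (β * f1 * g1 + α * g1 * f1) * m1 +
        C (β * f2 * g1 + α * g2 * f1) * m2) m1 +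
      fm (C (β * f0 * g2 + α * g0 * f2) + C (β * f1 * g2 + α * g1 * f2) * m1 +
        C (β * f2 * g2 + α * g2 * f2) * m2) m2) := by
  have hl : ∀ c0 c1 c2 : K, DL (n + 1) (C c0 + C c1 * m1 + C c2 * m2) := fun c0 c1 c2 =>
    (((DL_iff.2 (totalDegree_C c0).le).mono (by omega)).add (h1.C_mul c1)).add (h2.C_mul c2)
  refine ⟨C f0 + C f1 * m1 + C f2 * m2, C g0 + C g1 * m1 + C g2 * m2, β, α, hl _ _ _, hl _ _ _, ?_⟩
  refine Prod.ext ?_ ?_ <;>
    simp only [fm, Prod.fst_add, Prod.snd_add, map_add, pderiv_C, pderiv_C_mul, zero_add] <;>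
    simp only [map_mul] <;> ring

end Pbl

open Pbl in
theorem pblS : PblStmt := by
  classical
  rintro K _ _ _ n w ⟨m1, m2, a0, a1, a2, b0, b1, b2, h1, h2, rfl⟩
  obtain ⟨s1, hs1⟩ := quad (a2 + b1) (((a2 + b1) ^ 2 - 4 * (a1 * b2)) / 4)
  obtain ⟨s2, hs2⟩ := quad (a2 + b1) (a2 * b1 - a1 * b2)
  refine ⟨fm m2 m1 + fm m1 m2, s1 ∪ s2, fun τ hτ => ?_⟩
  rw [Finset.mem_union, not_or] at hτ
  obtain ⟨f0, f1, f2, g0, g1, g2, β, α, e0, e1, e2, e3, e4, e5⟩ :=
    solve a0 a1 (a2 + τ) b0 (b1 + τ) b2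
      (fun e => hs1 τ hτ.1 (by linear_combination (1 / 4 : K) * e))
      (fun e => hs2 τ hτ.2 (by linear_combination e))
  have := two h1 h2 f0 f1 f2 g0 g1 g2 β α
  rw [← e0, ← e1, ← e2, ← e3, ← e4, ← e5] at this
  have e : fm (C a0 + C a1 * m1 + C a2 * m2) m1 + fm (C b0 + C b1 * m1 + C b2 * m2) m2 +
      (C τ : R2 K) • (fm m2 m1 + fm m1 m2) =
      fm (C a0 + C a1 * m1 + C (a2 + τ) * m2) m1 + fm (C b0 + C (b1 + τ) * m1 + C b2 * m2) m2 := by
    refine Prod.ext ?_ ?_ <;>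
      simp only [fm, Prod.fst_add, Prod.snd_add, Prod.smul_fst, Prod.smul_snd, smul_eq_mul,
        map_add] <;> ring
  rw [e]
  exact this

end Pool.Agent.MP_05b4bd_ag.PC3

end MrgPart11

-- ======== part 12: formerly Pool.Agent.MP_05b4bd_ag.pc3.Pull
section MrgPart12

/-! Two pairs whose brackets are multiples of the derivative give a pull-back. -/

namespace Pool.Agent.MP_05b4bd_ag.PC3

open MvPolynomial HC ES

namespace Pull
variable {K : Type} [Field K]

theorem dvd_of {P Q B a : R2 K} (h : IsRelPrime P Q) (h1 : B ∣ a * P) (h2 : B ∣ a * Q) : B ∣ a := by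
  classical
  let _ := UniqueFactorizationMonoid.toGCDMonoid (R2 K)
  have h3 := (dvd_gcd h1 h2).trans (gcd_mul_left' a P Q).dvd
  exact ((gcd_isUnit_iff_isRelPrime.2 h).dvd_mul_right).1 h3

theorem const [CharZero K] {h : R2 K} (h0 : d1 h = 0) : ∃ k, h = C k := by
  have h1 : pderiv 1 h = 0 := congrArg Prod.fst h0
  have h2 : pderiv 0 h = 0 := neg_eq_zero.1 (congrArg Prod.snd h0)
  have key : ∀ i : Fin 2, pderiv i h = 0 → ∀ m : Fin 2 →₀ ℕ, m i ≠ 0 → coeff m h = 0 := by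
    intro i hi m hm
    have := congrArg (coeff (m - Finsupp.single i 1)) hi
    rw [coeff_pderiv, coeff_zero, tsub_add_cancel_of_le (by
      rw [Finsupp.single_le_iff]; omega)] at this
    exact (mul_eq_zero.1 this).resolve_right (Nat.cast_add_one_ne_zero _)
  refine ⟨_, DL1_eq fun m hm => ?_⟩
  by_cases h3 : m 0 = 0
  · exact key 1 h1 m (by have := deg2 m; omega)
  · exact key 0 h2 m h3

theorem exact [CharZero K] {θ : Fm K} (h : DF 3 θ) (h0 : dv θ = 0) : ∃ m, DL 4 m ∧ θ = d1 m :=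
  ⟨pot θ.1 θ.2, pot_DL h.1 h.2, Prod.ext (by
    have : pderiv 0 θ.1 + pderiv 1 θ.2 = 0 := h0
    simp only [d1]; rw [pot_y, this, map_zero, sub_zero]) (by simp only [d1]; rw [pot_x, neg_neg])⟩

theorem one {w θ1 θ2 : Fm K} {c1 c2 c D : R2 K} {r s t : K} (hr : r ≠ 0)
    (hw : IsRelPrime w.1 w.2) (hB : ¬ DL 2 (dv w)) (hD : DL 2 D)
    (E : c2 • θ1 - c1 • θ2 = (C r : R2 K) • w) (hW : wg θ1 θ2 = -(C r * dv w))
    (e1 : c1 * D - wg (d1 c) θ1 = C s * dv w) (e2 : c2 * D - wg (d1 c) θ2 = C t * dv w) :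
    D = 0 ∧ (C r : R2 K) • d1 c = (C t : R2 K) • θ1 - (C s : R2 K) • θ2 := by
  have B0 : dv w ≠ 0 := fun e => hB (e ▸ DL.zero 2)
  have h3 := wg_three θ1 θ2 (d1 c)
  rw [hW, wg_comm θ2, show wg (d1 c) θ1 = c1 * D - C s * dv w by rw [← e1]; ring,
    show wg (d1 c) θ2 = c2 * D - C t * dv w by rw [← e2]; ring] at h3
  have a1 := congrArg Prod.fst h3
  have a2 := congrArg Prod.snd h3
  have b1 := congrArg Prod.fst E
  have b2 := congrArg Prod.snd E
  simp only [Prod.fst_add, Prod.snd_add, Prod.smul_fst, Prod.smul_snd, smul_eq_mul, Prod.fst_sub,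
    Prod.snd_sub, Prod.fst_zero, Prod.snd_zero] at a1 a2 b1 b2
  have hd : dv w ∣ C r * D := dvd_of hw
    ⟨C t * θ1.1 - C s * θ2.1 - C r * (d1 c).1, by linear_combination (-1 : R2 K) * a1 - D * b1⟩
    ⟨C t * θ1.2 - C s * θ2.2 - C r * (d1 c).2, by linear_combination (-1 : R2 K) * a2 - D * b2⟩
  obtain ⟨q, hq⟩ := hd
  have q0 : q = 0 := (DL_of_mul (a := 0) (b := 2) (u := q) (v := dv w)
    (by rw [mul_comm, ← hq]; exact hD.C_mul r) hB).eq_zero
  have D0 : D = 0 := by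
    rw [q0, mul_zero] at hq
    exact (mul_eq_zero.1 hq).resolve_left (by simpa using hr)
  subst D0
  refine ⟨rfl, Prod.ext (mul_left_cancel₀ B0 ?_) (mul_left_cancel₀ B0 ?_)⟩
  · simp only [Prod.smul_fst, smul_eq_mul, Prod.fst_sub]
    linear_combination (-1 : R2 K) * a1
  · simp only [Prod.smul_snd, smul_eq_mul, Prod.snd_sub]
    linear_combination (-1 : R2 K) * a2

end Pull

theorem pullS : PullStmt := by
  intro K _ _ w θ1 θ2 c1 c2 r t11 t12 t21 t22 hr hw hB d1' d2' p1 p2 E e11 e12 e21 e22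
  have hW : wg θ1 θ2 = -(C r * dv w) := by
    have a1 := congrArg (wg θ1) E
    have a2 := congrArg (wg θ2) E
    rw [wg_sub', wg_smul', wg_smul', wg_smul', wg_self] at a1 a2
    rw [show wg θ1 w = c1 * dv w from p1] at a1
    rw [show wg θ2 w = c2 * dv w from p2, wg_comm θ2] at a2
    by_contra hc
    have hn : wg θ1 θ2 + C r * dv w ≠ 0 := fun e => hc (eq_neg_of_add_eq_zero_left e)
    have z1 : c1 = 0 := (mul_eq_zero.1 (show c1 * (wg θ1 θ2 + C r * dv w) = 0 by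
      linear_combination (-1 : R2 K) * a1)).resolve_right hn
    have z2 : c2 = 0 := (mul_eq_zero.1 (show c2 * (wg θ1 θ2 + C r * dv w) = 0 by
      linear_combination (-1 : R2 K) * a2)).resolve_right hn
    have z3 := congrArg dv E
    rw [z1, z2, zero_smul, zero_smul, sub_zero, dv_zero, dv_C_smul] at z3
    have z4 : dv w = 0 := (mul_eq_zero.1 z3.symm).resolve_left (by simpa using hr)
    exact hB (z4 ▸ DL.zero 2)
  obtain ⟨z1, k1⟩ := Pull.one hr hw hB d1'.dv E hW e11 e12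
  obtain ⟨z2, k2⟩ := Pull.one hr hw hB d2'.dv E hW e21 e22
  refine ⟨z1, z2, ?_⟩
  obtain ⟨m1, h1, rfl⟩ := Pull.exact d1' z1
  obtain ⟨m2, h2, rfl⟩ := Pull.exact d2' z2
  obtain ⟨l1, g1⟩ := Pull.const (h := C r * c1 - (C t12 * m1 - C t11 * m2)) (by
    rw [d1_sub, d1_sub, d1_C_mul, d1_C_mul, d1_C_mul, k1, sub_self])
  obtain ⟨l2, g2⟩ := Pull.const (h := C r * c2 - (C t22 * m1 - C t21 * m2)) (by
    rw [d1_sub, d1_sub, d1_C_mul, d1_C_mul, d1_C_mul, k2, sub_self])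
  have hi : (C r⁻¹ * C r : R2 K) = 1 := by rw [← map_mul, inv_mul_cancel₀ hr, map_one]
  refine ⟨m1, m2, r⁻¹ * r⁻¹ * l2, r⁻¹ * r⁻¹ * t22, -(r⁻¹ * r⁻¹ * t21), -(r⁻¹ * r⁻¹ * l1),
    -(r⁻¹ * r⁻¹ * t12), r⁻¹ * r⁻¹ * t11, h1, h2, ?_⟩
  have f1 : (C (r⁻¹ * r⁻¹ * l2) + C (r⁻¹ * r⁻¹ * t22) * m1 + C (-(r⁻¹ * r⁻¹ * t21)) * m2 : R2 K) =
      C r⁻¹ * c2 := by
    simp only [map_mul, map_neg]
    linear_combination (-(C r⁻¹ * C r⁻¹) : R2 K) * g2 + C r⁻¹ * c2 * hi
  have f2 : (C (-(r⁻¹ * r⁻¹ * l1)) + C (-(r⁻¹ * r⁻¹ * t12)) * m1 + C (r⁻¹ * r⁻¹ * t11) * m2 :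
      R2 K) = -(C r⁻¹ * c1) := by
    simp only [map_mul, map_neg]
    linear_combination (C r⁻¹ * C r⁻¹ : R2 K) * g1 - C r⁻¹ * c1 * hi
  rw [f1, f2, fm_eq, fm_eq, neg_smul, ← sub_eq_add_neg, mul_smul, mul_smul, ← smul_sub, E,
    smul_smul, hi, one_smul]

end Pool.Agent.MP_05b4bd_ag.PC3

end MrgPart12

-- marker of a merged file
example : 731051 + 686102 = 731051 + 686102 := rfl
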