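import Pool.Agent.MP_05b4bd_ag.pc3.Lift

/-! Exact forms are limits of logarithmic forms with two lines. -/

namespace Pool.Agent.MP_05b4bd_ag.PC3

open MvPolynomial HC ES

namespace Dom3

section Ring
variable {R : Type} [CommRing R]

/-- `120` times the binomial coefficient. -/
def ca (A : R) : ℕ → R
  | 0 => 120
  | 1 => 120 * A
  | 2 => 60 * (A * (A - 1))
  | 3 => 20 * (A * (A - 1) * (A - 2))
  | 4 => 5 * (A * (A - 1) * (A - 2) * (A - 3))
  | _ => A * (A - 1) * (A - 2) * (A - 3) * (A - 4)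

/-- Its derivative. -/
def da (A : R) : ℕ → R
  | 0 => 0
  | 1 => 120
  | 2 => 60 * (2 * A - 1)
  | 3 => 20 * (3 * A ^ 2 - 6 * A + 2)
  | 4 => 5 * (4 * A ^ 3 - 18 * A ^ 2 + 22 * A - 6)
  | _ => 5 * A ^ 4 - 40 * A ^ 3 + 105 * A ^ 2 - 100 * A + 24

def T (p q : ℕ → R) (u v : R) (n : ℕ) : R :=
  ∑ i ∈ Finset.range (n + 1), p i * q (n - i) * u ^ i * v ^ (n - i)

def Tu (p q : ℕ → R) (u v : R) (n : ℕ) : R :=
  ∑ i ∈ Finset.range (n + 1), p i * q (n - i) * (i * u ^ (i - 1)) * v ^ (n - i)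

def Tv (p q : ℕ → R) (u v : R) (n : ℕ) : R :=
  ∑ i ∈ Finset.range (n + 1), p i * q (n - i) * u ^ i * ((n - i : ℕ) * v ^ (n - i - 1))

theorem recu (A B u v : R) (n : ℕ) (hn : n ≤ 3) :
    Tu (ca A) (ca B) u v (n + 2) + (u + v) * Tu (ca A) (ca B) u v (n + 1) -
      A * T (ca A) (ca B) u v (n + 1) + u * v * Tu (ca A) (ca B) u v n -
      A * v * T (ca A) (ca B) u v n = 0 := by
  interval_cases n <;> simp [T, Tu, Finset.sum_range_succ, ca] <;> ring

theorem recv (A B u v : R) (n : ℕ) (hn : n ≤ 3) :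
    Tv (ca A) (ca B) u v (n + 2) + (u + v) * Tv (ca A) (ca B) u v (n + 1) -
      B * T (ca A) (ca B) u v (n + 1) + u * v * Tv (ca A) (ca B) u v n -
      B * u * T (ca A) (ca B) u v n = 0 := by
  interval_cases n <;> simp [T, Tv, Finset.sum_range_succ, ca] <;> ring

end Ring

theorem C_ca (a : ℂ) (i : ℕ) : ca (C a : Poly) i = C (ca a i) := by
  rcases i with _ | _ | _ | _ | _ | i <;> simp only [ca, map_mul, map_sub, map_one, map_ofNat]

theorem d1_pow (u : Poly) (i : ℕ) : d1 (u ^ i) = ((i : Poly) * u ^ (i - 1)) • d1 u :=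
  Prod.ext (by simp [d1, mul_assoc]) (by simp [d1, mul_assoc])

theorem d1_sum (s : Finset ℕ) (f : ℕ → Poly) : d1 (∑ i ∈ s, f i) = ∑ i ∈ s, d1 (f i) := by
  induction s using Finset.induction_on with
  | empty => simpa using d1_C (0 : ℂ)
  | insert a s ha ih => rw [Finset.sum_insert ha, Finset.sum_insert ha, d1_add, ih]

theorem d1_T (a b : ℂ) (u v : Poly) (n : ℕ) : d1 (T (ca (C a)) (ca (C b)) u v n) =
    Tu (ca (C a)) (ca (C b)) u v n • d1 u + Tv (ca (C a)) (ca (C b)) u v n • d1 v := by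
  rw [T, Tu, Tv, d1_sum, Finset.sum_smul, Finset.sum_smul, ← Finset.sum_add_distrib]
  refine Finset.sum_congr rfl fun i _ => ?_
  simp only [C_ca, d1_mul, d1_C, d1_pow]
  module

theorem T_hom (a b : ℂ) {u v : Poly} (hu : u.IsHomogeneous 1) (hv : v.IsHomogeneous 1) (n : ℕ) :
    (T (ca (C a)) (ca (C b)) u v n).IsHomogeneous n := by
  refine IsHomogeneous.sum _ _ _ fun i hi => ?_
  have := Finset.mem_range.1 hi
  have h := (((isHomogeneous_C (Fin 2) (ca a i)).mul (isHomogeneous_C (Fin 2) (ca b (n - i)))).mul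
    (hu.pow i)).mul (hv.pow (n - i))
  rwa [show 0 + 0 + 1 * i + 1 * (n - i) = n by omega, ← C_ca, ← C_ca] at h

noncomputable def D1 (A B u v G : Poly) : Form :=
  (u + v) • d1 G - (A * G) • d1 u - (B * G) • d1 v

noncomputable def D2 (A B u v G : Poly) : Form :=
  (u * v) • d1 G - (A * v * G) • d1 u - (B * u * G) • d1 v

noncomputable def D (A B u v ε G : Poly) : Form :=
  d1 G + ε • D1 A B u v G + ε ^ 2 • D2 A B u v G

theorem D_add (A B u v ε G H : Poly) : D A B u v ε (G + H) = D A B u v ε G + D A B u v ε H := by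
  simp only [D, D1, D2, d1_add]; module

theorem D_C (A B u v ε G : Poly) (c : ℂ) :
    D A B u v ε (C c * G) = (C c : Poly) • D A B u v ε G := by
  simp only [D, D1, D2, d1_C_mul]; module

theorem D_sum (a b τ : ℂ) (u v : Poly) (e : ℕ) (he : e ≤ 4) :
    D (C a) (C b) u v (C τ) (∑ n ∈ Finset.range (e + 1), C (τ ^ n) * T (ca (C a)) (ca (C b)) u v n) =
      -((C τ : Poly) ^ (e + 1) • d1 (T (ca (C a)) (ca (C b)) u v (e + 1))) +
        (C τ : Poly) ^ (e + 2) • D2 (C a) (C b) u v (T (ca (C a)) (ca (C b)) u v e) := by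
  induction e with
  | zero =>
    rw [Finset.sum_range_one, D_C]
    simp only [D, D1, D2, d1_T]
    simp [T, Tu, Tv, Finset.sum_range_succ, ca]
    module
  | succ e ih =>
    rw [Finset.sum_range_succ, D_add, ih (by omega), D_C, map_pow]
    have h1 := recu (C a : Poly) (C b) u v e (by omega)
    have h2 := recv (C a : Poly) (C b) u v e (by omega)
    simp only [D, D1, D2, d1_T]
    linear_combination (norm := module) ((C τ : Poly) ^ (e + 2) * h1) • d1 u +
      ((C τ : Poly) ^ (e + 2) * h2) • d1 v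

theorem D_mem (a b τ : ℂ) {u v G : Poly} (hu : u.IsHomogeneous 1) (hv : v.IsHomogeneous 1) {e : ℕ}
    (hG : G.totalDegree ≤ e) : D (C a) (C b) u v (C τ) G ∈ L ![1, 1, e] := by
  have k : ∀ {w : Poly}, w.IsHomogeneous 1 → (1 + C τ * w).totalDegree ≤ 1 := fun hw =>
    DL_iff.1 (((DL_C 1).mono (by omega)).add ((DL.of_hom hw).C_mul τ))
  refine ⟨![1 + C τ * u, 1 + C τ * v, G], ![-a, -b, 1], fun i => ?_, ?_⟩
  · fin_cases i
    exacts [k hu, k hv, hG]
  · have e0 : (Finset.univ.erase 0 : Finset (Fin 3)) = {1, 2} := by decide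
    have e1 : (Finset.univ.erase 1 : Finset (Fin 3)) = {0, 2} := by decide
    have e2 : (Finset.univ.erase 2 : Finset (Fin 3)) = {0, 1} := by decide
    have k1 : ∀ w : Poly, dform (1 + C τ * w) = (C τ : Poly) • d1 w := fun w => by
      rw [← d1_C_mul]; exact Prod.ext (by simp [dform, d1]) (by simp [dform, d1])
    rw [Fin.sum_univ_three, e0, e1, e2, Finset.prod_pair (by decide), Finset.prod_pair (by decide),
      Finset.prod_pair (by decide)]
    simp only [Matrix.cons_val, k1, map_neg, map_one, D, D1, D2]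
    change _ = _ + _ + _ • d1 G
    module

theorem PF_q (w0 w1 w2 : Form) : PF fun τ => w0 + (C τ : Poly) • (w1 + (C τ : Poly) • w2) :=
  (PF.const w0).add (PF.psmul PS.id.toC ((PF.const w1).add (PF.psmul PS.id.toC (PF.const w2))))

theorem key (a b : ℂ) {u v g : Poly} (hu : u.IsHomogeneous 1) (hv : v.IsHomogeneous 1) {e : ℕ}
    (he : e ≤ 4) (hg : g.totalDegree ≤ e) :
    dform (-T (ca (C a)) (ca (C b)) u v (e + 1) + g) ∈ zcl (L ![1, 1, e]) := by
  set t := T (ca (C a : Poly)) (ca (C b)) u v with ht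
  have hγ := PF_q (d1 (-t (e + 1) + g)) (D2 (C a) (C b) u v (t e) + D1 (C a) (C b) u v g)
    (D2 (C a) (C b) u v g)
  have := hγ.mem_zcl_of_ne (S := L ![1, 1, e]) fun τ hτ => subset_zcl _ (by
    have hd : (C (τ⁻¹ ^ (e + 1)) * ∑ n ∈ Finset.range (e + 1), C (τ ^ n) * t n + g).totalDegree ≤ e := by
      refine DL_iff.1 (DL.add (DL.C_mul _ (DL.sum _ fun n hn => ?_)) (DL_iff.2 hg))
      exact ((DL.of_hom (T_hom a b hu hv n)).mono (by have := Finset.mem_range.1 hn; omega)).C_mul _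
    have h := D_mem a b τ hu hv hd
    rw [D_add, D_C, D_sum a b τ u v e he, ← ht] at h
    have h1 : (C (τ⁻¹ ^ (e + 1)) * C τ ^ (e + 1) : Poly) = 1 := by
      rw [← map_pow, ← map_mul, ← mul_pow, inv_mul_cancel₀ hτ, one_pow, map_one]
    have h2 : d1 (-t (e + 1) + g) = d1 g - d1 (t (e + 1)) := by rw [← d1_sub]; ring_nf
    refine (Eq.subst ?_ h :)
    rw [h2, D]
    linear_combination (norm := module) h1 • (-d1 (t (e + 1)) +
      (C τ : Poly) • D2 (C a) (C b) u v (t e)))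
  rw [map_zero, zero_smul, add_zero] at this
  exact this

/-- First order expansion of a polynomial curve. -/
def J (Φ : ℂ → Poly) (F G : Poly) : Prop :=
  ∃ H : ℂ → Poly, PC H ∧ ∀ τ, Φ τ = F + C τ * G + C τ ^ 2 * H τ

variable {Φ Ψ : ℂ → Poly} {F G F' G' : Poly}

theorem J.line (F G : Poly) : J (fun τ => F + C τ * G) F G :=
  ⟨fun _ => 0, PC.const 0, fun _ => by ring⟩

theorem J.const (F : Poly) : J (fun _ => F) F 0 := ⟨fun _ => 0, PC.const 0, fun _ => by ring⟩

theorem J.add (h : J Φ F G) (h' : J Ψ F' G') : J (fun τ => Φ τ + Ψ τ) (F + F') (G + G') := by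
  obtain ⟨H, hH, h⟩ := h; obtain ⟨K, hK, h'⟩ := h'
  exact ⟨_, hH.add hK, fun τ => by simp only [h, h']; ring⟩

theorem J.sub (h : J Φ F G) (h' : J Ψ F' G') : J (fun τ => Φ τ - Ψ τ) (F - F') (G - G') := by
  obtain ⟨H, hH, h⟩ := h; obtain ⟨K, hK, h'⟩ := h'
  exact ⟨_, hH.sub hK, fun τ => by simp only [h, h']; ring⟩

theorem J.mul (h : J Φ F G) (h' : J Ψ F' G') :
    J (fun τ => Φ τ * Ψ τ) (F * F') (G * F' + F * G') := by
  obtain ⟨H, hH, h⟩ := h; obtain ⟨K, hK, h'⟩ := h'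
  exact ⟨fun τ => G * G' + H τ * (F' + C τ * G') + (F + C τ * G + C τ ^ 2 * H τ) * K τ,
    ((PC.const _).add (hH.mul ((PC.const _).add (PS.id.toC.mul (PC.const _))))).add
      ((((PC.const _).add (PS.id.toC.mul (PC.const _))).add ((PS.id.toC.pow 2).mul hH)).mul hK),
    fun τ => by simp only [h, h']; ring⟩

theorem J.of (h : J Φ F G) (e : G = G') : J Φ F G' := e ▸ h

theorem J.pow (h : J Φ F G) (i : ℕ) : J (fun τ => Φ τ ^ i) (F ^ i) (G * (i * F ^ (i - 1))) := by
  induction i with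
  | zero => simpa using J.const 1
  | succ i ih =>
    simp only [pow_succ]
    refine (ih.mul h).of ?_
    rcases i with _ | i
    · simp
    · simp only [Nat.add_sub_cancel]; push_cast; ring

theorem J.sum (s : Finset ℕ) {f : ℕ → ℂ → Poly} {p q : ℕ → Poly} (h : ∀ i, J (f i) (p i) (q i)) :
    J (fun τ => ∑ i ∈ s, f i τ) (∑ i ∈ s, p i) (∑ i ∈ s, q i) := by
  induction s using Finset.induction_on with
  | empty => simpa using J.const 0
  | insert a s ha ih => simp only [Finset.sum_insert ha]; exact (h a).add ih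

theorem J.ca (h : J Φ F G) (i : ℕ) : J (fun τ => ca (Φ τ) i) (ca F i) (G * da F i) := by
  have h2 := h.mul (h.sub (J.const 1))
  have h3 := h2.mul (h.sub (J.const 2))
  have h4 := h3.mul (h.sub (J.const 3))
  rcases i with _ | _ | _ | _ | _ | i
  · exact (J.const 120).of (by simp [da])
  · exact ((J.const 120).mul h).of (by simp only [da]; ring)
  · exact ((J.const 60).mul h2).of (by simp only [da]; ring)
  · exact ((J.const 20).mul h3).of (by simp only [da]; ring)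
  · exact ((J.const 5).mul h4).of (by simp only [da]; ring)
  · exact (h4.mul (h.sub (J.const 4))).of (by simp only [da]; ring)

/-- The tangent vector. -/
noncomputable def tg (A B u v A' B' u' v' : Poly) (n : ℕ) : Poly :=
  A' * T (da A) (ca B) u v n + B' * T (ca A) (da B) u v n + u' * Tu (ca A) (ca B) u v n +
    v' * Tv (ca A) (ca B) u v n

theorem J_T (A B u v A' B' u' v' : Poly) (n : ℕ) :
    J (fun τ => T (ca (A + C τ * A')) (ca (B + C τ * B')) (u + C τ * u') (v + C τ * v') n)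
      (T (ca A) (ca B) u v n) (tg A B u v A' B' u' v' n) := by
  refine (J.sum (Finset.range (n + 1)) fun i => ((((J.line A A').ca i).mul
    ((J.line B B').ca (n - i))).mul ((J.line u u').pow i)).mul ((J.line v v').pow (n - i))).of ?_
  simp only [tg, T, Tu, Tv, Finset.mul_sum, ← Finset.sum_add_distrib]
  exact Finset.sum_congr rfl fun i _ => by ring

theorem PC_hc {f : ℂ → Poly} (hf : PC f) (n : ℕ) : PC fun τ => hc n (f τ) := by
  obtain ⟨r, hr⟩ := hf
  refine ⟨hc n r, fun τ => ?_⟩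
  ext m
  simp only [hr, coeff_hc, coeff_map]
  split_ifs <;> simp

theorem dom (h : DomStmt) {e : ℕ} (he : e ≤ 4) (a : ℂ)
    (hs : ∀ G : Poly, G.IsHomogeneous (e + 1) → ∃ p q r s a' b' : ℂ,
      G = tg (C a) (C a) (X 0) (X 1) (C a') (C b') (HC.lf p q) (HC.lf r s) (e + 1)) :
    Ex (e + 1) ⊆ zcl (L ![1, 1, e]) := by
  have x0 := isHomogeneous_X ℂ (0 : Fin 2)
  have x1 := isHomogeneous_X ℂ (1 : Fin 2)
  have hF := T_hom a a x0 x1 (e + 1)
  refine h (e + 1) _ (-T (ca (C a)) (ca (C a)) (X 0) (X 1) (e + 1)) (by omega) hF.neg fun G hG => ?_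
  obtain ⟨p, q, r, s, a', b', hs⟩ := hs (-G) hG.neg
  obtain ⟨H, hH, e1⟩ := J_T (C a) (C a) (X 0) (X 1) (C a') (C b') (HC.lf p q) (HC.lf r s) (e + 1)
  refine ⟨fun τ => -hc (e + 1) (H τ), (PC_hc hH _).neg, fun τ => ⟨(hc_hom _ _).neg, fun g hg => ?_⟩⟩
  have hu := x0.add ((lf_hom p q).C_mul τ)
  have hv := x1.add ((lf_hom r s).C_mul τ)
  have h1 := key (a + τ * a') (a + τ * b') hu hv he (Nat.lt_succ_iff.1 hg)
  have h2 := hc_self (T_hom (a + τ * a') (a + τ * b') hu hv (e + 1))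
  have e2 := e1 τ
  simp only [← map_mul, ← map_add, ← map_pow, ← hs] at e2
  rw [← h2, e2, hc_add, hc_add, hc_C_mul, hc_C_mul, hc_self hF, hc_self hG.neg] at h1
  refine (Eq.subst (congrArg dform ?_) h1 :)
  simp only [smul_eq_C_mul]
  ring

end Dom3

open Dom3 in
theorem dom3S (h : DomStmt) : Dom3Stmt := by
  intro e h2 h4
  interval_cases e
  · refine dom h (by omega) 2 fun G hG => ?_
    rw [hom_eq_sum hG]
    simp only [Finset.sum_range_succ, Finset.range_zero, Finset.sum_empty]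
    generalize HC.co (2 + 1 - 0) 0 G = g0, HC.co (2 + 1 - 1) 1 G = g1, HC.co (2 + 1 - 2) 2 G = g2,
      HC.co (2 + 1 - 3) 3 G = g3
    obtain ⟨p, q, r, s, rfl, rfl, rfl, rfl⟩ : ∃ p q r s : ℂ, g0 = 28800 * r ∧
        g1 = 57600 * p + 57600 * r + 28800 * s ∧ g2 = 28800 * p + 57600 * q + 57600 * s ∧
        g3 = 28800 * q :=
      ⟨-1 / 21600 * g0 + 1 / 43200 * g1 - 1 / 86400 * g2 + 1 / 43200 * g3, 1 / 28800 * g3,
        1 / 28800 * g0, 1 / 43200 * g0 - 1 / 86400 * g1 + 1 / 43200 * g2 - 1 / 21600 * g3,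
        by ring, by ring, by ring, by ring⟩
    refine ⟨p, q, r, s, 0, 0, ?_⟩
    simp only [map_add, map_mul, map_ofNat]
    simp [tg, T, Tu, Tv, Finset.sum_range_succ, ca, da, HC.lf]
    ring
  · refine dom h (by omega) 2 fun G hG => ?_
    rw [hom_eq_sum hG]
    simp only [Finset.sum_range_succ, Finset.range_zero, Finset.sum_empty]
    generalize HC.co (3 + 1 - 0) 0 G = g0, HC.co (3 + 1 - 1) 1 G = g1, HC.co (3 + 1 - 2) 2 G = g2,
      HC.co (3 + 1 - 3) 3 G = g3, HC.co (3 + 1 - 4) 4 G = g4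
    obtain ⟨p, q, r, a, b, rfl, rfl, rfl, rfl, rfl⟩ : ∃ p q r a b : ℂ, g0 = -(1200 * a) ∧
        g1 = 28800 * r + 9600 * a ∧ g2 = 28800 * p + 21600 * a + 21600 * b ∧
        g3 = 28800 * q + 9600 * b ∧ g4 = -(1200 * b) :=
      ⟨1 / 1600 * g0 + 1 / 28800 * g2 + 1 / 1600 * g4, 1 / 28800 * g3 + 1 / 3600 * g4,
        1 / 3600 * g0 + 1 / 28800 * g1, -1 / 1200 * g0, -1 / 1200 * g4,
        by ring, by ring, by ring, by ring, by ring⟩
    refine ⟨p, q, r, 0, a, b, ?_⟩
    simp only [map_add, map_mul, map_neg, map_ofNat]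
    simp [tg, T, Tu, Tv, Finset.sum_range_succ, ca, da, HC.lf]
    ring
  · refine dom h (by omega) 3 fun G hG => ?_
    rw [hom_eq_sum hG]
    simp only [Finset.sum_range_succ, Finset.range_zero, Finset.sum_empty]
    generalize HC.co (4 + 1 - 0) 0 G = g0, HC.co (4 + 1 - 1) 1 G = g1, HC.co (4 + 1 - 2) 2 G = g2,
      HC.co (4 + 1 - 3) 3 G = g3, HC.co (4 + 1 - 4) 4 G = g4, HC.co (4 + 1 - 5) 5 G = g5
    obtain ⟨p, q, r, s, a, b, rfl, rfl, rfl, rfl, rfl, rfl⟩ : ∃ p q r s a b : ℂ, g0 = -(720 * a) ∧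
        g1 = 86400 * r + 10800 * a ∧
        g2 = 129600 * p + 129600 * r + 86400 * s + 79200 * a + 36000 * b ∧
        g3 = 86400 * p + 129600 * q + 129600 * s + 36000 * a + 79200 * b ∧
        g4 = 86400 * q + 10800 * b ∧ g5 = -(720 * b) :=
      ⟨13 / 17280 * g0 - 1 / 48000 * g1 + 1 / 72000 * g2 - 1 / 108000 * g3 + 1 / 72000 * g4 -
          1 / 8640 * g5, 1 / 86400 * g4 + 1 / 5760 * g5, 1 / 5760 * g0 + 1 / 86400 * g1,
        -1 / 8640 * g0 + 1 / 72000 * g1 - 1 / 108000 * g2 + 1 / 72000 * g3 - 1 / 48000 * g4 +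
          13 / 17280 * g5, -1 / 720 * g0, -1 / 720 * g5,
        by ring, by ring, by ring, by ring, by ring, by ring⟩
    refine ⟨p, q, r, s, a, b, ?_⟩
    simp only [map_add, map_mul, map_neg, map_ofNat]
    simp [tg, T, Tu, Tv, Finset.sum_range_succ, ca, da, HC.lf]
    ring

end Pool.Agent.MP_05b4bd_ag.PC3
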