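import Pool.Agent.MP_05b4bd_ag.pc3.Lift

-- ======== part 0: formerly Pool.Agent.MP_05b4bd_ag.pc3.Up
section MrgPart0

/-! Persistent centres: upper bounds for the ideal of the persistent singular points. -/

namespace Pool.Agent.MP_05b4bd_ag.PC3

open MvPolynomial HC ES
open scoped PowerSeries LaurentSeries

namespace Up

section Field
variable {F : Type} [Field F]

/-- An invertible change of two generators. -/
theorem two_by_two {u0 u1 p q a b : R2 F} {c0 e0 c1 e1 : F} (h : LinearIndependent F ![u0, u1])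
    (h0 : u0 = C c0 * p + C e0 * q) (h1 : u1 = C c1 * p + C e1 * q)
    (ha : C c0 * a + C c1 * b = 0) (hb : C e0 * a + C e1 * b = 0) : a = 0 ∧ b = 0 := by
  have key : ∀ m, coeff m a = 0 ∧ coeff m b = 0 := fun m => by
    have e1' := congrArg (fun z => (C (coeff m z) : R2 F)) ha
    have e2' := congrArg (fun z => (C (coeff m z) : R2 F)) hb
    simp only [coeff_add, coeff_C_mul, map_add, map_mul, coeff_zero, map_zero] at e1' e2'
    refine LinearIndependent.pair_iff.1 h _ _ ?_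
    rw [smul_eq_C_mul, smul_eq_C_mul, h0, h1]
    linear_combination p * e1' + q * e2'
  exact ⟨MvPolynomial.ext _ _ fun m => (key m).1, MvPolynomial.ext _ _ fun m => (key m).2⟩

variable {e : ℕ} {a b : R2 F}

theorem ne_zero (h : CI (hc (e + 1) a) (hc (e + 1) b)) : a ≠ 0 := fun h0 =>
  h.ne_zero (hc_hom _ _) (by rw [h0]; exact map_zero _)

theorem unit_of_DL {g : R2 F} (g0 : g ≠ 0) (h : DL 1 g) : IsUnit g := by
  rw [DL1_eq h] at g0 ⊢
  exact (IsUnit.mk0 _ fun h0 => g0 (by rw [h0, map_zero])).map C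

/-- Coprime tops give coprime polynomials. -/
theorem unit_of_dvd (ha : DL (e + 2) a) (hb : DL (e + 2) b) (h : CI (hc (e + 1) a) (hc (e + 1) b))
    {g u v : R2 F} (h1 : a = u * g) (h2 : b = v * g) : IsUnit g := by
  have g0 : g ≠ 0 := fun h0 => ne_zero h (by rw [h1, h0, mul_zero])
  refine unit_of_DL g0 (by_contra fun hg => ?_)
  have hu : DL (e + 1) u := DL_of_mul (b := 1) (h1 ▸ ha) hg
  have hv : DL (e + 1) v := DL_of_mul (b := 1) (h2 ▸ hb) hg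
  have := (kos_zero ha hb h le_rfl hv hu.neg (by rw [h1, h2]; ring)).2
  exact ne_zero h (by rw [h1, neg_eq_zero.1 this, zero_mul])

/-- The degree bound in the ideal generated by `a, b`. -/
theorem card_bound (ha : DL (e + 2) a) (hb : DL (e + 2) b) (h : CI (hc (e + 1) a) (hc (e + 1) b))
    {n N : ℕ} {v : Fin N → R2 F} (hv : LinearIndependent F v)
    (h1 : ∀ i, v i ∈ Ideal.span {a, b}) (h2 : ∀ i, DL (n + (e + 1)) (v i)) : N ≤ n * (n + 1) := by
  let T : R2 F × R2 F →ₗ[F] R2 F :=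
    (LinearMap.mulRight F a).coprod (LinearMap.mulRight F b)
  have hW : ∀ i, v i ∈ ((dl F n).prod (dl F n)).map T := fun i => by
    obtain ⟨U, V, hUV⟩ := Ideal.mem_span_pair.1 (h1 i)
    obtain ⟨U', V', hU, hV, e'⟩ := kos_top ha hb h U V (hUV ▸ h2 i)
    exact ⟨(U', V'), ⟨hU, hV⟩, by rw [← hUV, ← e']; rfl⟩
  have c1 := card_le hv hW
  have c2 := Submodule.finrank_map_le T ((dl F n).prod (dl F n))
  have c3 := finrank_dl (K := F) n
  rw [finrank_prod'] at c2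
  rw [Fintype.card_fin] at c1
  omega

end Field

variable {k : Type} [Field k]

theorem prim0 (u : R2 k⸨X⸩) :
    ∃ (r : k⸨X⸩) (v : R2 k⟦X⟧), u = C r * map (coeL k) v ∧ map cc v ≠ 0 := by
  by_cases hu : u = 0
  · exact ⟨0, 1, by rw [hu, map_zero, zero_mul], by rw [map_one]; exact one_ne_zero⟩
  · obtain ⟨r, v, -, h1, h2⟩ := prim hu
    exact ⟨r, v, h1, h2⟩

/-- A jointly primitive multiple of a pair. -/
theorem prim2 {a b : R2 k⸨X⸩} (h : ¬ (a = 0 ∧ b = 0)) :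
    ∃ (r : k⸨X⸩) (a' b' : R2 k⟦X⟧), r ≠ 0 ∧ a = C r * map (coeL k) a' ∧
      b = C r * map (coeL k) b' ∧ ¬ (map cc a' = 0 ∧ map cc b' = 0) := by
  obtain ⟨r1, a1, rfl, ha⟩ := prim0 a
  obtain ⟨r2, b1, rfl, hb⟩ := prim0 b
  obtain ⟨r, z, hr, hz, i, hi⟩ := prim_fun ![r1, r2] fun h0 => h (by
    have e0 : r1 = 0 := congrFun h0 0
    have e1 : r2 = 0 := congrFun h0 1
    rw [e0, e1]; simp)
  have e0 : r1 = r * coeL k (z 0) := hz 0
  have e1 : r2 = r * coeL k (z 1) := hz 1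
  refine ⟨r, C (z 0) * a1, C (z 1) * b1, hr, ?_, ?_, fun h0 => hi ?_⟩
  · rw [e0, map_mul, map_mul, map_C, mul_assoc]
  · rw [e1, map_mul, map_mul, map_C, mul_assoc]
  · simp only [map_mul, map_C, mul_eq_zero, ha, hb, or_false, C_eq_zero] at h0
    fin_cases i
    exacts [h0.1, h0.2]

/-- Independent reductions give independence over the Laurent series. -/
theorem indK {ι : Type} [Fintype ι] {v : ι → R2 k⟦X⟧}
    (h : LinearIndependent k fun i => map cc (v i)) :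
    LinearIndependent k⸨X⸩ fun i => map (coeL k) (v i) := by
  rw [Fintype.linearIndependent_iff] at h ⊢
  intro c hc
  by_contra hn
  obtain ⟨r, z, hr, hz, i, hi⟩ := prim_fun c fun h0 => hn fun i => congrFun h0 i
  have h1 : C r * map (coeL k) (∑ i, C (z i) * v i) = 0 := by
    rw [← hc, map_sum, Finset.mul_sum]
    exact Finset.sum_congr rfl fun i _ => by
      rw [smul_eq_C_mul, hz i, map_mul, map_mul, map_C, mul_assoc]
  have h2 : ∑ i, C (z i) * v i = 0 := map_injective _ coeL_inj (by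
    rw [map_zero]; exact (mul_eq_zero.1 h1).resolve_left fun h0 => hr (C_eq_zero.1 h0))
  refine hi (h (fun i => cc (z i)) ?_ i)
  have h3 := congrArg (map (cc : k⟦X⟧ →+* k)) h2
  rw [map_sum, map_zero] at h3
  rw [← h3]
  exact Finset.sum_congr rfl fun i _ => by rw [smul_eq_C_mul, map_mul, map_C]

/-- Integral vectors with independent reductions. -/
theorem lattice (N : ℕ) : ∀ (W : Submodule k⸨X⸩ (R2 k⸨X⸩)) [Module.Finite k⸨X⸩ W],
    N ≤ Module.finrank k⸨X⸩ W → ∃ v : Fin N → R2 k⟦X⟧, (∀ i, map (coeL k) (v i) ∈ W) ∧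
      LinearIndependent k fun i => map cc (v i) := by
  induction N with
  | zero => exact fun W _ _ => ⟨Fin.elim0, fun i => i.elim0, linearIndependent_empty_type⟩
  | succ N ih =>
    intro W _ hN
    obtain ⟨u, hu, u0⟩ : ∃ u ∈ W, u ≠ 0 := by
      refine (Submodule.ne_bot_iff W).1 fun h0 => ?_
      rw [h0, finrank_bot] at hN
      omega
    obtain ⟨r, v0, hr, rfl, hv0⟩ := prim u0
    have m0 : map (coeL k) v0 ∈ W := by
      rw [← smul_eq_C_mul] at hu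
      exact (W.smul_mem_iff hr).1 hu
    obtain ⟨m, hm⟩ := exists_coeff_ne_zero hv0
    have h1 := ker_rank (lcoeff k⸨X⸩ m) W ⊤ fun _ _ => trivial
    rw [finrank_top, Module.finrank_self] at h1
    obtain ⟨v, hv, hi⟩ := ih (W ⊓ LinearMap.ker (lcoeff k⸨X⸩ m))
      (Nat.le_of_succ_le_succ ((hN.trans h1).trans_eq (add_comm _ _)))
    have hz : ∀ i, coeff m (map cc (v i)) = 0 := fun i => by
      have h2 : coeff m (map (coeL k) (v i)) = 0 := (hv i).2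
      rw [coeff_map] at h2 ⊢
      rw [coeL_inj (h2.trans (map_zero _).symm), map_zero]
    refine ⟨Fin.cons v0 v, fun i => Fin.cases m0 (fun j => (hv j).1) i, ?_⟩
    have e : (fun i => map cc ((Fin.cons v0 v : Fin (N + 1) → R2 k⟦X⟧) i)) =
        (Fin.cons (map cc v0) fun i => map cc (v i) : Fin (N + 1) → R2 k) :=
      funext fun i => Fin.cases rfl (fun _ => rfl) i
    rw [e]
    refine hi.finCons fun h0 => hm ?_
    have h3 : Submodule.span k (Set.range fun i => map cc (v i)) ≤ LinearMap.ker (lcoeff k m) :=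
      Submodule.span_le.2 (by rintro _ ⟨i, rfl⟩; exact hz i)
    exact h3 h0

variable {f : R2 k} {w : Fm k⟦X⟧}

theorem of_C_mul {J : Ideal (R2 k⸨X⸩)} {r : k⸨X⸩} (hr : r ≠ 0) {u : R2 k⸨X⸩} (h : C r * u ∈ J) :
    u ∈ J := (J.unit_mul_mem_iff_mem ((IsUnit.mk0 r hr).map C)).1 h

theorem red1 (hw : mapF cc w = d1 f) : map cc w.1 = pderiv 1 f := congrArg Prod.fst hw
theorem red2 (hw : mapF cc w = d1 f) : map cc w.2 = -pderiv 0 f := congrArg Prod.snd hw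

theorem in_jac (hw : mapF cc w = d1 f) (hL : Link w) {v : R2 k⟦X⟧} (h : map (coeL k) v ∈ JK w) :
    map cc v ∈ Jac f := by
  obtain ⟨a, b, hab⟩ := Ideal.mem_span_pair.1 ((hL v).1 h)
  have h1 := congrArg (cc : (R2 k)⟦X⟧ →+* R2 k) hab
  rw [map_add, map_mul, map_mul, cc_iS, cc_iS, cc_iS, red1 hw, red2 hw] at h1
  exact Ideal.mem_span_pair.2 ⟨-cc b, cc a, by rw [← h1]; ring⟩

/-- A factor with invertible reduction can be cancelled. -/
theorem cancel (hL : Link w) {g v : R2 k⟦X⟧} (hg : IsUnit (map cc g))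
    (h : map (coeL k) (g * v) ∈ JK w) : map (coeL k) v ∈ JK w := by
  have h1 : IsUnit (iS k g) := by
    rw [PowerSeries.isUnit_iff_constantCoeff]
    exact cc_iS g ▸ hg
  have h2 := (hL _).1 h
  rw [map_mul] at h2
  exact (hL v).2 (((IS w).unit_mul_mem_iff_mem h1).1 h2)

theorem DL_red {n : ℕ} {r : k⸨X⸩} (hr : r ≠ 0) {v : R2 k⟦X⟧}
    (h : DL n (C r * map (coeL k) v)) : DL n (map cc v) := (DL_of_coe (h.of_C_mul hr)).map _

end Up

open Up in
theorem upS (hT : GenTopStmt) (hI : IcStmt) : UpStmt := by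
  intro k _ _ _ d f w hd hA hL
  obtain ⟨e, rfl⟩ : ∃ e, d = e + 2 := ⟨d - 2, by omega⟩
  have hw := hA.red
  have hx : DL (e + 2) (pderiv 0 f) := hA.gen.2.1.pderiv 0
  have hy : DL (e + 2) (pderiv 1 f) := hA.gen.2.1.pderiv 1
  have hC : CI (hc (e + 1) (pderiv 0 f)) (hc (e + 1) (pderiv 1 f)) := by
    rw [hc_pderiv, hc_pderiv]; exact (hT k _ f (by omega) hA.gen).2.1
  have up : ∀ n, Module.finrank k⸨X⸩ (Jd (JK w) (n + (e + 2 - 1))) ≤ n * (n + 1) := fun n => by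
    obtain ⟨v, hv, hi⟩ := lattice _ (Jd (JK w) (n + (e + 2 - 1))) le_rfl
    exact card_bound hx hy hC hi (fun i => in_jac hw hL (hv i).1)
      fun i => (DL_of_coe (hv i).2).map _
  have m1 : map (coeL k) w.1 ∈ JK w := (hL _).2 (Ideal.subset_span (by simp))
  have m2 : map (coeL k) w.2 ∈ JK w := (hL _).2 (Ideal.subset_span (by simp))
  refine ⟨fun u hu hD => ?_, up, fun b1 h1 b2 h2 d1' d2' hi a b ha hb hab => ?_,
    fun g w' hg => ?_, ?_, fun g h g0 hg he u hu => ?_⟩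
  · have h0 : Jd (JK w) (0 + (e + 2 - 1)) = ⊥ :=
      Submodule.finrank_eq_zero.1 (Nat.le_zero.1 (up 0))
    have h1 : u ∈ Jd (JK w) (0 + (e + 2 - 1)) := ⟨hu, by rwa [zero_add]⟩
    rwa [h0] at h1
  · have hr : Module.finrank k⸨X⸩ (Submodule.span k⸨X⸩ (Set.range ![b1, b2])) = 2 :=
      finrank_span_eq_card hi
    have hle : Submodule.span k⸨X⸩ (Set.range ![b1, b2]) ≤ Jd (JK w) (e + 2) :=
      Submodule.span_le.2 (by
        rintro _ ⟨i, rfl⟩
        fin_cases i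
        exacts [⟨h1, d1'⟩, ⟨h2, d2'⟩])
    have : Module.Finite k⸨X⸩ (Submodule.span k⸨X⸩ (Set.range ![b1, b2])) :=
      Submodule.finiteDimensional_of_le hle
    obtain ⟨v, hv, hk⟩ := lattice 2 _ hr.ge
    obtain ⟨c, hc1⟩ := le_span (indK hk) hv hr.le (Submodule.subset_span ⟨0, rfl⟩)
    obtain ⟨c', hc2⟩ := le_span (indK hk) hv hr.le (Submodule.subset_span ⟨1, rfl⟩)
    rw [Fin.sum_univ_two, smul_eq_C_mul, smul_eq_C_mul] at hc1 hc2
    have hc1 : b1 = _ := hc1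
    have hc2 : b2 = _ := hc2
    have key : C (c 0) * a + C (c' 0) * b = 0 ∧ C (c 1) * a + C (c' 1) * b = 0 := by
      by_contra hn
      obtain ⟨r, a', b', hr0, ea, eb, hp⟩ := prim2 hn
      have da : DL 2 (map cc a') := DL_red hr0 (ea ▸ (ha.C_mul _).add (hb.C_mul _))
      have db : DL 2 (map cc b') := DL_red hr0 (eb ▸ (ha.C_mul _).add (hb.C_mul _))
      have z1 : C r * map (coeL k) (a' * v 0 + b' * v 1) = 0 := by
        rw [hc1, hc2] at hab
        rw [map_add, map_mul, map_mul]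
        linear_combination hab - map (coeL k) (v 0) * ea - map (coeL k) (v 1) * eb
      have z2 : a' * v 0 + b' * v 1 = 0 := map_injective _ coeL_inj (by
        rw [map_zero]; exact (mul_eq_zero.1 z1).resolve_left fun h0 => hr0 (C_eq_zero.1 h0))
      have z3 := congrArg (map (cc : k⟦X⟧ →+* k)) z2
      rw [map_add, map_mul, map_mul, map_zero] at z3
      have lin : ∀ i, ∃ s t : k, map cc (v i) = C s * pderiv 0 f + C t * pderiv 1 f := fun i => by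
        obtain ⟨U, V, hUV⟩ := Ideal.mem_span_pair.1 (in_jac hw hL (hle (hv i)).1)
        have hD : DL (1 + (e + 1)) (map cc (v i)) :=
          ((DL_of_coe (hle (hv i)).2).map _).mono (by omega)
        obtain ⟨U', V', hU, hV, e'⟩ := kos_top hx hy hC U V (hUV ▸ hD)
        exact ⟨coeff 0 U', coeff 0 V', by rw [← DL1_eq hU, ← DL1_eq hV, e', hUV]⟩
      obtain ⟨s0, t0, e0⟩ := lin 0
      obtain ⟨s1, t1, e1⟩ := lin 1
      have hk' : LinearIndependent k ![map cc (v 0), map cc (v 1)] := by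
        have e' : ![map cc (v 0), map cc (v 1)] = fun i => map (cc : k⟦X⟧ →+* k) (v i) :=
          funext fun i => by fin_cases i <;> rfl
        rw [e']; exact hk
      have z4 := kos_zero hx hy hC (k := 2) (by omega) ((da.C_mul s0).add (db.C_mul s1))
        ((da.C_mul t0).add (db.C_mul t1)) (by rw [e0, e1] at z3; linear_combination z3)
      exact hp (two_by_two hk' e0 e1 z4.1 z4.2)
    exact two_by_two hi hc1 hc2 key.1 key.2
  · have e1 : map (coeL k) w.1 = g * w'.1 := congrArg Prod.fst hg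
    have e2 : map (coeL k) w.2 = g * w'.2 := congrArg Prod.snd hg
    by_cases hn : w'.1 = 0 ∧ w'.2 = 0
    · rw [hn.1, hn.2]; exact ⟨zero_mem _, zero_mem _⟩
    obtain ⟨r', a', b', -, ea, eb, hp⟩ := prim2 hn
    obtain ⟨r, g', rfl, hg'⟩ := prim0 g
    have e1 : map (coeL k) w.1 = C (r * r') * map (coeL k) (g' * a') := by
      rw [e1, ea, map_mul, map_mul]; ring
    have e2 : map (coeL k) w.2 = C (r * r') * map (coeL k) (g' * b') := by
      rw [e2, eb, map_mul, map_mul]; ring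
    obtain ⟨s, hs⟩ : ∃ s, r * r' = coeL k s := by
      rcases not_and_or.1 hp with h0 | h0
      · exact (int_of_prim (by rw [map_mul]; exact mul_ne_zero hg' h0) e1).imp fun _ h => h.1
      · exact (int_of_prim (by rw [map_mul]; exact mul_ne_zero hg' h0) e2).imp fun _ h => h.1
    have e3 : w.1 = C s * g' * a' := map_injective _ coeL_inj (by
      rw [e1, hs, mul_assoc, map_mul _ (C s), map_C])
    have e4 : w.2 = C s * g' * b' := map_injective _ coeL_inj (by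
      rw [e2, hs, mul_assoc, map_mul _ (C s), map_C])
    have hu : IsUnit (map cc (C s * g')) :=
      unit_of_dvd hx hy hC (u := -map cc b') (v := map cc a')
        (by rw [← neg_neg (pderiv 0 f), ← red2 hw, e4, map_mul]; ring)
        (by rw [← red1 hw, e3, map_mul]; ring)
    rw [ea, eb]
    exact ⟨Ideal.mul_mem_left _ _ (cancel hL hu (e3 ▸ m1)),
      Ideal.mul_mem_left _ _ (cancel hL hu (e4 ▸ m2))⟩
  · have hk : LinearIndependent k fun i => map (cc : k⟦X⟧ →+* k) (![w.1, w.2] i) := by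
      have e' : (fun i => map (cc : k⟦X⟧ →+* k) (![w.1, w.2] i)) = ![pderiv 1 f, -pderiv 0 f] :=
        funext fun i => by
          fin_cases i
          exacts [red1 hw, red2 hw]
      rw [e', LinearIndependent.pair_iff]
      intro s t hst
      rw [smul_eq_C_mul, smul_eq_C_mul] at hst
      have := kos_zero hx hy hC (k := 1) (by omega) (DL_C t).neg (DL_C s)
        (by linear_combination hst)
      exact ⟨C_eq_zero.1 this.2, C_eq_zero.1 (neg_eq_zero.1 this.1)⟩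
    have e' : ![(mapF (coeL k) w).1, (mapF (coeL k) w).2] =
        fun i => map (coeL k) (![w.1, w.2] i) := funext fun i => by fin_cases i <;> rfl
    rw [e']; exact indK hk
  · obtain ⟨r, g', hr, rfl, hg'⟩ := prim g0
    obtain ⟨r1, h', rfl, hh'⟩ := prim0 h
    obtain ⟨r2, u', rfl, -⟩ := prim0 u
    have e1 : map (coeL k) (wg (d1 g') w) = C r1 * map (coeL k) (h' * g') := by
      rw [d1_C_mul, wg_smul, ← mapF_d1, ← map_wg] at he
      refine mul_left_cancel₀ (fun h0 => hr (C_eq_zero.1 h0) : (C r : R2 k⸨X⸩) ≠ 0) ?_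
      rw [he, map_mul]; ring
    obtain ⟨s, -, e2⟩ := int_of_prim (by rw [map_mul]; exact mul_ne_zero hh' hg') e1
    have e3 := congrArg (map (cc : k⟦X⟧ →+* k)) e2
    rw [map_wg, mapF_d1, hw, wg_d1_d1, ← mul_assoc, map_mul] at e3
    have hu1 := unit_of_DL hg' (hI k _ f _ _ hd hA.gen hg' (DL_red hr hg) e3)
    by_cases h2 : r2 = 0
    · rw [h2, map_zero, zero_mul]; exact zero_mem _
    refine Ideal.mul_mem_left _ _ (cancel hL hu1 (of_C_mul (mul_ne_zero hr h2) ?_))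
    rw [map_mul, map_mul, mul_mul_mul_comm]
    exact hu

end Pool.Agent.MP_05b4bd_ag.PC3

end MrgPart0

-- ======== part 1: formerly Pool.Agent.MP_05b4bd_ag.pc3.Core
section MrgPart1

/-! Arcs of centres through the generic exact form in degrees three, four and five. -/

namespace Pool.Agent.MP_05b4bd_ag.PC3

open MvPolynomial HC ES
open scoped PowerSeries LaurentSeries

/-- The list of families. -/
def Ws (d : ℕ) : Set (Set Form) := {W | W = L ![d + 1] ∨ W = L ![1, d] ∨ W = L ![1, 1, d - 1] ∨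
  (d ≤ 4 ∧ W = L ![2, d - 1]) ∨ (d = 3 ∧ (W = N7 ∨ W = N5))}

namespace Core3

variable {K Ω : Type} [Field K] [Field Ω] (ψ : K →+* Ω) {w : Fm K}

theorem lin (h : Lin w) : Lin (mapF ψ w) := by
  obtain ⟨l, c0, c1, h1, h2, h3, h4⟩ := h
  refine ⟨map ψ l, ψ c0, ψ c1, h1.map ψ, fun e => h2 (mapF_inj ψ ψ.injective ?_), by simpa using h3,
    by simpa only [map_add, map_mul, map_C, mapF_d1] using h4.map ψ⟩
  rw [mapF_d1, e, mapF_zero]

theorem aff (h : Aff w) : Aff (mapF ψ w) := by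
  obtain ⟨c, θ, h1, h2, h3, h4, h5, h6⟩ := h
  have i := map_injective (σ := Fin 2) ψ ψ.injective
  exact ⟨_, _, h1.map ψ, h2.map ψ, (map_ne_zero_iff _ i).2 h3, h4.map ψ,
    by rw [← map_rr, h5, map_zero], map_dv ψ θ ▸ (map_ne_zero_iff _ i).2 h6⟩

theorem cn {m : R2 K} {c0 c1 : K} (h : Cn w m c0 c1) : Cn (mapF ψ w) (map ψ m) (ψ c0) (ψ c1) :=
  ⟨h.1.map ψ, by simpa using h.2.1,
    by simpa only [map_add, map_mul, map_C, mapF_d1] using h.2.2.map ψ⟩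

theorem ctr {m : R2 K} (h : Ctr m) : Ctr (map ψ m) := fun e => h (ψ.injective (by
  simpa only [co_map, map_sub, map_mul, map_pow, map_ofNat, map_zero] using e))

theorem pab {m : R2 K} (h : Pab m) : Pab (map ψ m) := by
  obtain ⟨m0, α, β, σ, a, b, h1, h2, rfl⟩ := h
  refine ⟨ψ m0, ψ α, ψ β, ψ σ, ψ a, ψ b, (map_ne_zero ψ).2 h1, ?_,
    by simp only [map_add, map_mul, map_pow, map_C, map_lf]⟩
  rw [← map_mul, ← map_mul, ← map_sub]
  exact (map_ne_zero ψ).2 h2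

theorem pb {n : ℕ} (h : Pb n w) : Pb n (mapF ψ w) := by
  obtain ⟨m1, m2, a0, a1, a2, b0, b1, b2, h1, h2, rfl⟩ := h
  exact ⟨_, _, ψ a0, ψ a1, ψ a2, ψ b0, ψ b1, ψ b2, h1.map ψ, h2.map ψ,
    by simp only [mapF_add, mapF_fm, map_add, map_mul, map_C]⟩

theorem ctr_ne [CharZero K] {m : R2 K} (h : Ctr m) : d1 m ≠ 0 := fun e => h (by
  have a := congrArg (HC.co 1 0) (congrArg Prod.fst e)
  have b := congrArg (HC.co 0 1) (congrArg Prod.fst e)
  simp only [d1, co_y, Prod.fst_zero, co_zero, Nat.cast_zero, Nat.cast_one, zero_add, mul_one]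
    at a b
  rw [a]
  linear_combination -2 * HC.co 2 0 m * b)

end Core3

open Core3 in
theorem coreS3 (hT : GenTopStmt) (seq : SeqStmt) (ts1 : Ts1Stmt) (ts2 : Ts2Stmt) (gv : GvStmt)
    (up : UpStmt) (lo : LoStmt) (ci : CiStmt) (det3 : Det3Stmt) (nc4 : Nc4Stmt) (nc5 : Nc5Stmt)
    (cls : ClsStmt) (hl : LinStmt) (ha : AffStmt) (cen : CenStmt) (par3 : Par3Stmt)
    (par4 : Par4Stmt) (cfl : CflStmt) (pbl : PblStmt) (e33 : Exc33Stmt) (desc : DescStmt)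
    (e24 : Exc24Stmt) (eP : ExcPStmt) (van : VanStmt) {d : ℕ} (h3 : 3 ≤ d) (h5 : d ≤ 5) :
    CoreFor d (Ws d) := by
  intro k _ _ _ f w p A hc Ω _ _ _ _ ψ
  have : CharZero k⸨X⸩ := charZero_of_injective_ringHom (cL_inj (R := k))
  obtain ⟨e, rfl⟩ : ∃ e, d = e + 1 + 1 := ⟨d - 2, by omega⟩
  have rp : IsRelPrime (pderiv 0 f) (pderiv 1 f) := by
    rintro g ⟨u, hu⟩ ⟨v, hv⟩
    refine Up.unit_of_dvd (e := e) (A.gen.2.1.pderiv 0) (A.gen.2.1.pderiv 1) ?_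
      (hu.trans (mul_comm _ _)) (hv.trans (mul_comm _ _))
    rw [hc_pderiv, hc_pderiv]
    exact (hT k _ f (by omega) A.gen).2.1
  obtain ⟨n0, n1, gs⟩ := ts1 k f w rp A.red (seq k _ f w p h3 A hc)
  obtain ⟨lk, g⟩ := ts2 k w n0 n1 gs
  have LL : Lev (e + 1 + 1) (mapF (coeL k) w) (JK w) :=
    { toLevA := gv _ _ _ _ _ _ _ _ g
      toLevB := up k _ f w h3 A lk
      deg := A.deg.map _
      lo := lo k _ f w h3 A lk }
  obtain ⟨v0, v1, v2, v3, v7, v5⟩ := van Ω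
  have dg := LL.deg.map ψ
  by_cases hB : dv w = 0
  · refine ⟨_, Or.inl rfl, v1 _ _ ?_⟩
    obtain ⟨g, h1, h2, h3⟩ := exact_of_div dg.1 dg.2
      (show dv _ = 0 by rw [← map_dv, ← map_dv, hB, map_zero, map_zero])
    exact ⟨g, h1, Prod.ext h2 h3⟩
  have hK : dv (mapF (coeL k) w) ≠ 0 := fun h =>
    hB (map_injective _ coeL_inj (by rw [map_dv, h, map_zero]))
  have o2 : Lim (H2 1 (e + 1 + 1)) (mapF ψ (mapF (coeL k) w)) → ∃ W ∈ Ws (e + 1 + 1),
      Van W (mapF ψ (mapF (coeL k) w)) := fun h =>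
    ⟨_, Or.inr (Or.inl rfl), v0 _ _ (v2 _ _) _ h⟩
  have o3 : Lim (H3 (e + 1 + 1)) (mapF ψ (mapF (coeL k) w)) → ∃ W ∈ Ws (e + 1 + 1),
      Van W (mapF ψ (mapF (coeL k) w)) := fun h =>
    ⟨_, Or.inr (Or.inr (Or.inl rfl)), v0 _ _ (v3 _) _ h⟩
  have o4 : e ≤ 2 → Lim (H2 2 (e + 1)) (mapF ψ (mapF (coeL k) w)) → ∃ W ∈ Ws (e + 1 + 1),
      Van W (mapF ψ (mapF (coeL k) w)) := fun he h =>
    ⟨_, Or.inr (Or.inr (Or.inr (Or.inl ⟨by omega, rfl⟩))), v0 _ _ (v2 _ _) _ h⟩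
  have clo : Clo (mapF (coeL k) w) → ∃ W ∈ Ws (e + 1 + 1), Van W (mapF ψ (mapF (coeL k) w)) := by
    intro h
    rcases cls _ _ _ _ h3 LL hK h with h | h | ⟨m, c0, c1, h, hm⟩
    · exact o2 (hl Ω _ _ dg (lin ψ h))
    · exact (ha Ω _ _ dg (aff ψ h)).elim o2 o3
    have oc : e ≤ 2 → CF (e + 1 + 1) (mapF ψ (mapF (coeL k) w)) (map ψ m) (ψ c0) (ψ c1) → _ :=
      fun he hf => o4 he (cfl Ω _ _ _ _ _ (by omega) (by omega) (cn ψ h).1 hf)
    rcases hm with hm | hm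
    · refine (cen Ω _ _ _ _ _ h3 h5 dg (cn ψ h) (ctr ψ hm)).elim o3 fun hf => ?_
      by_cases he : e ≤ 2
      · exact oc he hf
      · obtain rfl : e = 3 := by omega
        exact absurd (desc _ _ ψ _ _ _ _ _ hf) (e24 k f w m c0 c1 A hB h (ctr_ne hm))
    · obtain rfl | rfl | rfl : e = 1 ∨ e = 2 ∨ e = 3 := by omega
      · rcases par3 Ω _ _ _ _ dg (cn ψ h) (pab ψ hm) with hf | hf | hf
        · exact oc (by omega) hf
        · exact ⟨_, Or.inr (Or.inr (Or.inr (Or.inr ⟨rfl, Or.inl rfl⟩))), v7 _ hf⟩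
        · exact ⟨_, Or.inr (Or.inr (Or.inr (Or.inr ⟨rfl, Or.inr rfl⟩))), v5 _ hf⟩
      · rcases par4 Ω _ _ _ _ dg (cn ψ h) (pab ψ hm) with hf | hf
        · exact oc le_rfl hf
        · refine (eP k _ f w m c0 c1 A hB h hm (Or.inr ⟨rfl, hf.imp (fun e => ψ.injective ?_)
            fun e => ψ.injective ?_⟩)).elim <;> simpa only [map_mul, map_ofNat] using e
      · exact (eP k _ f w m c0 c1 A hB h hm (Or.inl rfl)).elim
  by_cases he : e = 1
  · subst he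
    exact (det3 _ _ _ LL hK).elim clo fun h => o4 (by omega) (pbl Ω _ _ (Core3.pb ψ h))
  obtain ⟨c1, c2⟩ := (ci _ _ _ _ h3 LL).2.1 (by omega)
  by_cases hN : Con (mapF (coeL k) w)
  · exact clo (c2 hN)
  obtain rfl | rfl : e = 2 ∨ e = 3 := by omega
  · exact (nc4 _ _ _ LL hK (mt c1 hN) hN).elim
  · exact absurd (nc5 _ _ _ LL hK (mt c1 hN) hN) (e33 k f w A hB)

end Pool.Agent.MP_05b4bd_ag.PC3

end MrgPart1

-- ======== part 2: formerly Pool.Agent.MP_05b4bd_ag.pc3.Nc4a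
section MrgPart2

/-! Degree four without conic syzygy: preparations. -/

namespace Pool.Agent.MP_05b4bd_ag.PC3

open MvPolynomial HC ES

namespace Nc4

section Pf
variable {R : Type} [CommRing R]

/-- Polynomial functions of two variables. -/
def Pf (Φ : R → R → R) : Prop := ∃ p : MvPolynomial (Fin 2) R, ∀ a b, Φ a b = eval ![a, b] p

theorem Pf.const (c : R) : Pf fun _ _ => c := ⟨C c, by simp⟩
theorem Pf.fst : Pf fun a _ : R => a := ⟨X 0, by simp⟩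
theorem Pf.snd : Pf fun _ b : R => b := ⟨X 1, by simp⟩
theorem Pf.add {Φ Ψ : R → R → R} (h : Pf Φ) (h' : Pf Ψ) : Pf fun a b => Φ a b + Ψ a b := by
  obtain ⟨p, hp⟩ := h; obtain ⟨q, hq⟩ := h'; exact ⟨p + q, by simp [hp, hq]⟩
theorem Pf.sub {Φ Ψ : R → R → R} (h : Pf Φ) (h' : Pf Ψ) : Pf fun a b => Φ a b - Ψ a b := by
  obtain ⟨p, hp⟩ := h; obtain ⟨q, hq⟩ := h'; exact ⟨p - q, by simp [hp, hq]⟩
theorem Pf.mul {Φ Ψ : R → R → R} (h : Pf Φ) (h' : Pf Ψ) : Pf fun a b => Φ a b * Ψ a b := by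
  obtain ⟨p, hp⟩ := h; obtain ⟨q, hq⟩ := h'; exact ⟨p * q, by simp [hp, hq]⟩

/-- `a u0 + b u1 + u2`. -/
def l3 (a b u0 u1 u2 : R) : R := a * u0 + b * u1 + u2

/-- A quadratic expression in `a, b`. -/
def q6 (a b : R) (u : Fin 6 → R) : R :=
  a * a * u 0 + a * b * u 1 + b * b * u 2 + a * u 3 + b * u 4 + u 5

theorem Pf.l3 (u0 u1 u2 : R) : Pf fun a b => l3 a b u0 u1 u2 :=
  ((Pf.fst.mul (.const _)).add (Pf.snd.mul (.const _))).add (.const _)

theorem Pf.q6 (u : Fin 6 → R) : Pf fun a b => q6 a b u :=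
  ((((((Pf.fst.mul Pf.fst).mul (.const _)).add ((Pf.fst.mul Pf.snd).mul (.const _))).add
    ((Pf.snd.mul Pf.snd).mul (.const _))).add (Pf.fst.mul (.const _))).add
      (Pf.snd.mul (.const _))).add (.const _)

end Pf

variable {K : Type} [Field K]

theorem Pf.zero [CharZero K] {Φ : R2 K → R2 K → R2 K} (h : Pf Φ)
    (h0 : ∀ a b : K, Φ (C a) (C b) = 0) (a b : R2 K) : Φ a b = 0 := by
  obtain ⟨p, hp⟩ := h
  have : p = 0 := by
    refine funext_set (fun _ => Set.range (C : K → R2 K))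
      (fun _ => Set.infinite_range_of_injective (C_injective _ _)) fun z hz => ?_
    obtain ⟨a, ha⟩ := hz 0 trivial
    obtain ⟨b, hb⟩ := hz 1 trivial
    have e : z = ![C a, C b] := by funext i; fin_cases i <;> simp [ha, hb]
    rw [e, ← hp, h0, map_zero]
  rw [hp, this, map_zero]

theorem quad0 [CharZero K] {a b c e f g : K} (h : (C a * X 0 ^ 2 + C b * (X 0 * X 1) +
    C c * X 1 ^ 2 + C e * X 0 + C f * X 1 + C g : R2 K) = 0) :
    a = 0 ∧ b = 0 ∧ c = 0 ∧ e = 0 ∧ f = 0 ∧ g = 0 := by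
  have v := fun s t : K => congrArg (eval ![s, t]) h
  simp only [map_add, map_mul, map_pow, eval_C, eval_X, Matrix.cons_val_zero, Matrix.cons_val_one,
    map_zero] at v
  refine ⟨?_, ?_, ?_, ?_, ?_, ?_⟩
  · linear_combination (v 1 0 + v (-1) 0) / 2 - v 0 0
  · linear_combination v 1 1 - v 1 0 - v 0 1 + v 0 0
  · linear_combination (v 0 1 + v 0 (-1)) / 2 - v 0 0
  · linear_combination (v 1 0 - v (-1) 0) / 2
  · linear_combination (v 0 1 - v 0 (-1)) / 2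
  · linear_combination v 0 0

/-- The syzygy map. -/
noncomputable def Lam (w : Fm K) : (R2 K × Fm K) →ₗ[K] R2 K where
  toFun p := wg p.2 w - p.1 * dv w
  map_add' _ _ := by simp [wg]; ring
  map_smul' _ _ := by simp [wg, smul_eq_C_mul]; ring

theorem rank_map {w : Fm K} (hN : ¬ Con w) {n : ℕ} (hn : n ≤ 2) :
    (n + 1) * (n + 2) + 2 * (n * (n + 1)) ≤ 2 * Module.finrank K
      (((dl K (n + 1)).prod ((dl K n).prod (dl K n))).map (Lam w)) := by
  have h := ker_rank (Lam w) ((dl K (n + 1)).prod ((dl K n).prod (dl K n))) _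
    fun u hu => Submodule.mem_map_of_mem hu
  have e : ((dl K (n + 1)).prod ((dl K n).prod (dl K n))) ⊓ LinearMap.ker (Lam w) = ⊥ := by
    rw [eq_bot_iff]
    rintro ⟨c, θ⟩ ⟨⟨h1, h2, h3⟩, h4⟩
    by_contra hc
    exact hN ⟨c, θ, DL.mono h1 (by omega), ⟨DL.mono h2 hn, DL.mono h3 hn⟩,
      fun h => hc (Prod.ext h.1 h.2), sub_eq_zero.1 h4⟩
  rw [e, finrank_bot, finrank_prod', finrank_prod'] at h
  have := finrank_dl (K := K) n
  have := finrank_dl (K := K) (n + 1)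
  nlinarith

theorem wg_mem {w : Fm K} {J : Ideal (R2 K)} (L : LevA w J) (θ : Fm K) : wg θ w ∈ J :=
  sub_mem (J.mul_mem_left _ L.m2) (J.mul_mem_left _ L.m1)

theorem exists_q {w : Fm K} {J : Ideal (R2 K)} (L : Lev 4 w J) (hN : ¬ Con w) :
    (∀ u ∈ J, DL 6 u → ∃ c θ, DL 3 c ∧ DF 2 θ ∧ u = wg θ w - c * dv w) ∧
    ∃ q ∈ J, DL 5 q ∧ (∀ c θ, DL 2 c → DF 1 θ → q ≠ wg θ w - c * dv w) ∧
      ∀ u ∈ J, DL 5 u → ∃ (s : K) (κ : Fm K) (l : R2 K), DF 1 κ ∧ DL 2 l ∧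
        u = C s * q + wg κ w + l * dv w := by
  have le : ∀ n, ((dl K (n + 2)).prod ((dl K (n + 1)).prod (dl K (n + 1)))).map (Lam w) ≤
      Jd J (n + 5) := by
    rintro n _ ⟨⟨c, θ⟩, ⟨h1, h2, h3⟩, rfl⟩
    exact ⟨sub_mem (wg_mem L.toLevA θ) (J.mul_mem_left _ L.mB),
      (DF.wg ⟨h2, h3⟩ L.deg).sub ((DL.mul h1 L.deg.dv).mono (by omega))⟩
  have r1 : 10 ≤ 2 * Module.finrank K (((dl K 2).prod ((dl K 1).prod (dl K 1))).map (Lam w)) :=
    rank_map hN (n := 1) (by omega)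
  have r2 : 24 ≤ 2 * Module.finrank K (((dl K 3).prod ((dl K 2).prod (dl K 2))).map (Lam w)) :=
    rank_map hN (n := 2) le_rfl
  have le0 : ((dl K 2).prod ((dl K 1).prod (dl K 1))).map (Lam w) ≤ Jd J 5 := le 0
  have le1 : ((dl K 3).prod ((dl K 2).prod (dl K 2))).map (Lam w) ≤ Jd J 6 := le 1
  have u2 : Module.finrank K (Jd J 5) ≤ 6 := L.up 2
  have u3 : Module.finrank K (Jd J 6) ≤ 12 := L.up 3
  have lo : 6 ≤ Module.finrank K (Jd J 5) := L.lo
  refine ⟨fun u hu hd => ?_, ?_⟩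
  · have e := Submodule.eq_of_le_of_finrank_le le1 (by omega)
    obtain ⟨⟨c, θ⟩, ⟨h1, h2⟩, h⟩ := e.ge (⟨hu, hd⟩ : u ∈ Jd J 6)
    exact ⟨c, θ, h1, h2, h.symm⟩
  have up := Submodule.finrank_map_le (Lam w) ((dl K 2).prod ((dl K 1).prod (dl K 1)))
  rw [finrank_prod', finrank_prod'] at up
  have := finrank_dl (K := K) 1
  have := finrank_dl (K := K) 2
  set I := ((dl K 2).prod ((dl K 1).prod (dl K 1))).map (Lam w) with hI
  obtain ⟨q, hq, hn⟩ : ∃ q ∈ Jd J 5, q ∉ I := by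
    by_contra hc
    push Not at hc
    have := Submodule.finrank_mono (show Jd J 5 ≤ I from hc)
    omega
  have le' : I ⊔ K ∙ q ≤ Jd J 5 := sup_le le0 ((Submodule.span_singleton_le_iff_mem _ _).2 hq)
  have : Module.Finite K (I ⊔ K ∙ q : Submodule K (R2 K)) := Submodule.finiteDimensional_of_le le'
  have lt : I < I ⊔ K ∙ q := left_lt_sup.2 fun h =>
    hn ((Submodule.span_singleton_le_iff_mem _ _).1 h)
  have := Submodule.finrank_lt_finrank_of_lt lt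
  have e := Submodule.eq_of_le_of_finrank_le le' (by omega)
  refine ⟨q, hq.1, hq.2, fun c θ h1 h2 h => hn ⟨(c, θ), ⟨h1, h2⟩, h.symm⟩, fun u hu hd => ?_⟩
  obtain ⟨_, ⟨⟨c, θ⟩, ⟨h1, h2⟩, rfl⟩, z, hz, h⟩ :=
    Submodule.mem_sup.1 (e.ge (⟨hu, hd⟩ : u ∈ Jd J 5))
  obtain ⟨s, rfl⟩ := Submodule.mem_span_singleton.1 hz
  refine ⟨s, θ, -c, h2, DL.neg h1, ?_⟩
  rw [← h, smul_eq_C_mul]
  change wg θ w - c * dv w + _ = _
  ring

/-- The part of the second level which is a multiple of `s`. -/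
noncomputable def Gf (φ : Fm K) (e c : R2 K) (θ : Fm K) : R2 K :=
  2 * wg (d1 c) φ - 2 * e * dv θ - wg θ φ - c * dv φ + wg (d1 e) θ

theorem DL_two {n : ℕ} {u : R2 K} (h : DL n u) : DL n (2 * u) := by
  rw [two_mul]; exact h.add h

theorem dv_const {κ : Fm K} (h : DF 1 κ) : dv κ = 0 := (DF.dv (n := 0) h).eq_zero

theorem lev2 {w : Fm K} {J : Ideal (R2 K)} (L : Lev 4 w J)
    (k1 : ∀ u ∈ J, DL 4 u → ∃ r : K, u = C r * dv w) {φ κ θ : Fm K} {e l c : R2 K} {s : K}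
    (dφ : DF 2 φ) (de : DL 3 e) (dκ : DF 1 κ) (dl : DL 2 l) (dθ : DF 3 θ) (dc : DL 4 c)
    (hp : Pr w c θ) (h : rr c θ = C s * (wg φ w - e * dv w) + wg κ w + l * dv w)
    {m : Fin 2 →₀ ℕ} (hm : 3 ≤ m.degree) (hB : coeff m (dv w) ≠ 0) :
    C s * Gf φ e c θ + (2 * wg (d1 c) κ + 2 * l * dv θ - wg θ κ - wg (d1 l) θ) =
      C s * C (coeff m (Gf φ e c θ) / coeff m (dv w)) * dv w := by
  have h2 := L.l2 c θ 1 ((C s : R2 K) • φ + κ) (l - C s * e) hp (by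
    rw [h, wg_add, wg_smul]; ring)
  have d0 : d1 (1 : R2 K) = 0 := d1_C 1
  have dF : DL 3 (2 * wg (d1 c) κ + 2 * l * dv θ - wg θ κ - wg (d1 l) θ) :=
    (((DL_two ((DF.d1 dc).wg dκ)).add (((DL_two dl).mul dθ.dv))).sub (dθ.wg dκ)).sub
      ((DF.d1 dl).wg dθ)
  have dG : DL 4 (Gf φ e c θ) :=
    ((((DL_two ((DF.d1 dc).wg dφ)).sub ((DL_two de).mul dθ.dv)).sub (dθ.wg dφ)).sub
      (dc.mul dφ.dv)).add ((DF.d1 de).wg dθ)
  obtain ⟨r, hr⟩ := k1 (C s * Gf φ e c θ + (2 * wg (d1 c) κ + 2 * l * dv θ - wg θ κ - wg (d1 l) θ))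
    (by
      have e : ∀ {u v : R2 K}, u ∈ J → v = u → v ∈ J := fun h e => e ▸ h
      refine e h2 ?_
      rw [d0, wg_zero, wg_zero, d1_sub, d1_C_mul, dv_add, dv_C_smul, dv_const dκ, wg_add', wg_add',
        wg_smul', wg_smul', wg_sub, wg_smul, Gf]
      ring) ((dG.C_mul s).add (dF.mono (by omega)))
  have := congrArg (coeff m) hr
  rw [coeff_add, dF m hm, add_zero, coeff_C_mul, coeff_C_mul] at this
  rw [hr, ← map_mul, ← mul_div_assoc, this, mul_div_cancel_right₀ _ hB]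

end Nc4

end Pool.Agent.MP_05b4bd_ag.PC3

end MrgPart2

-- ======== part 3: formerly Pool.Agent.MP_05b4bd_ag.pc3.Nc4
section MrgPart3

/-! Degree four without conic syzygy is impossible. -/

namespace Pool.Agent.MP_05b4bd_ag.PC3

open MvPolynomial HC ES

namespace Nc4

variable {K : Type} [Field K]

/-- Three pairs with a linear relation. -/
structure Tri (w φ1 φ2 φ3 θ1 θ2 θ3 : Fm K) (c1 c2 c3 e1 e2 e3 : R2 K) (r : K) : Prop where
  f1 : DF 2 φ1
  f2 : DF 2 φ2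
  f3 : DF 2 φ3
  g1 : DL 3 c1
  g2 : DL 3 c2
  g3 : DL 3 c3
  h1 : X 0 * (wg φ3 w - c3 * dv w) = wg φ1 w - c1 * dv w
  h2 : X 1 * (wg φ3 w - c3 * dv w) = wg φ2 w - c2 * dv w
  t1 : θ1 = φ2 - (X 1 : R2 K) • φ3
  t2 : θ2 = (X 0 : R2 K) • φ3 - φ1
  t3 : θ3 = (X 1 : R2 K) • φ1 - (X 0 : R2 K) • φ2
  u1 : e1 = c2 - X 1 * c3
  u2 : e2 = X 0 * c3 - c1
  u3 : e3 = X 1 * c1 - X 0 * c2
  hr : e2 • θ1 - e1 • θ2 = (C r : R2 K) • w

variable {w φ1 φ2 φ3 θ1 θ2 θ3 : Fm K} {c1 c2 c3 e1 e2 e3 : R2 K} {r : K}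

namespace Tri
variable (T : Tri w φ1 φ2 φ3 θ1 θ2 θ3 c1 c2 c3 e1 e2 e3 r)
include T

theorem t0 : θ3 = -((X 0 : R2 K) • θ1) - (X 1 : R2 K) • θ2 := by
  rw [T.t1, T.t2, T.t3]; module
theorem u0 : e3 = -(X 0 * e1) - X 1 * e2 := by rw [T.u1, T.u2, T.u3]; ring
theorem a1 : DF 3 θ1 := T.t1 ▸ (T.f2.mono (by omega)).sub (T.f3.smul (DL_X 1))
theorem a2 : DF 3 θ2 := T.t2 ▸ (T.f3.smul (DL_X 0)).sub (T.f1.mono (by omega))
theorem a3 : DF 3 θ3 := T.t3 ▸ (T.f1.smul (DL_X 1)).sub (T.f2.smul (DL_X 0))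
theorem b1 : DL 4 e1 := T.u1 ▸ (T.g2.mono (by omega)).sub ((DL_X 1).mul T.g3)
theorem b2 : DL 4 e2 := T.u2 ▸ ((DL_X 0).mul T.g3).sub (T.g1.mono (by omega))
theorem b3 : DL 4 e3 := T.u3 ▸ ((DL_X 1).mul T.g1).sub ((DL_X 0).mul T.g2)
theorem p1 : Pr w e1 θ1 := by
  rw [Pr, T.t1, T.u1, wg_sub, wg_smul]; linear_combination -T.h2
theorem p2 : Pr w e2 θ2 := by
  rw [Pr, T.t2, T.u2, wg_sub, wg_smul]; linear_combination T.h1
theorem p3 : Pr w e3 θ3 := by
  rw [Pr, T.t3, T.u3, wg_sub, wg_smul, wg_smul]; linear_combination X 0 * T.h2 - X 1 * T.h1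

theorem r1 : 2 * X 0 * rr e1 θ1 + X 1 * (rr e1 θ2 + rr e2 θ1) + (rr e1 θ3 + rr e3 θ1) =
    C r * w.2 := by
  have := congrArg Prod.snd T.hr
  rw [T.t0, T.u0]
  simp [rr, wg, dv, d1] at this ⊢
  linear_combination this

theorem r2 : X 0 * (rr e1 θ2 + rr e2 θ1) + 2 * X 1 * rr e2 θ2 + (rr e2 θ3 + rr e3 θ2) =
    -(C r * w.1) := by
  have := congrArg Prod.fst T.hr
  rw [T.t0, T.u0]
  simp [rr, wg, dv, d1] at this ⊢
  linear_combination -this

theorem r3 : X 0 * (rr e1 θ3 + rr e3 θ1) + X 1 * (rr e2 θ3 + rr e3 θ2) + 2 * rr e3 θ3 =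
    C r * (X 1 * w.1 - X 0 * w.2) := by
  have h1 := congrArg Prod.fst T.hr
  have h2 := congrArg Prod.snd T.hr
  rw [T.t0, T.u0]
  simp [rr, wg, dv, d1] at h1 h2 ⊢
  linear_combination X 1 * h1 - X 0 * h2

end Tri

theorem pr_add {c c' : R2 K} {θ θ' : Fm K} (h : Pr w c θ) (h' : Pr w c' θ') :
    Pr w (c + c') (θ + θ') := by
  rw [Pr, wg_add, h, h', add_mul]

theorem pr_smul (g : R2 K) {c : R2 K} {θ : Fm K} (h : Pr w c θ) : Pr w (g * c) (g • θ) := by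
  rw [Pr, wg_smul, h, mul_assoc]

theorem rr_mem {J : Ideal (R2 K)} (L : LevA w J) {c c' : R2 K} {θ θ' : Fm K} (h : Pr w c θ)
    (h' : Pr w c' θ') : rr c θ' + rr c' θ ∈ J := by
  have := sub_mem (sub_mem (L.l1 _ _ (pr_add h h')) (L.l1 _ _ h)) (L.l1 _ _ h')
  rwa [show rr (c + c') (θ + θ') - rr c θ - rr c' θ' = rr c θ' + rr c' θ by
    simp only [rr, d1_add, dv_add, wg_add, wg_add']; ring] at this

theorem rr_DL {c : R2 K} {θ : Fm K} (hc : DL 4 c) (hθ : DF 3 θ) : DL 5 (rr c θ) :=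
  (hc.mul hθ.dv).sub ((DF.d1 hc).wg hθ)

theorem not_DL_lf {a b : K} (h : DL 1 (HC.lf a b)) : a = 0 ∧ b = 0 := by
  have h0 := (h.pderiv (n := 0) 0).eq_zero
  have h1 := (h.pderiv (n := 0) 1).eq_zero
  rw [lf_x] at h0
  rw [lf_y] at h1
  exact ⟨C_eq_zero.1 h0, C_eq_zero.1 h1⟩

theorem exists_tri {J : Ideal (R2 K)} {q : R2 K} (hN : ¬ Con w) (hq : q ∈ J) (dq : DL 5 q)
    (h6 : ∀ u ∈ J, DL 6 u → ∃ c θ, DL 3 c ∧ DF 2 θ ∧ u = wg θ w - c * dv w)
    (hn : ∀ c θ, DL 2 c → DF 1 θ → q ≠ wg θ w - c * dv w)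
    (k3 : ∀ θ, DF 5 θ → wg θ w = 0 → ∃ r : K, θ = (C r : R2 K) • w)
    (k4 : ∀ c1 c2 θ1 θ2, DL 4 c1 → DL 4 c2 → DF 3 θ1 → DF 3 θ2 → Pr w c1 θ1 → Pr w c2 θ2 →
      (∀ r1 r2 : K, C r1 * c1 + C r2 * c2 = 0 → (C r1 : R2 K) • θ1 + (C r2 : R2 K) • θ2 = 0 →
        r1 = 0 ∧ r2 = 0) → c2 • θ1 = c1 • θ2 → Con w) :
    ∃ φ1 φ2 φ3 θ1 θ2 θ3 c1 c2 c3 e1 e2 e3 r, r ≠ 0 ∧ q = wg φ3 w - c3 * dv w ∧
      Tri w φ1 φ2 φ3 θ1 θ2 θ3 c1 c2 c3 e1 e2 e3 r := by
  obtain ⟨c1, φ1, g1, f1, h1⟩ := h6 _ (J.mul_mem_left (X 0) hq) ((DL_X 0).mul dq)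
  obtain ⟨c2, φ2, g2, f2, h2⟩ := h6 _ (J.mul_mem_left (X 1) hq) ((DL_X 1).mul dq)
  obtain ⟨c3, φ3, g3, f3, h3⟩ := h6 _ hq (dq.mono (by omega))
  rw [h3] at h1 h2
  obtain ⟨θ1, t1⟩ : ∃ θ, θ = φ2 - (X 1 : R2 K) • φ3 := ⟨_, rfl⟩
  obtain ⟨θ2, t2⟩ : ∃ θ, θ = (X 0 : R2 K) • φ3 - φ1 := ⟨_, rfl⟩
  obtain ⟨e1, u1⟩ : ∃ e, e = c2 - X 1 * c3 := ⟨_, rfl⟩
  obtain ⟨e2, u2⟩ : ∃ e, e = X 0 * c3 - c1 := ⟨_, rfl⟩
  have a1 : DF 3 θ1 := t1 ▸ (f2.mono (by omega)).sub (f3.smul (DL_X 1))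
  have a2 : DF 3 θ2 := t2 ▸ (f3.smul (DL_X 0)).sub (f1.mono (by omega))
  have b1 : DL 4 e1 := u1 ▸ (g2.mono (by omega)).sub ((DL_X 1).mul g3)
  have b2 : DL 4 e2 := u2 ▸ ((DL_X 0).mul g3).sub (g1.mono (by omega))
  have p1 : Pr w e1 θ1 := by rw [Pr, t1, u1, wg_sub, wg_smul]; linear_combination -h2
  have p2 : Pr w e2 θ2 := by rw [Pr, t2, u2, wg_sub, wg_smul]; linear_combination h1
  have ny : ¬ DL 1 (X 1 : R2 K) := fun h =>
    one_ne_zero (not_DL_lf (a := (0 : K)) (b := 1) (by simpa [HC.lf] using h)).2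
  have d6 : DF 6 ((X 1 : R2 K) • (e2 • θ1 - e1 • θ2)) := by
    rw [show (X 1 : R2 K) • (e2 • θ1 - e1 • θ2) = e1 • ((X 1 : R2 K) • φ1 - (X 0 : R2 K) • φ2) -
      (X 1 * c1 - X 0 * c2) • θ1 by rw [t1, t2, u1, u2]; module]
    exact (DF.smul b1 ((f1.smul (DL_X 1)).sub (f2.smul (DL_X 0)))).sub
      (DF.smul (((DL_X 1).mul g1).sub ((DL_X 0).mul g2)) a1)
  obtain ⟨r, hr⟩ := k3 (e2 • θ1 - e1 • θ2)
    ⟨DL_of_mul (b := 1) (mul_comm (X 1 : R2 K) _ ▸ d6.1) ny,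
      DL_of_mul (b := 1) (mul_comm (X 1 : R2 K) _ ▸ d6.2) ny⟩
    (by rw [wg_sub, wg_smul, wg_smul, p1, p2]; ring)
  refine ⟨φ1, φ2, φ3, θ1, θ2, _, c1, c2, c3, e1, e2, _, r, fun h0 => hN ?_, h3, f1, f2, f3, g1, g2,
    g3, h1, h2, t1, t2, rfl, u1, u2, rfl, hr⟩
  refine k4 _ _ _ _ b1 b2 a1 a2 p1 p2 (fun r1 r2 z1 z2 => ?_)
    (by rwa [h0, map_zero, zero_smul, sub_eq_zero] at hr)
  by_contra hc
  have nl : ¬ DL 1 (HC.lf (-r2) r1) := fun h =>
    hc ⟨(not_DL_lf h).2, neg_eq_zero.1 (not_DL_lf h).1⟩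
  have y1 := congrArg Prod.fst z2
  have y2 := congrArg Prod.snd z2
  simp only [t1, t2, u1, u2, Prod.fst_add, Prod.snd_add, Prod.smul_fst, Prod.smul_snd, Prod.fst_sub,
    Prod.snd_sub, smul_eq_mul, Prod.fst_zero, Prod.snd_zero] at y1 y2 z1
  have key : ∀ {n} {u1 u2 u3 : R2 K}, DL (n + 1) u1 → DL (n + 1) u2 →
      C r1 * (u2 - X 1 * u3) + C r2 * (X 0 * u3 - u1) = 0 → DL n u3 := fun {n u1 u2 u3} a b h =>
    DL_of_mul (b := 1) (by
      rw [show u3 * HC.lf (-r2) r1 = C r1 * u2 - C r2 * u1 by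
        simp only [HC.lf, map_neg]; linear_combination -h]
      exact (b.C_mul _).sub (a.C_mul _)) nl
  exact hn c3 φ3 (key g1 g2 z1) ⟨key f1.1 f2.1 y1, key f1.2 f2.2 y2⟩ h3

theorem rel (hN : ¬ Con w) (T : Tri w φ1 φ2 φ3 θ1 θ2 θ3 c1 c2 c3 e1 e2 e3 r) {a b c : K}
    {κa κb κc ζ : Fm K} {la lb lc : R2 K} (da : DF 1 κa) (db : DF 1 κb) (dc : DF 1 κc)
    (ea : DL 2 la) (eb : DL 2 lb) (ec : DL 2 lc) (dζ : DF 2 ζ)
    (h : X 0 * (C a * (wg φ3 w - c3 * dv w) + wg κa w + la * dv w) +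
      X 1 * (C b * (wg φ3 w - c3 * dv w) + wg κb w + lb * dv w) +
      (C c * (wg φ3 w - c3 * dv w) + wg κc w + lc * dv w) = wg ζ w) :
    (C a : R2 K) • φ1 + (C b : R2 K) • φ2 + (C c : R2 K) • φ3 + (X 0 : R2 K) • κa +
      (X 1 : R2 K) • κb + κc - ζ = 0 ∧
      C a * c1 + C b * c2 + C c * c3 - X 0 * la - X 1 * lb - lc = 0 := by
  by_contra hc
  refine hN ⟨_, _, ?_, ?_, fun h => hc ⟨h.2, h.1⟩, ?_⟩
  · exact (((((T.g1.C_mul a).add (T.g2.C_mul b)).add (T.g3.C_mul c)).sub ((DL_X 0).mul ea)).sub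
      ((DL_X 1).mul eb)).sub (ec.mono (by omega))
  · exact ((((((T.f1.C_smul a).add (T.f2.C_smul b)).add (T.f3.C_smul c)).add
      (da.smul (DL_X 0))).add (db.smul (DL_X 1))).add (dc.mono (by omega))).sub dζ
  · simp only [Pr, wg_sub, wg_add, wg_smul]
    linear_combination h - C a * T.h1 - C b * T.h2

theorem q6_DL {n : ℕ} (a b : K) {u : Fin 6 → R2 K} (h : ∀ i, DL n (u i)) :
    DL n (q6 (C a) (C b) u) := by
  simp only [q6, ← map_mul]
  exact ((((((h 0).C_mul _).add ((h 1).C_mul _)).add ((h 2).C_mul _)).add ((h 3).C_mul _)).add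
    ((h 4).C_mul _)).add (h 5)

theorem DF_mk {n : ℕ} {u v : R2 K} (hu : DL n u) (hv : DL n v) : DF n (u, v) := ⟨hu, hv⟩

theorem level [CharZero K] {J : Ideal (R2 K)} (L : Lev 4 w J)
    (k1 : ∀ u ∈ J, DL 4 u → ∃ r : K, u = C r * dv w)
    (T : Tri w φ1 φ2 φ3 θ1 θ2 θ3 c1 c2 c3 e1 e2 e3 r) {s : Fin 6 → K} {κ : Fin 6 → Fm K}
    {l : Fin 6 → R2 K} (dκ : ∀ i, DF 1 (κ i)) (dl : ∀ i, DL 2 (l i))
    (h : ∀ i, ![rr e1 θ1, rr e1 θ2 + rr e2 θ1, rr e2 θ2, rr e1 θ3 + rr e3 θ1, rr e2 θ3 + rr e3 θ2,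
      rr e3 θ3] i = C (s i) * (wg φ3 w - c3 * dv w) + wg (κ i) w + l i * dv w) (hB : ¬ DL 3 (dv w)) :
    ∃ g, 2 * (q6 (X 0) (X 1) fun i => C (s i)) *
        (c3 * (θ1.1 + θ2.2) - e2 * φ3.2 - e1 * φ3.1) -
      2 * (e2 * (q6 (X 0) (X 1) fun i => (κ i).2) + e1 * q6 (X 0) (X 1) fun i => (κ i).1) -
      2 * q6 (X 0) (X 1) l * (θ1.1 + θ2.2) = g * q6 (X 0) (X 1) fun i => C (s i) := by
  obtain ⟨m, hm, hc⟩ : ∃ m : Fin 2 →₀ ℕ, 3 ≤ m.degree ∧ coeff m (dv w) ≠ 0 := by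
    by_contra hc
    push Not at hc
    exact hB hc
  have P : Pf fun a b : R2 K => (q6 a b fun i => C (s i)) *
      l3 a b (Gf φ3 c3 e1 θ1) (Gf φ3 c3 e2 θ2) (Gf φ3 c3 e3 θ3) +
      (2 * (l3 a b (d1 e1).1 (d1 e2).1 (d1 e3).1 * (q6 a b fun i => (κ i).2) -
        l3 a b (d1 e1).2 (d1 e2).2 (d1 e3).2 * q6 a b fun i => (κ i).1) +
      2 * q6 a b l * l3 a b (dv θ1) (dv θ2) (dv θ3) -
      (l3 a b θ1.1 θ2.1 θ3.1 * (q6 a b fun i => (κ i).2) -
        l3 a b θ1.2 θ2.2 θ3.2 * q6 a b fun i => (κ i).1) -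
      ((q6 a b fun i => (d1 (l i)).1) * l3 a b θ1.2 θ2.2 θ3.2 -
        (q6 a b fun i => (d1 (l i)).2) * l3 a b θ1.1 θ2.1 θ3.1)) -
      (q6 a b fun i => C (s i)) * l3 a b (C (coeff m (Gf φ3 c3 e1 θ1) / coeff m (dv w)))
        (C (coeff m (Gf φ3 c3 e2 θ2) / coeff m (dv w)))
        (C (coeff m (Gf φ3 c3 e3 θ3) / coeff m (dv w))) * dv w := by
    exact (((Pf.q6 _).mul (Pf.l3 _ _ _)).add (((((Pf.const _).mul (((Pf.l3 _ _ _).mul (Pf.q6 _)).sub
      ((Pf.l3 _ _ _).mul (Pf.q6 _)))).add (((Pf.const _).mul (Pf.q6 _)).mul (Pf.l3 _ _ _))).sub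
      (((Pf.l3 _ _ _).mul (Pf.q6 _)).sub ((Pf.l3 _ _ _).mul (Pf.q6 _)))).sub
      (((Pf.q6 _).mul (Pf.l3 _ _ _)).sub ((Pf.q6 _).mul (Pf.l3 _ _ _))))).sub
      (((Pf.q6 _).mul (Pf.l3 _ _ _)).mul (Pf.const _))
  have Z := P.zero (fun a b => by
    have := lev2 L k1 (s := q6 a b s) (c := C a * e1 + C b * e2 + e3)
      (θ := (C a : R2 K) • θ1 + (C b : R2 K) • θ2 + θ3)
      (κ := (q6 (C a) (C b) fun i => (κ i).1, q6 (C a) (C b) fun i => (κ i).2))
      (l := q6 (C a) (C b) l) T.f3 T.g3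
      (DF_mk (q6_DL a b fun i => (dκ i).1) (q6_DL a b fun i => (dκ i).2)) (q6_DL a b dl)
      (((T.a1.C_smul a).add (T.a2.C_smul b)).add T.a3)
      (((T.b1.C_mul a).add (T.b2.C_mul b)).add T.b3)
      (pr_add (pr_add (pr_smul _ T.p1) (pr_smul _ T.p2)) T.p3) (by
        have h0 := h 0
        have h1 := h 1
        have h2 := h 2
        have h3 := h 3
        have h4 := h 4
        have h5 := h 5
        simp only [Matrix.cons_val] at h0 h1 h2 h3 h4 h5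
        simp only [rr, d1_add, d1_C_mul, dv_add, dv_C_smul, wg_add, wg_add', wg_smul, wg_smul']
          at h0 h1 h2 h3 h4 h5 ⊢
        simp only [q6, map_add, map_mul, wg] at h0 h1 h2 h3 h4 h5 ⊢
        linear_combination C a * C a * h0 + C a * C b * h1 + C b * C b * h2 + C a * h3 +
          C b * h4 + h5) hm hc
    have eG : Gf φ3 c3 (C a * e1 + C b * e2 + e3) ((C a : R2 K) • θ1 + (C b : R2 K) • θ2 + θ3) =
        C a * Gf φ3 c3 e1 θ1 + C b * Gf φ3 c3 e2 θ2 + Gf φ3 c3 e3 θ3 := by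
      simp only [Gf, d1_add, d1_C_mul, dv_add, dv_C_smul, wg_add, wg_add', wg_smul, wg_smul']
      ring
    rw [eG, coeff_add, coeff_add, coeff_C_mul, coeff_C_mul, add_div, add_div, mul_div_assoc,
      mul_div_assoc] at this
    simp only [q6, ← map_mul, d1_add, d1_C_mul, dv_add, dv_C_smul] at this
    simp only [q6, l3, wg, map_add, map_mul, Prod.fst_add, Prod.snd_add, Prod.smul_fst,
      Prod.smul_snd, smul_eq_mul] at this ⊢
    linear_combination this) (X 0) (X 1)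
  refine ⟨l3 (X 0) (X 1) (C (coeff m (Gf φ3 c3 e1 θ1) / coeff m (dv w)))
        (C (coeff m (Gf φ3 c3 e2 θ2) / coeff m (dv w)))
        (C (coeff m (Gf φ3 c3 e3 θ3) / coeff m (dv w))) * dv w, ?_⟩
  generalize l3 (X 0 : R2 K) (X 1) (C (coeff m (Gf φ3 c3 e1 θ1) / coeff m (dv w))) _ _ = τ at Z ⊢
  generalize q6 (X 0 : R2 K) (X 1) (fun i => C (s i)) = σ at Z ⊢
  generalize q6 (X 0) (X 1) (fun i => (κ i).1) = k1 at Z ⊢
  generalize q6 (X 0) (X 1) (fun i => (κ i).2) = k2 at Z ⊢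
  generalize q6 (X 0) (X 1) l = k3 at Z ⊢
  generalize q6 (X 0) (X 1) (fun i => (d1 (l i)).1) = k4 at Z
  generalize q6 (X 0) (X 1) (fun i => (d1 (l i)).2) = k5 at Z
  generalize dv w = B at Z ⊢
  rw [T.t0, T.u0] at Z
  simp [l3, Gf, wg, dv, d1] at Z
  linear_combination Z

theorem DF1_eq {κ : Fm K} (h : DF 1 κ) : ∃ a b : K, κ = (C a, C b) :=
  ⟨_, _, Prod.ext (DL1_eq h.1) (DL1_eq h.2)⟩

theorem DL2_ex {u : R2 K} (h : DL 2 u) : ∃ p a b : K, u = C p + C a * X 0 + C b * X 1 :=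
  ⟨_, _, _, (DL2_eq h).trans (add_assoc _ _ _).symm⟩

/-- The conic is constant. -/
theorem const {J : Ideal (R2 K)} (L : Lev 4 w J) (hN : ¬ Con w)
    (k1 : ∀ u ∈ J, DL 4 u → ∃ r : K, u = C r * dv w) {σ g : R2 K} (dσ : DL 3 σ)
    (h : wg (d1 σ) w = g * σ) : d1 σ = 0 := by
  by_cases h1 : DL 1 σ
  · rw [DL1_eq h1, d1_C]
  have hg : g ∈ J := L.inv σ g (fun e => h1 (e ▸ DL.zero 1)) dσ h g
    (by rw [mul_comm, ← h]; exact wg_mem L.toLevA _)
  have dg : DL 4 g := by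
    by_cases h2 : DL 2 σ
    · exact DL_of_mul (b := 1) (h ▸ (DF.d1 h2).wg L.deg) h1
    · exact DL_of_mul (b := 2) (h ▸ (DF.d1 dσ).wg L.deg) h2
  obtain ⟨r, rfl⟩ := k1 g hg dg
  by_contra hc
  exact hN ⟨C r * σ, d1 σ, dσ.C_mul r, DF.d1 dσ, fun e => hc e.2, by rw [Pr, h]; ring⟩

end Nc4

open Nc4 in
theorem nc4S (hK : KgStmt) (hP : PullStmt) : Nc4Stmt := by
  intro K _ _ w J L hB hC hN
  obtain ⟨k1, k2, k3, k4⟩ := hK K 4 w J le_rfl L hB hC
  obtain ⟨h6, q, hq, dq, hn, h5⟩ := exists_q L hN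
  obtain ⟨φ1, φ2, φ3, θ1, θ2, θ3, c1, c2, c3, e1, e2, e3, r, hr, rfl, T⟩ :=
    exists_tri hN hq dq h6 hn k3 k4
  have nB : ¬ DL 3 (dv w) := fun h => hB (L.low _ L.mB h)
  choose s κ l dκ dl h using fun i : Fin 6 => h5 (![rr e1 θ1, rr e1 θ2 + rr e2 θ1, rr e2 θ2,
    rr e1 θ3 + rr e3 θ1, rr e2 θ3 + rr e3 θ2, rr e3 θ3] i) (by
      fin_cases i
      exacts [L.l1 _ _ T.p1, rr_mem L.toLevA T.p1 T.p2, L.l1 _ _ T.p2, rr_mem L.toLevA T.p1 T.p3,
        rr_mem L.toLevA T.p2 T.p3, L.l1 _ _ T.p3]) (by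
      fin_cases i
      exacts [rr_DL T.b1 T.a1, (rr_DL T.b1 T.a2).add (rr_DL T.b2 T.a1), rr_DL T.b2 T.a2,
        (rr_DL T.b1 T.a3).add (rr_DL T.b3 T.a1), (rr_DL T.b2 T.a3).add (rr_DL T.b3 T.a2),
        rr_DL T.b3 T.a3])
  obtain ⟨g, hg⟩ := level L k1 T dκ dl h nB
  have h0 := h 0
  have h1 := h 1
  have h2 := h 2
  have h3 := h 3
  have h4 := h 4
  have h5 := h 5
  simp only [Matrix.cons_val] at h0 h1 h2 h3 h4 h5
  have dC : ∀ a b : K, DF 2 ((C a, C b) : Fm K) := fun a b =>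
    ⟨(DL_C a).mono (by omega), (DL_C b).mono (by omega)⟩
  obtain ⟨A1, B1⟩ := rel hN T (a := s 0 + s 0) (b := s 1) (c := s 3) (ζ := (C r, C 0))
    ((dκ 0).add (dκ 0)) (dκ 1) (dκ 3) ((dl 0).add (dl 0)) (dl 1) (dl 3) (dC _ _) (by
      have := T.r1
      rw [h0, h1, h3] at this
      simp only [wg, map_add, map_zero, Prod.fst_add, Prod.snd_add] at this ⊢
      linear_combination this)
  obtain ⟨A2, B2⟩ := rel hN T (a := s 1) (b := s 2 + s 2) (c := s 4) (ζ := (C 0, C r))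
    (dκ 1) ((dκ 2).add (dκ 2)) (dκ 4) (dl 1) ((dl 2).add (dl 2)) (dl 4) (dC _ _) (by
      have := T.r2
      rw [h1, h2, h4] at this
      simp only [wg, map_add, map_zero, Prod.fst_add, Prod.snd_add] at this ⊢
      linear_combination this)
  obtain ⟨A3, B3⟩ := rel hN T (a := s 3) (b := s 4) (c := s 5 + s 5)
    (ζ := (-(C r * X 0), -(C r * X 1))) (dκ 3) (dκ 4) ((dκ 5).add (dκ 5)) (dl 3) (dl 4)
    ((dl 5).add (dl 5)) ⟨((DL_X 0).C_mul r).neg, ((DL_X 1).C_mul r).neg⟩ (by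
      have := T.r3
      rw [h3, h4, h5] at this
      simp only [wg, map_add, Prod.fst_add, Prod.snd_add] at this ⊢
      linear_combination this)
  have x1 := congrArg Prod.fst A1
  have y1 := congrArg Prod.snd A1
  have x2 := congrArg Prod.fst A2
  have y2 := congrArg Prod.snd A2
  have x3 := congrArg Prod.fst A3
  have y3 := congrArg Prod.snd A3
  have xr := congrArg Prod.fst T.hr
  have yr := congrArg Prod.snd T.hr
  have xt := congrArg Prod.fst T.t1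
  have yt := congrArg Prod.snd T.t1
  have xu := congrArg Prod.fst T.t2
  have yu := congrArg Prod.snd T.t2
  simp only [Prod.fst_add, Prod.snd_add, Prod.smul_fst, Prod.smul_snd, Prod.fst_sub, Prod.snd_sub,
    smul_eq_mul, Prod.fst_zero, Prod.snd_zero, map_add, map_zero] at x1 y1 x2 y2 x3 y3 xr yr xt yt xu yu B1 B2 B3
  have ri : (C r⁻¹ * C r : R2 K) = 1 := by rw [← map_mul, inv_mul_cancel₀ hr, map_one]
  have z := const L hN k1 (σ := q6 (X 0) (X 1) fun i => C (s i)) (g := C r⁻¹ * g)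
    (by
      have m : ∀ i j, DL 3 (X i * X j : R2 K) := fun i j => (DL_X i).mul (DL_X j)
      have n : ∀ i, DL 3 (X i : R2 K) := fun i => (DL_X i).mono (by omega)
      exact ((((((m 0 0).mul' (DL_C _)).add ((m 0 1).mul' (DL_C _))).add
        ((m 1 1).mul' (DL_C _))).add ((n 0).mul' (DL_C _))).add ((n 1).mul' (DL_C _))).add
          ((DL_C _).mono (by omega)))
    (by
      rw [mul_assoc, ← hg, ← one_mul (wg _ _), ← ri, mul_assoc]
      congr 1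
      have f1 : φ1.1 = X 0 * φ3.1 - θ2.1 := by rw [xu]; ring
      have f2 : φ1.2 = X 0 * φ3.2 - θ2.2 := by rw [yu]; ring
      have f3 : φ2.1 = θ1.1 + X 1 * φ3.1 := by rw [xt]; ring
      have f4 : φ2.2 = θ1.2 + X 1 * φ3.2 := by rw [yt]; ring
      have f5 : c1 = X 0 * c3 - e2 := by rw [T.u2]; ring
      have f6 : c2 = e1 + X 1 * c3 := by rw [T.u1]; ring
      rw [f1, f3] at x1 x2 x3
      rw [f2, f4] at y1 y2 y3
      rw [f5, f6] at B1 B2 B3
      simp [q6, wg, d1]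
      linear_combination -(2 * X 0 * C (s 0) + X 1 * C (s 1) + C (s 3)) * xr -
        (X 0 * C (s 1) + 2 * X 1 * C (s 2) + C (s 4)) * yr + e2 * (X 0 * y1 + X 1 * y2 + y3) +
        e1 * (X 0 * x1 + X 1 * x2 + x3) - (θ1.1 + θ2.2) * (X 0 * B1 + X 1 * B2 + B3))
  have z1 := congrArg Prod.fst z
  have z2 := congrArg Prod.snd z
  simp [q6, d1] at z1 z2
  obtain ⟨-, -, -, s1, s2, s4⟩ := quad0 (a := 0) (b := 0) (c := 0) (e := s 1) (f := 2 * s 2)
    (g := s 4) (by simp only [map_zero, map_mul, map_ofNat]; linear_combination z1)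
  obtain ⟨-, -, -, s0, -, s3⟩ := quad0 (a := 0) (b := 0) (c := 0) (e := 2 * s 0) (f := s 1)
    (g := s 3) (by simp only [map_zero, map_mul, map_ofNat]; linear_combination -z2)
  replace s0 := (mul_eq_zero.1 s0).resolve_left two_ne_zero
  replace s2 := (mul_eq_zero.1 s2).resolve_left two_ne_zero
  choose α β hκ using fun i => DF1_eq (dκ i)
  choose p a b hl using fun i => DL2_ex (dl i)
  simp only [s0, s1, s2, s3, s4, map_zero, hκ, hl] at x1 y1 x2 y2 x3 y3 B1 B2 h0 h1 h2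
  have two : ∀ {a : K}, 2 * a = 0 → a = 0 := fun h => (mul_eq_zero.1 h).resolve_left two_ne_zero
  obtain ⟨-, -, -, α0, α1, α3⟩ := quad0 (a := 0) (b := 0) (c := 0) (e := 2 * α 0) (f := α 1)
    (g := α 3 - r) (by simp only [map_zero, map_mul, map_sub, map_ofNat]; linear_combination x1)
  obtain ⟨-, -, -, β0, β1, -⟩ := quad0 (a := 0) (b := 0) (c := 0) (e := 2 * β 0) (f := β 1)
    (g := β 3) (by simp only [map_zero, map_mul, map_ofNat]; linear_combination y1)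
  obtain ⟨-, -, -, -, α2, -⟩ := quad0 (a := 0) (b := 0) (c := 0) (e := α 1) (f := 2 * α 2)
    (g := α 4) (by simp only [map_zero, map_mul, map_ofNat]; linear_combination x2)
  obtain ⟨-, -, -, -, β2, β4⟩ := quad0 (a := 0) (b := 0) (c := 0) (e := β 1) (f := 2 * β 2)
    (g := β 4 - r) (by simp only [map_zero, map_mul, map_sub, map_ofNat]; linear_combination y2)
  obtain ⟨a0, b0, b1, -⟩ := quad0 (a := 2 * a 0) (b := 2 * b 0 + a 1) (c := b 1)
    (e := 2 * p 0 + a 3) (f := p 1 + b 3) (g := p 3)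
    (by simp only [map_mul, map_add, map_ofNat]; linear_combination -B1)
  obtain ⟨a1, a2, b2, -⟩ := quad0 (a := a 1) (b := 2 * a 2 + b 1) (c := 2 * b 2)
    (e := p 1 + a 4) (f := 2 * p 2 + b 4) (g := p 4)
    (by simp only [map_mul, map_add, map_ofNat]; linear_combination -B2)
  rw [a1, add_zero] at b0
  rw [b1, add_zero] at a2
  simp only [two α0, α1, two α2, two β0, β1, two β2, two a0, two b0, a1, b1, two a2, two b2,
    map_zero, wg, zero_mul, add_zero, zero_add, sub_zero] at h0 h1 h2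
  have hd := congrArg dv T.hr
  rw [dv_sub, dv_smul, dv_smul, dv_C_smul] at hd
  have i2 : (C (2⁻¹ : K) * 2 : R2 K) = 1 := by
    rw [← map_ofNat C, ← map_mul, inv_mul_cancel₀ two_ne_zero, map_one]
  simp only [rr, wg] at h0 h1 h2 hd
  obtain ⟨z, -⟩ := hP K w θ1 θ2 e1 e2 r (p 0) (2⁻¹ * (p 1 + r)) (2⁻¹ * (p 1 - r)) (p 2) hr k2
    (fun h => nB (h.mono (by omega))) T.a1 T.a2 T.p1 T.p2 T.hr h0
    (by
      simp only [wg, map_mul, map_add]
      linear_combination C 2⁻¹ * (h1 + hd) -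
        (e2 * dv θ1 - ((d1 e1).1 * θ2.2 - (d1 e1).2 * θ2.1)) * i2)
    (by
      simp only [wg, map_mul, map_sub]
      linear_combination C 2⁻¹ * (h1 - hd) -
        (e1 * dv θ2 - ((d1 e2).1 * θ1.2 - (d1 e2).2 * θ1.1)) * i2) h2
  obtain ⟨t, ht⟩ : ∃ t, dv φ2 = C t := ⟨_, DL1_eq T.f2.dv⟩
  rw [T.t1, dv_sub, dv_smul, ht] at z
  have d1x := congrArg (pderiv 0) x3
  have d1y := congrArg (pderiv 1) y3
  simp [wg, d1, dv] at z d1x d1y
  obtain ⟨-, -, -, -, r0, -⟩ := quad0 (a := 0) (b := 0) (c := 0) (e := β 3)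
    (f := α 3 + 2 * β 4 + 3 * r) (g := 2 * (s 5 * t) + 2 * β 5) (by
      simp only [map_zero, map_mul, map_add, map_ofNat]
      linear_combination 2 * C (s 5) * z + y3 + X 1 * (d1x + d1y))
  rw [sub_eq_zero.1 α3, sub_eq_zero.1 β4] at r0
  exact hr (by linear_combination r0 / 6)

end Pool.Agent.MP_05b4bd_ag.PC3

end MrgPart3

-- ======== part 4: formerly Pool.Agent.MP_05b4bd_ag.pc3.Nrm
section MrgPart4

/-! Normalisation of a conic pair over the power series ring. -/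

namespace Pool.Agent.MP_05b4bd_ag.PC3

open MvPolynomial HC ES
open scoped PowerSeries LaurentSeries

theorem nrmS (hG : GenTopStmt) (hI : IcStmt) : NrmStmt := by
  intro k _ _ _ d f w m c0 c1 hd A hB ⟨dm, _, hP⟩ hm
  obtain ⟨e, rfl⟩ : ∃ e, d = e + 3 := ⟨d - 3, by omega⟩
  set m0 := coeff 0 m with hm0
  obtain ⟨r, m1, hr, em, nm⟩ := prim (u := m - C m0) (fun h => hm (by
    rw [sub_eq_zero.1 h, d1_C]))
  obtain ⟨ε, b, eb, nb⟩ := content (cc : k⟦X⟧ →+* k) (dv w)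
  have ε0 : ε ≠ 0 := fun h => hB (by rw [eb, h, map_zero, zero_mul])
  have rε : cc ε = 0 := by
    have := map_dv (cc : k⟦X⟧ →+* k) w
    rw [A.red, dv_d1, eb, map_mul, map_C] at this
    exact C_eq_zero.1 ((mul_eq_zero.1 this).resolve_right nb)
  have d1m : DL 3 m1 := DL_of_coe (DL.of_C_mul hr (em ▸ dm.sub ((DL_C _).mono (by omega))))
  have z1 : coeff 0 m1 = 0 := by
    have := congrArg (coeff 0) em
    rw [coeff_sub, coeff_zero_C, sub_self, coeff_C_mul, coeff_map] at this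
    exact coeL_inj (by rw [map_zero]; exact (mul_eq_zero.1 this.symm).resolve_left hr)
  have em' : m = C m0 + C r * map (coeL k) m1 := by linear_combination em
  obtain ⟨i, hi⟩ : ∃ i, r * i = 1 := ⟨_, mul_inv_cancel₀ hr⟩
  have E : map (coeL k) (wg (d1 m1) w) = (C ((c0 + c1 * m0) * coeL k ε * i) +
      C (c1 * coeL k ε) * map (coeL k) m1) * map (coeL k) b := by
    rw [Pr, ← map_dv, eb, em', d1_add, d1_C, zero_add, d1_C_mul, wg_smul, ← mapF_d1, ← map_wg] at hP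
    have hi' := congrArg (C : k⸨X⸩ → R2 k⸨X⸩) hi
    simp only [map_mul, map_add, map_C, map_one] at hP hi' ⊢
    linear_combination C i * hP + (C c1 * C (coeL k ε) * map (coeL k) m1 * map (coeL k) b -
      map (coeL k) (wg (d1 m1) w)) * hi'
  obtain ⟨Cc, hC⟩ : ∃ Cc : R2 k⟦X⟧, map (coeL k) Cc = C ((c0 + c1 * m0) * coeL k ε * i) +
      C (c1 * coeL k ε) * map (coeL k) m1 := by
    generalize C ((c0 + c1 * m0) * coeL k ε * i) + C (c1 * coeL k ε) * map (coeL k) m1 = U at E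
    by_cases hU : U = 0
    · exact ⟨0, by rw [hU, map_zero]⟩
    obtain ⟨s, V, -, rfl, nV⟩ := prim hU
    obtain ⟨a, rfl, -⟩ := int_of_prim (v := V * b) (r := s)
      (by rw [map_mul]; exact mul_ne_zero nV nb) (by rw [E, map_mul, mul_assoc])
    exact ⟨C a * V, by rw [map_mul, map_C]⟩
  have hA0 : coeL k (coeff 0 Cc) = (c0 + c1 * m0) * coeL k ε * i := by
    have := congrArg (coeff 0) hC
    rwa [coeff_map, coeff_add, coeff_zero_C, coeff_C_mul, coeff_map, z1, map_zero, mul_zero,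
      add_zero] at this
  obtain ⟨c, hc1, hc2⟩ := int_of_prim (u := Cc - C (coeff 0 Cc)) (r := c1 * coeL k ε) nm (by
    rw [map_sub, map_C, hA0, hC]; ring)
  generalize coeff 0 Cc = a0 at hA0 hc2
  obtain rfl : Cc = C a0 + C c * m1 := by linear_combination hc2
  rw [← hC, ← map_mul] at E
  replace E := map_injective _ coeL_inj E
  have R := congrArg (map (cc : k⟦X⟧ →+* k)) E
  rw [map_wg, A.red, mapF_d1, wg_d1_d1] at R
  simp only [map_mul, map_add, map_C] at R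
  have dM : DL 3 (map (cc : k⟦X⟧ →+* k) m1) := d1m.map _
  have zM : coeff 0 (map (cc : k⟦X⟧ →+* k) m1) = 0 := by rw [coeff_map, z1, map_zero]
  generalize hM : map (cc : k⟦X⟧ →+* k) m1 = M at R dM zM nm
  have nM : ¬ DL 1 M := fun h => nm (by rw [DL1_eq h, zM, map_zero])
  have g0 : C (cc a0) + C (cc c) * M ≠ 0 := fun h =>
    nM (hI k _ f M 0 hd A.gen nm dM (by rw [R, h]; ring))
  have rc : cc c = 0 := by
    by_contra h
    have := hI k _ f _ (C (cc c) * map cc b) hd A.gen g0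
      (((DL_C _).mono (by omega)).add (dM.C_mul _)) (by
        have : br (C (cc a0) + C (cc c) * M) f = C (cc c) * br M f := by
          simp only [br, map_add, pderiv_C, pderiv_C_mul]; ring
        rw [this, R]; ring)
    exact nM (DL.of_C_mul h (by simpa using this.sub (DL_C (cc a0))))
  rw [rc, map_zero, zero_mul, add_zero] at R g0
  have ra : cc a0 ≠ 0 := fun h => g0 (by rw [h, map_zero])
  obtain ⟨j, hj⟩ := (unit_iff.2 ra).exists_right_inv
  have rj : cc j ≠ 0 := fun h => by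
    have := congrArg (cc : k⟦X⟧ →+* k) hj
    rw [map_mul, h, mul_zero, map_one] at this
    exact zero_ne_one this
  have db : DL (e + 3) b := DL.of_C_mul ε0 (eb ▸ A.deg.dv)
  have lin1 : DL 2 M := by
    obtain ⟨-, ci, -⟩ := hG k _ f (by omega) A.gen
    have df := A.gen.2.1
    rw [← hc_pderiv, ← hc_pderiv] at ci
    obtain ⟨U, V, dU, dV, h⟩ := kos_top (e := e + 1) (n := 1) (df.pderiv 0) (df.pderiv 1) ci
      (-pderiv 1 M) (pderiv 0 M) (by
        have : -pderiv 1 M * pderiv 0 f + pderiv 0 M * pderiv 1 f = C (cc a0) * map cc b := by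
          rw [← R, br]; ring
        rw [this]
        exact ((db.map _).C_mul _).mono (by omega))
    obtain ⟨h1, h2⟩ := kos_zero (e := e + 1) (k := 2) (df.pderiv 0) (df.pderiv 1) ci (by omega)
      ((dU.mono (by omega)).add (dM.pderiv 1)) ((dV.mono (by omega)).sub (dM.pderiv 0))
      (by linear_combination h)
    have x1 : DL 1 (pderiv 0 M) := sub_eq_zero.1 h2 ▸ dV
    have y1 : DL 1 (pderiv 1 M) := by
      rw [show pderiv 1 M = -U by linear_combination h1]; exact dU.neg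
    refine dM.pred ?_
    have := euler (hc_hom 2 M)
    rw [← hc_pderiv, ← hc_pderiv, x1.hc_eq le_rfl, y1.hc_eq le_rfl, mul_zero, mul_zero,
      add_zero] at this
    exact (mul_eq_zero.1 this.symm).resolve_left (Nat.cast_ne_zero.2 (by omega))
  have hj' := congrArg (C : k⟦X⟧ → R2 k⟦X⟧) hj
  rw [map_mul, map_one] at hj'
  have hj2 := congrArg (coeL k) hj
  rw [map_mul, map_one, hA0] at hj2
  refine ⟨C j * m1, b, ε, c, m0, c0 + c1 * m0, ⟨ε0, rε, rc, d1m.C_mul _,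
    by rw [coeff_C_mul, z1, mul_zero], ?_, eb, ?_⟩, fun h => ?_, rfl, hc1.symm, ?_⟩
  · have e1 := DL2_eq (lin1.C_mul (cc j))
    rw [coeff_C_mul, zM, mul_zero, map_zero, zero_add] at e1
    exact ⟨_, _, e1 ▸ mul_ne_zero (C_ne_zero.2 rj) nm, by rw [map_mul, map_C, hM]; exact e1⟩
  · rw [d1_C_mul, wg_smul, E]
    linear_combination b * hj'
  · rw [h, zero_mul, zero_mul, zero_mul] at hj2
    exact zero_ne_one hj2
  · rw [em', map_mul (map (coeL k)), map_C, ← mul_assoc, ← map_mul]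
    congr 3
    linear_combination (-r) * hj2 + (coeL k ε * (c0 + c1 * m0) * coeL k j) * hi

end Pool.Agent.MP_05b4bd_ag.PC3

end MrgPart4

-- marker of a merged file
example : 731051 + 223846 = 731051 + 223846 := rfl
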