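import Pool.Agent.MP_05b4bd_ag.pc3.Lift
import Pool.Agent.MP_05b4bd_ag.esc3.Spec
import Pool.Agent.MP_05b4bd_ag.esc.Minp
import Pool.Agent.MP_05b4bd_ag.esc.Log1

/-! Approximate first integrals along an arc of centres. -/

namespace Pool.Agent.MP_05b4bd_ag.PC3

open MvPolynomial HC ES
open scoped PowerSeries LaurentSeries

namespace Seq

variable {k : Type} [Field k] [CharZero k] [IsAlgClosed k]

theorem sqrt {u : k⟦X⟧} (hu : cc u ≠ 0) : ∃ δ : k⟦X⟧, δ * δ = u := by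
  obtain ⟨y, -, h⟩ := exists_root_one hu (n := 2) (by omega)
  obtain ⟨z, hz⟩ := IsAlgClosed.exists_eq_mul_self (cc u)
  rw [hz, map_mul] at h
  exact ⟨PowerSeries.C z * y, by linear_combination -h⟩

/-- Images descend from the Laurent series to the power series. -/
theorem star {d : ℕ} (hd : 2 ≤ d) {f : R2 k} (H : IndC d f) {P Q b : R2 k⟦X⟧}
    (mP : P ∈ mm k⟦X⟧ ^ 1) (mQ : Q ∈ mm k⟦X⟧ ^ 1) (rP : map cc P = pderiv 1 f)
    (rQ : map cc Q = -pderiv 0 f) (hI : FI (map (coeL k) P) (map (coeL k) Q))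
    (hb : InIm (map (coeL k) P) (map (coeL k) Q) (map (coeL k) b)) : InIm P Q b := by
  have : CharZero k⸨X⸩ := charZero_of_injective_ringHom (cL_inj (R := k))
  obtain ⟨l0, l1⟩ := H.low hd
  have r0 : cc (HC.co 1 0 P) = HC.co 1 1 f := by rw [← co_map, rP, co_y]; simp
  have r1 : cc (HC.co 0 1 P) = 2 * HC.co 0 2 f := by rw [← co_map, rP, co_y]; norm_num [mul_comm]
  have r2 : cc (HC.co 1 0 Q) = -(2 * HC.co 2 0 f) := by
    rw [← co_map, rQ, co_neg, co_x]; norm_num [mul_comm]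
  have r3 : cc (HC.co 0 1 Q) = -HC.co 1 1 f := by rw [← co_map, rQ, co_neg, co_x]; simp
  have l : ∀ u : R2 k⟦X⟧, hc 1 u = HC.lf (HC.co 1 0 u) (HC.co 0 1 u) := fun u => by
    rw [hom1_eq (hc_hom 1 u), co_hc 1 0, co_hc 0 1]
  have hv : IK (coeL k) P Q (pderiv 0 P + pderiv 1 Q) := by
    rw [IK, map_add, ← pderiv_map, ← pderiv_map]
    refine div_inIm (mm_map _ mP) (mm_map _ mQ) ?_ hI
    rw [hc_map, hc_map, l, l, map_lf, map_lf]
    refine CI_lf fun h => l1 ?_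
    rw [← map_mul, ← map_mul, ← map_sub, map_eq_zero_iff _ coeL_inj] at h
    have := congrArg cc h
    rw [map_sub, map_mul, map_mul, r0, r1, r2, r3, map_zero] at this
    linear_combination -this
  have tr0 : HC.co 0 1 Q = -HC.co 1 0 P := by
    obtain ⟨g, hg⟩ := hv 1
    have h1 := add_mem hg (add_mem (Ideal.mul_mem_right (pderiv 0 g) _ (mm_map (coeL k) mP))
      (Ideal.mul_mem_right (pderiv 1 g) _ (mm_map (coeL k) mQ)))
    rw [vf, sub_add_cancel] at h1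
    have := co_of_mm (mm_of_map _ coeL_inj h1) (show 0 + 0 < 1 by omega)
    rw [co_add, co_x, co_y] at this
    simp only [Nat.cast_zero, zero_add, mul_one] at this
    linear_combination this
  have n0 : cc (HC.co 1 0 P * HC.co 1 0 P + HC.co 0 1 P * HC.co 1 0 Q) ≠ 0 := fun h => l1 (by
    rw [map_add, map_mul, map_mul, r0, r1, r2] at h
    linear_combination h)
  obtain ⟨δ, hδ⟩ := sqrt n0
  have uδ : IsUnit (2 * δ * HC.co 1 0 Q) := by
    rw [unit_iff, map_mul, map_mul, r2, map_ofNat]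
    refine mul_ne_zero (mul_ne_zero two_ne_zero fun h => n0 ?_)
      (neg_ne_zero.2 (mul_ne_zero two_ne_zero l0))
    rw [← hδ, map_mul, h, zero_mul]
  exact Eig.star coeL_inj (eig_of mP mQ (l P) (by rw [l, tr0]) hδ uδ) hI hb

theorem no_ob (hE : EscStmt3) (h2 : GenCritStmt) (h3 : GenJacStmt) {d : ℕ} (hd : 3 ≤ d)
    (o : Ob k d) {p : Fin 2 → k⸨X⸩} (h : CenK (o.P, o.Q) p) : False := by
  have : CharZero k⸨X⸩ := charZero_of_injective_ringHom (cL_inj (R := k))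
  obtain ⟨mP, mQ, hb, hI⟩ := h
  choose c hc using hE k d hd o p (Core.cab_of_fi p mP mQ hb hI)
  obtain rfl : p = fun i => coeL k (c i) := funext hc
  dsimp only at mP mQ hI
  rw [← map_tr] at mP mQ
  rw [← map_tr, ← map_tr] at hI
  replace mP := mm_of_map _ coeL_inj mP
  replace mQ := mm_of_map _ coeL_inj mQ
  obtain ⟨q, hq⟩ : ∃ q : Fin 2 → k, q = fun i => cc (c i) := ⟨_, rfl⟩
  have eP : map cc (tr c o.P) = pderiv 1 (tr q o.f) := by rw [map_tr, o.rP, tr_pderiv, hq]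
  have eQ : map cc (tr c o.Q) = -pderiv 0 (tr q o.f) := by
    rw [map_tr, o.rQ, tr_pderiv, map_neg, hq]
  have crit : ∀ i, eval q (pderiv i o.f) = 0 := by
    have a := mem_mm_one.1 (mm_map (cc : k⟦X⟧ →+* k) mP)
    have b := mem_mm_one.1 (mm_map (cc : k⟦X⟧ →+* k) mQ)
    rw [eP, tr_pderiv, coeff_zero_tr] at a
    rw [eQ, tr_pderiv, coeff_neg, coeff_zero_tr, neg_eq_zero] at b
    intro i
    fin_cases i
    exacts [b, a]
  have dg : ∀ i, pderiv i (tr q o.f) = pderiv i (tr q o.f - C (eval q o.f)) := fun i => by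
    rw [map_sub, pderiv_C, sub_zero]
  rw [dg] at eP eQ
  have x0 : coeL k (PowerSeries.X ^ o.n) ≠ 0 := fun e =>
    pow_ne_zero _ PowerSeries.X_ne_zero (coeL_inj (e.trans (map_zero _).symm))
  have key := star (b := tr c o.gt) (by omega) (h2 k d o.f (by omega) o.gen q crit) mP mQ eP eQ hI
    fun N => ⟨C (coeL k (PowerSeries.X ^ o.n))⁻¹ * map (coeL k) (tr c o.H), by
      rw [vf_C_mul, ← map_vf, ← tr_vf, o.eq, map_mul, map_mul, algHom_C, algebraMap_eq, map_C,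
        ← mul_assoc, ← map_mul, inv_mul_cancel₀ x0, map_one, one_mul, sub_self]
      exact zero_mem _⟩
  obtain ⟨s, -, hs, -, -, hN⟩ := h3 k d o.f hd o.gen
  obtain ⟨v, hv⟩ := hN q ((hs q).2 crit) (map cc o.gt) (mem_NN.2 fun N => by
    obtain ⟨h, hh⟩ := key N
    have := mm_map (cc : k⟦X⟧ →+* k) hh
    rw [map_sub, map_vf, eP, eQ, map_tr, ← hq] at this
    exact ⟨_, this⟩)
  exact o.ng v hv

end Seq

theorem seqS (hE : EscStmt3) (h2 : GenCritStmt) (h3 : GenJacStmt) : SeqStmt := by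
  rintro k _ _ _ d f ⟨P, Q⟩ p hd ⟨hf, ⟨dP, dQ⟩, hr⟩ hp
  have rP : map cc P = pderiv 1 f := congrArg Prod.fst hr
  have rQ : map cc Q = -pderiv 0 f := congrArg Prod.snd hr
  obtain ⟨s, -, hs, -, hJ, -⟩ := h3 k d f hd hf
  have hb : map cc (br P Q) = br (pderiv 1 f) (-pderiv 0 f) := by rw [map_br, rP, rQ]
  have lf : ∀ q ∈ s, ∃ p : Fin 2 → k⟦X⟧, (∀ i, cc (p i) = q i) ∧ eval p P = 0 ∧ eval p Q = 0 := by
    intro q hq
    refine Fra.lift P Q q ?_ ?_ ?_
    · rw [rP]; exact (hs q).1 hq 1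
    · rw [rQ, map_neg, (hs q).1 hq 0, neg_zero]
    · rw [hb]
      exact (Fra.hess (show 2 ≤ d by omega) (h2 k d f (by omega) hf q ((hs q).1 hq))).2
  have st : ∀ (n : ℕ) (H : R2 k⟦X⟧), map cc H = f ∧ C (PowerSeries.X ^ (n + 1)) ∣ vf P Q H →
      ∃ H' : R2 k⟦X⟧, (map cc H' = f ∧ C (PowerSeries.X ^ (n + 1 + 1)) ∣ vf P Q H') ∧
        C (PowerSeries.X ^ (n + 1)) ∣ H' - H := by
    rintro n H ⟨r1, g, hg⟩
    have hj : map cc g ∈ Jac f := by
      refine hJ _ fun q hq => ?_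
      obtain ⟨p, p1, p2, p3⟩ := lf q hq
      have := Fra.van hg p2 p3
      rwa [funext p1] at this
    by_cases hc : ∃ u, map cc g = br u f
    · obtain ⟨u, hu⟩ := hc
      exact Fra.step rP rQ r1 hg hu
    · exact (Seq.no_ob hE h2 h3 hd ⟨P, Q, H, g, f, n + 1, hf, dP, dQ, rP, rQ, r1,
        Nat.le_add_left 1 n, hg, fun u e => hc ⟨u, e⟩, hj⟩ hp).elim
  have s0 : C (PowerSeries.X ^ (0 + 1)) ∣ vf P Q (map (PowerSeries.C : k →+* k⟦X⟧) f) := by
    rw [zero_add, pow_one]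
    refine Fra.ker_dvd ((Fra.rv rP rQ f).trans ?_)
    rw [br, mul_comm, sub_self]
  exact Fra.seq _ _ ⟨_, Fra.map_lift f, s0⟩ st

end Pool.Agent.MP_05b4bd_ag.PC3
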