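import Pool.Agent.MP_05b4bd_ag.esc3.Spec
import Pool.Agent.MP_05b4bd_ag.pc3.Spec
import Pool.Agent.MP_05b4bd_ag.esc.K2b
import Pool.Agent.MP_05b4bd_ag.pc3.Lift

-- ======== part 0: formerly Pool.Agent.MP_05b4bd_ag.esc3.Nzc
section MrgPart0

/-! Non-zero classes, separation of the classes, and primitives in algebraic extensions. -/

namespace Pool.Agent.MP_05b4bd_ag.ES

namespace Nzc3

open MvPolynomial HC

variable {k : Type} [Field k]

theorem rel (α β : Fin 3 → k) :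
    ∃ l : Fin 3 → k, l ≠ 0 ∧ ∑ i, l i * α i = 0 ∧ ∑ i, l i * β i = 0 := by
  let φ : (Fin 3 → k) →ₗ[k] (Fin 2 → k) := Matrix.mulVecLin (Matrix.of ![α, β])
  obtain ⟨l, h1, h2⟩ := (Submodule.ne_bot_iff _).1
    (LinearMap.ker_ne_bot_of_finrank_lt (f := φ) (by simp))
  have h3 := LinearMap.mem_ker.1 h1
  refine ⟨l, h2, ?_, ?_⟩
  · simpa [φ, Matrix.mulVec, dotProduct, mul_comm] using congrFun h3 0
  · simpa [φ, Matrix.mulVec, dotProduct, mul_comm] using congrFun h3 1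

theorem quad (i j : Fin 2) : (X i * X j : R2 k).IsHomogeneous 2 :=
  (isHomogeneous_X k i).mul (isHomogeneous_X k j)

theorem cubic [CharZero k] {F : R2 k} (hF : F.IsHomogeneous 3) (hC : CI (pderiv 0 F) (pderiv 1 F)) :
    ∃ r : R2 k, r.IsHomogeneous 2 ∧ ¬ Bt F r := by
  by_contra h
  have key : ∀ i j : Fin 2, ∃ a b : k, (X i * X j : R2 k) = C a * pderiv 1 F - C b * pderiv 0 F :=
    fun i j => by
      obtain ⟨η, h1, h2⟩ := (Esc.nz_full (by omega) hF hC (quad i j)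
        (by_contra fun m => h ⟨_, quad i j, m⟩)).2 (by omega)
      refine ⟨HC.co 1 0 η, HC.co 0 1 η, ?_⟩
      rw [h2]
      conv_lhs => rw [hom1_eq h1]
      simp [br, HC.lf, pderiv_X]
  obtain ⟨a0, b0, e0⟩ := key 0 0
  obtain ⟨a1, b1, e1⟩ := key 0 1
  obtain ⟨a2, b2, e2⟩ := key 1 1
  obtain ⟨l, hl, ha, hb⟩ := rel ![a0, a1, a2] ![b0, b1, b2]
  simp only [Fin.sum_univ_three, Matrix.cons_val_zero, Matrix.cons_val_one, Matrix.cons_val_two,
    Matrix.head_cons, Matrix.tail_cons] at ha hb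
  have ha' := congrArg (C : k →+* R2 k) ha
  have hb' := congrArg (C : k →+* R2 k) hb
  simp only [map_add, map_mul, map_zero] at ha' hb'
  have hq : (C (l 0) * (X 0 * X 0) + C (l 1) * (X 0 * X 1) + C (l 2) * (X 1 * X 1) : R2 k) = 0 := by
    rw [e0, e1, e2]
    linear_combination pderiv 1 F * ha' - pderiv 0 F * hb'
  have z0 := congrArg (eval ![1, 0]) hq
  have z2 := congrArg (eval ![0, 1]) hq
  have z1 := congrArg (eval ![1, 1]) hq
  simp at z0 z1 z2
  refine hl (funext fun i => ?_)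
  fin_cases i
  · exact z0
  · simpa [z0, z2] using z1
  · exact z2

theorem der_aeval {L E : Type} [Field L] [Field E] [Algebra L E] {D : L →+ L} {D1 : E →+ E}
    (h : DExt D D1 (algebraMap L E)) (η : E) (p : Polynomial L) :
    ∃ q : Polynomial L, (∀ m, q.coeff m = D (p.coeff m)) ∧ D1 (Polynomial.aeval η p) =
      Polynomial.aeval η q + Polynomial.aeval η (Polynomial.derivative p) * D1 η := by
  induction p using Polynomial.induction_on' with
  | add p p' h1 h2 =>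
    obtain ⟨q, k1, k2⟩ := h1
    obtain ⟨q', m1, m2⟩ := h2
    refine ⟨q + q', fun m => by simp [k1, m1], ?_⟩
    simp only [map_add, k2, m2]
    ring
  | monomial n a =>
    refine ⟨Polynomial.monomial n (D a), fun m => ?_, ?_⟩
    · simp only [Polynomial.coeff_monomial]
      split_ifs <;> simp
    · simp only [Polynomial.derivative_monomial, Polynomial.aeval_monomial, map_mul, map_natCast]
      rw [h.1, h.2, h.1.pow]
      ring

end Nzc3

open MvPolynomial HC in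
theorem nzcS : NzcStmt := by
  intro k _ _ d F hd hF hC
  refine ⟨?_, fun h => one_ne_zero ((Esc.nz_full (by omega) hF hC (isHomogeneous_one _ _) h).1
    (by omega)), fun m r s hr hs h => ?_⟩
  · rcases hd.eq_or_lt with rfl | h4
    · obtain ⟨r, h1, h2⟩ := Nzc3.cubic hF hC
      exact ⟨2, r, h1, by decide, by decide, h2⟩
    · exact ⟨1, X 0, isHomogeneous_X k 0, fun h => by have := Nat.le_of_dvd (by omega) h; omega,
        fun h => by have := Nat.le_of_dvd (by omega) h; omega, fun h =>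
        X_ne_zero 0 ((Esc.nz_full (by omega) hF hC (isHomogeneous_X k 0) h).1 (by omega))⟩
  · have hn : (((m % d).toNat : ℕ) : ℤ) = m % d :=
      Int.toNat_of_nonneg (Int.emod_nonneg _ (by omega))
    have e : ∀ a : ℕ, d ∣ a + (m % d).toNat + 2 ↔ (d : ℤ) ∣ a + m + 2 := fun a => by
      rw [← Int.natCast_dvd_natCast]
      push_cast
      rw [hn, Int.emod_def, show (a : ℤ) + (m - d * (m / d)) + 2 = a + m + 2 - d * (m / d) by ring]
      exact dvd_sub_left (dvd_mul_right _ _)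
    have h1 : cl d (m % d).toNat (r + s) = r := by
      ext u
      rw [Bx.coeff_cl, coeff_add]
      split_ifs with c
      · rw [by_contra fun c' : ¬coeff u s = 0 => hs u c' ((e _).1 c), add_zero]
      · exact (by_contra fun c' : ¬coeff u r = 0 => c ((e _).2 (hr u c'))).symm
    have h2 : Bt F r := h1 ▸ Bx.bt_cl d _ hF h
    exact ⟨h2, by simpa using Bx.bt_sub h h2⟩

open Polynomial in
theorem traceS : TraceStmt := by
  intro L E _ _ _ D D1 i h η z ha hz
  let _ : Algebra L E := i.toAlgebra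
  have hi : IsIntegral L η := (IsAlgebraic.of_ringHom_of_comp_eq i.rangeRestrictField
    (RingHom.id E) ha i.rangeRestrictField_bijective.2 Function.injective_id rfl).isIntegral
  have hD : IsDer D := fun a b => i.injective (by
    rw [← h.2, map_mul, h.1, h.2, h.2, map_add, map_mul, map_mul])
  obtain ⟨q, k1, k2⟩ := Nzc3.der_aeval (D := D) (D1 := D1) h η (minpoly L η)
  have hm := minpoly.monic hi
  obtain ⟨n, hn⟩ : ∃ n, (minpoly L η).natDegree = n + 1 :=
    ⟨_, (Nat.succ_pred_eq_of_pos (minpoly.natDegree_pos hi)).symm⟩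
  have h1 : (minpoly L η).coeff (n + 1) = 1 := hn ▸ hm.coeff_natDegree
  have h0 : q + derivative (minpoly L η) * C z = 0 := by
    by_contra m
    have h2 := minpoly.degree_le_of_ne_zero L η m (by
      rw [minpoly.aeval, map_zero, hz] at k2
      rw [map_add, map_mul, aeval_C]
      exact k2.symm)
    refine absurd h2 (not_le.2 ?_)
    rw [degree_eq_natDegree hm.ne_zero, hn, degree_lt_iff_coeff_zero]
    intro j hj
    rw [coeff_add, k1, coeff_mul_C, coeff_derivative,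
      coeff_eq_zero_of_natDegree_lt (n := j + 1) (by omega), zero_mul, zero_mul, add_zero]
    rcases hj.eq_or_lt with rfl | hj
    · rw [h1, hD.one]
    · rw [coeff_eq_zero_of_natDegree_lt (by omega), map_zero]
  have h3 := congrArg (coeff · n) h0
  simp only [coeff_add, k1, coeff_mul_C, coeff_derivative, h1, coeff_zero, one_mul] at h3
  have h4 : (n + 1 : L) ≠ 0 := by exact_mod_cast n.succ_ne_zero
  have h5 : D (-(n + 1 : L)⁻¹) = 0 := by
    rw [map_neg, hD.inv (mul_inv_cancel₀ h4), map_add, hD.natCast, hD.one]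
    simp
  refine ⟨-(n + 1 : L)⁻¹ * (minpoly L η).coeff n, ?_⟩
  rw [hD.const_mul h5]
  field_simp
  linear_combination h3

end Pool.Agent.MP_05b4bd_ag.ES

end MrgPart0

-- ======== part 1: formerly Pool.Agent.MP_05b4bd_ag.pc3.Dom2
section MrgPart1

/-! Degeneration of three families to exact forms. -/

namespace Pool.Agent.MP_05b4bd_ag.PC3

open MvPolynomial HC ES

namespace Dom2

theorem mem_L2 {a b : ℕ} (β α : ℂ) {F G : Poly} (hF : F.totalDegree ≤ a)
    (hG : G.totalDegree ≤ b) : Dm β α F G ∈ L ![a, b] := by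
  refine ⟨![F, G], ![α, β], fun i => by fin_cases i <;> assumption, ?_⟩
  have e0 : (Finset.univ : Finset (Fin 2)).erase 0 = {1} := by decide
  have e1 : (Finset.univ : Finset (Fin 2)).erase 1 = {0} := by decide
  rw [Fin.sum_univ_two, e0, e1, Finset.prod_singleton, Finset.prod_singleton, Dm, add_comm]
  rfl

theorem lim2 {a b : ℕ} (n : ℕ) {F S : ℂ → Poly} (hF : PC F) (hS : PC S) (h0 : F 0 = 1)
    (c : ℂ → ℂ) (h : ∀ ε, ε ≠ 0 → c ε ≠ 0 ∧ (F ε).totalDegree ≤ a ∧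
      (F ε ^ (n + 1) + C (c ε) * S ε).totalDegree ≤ b) : dform (S 0) ∈ zcl (L ![a, b]) := by
  have hγ := PF.Dm (PS.const 1) (PS.const (-(n + 1))) hF hS
  have := hγ.mem_zcl_of_ne (S := L ![a, b]) fun ε hε => subset_zcl _ (by
    obtain ⟨h1, h2, h3⟩ := h ε hε
    have hC : (C (c ε) : Poly) * C (c ε)⁻¹ = 1 := by rw [← map_mul, mul_inv_cancel₀ h1, map_one]
    have e : Dm 1 (-(n + 1)) (F ε) (S ε)
        = Dm (c ε)⁻¹ (-(n + 1) * (c ε)⁻¹) (F ε) (F ε ^ (n + 1) + C (c ε) * S ε) := by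
      refine Prod.ext ?_ ?_
      · simp only [Dm_fst, map_add, pderiv_C_mul, pderiv_pow, map_mul, map_neg, map_one,
          map_natCast, Nat.add_sub_cancel, Nat.cast_add, Nat.cast_one]
        linear_combination (-(F ε * pderiv 1 (S ε)) + (n + 1) * S ε * pderiv 1 (F ε)) * hC
      · simp only [Dm_snd, map_add, pderiv_C_mul, pderiv_pow, map_mul, map_neg, map_one,
          map_natCast, Nat.add_sub_cancel, Nat.cast_add, Nat.cast_one]
        linear_combination (F ε * pderiv 0 (S ε) - (n + 1) * S ε * pderiv 0 (F ε)) * hC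
    rw [e]; exact mem_L2 _ _ h2 h3)
  have e : Dm 1 (-(n + 1)) (F 0) (S 0) = dform (S 0) := by
    rw [h0]; refine Prod.ext ?_ ?_ <;> simp [Dm_fst, Dm_snd, dform]
  rwa [e] at this

theorem pcC : PC fun ε => (C ε : Poly) := PS.id.toC

theorem dg_num (k : ℕ) [k.AtLeastTwo] {f : Poly} {n : ℕ} (hf : f.totalDegree ≤ n) :
    ((ofNat(k) : Poly) * f).totalDegree ≤ n := by
  rw [← map_ofNat (C : ℂ →+* Poly) k]; exact dg_Cmul _ hf

theorem hom_num (k : ℕ) [k.AtLeastTwo] {f : Poly} {n : ℕ} (hf : f.IsHomogeneous n) :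
    ((ofNat(k) : Poly) * f).IsHomogeneous n := by
  rw [← map_ofNat (C : ℂ →+* Poly) k]; exact hf.C_mul _

theorem l22 {u q g : Poly} (hu : u.totalDegree ≤ 1) (hq : q.totalDegree ≤ 2)
    (hg : g.totalDegree ≤ 2) : dform (u * q + g) ∈ zcl (L ![2, 2]) := by
  have := lim2 (a := 2) (b := 2) 1 (F := fun ε => 1 + C ε * (u + C ε * (2 * q)))
    (S := fun ε => u * q + g + C ε * q ^ 2)
    ((PC.const _).add (pcC.mul ((PC.const _).add (pcC.mul (PC.const _)))))
    ((PC.const _).add (pcC.mul (PC.const _))) (by simp) (fun ε => -4 * ε ^ 3) fun ε hε =>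
    ⟨by simp [hε], dg_add (by simp) (dg_Cmul _ (dg_add (hu.trans (by omega))
      (dg_Cmul _ (dg_num 2 hq)))), by
      have e : (1 + C ε * (u + C ε * (2 * q))) ^ (1 + 1) + C (-4 * ε ^ 3) * (u * q + g + C ε * q ^ 2)
          = 1 + C ε * (2 * u + C ε * (u ^ 2 + 4 * q - C ε * (4 * g))) := by
        simp only [map_mul, map_neg, map_pow, map_ofNat]; ring
      rw [e]
      exact dg_add (by simp) (dg_Cmul _ (dg_add (dg_num 2 (hu.trans (by omega))) (dg_Cmul _
        (dg_sub (dg_add (dg_pow hu 2 le_rfl) (dg_num 4 hq)) (dg_Cmul _ (dg_num 4 hg))))))⟩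
  simpa using this

theorem l23 {u q g : Poly} (hu : u.totalDegree ≤ 1) (hq : q.totalDegree ≤ 2)
    (hg : g.totalDegree ≤ 3) : dform (q ^ 2 + u ^ 2 * q + g) ∈ zcl (L ![2, 3]) := by
  have := lim2 (a := 2) (b := 3) 2 (F := fun ε => 1 + C ε * (3 * u + C ε * (9 * q)))
    (S := fun ε => q ^ 2 + u ^ 2 * q + g + C ε * (3 * u * q ^ 2 + C ε * (3 * q ^ 3)))
    ((PC.const _).add (pcC.mul ((PC.const _).add (pcC.mul (PC.const _)))))
    ((PC.const _).add (pcC.mul ((PC.const _).add (pcC.mul (PC.const _))))) (by simp)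
    (fun ε => -243 * ε ^ 4) fun ε hε =>
    ⟨by simp [hε], dg_add (by simp) (dg_Cmul _ (dg_add (dg_num 3 (hu.trans (by omega)))
      (dg_Cmul _ (dg_num 9 hq)))), by
      have e : (1 + C ε * (3 * u + C ε * (9 * q))) ^ (2 + 1) + C (-243 * ε ^ 4) *
          (q ^ 2 + u ^ 2 * q + g + C ε * (3 * u * q ^ 2 + C ε * (3 * q ^ 3)))
          = 1 + C ε * (9 * u + C ε * (27 * (q + u ^ 2) + C ε * (27 * (u ^ 3 + 6 * (u * q))
            - C ε * (243 * g)))) := by
        simp only [map_mul, map_neg, map_pow, map_ofNat]; ring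
      rw [e]
      exact dg_add (by simp) (dg_Cmul _ (dg_add (dg_num 9 (hu.trans (by omega))) (dg_Cmul _
        (dg_add (dg_num 27 (dg_add (hq.trans (by omega)) (dg_pow hu 2 (by omega)))) (dg_Cmul _
          (dg_sub (dg_num 27 (dg_add (dg_pow hu 3 le_rfl) (dg_num 6 (dg_mul hu hq le_rfl))))
            (dg_Cmul _ (dg_num 243 hg))))))))⟩
  simpa using this

theorem pd_num (i : Fin 2) (k : ℕ) [k.AtLeastTwo] : pderiv i (ofNat(k) : Poly) = 0 := by
  rw [← map_ofNat (C : ℂ →+* Poly) k, pderiv_C]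

theorem n5 (a : ℂ) {u v g : Poly} (hu : u.totalDegree ≤ 1) (hv : v.totalDegree ≤ 1)
    (hg : g.totalDegree ≤ 2) :
    dform (3 * v * u ^ 2 - v ^ 3 + C a * (2 * u ^ 3) + g) ∈ zcl N5 := by
  have hγ : PF fun ε : ℂ => dform (3 * v * u ^ 2 - v ^ 3 + C a * (2 * u ^ 3) + g) + (C ε : Poly) •
      ((6 * u ^ 3 + 18 * u * v ^ 2) • dform u - (12 * u ^ 2 * v) • dform v
        + (4 * v + C ε * (4 * u ^ 2)) • dform (C a * (2 * u ^ 3) + g)
        - (C a * (2 * u ^ 3) + g) • ((6 : Poly) • dform v + (C ε * (12 * u)) • dform u)) :=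
    (PF.const _).add (PF.psmul pcC (((PF.const _).add (PF.psmul ((PC.const _).add
      (pcC.mul (PC.const _))) (PF.const _))).sub (PF.psmul (PC.const _) ((PF.const _).add
        (PF.psmul (pcC.mul (PC.const _)) (PF.const _))))))
  have := hγ.mem_zcl_of_ne (S := N5) fun ε hε => subset_zcl _ (by
    obtain ⟨r, hr⟩ : ∃ r : ℂ, r * (8 * ε ^ 3) = -1 := ⟨-(8 * ε ^ 3)⁻¹, by field_simp⟩
    have hC : (C r : Poly) * (8 * C ε ^ 3) = -1 := by
      have := congrArg (C : ℂ → Poly) hr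
      simpa only [map_mul, map_pow, map_ofNat, map_neg, map_one] using this
    refine ⟨-(r * a), C ε * (2 * u), 1 + C ε * (4 * v),
      C r * (1 + C ε * (6 * v + C ε * (6 * (u ^ 2 + v ^ 2) - C ε * (4 * g)))), _,
      dg_Cmul _ (dg_num 2 hu), dg_add (by simp) (dg_Cmul _ (dg_num 4 hv)),
      dg_Cmul _ (dg_add (by simp) (dg_Cmul _ (dg_add (dg_num 6 (hv.trans (by omega))) (dg_Cmul _
        (dg_sub (dg_num 6 (dg_add (dg_pow hu 2 le_rfl) (dg_pow hv 2 le_rfl)))
          (dg_Cmul _ (dg_num 4 hg))))))), rfl, ?_⟩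
    have key : ∀ (A B : Form), B = (C r * -(8 * C ε ^ 3) : Poly) • A → A = B := fun A B h => by
      rw [h, mul_neg, hC, neg_neg, one_smul]
    refine key _ _ (Prod.ext ?_ ?_)
    all_goals
      simp only [dform, Prod.fst_add, Prod.fst_sub, Prod.smul_fst, Prod.snd_add, Prod.snd_sub,
        Prod.smul_snd, smul_eq_mul, map_add, map_sub, map_neg, map_mul, pderiv_mul, pderiv_pow,
        pderiv_C, pd_num, pderiv_one, Nat.cast_ofNat, Nat.add_one_sub_one]
      ring)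
  simpa using this

theorem dom' (h : DomStmt) {d : ℕ} {W : Set Form} {F : Poly} (hd : 1 ≤ d) (hF : F.IsHomogeneous d)
    (hG : ∀ G : Poly, G.IsHomogeneous d → ∃ H0 H1 H2 : Poly, H0.IsHomogeneous d ∧
      H1.IsHomogeneous d ∧ H2.IsHomogeneous d ∧ ∀ (τ : ℂ) (g : Poly), g.totalDegree < d →
        dform (F + C τ * G + C τ ^ 2 * (H0 + C τ * (H1 + C τ * H2)) + g) ∈ zcl W) :
    Ex d ⊆ zcl W := h d W F hd hF fun G hG' => by
  obtain ⟨H0, H1, H2, h0, h1, h2, h3⟩ := hG G hG'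
  refine ⟨fun τ => H0 + C τ * (H1 + C τ * H2),
    (PC.const _).add (pcC.mul ((PC.const _).add (pcC.mul (PC.const _)))), fun τ =>
    ⟨h0.add ((h1.add (h2.C_mul τ)).C_mul τ), fun g hg => ?_⟩⟩
  simpa only [smul_eq_C_mul, map_pow] using h3 τ g hg

theorem hx : (X 0 : Poly).IsHomogeneous 1 := isHomogeneous_X ℂ 0
theorem hy : (X 1 : Poly).IsHomogeneous 1 := isHomogeneous_X ℂ 1

theorem hom_q (a b c : ℂ) :
    (C a * X 0 ^ 2 + C b * (X 0 * X 1) + C c * X 1 ^ 2 : Poly).IsHomogeneous 2 :=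
  (((hx.pow 2).C_mul a).add ((hx.mul hy).C_mul b)).add ((hy.pow 2).C_mul c)

theorem a22 (h : DomStmt) : Ex 3 ⊆ zcl (L ![2, 2]) := by
  refine dom' h (F := X 0 * X 1 ^ 2) (by omega) (hx.mul (hy.pow 2)) fun G hG => ?_
  rw [hom3_eq hG]
  generalize HC.co 3 0 G = a, HC.co 2 1 G = b, HC.co 1 2 G = c, HC.co 0 3 G = e
  have hq := hom_q a b c
  have hu := hy.C_mul e
  refine ⟨_, 0, 0, hu.mul hq, isHomogeneous_zero _ _ _, isHomogeneous_zero _ _ _,
    fun τ g hg => ?_⟩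
  have := l22 (hx.add (hu.C_mul τ)).totalDegree_le
    ((hy.pow 2).add (hq.C_mul τ)).totalDegree_le (Nat.lt_succ_iff.1 hg)
  refine (congrArg (fun p => dform p ∈ zcl (L ![2, 2])) ?_).mp this
  ring

theorem a23 (h : DomStmt) : Ex 4 ⊆ zcl (L ![2, 3]) := by
  refine dom' h (F := (X 1 ^ 2) ^ 2 + X 0 ^ 2 * X 1 ^ 2) (by omega)
    (((hy.pow 2).pow 2).add ((hx.pow 2).mul (hy.pow 2))) fun G hG => ?_
  rw [hom_eq_sum hG]
  simp only [Finset.sum_range_succ, Finset.range_zero, Finset.sum_empty]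
  generalize HC.co (4 - 0) 0 G = a, HC.co (4 - 1) 1 G = b, HC.co (4 - 2) 2 G = g2,
    HC.co (4 - 3) 3 G = g3, HC.co (4 - 4) 4 G = g4
  obtain ⟨c, rfl⟩ : ∃ c, g4 = 2 * c := ⟨g4 / 2, by ring⟩
  obtain ⟨d, rfl⟩ : ∃ d, g2 = 2 * a + c + 2 * d := ⟨(g2 - 2 * a - c) / 2, by ring⟩
  obtain ⟨e, rfl⟩ : ∃ e, g3 = 2 * b + 2 * e := ⟨(g3 - 2 * b) / 2, by ring⟩
  have hq := hom_q a b c
  have hu := lf_hom d e
  refine ⟨_, _, 0, ((hq.pow 2).add ((hu.pow 2).mul (hy.pow 2))).add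
    (hom_num 2 ((hx.mul hu).mul hq)), (hu.pow 2).mul hq, isHomogeneous_zero _ _ _,
    fun τ g hg => ?_⟩
  have := l23 (hx.add (hu.C_mul τ)).totalDegree_le
    ((hy.pow 2).add (hq.C_mul τ)).totalDegree_le (Nat.lt_succ_iff.1 hg)
  refine (congrArg (fun p => dform p ∈ zcl (L ![2, 3])) ?_).mp this
  simp only [HC.lf, map_add, map_mul, map_ofNat]
  ring

theorem a5 (h : DomStmt) : Ex 3 ⊆ zcl N5 := by
  refine dom' h (F := 3 * (X 1 * X 0 ^ 2) - X 1 ^ 3) (by omega)
    ((hom_num 3 (hy.mul (hx.pow 2))).sub (hy.pow 3)) fun G hG => ?_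
  rw [hom3_eq hG]
  generalize HC.co 3 0 G = g0, HC.co 2 1 G = g1, HC.co 1 2 G = g2, HC.co 0 3 G = g3
  obtain ⟨a, rfl⟩ : ∃ a, g0 = 2 * a := ⟨g0 / 2, by ring⟩
  obtain ⟨q, rfl⟩ : ∃ q, g3 = -(3 * q) := ⟨-g3 / 3, by ring⟩
  obtain ⟨r, rfl⟩ : ∃ r, g1 = 3 * q + 6 * r := ⟨(g1 - 3 * q) / 6, by ring⟩
  obtain ⟨s, rfl⟩ : ∃ s, g2 = 6 * s := ⟨g2 / 6, by ring⟩
  have hv := hy.C_mul q
  have hu := lf_hom r s
  refine ⟨_, _, _, (((hom_num 3 (hy.mul (hu.pow 2))).add (hom_num 6 ((hx.mul hu).mul hv))).sub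
      (hom_num 3 (hy.mul (hv.pow 2)))).add (hom_num 6 (((hx.pow 2).mul hu).C_mul a)),
    ((hom_num 3 (hv.mul (hu.pow 2))).sub (hv.pow 3)).add
      (hom_num 6 ((hx.mul (hu.pow 2)).C_mul a)), hom_num 2 ((hu.pow 3).C_mul a),
    fun τ g hg => ?_⟩
  have := n5 (τ * a) (hx.add (hu.C_mul τ)).totalDegree_le
    (hy.add (hv.C_mul τ)).totalDegree_le (Nat.lt_succ_iff.1 hg)
  refine (congrArg (fun p => dform p ∈ zcl N5) ?_).mp this
  simp only [HC.lf, map_add, map_mul, map_neg, map_ofNat]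
  ring

end Dom2

theorem dom2S (h : DomStmt) : Dom2Stmt := ⟨Dom2.a22 h, Dom2.a23 h, Dom2.a5 h⟩

end Pool.Agent.MP_05b4bd_ag.PC3

end MrgPart1

-- ======== part 2: formerly Pool.Agent.MP_05b4bd_ag.pc3.Ic
section MrgPart2

/-! A generic polynomial has no invariant line or conic. -/

namespace Pool.Agent.MP_05b4bd_ag.PC3

open MvPolynomial HC ES

namespace Ic

variable {k : Type} [Field k]

/-- The bracket with `p` as a derivation. -/
noncomputable def De (p : R2 k) : Derivation k (R2 k) (R2 k) :=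
  pderiv 0 p • pderiv 1 - pderiv 1 p • pderiv 0

theorem De_apply (p u : R2 k) : De p u = br p u := by simp [De, br]

theorem dvd_sub' {A : Type} [CommRing A] [Algebra k A] {q : A} {r s : Fin 3 → A}
    (h : ∀ i, q ∣ r i - s i) (Ψ : MvPolynomial (Fin 3) k) : q ∣ aeval r Ψ - aeval s Ψ := by
  induction Ψ using MvPolynomial.induction_on with
  | C c => simp
  | add a b ha hb => rw [map_add, map_add, add_sub_add_comm]; exact ha.add hb
  | mul_X a i ha =>
    rw [map_mul, map_mul, aeval_X, aeval_X, show aeval r a * r i - aeval s a * s i =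
      (aeval r a - aeval s a) * r i + aeval s a * (r i - s i) by ring]
    exact (ha.mul_right _).add ((h i).mul_left _)

/-- Evaluation of a polynomial in two variables. -/
noncomputable def ev {A : Type} [CommRing A] [Algebra k A] (f z : A) :
    Polynomial (Polynomial k) →ₐ[k] A :=
  Polynomial.aevalTower (Polynomial.aeval f) z

theorem ev_aeval {A : Type} [CommRing A] [Algebra k A] (f z : A) (Ψ : MvPolynomial (Fin 3) k) :
    ev f z (aeval ![(0 : Polynomial (Polynomial k)), Polynomial.C Polynomial.X, Polynomial.X] Ψ) =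
      aeval ![0, f, z] Ψ := by
  rw [← AlgHom.comp_apply, comp_aeval]
  refine congrArg (fun r => aeval r Ψ) (funext fun i => ?_)
  fin_cases i <;> simp [ev]

theorem rel {p : R2 k} (hp : p ≠ 0) (f z : R2 k) :
    ∃ Φ : Polynomial (Polynomial k), Φ ≠ 0 ∧ p ∣ ev f z Φ := by
  have h1 : ¬ AlgebraicIndependent k ![p, f, z] := fun h => by
    have := h.cardinalMk_le_trdeg
    rw [MvPolynomial.trdeg_of_isDomain, Cardinal.lift_id, Cardinal.mk_fintype, Cardinal.mk_fintype,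
      Nat.cast_le] at this
    simp at this
  rw [algebraicIndependent_iff] at h1
  push Not at h1
  obtain ⟨Ψ, h2, h3⟩ := h1
  obtain ⟨n, Θ, h4, rfl⟩ := WfDvdMonoid.max_power_factor h3 (X_prime (i := 0)).irreducible
  rw [map_mul, map_pow, aeval_X] at h2
  have h5 := (mul_eq_zero.1 h2).resolve_left (pow_ne_zero n hp)
  refine ⟨aeval ![0, Polynomial.C Polynomial.X, Polynomial.X] Θ, fun h0 => h4 ?_, ?_⟩
  · have e := ev_aeval (X 1 : MvPolynomial (Fin 3) k) (X 2) Θ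
    rw [h0, map_zero] at e
    have := dvd_sub' (q := (X 0 : MvPolynomial (Fin 3) k)) (r := X) (s := ![0, X 1, X 2])
      (fun i => by fin_cases i <;> simp) Θ
    rwa [← e, sub_zero, aeval_X_left_apply] at this
  · have := dvd_sub' (q := p) (r := ![0, f, z]) (s := ![p, f, z])
      (fun i => by fin_cases i <;> simp) Θ
    rwa [h5, sub_zero, ← ev_aeval] at this

theorem der {p f : R2 k} (D : Derivation k (R2 k) (R2 k)) (h : p ∣ D f) (z : R2 k)
    (Φ : Polynomial (Polynomial k)) : p ∣ D (ev f z Φ) - ev f z (Polynomial.derivative Φ) * D z := by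
  induction Φ using Polynomial.induction_on' with
  | add a b ha hb =>
    rw [map_add, map_add, map_add, map_add, add_mul, add_sub_add_comm]
    exact ha.add hb
  | monomial n a =>
    rw [← Polynomial.C_mul_X_pow_eq_monomial, Polynomial.derivative_C_mul,
      Polynomial.derivative_X_pow]
    simp only [ev, map_mul, map_pow, map_natCast, Polynomial.aevalTower_C, Polynomial.aevalTower_X,
      Derivation.leibniz, Derivation.leibniz_pow, Derivation.map_aeval, smul_eq_mul, nsmul_eq_mul]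
    obtain ⟨c, hc⟩ := h
    exact ⟨z ^ n * Polynomial.aeval f (Polynomial.derivative a) * c, by rw [hc]; ring⟩

theorem level [CharZero k] [IsAlgClosed k] {p f z : R2 k} (hp : Prime p) (h : p ∣ br p f)
    (hz : ¬ p ∣ br p z) : ∃ c, p ∣ f - C c := by
  have key : ∀ (n : ℕ) (Φ : Polynomial (Polynomial k)), Φ.natDegree = n → Φ ≠ 0 → p ∣ ev f z Φ →
      ∃ φ : Polynomial k, φ ≠ 0 ∧ p ∣ Polynomial.aeval f φ := by
    intro n
    induction n using Nat.strong_induction_on with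
    | _ n ih =>
      intro Φ hn h0 hd
      by_cases h1 : Φ.natDegree = 0
      · rw [Polynomial.eq_C_of_natDegree_eq_zero h1] at h0 hd
        exact ⟨Φ.coeff 0, fun e => h0 (by rw [e, map_zero]), by simpa [ev] using hd⟩
      · refine ih _ (hn ▸ Polynomial.natDegree_derivative_lt h1) _ rfl
          (fun e => h1 (Polynomial.derivative_eq_zero.1 e)) ?_
        have h2 := der (p := p) (f := f) (De p) (by rwa [De_apply]) z Φ
        obtain ⟨v, hv⟩ := hd
        have h3 : p ∣ De p (ev f z Φ) :=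
          ⟨De p v, by rw [hv, Derivation.leibniz, De_apply p p]; simp [br, mul_comm]⟩
        have h4 := (dvd_sub_right h3).1 h2
        rw [De_apply] at h4
        exact (hp.dvd_or_dvd h4).resolve_right hz
  obtain ⟨Φ, h0, hd⟩ := rel hp.ne_zero f z
  obtain ⟨φ, h1, h2⟩ := key _ Φ rfl h0 hd
  rw [(IsAlgClosed.splits φ).eq_prod_roots, map_mul, Polynomial.aeval_C, map_multiset_prod,
    Multiset.map_map] at h2
  have h3 := (hp.dvd_or_dvd h2).resolve_left fun hu => hp.not_isUnit (isUnit_of_dvd_unit hu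
    ((Polynomial.leadingCoeff_ne_zero.2 h1).isUnit.map _))
  obtain ⟨c, -, hc⟩ := hp.exists_mem_multiset_map_dvd h3
  exact ⟨c, by simpa using hc⟩

theorem not_DL {p : R2 k} (hp : p ≠ 0) : ¬ DL p.totalDegree p := fun h => by
  rcases e : p.totalDegree with _ | n
  · rw [e] at h; exact hp h.eq_zero
  · rw [e, DL_iff] at h; omega

theorem exists_z [CharZero k] {p : R2 k} (h : ¬ DL 1 p) : ∃ z, ¬ p ∣ br p z := by
  have hp : p ≠ 0 := fun e => h (e ▸ DL.zero 1)
  obtain ⟨i, hi⟩ : ∃ i, pderiv i p ≠ 0 := by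
    by_contra hn
    push Not at hn
    refine h fun m hm => ?_
    obtain ⟨i, hi⟩ : ∃ i, 1 ≤ m i := by
      rw [deg2] at hm
      by_cases h0 : 1 ≤ m 0
      exacts [⟨0, h0⟩, ⟨1, by omega⟩]
    have := congrArg (coeff (m - Finsupp.single i 1)) (hn i)
    rw [coeff_pderiv, tsub_add_cancel_of_le (Finsupp.single_le_iff.2 hi), coeff_zero] at this
    exact (mul_eq_zero.1 this).resolve_right (Nat.cast_add_one_ne_zero _)
  have h2 : ¬ p ∣ pderiv i p := by
    rintro ⟨v, hv⟩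
    have h3 : DL (0 + p.totalDegree) (v * p) := by
      rw [zero_add, mul_comm, ← hv]
      exact (DL_iff.2 le_rfl).pderiv i
    exact hi (by rw [hv, (DL_of_mul h3 (not_DL hp)).eq_zero, mul_zero])
  fin_cases i
  · exact ⟨X 1, by simpa [br] using h2⟩
  · exact ⟨X 0, by simpa [br] using h2⟩

theorem count [CharZero k] {d a : ℕ} {f p u : R2 k} {c : k} {m0 : Fin 2 →₀ ℕ} (hd : 3 ≤ d)
    (hf : Gen d f) (a1 : 1 ≤ a) (a2 : a ≤ 2) (hp : DL (a + 1) p) (h0 : coeff m0 p = 1)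
    (hu : DL (d + 1 - a) u) (e : f - C c = p * u) : False := by
  classical
  have fin : ∀ n, {m : Fin 2 →₀ ℕ | m.degree < n}.Finite := Finsupp.finite_of_degree_lt
  have hm0 : m0 ∈ {m : Fin 2 →₀ ℕ | m.degree < a + 1} := by_contra fun hn => by
    rw [hp m0 (not_lt.1 hn)] at h0
    exact zero_ne_one h0
  have pos : ∀ m : ↥({m : Fin 2 →₀ ℕ | m.degree < d + 1} \ {0}), 1 ≤ m.1.degree ∧ m.1.degree ≤ d :=
    fun m => ⟨Nat.pos_of_ne_zero fun h => m.2.2 ((Finsupp.degree_eq_zero_iff _).1 h),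
      Nat.lt_succ_iff.1 m.2.1⟩
  have hi := hf.2.2.comp (fun m => ⟨m.1, pos m⟩)
    fun _ _ h => Subtype.ext (congrArg (fun z => z.1) h)
  let _ := ((fin (d + 1)).sdiff (t := {0})).fintype
  let _ := ((fin (a + 1)).sdiff (t := {m0})).fintype
  let _ := (fin (d + 1 - a)).fintype
  refine no_fewer hi (κ := ↥({m : Fin 2 →₀ ℕ | m.degree < a + 1} \ {m0}) ⊕
    {m : Fin 2 →₀ ℕ | m.degree < d + 1 - a})
    (Sum.elim (fun m => coeff m.1 p) fun m => coeff m.1 u) ?_ fun m => ?_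
  · have c1 := Set.ncard_sdiff_singleton_add_one hm0 (fin _)
    have c2 := Set.ncard_sdiff_singleton_add_one
      (show 0 ∈ {m : Fin 2 →₀ ℕ | m.degree < d + 1} by simp) (fin _)
    have c3 := ncard_lt (a + 1)
    have c4 := ncard_lt (d + 1)
    have c5 := ncard_lt (d + 1 - a)
    rw [Fintype.card_sum]
    simp only [← Nat.card_eq_fintype_card, Nat.card_coe_set_eq] at c3 c4 c5 ⊢
    obtain ⟨n, rfl⟩ : ∃ n, d = n + 3 := ⟨d - 3, by omega⟩
    obtain rfl | rfl : a = 1 ∨ a = 2 := by omega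
    · rw [show n + 3 + 1 - 1 = n + 3 by omega] at c5 ⊢
      nlinarith
    · rw [show n + 3 + 1 - 2 = n + 2 by omega] at c5 ⊢
      nlinarith
  · have e1 : coeff m.1 f = coeff m.1 (p * u) := by
      rw [← e, coeff_sub, coeff_C, if_neg (fun h => m.2.2 h.symm), sub_zero]
    show coeff m.1 f ∈ _
    rw [e1, coeff_mul]
    refine Subalgebra.sum_mem _ fun x _ => Subalgebra.mul_mem _ ?_ ?_
    · by_cases h1 : x.1 = m0
      · rw [h1, h0]; exact Subalgebra.one_mem _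
      · by_cases h2 : x.1.degree < a + 1
        · exact ⟨X (Sum.inl ⟨x.1, h2, h1⟩), by simp⟩
        · rw [hp _ (not_lt.1 h2)]; exact Subalgebra.zero_mem _
    · by_cases h2 : x.2.degree < d + 1 - a
      · exact ⟨X (Sum.inr ⟨x.2, h2⟩), by simp⟩
      · rw [hu _ (not_lt.1 h2)]; exact Subalgebra.zero_mem _

end Ic

open Ic in
theorem icS : IcStmt := by
  intro k _ _ _ d f g h hd hf g0 hg e
  by_contra hn
  have nu : ∀ u : R2 k, IsUnit u → DL 1 u := fun u hu => DL_iff.2 (by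
    obtain ⟨v, hv⟩ := hu.exists_right_inv
    have := totalDegree_mul_of_isDomain (left_ne_zero_of_mul_eq_one hv)
      (right_ne_zero_of_mul_eq_one hv)
    rw [hv, totalDegree_one] at this
    omega)
  obtain ⟨p, hp, hpg⟩ := WfDvdMonoid.exists_irreducible_factor (fun hu => hn (nu g hu)) g0
  have pp := hp.prime
  obtain ⟨j, g1, h1, rfl⟩ := WfDvdMonoid.max_power_factor g0 hp
  obtain _ | j := j
  · exact h1 (by simpa using hpg)
  have p1 : ¬ DL 1 p := fun h => by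
    have h2 := DL1_eq h
    exact hp.not_isUnit (h2 ▸ (Ne.isUnit fun h0 => hp.ne_zero (by rw [h2, h0, map_zero])).map C)
  have h2 : p ∣ ((j + 1 : ℕ) : R2 k) * g1 * br p f := by
    refine ⟨h * g1 - br g1 f, mul_left_cancel₀ (pow_ne_zero j hp.ne_zero) ?_⟩
    simp only [br, Derivation.leibniz, Derivation.leibniz_pow, smul_eq_mul, nsmul_eq_mul,
      Nat.add_sub_cancel] at e ⊢
    linear_combination e
  have h3 : p ∣ br p f := (pp.dvd_or_dvd h2).resolve_left fun h4 =>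
    (pp.dvd_or_dvd h4).elim (fun h5 => hp.not_isUnit (isUnit_of_dvd_unit h5 (by
      rw [← map_natCast (C : k →+* R2 k)]
      exact (Nat.cast_ne_zero.2 (Nat.succ_ne_zero j)).isUnit.map C))) h1
  obtain ⟨z, hz⟩ := exists_z p1
  obtain ⟨c, u, hu⟩ := level pp h3 hz
  obtain ⟨m0, hm0⟩ := ne_zero_iff.1 hp.ne_zero
  obtain ⟨v, hv⟩ := hpg
  have a2 : p.totalDegree ≤ 2 := by
    have := totalDegree_mul_of_isDomain hp.ne_zero (right_ne_zero_of_mul (hv ▸ g0))
    rw [← hv] at this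
    have := DL_iff.1 hg
    omega
  have a1 : 1 ≤ p.totalDegree := by_contra fun h => p1 (DL_iff.2 (by omega))
  have hdu : DL (d + 1 - p.totalDegree) u := DL_of_mul (b := p.totalDegree) (v := p) (by
    rw [show d + 1 - p.totalDegree + p.totalDegree = d + 1 by omega, mul_comm, ← hu]
    exact hf.2.1.sub ((DL_C c).mono (by omega))) (not_DL hp.ne_zero)
  refine count (p := C (coeff m0 p)⁻¹ * p) (u := C (coeff m0 p) * u) (c := c) (m0 := m0) hd hf a1
    a2 ((DL_iff.2 le_rfl).C_mul _) (by rw [coeff_C_mul, inv_mul_cancel₀ hm0]) (hdu.C_mul _) ?_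
  rw [mul_mul_mul_comm, ← map_mul, inv_mul_cancel₀ hm0, map_one, one_mul, hu]

end Pool.Agent.MP_05b4bd_ag.PC3

end MrgPart2

-- ======== part 3: formerly Pool.Agent.MP_05b4bd_ag.pc3.Mem2
section MrgPart3

/-! Persistent centres in degrees three, four and five: four families of centres. -/

namespace Pool.Agent.MP_05b4bd_ag.PC3

open MvPolynomial HC ES

namespace Mem2

theorem relPrime_lin {P Q : Poly} {c : ℂ} (hc : c ≠ 0) (hP : pderiv 1 P = C c) {p : Fin 2 → ℂ}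
    (h1 : eval p P = 0) (h2 : eval p Q ≠ 0) : IsRelPrime P Q := by
  have hP0 : P ≠ 0 := fun h => hc (by
    rw [h, map_zero] at hP
    exact C_injective (Fin 2) ℂ (by rw [← hP, map_zero]))
  have hd : degreeOf 1 P ≤ 1 := by
    rw [degreeOf_le_iff]
    intro m hm
    by_contra hlt
    have := coeff_pderiv (i := 1) P (m - Finsupp.single 1 1)
    rw [hP, coeff_C, Finsupp.sub_add_single_one_cancel (by omega), if_neg] at this
    · exact mul_ne_zero (mem_support_iff.1 hm) (Nat.cast_add_one_ne_zero _) this.symm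
    · intro h0
      have := congrArg (fun k : Fin 2 →₀ ℕ => k 1) h0
      simp at this
      omega
  have key : ∀ h k : Poly, P = h * k → degreeOf 1 h = 0 → IsUnit h := fun h k e h0 => by
    have e0 : pderiv 1 h = 0 := pderiv_eq_zero_of_notMem_vars fun hv => by
      rw [mem_vars_iff_degreeOf_ne_zero] at hv
      exact hv h0
    have : h ∣ C c := ⟨pderiv 1 k, by rw [← hP, e]; simp [e0]⟩
    exact isUnit_of_dvd_unit this ((Ne.isUnit hc).map C)
  rintro h ⟨k, hk⟩ hQ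
  have hne := hP0
  rw [hk] at hne
  have e := degreeOf_mul_eq (n := 1) (left_ne_zero_of_mul hne) (right_ne_zero_of_mul hne)
  rw [← hk] at e
  by_cases h0 : degreeOf 1 h = 0
  · exact key h k hk h0
  · exfalso
    have hu := key k h (by rw [hk, mul_comm]) (by omega)
    obtain ⟨r, rfl⟩ := hQ
    apply h2
    rw [hk, map_mul] at h1
    rw [map_mul, (mul_eq_zero.1 h1).resolve_right (hu.map (eval p)).ne_zero, zero_mul]

theorem deg3 {P : Poly} (h : pderiv 0 (pderiv 0 (pderiv 0 P)) ≠ 0) : 3 ≤ P.totalDegree := by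
  by_contra hc
  exact h (pderiv_eq_zero_of_dg (dg_pderiv (dg_pderiv (n := 1) (by omega) 0) 0) 0)

theorem deg4 {P : Poly} (h : pderiv 0 (pderiv 0 (pderiv 0 (pderiv 0 P))) ≠ 0) :
    4 ≤ P.totalDegree := by
  by_contra hc
  have := deg3 h
  have := dg_pderiv (f := P) (n := 2) (by omega) 0
  omega

theorem L_two {a b : ℕ} {ω : Form} (h : ω ∈ L ![a, b]) : ∃ (β α : ℂ) (F G : Poly),
    F.totalDegree ≤ a ∧ G.totalDegree ≤ b ∧ ω = Dm β α F G := by
  obtain ⟨f, l, hf, rfl⟩ := h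
  refine ⟨l 1, l 0, f 0, f 1, hf 0, hf 1, ?_⟩
  have e0 : (Finset.univ : Finset (Fin 2)).erase 0 = {1} := by decide
  have e1 : (Finset.univ : Finset (Fin 2)).erase 1 = {0} := by decide
  rw [Fin.sum_univ_two, e0, e1, Finset.prod_singleton, Finset.prod_singleton, Dm, add_comm]

theorem dF : (X 0 ^ 2 + X 1 : Poly).totalDegree ≤ 2 :=
  dg_add (dg_pow (dg_X 0) 2 le_rfl) ((dg_X 1).trans (by omega))

theorem ev_ne {P : Poly} (p : Fin 2 → ℂ) (h : eval p P ≠ 0) : P ≠ 0 := fun h0 => h (by simp [h0])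

theorem L22 : L ![2, 2] ⊆ M 3 := by
  intro ω hω
  obtain ⟨β', α', F', G', hF', hG', rfl⟩ := L_two hω
  set G : Poly := 2 * X 0 ^ 2 + X 1 + 2 with hGd
  have hG : G.totalDegree ≤ 2 :=
    dg_add (dg_add (dg_mul (dg_nat 2 0) (dg_pow (dg_X 0) 2 le_rfl) (by omega))
      ((dg_X 1).trans (by omega))) (dg_nat 2 2)
  have e1 : (Dm 1 1 (X 0 ^ 2 + X 1) G).1 = 3 * X 0 ^ 2 + 2 * X 1 + 2 := by
    simp [Dm_fst, hGd]; ring
  have e2 : (Dm 1 1 (X 0 ^ 2 + X 1) G).2 = -(8 * X 0 ^ 3 + 6 * X 0 * X 1 + 4 * X 0) := by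
    simp [Dm_snd, hGd]; ring
  have := curve_mem_M (n := 2) (PS.line 1 β') (PS.line 1 α') (PC.line (X 0 ^ 2 + X 1) F')
    (PC.line G G') (fun τ => V_Dm _ _ (dg_line dF hF' τ) (dg_line hG hG' τ) (by omega))
    (p := ![0, -1]) ?_ (by simp) (by simp) ?_ ?_ ?_ 1
  · simpa using this
  all_goals simp only [zero_mul, add_zero, zero_smul]
  · have hV := V_Dm (d := 3) 1 1 dF hG (by omega)
    refine ⟨?_, le_antisymm (max_le hV.1 hV.2) (le_max_of_le_right (deg3 (ev_ne 0 ?_)))⟩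
    · rw [e1, e2]
      refine relPrime_lin (c := 2) (p := ![2, -7]) (by norm_num) ?_ ?_ ?_
      · simp [map_ofNat]
      · simp; norm_num
      · simp; norm_num
    · rw [e2]; simp [map_ofNat]
  · rw [e1]; simp
  · rw [e2]; simp
  · simp only [jac, e1, e2]; simp; norm_num

theorem L23 : L ![2, 3] ⊆ M 4 := by
  intro ω hω
  obtain ⟨β', α', F', G', hF', hG', rfl⟩ := L_two hω
  set G : Poly := X 0 ^ 3 + 2 * X 0 ^ 2 + X 1 + 2 with hGd
  have hG : G.totalDegree ≤ 3 :=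
    dg_add (dg_add (dg_add (dg_pow (dg_X 0) 3 le_rfl)
      (dg_mul (dg_nat 2 0) (dg_pow (dg_X 0) 2 le_rfl) (by omega)))
      ((dg_X 1).trans (by omega))) (dg_nat 2 3)
  have e1 : (Dm 1 1 (X 0 ^ 2 + X 1) G).1 = X 0 ^ 3 + 3 * X 0 ^ 2 + 2 * X 1 + 2 := by
    simp [Dm_fst, hGd]; ring
  have e2 : (Dm 1 1 (X 0 ^ 2 + X 1) G).2 =
      -(5 * X 0 ^ 4 + 8 * X 0 ^ 3 + 3 * X 0 ^ 2 * X 1 + 6 * X 0 * X 1 + 4 * X 0) := by
    simp [Dm_snd, hGd]; ring
  have := curve_mem_M (n := 3) (PS.line 1 β') (PS.line 1 α') (PC.line (X 0 ^ 2 + X 1) F')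
    (PC.line G G') (fun τ => V_Dm _ _ (dg_line dF hF' τ) (dg_line hG hG' τ) (by omega))
    (p := ![0, -1]) ?_ (by simp) (by simp) ?_ ?_ ?_ 1
  · simpa using this
  all_goals simp only [zero_mul, add_zero, zero_smul]
  · have hV := V_Dm (d := 4) 1 1 dF hG (by omega)
    refine ⟨?_, le_antisymm (max_le hV.1 hV.2) (le_max_of_le_right (deg4 (ev_ne 0 ?_)))⟩
    · rw [e1, e2]
      refine relPrime_lin (c := 2) (p := ![1, -3]) (by norm_num) ?_ ?_ ?_
      · simp [map_ofNat]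
      · simp; norm_num
      · simp; norm_num
    · rw [e2]; simp [map_ofNat]
  · rw [e1]; simp
  · rw [e2]; simp
  · simp only [jac, e1, e2]; simp; norm_num

theorem V5 (a : ℂ) {u v g : Poly} (hu : u.totalDegree ≤ 1) (hv : v.totalDegree ≤ 1)
    (hg : g.totalDegree ≤ 2) : Dm 2 (-3) (u ^ 2 + v) (C a * u ^ 3 + g) ∈ V 3 := by
  have e : Dm 2 (-3) (u ^ 2 + v) (C a * u ^ 3 + g) =
      a • ((6 * v * u ^ 2) • dform u - (3 * u ^ 3) • dform v) + Dm 2 (-3) (u ^ 2 + v) g := by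
    refine Prod.ext ?_ ?_
    · simp [Dm_fst, dform, smul_eq_C_mul, map_ofNat]; ring
    · simp [Dm_snd, dform, smul_eq_C_mul, map_ofNat]; ring
  rw [e]
  refine V_add (V_smul _ (V_sub (V_psmul_dform (a := 3) ?_ hu (by omega))
    (V_psmul_dform (a := 3) ?_ hv (by omega)))) (V_Dm (a := 2) _ _ ?_ hg (by omega))
  · exact dg_mul (dg_mul (n := 1) (dg_nat 6 0) hv (by omega)) (dg_pow hu 2 le_rfl) (by omega)
  · exact dg_mul (dg_nat 3 0) (dg_pow hu 3 le_rfl) (by omega)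
  · exact dg_add (dg_pow hu 2 le_rfl) (hv.trans (by omega))

theorem Dm_eq (k : ℕ) [k.AtLeastTwo] (c R : Poly) :
    (2 * c) • dform R - (ofNat(k) * R) • dform c = Dm 2 (-ofNat(k)) c R := by
  refine Prod.ext ?_ ?_
  · simp [Dm_fst, dform, map_ofNat]; ring
  · simp [Dm_snd, dform, map_ofNat]; ring

theorem N5_M : N5 ⊆ M 3 := by
  rintro _ ⟨a, u, v, g, _, hu, hv, hg, rfl, rfl⟩
  rw [Dm_eq 3]
  have hg0 : (X 1 + 1 : Poly).totalDegree ≤ 2 := dg_add ((dg_X 1).trans (by omega)) (by simp)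
  have e1 : (Dm 2 (-3) (X 0 ^ 2 + X 1) (C 1 * X 0 ^ 3 + (X 1 + 1))).1 =
      -X 1 + 2 * X 0 ^ 2 - 3 * X 0 ^ 3 - 3 := by
    simp [Dm_fst, map_ofNat]; ring
  have e2 : (Dm 2 (-3) (X 0 ^ 2 + X 1) (C 1 * X 0 ^ 3 + (X 1 + 1))).2 =
      -(6 * X 0 ^ 2 * X 1 - 6 * X 0 * X 1 - 6 * X 0) := by
    simp [Dm_snd, map_ofNat]; ring
  have := curve_mem_M (n := 2) (PS.const 2) (PS.const (-3))
    (((PC.line (X 0) u).pow 2).add (PC.line (X 1) v))
    (((PS.line 1 a).toC.mul ((PC.line (X 0) u).pow 3)).add (PC.line (X 1 + 1) g))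
    (fun τ => V5 _ (dg_line (dg_X 0) hu τ) (dg_line (dg_X 1) hv τ) (dg_line hg0 hg τ))
    (p := ![0, -3]) ?_ (by simp) (by simp) ?_ ?_ ?_ 1
  · simpa using this
  all_goals simp only [zero_mul, add_zero, zero_smul]
  · have hV := V5 1 (dg_X 0) (dg_X 1) hg0
    refine ⟨?_, le_antisymm (max_le hV.1 hV.2) (le_max_of_le_left (deg3 (ev_ne 0 ?_)))⟩
    · rw [e1, e2]
      refine relPrime_lin (c := -1) (p := ![1, -4]) (by norm_num) ?_ ?_ ?_
      · simp
      · simp; norm_num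
      · simp
    · rw [e1]; simp [map_ofNat]
  · rw [e1]; simp
  · rw [e2]; simp
  · simp only [jac, e1, e2]; simp; norm_num

theorem Sp_two (c : ℂ) (u v : Poly) :
    C c * Sp 2 u v = C (c / 15) * (8 * u ^ 5 + 20 * u ^ 3 * v + 15 * u * v ^ 2) := by
  refine MvPolynomial.funext fun p => ?_
  simp [Sp]
  ring

theorem fam_two (c : ℂ) (u v g : Poly) : fam 2 c u v g =
    Dm 2 (-5) (u ^ 2 + v) (C (c / 15) * (8 * u ^ 5 + 20 * u ^ 3 * v + 15 * u * v ^ 2) + g) := by
  rw [fam, Sp_two]; norm_num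

theorem N7_eq : N7 = S2 2 := by
  ext ω
  constructor
  · rintro ⟨a, u, v, g, _, hu, hv, hg, rfl, rfl⟩
    refine ⟨a * 15, u, v, g, hu, hv, hg, ?_⟩
    rw [Dm_eq 5, fam_two, mul_div_cancel_right₀ a (by norm_num)]
  · rintro ⟨c, u, v, g, hu, hv, hg, rfl⟩
    exact ⟨c / 15, u, v, g, _, hu, hv, hg, rfl, by rw [Dm_eq 5, fam_two]⟩

end Mem2

theorem mem2S : Mem2Stmt := ⟨Mem2.L22, Mem2.L23, Mem2.N5_M, Mem2.N7_eq⟩

end Pool.Agent.MP_05b4bd_ag.PC3

end MrgPart3

-- ======== part 4: formerly Pool.Agent.MP_05b4bd_ag.pc3.Mem3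
section MrgPart4

/-! Logarithmic forms with two lines and a curve lie in the centre variety. -/

namespace Pool.Agent.MP_05b4bd_ag.PC3

open MvPolynomial HC ES Topology Filter

namespace Mem3

/-- The form `s t G (l1 ds / s + l2 dt / t + l3 dG / G)`. -/
noncomputable def D3 (l1 l2 l3 : ℂ) (s t G : Poly) : Form :=
  (C l1 * (t * G) : Poly) • dform s + (C l2 * (s * G) : Poly) • dform t +
    (C l3 * (s * t) : Poly) • dform G

theorem jac_smul {g : Poly} {w : Form} {p : Fin 2 → ℂ} (h1 : eval p w.1 = 0)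
    (h2 : eval p w.2 = 0) : eval p (jac (g • w)) = eval p g ^ 2 * eval p (jac w) := by
  simp [jac, h1, h2]
  ring

theorem center_of_smul {g : Poly} {w : Form} {p : Fin 2 → ℂ} (hg : eval p g ≠ 0)
    (h1 : eval p w.1 = 0) (h2 : eval p w.2 = 0) (hj : eval p (jac w) ≠ 0)
    (h : IsCenter (g • w) p) : IsCenter w p := by
  obtain ⟨-, -, -, φ, a, b, c, d⟩ := h
  refine ⟨h1, h2, hj, φ, a, b, c, ?_⟩
  filter_upwards [d, (analyticAt_eval g p).continuousAt.eventually_ne hg] with z hz hz'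
  have e : (![eval z (g • w).1, eval z (g • w).2] : Fin 2 → ℂ) =
      eval z g • ![eval z w.1, eval z w.2] := by
    ext i; fin_cases i <;> simp
  rw [e, map_smul, smul_eq_mul] at hz
  exact (mul_eq_zero.1 hz).resolve_left hz'

theorem smul_D3 (α β : ℂ) (a b : ℕ) (s t G : Poly) :
    (s ^ a * t ^ b) • D3 ((a + 1) * α) ((b + 1) * α) β s t G =
      Dm β α (s ^ (a + 1) * t ^ (b + 1)) G := by
  refine Prod.ext ?_ ?_ <;> simp [D3, Dm, dform] <;> ring

theorem center3 {l1 l2 l3 : ℂ} {s t G : Poly} {p : Fin 2 → ℂ} {a b : ℕ}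
    (hl : (b + 1) * l1 = (a + 1) * l2) (h3 : l3 ≠ 0) (hs : eval p s ≠ 0) (ht : eval p t ≠ 0)
    (h1 : eval p (D3 l1 l2 l3 s t G).1 = 0) (h2 : eval p (D3 l1 l2 l3 s t G).2 = 0)
    (hj : eval p (jac (D3 l1 l2 l3 s t G)) ≠ 0) : IsCenter (D3 l1 l2 l3 s t G) p := by
  have a0 : (a : ℂ) + 1 ≠ 0 := Nat.cast_add_one_ne_zero a
  obtain ⟨α, rfl⟩ : ∃ α, l1 = (a + 1) * α := ⟨l1 / (a + 1), by field_simp⟩
  obtain rfl : l2 = (b + 1) * α := mul_left_cancel₀ a0 (by linear_combination -hl)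
  have hg : eval p (s ^ a * t ^ b) ≠ 0 := by simp [hs, ht]
  refine center_of_smul hg h1 h2 hj ?_
  have k := smul_D3 α l3 a b s t G
  rw [k]
  refine center_Dm h3 (by simp [hs, ht]) ?_ ?_ ?_ <;> rw [← k]
  · rw [Prod.smul_fst, smul_eq_mul, map_mul, h1, mul_zero]
  · rw [Prod.smul_snd, smul_eq_mul, map_mul, h2, mul_zero]
  · rw [jac_smul h1 h2]; exact mul_ne_zero (pow_ne_zero 2 hg) hj

theorem freq (u v : ℂ) : ∃ᶠ τ in 𝓝[≠] (0 : ℂ), ∃ a b : ℕ,
    (b + 1) * (1 + τ * (u - 1)) = (a + 1) * (1 + τ * (v - 1)) := by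
  by_cases h : u = v
  · exact (Eventually.of_forall fun τ => ⟨0, 0, by rw [h]⟩).frequently
  have h0 : u - v ≠ 0 := sub_ne_zero.2 h
  have h1 : Tendsto (fun n : ℕ => (n : ℂ)) atTop (Bornology.cobounded ℂ) := by
    rw [← tendsto_norm_atTop_iff_cobounded]
    simpa using tendsto_natCast_atTop_atTop (R := ℝ)
  have h2 := (tendsto_add_const_cobounded (u - 2 * v + 1)).comp
    ((tendsto_mul_right_cobounded h0).comp h1)
  have h3 := tendsto_inv₀_cobounded'.comp h2
  refine h3.frequently (Eventually.frequently ?_)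
  filter_upwards [h3.eventually self_mem_nhdsWithin] with n hn
  have h4 : (n : ℂ) * (u - v) + (u - 2 * v + 1) ≠ 0 := fun e => hn (by simp [e])
  refine ⟨n + 1, n, ?_⟩
  simp only [Function.comp]
  push_cast
  linear_combination inv_mul_cancel₀ h4

theorem infinite_of_freq {s : Set ℂ} (h : ∃ᶠ τ in 𝓝[≠] (0 : ℂ), τ ∈ s) : s.Infinite := by
  intro hf
  have hc : IsClosed (s \ {0}) := (hf.subset Set.sdiff_subset).isClosed
  have : (s \ {0})ᶜ ∈ 𝓝 (0 : ℂ) := hc.isOpen_compl.mem_nhds (by simp)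
  refine h ?_
  filter_upwards [self_mem_nhdsWithin, mem_nhdsWithin_of_mem_nhds this] with τ h1 h2
  exact fun h3 => h2 ⟨h3, h1⟩

theorem V_D3 {s t G : Poly} {e : ℕ} (l1 l2 l3 : ℂ) (hs : s.totalDegree ≤ 1)
    (ht : t.totalDegree ≤ 1) (hG : G.totalDegree ≤ e) : D3 l1 l2 l3 s t G ∈ V (e + 1) :=
  V_add (V_add (V_psmul_dform (dg_Cmul l1 (dg_mul ht hG le_rfl)) hs (by omega))
    (V_psmul_dform (dg_Cmul l2 (dg_mul hs hG le_rfl)) ht (by omega)))
    (V_psmul_dform (dg_Cmul l3 (dg_mul hs ht le_rfl)) hG (by omega))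

theorem curve3 {n : ℕ} {u v w : ℂ} {s t G : ℂ → Poly} (hs : PC s) (ht : PC t) (hG : PC G)
    (hV : ∀ τ, D3 (1 + τ * (u - 1)) (1 + τ * (v - 1)) (1 + τ * (w - 1)) (s τ) (t τ) (G τ) ∈
      V (n + 1))
    (h0 : D3 1 1 1 (s 0) (t 0) (G 0) ∈ Fol (n + 1)) {p : Fin 2 → ℂ} (hs0 : eval p (s 0) ≠ 0)
    (ht0 : eval p (t 0) ≠ 0) (h1 : eval p (D3 1 1 1 (s 0) (t 0) (G 0)).1 = 0)
    (h2 : eval p (D3 1 1 1 (s 0) (t 0) (G 0)).2 = 0)
    (hj : eval p (jac (D3 1 1 1 (s 0) (t 0) (G 0))) ≠ 0) :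
    D3 u v w (s 1) (t 1) (G 1) ∈ M (n + 1) := by
  set γ : ℂ → Form := fun τ =>
    D3 (1 + τ * (u - 1)) (1 + τ * (v - 1)) (1 + τ * (w - 1)) (s τ) (t τ) (G τ) with hγd
  have hγ : PF γ := ((PF.psmul ((PS.line 1 u).toC.mul (ht.mul hG)) hs.dform).add
    (PF.psmul ((PS.line 1 v).toC.mul (hs.mul hG)) ht.dform)).add
    (PF.psmul ((PS.line 1 w).toC.mul (hs.mul ht)) hG.dform)
  have e0 : γ 0 = D3 1 1 1 (s 0) (t 0) (G 0) := by simp [hγd]
  have e1 : γ 1 = D3 u v w (s 1) (t 1) (G 1) := by simp [hγd]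
  rw [← e0] at h0 h1 h2 hj
  rw [← e1]
  obtain ⟨R, hR0, hR⟩ := exists_sep (n + 1) (lamFol n) (hV 0) (inj_of_fol h0)
  have c0 : ∀ᶠ x in 𝓝 ((0 : ℂ), p), eval x.2 (s x.1) ≠ 0 :=
    hs.contDiff.continuous.continuousAt.eventually_ne hs0
  have c1 : ∀ᶠ x in 𝓝 ((0 : ℂ), p), eval x.2 (t x.1) ≠ 0 :=
    ht.contDiff.continuous.continuousAt.eventually_ne ht0
  have c2 : ∀ᶠ x in 𝓝 ((0 : ℂ), p), eval x.2 (jac (γ x.1)) ≠ 0 :=
    hγ.jac.contDiff.continuous.continuousAt.eventually_ne hj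
  have c3 := eventually_sing hγ h1 h2 hj ((c0.and c1).and c2)
  have c4 := (PS.line 1 w).continuous.continuousAt.eventually_ne (x := 0) (y := 0) (by simp)
  have c5 := (hγ.ev R).continuous.continuousAt.eventually_ne hR0
  refine hγ.mem_zcl (infinite_of_freq (((freq u v).and_eventually
    (mem_nhdsWithin_of_mem_nhds ((c3.and c4).and c5))).mono ?_)) 1
  rintro τ ⟨⟨a, b, hab⟩, ⟨⟨z, hz, ha, hb⟩, h4⟩, h5⟩
  exact subset_zcl _ ⟨fol_of_inj (hV τ) (hR _ (hV τ) h5), z,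
    center3 hab h4 hz.1.1 hz.1.2 ha hb hz.2⟩

/-- The equation of a graph is prime to a polynomial that does not vanish on it. -/
theorem relP {A Q : Poly} (f : Fin 2 → Poly) (hf : ∀ j, A ∣ X j - f j) (hA : aeval f A = 0)
    (h0 : A ≠ 0) (z : Fin 2 → ℂ) (h1 : eval z A = 0) (h2 : eval z Q ≠ 0) : IsRelPrime A Q := by
  have key : ∀ u : Poly, A ∣ u - aeval f u := fun u => by
    induction u using MvPolynomial.induction_on with
    | C a => simp
    | add p q hp hq => rw [map_add, add_sub_add_comm]; exact dvd_add hp hq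
    | mul_X p j hp =>
      rw [map_mul, aeval_X, show p * X j - aeval f p * f j =
        (p - aeval f p) * X j + aeval f p * (X j - f j) by ring]
      exact dvd_add (hp.mul_right _) ((hf j).mul_left _)
  rintro h ⟨k, hk⟩ hQ
  rw [hk, map_mul, mul_eq_zero] at hA
  rcases hA with e | e
  · obtain ⟨c, rfl⟩ := (by have := key h; rwa [e, sub_zero] at this : A ∣ h).trans hQ
    simp [h1] at h2
  · obtain ⟨c, hc⟩ : A ∣ k := by have := key k; rwa [e, sub_zero] at this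
    refine IsUnit.of_mul_eq_one c (mul_left_cancel₀ h0 ?_)
    rw [mul_one, mul_left_comm, ← hc, ← hk]

end Mem3

open Mem3 in
theorem mem3S : Mem3Stmt := by
  rintro e he - _ ⟨f, l, hf, rfl⟩
  obtain ⟨n, rfl⟩ := Nat.exists_eq_add_of_le' he
  have e0 : (∑ i, (C (l i) * ∏ j ∈ Finset.univ.erase i, f j) • dform (f i)) =
      D3 (l 0) (l 1) (l 2) (f 0) (f 1) (f 2) := by
    rw [Fin.sum_univ_three, show (Finset.univ : Finset (Fin 3)).erase 0 = {1, 2} by decide,
      show (Finset.univ : Finset (Fin 3)).erase 1 = {0, 2} by decide,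
      show (Finset.univ : Finset (Fin 3)).erase 2 = {0, 1} by decide,
      Finset.prod_pair (by decide), Finset.prod_pair (by decide), Finset.prod_pair (by decide)]
    rfl
  rw [e0]
  set G : Poly := X 0 ^ (n + 2) + (X 1 - X 0 + C 2) with hGd
  have d0 : (X 0 + C 1 : Poly).totalDegree ≤ 1 := dg_add (dg_X 0) (dg_C _ _)
  have hG : G.totalDegree ≤ n + 2 := dg_add (dg_pow (dg_X 0) _ (by omega))
    ((dg_add (dg_sub (dg_X 1) (dg_X 0)) (dg_C _ _)).trans (by omega))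
  have e1 : (D3 1 1 1 (X 0 + C 1) (X 1) G).1 =
      (X 0 + C 1) * (X 0 ^ (n + 2) + (C 2 * X 1 - X 0 + C 2)) := by
    simp [D3, dform, hGd, map_ofNat]; ring
  have e2 : (D3 1 1 1 (X 0 + C 1) (X 1) G).2 =
      -(X 1 * (G + (X 0 + C 1) * (C ((n : ℂ) + 2) * X 0 ^ (n + 1) - 1))) := by
    simp [D3, dform, hGd, map_ofNat]; ring
  have hV := V_D3 1 1 1 d0 (dg_X 1) hG
  have := curve3 (n := n + 2) (u := l 0) (v := l 1) (w := l 2) (PC.line (X 0 + C 1) (f 0))
    (PC.line (X 1) (f 1)) (PC.line G (f 2))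
    (fun τ => V_D3 _ _ _ (dg_line d0 (hf 0) τ) (dg_line (dg_X 1) (hf 1) τ) (dg_line hG (hf 2) τ))
    (p := ![0, -1]) ?_ (by simp) (by simp) ?_ ?_ ?_
  · simpa using this
  all_goals simp only [add_zero, zero_smul]
  · have d1 : (X 0 ^ (n + 2) + (C 2 * X 1 - X 0 + C 2) : Poly).totalDegree = n + 2 := by
      have : (C 2 * X 1 - X 0 + C 2 : Poly).totalDegree ≤ 1 :=
        dg_add (dg_sub (dg_Cmul _ (dg_X 1)) (dg_X 0)) (dg_C _ _)
      rw [totalDegree_add_eq_left_of_totalDegree_lt] <;> rw [totalDegree_X_pow]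
      omega
    have d2 : (X 0 + C 1 : Poly).totalDegree = 1 := by
      rw [totalDegree_add_eq_left_of_totalDegree_lt] <;> simp
    have n1 : (X 0 ^ (n + 2) + (C 2 * X 1 - X 0 + C 2) : Poly) ≠ 0 := fun h => by
      rw [h] at d1; simp at d1
    have n2 : (X 0 + C 1 : Poly) ≠ 0 := fun h => by rw [h] at d2; simp at d2
    refine ⟨?_, le_antisymm (max_le hV.1 hV.2) (le_max_of_le_left ?_)⟩
    · rw [e1, e2]
      refine IsRelPrime.mul_left (relP ![-C 1, X 1] (fun j => ?_) (by simp) n2 ![-1, 1] (by simp) ?_)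
        (relP ![X 0, -C (1 / 2) * (X 0 ^ (n + 2) - X 0 + C 2)] (fun j => ?_) ?_ n1 ![1, -1]
          (by simp; norm_num) ?_)
      · fin_cases j <;> simp
      · rcases neg_one_pow_eq_or ℂ (n + 2) with h | h <;> simp [hGd, h] <;> norm_num
      · have h2 : (C (1 / 2) * C 2 : Poly) = 1 := by rw [← map_mul]; norm_num
        fin_cases j
        · simp
        · exact ⟨C (1 / 2), by
            simp only [Fin.mk_one, Matrix.cons_val_one, Matrix.cons_val_zero]
            linear_combination -X 1 * h2⟩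
      · have h2 : (C (1 / 2) * C 2 : Poly) = 1 := by rw [← map_mul]; norm_num
        simp only [map_add, map_sub, map_mul, map_pow, aeval_X, aeval_C, algebraMap_eq,
          Matrix.cons_val_one, Matrix.cons_val_zero]
        linear_combination -(X 0 ^ (n + 2) - X 0 + C 2) * h2
      · have : (2 * n + 3 : ℂ) ≠ 0 := by exact_mod_cast (by omega : 2 * n + 3 ≠ 0)
        simp [hGd]
        intro h; apply this; linear_combination h
    · rw [e1, totalDegree_mul_of_isDomain n2 n1, d1, d2]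
      omega
  · rw [e1]; simp
  · rw [e2]; simp [hGd]; norm_num
  · rw [jac, e1, e2]
    rcases n with _ | n <;> simp [hGd] <;> norm_num

end Pool.Agent.MP_05b4bd_ag.PC3

end MrgPart4

-- ======== part 5: formerly Pool.Agent.MP_05b4bd_ag.pc3.Nil
section MrgPart5

/-! Normal forms for the two non-diagonal affine fields. -/

namespace Pool.Agent.MP_05b4bd_ag.PC3

open MvPolynomial HC ES

namespace Nil
variable {K : Type} [Field K] {β : K}

theorem surj {P Q : R2 K} (hP : DL 2 P) (hQ : DL 2 Q) (hi : ∀ u, C β * u = vf P Q u → u = 0)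
    {d : ℕ} {v : R2 K} (hv : DL d v) : ∃ u, DL d u ∧ C β * u - vf P Q u = v := by
  have h : ∀ u ∈ dl K d, (LinearMap.mulLeft K (C β : R2 K) - vfl P Q) u ∈ dl K d := fun u hu => by
    refine DL.sub (DL.C_mul β hu) ?_
    rcases d with _ | d
    · rw [DL.eq_zero hu, map_zero]; exact DL.zero 0
    · exact (vf_DL hP hQ hu).mono (by omega)
  obtain ⟨u, hu⟩ := LinearMap.injective_iff_surjective.1 ((injective_iff_map_eq_zero
    (LinearMap.restrict _ h)).2 fun u hu => Subtype.ext (hi u.1 (sub_eq_zero.1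
      (congrArg Subtype.val hu)))) ⟨v, hv⟩
  exact ⟨u.1, u.2, congrArg Subtype.val hu⟩

theorem inj1 (hβ : β ≠ 0) (u : R2 K) (h : C β * u = vf (X 1) 0 u) : u = 0 := by
  rw [vf, zero_mul, add_zero] at h
  refine co_ext fun i j => ?_
  rw [co_zero]
  induction j generalizing i with
  | zero =>
    have := congrArg (HC.co i 0) h
    rw [co_C_mul, co_X1'] at this
    exact (mul_eq_zero.1 this).resolve_left hβ
  | succ j ih =>
    have := congrArg (HC.co i (j + 1)) h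
    rw [co_C_mul, co_X1, co_x, ih, zero_mul] at this
    exact (mul_eq_zero.1 this).resolve_left hβ

theorem inj2 (hβ : β ≠ 0) (u : R2 K) (h : C β * u = vf 0 1 u) : u = 0 := by
  rw [vf, zero_mul, zero_add, one_mul] at h
  obtain ⟨n, hn⟩ := exists_DL u
  induction n with
  | zero => exact hn.eq_zero
  | succ n ih => exact ih (DL.of_C_mul hβ (h ▸ hn.pderiv 1))

theorem nX (i : Fin 2) : ¬ DL 1 (X i : R2 K) := fun h => by
  simpa using h (Finsupp.single i 1) (by simp)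

theorem lineDL (τ : K) {u : R2 K} (hu : DL 2 u) (i : Fin 2) : DL 2 (u + C τ * X i) :=
  hu.add ((DL_X i).C_mul τ)

end Nil

open Nil in
theorem nilS : NilStmt := by
  rintro K _ _ d ⟨P, Q⟩ α β ⟨hP, hQ⟩ hβ
  dsimp only at hP hQ ⊢
  have one : DL 2 (1 : R2 K) := (DL_C 1).mono (by omega)
  have inv : ∀ {τ : K}, τ ≠ 0 → (C τ⁻¹ * C τ : R2 K) = 1 := fun h => by
    rw [← map_mul, inv_mul_cancel₀ h, map_one]
  refine ⟨fun h => ?_, fun hα h => ?_⟩
  · obtain ⟨Q', rfl⟩ : X 1 ∣ Q := relPrime_X01.symm.dvd_of_dvd_mul_left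
      ⟨C β⁻¹ * (C β * P + C α * Q - X 1 * dv (P, Q)), by
        linear_combination C β⁻¹ * h - X 0 * Q * inv hβ⟩
    have h1 : X 1 * dv (P, X 1 * Q') = C β * P + (C α * X 1 - C β * X 0) * Q' :=
      mul_left_cancel₀ (X_ne_zero (R := K) (1 : Fin 2)) (by linear_combination h)
    obtain ⟨R, hR, rfl⟩ : ∃ R, dv (P, X 1 * Q') = C β * R + C α * Q' ∧ P = X 0 * Q' + X 1 * R :=
      ⟨C β⁻¹ * (dv (P, X 1 * Q') - C α * Q'), by
        linear_combination (C α * Q' - dv (P, X 1 * Q')) * inv hβ, by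
        linear_combination -C β⁻¹ * h1 - (P - X 0 * Q') * inv hβ⟩
    obtain ⟨G, hG, rfl⟩ := surj (DL_X 1) (DL.zero 2) (inj1 hβ)
      (DL_of_mul (a := d) (by rwa [mul_comm]) (nX 1))
    obtain rfl : R = (2 - C α) * G + X 0 * pderiv 0 G + X 1 * pderiv 1 G := by
      refine sub_eq_zero.1 (inj1 hβ _ ?_)
      simp [vf, dv, HC.pderiv_comm, show pderiv 0 (2 : R2 K) = 0 from pderiv_C (a := 2)] at hR ⊢
      linear_combination -hR
    refine ⟨((2 - C α) * X 0 * G + X 0 * X 1 * pderiv 1 G, -(X 0 * X 1 * pderiv 0 G)), {0},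
      fun τ hτ => ⟨X 1, X 1 + C τ * X 0, G, 2 - α + β * τ⁻¹, -β * τ⁻¹, 1, DL_X 1,
        lineDL τ (DL_X 1) 0, hG, ?_⟩⟩
    have := inv (Finset.notMem_singleton.1 hτ)
    refine Prod.ext ?_ ?_ <;> simp [fm, vf, map_ofNat]
    · linear_combination -C β * X 0 * G * this
    · linear_combination -C β * X 1 * G * this
  · obtain ⟨P', rfl⟩ : X 0 ∣ P := ⟨C α⁻¹ * (dv (P, Q) - C β * Q), by
      linear_combination -C α⁻¹ * h - P * inv hα⟩
    have h1 : dv (X 0 * P', Q) = C α * P' + C β * Q :=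
      mul_left_cancel₀ (X_ne_zero (R := K) (0 : Fin 2)) (by linear_combination h)
    obtain ⟨G, hG, e⟩ := surj (DL.zero 2) one (inj2 hβ)
      (DL_of_mul (a := d) (u := P') (by rwa [mul_comm]) (nX 0)).neg
    obtain rfl := neg_eq_iff_eq_neg.2 e
    obtain rfl : Q = -((1 - C α) * G + X 0 * pderiv 0 G) := by
      refine sub_eq_zero.1 (inj2 hβ _ ?_)
      simp [vf, dv, HC.pderiv_comm] at h1 ⊢
      linear_combination -h1
    refine ⟨(X 0 * X 1 * pderiv 1 G, -((1 - C α) * X 1 * G + X 0 * X 1 * pderiv 0 G)), {0},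
      fun τ hτ => ⟨X 0, 1 + C τ * X 1, G, 1 - α, -β * τ⁻¹, 1, DL_X 0, lineDL τ one 1, hG, ?_⟩⟩
    have := inv (Finset.notMem_singleton.1 hτ)
    refine Prod.ext ?_ ?_ <;> simp [fm, vf]
    · linear_combination C β * X 0 * G * this
    · ring

end Pool.Agent.MP_05b4bd_ag.PC3

end MrgPart5

-- ======== part 6: formerly Pool.Agent.MP_05b4bd_ag.pc3.Sep12
section MrgPart6

/-! Separation of logarithmic families by linear conditions. -/

namespace Pool.Agent.MP_05b4bd_ag.PC3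

open MvPolynomial HC ES

namespace Sep12

/-- A relation `dm ∧ w = c dw` of degree at most `n`. -/
def Rel (n : ℕ) (w : Form) (c m : Poly) : Prop := c.totalDegree ≤ n ∧ m.totalDegree ≤ n ∧
  coeff 0 m = 0 ∧
  w.1 * pderiv 0 m + w.2 * pderiv 1 m = c * (pderiv 0 w.1 + pderiv 1 w.2)

/-- The linear map whose kernel is the space of relations. -/
noncomputable def lam (n : ℕ) :
    Form →ₗ[ℂ] (Dg n × (Dg n ⊓ LinearMap.ker (lcoeff ℂ 0) : Submodule ℂ Poly)) →ₗ[ℂ] Poly :=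
  LinearMap.mk₂ ℂ (fun w z => w.1 * pderiv 0 (z.2 : Poly) + w.2 * pderiv 1 (z.2 : Poly) -
      (z.1 : Poly) * (pderiv 0 w.1 + pderiv 1 w.2))
    (fun _ _ _ => by simp; ring) (fun _ _ _ => by simp [smul_eq_C_mul]; ring)
    (fun _ _ _ => by simp; ring) (fun _ _ _ => by simp [smul_eq_C_mul]; ring)

theorem sep {n d : ℕ} {w : Form} {S : Set Form} (hw : w ∈ V d) (hS : S ⊆ V d)
    (h : ∀ c m, Rel n w c m → c = 0 ∧ m = 0)
    (h' : ∀ η ∈ S, ∃ c m, Rel n η c m ∧ ¬ (c = 0 ∧ m = 0)) : w ∉ zcl S := by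
  have : Module.Finite ℂ (Dg n ⊓ LinearMap.ker (lcoeff ℂ 0) : Submodule ℂ Poly) :=
    Submodule.finiteDimensional_of_le (S₂ := Dg n) inf_le_left
  refine not_mem_zcl (lam n) hw ((injective_iff_map_eq_zero _).2 fun z hz => ?_) hS
    fun η hη hi => ?_
  · obtain ⟨h1, h2⟩ := h z.1 z.2 ⟨(mem_restrictTotalDegree _ _ _).1 z.1.2,
      (mem_restrictTotalDegree _ _ _).1 z.2.2.1, z.2.2.2, sub_eq_zero.1 hz⟩
    exact Prod.ext (Subtype.ext h1) (Subtype.ext h2)
  · obtain ⟨c, m, ⟨h1, h2, h3, h4⟩, h5⟩ := h' η hη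
    have := (injective_iff_map_eq_zero _).1 hi (⟨c, (mem_restrictTotalDegree _ _ _).2 h1⟩,
      ⟨m, (mem_restrictTotalDegree _ _ _).2 h2, h3⟩) (sub_eq_zero.2 h4)
    exact h5 ⟨congrArg (fun z => (z.1 : Poly)) this, congrArg (fun z => (z.2 : Poly)) this⟩

theorem rel_one (n a : ℕ) : ∀ η ∈ L ![a], ∃ c m, Rel n η c m ∧ ¬ (c = 0 ∧ m = 0) := by
  rintro _ ⟨f, l, -, rfl⟩
  refine ⟨1, 0, ⟨by simp, by simp, by simp, ?_⟩, by simp⟩
  simp [dform, Pool.Agent.MP_05b4bd_ag.pderiv_comm]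

theorem L2_eq (f : Fin 2 → Poly) (l : Fin 2 → ℂ) :
    ∑ i, (C (l i) * ∏ j ∈ Finset.univ.erase i, f j) • dform (f i) =
      (C (l 0) * f 1) • dform (f 0) + (C (l 1) * f 0) • dform (f 1) := by
  rw [Fin.sum_univ_two, show Finset.univ.erase (0 : Fin 2) = {1} from rfl,
    show Finset.univ.erase (1 : Fin 2) = {0} from rfl, Finset.prod_singleton,
    Finset.prod_singleton]

theorem rel_two {n a : ℕ} (han : a ≤ n) (b : ℕ) :
    ∀ η ∈ L ![a, b], ∃ c m, Rel n η c m ∧ ¬ (c = 0 ∧ m = 0) := by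
  rintro _ ⟨f, l, hf, rfl⟩
  rw [L2_eq]
  have h0 : (f 0).totalDegree ≤ n := (hf 0).trans han
  have h1 := dg_sub h0 (dg_C (coeff 0 (f 0)) n)
  by_cases hc : C (l 1) * f 0 = 0
  · rw [hc, zero_smul, add_zero]
    by_cases hm : f 0 - C (coeff 0 (f 0)) = 0
    · refine ⟨1, 0, ⟨by simp, by simp, by simp, ?_⟩, by simp⟩
      rw [sub_eq_zero.1 hm]
      simp [dform]
    · refine ⟨0, _, ⟨by simp, h1, by simp, ?_⟩, fun e => hm e.2⟩
      simp [dform]; ring
  · refine ⟨_, C (l 1 - l 0) * (f 0 - C (coeff 0 (f 0))), ⟨dg_Cmul _ h0, dg_Cmul _ h1,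
      by rw [coeff_C_mul]; simp, ?_⟩, fun e => hc e.1⟩
    simp [dform, Pool.Agent.MP_05b4bd_ag.pderiv_comm]; ring

/-- The first witness. -/
noncomputable def wA : Form := (2 * X 0 * (X 0 ^ 2 + 1), -(2 * X 0 ^ 2 * X 1))

/-- The second witness. -/
noncomputable def wB : Form := (X 0 * (X 0 ^ 2 + X 1), -(X 1 * (X 0 ^ 2 + X 1)))

theorem wA_mem {e : ℕ} (he : 2 ≤ e) : wA ∈ L ![1, 1, e] := by
  refine ⟨![X 0, X 1, X 0 ^ 2 + 1], ![0, 2, 1], fun i => ?_, ?_⟩
  · fin_cases i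
    · exact dg_X 0
    · exact dg_X 1
    · exact dg_add (dg_pow (dg_X 0) 2 (by simpa using he)) (by simp)
  · rw [Fin.sum_univ_three, show Finset.univ.erase (1 : Fin 3) = {0, 2} from rfl,
      show Finset.univ.erase (2 : Fin 3) = {0, 1} from rfl, Finset.prod_pair (by simp),
      Finset.prod_pair (by simp)]
    refine Prod.ext ?_ ?_ <;> simp [wA, dform, map_ofNat] <;> ring

theorem wB_mem {e : ℕ} (he : 2 ≤ e) : wB ∈ L ![2, e] := by
  refine ⟨![X 0 ^ 2 + X 1, X 0 * X 1], ![0, 1], fun i => ?_, ?_⟩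
  · fin_cases i
    · exact dg_add (dg_pow (dg_X 0) 2 le_rfl) ((dg_X 1).trans one_le_two)
    · exact dg_mul (dg_X 0) (dg_X 1) he
  · rw [L2_eq]
    refine Prod.ext ?_ ?_ <;> simp [wB, dform] <;> ring

theorem wA_inj (c m : Poly) (hr : Rel 2 wA c m) : c = 0 ∧ m = 0 := by
  obtain ⟨h1, h2, h3, h4⟩ := hr
  obtain ⟨c0, c1, c2, c3, c4, c5, rfl⟩ : ∃ c0 c1 c2 c3 c4 c5, c = C c0 + HC.lf c1 c2 +
    (C c3 * X 0 ^ 2 + C c4 * (X 0 * X 1) + C c5 * X 1 ^ 2) := ⟨_, _, _, _, _, _, DL3_eq (DL_iff.2 h1)⟩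
  have e := DL3_eq (DL_iff.2 h2)
  rw [h3] at e
  obtain ⟨a, b, p, q, r, rfl⟩ : ∃ a b p q r, m = C 0 + HC.lf a b +
    (C p * X 0 ^ 2 + C q * (X 0 * X 1) + C r * X 1 ^ 2) := ⟨_, _, _, _, _, e⟩
  have h : ∀ x y : ℂ, 2 * x * (x ^ 2 + 1) * (a + 2 * p * x + q * y) +
      -(2 * x ^ 2 * y) * (b + q * x + 2 * r * y) =
      (c0 + c1 * x + c2 * y + c3 * x ^ 2 + c4 * x * y + c5 * y ^ 2) * (4 * x ^ 2 + 2) :=
    fun x y => by
      have := congrArg (eval ![x, y]) h4
      simp [wA, HC.lf] at this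
      linear_combination this
  have hc0 : c0 = 0 := by linear_combination (-1/2) * h 0 0
  have hc1 : c1 = 0 := by linear_combination (5/12) * h 1 0 + (-5/12) * h (-1) 0 + (-1/12) * h 2 0 + (1/12) * h (-2) 0
  have hc2 : c2 = 0 := by linear_combination (-1/4) * h 0 1 + (1/4) * h 0 (-1)
  have hc3 : c3 = 0 := by linear_combination (-7/4) * h 0 0 + (5/12) * h 1 0 + (5/12) * h (-1) 0 + (-1/24) * h 2 0 + (-1/24) * h (-2) 0
  have hc4 : c4 = 0 := by linear_combination (1/8) * h 0 0 + (-1/8) * h 0 1 + (-1/8) * h 1 0 + (-1/24) * h (-1) 0 + (1/24) * h 2 0 + (1/8) * h 1 1 + (1/24) * h (-1) 1 + (-1/24) * h 2 1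
  have hc5 : c5 = 0 := by linear_combination (1/2) * h 0 0 + (-1/4) * h 0 1 + (-1/4) * h 0 (-1)
  have ha : a = 0 := by linear_combination (3/4) * h 1 0 + (-3/4) * h (-1) 0 + (-1/8) * h 2 0 + (1/8) * h (-2) 0
  have hb : b = 0 := by linear_combination (3/4) * h 0 1 + (-3/4) * h 0 (-1) + (-1/4) * h 1 0 + (1/4) * h (-1) 0 + (-1/4) * h (-1) 1 + (1/4) * h 1 (-1)
  have hp : p = 0 := by linear_combination (-27/16) * h 0 0 + (3/8) * h 1 0 + (3/8) * h (-1) 0 + (-1/32) * h 2 0 + (-1/32) * h (-2) 0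
  have hq : q = 0 := by linear_combination (3/8) * h 0 0 + (-3/8) * h 0 1 + (-5/8) * h 1 0 + (1/8) * h (-1) 0 + (1/8) * h 2 0 + (5/8) * h 1 1 + (-1/8) * h (-1) 1 + (-1/8) * h 2 1
  have hr : r = 0 := by linear_combination (-3/4) * h 0 0 + (3/8) * h 0 1 + (3/8) * h 0 (-1) + (1/4) * h 1 0 + (-1/8) * h 1 1 + (-1/8) * h 1 (-1)
  simp [HC.lf, *]

theorem wB_inj (c m : Poly) (hr : Rel 1 wB c m) : c = 0 ∧ m = 0 := by
  obtain ⟨h1, h2, h3, h4⟩ := hr
  obtain ⟨c0, c1, c2, rfl⟩ : ∃ c0 c1 c2, c = C c0 + HC.lf c1 c2 := ⟨_, _, _, DL2_eq (DL_iff.2 h1)⟩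
  have e := DL2_eq (DL_iff.2 h2)
  rw [h3] at e
  obtain ⟨a, b, rfl⟩ : ∃ a b, m = C 0 + HC.lf a b := ⟨_, _, e⟩
  have h : ∀ x y : ℂ, x * (x ^ 2 + y) * a + -(y * (x ^ 2 + y)) * b =
      (c0 + c1 * x + c2 * y) * (2 * x ^ 2 - y) :=
    fun x y => by
      have := congrArg (eval ![x, y]) h4
      simp [wB, HC.lf] at this
      linear_combination this
  have hc0 : c0 = 0 := by linear_combination (1/2) * h 0 1 + (-1/2) * h 0 (-1)
  have hc1 : c1 = 0 := by linear_combination (-2/3) * h 0 1 + (2/3) * h 0 (-1) + (-2/3) * h 1 0 + (1/6) * h 1 1 + (-1/6) * h (-1) 1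
  have hc2 : c2 = 0 := by linear_combination (1/6) * h 0 1 + (1/2) * h 0 (-1) + (-1/6) * h 1 1 + (-1/6) * h (-1) 1
  have ha : a = 0 := by linear_combination (-1/3) * h 0 1 + (1/3) * h 0 (-1) + (-1/3) * h 1 0 + (1/3) * h 1 1 + (-1/3) * h (-1) 1
  have hb : b = 0 := by linear_combination (-1/3) * h 0 1 + (-1/6) * h 1 1 + (-1/6) * h (-1) 1
  simp [HC.lf, *]

end Sep12

open Sep12 in
theorem sep1S : Sep1Stmt := fun e he _ => by
  have hw := wA_mem he
  have hV : wA ∈ V (e + 1) := L_V (by simp [Fin.sum_univ_three]; omega) hw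
  exact ⟨fun h => sep hV (L_V (by simp)) wA_inj (rel_one 2 _) (h hw),
    fun h => sep hV (L_V (by simp; omega)) wA_inj (rel_two one_le_two _) (h hw),
    fun _ h => sep hV (L_V (by simp; omega)) wA_inj (rel_two le_rfl _) (h hw)⟩

open Sep12 in
theorem sep2S : Sep2Stmt := fun e he _ => by
  have hw := wB_mem he
  have hV : wB ∈ V (e + 1) := L_V (by simp; omega) hw
  exact ⟨fun h => sep hV (L_V (by simp)) wB_inj (rel_one 1 _) (h hw),
    fun h => sep hV (L_V (by simp; omega)) wB_inj (rel_two le_rfl _) (h hw)⟩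

end Pool.Agent.MP_05b4bd_ag.PC3

end MrgPart6

-- ======== part 7: formerly Pool.Agent.MP_05b4bd_ag.pc3.Sep3
section MrgPart7

/-! Persistent centres in degrees three, four and five: witnesses with trivial linear kernels. -/

namespace Pool.Agent.MP_05b4bd_ag.PC3

open MvPolynomial HC ES

namespace Sep3

theorem cf_zero (i j : ℕ) : cf 0 i j = 0 := by simp [cf]

/-- A triangular system with non-zero diagonal. -/
theorem tri_zero {F : Poly} (α β γ δ : ℂ) (hn : ∀ i j : ℕ, α + β * i + γ * j ≠ 0)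
    (E : C α * F + C β * (X 0 * pderiv 0 F) + C γ * (X 1 * pderiv 1 F) +
      C δ * (X 0 ^ 2 * pderiv 1 F) = 0) : F = 0 := by
  refine cf_ext fun i => ?_
  induction i using Nat.strong_induction_on with
  | _ i ih =>
    intro j
    have h := congrArg (fun G => cf G i j) E
    simp only [cf_add, cf_C_mul, cf_e0, cf_e1, cf_X0, cf_p1, cf_zero] at h
    refine mul_left_cancel₀ (hn i j) ?_
    split_ifs at h with h2
    · rw [ih (i - 2) (by omega)] at h
      linear_combination h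
    · linear_combination h

theorem ne_of_mod (a b c : ℕ) (h : ∀ i j : ℕ, b * i + c * j ≠ a) (i j : ℕ) :
    -(a : ℂ) + (b : ℂ) * i + (c : ℂ) * j ≠ 0 := fun e =>
  h i j (by
    have : ((b * i + c * j : ℕ) : ℂ) = (a : ℂ) := by push_cast; linear_combination e
    exact_mod_cast this)

theorem inj_of {k : ℂ} {n : ℕ} {ω : Form}
    (h : ∀ r : Poly, r.totalDegree ≤ n → r * (pderiv 0 ω.1 + pderiv 1 ω.2) -
      C k * (pderiv 0 r * ω.1 + pderiv 1 r * ω.2) = 0 → r = 0) :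
    Function.Injective (lamI k n ω) := by
  rw [injective_iff_map_eq_zero]
  rintro ⟨r, hr⟩ e
  exact Subtype.ext (h r ((mem_restrictTotalDegree _ _ _).1 hr) e)

theorem C52 : (2 * C (5 / 2 : ℂ) : Poly) = 5 := by
  rw [show (2 : Poly) = C 2 from rfl, ← map_mul, show (2 * (5 / 2) : ℂ) = 5 by norm_num]; rfl
theorem C72 : (2 * C (7 / 2 : ℂ) : Poly) = 7 := by
  rw [show (2 : Poly) = C 2 from rfl, ← map_mul, show (2 * (7 / 2) : ℂ) = 7 by norm_num]; rfl

theorem inj1 : Function.Injective (lamI (5 / 2) 2 ((X 0, 0) : Form)) ∧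
    Function.Injective (lamI (7 / 2) 2 ((X 0, 0) : Form)) := by
  constructor
  · refine inj_of fun r _ h => tri_zero (-((2 : ℕ) : ℂ)) ((5 : ℕ) : ℂ) ((0 : ℕ) : ℂ) 0
      (ne_of_mod 2 5 0 fun i j => by omega) ?_
    simp only [pderiv_X_self, map_zero, map_neg, map_natCast] at h ⊢
    push_cast
    linear_combination -2 * h - (X 0 * pderiv 0 r) * C52
  · refine inj_of fun r _ h => tri_zero (-((2 : ℕ) : ℂ)) ((7 : ℕ) : ℂ) ((0 : ℕ) : ℂ) 0
      (ne_of_mod 2 7 0 fun i j => by omega) ?_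
    simp only [pderiv_X_self, map_zero, map_neg, map_natCast] at h ⊢
    push_cast
    linear_combination -2 * h - (X 0 * pderiv 0 r) * C72

theorem mem2 {a b : ℕ} (ha : 1 ≤ a) (hb : 1 ≤ b) : ((X 0, 0) : Form) ∈ L ![a, b] := by
  refine ⟨![X 0, X 1], ![0, 1], fun i => ?_, ?_⟩
  · fin_cases i
    · exact (dg_X 0).trans ha
    · exact (dg_X 1).trans hb
  · have e : (Finset.univ.erase (1 : Fin 2)) = {0} := by decide
    simp [Fin.sum_univ_two, e, dform]

theorem mem3 : ((X 0, 0) : Form) ∈ L ![1, 1, 2] := by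
  refine ⟨![X 0, X 1, 1], ![0, 1, 0], fun i => ?_, ?_⟩
  · fin_cases i
    · exact dg_X 0
    · exact dg_X 1
    · simp
  · have e : (Finset.univ.erase (1 : Fin 3)) = {0, 2} := by decide
    simp [Fin.sum_univ_three, e, dform]

theorem wS : fam 2 0 (X 0) (X 1) (X 0) = (-5 * X 0, 8 * X 0 ^ 2 - 2 * X 1) := by
  have e : (C (-(2 * ((2 : ℕ) : ℂ) + 1)) : Poly) = -5 := by
    rw [show (-(2 * ((2 : ℕ) : ℂ) + 1)) = -5 by norm_num, map_neg]; rfl
  have e2 : (C (2 : ℂ) : Poly) = 2 := rfl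
  refine Prod.ext ?_ ?_
  · rw [fam, Dm_fst, e, e2]; simp
  · rw [fam, Dm_snd, e, e2]; simp; ring

theorem injS : Function.Injective
    (lamI (5 / 2) 2 ((-5 * X 0, 8 * X 0 ^ 2 - 2 * X 1) : Form)) := by
  refine inj_of fun r _ h => tri_zero (-((14 : ℕ) : ℂ)) ((25 : ℕ) : ℂ) ((10 : ℕ) : ℂ)
    (-((40 : ℕ) : ℂ)) (ne_of_mod 14 25 10 fun i j => by omega) ?_
  have d0 : pderiv 0 (-5 * X 0 : Poly) = -5 := by simp
  have d1 : pderiv 1 (8 * X 0 ^ 2 - 2 * X 1 : Poly) = -2 := by simp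
  simp only [d0, d1] at h
  simp only [map_neg, map_natCast]
  push_cast
  linear_combination 2 * h + (pderiv 0 r * (-5 * X 0) + pderiv 1 r * (8 * X 0 ^ 2 - 2 * X 1)) * C52

theorem memN : ((-3 * X 0, 4 * X 0 ^ 2 - 2 * X 1) : Form) ∈ N5 :=
  ⟨0, X 0, X 1, X 0, _, dg_X 0, dg_X 1, (dg_X 0).trans (by omega), rfl,
    Prod.ext (by simp [dform]) (by simp [dform]; ring)⟩

theorem injN : Function.Injective
    (lamI (7 / 2) 2 ((-3 * X 0, 4 * X 0 ^ 2 - 2 * X 1) : Form)) := by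
  refine inj_of fun r _ h => tri_zero (-((10 : ℕ) : ℂ)) ((21 : ℕ) : ℂ) ((14 : ℕ) : ℂ)
    (-((28 : ℕ) : ℂ)) (ne_of_mod 10 21 14 fun i j => by omega) ?_
  have d0 : pderiv 0 (-3 * X 0 : Poly) = -3 := by simp
  have d1 : pderiv 1 (4 * X 0 ^ 2 - 2 * X 1 : Poly) = -2 := by simp
  simp only [d0, d1] at h
  simp only [map_neg, map_natCast]
  push_cast
  linear_combination 2 * h + (pderiv 0 r * (-3 * X 0) + pderiv 1 r * (4 * X 0 ^ 2 - 2 * X 1)) * C72

theorem memN' : ((-3 * (X 0 ^ 3 + 1), 6 * X 0 - 6 * X 0 ^ 2 * X 1) : Form) ∈ N5 :=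
  ⟨1, X 0, X 1, 1, _, dg_X 0, dg_X 1, by simp, rfl,
    Prod.ext (by simp [dform]) (by simp [dform]; ring)⟩

theorem injN' : Function.Injective
    (lamI 1 4 ((-3 * (X 0 ^ 3 + 1), 6 * X 0 - 6 * X 0 ^ 2 * X 1) : Form)) := by
  refine inj_of fun r hr h => ?_
  have d0 : pderiv 0 (-3 * (X 0 ^ 3 + 1) : Poly) = -9 * X 0 ^ 2 := by simp; ring
  have d1 : pderiv 1 (6 * X 0 - 6 * X 0 ^ 2 * X 1 : Poly) = -6 * X 0 ^ 2 := by simp
  simp only [d0, d1, map_one] at h
  have E : X 0 ^ 2 * (X 0 * pderiv 0 r + C 2 * (X 1 * pderiv 1 r) - C 5 * r) + pderiv 0 r -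
      C 2 * (X 0 ^ 1 * pderiv 1 r) = 0 := by
    refine mul_left_cancel₀ (show (3 : Poly) ≠ 0 from by
      rw [show (3 : Poly) = C 3 from rfl]; exact C_ne_zero.2 (by norm_num)) ?_
    rw [show (C 2 : Poly) = 2 from rfl, show (C 5 : Poly) = 5 from rfl]
    linear_combination h
  have R : ∀ i j : ℕ, (if 2 ≤ i then (((i - 2 : ℕ) : ℂ) + 2 * j - 5) * cf r (i - 2) j else 0) +
      cf r (i + 1) j * (i + 1) - (if 1 ≤ i then 2 * (cf r (i - 1) (j + 1) * (j + 1)) else 0) = 0 :=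
    fun i j => by
      have := congrArg (fun G => cf G i j) E
      simp only [cf_add, cf_sub, cf_C_mul, cf_e0, cf_e1, cf_X0, cf_p0, cf_p1, cf_zero] at this
      split_ifs at this ⊢ <;> linear_combination this
  have Z : ∀ i j : ℕ, 4 < i + j → cf r i j = 0 := fun i j hij => cf_deg hr hij
  have R2 : ∀ a b : ℕ, ((a : ℂ) + 2 * b - 5) * cf r a b + cf r (a + 3) b * (a + 3) -
      2 * (cf r (a + 1) (b + 1) * (b + 1)) = 0 := fun a b => by
    have := R (a + 2) b
    rw [if_pos (by omega), if_pos (by omega), Nat.add_sub_cancel,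
      show a + 2 - 1 = a + 1 from rfl, show a + 2 + 1 = a + 3 from rfl] at this
    push_cast at this
    linear_combination this
  have h12 : cf r 1 2 = 0 := by simpa using R 0 2
  have h31 : cf r 3 1 = 0 := by
    have r1 := R 1 0
    have r2 := R2 2 0
    have r3 := R2 0 1
    rw [if_neg (by omega), if_pos le_rfl] at r1
    rw [Z (2 + 3) 0 (by omega)] at r2
    norm_num [h12] at r1 r2 r3
    linear_combination (-3 / 10 : ℂ) * r1 - r2 / 5 + r3 / 5
  have key : ∀ n a b : ℕ, 4 < a + b + n → cf r a b = 0 := by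
    intro n
    induction n with
    | zero => exact fun a b hab => Z a b hab
    | succ n ih =>
      intro a b hab
      by_cases h5 : a + 2 * b = 5
      · by_cases h4 : 4 < a + b
        · exact Z a b h4
        · have : a = 1 ∧ b = 2 ∨ a = 3 ∧ b = 1 := by omega
          rcases this with ⟨rfl, rfl⟩ | ⟨rfl, rfl⟩
          · exact h12
          · exact h31
      · have := R2 a b
        rw [ih (a + 3) b (by omega), ih (a + 1) (b + 1) (by omega)] at this
        refine mul_left_cancel₀ (show (a : ℂ) + 2 * b - 5 ≠ 0 from fun e => h5 ?_)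
          (by linear_combination this)
        have : ((a + 2 * b : ℕ) : ℂ) = ((5 : ℕ) : ℂ) := by push_cast; linear_combination e
        exact_mod_cast this
  exact cf_ext fun i j => key 5 i j (by omega)

end Sep3

theorem sep3S : Sep3Stmt := by
  refine ⟨?_, ⟨_, ⟨0, X 0, X 1, X 0, dg_X 0, dg_X 1, (dg_X 0).trans (by omega), Sep3.wS.symm⟩,
    Sep3.injS⟩, ⟨_, Sep3.memN, Sep3.injN⟩, _, Sep3.memN', Sep3.injN'⟩
  rintro W (rfl | rfl | rfl)
  · exact ⟨_, Sep3.mem2 le_rfl (by omega), Sep3.inj1⟩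
  · exact ⟨_, Sep3.mem3, Sep3.inj1⟩
  · exact ⟨_, Sep3.mem2 (by omega) (by omega), Sep3.inj1⟩

end Pool.Agent.MP_05b4bd_ag.PC3

end MrgPart7

-- ======== part 8: formerly Pool.Agent.MP_05b4bd_ag.pc3.Sep4
section MrgPart8

/-! Exact cubic forms do not lie in the two families with thirteen parameters. -/

namespace Pool.Agent.MP_05b4bd_ag.PC3

open MvPolynomial HC ES

namespace Sep4

/-- The thirteen parameters. -/
abbrev Pm : Type := tri 1 ⊕ tri 1 ⊕ tri 2 ⊕ Unit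

/-- Polynomials that depend polynomially on the parameters. -/
def PU (F : (Pm → ℂ) → Poly) : Prop :=
  ∃ U : R2 (MvPolynomial Pm ℂ), ∀ t, F t = map (eval t) U

variable {F G : (Pm → ℂ) → Poly}

theorem PU.const (c : Poly) : PU fun _ => c := ⟨map C c, fun t => by
  rw [map_map, show (eval t).comp (C : ℂ →+* MvPolynomial Pm ℂ) = RingHom.id ℂ by ext; simp,
    map_id]⟩
theorem PU.add (hF : PU F) (hG : PU G) : PU fun t => F t + G t := by
  obtain ⟨U, hU⟩ := hF; obtain ⟨W, hW⟩ := hG; exact ⟨U + W, by simp [hU, hW]⟩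
theorem PU.mul (hF : PU F) (hG : PU G) : PU fun t => F t * G t := by
  obtain ⟨U, hU⟩ := hF; obtain ⟨W, hW⟩ := hG; exact ⟨U * W, by simp [hU, hW]⟩
theorem PU.neg (hF : PU F) : PU fun t => -F t := by
  obtain ⟨U, hU⟩ := hF; exact ⟨-U, by simp [hU]⟩
theorem PU.pow (hF : PU F) (n : ℕ) : PU fun t => F t ^ n := by
  obtain ⟨U, hU⟩ := hF; exact ⟨U ^ n, by simp [hU]⟩
theorem PU.pd (hF : PU F) (i : Fin 2) : PU fun t => pderiv i (F t) := by
  obtain ⟨U, hU⟩ := hF; exact ⟨pderiv i U, by simp [hU, pderiv_map]⟩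
theorem PU.coord (i : Pm) : PU fun t => C (t i) := ⟨C (X i), by simp⟩
theorem PU.mk (n : ℕ) (e : tri n → Pm) : PU fun t => mk n fun p => t (e p) :=
  ⟨Pool.Agent.MP_05b4bd_ag.mk n fun p => X (e p), by simp [map_mk]⟩
theorem PU.sp (hF : PU F) (hG : PU G) (K : ℕ) : PU fun t => Sp K (F t) (G t) := by
  induction K with
  | zero => exact hF
  | succ K ih =>
    exact (PU.const _).mul ((((PU.const _).mul ((hF.pow 2).add hG)).mul ih).add
      (hF.mul (hG.pow _)))

theorem tan : Tan 3 (L ![4]) 14 := by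
  have key : ∀ c : {p : tri 4 // p ≠ z0 4} → ℂ, ∑ i, c i • dform (monomial (ex i.1.1) 1) =
      dform (∑ i, c i • monomial (ex i.1.1) 1) := fun c => by
    simp [dform, Prod.ext_iff, Prod.fst_sum, Prod.snd_sum]
  refine ⟨{p : tri 4 // p ≠ z0 4}, inferInstance, 0, fun i => dform (monomial (ex i.1.1) 1), ?_,
    Fintype.linearIndependent_iff.2 fun c hc i => ?_, fun c => ⟨fun _ => 0, PF.const 0, fun τ => ?_⟩⟩
  · have := card_tri 4
    rw [Fintype.card_subtype_compl, Fintype.card_subtype_eq, Fintype.card_coe]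
    omega
  · rw [key] at hc
    have h0 := cf_e0 (∑ i, c i • monomial (ex i.1.1) 1) i.1.1.1 i.1.1.2
    have h1 := cf_e1 (∑ i, c i • monomial (ex i.1.1) 1) i.1.1.1 i.1.1.2
    have e : cf (∑ i, c i • monomial (ex i.1.1) 1) i.1.1.1 i.1.1.2 = c i := by
      change coeff (ex i.1.1) _ = _
      simp only [coeff_sum, coeff_smul, coeff_monomial, ex_inj]
      rw [Finset.sum_eq_single i (fun b _ hb => by
        rw [if_neg fun h => hb (Subtype.ext (Subtype.ext h)), smul_zero]) (by simp)]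
      simp
    rw [neg_eq_zero.1 (congrArg Prod.snd hc), e] at h0
    have hc1 : pderiv 1 (∑ i, c i • (monomial (ex i.1.1) 1 : Poly)) = 0 := congrArg Prod.fst hc
    rw [hc1, e] at h1
    by_contra hn
    refine i.2 (Subtype.ext (Prod.ext ?_ ?_))
    · simpa [cf, hn, z0] using h0
    · simpa [cf, hn, z0] using h1
  · have h : (0 : Form) + τ • ∑ i, c i • dform (monomial (ex i.1.1) 1) + τ ^ 2 • (0 : Form) ∈
        L ![4] := by
      rw [zero_add, smul_zero, add_zero, Finset.smul_sum]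
      simp only [smul_smul]
      rw [key]
      refine dform_mem_L (i := 0) (d := 4) le_rfl (totalDegree_finsetSum_le fun p _ =>
        (totalDegree_smul_le _ _).trans ((totalDegree_monomial_le _ _).trans ?_))
      have := mem_tri.1 p.1.2
      rw [ex, Finsupp.sum_add_index' (by simp) (by simp)]
      simpa using this
    exact ⟨subset_zcl _ h, L_V (by simp) h⟩

theorem key (hD : DimStmt) (S : Set Form) (β α : ℂ) (R : Poly → Poly → Poly)
    (hR : ∀ F G, PU F → PU G → PU fun t => R (F t) (G t))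
    (hS : ∀ ω, ω ∈ S ↔ ∃ (c : ℂ) (u v g : Poly), u.totalDegree ≤ 1 ∧ v.totalDegree ≤ 1 ∧
      g.totalDegree ≤ 2 ∧ ω = Dm β α (u ^ 2 + v) (C c * R u v + g))
    (hn : ¬ S ⊆ zcl (L ![4])) : ¬ L ![4] ⊆ zcl S := by
  have hu := PU.mk 1 Sum.inl
  have hv := PU.mk 1 fun p => Sum.inr (Sum.inl p)
  have hF := (hu.pow 2).add hv
  have hG := ((PU.coord (Sum.inr (Sum.inr (Sum.inr ())))).mul (hR _ _ hu hv)).add
    (PU.mk 2 fun p => Sum.inr (Sum.inr (Sum.inl p)))
  have h : ∀ i, PU _ := fun i => (((PU.const (C β)).mul hF).mul (hG.pd i)).add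
    (((PU.const (C α)).mul hG).mul (hF.pd i))
  obtain ⟨U1, h1⟩ := h 1
  obtain ⟨U2, h2⟩ := (h 0).neg
  refine hD.1 Pm U1 U2 S _ 3 14 (congrArg zcl (Set.ext fun ω => (hS ω).trans ⟨?_, ?_⟩)) hn tan ?_
  · rintro ⟨c, u, v, g, du, dv, dg, rfl⟩
    refine ⟨Sum.elim (fun p => cf u p.1.1 p.1.2) (Sum.elim (fun p => cf v p.1.1 p.1.2)
      (Sum.elim (fun p => cf g p.1.1 p.1.2) fun _ => c)), ?_⟩
    beta_reduce
    rw [← h1, ← h2]
    simp only [Sum.elim_inl, Sum.elim_inr, ← eq_mk du, ← eq_mk dv, ← eq_mk dg]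
    exact Prod.ext (Dm_fst ..).symm (Dm_snd ..).symm
  · rintro ⟨t, rfl⟩
    refine ⟨_, _, _, _, dg_mk fun p => t (Sum.inl p), dg_mk fun p => t (Sum.inr (Sum.inl p)),
      dg_mk fun p => t (Sum.inr (Sum.inr (Sum.inl p))),
      Prod.ext ((h1 t).symm.trans (Dm_fst ..).symm) ((h2 t).symm.trans (Dm_snd ..).symm)⟩
  · have a := card_tri 1
    have b := card_tri 2
    simp only [Fintype.card_sum, Fintype.card_coe, Fintype.card_unit]
    omega

end Sep4

open Sep4 in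
theorem sep4S (hD : DimStmt) (h3 : Sep3Stmt) (hI : IrrStmt) : Sep4Stmt := by
  refine ⟨key hD _ 2 (-3) (fun u _ => u ^ 3) (fun _ _ hF _ => hF.pow 3) (fun ω => ?_) fun h => ?_,
    key hD _ 2 (-(2 * ((2 : ℕ) : ℂ) + 1)) (Sp 2) (fun _ _ hF hG => hF.sp hG 2) (fun _ => Iff.rfl)
      fun h => w0_not_mem_L (n := 1) (δ := ![4]) (by simp) (h (w0_S2 1))⟩
  · have e : ∀ F G : Poly, (2 * F) • dform G - (3 * G) • dform F = Dm 2 (-3) F G := fun F G => by
      rw [Dm, map_neg, map_ofNat, map_ofNat, neg_mul, neg_smul, sub_eq_add_neg]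
    exact ⟨fun ⟨a, u, v, g, R, du, dv, dg, hR, hω⟩ => ⟨a, u, v, g, du, dv, dg, by rw [hω, hR, e]⟩,
      fun ⟨a, u, v, g, du, dv, dg, hω⟩ => ⟨a, u, v, g, _, du, dv, dg, rfl, by rw [hω, e]⟩⟩
  · obtain ⟨ω, hω, hi⟩ := h3.2.2.2
    exact not_mem_zcl _ (hI.2.2.1 hω) hi (L_V (by simp)) (fun _ => L_not_inj (d := 3) (by simp))
      (h hω)

end Pool.Agent.MP_05b4bd_ag.PC3

end MrgPart8

-- ======== part 9: formerly Pool.Agent.MP_05b4bd_ag.pc3.Tan1
section MrgPart9

/-! Tangent directions of the family of a line and a curve of degree `d`. -/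

namespace Pool.Agent.MP_05b4bd_ag.PC3

open MvPolynomial HC ES

namespace Tan1

theorem tan_of_lin {E : Type} [AddCommGroup E] [Module ℂ E] [Module.Finite ℂ E] (Φ : E →ₗ[ℂ] Form)
    (hΦ : ∀ e, Φ e = 0 → e = 0) {d N : ℕ} {T : Set Form} (hN : N ≤ Module.finrank ℂ E) (ω : Form)
    (hV : T ⊆ V d) (h : ∀ e, ∃ γ : ℂ → Form, PF γ ∧ ∀ τ : ℂ, ω + τ • Φ e + τ ^ 2 • γ τ ∈ T) :
    Tan d T N := by
  let b := Module.finBasis ℂ E
  refine ⟨Fin (Module.finrank ℂ E), inferInstance, ω, Φ ∘ b, by simpa using hN,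
    b.linearIndependent.map' Φ (LinearMap.ker_eq_bot'.2 hΦ), fun c => ?_⟩
  obtain ⟨γ, h1, h2⟩ := h (∑ i, c i • b i)
  have e : ∑ i, c i • (Φ ∘ b) i = Φ (∑ i, c i • b i) := by simp
  exact ⟨γ, h1, fun τ => by rw [e]; exact ⟨subset_zcl _ (h2 τ), hV (h2 τ)⟩⟩

theorem Dm_mem {a b : ℕ} {F G : Poly} (β α : ℂ) (hF : DL (a + 1) F) (hG : DL (b + 1) G) :
    Dm β α F G ∈ L ![a, b] := by
  refine ⟨![F, G], ![α, β], fun i => ?_, ?_⟩
  · fin_cases i
    exacts [DL_iff.1 hF, DL_iff.1 hG]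
  · rw [Fin.sum_univ_two, show (Finset.univ : Finset (Fin 2)).erase 0 = {1} by decide,
      show (Finset.univ : Finset (Fin 2)).erase 1 = {0} by decide, Finset.prod_singleton,
      Finset.prod_singleton, Dm, add_comm]
    rfl

/-- The differential of the parametrization. -/
noncomputable def Phi (n : ℕ) : ((ℂ × ℂ × ℂ) × dl ℂ (n + 3)) →ₗ[ℂ] Form where
  toFun e := ((C e.1.1 + C e.1.2.1 * X 1) * (C ((n : ℂ) + 2) * X 1 ^ (n + 1)) +
      2 * C e.1.2.1 * (X 1 ^ (n + 2) + 1) + X 0 * pderiv 1 (e.2 : Poly),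
    -(X 0 * pderiv 0 (e.2 : Poly) + 2 * (e.2 : Poly) + C e.1.2.2 * (X 1 ^ (n + 2) + 1)))
  map_add' e e' := Prod.ext (by simp; ring) (by simp; ring)
  map_smul' c e := Prod.ext (by simp [smul_eq_C_mul]; ring) (by simp [smul_eq_C_mul]; ring)

theorem Phi_fst (n : ℕ) (a b c : ℂ) (G : Poly) (hG : G ∈ dl ℂ (n + 3)) :
    (Phi n ((a, b, c), ⟨G, hG⟩)).1 = (C a + C b * X 1) * (C ((n : ℂ) + 2) * X 1 ^ (n + 1)) +
      2 * C b * (X 1 ^ (n + 2) + 1) + X 0 * pderiv 1 G := rfl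

theorem Phi_snd (n : ℕ) (a b c : ℂ) (G : Poly) (hG : G ∈ dl ℂ (n + 3)) :
    (Phi n ((a, b, c), ⟨G, hG⟩)).2 = -(X 0 * pderiv 0 G + 2 * G + C c * (X 1 ^ (n + 2) + 1)) := rfl

theorem co_pow (i j n : ℕ) : HC.co i j (X 1 ^ n : Poly) = if 0 = i ∧ n = j then 1 else 0 := by
  simpa using co_mon (A := ℂ) i j 0 n

theorem Phi_inj (n : ℕ) (e : (ℂ × ℂ × ℂ) × dl ℂ (n + 3)) (h : Phi n e = 0) : e = 0 := by
  obtain ⟨⟨a, b, c⟩, G, hG⟩ := e
  have h1 : (C a + C b * X 1) * (C ((n : ℂ) + 2) * X 1 ^ (n + 1)) +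
      2 * C b * (X 1 ^ (n + 2) + 1) + X 0 * pderiv 1 G = 0 := congrArg Prod.fst h
  have h2 : X 0 * pderiv 0 G + 2 * G + C c * (X 1 ^ (n + 2) + 1) = 0 :=
    neg_eq_zero.1 (congrArg Prod.snd h)
  have hn : (n : ℂ) + 2 ≠ 0 := by exact_mod_cast Nat.succ_ne_zero (n + 1)
  have hb : b = 0 := by simpa using congrArg (eval ![0, 0]) h1
  subst hb
  have ha : a = 0 := by simpa [hn] using congrArg (eval ![0, 1]) h1
  subst ha
  have h3 : pderiv 1 G = 0 := by simpa using h1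
  have h4 : HC.co 0 (n + 2) G = 0 := by
    have := co_y (i := 0) (j := n + 1) (u := G)
    rw [h3, co_zero] at this
    refine (mul_eq_zero.1 this.symm).resolve_right ?_
    exact_mod_cast Nat.succ_ne_zero (n + 1)
  have h5 : ∀ i j : ℕ, ((i : ℂ) + 2) * HC.co i j G + c * HC.co i j (X 1 ^ (n + 2) + 1 : Poly) = 0 :=
    fun i j => by
      have := congrArg (HC.co i j) h2
      rw [co_add, co_add, co_X0_x, co_C_mul, co_zero, two_mul, co_add] at this
      linear_combination this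
  have hc : c = 0 := by
    have h6 := h5 0 (n + 2)
    have h7 := co_pow 0 (n + 2) 0
    rw [pow_zero, if_neg (by omega)] at h7
    rwa [h4, mul_zero, zero_add, co_add, co_pow, if_pos ⟨rfl, rfl⟩, h7, add_zero, mul_one] at h6
  subst hc
  have h8 : G = 0 := co_ext fun i j => by
    have h6 := h5 i j
    rw [zero_mul, add_zero] at h6
    rw [co_zero]
    refine (mul_eq_zero.1 h6).resolve_left ?_
    exact_mod_cast Nat.succ_ne_zero (i + 1)
  subst h8
  rfl

end Tan1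

open Tan1 in
theorem tan1S : Tan1Stmt := by
  intro d h3 _
  obtain ⟨n, rfl⟩ : ∃ n, d = n + 2 := ⟨d - 2, by omega⟩
  refine tan_of_lin (Phi n) (Phi_inj n) ?_ (Dm 1 2 (X 0) (X 1 ^ (n + 2) + 1))
    (L_V (by simp [add_comm])) ?_
  · have h1 := finrank_dl (K := ℂ) (n + 3)
    have h2 : (n + 3) * (n + 3 + 1) = (n + 2) * (n + 2 + 1) + 2 * (n + 3) := by ring
    simp only [Module.finrank_prod, Module.finrank_self]
    omega
  · rintro ⟨⟨a, b, c⟩, G, hG⟩
    refine ⟨fun τ => ((C a + C b * X 1) * pderiv 1 G + C c * C b * (X 1 ^ (n + 2) + 1) +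
      2 * C b * G + C τ * (C c * C b * G), -((C a + C b * X 1) * pderiv 0 G + C c * G)),
      ⟨(PC.const _).add (PS.id.toC.mul (PC.const _)), PC.const _⟩, fun τ => ?_⟩
    have h1 : DL (1 + 1) (X 0 + C τ * (C a + C b * X 1) : Poly) :=
      (DL_X 0).add ((((DL_C a).mono (by omega)).add ((DL_X 1).C_mul b)).C_mul τ)
    have h2 : DL (n + 2 + 1) (X 1 ^ (n + 2) + 1 + C τ * G : Poly) := by
      refine DL.add (DL.add ?_ ((DL_C 1).mono (by omega))) (DL.C_mul τ hG)
      simpa using (DL_X (A := ℂ) 1).pow (a := 1) (n + 2)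
    have h4 := Dm_mem 1 (2 + τ * c) h1 h2
    refine (congrArg (· ∈ L ![1, n + 2]) ?_).mp h4
    have p0 : pderiv 0 (X 1 ^ (n + 2) + 1 : Poly) = 0 := by simp
    have p1 : pderiv 1 (X 1 ^ (n + 2) + 1 : Poly) = C ((n : ℂ) + 2) * X 1 ^ (n + 1) := by
      simp [map_ofNat]
    have q0 : pderiv 0 (X 0 + C τ * (C a + C b * X 1) : Poly) = 1 := by simp
    have q1 : pderiv 1 (X 0 + C τ * (C a + C b * X 1) : Poly) = C τ * C b := by simp
    have r0 : pderiv 0 (X 0 : Poly) = 1 := by simp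
    have r1 : pderiv 1 (X 0 : Poly) = 0 := by simp
    refine Prod.ext ?_ ?_
    · rw [Prod.fst_add, Prod.fst_add, Prod.smul_fst, Prod.smul_fst, Phi_fst, Dm_fst, Dm_fst, q1, r1,
        map_add (pderiv 1), pderiv_C_mul, p1, smul_eq_C_mul, smul_eq_C_mul]
      simp only [map_add, map_mul, map_pow, map_one, map_ofNat]
      ring
    · rw [Prod.snd_add, Prod.snd_add, Prod.smul_snd, Prod.smul_snd, Phi_snd, Dm_snd, Dm_snd, q0, r0,
        map_add (pderiv 0), pderiv_C_mul, p0, smul_eq_C_mul, smul_eq_C_mul]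
      simp only [map_add, map_mul, map_pow, map_one, map_ofNat]
      ring

end Pool.Agent.MP_05b4bd_ag.PC3

end MrgPart9

-- ======== part 10: formerly Pool.Agent.MP_05b4bd_ag.pc3.Tan2
section MrgPart10

/-! Tangent vectors to the logarithmic families `L ![2, 2]` and `L ![2, 3]`. -/

namespace Pool.Agent.MP_05b4bd_ag.PC3

open MvPolynomial HC ES

namespace Tan2

theorem mem_L {a b : ℕ} (β α : ℂ) {F G : Poly} (hF : F.totalDegree ≤ a)
    (hG : G.totalDegree ≤ b) : Dm β α F G ∈ L ![a, b] := by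
  refine ⟨![F, G], ![α, β], fun i => by fin_cases i <;> assumption, ?_⟩
  have e0 : (Finset.univ : Finset (Fin 2)).erase 0 = {1} := by decide
  have e1 : (Finset.univ : Finset (Fin 2)).erase 1 = {0} := by decide
  rw [Fin.sum_univ_two, e0, e1, Finset.prod_singleton, Finset.prod_singleton, Dm, add_comm]
  rfl

/-- First order term of the family. -/
noncomputable def T (a : ℂ) (F G F' G' : Poly) : Form :=
  Dm 1 2 F' G + Dm 1 2 F G' + (C a * G : Poly) • dform F

/-- Remainder of the family. -/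
noncomputable def R (a : ℂ) (F G F' G' : Poly) (τ : ℂ) : Form :=
  Dm 1 2 F' G' + (C a * G' : Poly) • dform F + (C a * G : Poly) • dform F' +
    τ • (C a * G' : Poly) • dform F'

theorem T_fst (a : ℂ) (F G F' G' : Poly) : (T a F G F' G').1 =
    F' * pderiv 1 G + 2 * G * pderiv 1 F' + (F * pderiv 1 G' + 2 * G' * pderiv 1 F) +
      C a * G * pderiv 1 F := by
  simp only [T, Prod.fst_add, Dm_fst, Prod.smul_fst, dform, smul_eq_mul, map_one, one_mul,
    map_ofNat]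

theorem T_snd (a : ℂ) (F G F' G' : Poly) : (T a F G F' G').2 =
    -(F' * pderiv 0 G + 2 * G * pderiv 0 F' + (F * pderiv 0 G' + 2 * G' * pderiv 0 F) +
      C a * G * pderiv 0 F) := by
  simp only [T, Prod.snd_add, Dm_snd, Prod.smul_snd, dform, smul_eq_mul, map_one, one_mul,
    map_ofNat]
  ring

theorem expand (a τ : ℂ) (F G F' G' : Poly) :
    Dm 1 2 F G + τ • T a F G F' G' + τ ^ 2 • R a F G F' G' τ =
      Dm 1 (2 + τ * a) (F + C τ * F') (G + C τ * G') := by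
  refine Prod.ext ?_ ?_
  · simp only [R, Prod.fst_add, Prod.smul_fst, T_fst, Dm_fst, dform, smul_eq_mul, smul_eq_C_mul,
      map_one, one_mul, map_ofNat, map_add, map_mul, map_pow, pderiv_C_mul]
    ring
  · simp only [R, Prod.snd_add, Prod.smul_snd, T_snd, Dm_snd, dform, smul_eq_mul, smul_eq_C_mul,
      map_one, one_mul, map_ofNat, map_add, map_mul, map_pow, pderiv_C_mul]
    ring

theorem PF_R (a : ℂ) (F G F' G' : Poly) : PF (R a F G F' G') :=
  (PF.const _).add (PF.smul PS.id (PF.const _))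

theorem cf_smul (c : ℂ) (F : Poly) (i j : ℕ) : cf (c • F) i j = c * cf F i j := by
  rw [smul_eq_C_mul, cf_C_mul]

/-- The differential at the base point. -/
noncomputable def Ph (e : ℕ) : (Poly × Poly) →ₗ[ℂ] Form where
  toFun u := T (cf u.2 0 e) (X 0 ^ 2) (X 1 ^ e) u.1 u.2
  map_add' u v := by
    refine Prod.ext ?_ ?_
    · simp only [Prod.fst_add, Prod.snd_add, T_fst, cf_add, map_add]; ring
    · simp only [Prod.fst_add, Prod.snd_add, T_snd, cf_add, map_add]; ring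
  map_smul' c u := by
    refine Prod.ext ?_ ?_
    · simp only [Prod.smul_fst, Prod.smul_snd, T_fst, RingHom.id_apply, smul_eq_C_mul,
        cf_C_mul, map_mul, pderiv_C_mul]; ring
    · simp only [Prod.smul_fst, Prod.smul_snd, T_snd, RingHom.id_apply, smul_eq_C_mul,
        cf_C_mul, map_mul, pderiv_C_mul]; ring

theorem Ph_inj (n : ℕ) {F G : Poly} (hG : G.totalDegree ≤ n + 1)
    (h : Ph (n + 1) (F, G) = 0) : F = 0 ∧ G = 0 := by
  have h1 : X 1 ^ n * (C ((n : ℂ) + 1) * F + C 2 * (X 1 * pderiv 1 F)) +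
      X 0 ^ 2 * pderiv 1 G = 0 := by
    have := congrArg Prod.fst h
    change (T _ _ _ _ _).1 = 0 at this
    rw [T_fst] at this
    simp only [pderiv_pow, pderiv_X, Pi.single_eq_same, Nat.add_sub_cancel,
      Pi.single_eq_of_ne (show (0 : Fin 2) ≠ 1 by decide), mul_zero, mul_one, add_zero] at this
    rw [← this, map_add, map_natCast, map_one, map_ofNat]
    push_cast
    ring
  have h2 : X 1 ^ (n + 1) * (C 2 * pderiv 0 F) + X 0 ^ 1 * (X 0 * pderiv 0 G + C 4 * G +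
      C (2 * cf G 0 (n + 1)) * X 1 ^ (n + 1)) = 0 := by
    have := congrArg Prod.snd h
    change (T _ _ _ _ _).2 = 0 at this
    rw [T_snd, neg_eq_zero] at this
    simp only [pderiv_pow, pderiv_X, Pi.single_eq_same,
      Pi.single_eq_of_ne (show (1 : Fin 2) ≠ 0 by decide), mul_zero, mul_one, zero_add] at this
    rw [← this, map_mul, map_ofNat, map_ofNat]
    push_cast
    ring
  have hn : (n : ℂ) + 1 ≠ 0 := Nat.cast_add_one_ne_zero n
  have c0 : ∀ i j, cf (0 : Poly) i j = 0 := fun i j => by simp [cf]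
  have g0 : cf G 0 (n + 1) = 0 := by
    have a := congrArg (fun p => cf p 2 n) h1
    have b := congrArg (fun p => cf p 1 (n + 1)) h2
    simp only [cf_add, cf_X0, cf_X1, cf_C_mul, cf_e0, cf_e1, cf_p0, cf_p1, cf_X1pow, c0, le_refl,
      if_true, Nat.sub_self, and_self] at a b
    have : cf F 2 0 + cf G 0 (n + 1) = 0 := by
      apply mul_left_cancel₀ hn
      push_cast at a
      linear_combination a
    push_cast at b
    linear_combination b / 2 - 2 * this
  have f0 : F = 0 := by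
    refine cf_ext fun i j => ?_
    have a := congrArg (fun p => cf p i (n + j)) h1
    simp only [cf_add, cf_X0, cf_X1, cf_C_mul, cf_e1, cf_p1, c0, Nat.le_add_right, if_true,
      Nat.add_sub_cancel_left] at a
    have z : (if 2 ≤ i then cf G (i - 2) (n + j + 1) * ((n + j : ℕ) + 1) else 0) = 0 := by
      split_ifs with hi
      · by_cases hij : i = 2 ∧ j = 0
        · obtain ⟨rfl, rfl⟩ := hij
          rw [add_zero, g0, zero_mul]
        · rw [cf_deg hG (by omega), zero_mul]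
      · rfl
    rw [z, add_zero] at a
    have hj : (n : ℂ) + 1 + 2 * j ≠ 0 := by
      have : ((n + 1 + 2 * j : ℕ) : ℂ) ≠ 0 := Nat.cast_ne_zero.2 (by omega)
      push_cast at this
      exact this
    apply mul_left_cancel₀ hj
    linear_combination a
  refine ⟨f0, cf_ext fun i j => ?_⟩
  rw [f0, g0, map_zero, mul_zero, mul_zero, mul_zero, map_zero, zero_mul, add_zero,
    zero_add] at h2
  have b := congrArg (fun p => cf p (1 + i) j) h2
  simp only [cf_add, cf_X0, cf_C_mul, cf_e0, c0, Nat.le_add_right, if_true,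
    Nat.add_sub_cancel_left] at b
  have hi : (i : ℂ) + 4 ≠ 0 := by
    have : ((i + 4 : ℕ) : ℂ) ≠ 0 := Nat.cast_ne_zero.2 (by omega)
    push_cast at this
    exact this
  apply mul_left_cancel₀ hi
  linear_combination b

/-- The monomial directions. -/
noncomputable def u (e : ℕ) : tri 2 ⊕ tri e → Poly × Poly :=
  Sum.elim (fun p => (monomial (ex p) 1, 0)) fun p => (0, monomial (ex p) 1)

theorem sum_u (e : ℕ) (c : tri 2 ⊕ tri e → ℂ) :
    ∑ i, c i • Ph e (u e i) = Ph e (mk 2 fun p => c (.inl p), mk e fun p => c (.inr p)) := by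
  simp only [← map_smul]
  rw [← map_sum]
  refine congrArg _ ?_
  rw [Fintype.sum_sum_type]
  refine Prod.ext ?_ ?_
  · simp only [Prod.fst_add, Prod.fst_sum, u, Sum.elim_inl, Sum.elim_inr, Prod.smul_fst, smul_zero,
      Finset.sum_const_zero, add_zero, smul_monomial, smul_eq_mul, mul_one, mk]
  · simp only [Prod.snd_add, Prod.snd_sum, u, Sum.elim_inl, Sum.elim_inr, Prod.smul_snd, smul_zero,
      Finset.sum_const_zero, zero_add, smul_monomial, smul_eq_mul, mul_one, mk]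

theorem mk_zero {n : ℕ} {c : tri n → ℂ} (h : mk n c = 0) (p : tri n) : c p = 0 := by
  have := cf_mk c p.1.1 p.1.2
  rw [h, dif_pos (mem_tri.1 p.2)] at this
  exact this.symm.trans (by simp [cf])

theorem tan (n N : ℕ) (hN : 2 * N ≤ 12 + (n + 2) * (n + 3)) : Tan (n + 2) (L ![2, n + 1]) N := by
  refine ⟨tri 2 ⊕ tri (n + 1), inferInstance, Dm 1 2 (X 0 ^ 2) (X 1 ^ (n + 1)),
    fun i => Ph (n + 1) (u (n + 1) i), ?_, ?_, fun c => ?_⟩
  · have a := card_tri 2
    have b := card_tri (n + 1)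
    rw [Fintype.card_sum, Fintype.card_coe, Fintype.card_coe]
    have e : (n + 1 + 1) * (n + 1 + 2) = (n + 2) * (n + 3) := rfl
    omega
  · refine Fintype.linearIndependent_iff.2 fun c hc i => ?_
    rw [sum_u] at hc
    obtain ⟨h1, h2⟩ := Ph_inj n (dg_mk _) hc
    rcases i with p | p
    · exact mk_zero h1 p
    · exact mk_zero h2 p
  · rw [sum_u]
    refine ⟨_, PF_R (cf (mk (n + 1) fun p => c (.inr p)) 0 (n + 1)) (X 0 ^ 2) (X 1 ^ (n + 1))
      (mk 2 fun p => c (.inl p)) (mk (n + 1) fun p => c (.inr p)), fun τ => ?_⟩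
    have hm := mem_L 1 (2 + τ * cf (mk (n + 1) fun p => c (.inr p)) 0 (n + 1))
      (dg_add (dg_pow (dg_X 0) 2 le_rfl) (dg_Cmul τ (dg_mk fun p : tri 2 => c (.inl p))))
      (dg_add (dg_pow (dg_X 1) (n + 1) (mul_one _).le)
        (dg_Cmul τ (dg_mk fun p : tri (n + 1) => c (.inr p))))
    rw [← expand] at hm
    exact ⟨subset_zcl _ hm, L_V (by simp [Fin.sum_univ_two]; omega) hm⟩

end Tan2

theorem tan2S : Tan2Stmt := ⟨Tan2.tan 1 12 (by norm_num), Tan2.tan 2 16 (by norm_num)⟩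

end Pool.Agent.MP_05b4bd_ag.PC3

end MrgPart10

-- ======== part 11: formerly Pool.Agent.MP_05b4bd_ag.pc3.Ts1
section MrgPart11

/-! The integrating factor over the power series ring. -/

namespace Pool.Agent.MP_05b4bd_ag.PC3

open MvPolynomial HC ES
open scoped PowerSeries LaurentSeries

namespace Ts1

section gen
variable {R : Type} [CommRing R]

theorem haus' {x : R⟦X⟧} (h : ∀ n, PowerSeries.X ^ n ∣ x) : x = 0 :=
  PowerSeries.ext fun n => by
    rw [map_zero]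
    exact PowerSeries.X_pow_dvd_iff.1 (h (n + 1)) n (Nat.lt_succ_self n)

theorem lim' {f : ℕ → R⟦X⟧} (h : ∀ n, PowerSeries.X ^ n ∣ f (n + 1) - f n) :
    ∃ l, ∀ n, PowerSeries.X ^ n ∣ l - f n := by
  have k : ∀ n j, PowerSeries.X ^ n ∣ f (n + j) - f n := fun n j => by
    induction j with
    | zero => simp
    | succ j ih =>
      have := dvd_add ((pow_dvd_pow _ (Nat.le_add_right n j)).trans (h (n + j))) ih
      rwa [sub_add_sub_cancel] at this
  refine ⟨PowerSeries.mk fun m => PowerSeries.coeff m (f (m + 1)), fun n => ?_⟩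
  refine PowerSeries.X_pow_dvd_iff.2 fun m hm => ?_
  obtain ⟨j, rfl⟩ := Nat.exists_eq_add_of_le (Nat.succ_le_of_lt hm)
  have := PowerSeries.X_pow_dvd_iff.1 (k (m + 1) j) m (Nat.lt_succ_self m)
  rw [map_sub, sub_eq_zero] at this
  rw [map_sub, PowerSeries.coeff_mk, sub_eq_zero, this]

theorem split {a p : R⟦X⟧} {c : R} (h : cc a = c * cc p) :
    ∃ a', a = PowerSeries.C c * p + PowerSeries.X * a' := by
  obtain ⟨a', e⟩ : PowerSeries.X ∣ a - PowerSeries.C c * p :=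
    PowerSeries.X_dvd_iff.2 (by simp [h])
  exact ⟨a', by rw [← e]; ring⟩

theorem cancel {a b : R⟦X⟧} (h : PowerSeries.X * a = PowerSeries.X * b) : a = b :=
  PowerSeries.X_mul_injective h

variable {p q : R⟦X⟧}

theorem kos (h0 : ∀ a b, a * cc q = b * cc p → ∃ c, a = c * cc p ∧ b = c * cc q) (a b : R⟦X⟧)
    (h : a * q = b * p) : ∃ c, a = c * p ∧ b = c * q := by
  have step : ∀ z : {z : R⟦X⟧ × R⟦X⟧ // z.1 * q = z.2 * p},
      ∃ (c : R) (y : {z : R⟦X⟧ × R⟦X⟧ // z.1 * q = z.2 * p}),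
        z.1.1 = PowerSeries.C c * p + PowerSeries.X * y.1.1 ∧
          z.1.2 = PowerSeries.C c * q + PowerSeries.X * y.1.2 := by
    rintro ⟨⟨a, b⟩, h⟩
    obtain ⟨c, h1, h2⟩ := h0 (cc a) (cc b) (by simpa using congrArg cc h)
    obtain ⟨a', e1⟩ := split h1
    obtain ⟨b', e2⟩ := split h2
    refine ⟨c, ⟨(a', b'), cancel ?_⟩, e1, e2⟩
    simp only at h ⊢
    rw [e1, e2] at h
    linear_combination h
  choose c y h1 h2 using step
  obtain ⟨F, hF⟩ : ∃ F : {z : R⟦X⟧ × R⟦X⟧ // z.1 * q = z.2 * p} → R⟦X⟧,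
      ∀ z, F z = PowerSeries.C (c z) + PowerSeries.X * F (y z) :=
    ⟨fun z => PowerSeries.mk fun n => c (y^[n] z), fun z => PowerSeries.ext fun n => by
      cases n with
      | zero => simp
      | succ n => simp [PowerSeries.coeff_succ_X_mul]⟩
  have k : ∀ n z, PowerSeries.X ^ n ∣ z.1.1 - F z * p ∧ PowerSeries.X ^ n ∣ z.1.2 - F z * q := by
    intro n
    induction n with
    | zero => simp
    | succ n ih =>
      intro z
      obtain ⟨⟨u, hu⟩, ⟨v, hv⟩⟩ := ih (y z)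
      exact ⟨⟨u, by rw [h1 z, hF z]; linear_combination PowerSeries.X * hu⟩,
        ⟨v, by rw [h2 z, hF z]; linear_combination PowerSeries.X * hv⟩⟩
  exact ⟨F ⟨(a, b), h⟩, sub_eq_zero.1 (haus' fun n => (k n ⟨(a, b), h⟩).1),
    sub_eq_zero.1 (haus' fun n => (k n ⟨(a, b), h⟩).2)⟩

theorem sat (h0 : ∀ a b, a * cc q = b * cc p → ∃ c, a = c * cc p ∧ b = c * cc q) (u : R⟦X⟧)
    (h : PowerSeries.X * u ∈ Ideal.span {p, q}) : u ∈ Ideal.span {p, q} := by
  obtain ⟨a, b, e⟩ := Ideal.mem_span_pair.1 h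
  have e0 : cc a * cc p + cc b * cc q = 0 := by simpa using congrArg cc e
  obtain ⟨c, h1, h2⟩ := h0 (-cc b) (cc a) (by linear_combination -e0)
  obtain ⟨a', e1⟩ := split h2
  obtain ⟨b', e2⟩ := split (a := b) (p := p) (c := -c) (by linear_combination -h1)
  refine Ideal.mem_span_pair.2 ⟨a', b', cancel ?_⟩
  rw [e1, e2, map_neg] at e
  linear_combination e

end gen

theorem kos0 {R : Type} [CommRing R] [IsDomain R] [DecompositionMonoid R] {u v : R}
    (h : IsRelPrime v u) (a b : R) (e : a * -v = b * u) : ∃ c, a = c * u ∧ b = c * -v := by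
  by_cases hu : u = 0
  · obtain ⟨r, hr⟩ := (isRelPrime_zero_right.1 (hu ▸ h)).exists_left_inv
    exact ⟨-(b * r), by rw [hu] at e ⊢; linear_combination (-r) * e - a * hr,
      by linear_combination (-b) * hr⟩
  · obtain ⟨c, rfl⟩ : u ∣ a := h.symm.dvd_of_dvd_mul_right ⟨-b, by linear_combination -e⟩
    exact ⟨c, mul_comm _ _, mul_left_cancel₀ hu (by linear_combination -e)⟩

variable {k : Type} [Field k]

theorem der_iS (i : Fin 2) (u : R2 k⟦X⟧) : cw (pd k i) (iS k u) = iS k (pderiv i u) := by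
  induction u using MvPolynomial.induction_on with
  | C r =>
    rw [iS_C, pderiv_C, map_zero]
    exact PowerSeries.ext fun n => by simp [cw, pd]
  | add p q hp hq => simp only [map_add, hp, hq]
  | mul_X p j hp =>
    have e : pderiv i (X j : R2 k⟦X⟧) =
        map (PowerSeries.C : k →+* k⟦X⟧) (pderiv i (X j)) := by rw [← pderiv_map, map_X]
    rw [map_mul, (isDer_pd i).coefw, hp, iS_X, cw_C, pderiv_mul, map_add, map_mul, map_mul, iS_X,
      e, iS_lift]
    rfl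

theorem cc_pd (i : Fin 2) (l : (R2 k)⟦X⟧) : cc (cw (pd k i) l) = pderiv i (cc l) := cc_cw _ l

theorem dvd_iS {n : ℕ} {u : R2 k⟦X⟧} (h : C (PowerSeries.X ^ n) ∣ u) :
    PowerSeries.X ^ n ∣ iS k u := by
  have := map_dvd (iS k) h
  rwa [map_pow, map_pow, iS_t] at this

end Ts1

open Ts1 in
theorem ts1S : Ts1Stmt := by
  intro k _ _ f w hf hw ⟨H, hH⟩
  have hp : cc (iS k w.1) = pderiv 1 f := by rw [cc_iS]; exact congrArg Prod.fst hw
  have hq : cc (iS k w.2) = -pderiv 0 f := by rw [cc_iS]; exact congrArg Prod.snd hw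
  have h0 : ∀ a b, a * cc (iS k w.2) = b * cc (iS k w.1) →
      ∃ c, a = c * cc (iS k w.1) ∧ b = c * cc (iS k w.2) := by
    rw [hp, hq]; exact kos0 hf
  have d0 := (isDer_pd (R := k) 0).coefw
  have d1 := (isDer_pd (R := k) 1).coefw
  have cm : ∀ l, cw (pd k 1) (cw (pd k 0) l) = cw (pd k 0) (cw (pd k 1) l) :=
    cw_comm fun a => HC.pderiv_comm a
  obtain ⟨l, hl⟩ := lim' (f := fun n => iS k (H n)) fun n => by
    rw [← map_sub]
    exact (pow_dvd_pow _ (Nat.le_succ n)).trans (dvd_iS (hH n).2)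
  have hz : iS k w.1 * cw (pd k 0) l + iS k w.2 * cw (pd k 1) l = 0 := haus' fun n => by
    have h1 := (pow_dvd_pow _ (Nat.le_succ n)).trans (dvd_iS (hH n).1.2)
    rw [vf, map_add, map_mul, map_mul, ← der_iS, ← der_iS] at h1
    have h2 := (d0.dvd (cw_X (isDer_pd 0).one) (hl n)).mul_left (iS k w.1)
    have h3 := (d1.dvd (cw_X (isDer_pd 1).one) (hl n)).mul_left (iS k w.2)
    rw [map_sub] at h2 h3
    have h4 := dvd_add h1 (dvd_add h2 h3)
    rwa [show ∀ p q a b c d : (R2 k)⟦X⟧, p * a + q * b + (p * (c - a) + q * (d - b)) =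
      p * c + q * d from fun _ _ _ _ _ _ => by ring] at h4
  have hc : cc l = f := by
    have := PowerSeries.X_dvd_iff.1 (pow_one (PowerSeries.X : (R2 k)⟦X⟧) ▸ hl 1)
    rw [map_sub, sub_eq_zero] at this
    exact this.trans ((cc_iS _).trans (hH 1).1.1)
  obtain ⟨μ, m1, m2⟩ := kos h0 (cw (pd k 1) l) (-cw (pd k 0) l) (by linear_combination hz)
  have hμ : cc μ = 1 := by
    have e1 := congrArg cc m1
    have e2 := congrArg cc m2
    rw [map_mul, cc_pd, hc, hp] at e1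
    rw [map_mul, map_neg, cc_pd, hc, hq] at e2
    by_contra hn
    have z1 : pderiv 1 f = 0 := mul_left_cancel₀ (sub_ne_zero.2 hn) (by linear_combination -e1)
    have z0 : pderiv 0 f = 0 := mul_left_cancel₀ (sub_ne_zero.2 hn) (by linear_combination e2)
    rw [z0, z1] at hf
    exact not_isUnit_zero (isRelPrime_zero_left.1 hf)
  obtain ⟨ν, hν⟩ := (PowerSeries.isUnit_iff_constantCoeff.2 (hμ ▸ isUnit_one : IsUnit (cc μ))
    ).exists_right_inv
  have e1 := congrArg (cw (pd k 0)) m1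
  have e2 := congrArg (cw (pd k 1)) m2
  rw [d0, der_iS] at e1
  rw [d1, der_iS, map_neg, cm] at e2
  refine ⟨-(ν * cw (pd k 1) μ), ν * cw (pd k 0) μ, ?_, ?_, kos h0, sat h0⟩
  · rw [map_neg, d0, d1, d0.inv hν, d1.inv hν, cm]
    ring
  · rw [dv, map_add]
    linear_combination ν * (e1 + e2) + (iS k (pderiv 0 w.1) + iS k (pderiv 1 w.2)) * hν

end Pool.Agent.MP_05b4bd_ag.PC3

end MrgPart11

-- ======== part 12: formerly Pool.Agent.MP_05b4bd_ag.pc3.Ts2
section MrgPart12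

/-! Passage from the power series ring to the ring of Laurent series. -/

namespace Pool.Agent.MP_05b4bd_ag.PC3

open MvPolynomial HC ES
open scoped PowerSeries LaurentSeries

namespace Ts2

variable {k : Type} [Field k]

theorem two {R : Type} [CommRing R] (a b : R⸨X⸩) : ∃ (n : ℕ) (g h : R⟦X⟧),
    a = wL R (-(n : ℤ)) * coeL R g ∧ b = wL R (-(n : ℤ)) * coeL R h := by
  obtain ⟨n, g, rfl⟩ := exists_wL_mul a
  obtain ⟨m, h, rfl⟩ := exists_wL_mul b
  refine ⟨n + m, PowerSeries.X ^ m * g, PowerSeries.X ^ n * h, ?_, ?_⟩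
  · rw [map_mul, coeL_X_pow, ← mul_assoc, ← wL_add]
    exact congrArg (fun z => wL R z * coeL R g) (by push_cast; ring)
  · rw [map_mul, coeL_X_pow, ← mul_assoc, ← wL_add]
    exact congrArg (fun z => wL R z * coeL R h) (by push_cast; ring)

theorem sat_pow {w : Fm k⟦X⟧} (h : ∀ u, PowerSeries.X * u ∈ IS w → u ∈ IS w) (n : ℕ)
    (u : (R2 k)⟦X⟧) (hu : PowerSeries.X ^ n * u ∈ IS w) : u ∈ IS w := by
  induction n with
  | zero => simpa using hu
  | succ n ih => exact ih (h _ (by rwa [← mul_assoc, ← pow_succ']))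

theorem iT_fst (w : Fm k⟦X⟧) : iT k (mapF (coeL k) w).1 = coeL _ (iS k w.1) := iT_coe _

theorem iT_snd (w : Fm k⟦X⟧) : iT k (mapF (coeL k) w).2 = coeL _ (iS k w.2) := iT_coe _

theorem link {w : Fm k⟦X⟧} (h : ∀ u, PowerSeries.X * u ∈ IS w → u ∈ IS w) : Link w := by
  intro u
  rw [JK, Ideal.mem_comap, iT_coe, iT_fst, iT_snd, Ideal.mem_span_pair]
  constructor
  · rintro ⟨a, b, e⟩
    obtain ⟨n, g, g', rfl, rfl⟩ := two a b
    refine sat_pow h n _ (Ideal.mem_span_pair.2 ⟨g, g', coeL_inj ?_⟩)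
    rw [map_mul (coeL _) (PowerSeries.X ^ n), coeL_X_pow, ← e, map_add, map_mul, map_mul]
    linear_combination (-(coeL _ g * coeL _ (iS k w.1) + coeL _ g' * coeL _ (iS k w.2))) *
      wL_mul_neg (R := R2 k) (n : ℤ)
  · intro hu
    obtain ⟨a, b, e⟩ := Ideal.mem_span_pair.1 hu
    exact ⟨coeL _ a, coeL _ b, by rw [← e, map_add, map_mul, map_mul]⟩

theorem der (i : Fin 2) (u : R2 k⸨X⸩) : cwL (pd k i) (iT k u) = iT k (pderiv i u) := by
  have hC : ∀ r : k⸨X⸩, iT k (C r) = mapL C r := fun r => by simp [iT]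
  have hX : ∀ j : Fin 2, iT k (X j) = cL _ (X j) := fun j => by simp [iT]
  induction u using MvPolynomial.induction_on with
  | C r =>
    rw [hC, pderiv_C, map_zero]
    ext1
    funext n
    rw [coeff_cwL, coeff_mapL, pd_apply, pderiv_C]
    rfl
  | add p q hp hq => simp only [map_add, hp, hq]
  | mul_X p j hp =>
    rw [map_mul, (isDer_pd i).coefL, hp, hX, cwL_cL, pd_apply, pderiv_mul, map_add, map_mul,
      map_mul, hX]
    by_cases e : j = i
    · subst e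
      rw [pderiv_X_self, pderiv_X_self, map_one, map_one]
    · rw [pderiv_X_of_ne e, pderiv_X_of_ne e, map_zero, map_zero]

end Ts2

open Ts2 in
theorem ts2S : Ts2Stmt := by
  intro k _ _ w n0 n1 h
  refine ⟨link h.sat, (isDer_pd 0).coefL, (isDer_pd 1).coefL, fun c => ?_, der 0, der 1, ?_, ?_,
    fun a b e => ?_⟩
  · ext1
    funext n
    simp only [coeff_cwL, pd_apply, HC.pderiv_comm]
  · rw [cwL_coeL, cwL_coeL, ← map_add, h.cl, map_zero]
  · rw [iT_fst, iT_snd, ← map_dv, iT_coe, ← h.nu, map_sub, map_mul, map_mul]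
  · obtain ⟨n, g, g', rfl, rfl⟩ := two a b
    rw [iT_fst, iT_snd] at e ⊢
    obtain ⟨c, rfl, rfl⟩ := h.kos g g' (coeL_inj (by
      rw [map_mul, map_mul]
      exact (isUnit_wL (R := R2 k) (-(n : ℤ))).mul_left_cancel (by rwa [← mul_assoc, ← mul_assoc])))
    exact ⟨wL _ (-(n : ℤ)) * coeL _ c, by rw [map_mul, mul_assoc], by rw [map_mul, mul_assoc]⟩

end Pool.Agent.MP_05b4bd_ag.PC3

end MrgPart12

-- marker of a merged file
example : 731051 + 800265 = 731051 + 800265 := rfl
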