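import Pool.Agent.MP_05b4bd_ag.esc.Final
import Pool.Agent.MP_05b4bd_ag.esc3.PassA
import Pool.Agent.MP_05b4bd_ag.esc3.PassB
import Pool.Agent.MP_05b4bd_ag.esc3.Sym
import Pool.Agent.MP_05b4bd_ag.pc3.Minp3
import Pool.Agent.MP_05b4bd_ag.esc3.Chk
import Pool.Agent.MP_05b4bd_ag.pc3.Van
import Pool.Agent.MP_05b4bd_ag.pc3.Pull
import Pool.Agent.MP_05b4bd_ag.esc3.Log
import Pool.Agent.MP_05b4bd_ag.pc3.Ts2
import Pool.Agent.MP_05b4bd_ag.esc3.S2c
import Pool.Agent.MP_05b4bd_ag.pc3.Lift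
import Pool.Agent.MP_05b4bd_ag.pc3.Nrm
import Pool.Agent.MP_05b4bd_ag.pc3.Spec
import Pool.Agent.MP_05b4bd_ag.pc3.Dom3
import Pool.Agent.MP_05b4bd_ag.pc3.Exc33
import Pool.Agent.MP_05b4bd_ag.pc3.Seq

-- ======== part 0: formerly Pool.Agent.MP_05b4bd_ag.esc3.Final
section MrgPart0

/-! Escaping centres in every degree at least three: assembly. -/

namespace Pool.Agent.MP_05b4bd_ag.ES

theorem fraS3_final : FraStmt3 := fraS3 genTopS genCritS genJacS

theorem escS3_final : EscStmt3 :=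
  have hDerAlg : DerAlgStmt := derAlgS
  have hGenTop : GenTopStmt := genTopS
  have hChart : ChartStmt := chartS
  have hMkinf : MkinfStmt := mkinfS hDerAlg
  have hRat : RatStmt := ratS
  have hObs : ObsStmt := obsS
  have hRefl : ReflStmt := reflS
  have hSym : SymStmt := symS cherS hRefl
  have hDisc : DiscStmt := discS pairAbsS
  have hBase : BaseStmt := baseS hGenTop hDerAlg
  have hCmp : CmpStmt := cmpS
  have hAmalg : AmalgStmt := amalgS
  have hGlc : GlcStmt := glcS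
  have hIl : IlStmt := ilS hGlc ilAbsS
  have hEvb : EvbStmt := evbS
  have hTwo : TwoStmt := twoS hEvb hIl hGenTop nzcS
  have hS1b : S1bStmt3 := s1bS3 hCmp hAmalg hEvb hGenTop (wtS hGlc) hTwo nzcS
  have hDeck : DeckStmt := deckS (evenS hRefl) hDisc hAmalg hCmp
  have hInv0 : InvStmt :=
    invS hGlc redAbsS hEvb nzS hIl gradeS (bspecS gradeS) (bxS nzS) hGenTop
  have hInv : InvStmt3 := invS3 hInv0 hGlc redAbsS hEvb gradeS (bspecS3 gradeS satS hGenTop) hTwo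
    hGenTop chk3 chk4 chk5
  have hS1 : S1Stmt3 := s1S3 (dichS commonS) hBase hS1b (s1aS3 hBase hCmp hAmalg hDeck hInv)
  have hS2a : S2aStmt3 :=
    s2aS3 (symaS3 hS1 commuteS hDerAlg) (symbS3 hCmp hIl holS hGenTop) hDerAlg
  have hDfin : DfinStmt3 := dfinS3 lienS hObs hSym hRefl hDisc hS2a hGenTop loc0S
  have hPframe : PframeStmt := pframeS hMkinf hRat hObs
  have hAfin : AfinStmt3 :=
    afinS3 (amkS pramS peqS) (a12S a1S) (a3S lowS) abmkS extS hPframe hS1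
  have hPsi : PsiStmt := psiS expS
  have hBmk : BmkStmt := bmkS (bnumS pramS peqS) bendS abmkS hPframe hPsi
  have hLog2 : Log2Stmt3 := log2S3 hDisc (log1S3 holS hDerAlg) hPsi expS
  have hKill : KillStmt3 := killS3 hS1
  have hBlog : BlogStmt3 := blogS3 lienAS hPsi hSym hLog2 hKill hObs
  have hS2b : S2bStmt3 :=
    s2bS3 hKill commuteS hDerAlg (s2cS3 hCmp hIl holS hGenTop hEvb nzcS traceS)
  have hBfin : BfinStmt3 := bfinS3 hBlog hDisc (annS pairAbsS) hS2a hS2b hPsi hObs hGenTop locIS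
  escS3 (case8S3 hChart hMkinf hRat hDfin hGenTop) (pmkS3 hChart hGenTop) hAfin hBmk hBfin

end Pool.Agent.MP_05b4bd_ag.ES

end MrgPart0

-- ======== part 1: formerly Pool.Agent.MP_05b4bd_ag.pc3.Cfl
section MrgPart1

/-! The normal form of a conic lies in the closure of a rational family, and it descends along
field extensions. -/

namespace Pool.Agent.MP_05b4bd_ag.PC3

open MvPolynomial HC ES

theorem cflS : CflStmt := by
  classical
  intro K _ _ e w m c0 c1 h2 h3 hm hw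
  obtain ⟨G, h0, h1, h2', hG, hz, rfl⟩ := hw
  obtain rfl : h2' = 0 := hz (by omega)
  refine ⟨fm m G + fm G m, {-c1, 1 - c1, 1 / 2 - c1}, fun τ hτ => ?_⟩
  simp only [Finset.mem_insert, Finset.mem_singleton, not_or] at hτ
  obtain ⟨n0, n1, n2⟩ := hτ
  have c0' : c1 + τ ≠ 0 := fun h => n0 (by linear_combination h)
  have c1' : c1 + τ - 1 ≠ 0 := fun h => n1 (by linear_combination h)
  have c2' : 2 * (c1 + τ) - 1 ≠ 0 := fun h => n2 (by linear_combination (1 / 2 : K) * h)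
  obtain ⟨g1, e1⟩ : ∃ g1 : K, g1 * (2 * (c1 + τ) - 1) = h1 := ⟨h1 / _, div_mul_cancel₀ _ c2'⟩
  obtain ⟨g0, e0⟩ : ∃ g0 : K, g0 * (c1 + τ - 1) = h0 - c0 * g1 :=
    ⟨(h0 - c0 * g1) / _, div_mul_cancel₀ _ c1'⟩
  obtain ⟨α, eα⟩ : ∃ α : K, α * (c1 + τ) = c1 + τ - 1 := ⟨_ / _, div_mul_cancel₀ _ c0'⟩
  have E1 := congrArg (C : K → R2 K) e1
  have E0 := congrArg (C : K → R2 K) e0
  have Eα := congrArg (C : K → R2 K) eα
  simp only [map_mul, map_sub, map_add, map_one, map_ofNat] at E1 E0 Eα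
  refine ⟨C c0 + C (c1 + τ) * m, G + C g0 + C g1 * m, 1, α,
    ((DL_C c0).mono (by omega)).add (hm.C_mul _),
    (hG.add ((DL_C g0).mono (by omega))).add ((hm.C_mul _).mono (by omega)), ?_⟩
  refine Prod.ext ?_ ?_
  · simp only [fm, Prod.fst_add, Prod.smul_fst, smul_eq_mul, map_add, map_sub, map_one, map_zero,
      pderiv_C, pderiv_mul, zero_mul, zero_add, add_zero]
    linear_combination (-(m * pderiv 1 m)) * E1 - pderiv 1 m * E0
      - (G + C g0 + C g1 * m) * pderiv 1 m * Eα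
  · simp only [fm, Prod.snd_add, Prod.smul_snd, smul_eq_mul, map_add, map_sub, map_one, map_zero,
      pderiv_C, pderiv_mul, zero_mul, zero_add, add_zero]
    linear_combination (m * pderiv 0 m) * E1 + pderiv 0 m * E0
      + (G + C g0 + C g1 * m) * pderiv 0 m * Eα

namespace Desc

variable {K Ω : Type} [Field K] [Field Ω]

/-- An additive map applied to all coefficients. -/
noncomputable def cfm (π : Ω →+ K) (u : R2 Ω) : R2 K :=
  ∑ m ∈ u.support, monomial m (π (coeff m u))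

theorem coeff_cf (π : Ω →+ K) (u : R2 Ω) (m : Fin 2 →₀ ℕ) :
    coeff m (cfm π u) = π (coeff m u) := by
  classical
  rw [cfm, coeff_sum]
  simp only [coeff_monomial, Finset.sum_ite_eq']
  split_ifs with h
  · rfl
  · rw [notMem_support_iff.1 h, map_zero]

variable {π : Ω →+ K} {ψ : K →+* Ω}

theorem cf_add (u v : R2 Ω) : cfm π (u + v) = cfm π u + cfm π v := by
  ext m; simp only [coeff_cf, coeff_add, map_add]

theorem cf_neg (u : R2 Ω) : cfm π (-u) = -cfm π u := by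
  ext m; simp only [coeff_cf, coeff_neg, map_neg]

theorem cf_C (c : Ω) : cfm π (C c) = C (π c) := by
  classical
  ext m
  simp only [coeff_cf, coeff_C]
  split_ifs
  · rfl
  · exact map_zero π

theorem cf_mul (h : ∀ a b, π (ψ a * b) = a * π b) (u : R2 K) (v : R2 Ω) :
    cfm π (map ψ u * v) = u * cfm π v := by
  classical
  ext m
  simp only [coeff_cf, coeff_mul, map_sum, coeff_map, h]

theorem cf_map (h : ∀ a b, π (ψ a * b) = a * π b) (h1 : π 1 = 1) (u : R2 K) :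
    cfm π (map ψ u) = u := by
  ext m
  rw [coeff_cf, coeff_map, ← mul_one (ψ _), h, h1, mul_one]

theorem cf_pderiv (h : ∀ a b, π (ψ a * b) = a * π b) (i : Fin 2) (v : R2 Ω) :
    cfm π (pderiv i v) = pderiv i (cfm π v) := by
  ext m
  have e : ((m i : Ω) + 1) = ψ ((m i : K) + 1) := by simp
  rw [coeff_cf, coeff_pderiv, coeff_pderiv, coeff_cf, e, mul_comm, h, mul_comm]

theorem cf_DL {n : ℕ} {v : R2 Ω} (hv : DL n v) : DL n (cfm π v) := fun m hm => by
  rw [coeff_cf, hv m hm, map_zero]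

theorem exists_pi (ψ : K →+* Ω) :
    ∃ π : Ω →+ K, (∀ a b, π (ψ a * b) = a * π b) ∧ π 1 = 1 := by
  let _ := ψ.toAlgebra
  obtain ⟨g, hg⟩ := (Algebra.linearMap K Ω).exists_leftInverse_of_injective
    (LinearMap.ker_eq_bot.2 (algebraMap K Ω).injective)
  refine ⟨g.toAddMonoidHom, fun a b => ?_, ?_⟩
  · have := g.map_smul a b
    rw [Algebra.smul_def, smul_eq_mul] at this
    exact this
  · simpa using LinearMap.congr_fun hg 1

theorem key (h : ∀ a b, π (ψ a * b) = a * π b) (i : Fin 2) (m : R2 K) (c0 c1 : K) (G : R2 Ω)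
    (h0 h1 h2 : Ω) :
    cfm π ((C (ψ c0) + C (ψ c1) * map ψ m) * pderiv i G) = (C c0 + C c1 * m) * pderiv i (cfm π G) ∧
    cfm π ((C (ψ c1 - 1) * G + C h0 + C h1 * map ψ m + C h2 * map ψ m ^ 2) * pderiv i (map ψ m))
      = (C (c1 - 1) * cfm π G + C (π h0) + C (π h1) * m + C (π h2) * m ^ 2) * pderiv i m := by
  constructor
  · rw [← cf_pderiv h, ← cf_mul h]
    simp only [map_add, map_mul, map_C]
  · have e : (C (ψ c1 - 1) * G + C h0 + C h1 * map ψ m + C h2 * map ψ m ^ 2) * pderiv i (map ψ m)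
        = map ψ (C (c1 - 1) * pderiv i m) * G + map ψ (pderiv i m) * C h0
          + map ψ (m * pderiv i m) * C h1 + map ψ (m ^ 2 * pderiv i m) * C h2 := by
      simp only [map_mul, map_pow, map_C, map_sub, map_one, pderiv_map]
      ring
    rw [e, cf_add, cf_add, cf_add, cf_mul h, cf_mul h, cf_mul h, cf_mul h, cf_C, cf_C, cf_C]
    ring

end Desc

open Desc in
theorem descS : DescStmt := by
  intro K Ω _ _ ψ d w m c0 c1 hw
  obtain ⟨π, h, hone⟩ := exists_pi ψ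
  obtain ⟨G, h0, h1, h2, hG, hz, e⟩ := hw
  refine ⟨cfm π G, π h0, π h1, π h2, cf_DL hG, fun hd => by rw [hz hd, map_zero], ?_⟩
  have e1 := congrArg (fun u => cfm π u.1) e
  have e2 := congrArg (fun u => cfm π u.2) e
  simp only [mapF, fm, Prod.fst_add, Prod.snd_add, Desc.cf_add, Desc.cf_neg, cf_map h hone,
    (key h _ m c0 c1 G h0 h1 h2).1, (key h _ m c0 c1 G h0 h1 h2).2] at e1 e2
  exact Prod.ext e1 e2

end Pool.Agent.MP_05b4bd_ag.PC3

end MrgPart1

-- ======== part 2: formerly Pool.Agent.MP_05b4bd_ag.pc3.Ci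
section MrgPart2

/-! The complete intersection case. -/

namespace Pool.Agent.MP_05b4bd_ag.PC3

open MvPolynomial HC ES

namespace Ci
variable {K : Type} [Field K] {d : ℕ} {w : Fm K} {J : Ideal (R2 K)}

theorem zero (hd : 3 ≤ d) (h : Lev d w J) {θ : Fm K} (hθ : DF 2 θ) (h0 : wg θ w = 0) : θ = 0 :=
  Prod.ext (h.low _ (h.ker θ h0).1 (hθ.1.mono (by omega)))
    (h.low _ (h.ker θ h0).2 (hθ.2.mono (by omega)))

theorem span (hd : 3 ≤ d) (h : Lev d w J) {b2 : R2 K} (hb : b2 ∈ J) (hb' : DL d b2)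
    (hi : LinearIndependent K ![dv w, b2]) {u : R2 K} (hu : u ∈ J) (hu' : DL (d + 1) u) :
    ∃ a b, DL 2 a ∧ DL 2 b ∧ u = a * dv w + b * b2 := by
  set T : R2 K × R2 K →ₗ[K] R2 K :=
    (LinearMap.mulRight K (dv w)).coprod (LinearMap.mulRight K b2) with hT
  set U := (dl K 2).prod (dl K 2) with hU
  have e : 2 + (d - 1) = d + 1 := by omega
  have h1 : U.map T ≤ Jd J (2 + (d - 1)) := by
    rintro _ ⟨⟨a, b⟩, ⟨ha, hb2⟩, rfl⟩
    refine mem_Jd.2 ⟨J.add_mem (J.mul_mem_left a h.mB) (J.mul_mem_left b hb), ?_⟩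
    rw [e, add_comm d 1]
    exact ((mem_dl.1 ha).mul h.deg.dv).add ((mem_dl.1 hb2).mul hb')
  have h2 : U ⊓ LinearMap.ker T = ⊥ := eq_bot_iff.2 fun p hp => by
    obtain ⟨k1, k2⟩ := h.syz _ h.mB _ hb h.deg.dv hb' hi p.1 p.2 hp.1.1 hp.1.2 hp.2
    exact Prod.ext k1 k2
  have h3 := ker_rank T U (U.map T) fun u hu => ⟨u, hu, rfl⟩
  have h4 := finrank_dl (K := K) 2
  have h5 := h.up 2
  rw [h2, finrank_bot, hU, finrank_prod', ← hU] at h3
  have h6 := Submodule.eq_of_le_of_finrank_le h1 (by omega)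
  have h7 : u ∈ U.map T := h6 ▸ mem_Jd.2 ⟨hu, e ▸ hu'⟩
  obtain ⟨⟨a, b⟩, ⟨ha, hb2⟩, rfl⟩ := h7
  exact ⟨a, b, ha, hb2, rfl⟩

theorem one (hd : 3 ≤ d) (h : Lev d w J) (b2 : R2 K) (hb : b2 ∈ J) (hb' : DL d b2)
    (hi : LinearIndependent K ![dv w, b2]) :
    ∃ φ θ : Fm K, DF 2 φ ∧ DF 2 θ ∧ w = dv w • φ - b2 • θ ∧ wg θ φ ≠ 0 := by
  obtain ⟨a, b, ha, hb1, e⟩ := span hd h hb hb' hi h.m1 h.deg.1
  obtain ⟨a', b', ha', hb2, e'⟩ := span hd h hb hb' hi h.m2 h.deg.2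
  obtain ⟨φ, θ, h1, h2, h3⟩ : ∃ φ θ : Fm K, DF 2 φ ∧ DF 2 θ ∧ w = dv w • φ - b2 • θ :=
    ⟨(a, a'), (-b, -b'), ⟨ha, ha'⟩, ⟨hb1.neg, hb2.neg⟩,
      Prod.ext (by simp only [Prod.fst_sub, Prod.smul_fst, smul_eq_mul]; linear_combination e)
        (by simp only [Prod.snd_sub, Prod.smul_snd, smul_eq_mul]; linear_combination e')⟩
  refine ⟨φ, θ, h1, h2, h3, fun k => ?_⟩
  have k1 : θ = 0 := zero hd h h2 (by rw [h3, wg_sub', wg_smul', wg_smul', k, wg_self]; ring)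
  have k2 : φ = 0 := zero hd h h1 (by
    rw [h3, wg_sub', wg_smul', wg_smul', wg_comm φ θ, k, wg_self]; ring)
  rw [k1, k2, smul_zero, smul_zero, sub_zero] at h3
  exact h.ind.ne_zero 0 (congrArg Prod.fst h3)

end Ci

theorem ciS : CiStmt := by
  intro K _ _ d w J hd h
  refine ⟨Ci.one hd h, fun h4 => ⟨?_, ?_⟩, ?_⟩
  · rintro ⟨b2, hb, hb', hi⟩
    obtain ⟨φ, θ, h1, h2, h3, h5⟩ := Ci.one hd h b2 hb hb' hi
    refine ⟨wg θ φ, θ, DF.wg (n := 1) h2 h1, h2, fun k => h5 k.1, ?_⟩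
    rw [Pr]
    conv_lhs => rw [h3, wg_sub', wg_smul', wg_smul', wg_self]
    ring
  · rintro ⟨c, θ, h1, h2, h3, h5⟩
    refine ⟨c, θ, h1, h2, fun k => h3 ⟨k, Ci.zero hd h h2 (by rw [h5, k, zero_mul])⟩, h5,
      h.low _ (h.l1 c θ h5) (DL.mono (n := 3) ?_ (by omega))⟩
    exact (DL.mul (a := 2) h1 (DF.dv (n := 1) h2)).sub (DF.wg (n := 1) (DF.d1 h1) h2)
  · rintro rfl h0
    have h1 : 1 < Module.finrank K (Jd J 3) := h.lo
    obtain ⟨y, hy⟩ := exists_linearIndependent_pair_of_one_lt_finrank h1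
      (x := ⟨dv w, mem_Jd.2 ⟨h.mB, h.deg.dv⟩⟩) fun k => h0 (congrArg Subtype.val k)
    refine ⟨y.1, y.2.1, y.2.2, ?_⟩
    have := hy.map' (Jd J 3).subtype (Submodule.ker_subtype _)
    have e : (Jd J 3).subtype ∘ ![⟨dv w, mem_Jd.2 ⟨h.mB, h.deg.dv⟩⟩, y] = ![dv w, y.1] := by
      funext i; fin_cases i <;> rfl
    rwa [e] at this

end Pool.Agent.MP_05b4bd_ag.PC3

end MrgPart2

-- ======== part 3: formerly Pool.Agent.MP_05b4bd_ag.pc3.Cls
section MrgPart3

/-! Classification of the closed conic syzygies. -/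

namespace Pool.Agent.MP_05b4bd_ag.PC3

open MvPolynomial HC ES

namespace Cls

variable {K : Type} [Field K] {a b : K}

theorem nl (h : HC.lf a b ≠ 0) : ¬ DL 1 (HC.lf a b) := fun e =>
  h ((hc_self (lf_hom a b)).symm.trans (e.hc_eq le_rfl))

theorem d1_ne (h : HC.lf a b ≠ 0) : d1 (HC.lf a b) ≠ 0 := fun e => by
  have e1 : pderiv 1 (HC.lf a b) = 0 := congrArg Prod.fst e
  have e2 : -pderiv 0 (HC.lf a b) = 0 := congrArg Prod.snd e
  rw [lf_y] at e1
  rw [lf_x, neg_eq_zero] at e2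
  exact h (by rw [HC.lf, e1, e2, zero_mul, zero_mul, add_zero])

theorem d1_pol (l : R2 K) (m0 m1 m2 : K) :
    d1 (C m0 + C m1 * l + C m2 * l ^ 2) = (C m1 + C (2 * m2) * l) • d1 l :=
  Prod.ext (by simp [d1, map_ofNat]; ring) (by simp [d1, map_ofNat]; ring)

theorem nl1 (h : HC.lf a b ≠ 0) (r : K) {s : K} (hs : s ≠ 0) : ¬ DL 1 (C r + C s * HC.lf a b) :=
  fun e => nl h (DL.of_C_mul hs (by simpa using e.sub (DL_C r)))

theorem nl2 (h : HC.lf a b ≠ 0) (r s : K) {t : K} (ht : t ≠ 0) :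
    ¬ DL 2 (C r + C s * HC.lf a b + C t * HC.lf a b ^ 2) := fun e => by
  have e1 := e.sub (((DL_C r).mono (by omega)).add ((DL_lf a b).C_mul s))
  rw [add_sub_cancel_left] at e1
  have e2 := DL.of_C_mul ht e1
  rw [sq] at e2
  exact nl h (DL_of_mul (a := 1) (b := 1) e2 (nl h))

end Cls

open Cls in
theorem clsS (hM : CommStmt) : ClsStmt := by
  intro K _ _ d w J hd L hB ⟨c, θ, hc, hθ, c0, hP, hr⟩
  by_cases hv : dv θ = 0
  swap
  · exact Or.inr (Or.inl ⟨c, θ, hc, hθ, c0, hP, hr, hv⟩)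
  obtain ⟨m, hm, rfl⟩ : ∃ m, DL 3 m ∧ θ = d1 m := ⟨pot θ.1 θ.2, pot_DL hθ.1 hθ.2, Prod.ext
    (by rw [dv] at hv; simp only [d1, pot_y, hv, map_zero, sub_zero])
    (by simp only [d1, pot_x, neg_neg])⟩
  rw [rr, hv, mul_zero, zero_sub, neg_eq_zero] at hr
  obtain ⟨h1, h2, h3⟩ := hM K
  rcases or_assoc.2 (h1 m hm) with h | ⟨a, b, hl, m0, m1, m2, rfl⟩
  · obtain ⟨s0, s1, rfl⟩ := h2 m c hm h hc (wg_d1_d1 c m ▸ hr)
    exact Or.inr (Or.inr ⟨m, s0, s1, ⟨hm, fun e => c0 (by simp [e.1, e.2]), hP⟩, h⟩)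
  left
  rw [Pr, d1_pol, wg_smul] at hP
  rw [d1_pol, wg_smul', wg_d1_d1] at hr
  have g0 : C m1 + C (2 * m2) * HC.lf a b ≠ 0 := fun e => by
    rw [e, zero_mul] at hP
    exact mul_ne_zero c0 hB hP.symm
  obtain ⟨c1, c2, c3, rfl⟩ := h3 a b c hl hc ((mul_eq_zero.1 hr).resolve_left g0)
  obtain ⟨e, rfl⟩ : ∃ e, d = e + 1 := ⟨d - 1, by omega⟩
  have low : ∀ u ∈ J, DL e u → u = 0 := L.low
  have dΛ : DL (e + 2) (wg (d1 (HC.lf a b)) w) := by
    simpa using DF.wg (n := 0) (DF.d1 (DL_lf a b)) L.deg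
  have lin : ∀ r s : K, C c1 + C c2 * HC.lf a b + C c3 * HC.lf a b ^ 2 =
      (C m1 + C (2 * m2) * HC.lf a b) * (C r + C s * HC.lf a b) → Lin w := fun r s h =>
    ⟨_, r, s, DL_lf a b, d1_ne hl, fun e => c0 (by rw [h]; simp [e.1, e.2]),
      mul_left_cancel₀ g0 (by rw [hP, h, mul_assoc])⟩
  by_cases z : m2 = 0
  · subst z
    have m10 : m1 ≠ 0 := fun e => g0 (by simp [e])
    by_cases z3 : c3 = 0
    · refine lin (c1 / m1) (c2 / m1) ?_
      have u : ∀ r : K, (C r : R2 K) = C m1 * C (r / m1) := fun r => by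
        rw [← map_mul, mul_div_cancel₀ _ m10]
      rw [z3, mul_zero, map_zero]
      linear_combination u c1 + HC.lf a b * u c2
    · refine absurd (low _ L.mB (DL_of_mul (b := 2) ?_ (nl2 hl c1 c2 z3))) hB
      rw [mul_comm, ← hP, mul_zero, map_zero, zero_mul, add_zero]
      exact dΛ.C_mul m1
  have z2 : 2 * m2 ≠ 0 := mul_ne_zero two_ne_zero z
  obtain ⟨s, hs⟩ : ∃ s, c3 = 2 * m2 * s := ⟨c3 / (2 * m2), by field_simp⟩
  obtain ⟨r, hr'⟩ : ∃ r, c2 = m1 * s + 2 * m2 * r := ⟨(c2 - m1 * s) / (2 * m2), by field_simp; ring⟩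
  obtain ⟨ρ, hρ⟩ : ∃ ρ, c1 = m1 * r + ρ := ⟨c1 - m1 * r, by ring⟩
  have ec : C c1 + C c2 * HC.lf a b + C c3 * HC.lf a b ^ 2 =
      (C m1 + C (2 * m2) * HC.lf a b) * (C r + C s * HC.lf a b) + C ρ := by
    rw [hs, hr', hρ]
    simp only [map_add, map_mul]
    ring
  by_cases zρ : ρ = 0
  · exact lin r s (by rw [ec, zρ, map_zero, add_zero])
  have u : (C ρ⁻¹ * C ρ : R2 K) = 1 := by rw [← map_mul, inv_mul_cancel₀ zρ, map_one]
  obtain ⟨B', hB'⟩ : ∃ B', dv w = B' * (C m1 + C (2 * m2) * HC.lf a b) :=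
    ⟨C ρ⁻¹ * (wg (d1 (HC.lf a b)) w - (C r + C s * HC.lf a b) * dv w), by
      rw [ec] at hP
      linear_combination -C ρ⁻¹ * hP - dv w * u⟩
  have eΛ : wg (d1 (HC.lf a b)) w = (C c1 + C c2 * HC.lf a b + C c3 * HC.lf a b ^ 2) * B' :=
    mul_left_cancel₀ g0 (by rw [hP, hB']; ring)
  have mJ : B' ∈ J := L.inv _ ((C c2 + C (2 * c3) * HC.lf a b) * B') c0 hc
    (by rw [d1_pol, wg_smul, eΛ]; ring) B'
    (eΛ ▸ J.sub_mem (J.mul_mem_left _ L.m2) (J.mul_mem_left _ L.m1))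
  refine absurd ?_ hB
  rw [hB', low B' mJ (DL_of_mul (b := 1) (hB' ▸ L.deg.dv) (nl1 hl m1 z2)), zero_mul]

end Pool.Agent.MP_05b4bd_ag.PC3

end MrgPart3

-- ======== part 4: formerly Pool.Agent.MP_05b4bd_ag.pc3.Comm
section MrgPart4

/-! Persistent centres in degrees three, four and five: conics and what commutes with them. -/

namespace Pool.Agent.MP_05b4bd_ag.PC3

open MvPolynomial HC ES

namespace Comm

variable {K : Type} [Field K]

/-- A polynomial of degree at most two with given coefficients. -/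
noncomputable def q (c p r A B D : K) : R2 K :=
  C c + HC.lf p r + (C A * X 0 ^ 2 + C B * (X 0 * X 1) + C D * X 1 ^ 2)

theorem ex {u : R2 K} (hu : DL 3 u) : ∃ c p r, u = q c p r (HC.co 2 0 u) (HC.co 1 1 u)
    (HC.co 0 2 u) := ⟨_, _, _, DL3_eq hu⟩

theorem lf_ne {a b : K} : HC.lf a b ≠ 0 ↔ a ≠ 0 ∨ b ≠ 0 := by
  refine ⟨fun h => by_contra fun hc => h ?_, fun h e => ?_⟩
  · rw [not_or, not_not, not_not] at hc
    simp [HC.lf, hc.1, hc.2]
  · have h1 := lf_x a b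
    have h2 := lf_y a b
    rw [e, map_zero, eq_comm, C_eq_zero] at h1 h2
    exact h.elim (fun h => h h1) fun h => h h2

theorem sq (c p r σ a b : K) :
    C c + HC.lf p r + C σ * HC.lf a b ^ 2 = q c p r (σ * a ^ 2) (2 * σ * a * b) (σ * b ^ 2) := by
  simp only [q, HC.lf, map_mul, map_pow, map_ofNat]; ring

theorem pol (c m σ a b : K) : Pol a b (q c (m * a) (m * b) (σ * a ^ 2) (2 * σ * a * b) (σ * b ^ 2)) :=
  ⟨c, m, σ, by simp only [q, HC.lf, map_mul, map_pow, map_ofNat]; ring⟩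

variable [CharZero K] {c p r A B D c' p' r' A' B' D' : K}

theorem coef (h : br (q c' p' r' A' B' D') (q c p r A B D) = 0) : p' * r - r' * p = 0 ∧
    p' * B + 2 * A' * r - 2 * r' * A - B' * p = 0 ∧ 2 * p' * D + B' * r - r' * B - 2 * D' * p = 0 ∧
    A' * B - B' * A = 0 ∧ A' * D - D' * A = 0 ∧ B' * D - D' * B = 0 := by
  have e : ∀ x y : K, (p' + 2 * A' * x + B' * y) * (r + B * x + 2 * D * y) -
      (r' + B' * x + 2 * D' * y) * (p + 2 * A * x + B * y) = 0 := fun x y => by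
    have := congrArg (eval ![x, y]) h
    simp [br, q, HC.lf] at this
    linear_combination this
  refine ⟨by linear_combination e 0 0, by linear_combination (e 1 0 - e (-1) 0) / 2,
    by linear_combination (e 0 1 - e 0 (-1)) / 2,
    by linear_combination (e 1 0 + e (-1) 0 - 2 * e 0 0) / 4,
    by linear_combination (e 1 1 - e 1 0 - e 0 1 + e 0 0) / 4,
    by linear_combination (e 0 1 + e 0 (-1) - 2 * e 0 0) / 4⟩

theorem mult (h : br (q c' p' r' A' B' D') (q c p r A B D) = 0) (h0 : A ≠ 0 ∨ B ≠ 0 ∨ D ≠ 0)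
    (h1 : ∀ x y : K, x * r - y * p = 0 → x * B - 2 * y * A = 0 → 2 * x * D - y * B = 0 →
      x = 0 ∧ y = 0) : ∃ s0 s1, q c' p' r' A' B' D' = C s0 + C s1 * q c p r A B D := by
  obtain ⟨e0, e1, e2, e3, e4, e5⟩ := coef h
  obtain ⟨s, rfl, rfl, rfl⟩ : ∃ s, A' = s * A ∧ B' = s * B ∧ D' = s * D := by
    rcases h0 with h | h | h
    · exact ⟨A' / A, by field_simp, by field_simp; linear_combination -e3,
        by field_simp; linear_combination -e4⟩
    · exact ⟨B' / B, by field_simp; linear_combination e3, by field_simp,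
        by field_simp; linear_combination -e5⟩
    · exact ⟨D' / D, by field_simp; linear_combination e4, by field_simp; linear_combination e5,
        by field_simp⟩
  obtain ⟨a1, a2⟩ := h1 (p' - s * p) (r' - s * r) (by linear_combination e0)
    (by linear_combination e1) (by linear_combination e2)
  rw [sub_eq_zero] at a1 a2
  subst a1 a2
  exact ⟨c' - s * c, s, by simp only [q, HC.lf, map_mul, map_sub]; ring⟩

end Comm

open Comm in
theorem commS : CommStmt := by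
  intro K _ _
  refine ⟨fun m hm => ?_, fun m u hm h hu hb => ?_, fun a b u hl hu hb => ?_⟩
  · by_cases h : Ctr m
    · exact Or.inl h
    obtain ⟨c, p, r, e⟩ := Comm.ex hm
    rw [Ctr, not_not] at h
    generalize HC.co 2 0 m = A, HC.co 1 1 m = B, HC.co 0 2 m = D at e h
    obtain ⟨σ, a, b, hab, rfl, rfl, rfl⟩ : ∃ σ a b : K, (a ≠ 0 ∨ b ≠ 0) ∧ A = σ * a ^ 2 ∧
        B = 2 * σ * a * b ∧ D = σ * b ^ 2 := by
      by_cases hA : A = 0
      · refine ⟨D, 0, 1, Or.inr one_ne_zero, by simp [hA], ?_, by simp⟩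
        simpa [hA] using h
      · exact ⟨A, 1, B / (2 * A), Or.inl one_ne_zero, by simp, by field_simp,
          by field_simp; linear_combination -h⟩
    subst e
    by_cases hd : p * b - r * a = 0
    · obtain ⟨t, rfl, rfl⟩ : ∃ t, p = t * a ∧ r = t * b := by
        rcases hab with h | h
        · exact ⟨p / a, by field_simp, by field_simp; linear_combination -hd⟩
        · exact ⟨r / b, by field_simp; linear_combination hd, by field_simp⟩
      exact Or.inr (Or.inr ⟨a, b, lf_ne.2 hab, pol c t σ a b⟩)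
    by_cases hσ : σ = 0
    · refine Or.inr (Or.inr ⟨p, r, lf_ne.2 (by_contra fun hc => hd ?_), ?_⟩)
      · rw [not_or, not_not, not_not] at hc
        simp [hc.1, hc.2]
      · simpa [hσ] using pol c 1 0 p r
    · exact Or.inr (Or.inl ⟨c, p, r, σ, a, b, hσ, hd, (Comm.sq c p r σ a b).symm⟩)
  · obtain ⟨c', p', r', e'⟩ := Comm.ex hu
    rw [e'] at hb ⊢
    rcases h with h | ⟨c, p, r, σ, a, b, hσ, hd, e⟩
    · obtain ⟨c, p, r, e⟩ := Comm.ex hm
      rw [Ctr] at h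
      generalize HC.co 2 0 m = A, HC.co 1 1 m = B, HC.co 0 2 m = D at e h
      subst e
      refine mult hb (by_contra fun hc => h ?_) fun x y _ e1 e2 =>
        ⟨mul_left_cancel₀ h ?_, mul_left_cancel₀ h ?_⟩
      · simp only [not_or, not_not] at hc
        simp [hc.1, hc.2.1]
      · linear_combination B * e1 - 2 * A * e2
      · linear_combination 2 * D * e1 - B * e2
    · rw [Comm.sq] at e
      subst e
      have hab : a ≠ 0 ∨ b ≠ 0 := by_contra fun hc => hd (by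
        rw [not_or, not_not, not_not] at hc
        simp [hc.1, hc.2])
      refine mult hb (hab.imp (fun h => by positivity) fun h => Or.inr (by positivity))
        fun x y e0 e1 e2 => ?_
      have e3 : x * b - y * a = 0 := by
        rcases hab with h | h
        · exact mul_left_cancel₀ (mul_ne_zero hσ h) (by linear_combination e1 / 2)
        · exact mul_left_cancel₀ (mul_ne_zero hσ h) (by linear_combination e2 / 2)
      exact ⟨mul_left_cancel₀ hd (by linear_combination p * e3 - a * e0),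
        mul_left_cancel₀ hd (by linear_combination r * e3 - b * e0)⟩
  · obtain ⟨c, p, r, e⟩ := Comm.ex hu
    generalize HC.co 2 0 u = A, HC.co 1 1 u = B, HC.co 0 2 u = D at e
    subst e
    have e : HC.lf a b = q 0 a b 0 0 0 := by simp [q]
    rw [e] at hb
    obtain ⟨e0, e1, e2, -⟩ := coef hb
    obtain ⟨t, σ, rfl, rfl, rfl, rfl, rfl⟩ : ∃ t σ : K, p = t * a ∧ r = t * b ∧ A = σ * a ^ 2 ∧
        B = 2 * σ * a * b ∧ D = σ * b ^ 2 := by
      rcases lf_ne.1 hl with h | h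
      · exact ⟨p / a, A / a ^ 2, by field_simp, by field_simp; linear_combination -e0,
          by field_simp, by field_simp; linear_combination -e1,
          by field_simp; linear_combination -(b * e1 + a * e2) / 2⟩
      · exact ⟨r / b, D / b ^ 2, by field_simp; linear_combination e0, by field_simp,
          by field_simp; linear_combination (b * e1 + a * e2) / 2,
          by field_simp; linear_combination e2, by field_simp⟩
    exact pol c t σ a b

end Pool.Agent.MP_05b4bd_ag.PC3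

end MrgPart4

-- ======== part 5: formerly Pool.Agent.MP_05b4bd_ag.pc3.Comp
section MrgPart5

/-! The families are irreducible families of centres through the exact forms, none inside another. -/

namespace Pool.Agent.MP_05b4bd_ag.PC3

open MvPolynomial ES

theorem memS (m2 : Mem2Stmt) (m3 : Mem3Stmt) (ir : IrrStmt) (d2 : Dom2Stmt) (d3 : Dom3Stmt) {d : ℕ}
    (h3 : 3 ≤ d) (h5 : d ≤ 5) : ∀ W ∈ Ws d, W ⊆ M d ∧ Irred W ∧ Ex d ⊆ zcl W := by
  obtain ⟨n, rfl⟩ : ∃ n, d = n + 2 := ⟨d - 2, by omega⟩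
  rintro W (rfl | rfl | rfl | ⟨h, rfl⟩ | ⟨h, rfl | rfl⟩)
  · refine ⟨Top.L_ham _ ▸ Top.Ex_M n, ir.1 _ _, ?_⟩
    rintro _ ⟨f, hf, rfl⟩
    exact subset_zcl _ (dform_mem_L (i := 0) (Nat.le_succ _) hf)
  · refine ⟨Top.L_log _ ▸ S1_M n, ir.1 _ _, ?_⟩
    rintro _ ⟨f, hf, rfl⟩
    exact subset_zcl _ (dform_mem_L (i := 1) le_rfl hf)
  · exact ⟨m3 (n + 1) (by omega) (by omega), ir.1 _ _, d3 (n + 1) (by omega) (by omega)⟩
  · obtain rfl | rfl : n = 1 ∨ n = 2 := by omega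
    · exact ⟨m2.1, ir.1 _ _, d2.1⟩
    · exact ⟨m2.2.1, ir.1 _ _, d2.2.1⟩
  · obtain rfl : n = 1 := by omega
    rw [m2.2.2.2]
    refine ⟨S2_M 1, S2_irred 2, ?_⟩
    rintro _ ⟨f, hf, rfl⟩
    exact cubic_mem hf
  · obtain rfl : n = 1 := by omega
    exact ⟨m2.2.2.1, ir.2.1, d2.2.2⟩

theorem sepS (m2 : Mem2Stmt) (ir : IrrStmt) (dm : DimStmt) (t1 : Tan1Stmt) (t2 : Tan2Stmt)
    (s1 : Sep1Stmt) (s2 : Sep2Stmt) (s3 : Sep3Stmt) (s4 : Sep4Stmt) {d : ℕ} (h3 : 3 ≤ d)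
    (h5 : d ≤ 5) : ∀ W ∈ Ws d, ∀ W' ∈ Ws d, W ⊆ zcl W' → W = W' := by
  obtain ⟨e, rfl⟩ : ∃ e, d = e + 1 := ⟨d - 1, by omega⟩
  obtain ⟨cA, cB, cD⟩ := s1 e (by omega) (by omega)
  have ex : ∀ {s} (δ : Fin s → ℕ) (a b : Fin s), a ≠ b → 1 ≤ δ a → 1 ≤ δ b →
      ∑ i, (δ i + 1) * (δ i + 2) < (e + 2 + 1) * (e + 2 + 2) → ¬ L ![e + 1 + 1] ⊆ zcl (L δ) :=
    fun δ a b h1 h2 h3 h4 h => by
      obtain ⟨f, hf, hn⟩ := exists_not_mem δ a b h1 h2 h3 h4
      exact hn (h (dform_mem_L (i := 0) le_rfl hf))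
  have aB : ¬ L ![e + 1 + 1] ⊆ zcl (L ![1, e + 1]) := by
    rw [Top.L_ham, Top.L_log]; exact Top.ham_not_log (by omega)
  have bA : ¬ L ![1, e + 1] ⊆ zcl (L ![e + 1 + 1]) := by
    rw [Top.L_ham, Top.L_log]; exact Top.log_not_ham (by omega)
  have aC : ¬ L ![e + 1 + 1] ⊆ zcl (L ![1, 1, e]) := ex _ 0 1 (by decide) le_rfl le_rfl (by
    rw [Fin.sum_univ_three]
    change (1 + 1) * (1 + 2) + (1 + 1) * (1 + 2) + (e + 1) * (e + 2) < _
    nlinarith)
  have aD : ¬ L ![e + 1 + 1] ⊆ zcl (L ![2, e]) := ex _ 0 1 (by decide) (by simp)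
    (show 1 ≤ e by omega) (by
      rw [Fin.sum_univ_two]
      change (2 + 1) * (2 + 2) + (e + 1) * (e + 2) < _
      nlinarith)
  have bC : ¬ L ![1, e + 1] ⊆ zcl (L ![1, 1, e]) := dm.2 _ _ _ _ _ cB (t1 _ h3 h5) (by
    obtain rfl | rfl | rfl : e = 2 ∨ e = 3 ∨ e = 4 := by omega
    all_goals decide)
  have bD : e ≤ 3 → ¬ L ![1, e + 1] ⊆ zcl (L ![2, e]) := fun h =>
    dm.2 _ _ _ _ _ (s2 e (by omega) h).2 (t1 _ h3 h5) (by
      obtain rfl | rfl : e = 2 ∨ e = 3 := by omega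
      all_goals decide)
  have dC : e ≤ 3 → ¬ L ![2, e] ⊆ zcl (L ![1, 1, e]) := fun h => by
    obtain rfl | rfl : e = 2 ∨ e = 3 := by omega
    · exact dm.2 _ _ _ _ _ (cD h) t2.1 (by decide)
    · exact dm.2 _ _ _ _ _ (cD h) t2.2 (by decide)
  have n7 : ∀ {s} {δ : Fin s → ℕ}, ∑ i, δ i = 4 → ¬ S2 2 ⊆ zcl (L δ) := fun h k =>
    w0_not_mem_L (n := 1) h (k (w0_S2 1))
  have n5 : ∀ {s} {δ : Fin s → ℕ}, ∑ i, δ i = 4 → ¬ N5 ⊆ zcl (L δ) := fun h k => by
    obtain ⟨ω, h1, h2⟩ := s3.2.2.2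
    exact not_mem_zcl _ (ir.2.2.1 h1) h2 (L_V h) (fun _ => L_not_inj (d := 3) h) (k h1)
  have m5 : ∀ {W : Set Form}, W ⊆ V 3 → (∃ ω ∈ W, Function.Injective (lamI (5 / 2) 2 ω)) →
      ¬ W ⊆ zcl N5 := fun hV ⟨ω, h1, h2⟩ k =>
    not_mem_zcl _ (hV h1) h2 ir.2.2.1 ir.2.2.2.1 (k h1)
  have m7 : ∀ {W : Set Form}, W ⊆ V 3 → (∃ ω ∈ W, Function.Injective (lamI (7 / 2) 2 ω)) →
      ¬ W ⊆ zcl (S2 2) := fun hV ⟨ω, h1, h2⟩ k =>
    not_mem_zcl _ (hV h1) h2 (S2_V 2) ir.2.2.2.2 (k h1)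
  have l5 : ∀ {s} {δ : Fin s → ℕ}, ∑ i, δ i = 4 → L δ ∈ ({L ![1, 3], L ![1, 1, 2], L ![2, 2]} :
      Set (Set Form)) → ¬ L δ ⊆ zcl N5 ∧ ¬ L δ ⊆ zcl (S2 2) := fun h k =>
    ⟨m5 (L_V h) ((s3.1 _ k).imp fun _ z => ⟨z.1, z.2.1⟩),
      m7 (L_V h) ((s3.1 _ k).imp fun _ z => ⟨z.1, z.2.2⟩)⟩
  have e7 := m2.2.2.2
  simp only [Ws, Set.mem_ofPred_eq, Nat.add_sub_cancel, e7]
  rintro W (rfl | rfl | rfl | ⟨h, rfl⟩ | ⟨h, rfl | rfl⟩) W'
    (rfl | rfl | rfl | ⟨h', rfl⟩ | ⟨h', rfl | rfl⟩) k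
  any_goals rfl
  all_goals exfalso
  all_goals try (have he : e = 2 := (by omega); subst he)
  exacts [aB k, aC k, aD k, s4.2 k, s4.1 k,
    bA k, bC k, bD (by omega) k, (l5 (by decide) (by simp)).2 k, (l5 (by decide) (by simp)).1 k,
    cA k, cB k, cD (by omega) k, (l5 (by decide) (by simp)).2 k, (l5 (by decide) (by simp)).1 k,
    (s2 _ (by omega) (by omega)).1 k, (s2 _ (by omega) (by omega)).2 k, dC (by omega) k,
    (l5 (by decide) (by simp)).2 k, (l5 (by decide) (by simp)).1 k,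
    n7 (by decide) k, n7 (by decide) k, n7 (by decide) k, n7 (by decide) k, m5 (S2_V 2) s3.2.1 k,
    n5 (by decide) k, n5 (by decide) k, n5 (by decide) k, n5 (by decide) k, m7 ir.2.2.1 s3.2.2.1 k]

end Pool.Agent.MP_05b4bd_ag.PC3

end MrgPart5

-- ======== part 6: formerly Pool.Agent.MP_05b4bd_ag.pc3.Det3
section MrgPart6

/-! Degree three: a closed conic syzygy or a pull-back by two conics. -/

namespace Pool.Agent.MP_05b4bd_ag.PC3

open MvPolynomial HC ES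

namespace Det3

variable {K : Type} [Field K] [CharZero K]

theorem d1_pot {θ : Fm K} (h : dv θ = 0) : d1 (pot θ.1 θ.2) = θ := by
  refine Prod.ext ?_ ?_
  · have : pderiv 0 θ.1 + pderiv 1 θ.2 = 0 := h
    simp only [d1, pot_y, this]
    simp [ad]
  · simp only [d1, pot_x, neg_neg]

theorem last (hM : CommStmt) {w φ : Fm K} {J : Ideal (R2 K)} {b2 m : R2 K} {s : K}
    (hB : dv w ≠ 0) (mB : dv w ∈ J) (low : ∀ u ∈ J, DL 2 u → u = 0) (hb : DL 3 b2) (hφ : DF 2 φ)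
    (hm : DL 3 m) (hw : w = dv w • φ - b2 • d1 m) (reg : ∀ u, wg (d1 m) φ * u ∈ J → u ∈ J)
    (hs : s ≠ 0) (h : wg (d1 m) (d1 (wg (d1 m) φ)) = C s * dv w) : Pb 2 w := by
  obtain ⟨c, hc⟩ : ∃ c, c = wg (d1 m) φ := ⟨_, rfl⟩
  have dc : DL 3 c := hc ▸ (DF.d1 hm).wg hφ
  rw [← hc] at h reg
  obtain ⟨B, hBe⟩ : ∃ B, B = dv w := ⟨_, rfl⟩
  rw [← hBe] at hw h hB mB
  have e1 : wg (d1 m) w = c * B := by
    rw [hw, wg_sub', wg_smul', wg_smul', wg_self, ← hc]; ring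
  have e2 : wg (d1 c) w = B * (wg (d1 c) φ + C s * b2) := by
    rw [hw, wg_sub', wg_smul', wg_smul', wg_comm (d1 c) (d1 m), h]; ring
  obtain ⟨S, hS⟩ : ∃ S, S = wg (d1 c) φ + C s * b2 := ⟨_, rfl⟩
  have dS : DL 3 S := hS ▸ ((DF.d1 dc).wg hφ).add (hb.C_mul s)
  rw [← hS] at e2
  have e3 := wg_three (d1 m) (d1 c) w
  rw [h, e2, wg_comm w, e1] at e3
  have e4 : (C s : R2 K) • w = c • d1 c - S • d1 m := by
    have a := congrArg Prod.fst e3
    have b := congrArg Prod.snd e3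
    simp only [Prod.fst_add, Prod.snd_add, Prod.smul_fst, Prod.smul_snd, smul_eq_mul,
      Prod.fst_zero, Prod.snd_zero] at a b
    refine Prod.ext (mul_left_cancel₀ hB ?_) (mul_left_cancel₀ hB ?_)
    · simp only [Prod.fst_sub, Prod.smul_fst, smul_eq_mul]; linear_combination a
    · simp only [Prod.snd_sub, Prod.smul_snd, smul_eq_mul]; linear_combination b
  have e5 : br (S - c) m = 0 := by
    have a := congrArg dv e4
    rw [dv_C_smul, dv_sub, dv_smul, dv_smul, dv_d1, dv_d1, wg_self, ← hBe, ← h] at a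
    rw [← wg_d1_d1, d1_sub, wg_sub, wg_comm (d1 c)]
    linear_combination a
  obtain ⟨m1, m2, -⟩ := hM K
  have fin : Ctr m ∨ Pab m → Pb 2 w := fun k => by
    obtain ⟨s0, s1, e6⟩ := m2 m _ hm k (dS.sub dc) e5
    have e7 : (C s⁻¹ * C s : R2 K) = 1 := by rw [← map_mul, inv_mul_cancel₀ hs, map_one]
    refine ⟨m, c, -(s⁻¹ * s0), -(s⁻¹ * s1), -s⁻¹, 0, 0, s⁻¹, hm, dc, ?_⟩
    have a := congrArg Prod.fst e4
    have b := congrArg Prod.snd e4
    simp only [Prod.fst_sub, Prod.snd_sub, Prod.smul_fst, Prod.smul_snd, smul_eq_mul, d1] at a b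
    refine Prod.ext ?_ ?_
    · simp only [fm, Prod.fst_add, map_neg, map_mul, map_zero]
      linear_combination C s⁻¹ * a - w.1 * e7 - C s⁻¹ * pderiv 1 m * e6
    · simp only [fm, Prod.snd_add, map_neg, map_mul, map_zero]
      linear_combination C s⁻¹ * b - w.2 * e7 + C s⁻¹ * pderiv 0 m * e6
  rcases m1 m hm with k | k | ⟨a, b, -, m0, n1, n2, k⟩
  · exact fin (Or.inl k)
  · exact fin (Or.inr k)
  · exfalso
    have e6 : d1 m = (C n1 + 2 * C n2 * HC.lf a b) • d1 (HC.lf a b) := by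
      rw [k, pow_two, d1_add, d1_add, d1_C, d1_C_mul, d1_C_mul, d1_mul]
      refine Prod.ext ?_ ?_ <;> simp <;> ring
    rw [e6, wg_smul] at h hc
    have e7 : wg (d1 (HC.lf a b)) (d1 c) = 0 := by
      refine low _ (reg _ ?_) ((DF.d1 (DL_lf a b)).wg (DF.d1 dc))
      have : c * wg (d1 (HC.lf a b)) (d1 c) = C s * wg (d1 (HC.lf a b)) φ * B := by
        linear_combination wg (d1 (HC.lf a b)) φ * h + wg (d1 (HC.lf a b)) (d1 c) * hc
      rw [this]
      exact J.mul_mem_left _ mB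
    rw [e7, mul_zero] at h
    exact mul_ne_zero (C_ne_zero.2 hs) hB h.symm

end Det3

theorem det3S (hC : CiStmt) (hM : CommStmt) : Det3Stmt := by
  intro K _ _ w J L hB
  obtain ⟨c1, -, c3⟩ := hC K 3 w J le_rfl L
  obtain ⟨b2, b2J, db, li⟩ := c3 rfl hB
  obtain ⟨φ, θ, hφ, hθ, hw, c0⟩ := c1 b2 b2J db li
  have reg := L.reg _ L.mB _ b2J φ θ hw
  have low : ∀ u ∈ J, DL 2 u → u = 0 := L.low
  obtain ⟨c, hc⟩ : ∃ c, c = wg θ φ := ⟨_, rfl⟩
  have dc : DL 3 c := hc ▸ hθ.wg hφ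
  have pr : Pr w c θ := by
    show wg θ w = c * dv w
    conv_lhs => rw [hw]
    rw [wg_sub', wg_smul', wg_smul', wg_self, ← hc]; ring
  have e1 : wg φ w = c * b2 := by
    conv_lhs => rw [hw]
    rw [wg_sub', wg_smul', wg_smul', wg_self, wg_comm φ, ← hc]; ring
  have pJ := L.l1 c θ pr
  have dp : DL 3 (rr c θ) := (dc.mul' (b := 0) hθ.dv).sub ((DF.d1 dc).wg hθ)
  obtain ⟨cf, hcf⟩ := le_span (W := Jd J 3) li (fun i => by
    fin_cases i
    exacts [⟨L.mB, L.deg.dv⟩, ⟨b2J, db⟩]) (by simpa using L.up 1) (u := rr c θ) ⟨pJ, dp⟩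
  rw [Fin.sum_univ_two, smul_eq_C_mul, smul_eq_C_mul] at hcf
  simp only [Matrix.cons_val_zero, Matrix.cons_val_one] at hcf
  generalize cf 0 = s, cf 1 = r at hcf
  rw [← hc] at reg c0
  obtain ⟨a1, h1⟩ : ∃ a, dv θ = C a := ⟨_, DL1_eq hθ.dv⟩
  obtain ⟨a2, h2⟩ : ∃ a, dv φ = C a := ⟨_, DL1_eq hφ.dv⟩
  have e2 : wg (d1 c) θ = c * C a1 - rr c θ := by rw [rr, h1]; ring
  have e3 : 3 * C r * wg (d1 c) φ + c * (2 * C s * C a1 - C r - C r * C a2) ∈ J := by
    have k := L.l2 c θ c ((C s : R2 K) • θ + (C r : R2 K) • φ) 0 pr (by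
      rw [wg_add, wg_smul, wg_smul, pr, e1, hcf]; ring)
    have k2 := J.add_mem k (J.mul_mem_left (3 * c * C s) pJ)
    refine reg _ (?_ : _ ∈ J)
    rw [← map_zero C, d1_C, wg_zero, map_zero, wg_add', wg_add', wg_smul', wg_smul', wg_smul',
      wg_smul', wg_self, dv_add, dv_C_smul, dv_C_smul, ← hc, e2, h1, h2] at k2
    exact (congrArg (· ∈ J) (by ring)).mp k2
  have clo : rr c θ = 0 → Clo w ∨ Pb 2 w := fun k => Or.inl ⟨c, θ, dc, hθ, c0, pr, k⟩
  by_cases hr : r = 0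
  · subst hr
    by_cases hs : s = 0
    · exact clo (by rw [hcf, hs]; simp)
    have e4 : a1 = 0 := by
      have k : (C (2 * s * a1) : R2 K) = 0 := low _ (reg _ (by
        refine (congrArg (· ∈ J) ?_).mp e3
        simp only [map_mul, map_zero, map_ofNat]; ring)) ((DL_C _).mono (by omega))
      simpa [hs] using C_eq_zero.1 k
    rw [e4, map_zero] at h1
    obtain ⟨m, dm, rfl⟩ : ∃ m, DL 3 m ∧ θ = d1 m := ⟨_, pot_DL hθ.1 hθ.2, (Det3.d1_pot h1).symm⟩
    subst hc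
    refine Or.inr (Det3.last hM hB L.mB low db hφ dm hw reg hs ?_)
    rw [wg_comm, e2, e4, hcf, map_zero]; ring
  · obtain ⟨k, hk⟩ : ∃ k : K, k = -((3 * r)⁻¹ * (2 * s * a1 - r - r * a2)) := ⟨_, rfl⟩
    have e7 : (C (3 * r)⁻¹ * (3 * C r) : R2 K) = 1 := by
      rw [← map_ofNat C 3, ← map_mul, ← map_mul, inv_mul_cancel₀ (by simpa using hr), map_one]
    have p1 : wg (d1 c) φ - C k * c ∈ J := by
      refine (congrArg (· ∈ J) ?_).mp (J.mul_mem_left (C (3 * r)⁻¹) e3)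
      simp only [hk, map_neg, map_mul, map_sub, map_ofNat]
      linear_combination wg (d1 c) φ * e7
    obtain ⟨p, hp⟩ : ∃ p, p = wg (d1 c) φ - C k * c := ⟨_, rfl⟩
    rw [← hp] at p1
    have e4 := wg_three (d1 c) θ φ
    rw [e2, ← hc, wg_comm φ, show wg (d1 c) φ = p + C k * c by rw [hp]; ring] at e4
    have dη : DF 2 (d1 c - (C k : R2 K) • θ + (C a1 : R2 K) • φ) :=
      ((DF.d1 dc).sub (hθ.C_smul k)).add (hφ.C_smul a1)
    obtain ⟨η, hη⟩ : ∃ η, η = d1 c - (C k : R2 K) • θ + (C a1 : R2 K) • φ := ⟨_, rfl⟩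
    have e5 : c • η = rr c θ • φ + p • θ := by
      have a := congrArg Prod.fst e4
      have b := congrArg Prod.snd e4
      simp only [Prod.fst_add, Prod.snd_add, Prod.smul_fst, Prod.smul_snd, smul_eq_mul,
        Prod.fst_zero, Prod.snd_zero] at a b
      rw [hη]
      refine Prod.ext ?_ ?_
      · simp only [Prod.fst_sub, Prod.fst_add, Prod.smul_fst, smul_eq_mul]; linear_combination a
      · simp only [Prod.snd_sub, Prod.snd_add, Prod.smul_snd, smul_eq_mul]; linear_combination b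
    rw [← hη] at dη
    have e6 : η = 0 := Prod.ext
      (low _ (reg _ ((congrArg (· ∈ J) (congrArg Prod.fst e5)).mpr
        (J.add_mem (J.mul_mem_right _ pJ) (J.mul_mem_right _ p1)))) dη.1)
      (low _ (reg _ ((congrArg (· ∈ J) (congrArg Prod.snd e5)).mpr
        (J.add_mem (J.mul_mem_right _ pJ) (J.mul_mem_right _ p1)))) dη.2)
    have e8 := congrArg (wg θ) e5
    rw [e6, smul_zero, wg_comm, wg_zero, wg_add', wg_smul', wg_smul', wg_self, ← hc] at e8
    exact clo ((mul_eq_zero.1 (by linear_combination -e8 : rr c θ * c = 0)).resolve_right c0)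

end Pool.Agent.MP_05b4bd_ag.PC3

end MrgPart6

-- ======== part 7: formerly Pool.Agent.MP_05b4bd_ag.pc3.Diag
section MrgPart7

/-! Persistent centres in degrees three, four and five: the diagonal normal form. -/

namespace Pool.Agent.MP_05b4bd_ag.PC3

open MvPolynomial HC ES

namespace Diag

variable {K : Type} [Field K]

theorem co_E (k : Fin 2) (u : R2 K) (m : Fin 2 →₀ ℕ) :
    coeff m (X k * pderiv k u) = m k * coeff m u := by
  classical
  induction u using MvPolynomial.induction_on' with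
  | monomial s a =>
    rw [X_mul_pderiv_monomial, coeff_smul, coeff_monomial]
    split_ifs with h
    · rw [h, nsmul_eq_mul]
    · simp
  | add p q hp hq => rw [map_add, mul_add, coeff_add, coeff_add, hp, hq, mul_add]

theorem not_DL (i : Fin 2) : ¬ DL 1 (X i : R2 K) := fun h => by
  have := h (Finsupp.single i 1) (by simp)
  simp at this

theorem lim {d : ℕ} {G N : R2 K} {l1 l2 p q : K} (hG : DL d G) (hN : DL d N)
    (h1 : C l1 * N + X 0 * pderiv 0 N = 0) (h2 : C l2 * N + X 1 * pderiv 1 N = 0) :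
    Lim (H3 d) (X 0 * (C l2 * G + X 1 * pderiv 1 G + C p * N),
      X 1 * (-(C l1 * G + X 0 * pderiv 0 G) + C q * N)) := by
  refine ⟨(X 0 * (C p * G), X 1 * (C q * G)), {0}, fun τ hτ => ?_⟩
  have hτ0 : τ ≠ 0 := by simpa using hτ
  have e : (C τ * C τ⁻¹ : R2 K) = 1 := by rw [← map_mul, mul_inv_cancel₀ hτ0, map_one]
  refine ⟨X 0, X 1, G + C τ⁻¹ * N, l1 - τ * q, l2 + τ * p, 1, DL_X 0, DL_X 1,
    hG.add (hN.C_mul _), Prod.ext ?_ ?_⟩
  · simp [fm]
    linear_combination (-X 0 * C τ⁻¹ : R2 K) * h2 - (X 0 * C p * N : R2 K) * e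
  · simp [fm]
    linear_combination (X 1 * C τ⁻¹ : R2 K) * h1 - (X 1 * C q * N : R2 K) * e

theorem solve [CharZero K] {d : ℕ} {P Q : R2 K} {l1 l2 : K} (hP : DL d P) (hQ : DL d Q)
    (h : ∀ m : Fin 2 →₀ ℕ, coeff m P * (m 0 + l1) + coeff m Q * (m 1 + l2) = 0) :
    Lim (H3 d) (X 0 * P, X 1 * Q) := by
  classical
  obtain ⟨g, hg0, hg⟩ : ∃ g : (Fin 2 →₀ ℕ) → K, (∀ m, coeff m P = 0 → coeff m Q = 0 → g m = 0) ∧
      ∀ m, ¬ ((m 0 : K) + l1 = 0 ∧ (m 1 : K) + l2 = 0) →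
        coeff m P = (m 1 + l2) * g m ∧ coeff m Q = -((m 0 + l1) * g m) := by
    refine ⟨fun m => if (m 1 : K) + l2 = 0 then -coeff m Q / (m 0 + l1)
      else coeff m P / (m 1 + l2), fun m a b => by simp [a, b], fun m hm => ?_⟩
    have hm' := h m
    by_cases h1 : (m 1 : K) + l2 = 0
    · have h0 : (m 0 : K) + l1 ≠ 0 := fun h0 => hm ⟨h0, h1⟩
      rw [h1, mul_zero, add_zero] at hm'
      simp only [if_pos h1]
      refine ⟨by rw [h1, zero_mul]; exact (mul_eq_zero.1 hm').resolve_right h0, ?_⟩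
      field_simp
    · simp only [if_neg h1]
      refine ⟨by field_simp, ?_⟩
      field_simp
      linear_combination hm'
  set G : R2 K := ∑ m ∈ P.support ∪ Q.support, monomial m (g m) with hGdef
  have cG : ∀ m, coeff m G = g m := fun m => by
    rw [hGdef, coeff_sum]
    simp only [coeff_monomial]
    rw [Finset.sum_ite_eq']
    split_ifs with hm
    · rfl
    · rw [Finset.mem_union, not_or, notMem_support_iff, notMem_support_iff] at hm
      exact (hg0 m hm.1 hm.2).symm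
  have hG : DL d G := fun m hm => by rw [cG]; exact hg0 m (hP m hm) (hQ m hm)
  obtain ⟨N, p, q, hN, hN0, hN1⟩ : ∃ (N : R2 K) (p q : K), DL d N ∧
      (∀ m : Fin 2 →₀ ℕ, ¬ ((m 0 : K) + l1 = 0 ∧ (m 1 : K) + l2 = 0) → coeff m N = 0) ∧
      ∀ m : Fin 2 →₀ ℕ, (m 0 : K) + l1 = 0 → (m 1 : K) + l2 = 0 →
        coeff m P = p * coeff m N ∧ coeff m Q = q * coeff m N := by
    by_cases hM : ∃ M : Fin 2 →₀ ℕ, M.degree < d ∧ (M 0 : K) + l1 = 0 ∧ (M 1 : K) + l2 = 0
    · obtain ⟨M, hMd, M0, M1⟩ := hM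
      refine ⟨monomial M 1, coeff M P, coeff M Q, fun m hm => ?_, fun m hm => ?_,
        fun m m0 m1 => ?_⟩
      · rw [coeff_monomial, if_neg]
        rintro rfl
        omega
      · rw [coeff_monomial, if_neg]
        rintro rfl
        exact hm ⟨M0, M1⟩
      · have e0 : m 0 = M 0 := Nat.cast_injective (R := K) (by linear_combination m0 - M0)
        have e1 : m 1 = M 1 := Nat.cast_injective (R := K) (by linear_combination m1 - M1)
        have e : m = M := Finsupp.ext fun i => by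
          fin_cases i
          exacts [e0, e1]
        simp [e]
    · refine ⟨0, 0, 0, DL.zero d, fun _ _ => rfl, fun m m0 m1 => ?_⟩
      have hm : d ≤ m.degree := not_lt.1 fun hm => hM ⟨m, hm, m0, m1⟩
      simp [hP m hm, hQ m hm]
  have e1 : C l1 * N + X 0 * pderiv 0 N = 0 := MvPolynomial.ext _ _ fun m => by
    rw [coeff_add, coeff_C_mul, co_E, coeff_zero]
    by_cases hm : (m 0 : K) + l1 = 0 ∧ (m 1 : K) + l2 = 0
    · linear_combination coeff m N * hm.1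
    · simp [hN0 m hm]
  have e2 : C l2 * N + X 1 * pderiv 1 N = 0 := MvPolynomial.ext _ _ fun m => by
    rw [coeff_add, coeff_C_mul, co_E, coeff_zero]
    by_cases hm : (m 0 : K) + l1 = 0 ∧ (m 1 : K) + l2 = 0
    · linear_combination coeff m N * hm.2
    · simp [hN0 m hm]
  have eP : P = C l2 * G + X 1 * pderiv 1 G + C p * N := MvPolynomial.ext _ _ fun m => by
    rw [coeff_add, coeff_add, coeff_C_mul, coeff_C_mul, co_E, cG]
    by_cases hm : (m 0 : K) + l1 = 0 ∧ (m 1 : K) + l2 = 0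
    · linear_combination (hN1 m hm.1 hm.2).1 - g m * hm.2
    · rw [hN0 m hm]
      linear_combination (hg m hm).1
  have eQ : Q = -(C l1 * G + X 0 * pderiv 0 G) + C q * N := MvPolynomial.ext _ _ fun m => by
    rw [coeff_add, coeff_neg, coeff_add, coeff_C_mul, coeff_C_mul, co_E, cG]
    by_cases hm : (m 0 : K) + l1 = 0 ∧ (m 1 : K) + l2 = 0
    · linear_combination (hN1 m hm.1 hm.2).2 + g m * hm.1
    · rw [hN0 m hm]
      linear_combination (hg m hm).2
  rw [eP, eQ]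
  exact lim hG hN e1 e2

theorem dvd_of {i j : Fin 2} (hij : i ≠ j) {a : K} (ha : a ≠ 0) {u : R2 K}
    (h : X i ∣ C a * X j * u) : X i ∣ u := by
  rcases (X_prime (R := K) (i := i)).dvd_or_dvd h with h1 | h1
  · rcases (X_prime (R := K) (i := i)).dvd_or_dvd h1 with h2 | h2
    · exact absurd (isUnit_of_dvd_unit h2 ((IsUnit.mk0 a ha).map C))
        (X_prime (R := K) (i := i)).not_isUnit
    · simp [hij] at h2
  · exact h1

end Diag

theorem diagS : DiagStmt := by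
  rintro K _ _ d ⟨P, Q⟩ α β ⟨hP, hQ⟩ hα hβ h
  simp only [dv] at hP hQ h
  obtain ⟨P', rfl⟩ : X 0 ∣ P := Diag.dvd_of (j := 1) (by decide) hα
    ⟨X 1 * (pderiv 0 P + pderiv 1 Q) - C β * Q, by linear_combination -h⟩
  obtain ⟨Q', rfl⟩ : X 1 ∣ Q := Diag.dvd_of (j := 0) (by decide) hβ
    ⟨X 0 * (pderiv 0 (X 0 * P') + pderiv 1 Q) - C α * (X 0 * P'), by linear_combination -h⟩
  have h1 : P' + X 0 * pderiv 0 P' + (Q' + X 1 * pderiv 1 Q') = C α * P' + C β * Q' := by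
    refine mul_left_cancel₀ (mul_ne_zero (X_ne_zero (R := K) (0 : Fin 2))
      (X_ne_zero (R := K) (1 : Fin 2))) ?_
    simp only [Derivation.leibniz, pderiv_X_self, smul_eq_mul] at h
    linear_combination h
  refine Diag.solve (l1 := 1 - α) (l2 := 1 - β)
    (DL_of_mul (b := 1) (by rwa [mul_comm] at hP) (Diag.not_DL 0))
    (DL_of_mul (b := 1) (by rwa [mul_comm] at hQ) (Diag.not_DL 1)) fun m => ?_
  have h2 := congrArg (coeff m) h1
  simp only [coeff_add, coeff_C_mul, Diag.co_E] at h2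
  linear_combination h2

end Pool.Agent.MP_05b4bd_ag.PC3

end MrgPart7

-- ======== part 8: formerly Pool.Agent.MP_05b4bd_ag.pc3.Dim
section MrgPart8

/-! Persistent centres in degrees three, four and five: the dimension count. -/

namespace Pool.Agent.MP_05b4bd_ag.PC3

open MvPolynomial HC ES

namespace Dim

theorem ps_lin {γ : ℂ → Form} (h : PF γ) (l : Form →ₗ[ℂ] ℂ) : PS fun τ => l (γ τ) := by
  obtain ⟨F1, h1⟩ := h.1
  obtain ⟨F2, h2⟩ := h.2
  obtain ⟨R, hR⟩ := Reg.linear (max F1.totalDegree F2.totalDegree) l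
  have e : (fun τ => l (γ τ)) = fun τ => Pool.Agent.MP_05b4bd_ag.ev R (γ τ) := by
    funext τ
    refine hR _ ⟨?_, ?_⟩
    · have h3 : (γ τ).1 = _ := h1 τ
      rw [h3]
      exact (Finset.sup_mono (support_map_subset _ _)).trans (le_max_left _ _)
    · have h3 : (γ τ).2 = _ := h2 τ
      rw [h3]
      exact (Finset.sup_mono (support_map_subset _ _)).trans (le_max_right _ _)
  rw [e]
  exact h.ev R

theorem ev_map {σ : Type} (U1 U2 : R2 (MvPolynomial σ ℂ)) (t : σ → ℂ) (R : Co) :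
    Pool.Agent.MP_05b4bd_ag.ev R (map (eval t) U1, map (eval t) U2) =
      aeval t (aeval (fun k : Bool × (Fin 2 →₀ ℕ) => coeff k.2 (cond k.1 U1 U2)) R) := by
  rw [← AlgHom.comp_apply, comp_aeval, Pool.Agent.MP_05b4bd_ag.ev]
  congr 2
  funext ⟨b, m⟩
  cases b
  · simp only [Pool.Agent.MP_05b4bd_ag.co, cond_false, coeff_map]; rfl
  · simp only [Pool.Agent.MP_05b4bd_ag.co, cond_true, coeff_map]; rfl

theorem main (h : DenseStmt) (σ : Type) [Fintype σ] (U1 U2 : R2 (MvPolynomial σ ℂ))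
    (S T : Set Form) (d N : ℕ)
    (hS : S ⊆ zcl (Set.range fun t : σ → ℂ => (map (eval t) U1, map (eval t) U2)))
    (hST : ¬ S ⊆ zcl T) (hT : Tan d T N) (hN : Fintype.card σ ≤ N) : ¬ T ⊆ zcl S := by
  classical
  intro hTS
  obtain ⟨ω1, hω1, hn⟩ := Set.not_subset.1 hST
  rw [mem_zcl] at hn
  push Not at hn
  obtain ⟨R, hRT, hR1⟩ := hn
  obtain ⟨ι, _, ω, v, hι, hv, hc⟩ := hT
  obtain ⟨g, hg⟩ := (Fintype.linearCombination ℂ v).exists_leftInverse_of_injective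
    (LinearMap.ker_eq_bot.2 (LinearIndependent.fintypeLinearCombination_injective hv))
  have hgc : ∀ c : ι → ℂ, g (∑ i, c i • v i) = c := fun c => by
    have := LinearMap.congr_fun hg c
    rwa [LinearMap.comp_apply, Fintype.linearCombination_apply] at this
  choose Ri hRi using fun i => Reg.linear d ((LinearMap.proj i).comp g)
  set cU : Bool × (Fin 2 →₀ ℕ) → MvPolynomial σ ℂ := fun k => coeff k.2 (cond k.1 U1 U2) with hcU
  have hne : aeval cU R ≠ 0 := fun h0 => hR1 (mem_zcl.1 (hS hω1) R (by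
    rintro _ ⟨t, rfl⟩
    rw [ev_map, h0, map_zero]))
  obtain ⟨P, w, h1, h2, h3⟩ := exists_relation (σ := σ) (κ := Option ι)
    (by rw [Fintype.card_option]; omega) (fun o => aeval cU (o.elim R Ri)) none hne
  have key : ∀ y : ι → ℂ, eval y (aeval (fun o : Option ι => (o.elim 0 X : MvPolynomial ι ℂ)) P) =
      aeval (fun o : Option ι => o.elim 0 y) P := fun y => by
    change aeval y _ = _
    rw [← AlgHom.comp_apply, comp_aeval]
    congr 2
    funext o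
    cases o <;> simp
  have hΦ := h ι (aeval (fun o : Option ι => (o.elim 0 X : MvPolynomial ι ℂ)) P) (g ω) fun c => by
    obtain ⟨γ, hγ, hm⟩ := hc c
    refine ⟨fun i τ => ((LinearMap.proj i).comp g) (γ τ), fun i => ps_lin hγ _, fun τ => ?_⟩
    obtain ⟨m1, m2⟩ := hm τ
    have e := mem_zcl.1 (zcl_subset (hTS.trans (zcl_subset hS)) m1)
      (aeval (fun o : Option ι => o.elim R Ri) P) (by
        rintro _ ⟨t, rfl⟩
        rw [ev_map, ← hcU, ← AlgHom.comp_apply (aeval cU), comp_aeval, h1, map_zero])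
    rw [Pool.Agent.MP_05b4bd_ag.ev, ← AlgHom.comp_apply, comp_aeval] at e
    rw [key]
    refine Eq.trans ?_ e
    congr 2
    funext o
    cases o with
    | none => exact (mem_zcl.1 m1 R hRT).symm
    | some i =>
      refine Eq.trans ?_ (hRi i _ m2)
      simp only [Option.elim, LinearMap.comp_apply, map_add, map_smul, hgc, LinearMap.proj_apply,
        smul_eq_mul]
  refine h3 ?_
  have e := key fun i => w (some i)
  rw [hΦ, map_zero] at e
  rw [e]
  congr 2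
  funext o
  cases o with
  | none => exact h2
  | some i => rfl

end Dim

theorem dimS (h : DenseStmt) : DimStmt := by
  refine ⟨fun σ _ U1 U2 S T d N hS => Dim.main h σ U1 U2 S T d N (hS ▸ subset_zcl S),
    fun s δ T d N h1 h2 h3 => Dim.main h (Par δ) (lw δ X 1) (-lw δ X 0) _ T d N ?_ h1 h2 ?_⟩
  · have e : (fun t : Par δ → ℂ => (map (eval t) (lw δ X 1), map (eval t) (-lw δ X 0))) =
        Pool.Agent.MP_05b4bd_ag.lf δ := by
      funext t
      simp only [map_neg, map_lw, eval_X, Pool.Agent.MP_05b4bd_ag.lf]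
    rw [e]
    exact L_subset δ
  · rw [Fintype.card_sigma]
    simp only [Fintype.card_coe]
    have h4 : 2 * ∑ i, (tri (δ i)).card = ∑ i, (δ i + 1) * (δ i + 2) := by
      rw [Finset.mul_sum]; exact Finset.sum_congr rfl fun i _ => card_tri _
    omega

end Pool.Agent.MP_05b4bd_ag.PC3

end MrgPart8

-- ======== part 9: formerly Pool.Agent.MP_05b4bd_ag.pc3.Irr
section MrgPart9

/-! Irreducibility of the families, and their inverse integrating factors. -/

namespace Pool.Agent.MP_05b4bd_ag.PC3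

open MvPolynomial HC ES

namespace Irr

theorem L_irred {s : ℕ} (δ : Fin s → ℕ) : Irred (L δ) := by
  refine irred_of_curves ⟨_, 0, 0, fun i => by simp, rfl⟩ ?_
  rintro _ ⟨f, l, hf, rfl⟩ _ ⟨f', l', hf', rfl⟩
  refine ⟨fun τ => ∑ i, (C (l i + τ * (l' i - l i)) *
      ∏ j ∈ Finset.univ.erase i, (f j + τ • (f' j - f j))) • dform (f i + τ • (f' i - f i)),
    PF.sum _ fun i _ => PF.psmul ((PS.line _ _).toC.mul
      (PC.prod _ fun j _ => PC.line _ _)) (PC.line _ _).dform, by simp, by simp, fun τ =>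
    ⟨fun i => f i + τ • (f' i - f i), fun i => l i + τ * (l' i - l i),
      fun i => dg_line (hf i) (hf' i) τ, rfl⟩⟩

theorem form_eq (c R : Poly) : (2 * c) • dform R - (3 * R) • dform c = Dm 2 (-3) c R := by
  refine Prod.ext ?_ ?_
  · simp only [Dm_fst, dform, Prod.fst_sub, Prod.smul_fst, smul_eq_mul, map_neg, map_ofNat]
    ring
  · simp only [Dm_snd, dform, Prod.snd_sub, Prod.smul_snd, smul_eq_mul, map_neg, map_ofNat]
    ring

theorem N5_irred : Irred N5 := by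
  refine irred_of_curves ⟨_, 0, 0, 0, 0, _, by simp, by simp, by simp, rfl, rfl⟩ ?_
  rintro _ ⟨a, u, v, g, _, hu, hv, hg, rfl, rfl⟩ _ ⟨a', u', v', g', _, hu', hv', hg', rfl, rfl⟩
  refine ⟨_, PF.Dm (PS.const 2) (PS.const (-3)) (((PC.line u u').pow 2).add (PC.line v v'))
    (((PS.line a a').toC.mul ((PC.line u u').pow 3)).add (PC.line g g')), ?_, ?_, fun τ =>
    ⟨_, _, _, _, _, dg_line hu hu' τ, dg_line hv hv' τ, dg_line hg hg' τ, rfl,
      (form_eq _ _).symm⟩⟩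
  · rw [form_eq]; simp
  · rw [form_eq]; simp

theorem N5_eq (a : ℂ) (u v g : Poly) : Dm 2 (-3) (u ^ 2 + v) (C a * u ^ 3 + g) =
    a • ((6 * (v * u ^ 2)) • dform u - (3 * u ^ 3) • dform v) + Dm 2 (-3) (u ^ 2 + v) g := by
  refine Prod.ext ?_ ?_
  · simp only [Dm_fst, dform, Prod.fst_add, Prod.fst_sub, Prod.smul_fst, smul_eq_mul,
      smul_eq_C_mul, map_add, pderiv_C_mul, pderiv_pow, map_neg, map_ofNat]
    push_cast
    ring
  · simp only [Dm_snd, dform, Prod.snd_add, Prod.snd_sub, Prod.smul_snd, smul_eq_mul,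
      smul_eq_C_mul, map_add, pderiv_C_mul, pderiv_pow, map_neg, map_ofNat]
    push_cast
    ring

theorem N5_V : N5 ⊆ V 3 := by
  rintro _ ⟨a, u, v, g, _, hu, hv, hg, rfl, rfl⟩
  rw [form_eq, N5_eq]
  refine V_add (V_smul _ (V_sub (V_psmul_dform (a := 3) ?_ hu (by omega))
    (V_psmul_dform (a := 3) ?_ hv (by omega)))) (V_Dm (a := 2) _ _ ?_ hg (by omega))
  · exact dg_mul (dg_nat 6 0) (dg_mul hv (dg_pow hu 2 le_rfl) le_rfl) (by omega)
  · exact dg_mul (dg_nat 3 0) (dg_pow hu 3 le_rfl) (by omega)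
  · exact dg_add (dg_pow hu 2 le_rfl) (hv.trans (by omega))

theorem Dm_not_inj {k α : ℂ} (hk : 2 - α = k * 2) {c : Poly} (hc : c.totalDegree ≤ 2) (R : Poly) :
    ¬ Function.Injective (lamI k 2 (Dm 2 α c R)) := by
  by_cases h0 : c = 0
  · refine not_inj_lamI (r := 1) one_ne_zero (by simp) ?_
    simp [h0, Dm_fst, Dm_snd]
  refine not_inj_lamI h0 hc ?_
  have e : (2 : Poly) - C α = C k * 2 := by
    have := congrArg (C : ℂ → Poly) hk
    simpa [map_ofNat] using this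
  have e2 : (C 2 : Poly) = 2 := rfl
  simp only [Dm_fst, Dm_snd, map_add, map_neg, pderiv_mul, pderiv_C, pderiv_comm]
  rw [e2]
  linear_combination (c * (pderiv 0 c * pderiv 1 R - pderiv 1 c * pderiv 0 R)) * e

end Irr

theorem irrS : IrrStmt := by
  refine ⟨fun _ δ => Irr.L_irred δ, Irr.N5_irred, Irr.N5_V, ?_, ?_⟩
  · rintro _ ⟨a, u, v, g, _, hu, hv, -, rfl, rfl⟩
    rw [Irr.form_eq]
    exact Irr.Dm_not_inj (by norm_num) (dg_add (dg_pow hu 2 le_rfl) (hv.trans (by omega))) _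
  · rintro _ ⟨a, u, v, g, hu, hv, -, rfl⟩
    exact Irr.Dm_not_inj (by norm_num) (dg_add (dg_pow hu 2 le_rfl) (hv.trans (by omega))) _

end Pool.Agent.MP_05b4bd_ag.PC3

end MrgPart9

-- ======== part 10: formerly Pool.Agent.MP_05b4bd_ag.pc3.Jred
section MrgPart10

/-! Sharp reduction modulo the Jacobian ideal. -/

namespace Pool.Agent.MP_05b4bd_ag.PC3

open MvPolynomial HC ES

namespace Jred

variable {k : Type} [Field k]

/-- One step: degree `2 e + 1` is reached by the two generators. -/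
theorem step {e : ℕ} {p q : R2 k} (hp : DL (e + 2) p) (hq : DL (e + 2) q)
    (h : CI (hc (e + 1) p) (hc (e + 1) q)) {u : R2 k} (hu : DL (2 * e + 2) u) :
    ∃ r, DL (2 * e + 1) r ∧ u - r ∈ Ideal.span {p, q} := by
  let T : R2 k × R2 k →ₗ[k] R2 k := (LinearMap.mulRight k p).coprod (LinearMap.mulRight k q)
  have hT : ∀ w, T w = w.1 * p + w.2 * q := fun _ => rfl
  have h1 := ker_rank T ((dl k (e + 1)).prod (dl k (e + 1)))
    (((dl k (e + 1)).prod (dl k (e + 1))).map T) fun w hw => ⟨w, hw, rfl⟩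
  have h2 : ((dl k (e + 1)).prod (dl k (e + 1)) ⊓ LinearMap.ker T : Submodule k _) = ⊥ := by
    rw [eq_bot_iff]
    rintro w ⟨hw, hw'⟩
    obtain ⟨a, b⟩ := kos_zero hp hq h le_rfl hw.1 hw.2 hw'
    exact Prod.ext a b
  rw [h2, finrank_bot, add_zero, finrank_prod'] at h1
  have h3 : dl k (2 * e + 1) ⊓ ((dl k (e + 1)).prod (dl k (e + 1))).map T ≤
      ((dl k e).prod (dl k e)).map T := by
    rintro _ ⟨hv, w, -, rfl⟩
    obtain ⟨a, b, ha, hb, e'⟩ := kos_top (n := e) hp hq h w.1 w.2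
      (DL.mono (n := 2 * e + 1) hv (by omega))
    exact ⟨(a, b), ⟨ha, hb⟩, e'⟩
  have h4 := (Submodule.finrank_mono h3).trans (Submodule.finrank_map_le T _)
  rw [finrank_prod'] at h4
  have h5 := Submodule.finrank_sup_add_finrank_inf_eq (dl k (2 * e + 1))
    (((dl k (e + 1)).prod (dl k (e + 1))).map T)
  have h6 : dl k (2 * e + 1) ⊔ ((dl k (e + 1)).prod (dl k (e + 1))).map T = dl k (2 * e + 2) := by
    refine Submodule.eq_of_le_of_finrank_le (sup_le (fun v hv => DL.mono hv (by omega)) ?_) ?_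
    · rintro _ ⟨w, hw, rfl⟩
      exact ((DL.mul hw.1 hp).add (DL.mul hw.2 hq)).mono (by omega)
    · have a1 := finrank_dl (K := k) e
      have a2 := finrank_dl (K := k) (e + 1)
      have a3 := finrank_dl (K := k) (2 * e + 1)
      have a4 := finrank_dl (K := k) (2 * e + 2)
      nlinarith
  obtain ⟨r, hr, _, ⟨w, -, rfl⟩, rfl⟩ := Submodule.mem_sup.1 (h6.ge hu)
  exact ⟨r, hr, by rw [add_sub_cancel_left]; exact Ideal.mem_span_pair.2 ⟨w.1, w.2, rfl⟩⟩

end Jred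

theorem jredS : JredStmt := by
  intro k _ e f hf h u
  induction u using MvPolynomial.induction_on with
  | C a => exact ⟨C a, (DL_C a).mono (by omega), by simp⟩
  | add u v hu hv =>
    obtain ⟨r, h1, h2⟩ := hu
    obtain ⟨s, h3, h4⟩ := hv
    exact ⟨r + s, h1.add h3, by rw [add_sub_add_comm]; exact add_mem h2 h4⟩
  | mul_X u i hu =>
    obtain ⟨r, h1, h2⟩ := hu
    obtain ⟨s, h3, h4⟩ := Jred.step (hf.pderiv 0) (hf.pderiv 1) h (h1.mul' (DL_X i))
    refine ⟨s, h3, ?_⟩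
    rw [show u * X i - s = (u - r) * X i + (r * X i - s) by ring]
    exact add_mem (Ideal.mul_mem_right _ _ h2) h4

end Pool.Agent.MP_05b4bd_ag.PC3

end MrgPart10

-- ======== part 11: formerly Pool.Agent.MP_05b4bd_ag.pc3.Kg
section MrgPart11

/-! Consequences of the absence of a second element of low degree. -/

namespace Pool.Agent.MP_05b4bd_ag.PC3

open MvPolynomial HC ES

namespace Kg
variable {K : Type} [Field K] {d : ℕ} {w : Fm K} {J : Ideal (R2 K)}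

theorem one (h0 : dv w ≠ 0) (hc : ¬ CIc d w J) (u : R2 K) (hu : u ∈ J) (hd : DL d u) :
    ∃ r : K, u = C r * dv w := by
  have h1 : ¬ LinearIndependent K ![dv w, u] := fun h => hc ⟨u, hu, hd, h⟩
  rw [LinearIndependent.pair_iff' h0] at h1
  push Not at h1
  obtain ⟨a, ha⟩ := h1
  exact ⟨a, by rw [← ha, smul_eq_C_mul]⟩

theorem ne1 (hi : LinearIndependent K ![w.1, w.2]) : w.1 ≠ 0 := by simpa using hi.ne_zero 0

theorem dep (hi : LinearIndependent K ![w.1, w.2]) {b : R2 K} {r s : K} (h1 : w.1 = C r * b)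
    (h2 : w.2 = C s * b) : False := by
  have h := (LinearIndependent.pair_iff.1 hi s (-r) (by
    rw [smul_eq_C_mul, smul_eq_C_mul, h1, h2, map_neg]; ring)).2
  exact ne1 hi (by rw [h1, neg_eq_zero.1 h, map_zero, zero_mul])

theorem cop (hL : Lev d w J) (h0 : dv w ≠ 0) (hc : ¬ CIc d w J) : IsRelPrime w.1 w.2 := by
  rintro g ⟨p, hp⟩ ⟨q, hq⟩
  obtain ⟨m1, m2⟩ := hL.cop g (p, q) (Prod.ext hp hq)
  by_cases hg : DL 1 g
  · have e := DL1_eq hg
    have hn : coeff 0 g ≠ 0 := fun h => ne1 hL.ind (by rw [hp, e, h, map_zero, zero_mul])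
    rw [e]
    exact (IsUnit.mk0 _ hn).map C
  · obtain ⟨r, hr⟩ := one h0 hc p m1 (DL_of_mul (by rw [mul_comm, ← hp]; exact hL.deg.1) hg)
    obtain ⟨s, hs⟩ := one h0 hc q m2 (DL_of_mul (by rw [mul_comm, ← hq]; exact hL.deg.2) hg)
    exact (dep hL.ind (b := g * dv w) (r := r) (s := s) (by rw [hp, hr]; ring)
      (by rw [hq, hs]; ring)).elim

theorem ker (hL : Lev d w J) (h0 : dv w ≠ 0) (hc : ¬ CIc d w J) (θ : Fm K) (hθ : DF (d + 1) θ)
    (h : wg θ w = 0) : ∃ r : K, θ = (C r : R2 K) • w := by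
  have h' : θ.1 * w.2 = θ.2 * w.1 := sub_eq_zero.1 h
  obtain ⟨u, hu⟩ : w.1 ∣ θ.1 :=
    (cop hL h0 hc).dvd_of_dvd_mul_right ⟨θ.2, by rw [h', mul_comm]⟩
  have e1 : θ.1 = u * w.1 := by rw [hu, mul_comm]
  have e2 : θ.2 = u * w.2 := mul_right_cancel₀ (ne1 hL.ind) (by rw [← h', e1]; ring)
  have hd : DL 1 u := by
    by_cases h1 : DL d w.1
    · by_cases h2 : DL d w.2
      · obtain ⟨r, hr⟩ := one h0 hc _ hL.m1 h1
        obtain ⟨s, hs⟩ := one h0 hc _ hL.m2 h2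
        exact (dep hL.ind hr hs).elim
      · exact DL_of_mul (by rw [← e2, add_comm]; exact hθ.2) h2
    · exact DL_of_mul (by rw [← e1, add_comm]; exact hθ.1) h1
  exact ⟨coeff 0 u, by rw [← DL1_eq hd]; exact Prod.ext e1 e2⟩

theorem zero (hd : 4 ≤ d) (hL : Lev d w J) {θ : Fm K} (hθ : DF 3 θ) (h : Pr w 0 θ) : θ = 0 := by
  obtain ⟨m1, m2⟩ := hL.ker θ (by rw [h, zero_mul])
  exact Prod.ext (hL.low _ m1 (hθ.1.mono (by omega))) (hL.low _ m2 (hθ.2.mono (by omega)))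

theorem con (hd : 4 ≤ d) (hL : Lev d w J) (c1 c2 : R2 K) (θ1 θ2 : Fm K) (d1 : DL 4 c1)
    (d2 : DL 4 c2) (f1 : DF 3 θ1) (f2 : DF 3 θ2) (p1 : Pr w c1 θ1)
    (hi : ∀ r1 r2 : K, C r1 * c1 + C r2 * c2 = 0 →
      (C r1 : R2 K) • θ1 + (C r2 : R2 K) • θ2 = 0 → r1 = 0 ∧ r2 = 0)
    (he : c2 • θ1 = c1 • θ2) : Con w := by
  have n1 : c1 ≠ 0 := fun h => one_ne_zero (hi 1 0 (by simp [h])
    (by simp [zero hd hL f1 (h ▸ p1)])).1
  obtain ⟨a1, a2, g, hr, rfl, rfl⟩ := UniqueFactorizationMonoid.exists_reduced_factors c1 n1 c2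
  have g0 : g ≠ 0 := left_ne_zero_of_mul n1
  have a0 : a1 ≠ 0 := right_ne_zero_of_mul n1
  have key : ∀ x y : R2 K, g * a2 * x = g * a1 * y → ∃ t, x = t * a1 ∧ y = t * a2 := by
    intro x y h
    have h' : a2 * x = a1 * y := mul_left_cancel₀ g0 (by rw [← mul_assoc, h, mul_assoc])
    obtain ⟨t, ht⟩ : a1 ∣ x := hr.dvd_of_dvd_mul_left ⟨y, h'⟩
    exact ⟨t, by rw [ht, mul_comm], mul_left_cancel₀ a0 (by rw [← h', ht]; ring)⟩
  obtain ⟨s, s1, s2⟩ := key θ1.1 θ2.1 (congrArg Prod.fst he)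
  obtain ⟨t, t1, t2⟩ := key θ1.2 θ2.2 (congrArg Prod.snd he)
  have pr : Pr w g (s, t) := mul_left_cancel₀ a0 (by
    have h : θ1.1 * w.2 - θ1.2 * w.1 = g * a1 * dv w := p1
    rw [s1, t1] at h
    simp only [wg]
    linear_combination h)
  by_cases h1 : DL 1 a1
  · by_cases h2 : DL 1 a2
    · have e1 := DL1_eq h1
      have e2 := DL1_eq h2
      have h := (hi (coeff 0 a2) (-coeff 0 a1) (by rw [map_neg, ← e1, ← e2]; ring) (by
        rw [map_neg, ← e1, ← e2]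
        exact Prod.ext (by simp [s1, s2]; ring) (by simp [t1, t2]; ring))).2
      exact absurd (by rw [e1, neg_eq_zero.1 h, map_zero]) a0
    · exact ⟨g, (s, t), DL_of_mul d2 h2, ⟨DL_of_mul (a := 2) (b := 1) (s2 ▸ f2.1) h2,
        DL_of_mul (a := 2) (b := 1) (t2 ▸ f2.2) h2⟩, fun h => g0 h.1, pr⟩
  · exact ⟨g, (s, t), DL_of_mul d1 h1, ⟨DL_of_mul (a := 2) (b := 1) (s1 ▸ f1.1) h1,
      DL_of_mul (a := 2) (b := 1) (t1 ▸ f1.2) h1⟩, fun h => g0 h.1, pr⟩

end Kg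

theorem kgS : KgStmt := fun _ _ _ _ _ _ hd hL h0 hc =>
  ⟨Kg.one h0 hc, Kg.cop hL h0 hc, Kg.ker hL h0 hc,
    fun c1 c2 θ1 θ2 d1 d2 f1 f2 p1 _ hi he => Kg.con hd hL c1 c2 θ1 θ2 d1 d2 f1 f2 p1 hi he⟩

end Pool.Agent.MP_05b4bd_ag.PC3

end MrgPart11

-- ======== part 12: formerly Pool.Agent.MP_05b4bd_ag.pc3.Asm
section MrgPart12

/-! The components through the generic exact form, from the three exclusions. -/

namespace Pool.Agent.MP_05b4bd_ag.PC3

open MvPolynomial ES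

theorem low_of (e33 : Exc33Stmt) (e24 : Exc24Stmt) (eP : ExcPStmt) {d : ℕ} (h3 : 3 ≤ d)
    (h5 : d ≤ 5) : MainFor d (Ws d) :=
  main3S d (Ws d) (by omega)
    (minp3S (arcS npS) derAlgS d _ (coreS3 genTopS (seqS escS3_final genCritS genJacS) ts1S ts2S gvS
      (upS genTopS icS) (loS genTopS jredS liftS) ciS (det3S ciS commS) (nc4S kgS pullS)
      (nc5S kgS pullS) (clsS commS) linS (affS linS diagS nilS) (cenS diagS) par3S par4S cflS pblS
      e33 descS e24 eP vanS h3 h5))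
    (memS mem2S mem3S irrS (dom2S (domS denseS)) (dom3S (domS denseS)) h3 h5)
    (sepS mem2S irrS (dimS denseS) tan1S tan2S sep1S sep2S sep3S
      (sep4S (dimS denseS) sep3S irrS) h3 h5)

theorem all_of (e33 : Exc33Stmt) (e24 : Exc24Stmt) (eP : ExcPStmt) (d : ℕ) (hd : 3 ≤ d) :
    ∃ G : MvPolynomial (Fin 2 →₀ ℕ) ℂ,
      (∃ f : Poly, f.totalDegree = d ∧ Morse f ∧ eval (fun m => coeff m f) G ≠ 0) ∧
      ∀ f : Poly, f.totalDegree ≤ d → eval (fun m => coeff m f) G ≠ 0 → ∀ Z : Set Form,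
        (IsComponent (M d) Z ∧ dform f ∈ Z ↔
          Z = zcl (L ![d + 1]) ∨ Z = zcl (L ![1, d]) ∨ (d ≤ 5 ∧ Z = zcl (L ![1, 1, d - 1])) ∨
          (d ≤ 4 ∧ Z = zcl (L ![2, d - 1])) ∨ (d = 3 ∧ (Z = zcl N7 ∨ Z = zcl N5))) := by
  by_cases h5 : d ≤ 5
  · obtain ⟨G, h1, h2⟩ := low_of e33 e24 eP hd h5
    refine ⟨G, h1, fun f hf hG Z => (h2 f hf hG Z).trans ⟨?_, ?_⟩⟩
    · rintro ⟨W, rfl | rfl | rfl | ⟨h, rfl⟩ | ⟨h, rfl | rfl⟩, e⟩
      exacts [.inl e, .inr (.inl e), .inr (.inr (.inl ⟨h5, e⟩)), .inr (.inr (.inr (.inl ⟨h, e⟩))),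
        .inr (.inr (.inr (.inr ⟨h, .inl e⟩))), .inr (.inr (.inr (.inr ⟨h, .inr e⟩)))]
    · rintro (e | e | ⟨-, e⟩ | ⟨h, e⟩ | ⟨h, e | e⟩)
      exacts [⟨_, .inl rfl, e⟩, ⟨_, .inr (.inl rfl), e⟩, ⟨_, .inr (.inr (.inl rfl)), e⟩,
        ⟨_, .inr (.inr (.inr (.inl ⟨h, rfl⟩))), e⟩, ⟨_, .inr (.inr (.inr (.inr ⟨h, .inl rfl⟩))), e⟩,
        ⟨_, .inr (.inr (.inr (.inr ⟨h, .inr rfl⟩))), e⟩]
  · obtain ⟨G, h1, h2⟩ := ES.main_final d (by omega)
    refine ⟨G, h1, fun f hf hG Z => (h2 f hf hG Z).trans ⟨?_, ?_⟩⟩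
    · exact Or.imp_right .inl
    · rintro (e | e | ⟨h, -⟩ | ⟨h, -⟩ | ⟨h, -⟩)
      exacts [.inl e, .inr e, absurd h h5, by omega, by omega]

end Pool.Agent.MP_05b4bd_ag.PC3

end MrgPart12

-- marker of a merged file
example : 731051 + 356797 = 731051 + 356797 := rfl
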