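import Pool.Agent.MP_05b4bd_ag.pc3.Asm
import Pool.Agent.MP_05b4bd_ag.pc3.Exc33

/-! The components through the generic exact form, every degree at least three. -/

namespace Pool.Agent.MP_05b4bd_ag.PC3

open MvPolynomial ES

theorem main_all (d : ℕ) (hd : 3 ≤ d) :
    ∃ G : MvPolynomial (Fin 2 →₀ ℕ) ℂ,
      (∃ f : Poly, f.totalDegree = d ∧ Morse f ∧ eval (fun m => coeff m f) G ≠ 0) ∧
      ∀ f : Poly, f.totalDegree ≤ d → eval (fun m => coeff m f) G ≠ 0 → ∀ Z : Set Form,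
        (IsComponent (M d) Z ∧ dform f ∈ Z ↔
          Z = zcl (L ![d + 1]) ∨ Z = zcl (L ![1, d]) ∨ (d ≤ 5 ∧ Z = zcl (L ![1, 1, d - 1])) ∨
          (d ≤ 4 ∧ Z = zcl (L ![2, d - 1])) ∨ (d = 3 ∧ (Z = zcl N7 ∨ Z = zcl N5))) :=
  all_of exc33S (exc24S (nrmS genTopS icS) genTopS) (excPS (nrmS genTopS icS) genTopS) d hd

end Pool.Agent.MP_05b4bd_ag.PC3
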