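import Pool.Agent.MP_05b4bd_ag.esc.Bx

/-! Closed conic pairs: the families over an arbitrary field and the statement of the block. -/

namespace Pool.Agent.MP_05b4bd_ag.CN

open MvPolynomial HC

variable {K : Type*} [Field K]

/-- A line of vector fields, almost all of whose points have the property `S`. -/
def Lim (S : R2 K → R2 K → Prop) (P Q : R2 K) : Prop :=
  ∃ (A B : R2 K) (s : Finset K), ∀ t ∉ s, S (P + C t * A) (Q + C t * B)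

/-- `l g df + m f dg`, `deg f ≤ a`, `deg g ≤ b`. -/
def Lg2 (a b : ℕ) (P Q : R2 K) : Prop := ∃ (f g : R2 K) (l m : K), DL (a + 1) f ∧ DL (b + 1) g ∧
  P = C l * g * pderiv 1 f + C m * f * pderiv 1 g ∧
  Q = -(C l * g * pderiv 0 f + C m * f * pderiv 0 g)

/-- `l g h df + m f h dg + r f g dh`, `deg f, deg g ≤ 1`, `deg h ≤ n`. -/
def Lg3 (n : ℕ) (P Q : R2 K) : Prop := ∃ (f g h : R2 K) (l m r : K),
  DL 2 f ∧ DL 2 g ∧ DL (n + 1) h ∧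
  P = C l * (g * h) * pderiv 1 f + C m * (f * h) * pderiv 1 g + C r * (f * g) * pderiv 1 h ∧
  Q = -(C l * (g * h) * pderiv 0 f + C m * (f * h) * pderiv 0 g + C r * (f * g) * pderiv 0 h)

/-- The polynomial `Sp` of `Fermat.lean` over any field. -/
noncomputable def Sq : ℕ → R2 K → R2 K → R2 K
  | 0, u, _ => u
  | N + 1, u, v => C (2 * (N : K) + 3)⁻¹ *
      (C (2 * (N : K) + 2) * (u ^ 2 + v) * Sq N u v + u * v ^ (N + 1))

/-- `2 c dG - (2 N + 1) G dc`, `c = u ^ 2 + v` a parabola, `G = e * Sq N u v + g`, `deg g ≤ n`. -/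
def Par (N n : ℕ) (P Q : R2 K) : Prop := ∃ (e : K) (u v g : R2 K), DL 2 u ∧ DL 2 v ∧ DL (n + 1) g ∧
  P = 2 * (u ^ 2 + v) * pderiv 1 (C e * Sq N u v + g) -
    (2 * (N : R2 K) + 1) * (C e * Sq N u v + g) * pderiv 1 (u ^ 2 + v) ∧
  Q = -(2 * (u ^ 2 + v) * pderiv 0 (C e * Sq N u v + g) -
    (2 * (N : R2 K) + 1) * (C e * Sq N u v + g) * pderiv 0 (u ^ 2 + v))

/-- The outcomes for `3 ≤ d ≤ 5` other than exactness. -/
def Out (d : ℕ) (P Q : R2 K) : Prop := Lim (Lg2 1 d) P Q ∨ Lim (Lg3 (d - 1)) P Q ∨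
  (d ≤ 4 ∧ Lim (Lg2 2 (d - 1)) P Q) ∨ (d = 3 ∧ (Par 1 2 P Q ∨ Par 2 2 P Q))

open PowerSeries LaurentSeries ES in
/-- A closed pair: `t = t1 dx + t2 dy`, `t ∧ w = c b`, `c dt = dc ∧ t`, `dw = ε b`. -/
def ClosedStmt : Prop := ∀ (k : Type) [Field k] [CharZero k] [IsAlgClosed k] (d : ℕ), 3 ≤ d → d ≤ 5 →
  ∀ (P Q b c t1 t2 : R2 k⟦X⟧) (ε : k⟦X⟧) (f : R2 k) (α β : k), Gen d f → DL (d + 1) P →
  DL (d + 1) Q → MvPolynomial.map cc P = pderiv 1 f → MvPolynomial.map cc Q = -pderiv 0 f →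
  ε ≠ 0 → pderiv 0 P + pderiv 1 Q = MvPolynomial.C ε * b → MvPolynomial.map cc b ≠ 0 →
  MvPolynomial.map cc b = MvPolynomial.C α * pderiv 0 f + MvPolynomial.C β * pderiv 1 f →
  DL 3 c → DL 2 t1 → DL 2 t2 → (t1 ≠ 0 ∨ t2 ≠ 0) → t1 * P + t2 * Q = c * b →
  c * (pderiv 0 t2 - pderiv 1 t1) = pderiv 0 c * t2 - pderiv 1 c * t1 →
  ∀ (Ω : Type) [Field Ω] [CharZero Ω] [IsAlgClosed Ω] (ψ : k⸨X⸩ →+* Ω),
    Out d (MvPolynomial.map (ψ.comp (coeL k)) P) (MvPolynomial.map (ψ.comp (coeL k)) Q)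

end Pool.Agent.MP_05b4bd_ag.CN
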